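import Mathlib

set_option autoImplicit false

/-! Project BM, block B1: differentiation of `∫ h(r t) w(t) dt` in `r`, and the fundamental
theorem of calculus on `(0, ∞)` with a one-sided limit at `0`. -/

open MeasureTheory Set Filter Topology

namespace Pool.Agent.Lib.BM

/-- Differentiation under the integral sign in the scaling parameter. -/
theorem mom_hasDerivAt {h h' w bound : ℝ → ℝ} {r₀ : ℝ} {s : Set ℝ} (hs : s ∈ 𝓝 r₀)
    (hspos : ∀ r ∈ s, 0 < r)
    (hh : ∀ x : ℝ, 0 < x → HasDerivAt h (h' x) x)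
    (hh'c : ContinuousOn h' (Ioi 0)) (hwc : ContinuousOn w (Ioi 0))
    (hbd : ∀ r ∈ s, ∀ t : ℝ, 0 < t → |t * h' (r * t) * w t| ≤ bound t)
    (hbi : IntegrableOn bound (Ioi 0))
    (hint : IntegrableOn (fun t => h (r₀ * t) * w t) (Ioi 0)) :
    HasDerivAt (fun r => ∫ t in Ioi (0:ℝ), h (r * t) * w t)
      (∫ t in Ioi (0:ℝ), t * h' (r₀ * t) * w t) r₀ := by
  have hr₀ : 0 < r₀ := hspos r₀ (mem_of_mem_nhds hs)
  have hhc : ContinuousOn h (Ioi 0) := fun x hx => (hh x hx).continuousAt.continuousWithinAt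
  have hlin : ∀ r : ℝ, 0 < r → ContinuousOn (fun t : ℝ => r * t) (Ioi 0) := fun r _ =>
    (continuous_const.mul continuous_id).continuousOn
  have hmaps : ∀ r : ℝ, 0 < r → MapsTo (fun t : ℝ => r * t) (Ioi 0) (Ioi 0) := fun r hr t ht =>
    mul_pos hr ht
  have hcF : ∀ r : ℝ, 0 < r → ContinuousOn (fun t => h (r * t) * w t) (Ioi 0) := fun r hr =>
    (hhc.comp (hlin r hr) (hmaps r hr)).mul hwc
  have hcF' : ContinuousOn (fun t => t * h' (r₀ * t) * w t) (Ioi 0) :=
    (continuousOn_id.mul (hh'c.comp (hlin r₀ hr₀) (hmaps r₀ hr₀))).mul hwc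
  have key := hasDerivAt_integral_of_dominated_loc_of_deriv_le
    (μ := volume.restrict (Ioi (0:ℝ))) (F := fun r t => h (r * t) * w t) (x₀ := r₀)
    (s := s) (bound := bound) hs ?_ hint (F' := fun r t => t * h' (r * t) * w t) ?_ ?_ hbi ?_
  · exact key.2
  · filter_upwards [hs] with r hr
    exact (hcF r (hspos r hr)).aestronglyMeasurable measurableSet_Ioi
  · exact hcF'.aestronglyMeasurable measurableSet_Ioi
  · refine (ae_restrict_iff' measurableSet_Ioi).2 (Filter.Eventually.of_forall ?_)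
    intro t ht r hr
    rw [Real.norm_eq_abs]
    exact hbd r hr t ht
  · refine (ae_restrict_iff' measurableSet_Ioi).2 (Filter.Eventually.of_forall ?_)
    intro t ht r hr
    have hlin' : HasDerivAt (fun r : ℝ => r * t) t r := by
      simpa using (hasDerivAt_id r).mul_const t
    have := ((hh (r * t) (mul_pos (hspos r hr) ht)).comp r hlin').mul_const (w t)
    refine this.congr_deriv ?_
    ring

/-- Fundamental theorem of calculus on `(0, ∞)`. -/
theorem ftc_Ioi {F f : ℝ → ℝ} {a b : ℝ} (hder : ∀ t : ℝ, 0 < t → HasDerivAt F (f t) t)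
    (hint : IntegrableOn f (Ioi 0)) (h0 : Tendsto F (𝓝[>] 0) (𝓝 a))
    (h1 : Tendsto F atTop (𝓝 b)) : ∫ t in Ioi (0:ℝ), f t = b - a := by
  classical
  let G : ℝ → ℝ := Function.update F 0 a
  have hG : ∀ t : ℝ, t ≠ 0 → G t = F t := fun t ht => Function.update_of_ne ht _ _
  have hG0 : G 0 = a := Function.update_self _ _ _
  have hev : ∀ t : ℝ, 0 < t → G =ᶠ[𝓝 t] F := by
    intro t ht
    filter_upwards [lt_mem_nhds ht] with s hs
    exact hG s hs.ne'
  have hcont : ContinuousWithinAt G (Ici 0) 0 := by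
    rw [← Set.Ioi_insert, continuousWithinAt_insert_self]
    rw [ContinuousWithinAt, hG0]
    refine h0.congr' ?_
    filter_upwards [self_mem_nhdsWithin] with s hs
    exact (hG s (ne_of_gt hs)).symm
  have hder' : ∀ t ∈ Ioi (0:ℝ), HasDerivAt G (f t) t := fun t ht =>
    (hder t ht).congr_of_eventuallyEq (hev t ht)
  have h1' : Tendsto G atTop (𝓝 b) := by
    refine h1.congr' ?_
    filter_upwards [eventually_gt_atTop (0:ℝ)] with s hs
    exact (hG s hs.ne').symm
  have := integral_Ioi_of_hasDerivAt_of_tendsto hcont hder' hint h1'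
  rw [this, hG0]

end Pool.Agent.Lib.BM
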