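import Pool.Agent.Lib.BM.TelCert
import Pool.Agent.Lib.BM.MomDiff

set_option autoImplicit false

/-! Project BM, block B1: the integrated telescoping identity. -/

open MeasureTheory Set Filter Topology

namespace Pool.Agent.Lib.BM

/-- Moments with a scaled argument. -/
noncomputable def mom (h m0 : ℝ → ℝ) (n : ℕ) (r : ℝ) : ℝ :=
  ∫ t in Ioi (0:ℝ), h (r * t) * m0 t * t ^ n

theorem tel_integral {g0 g1 m0 m1 m2 m3 m4 : ℝ → ℝ} {r q0 : ℝ} (hr : 0 < r)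
    (hg0 : ∀ x : ℝ, 0 < x → HasDerivAt g0 (g1 x / x) x)
    (hg1 : ∀ x : ℝ, 0 < x → HasDerivAt g1 (x * g0 x) x)
    (h0 : ∀ t : ℝ, 0 < t → HasDerivAt m0 (4 * m1 t / t) t)
    (h1 : ∀ t : ℝ, 0 < t → HasDerivAt m1 ((3 * m2 t + t ^ 2 * m0 t) / t) t)
    (h2 : ∀ t : ℝ, 0 < t → HasDerivAt m2 ((2 * m3 t + 2 * t ^ 2 * m1 t) / t) t)
    (h3 : ∀ t : ℝ, 0 < t → HasDerivAt m3 ((m4 t + 3 * t ^ 2 * m2 t) / t) t)
    (h4 : ∀ t : ℝ, 0 < t → HasDerivAt m4 (4 * t ^ 2 * m3 t / t) t)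
    (i01 : IntegrableOn (fun t => g0 (r * t) * m0 t * t ^ 1) (Ioi 0))
    (i03 : IntegrableOn (fun t => g0 (r * t) * m0 t * t ^ 3) (Ioi 0))
    (i11 : IntegrableOn (fun t => g1 (r * t) * m0 t * t ^ 1) (Ioi 0))
    (i13 : IntegrableOn (fun t => g1 (r * t) * m0 t * t ^ 3) (Ioi 0))
    (hl0 : Tendsto (telQ g0 g1 m0 m1 m2 m3 m4 r) (𝓝[>] 0) (𝓝 q0))
    (hl1 : Tendsto (telQ g0 g1 m0 m1 m2 m3 m4 r) atTop (𝓝 0)) :
    64 * (2 * mom g0 m0 3 r + mom g1 m0 3 r)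
      - 4 * (r ^ 2 * (25 * mom g0 m0 3 r + 5 * mom g1 m0 3 r)
        + 18 * mom g1 m0 1 r + 8 * mom g0 m0 1 r)
      + r ^ 2 * (r ^ 2 * (8 * mom g0 m0 3 r + mom g1 m0 3 r)
        + 12 * mom g1 m0 1 r + 8 * mom g0 m0 1 r) = -q0 := by
  have e : telI g0 g1 m0 r = fun t =>
      (128 - 100 * r ^ 2 + 8 * r ^ 4) * (g0 (r * t) * m0 t * t ^ 3)
      + (64 - 20 * r ^ 2 + r ^ 4) * (g1 (r * t) * m0 t * t ^ 3)
      + (12 * r ^ 2 - 72) * (g1 (r * t) * m0 t * t ^ 1)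
      + (8 * r ^ 2 - 32) * (g0 (r * t) * m0 t * t ^ 1) := by
    funext t
    simp only [telI]
    ring
  have I : IntegrableOn (telI g0 g1 m0 r) (Ioi 0) := by
    rw [e]
    exact (((i03.const_mul _).add (i13.const_mul _)).add (i11.const_mul _)).add (i01.const_mul _)
  have key := ftc_Ioi (F := telQ g0 g1 m0 m1 m2 m3 m4 r) (f := telI g0 g1 m0 r) (fun t ht =>
    tel_hasDerivAt hr ht (hg0 _ (mul_pos hr ht)) (hg1 _ (mul_pos hr ht)) (h0 t ht) (h1 t ht)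
      (h2 t ht) (h3 t ht) (h4 t ht)) I hl0 hl1
  have e2 : ∫ t in Ioi (0:ℝ), telI g0 g1 m0 r t =
      (128 - 100 * r ^ 2 + 8 * r ^ 4) * mom g0 m0 3 r
      + (64 - 20 * r ^ 2 + r ^ 4) * mom g1 m0 3 r
      + (12 * r ^ 2 - 72) * mom g1 m0 1 r
      + (8 * r ^ 2 - 32) * mom g0 m0 1 r := by
    rw [e]
    rw [integral_add (f := fun t => (128 - 100 * r ^ 2 + 8 * r ^ 4) * (g0 (r * t) * m0 t * t ^ 3)
      + (64 - 20 * r ^ 2 + r ^ 4) * (g1 (r * t) * m0 t * t ^ 3)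
      + (12 * r ^ 2 - 72) * (g1 (r * t) * m0 t * t ^ 1))
      (((i03.const_mul _).add (i13.const_mul _)).add (i11.const_mul _)) (i01.const_mul _),
      integral_add (f := fun t => (128 - 100 * r ^ 2 + 8 * r ^ 4) * (g0 (r * t) * m0 t * t ^ 3)
      + (64 - 20 * r ^ 2 + r ^ 4) * (g1 (r * t) * m0 t * t ^ 3))
      ((i03.const_mul _).add (i13.const_mul _)) (i11.const_mul _),
      integral_add (i03.const_mul _) (i13.const_mul _)]
    simp only [integral_const_mul, mom]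
  rw [e2] at key
  linear_combination key

end Pool.Agent.Lib.BM
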