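import Pool.Agent.Lib.BM.BesGr
import Pool.Agent.Lib.BM.TelInt

set_option autoImplicit false

/-! Project BM, block B1: the functions `Af`, `Bf` and their derivatives in `r`. -/

open MeasureTheory Set Filter Topology

namespace Pool.Agent.Lib.BM

noncomputable section

def Af (r : ℝ) : ℝ := ∫ t in Ioi (0:ℝ), I0 (r * t) * (I0 t * K0 t ^ 3) * t
def Af1 (r : ℝ) : ℝ := ∫ t in Ioi (0:ℝ), (r * t * I1 (r * t)) * (I0 t * K0 t ^ 3) * t
def Af2 (r : ℝ) : ℝ := r ^ 2 * ∫ t in Ioi (0:ℝ), I0 (r * t) * (I0 t * K0 t ^ 3) * t ^ 3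
def Af3 (r : ℝ) : ℝ := r ^ 2 * (2 * (∫ t in Ioi (0:ℝ), I0 (r * t) * (I0 t * K0 t ^ 3) * t ^ 3)
  + ∫ t in Ioi (0:ℝ), (r * t * I1 (r * t)) * (I0 t * K0 t ^ 3) * t ^ 3)

def Bf (r : ℝ) : ℝ := ∫ t in Ioi (0:ℝ), K0 (r * t) * K0 t ^ 4 * t
def Bf1 (r : ℝ) : ℝ := ∫ t in Ioi (0:ℝ), (-(r * t * K1 (r * t))) * K0 t ^ 4 * t
def Bf2 (r : ℝ) : ℝ := r ^ 2 * ∫ t in Ioi (0:ℝ), K0 (r * t) * K0 t ^ 4 * t ^ 3
def Bf3 (r : ℝ) : ℝ := r ^ 2 * (2 * (∫ t in Ioi (0:ℝ), K0 (r * t) * K0 t ^ 4 * t ^ 3)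
  + ∫ t in Ioi (0:ℝ), (-(r * t * K1 (r * t))) * K0 t ^ 4 * t ^ 3)

end

theorem Af_eq (r : ℝ) : Af r = mom I0 mI0 1 r := by simp [Af, mom, mI0]
theorem Af1_eq (r : ℝ) : Af1 r = mom thI mI0 1 r := by simp [Af1, mom, mI0, thI]
theorem Af2_eq (r : ℝ) : Af2 r = r ^ 2 * mom I0 mI0 3 r := by simp [Af2, mom, mI0]
theorem Af3_eq (r : ℝ) : Af3 r = r ^ 2 * (2 * mom I0 mI0 3 r + mom thI mI0 3 r) := by
  simp [Af3, mom, mI0, thI]
theorem Bf_eq (r : ℝ) : Bf r = mom K0 mK0 1 r := by simp [Bf, mom, mK0]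
theorem Bf1_eq (r : ℝ) : Bf1 r = mom thK mK0 1 r := by simp [Bf1, mom, mK0, thK]
theorem Bf2_eq (r : ℝ) : Bf2 r = r ^ 2 * mom K0 mK0 3 r := by simp [Bf2, mom, mK0]
theorem Bf3_eq (r : ℝ) : Bf3 r = r ^ 2 * (2 * mom K0 mK0 3 r + mom thK mK0 3 r) := by
  simp [Bf3, mom, mK0, thK]

/-! Growth of the weights. -/

theorem continuousOn_mK0 : ContinuousOn mK0 (Ioi 0) := continuousOn_K0.pow 4

theorem continuousOn_mI0 : ContinuousOn mI0 (Ioi 0) :=
  continuous_I0.continuousOn.mul (continuousOn_K0.pow 3)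

theorem ZB_mK0 : ZB (-(1/2)) mK0 :=
  (ZB_K0_one.pow 4).mono (by norm_num)

theorem EB_mK0 : EB 4 mK0 := (EB_K0_one.pow 4).mono (by norm_num)

theorem ZB_mI0 : ZB (-(3/8)) mI0 :=
  (ZB_I0_one.mul (ZB_K0_one.pow 3)).mono (by norm_num)

theorem EB_mI0 : EB 2 mI0 := (EB_I0_one.mul (EB_K0_one.pow 3)).mono (by norm_num)

/-! Integrability. -/

theorem integrable_I0_mI0 {r : ℝ} (hr : 0 ≤ r) (hr2 : r < 2) (n : ℕ) :
    IntegrableOn (fun t => I0 (r * t) * mI0 t * t ^ n) (Ioi 0) :=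
  integrableOn_of_growth (((ZB_I0 hr).mul ZB_mI0).mul (ZB.pow_id n))
    (by have : (0:ℝ) ≤ n := Nat.cast_nonneg n; linarith)
    (((EB_I0 hr).mul EB_mI0).mul (EB.pow_id n)) (by linarith)
    (((continuous_I0.comp (continuous_const.mul continuous_id)).continuousOn.mul
      continuousOn_mI0).mul (continuous_pow n).continuousOn)

theorem integrable_thI_mI0 {r : ℝ} (hr : 0 ≤ r) (hr2 : r < 2) (n : ℕ) :
    IntegrableOn (fun t => thI (r * t) * mI0 t * t ^ n) (Ioi 0) :=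
  integrableOn_of_growth (((ZB_thI hr).mul ZB_mI0).mul (ZB.pow_id n))
    (by have : (0:ℝ) ≤ n := Nat.cast_nonneg n; linarith)
    (((EB_thI hr).mul EB_mI0).mul (EB.pow_id n)) (by linarith)
    (((continuous_thI.comp (continuous_const.mul continuous_id)).continuousOn.mul
      continuousOn_mI0).mul (continuous_pow n).continuousOn)

theorem integrable_K0_mK0 {r : ℝ} (hr : 0 < r) (n : ℕ) :
    IntegrableOn (fun t => K0 (r * t) * mK0 t * t ^ n) (Ioi 0) :=
  integrableOn_of_growth (((ZB_K0 hr).mul ZB_mK0).mul (ZB.pow_id n))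
    (by have : (0:ℝ) ≤ n := Nat.cast_nonneg n; linarith)
    (((EB_K0 hr).mul EB_mK0).mul (EB.pow_id n)) (by linarith)
    (((continuousOn_scale continuousOn_K0 hr).mul continuousOn_mK0).mul
      (continuous_pow n).continuousOn)

theorem integrable_thK_mK0 {r : ℝ} (hr : 0 < r) (n : ℕ) :
    IntegrableOn (fun t => thK (r * t) * mK0 t * t ^ n) (Ioi 0) :=
  integrableOn_of_growth (((ZB_thK hr).mul ZB_mK0).mul (ZB.pow_id n))
    (by have : (0:ℝ) ≤ n := Nat.cast_nonneg n; linarith)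
    (((EB_thK hr).mul EB_mK0).mul (EB.pow_id n)) (by linarith)
    (((continuousOn_scale continuousOn_thK hr).mul continuousOn_mK0).mul
      (continuous_pow n).continuousOn)

theorem integrable_mK0_pow (n : ℕ) : IntegrableOn (fun t => mK0 t * t ^ n) (Ioi 0) :=
  integrableOn_of_growth (ZB_mK0.mul (ZB.pow_id n))
    (by have : (0:ℝ) ≤ n := Nat.cast_nonneg n; linarith)
    (EB_mK0.mul (EB.pow_id n)) (by norm_num)
    (continuousOn_mK0.mul (continuous_pow n).continuousOn)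

/-! Derivatives, `K` case. -/

theorem hasDerivAt_mom_K0 {r : ℝ} (hr : 0 < r) (n : ℕ) :
    HasDerivAt (mom K0 mK0 n) (mom thK mK0 n r / r) r := by
  have key := mom_hasDerivAt (h := K0) (h' := fun x => thK x / x) (w := fun t => mK0 t * t ^ n)
    (bound := fun t => (2 / r) * |mK0 t * t ^ n|) (r₀ := r) (s := Ioi (r / 2))
    (Ioi_mem_nhds (by linarith)) (fun ρ hρ => lt_trans (by positivity) hρ)
    (fun x hx => hasDerivAt_K0' hx)
    (continuousOn_thK.div continuousOn_id fun x hx => (ne_of_gt hx))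
    (continuousOn_mK0.mul (continuous_pow n).continuousOn) ?_
    ((integrable_mK0_pow n).abs.const_mul _) ?_
  · have e : (fun r => ∫ t in Ioi (0:ℝ), K0 (r * t) * (mK0 t * t ^ n)) = mom K0 mK0 n := by
      funext ρ
      simp only [mom, mul_assoc]
    rw [e] at key
    refine key.congr_deriv ?_
    rw [mom, ← integral_div]
    refine setIntegral_congr_fun measurableSet_Ioi fun t ht => ?_
    have ht' : t ≠ 0 := ne_of_gt ht
    field_simp
  · intro ρ hρ t ht
    have hρ0 : 0 < ρ := lt_trans (by positivity) hρ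
    have h1 := abs_thK_le_one (mul_pos hρ0 ht)
    have e : t * (thK (ρ * t) / (ρ * t)) * (mK0 t * t ^ n) =
        (1 / ρ) * (thK (ρ * t) * (mK0 t * t ^ n)) := by
      field_simp
    rw [e, abs_mul, abs_mul, abs_of_pos (by positivity : (0:ℝ) < 1 / ρ)]
    have h2 : 1 / ρ ≤ 2 / r := by
      rw [div_le_div_iff₀ hρ0 hr]
      have : r / 2 < ρ := hρ
      linarith
    calc 1 / ρ * (|thK (ρ * t)| * |mK0 t * t ^ n|) ≤ 2 / r * (1 * |mK0 t * t ^ n|) := by
          gcongr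
      _ = 2 / r * |mK0 t * t ^ n| := by ring
  · have := integrable_K0_mK0 hr n
    refine this.congr_fun (fun t _ => ?_) measurableSet_Ioi
    simp only [mul_assoc]

theorem hasDerivAt_mom_thK {r : ℝ} (hr : 0 < r) (n : ℕ) :
    HasDerivAt (mom thK mK0 n) (r * mom K0 mK0 (n + 2) r) r := by
  have key := mom_hasDerivAt (h := thK) (h' := fun x => x * K0 x) (w := fun t => mK0 t * t ^ n)
    (bound := fun t => |mK0 t * t ^ (n + 1)|) (r₀ := r) (s := Ioi 0)
    (Ioi_mem_nhds hr) (fun ρ hρ => hρ)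
    (fun x hx => hasDerivAt_thK hx)
    (continuousOn_id.mul continuousOn_K0)
    (continuousOn_mK0.mul (continuous_pow n).continuousOn) ?_
    ((integrable_mK0_pow (n + 1)).abs) ?_
  · have e : (fun r => ∫ t in Ioi (0:ℝ), thK (r * t) * (mK0 t * t ^ n)) = mom thK mK0 n := by
      funext ρ
      simp only [mom, mul_assoc]
    rw [e] at key
    refine key.congr_deriv ?_
    rw [mom, ← integral_const_mul]
    refine setIntegral_congr_fun measurableSet_Ioi fun t ht => ?_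
    ring
  · intro ρ hρ t ht
    have hρt := mul_pos hρ ht
    have h1 : |ρ * t * K0 (ρ * t)| ≤ 1 := by
      rw [abs_of_nonneg (mul_nonneg hρt.le (K0_pos hρt).le)]
      exact (mul_le_mul_of_nonneg_left (K0_le_K1 hρt) hρt.le).trans (tK1_le_one hρt)
    have e : t * (ρ * t * K0 (ρ * t)) * (mK0 t * t ^ n) =
        (ρ * t * K0 (ρ * t)) * (mK0 t * t ^ (n + 1)) := by ring
    rw [e, abs_mul]
    calc |ρ * t * K0 (ρ * t)| * |mK0 t * t ^ (n + 1)| ≤ 1 * |mK0 t * t ^ (n + 1)| := by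
          gcongr
      _ = |mK0 t * t ^ (n + 1)| := one_mul _
  · have := integrable_thK_mK0 hr n
    refine this.congr_fun (fun t _ => ?_) measurableSet_Ioi
    simp only [mul_assoc]

/-! Derivatives, `I` case. -/

theorem integrable_exp_mI0 {ρ : ℝ} (hρ : ρ < 2) (n : ℕ) :
    IntegrableOn (fun t => Real.exp (ρ * t) * |mI0 t * t ^ n|) (Ioi 0) := by
  have hE : EB (-ρ) (fun t => Real.exp (ρ * t)) :=
    ⟨0, 1, zero_le_one, fun t _ => by simp⟩
  have hZ : ZB 0 (fun t => Real.exp (ρ * t)) := by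
    refine ⟨Real.exp |ρ|, (Real.exp_pos _).le, fun t ht ht1 => ?_⟩
    rw [abs_of_pos (Real.exp_pos _), Real.rpow_zero, mul_one]
    apply Real.exp_le_exp.2
    have := le_abs_self ρ
    have := abs_nonneg ρ
    nlinarith
  refine integrableOn_of_growth (hZ.mul (ZB_mI0.mul (ZB.pow_id n)).abs)
    (by have : (0:ℝ) ≤ n := Nat.cast_nonneg n; linarith)
    (hE.mul (EB_mI0.mul (EB.pow_id n)).abs) (by linarith) ?_
  exact (Real.continuous_exp.comp (continuous_const.mul continuous_id)).continuousOn.mul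
    (continuousOn_mI0.mul (continuous_pow n).continuousOn).abs

theorem hasDerivAt_mom_I0 {r : ℝ} (hr : 0 < r) (hr2 : r < 2) (n : ℕ) :
    HasDerivAt (mom I0 mI0 n) (mom thI mI0 n r / r) r := by
  have key := mom_hasDerivAt (h := I0) (h' := I1) (w := fun t => mI0 t * t ^ n)
    (bound := fun t => Real.exp ((r + 2) / 2 * t) * |mI0 t * t ^ (n + 1)|) (r₀ := r)
    (s := Ioo 0 ((r + 2) / 2))
    (Ioo_mem_nhds hr (by linarith)) (fun ρ hρ => hρ.1)
    (fun x _ => hasDerivAt_I0 x)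
    continuous_I1.continuousOn
    (continuousOn_mI0.mul (continuous_pow n).continuousOn) ?_
    (integrable_exp_mI0 (by linarith) (n + 1)) ?_
  · have e : (fun r => ∫ t in Ioi (0:ℝ), I0 (r * t) * (mI0 t * t ^ n)) = mom I0 mI0 n := by
      funext ρ
      simp only [mom, mul_assoc]
    rw [e] at key
    refine key.congr_deriv ?_
    rw [mom, ← integral_div]
    refine setIntegral_congr_fun measurableSet_Ioi fun t ht => ?_
    have hr' : r ≠ 0 := hr.ne'
    simp only [thI]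
    field_simp
  · intro ρ hρ t ht
    have hρt : 0 ≤ ρ * t := (mul_pos hρ.1 ht).le
    have e : t * I1 (ρ * t) * (mI0 t * t ^ n) = I1 (ρ * t) * (mI0 t * t ^ (n + 1)) := by ring
    rw [e, abs_mul, abs_of_nonneg (I1_nonneg hρt)]
    have h1 : I1 (ρ * t) ≤ Real.exp ((r + 2) / 2 * t) := by
      refine ((I1_le_I0 hρt).trans (I0_le_exp hρt)).trans (Real.exp_le_exp.2 ?_)
      exact mul_le_mul_of_nonneg_right hρ.2.le ht.le
    gcongr
  · have := integrable_I0_mI0 hr.le hr2 n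
    refine this.congr_fun (fun t _ => ?_) measurableSet_Ioi
    simp only [mul_assoc]

theorem hasDerivAt_mom_thI {r : ℝ} (hr : 0 < r) (hr2 : r < 2) (n : ℕ) :
    HasDerivAt (mom thI mI0 n) (r * mom I0 mI0 (n + 2) r) r := by
  have key := mom_hasDerivAt (h := thI) (h' := fun x => x * I0 x) (w := fun t => mI0 t * t ^ n)
    (bound := fun t => 2 * (Real.exp ((r + 2) / 2 * t) * |mI0 t * t ^ (n + 2)|)) (r₀ := r)
    (s := Ioo 0 ((r + 2) / 2))
    (Ioo_mem_nhds hr (by linarith)) (fun ρ hρ => hρ.1)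
    (fun x _ => hasDerivAt_thI x)
    (continuous_id.mul continuous_I0).continuousOn
    (continuousOn_mI0.mul (continuous_pow n).continuousOn) ?_
    ((integrable_exp_mI0 (by linarith) (n + 2)).const_mul 2) ?_
  · have e : (fun r => ∫ t in Ioi (0:ℝ), thI (r * t) * (mI0 t * t ^ n)) = mom thI mI0 n := by
      funext ρ
      simp only [mom, mul_assoc]
    rw [e] at key
    refine key.congr_deriv ?_
    rw [mom, ← integral_const_mul]
    refine setIntegral_congr_fun measurableSet_Ioi fun t ht => ?_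
    ring
  · intro ρ hρ t ht
    have hρt : 0 ≤ ρ * t := (mul_pos hρ.1 ht).le
    have e : t * (ρ * t * I0 (ρ * t)) * (mI0 t * t ^ n) =
        ρ * (I0 (ρ * t) * (mI0 t * t ^ (n + 2))) := by ring
    rw [e, abs_mul, abs_mul, abs_of_pos hρ.1, abs_of_pos (I0_pos _)]
    have h1 : I0 (ρ * t) ≤ Real.exp ((r + 2) / 2 * t) := by
      refine (I0_le_exp hρt).trans (Real.exp_le_exp.2 ?_)
      exact mul_le_mul_of_nonneg_right hρ.2.le ht.le
    have h2 : ρ ≤ 2 := by
      have := hρ.2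
      linarith
    have h3 : 0 ≤ I0 (ρ * t) * |mI0 t * t ^ (n + 2)| :=
      mul_nonneg (I0_pos _).le (abs_nonneg _)
    gcongr
  · have := integrable_thI_mI0 hr.le hr2 n
    refine this.congr_fun (fun t _ => ?_) measurableSet_Ioi
    simp only [mul_assoc]

end Pool.Agent.Lib.BM
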