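import Pool.Agent.Lib.BM.Defs

set_option autoImplicit false

/-!
# BM.Asm: the final assembly of project BM
-/

namespace Pool.Agent.Lib.BM

theorem asm (h1 : StP1) (h2 : StP2) (h3 : StP3) : det5 = 45 / (8 * Real.pi ^ 2) * Lf4 := by
  unfold StP1 at h1
  unfold StP2 at h2
  unfold StP3 at h3
  rw [h1, h2, h3]
  have h15 : Real.sqrt 15 ≠ 0 := by positivity
  have hp : Real.pi ≠ 0 := Real.pi_ne_zero
  field_simp
  ring

/-- The statement of `S16311` from the blocks. -/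
theorem frozen (h1 : StP1) (h2 : StP2) (h3 : StP3) :
    ∀ (I0 K0 : ℝ → ℝ) (IKM : ℕ → ℕ → ℕ → ℝ) (eta f : ℝ → ℝ),
      (∀ t : ℝ, I0 t = (1 / Real.pi) * ∫ θ in (0:ℝ)..Real.pi, Real.exp (t * Real.cos θ)) →
      (∀ t : ℝ, K0 t = ∫ u in Set.Ioi (0:ℝ), Real.exp (-(t * Real.cosh u))) →
      (∀ a b n : ℕ, IKM a b n = ∫ t in Set.Ioi (0:ℝ), I0 t ^ a * K0 t ^ b * t ^ n) →
      (∀ y : ℝ, eta y = Real.exp (-(2 * Real.pi * y / 24)) *
          ∏' n : ℕ, (1 - Real.exp (-(2 * Real.pi * ((n : ℝ) + 1) * y)))) →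
      (∀ y : ℝ, f y = (eta (3 * y) * eta (5 * y)) ^ 3 + (eta y * eta (15 * y)) ^ 3) →
      IKM 0 5 1 * IKM 2 3 3 - IKM 0 5 3 * IKM 2 3 1 =
        45 / (8 * Real.pi ^ 2) *
          ((2 * Real.pi) ^ 4 / Real.Gamma 4 * ∫ y in Set.Ioi (0:ℝ), f y * y ^ 3) := by
  intro I K J e g hI hK hJ he hg
  have eI : I = I0 := funext fun t => by rw [hI]; rfl
  have eK : K = K0 := funext fun t => by rw [hK]; rfl
  have eJ : J = IKM := funext fun a => funext fun b => funext fun n => by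
    rw [hJ, eI, eK]; rfl
  have ee : e = etaR := funext fun y => by rw [he]; rfl
  have eg : g = fR := funext fun y => by rw [hg, ee]; rfl
  rw [eJ, eg]
  exact asm h1 h2 h3

end Pool.Agent.Lib.BM
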