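import Pool.Agent.Lib.BM.BesDefs

/-!
# Modified Bessel functions of order zero, part A: integrals and derivatives
-/

set_option autoImplicit false

open MeasureTheory Set Filter Topology

namespace Pool.Agent.Lib.BM

/-- the `k`-th derivative of `I_0`. -/
noncomputable def Ik (k : ℕ) (t : ℝ) : ℝ :=
  (1 / Real.pi) * ∫ θ in (0:ℝ)..Real.pi, Real.cos θ ^ k * Real.exp (t * Real.cos θ)

/-- `(-1)^k` times the `k`-th derivative of `K_0`. -/
noncomputable def Kk (k : ℕ) (t : ℝ) : ℝ :=
  ∫ u in Set.Ioi (0:ℝ), Real.cosh u ^ k * Real.exp (-(t * Real.cosh u))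

theorem Ik_zero (t : ℝ) : Ik 0 t = I0 t := by simp [Ik, I0]
theorem Kk_zero (t : ℝ) : Kk 0 t = K0 t := by simp [Kk, K0]
theorem Ik_one (t : ℝ) : Ik 1 t = I1 t := by simp [Ik, I1]
theorem Kk_one (t : ℝ) : Kk 1 t = K1 t := by simp [Kk, K1]

theorem hasDerivAt_Ik (k : ℕ) (t : ℝ) : HasDerivAt (Ik k) (Ik (k + 1) t) t := by
  unfold Ik
  apply HasDerivAt.const_mul
  have h := intervalIntegral.hasDerivAt_integral_of_dominated_loc_of_deriv_le
    (μ := volume) (a := (0:ℝ)) (b := Real.pi)
    (F := fun (s : ℝ) (θ : ℝ) => Real.cos θ ^ k * Real.exp (s * Real.cos θ))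
    (F' := fun (s : ℝ) (θ : ℝ) => Real.cos θ ^ (k + 1) * Real.exp (s * Real.cos θ))
    (x₀ := t) (s := Metric.ball t 1) (bound := fun _ => Real.exp (|t| + 1))
    (Metric.ball_mem_nhds t one_pos) ?_ ?_ ?_ ?_ ?_ ?_
  · exact h.2
  · exact Eventually.of_forall fun s => (by fun_prop : Continuous _).aestronglyMeasurable
  · exact (by fun_prop : Continuous _).intervalIntegrable _ _
  · exact (by fun_prop : Continuous _).aestronglyMeasurable
  · refine Eventually.of_forall fun θ _ s hs => ?_
    rw [norm_mul, norm_pow, Real.norm_eq_abs, Real.norm_eq_abs, Real.abs_exp]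
    have h1 : |Real.cos θ| ^ (k + 1) ≤ 1 := pow_le_one₀ (abs_nonneg _) (Real.abs_cos_le_one θ)
    have h2 : s * Real.cos θ ≤ |t| + 1 := by
      have h3 : |s| ≤ |t| + 1 := by
        have : |s - t| < 1 := by simpa [Real.dist_eq] using hs
        have := abs_sub_abs_le_abs_sub s t
        linarith
      calc s * Real.cos θ ≤ |s * Real.cos θ| := le_abs_self _
        _ = |s| * |Real.cos θ| := abs_mul _ _
        _ ≤ |s| * 1 := mul_le_mul_of_nonneg_left (Real.abs_cos_le_one θ) (abs_nonneg _)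
        _ ≤ |t| + 1 := by linarith
    calc |Real.cos θ| ^ (k + 1) * Real.exp (s * Real.cos θ) ≤ 1 * Real.exp (|t| + 1) :=
          mul_le_mul h1 (Real.exp_le_exp.mpr h2) (Real.exp_pos _).le zero_le_one
      _ = _ := one_mul _
  · exact intervalIntegrable_const
  · refine Eventually.of_forall fun θ _ s _ => ?_
    have h1 : HasDerivAt (fun s : ℝ => Real.exp (s * Real.cos θ))
        (Real.exp (s * Real.cos θ) * (1 * Real.cos θ)) s :=
      ((hasDerivAt_id s).mul_const (Real.cos θ)).exp
    exact (h1.const_mul (Real.cos θ ^ k)).congr_deriv (by ring)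

theorem sq_div_two_le_cosh_sub_one (u : ℝ) : 1 + u ^ 2 / 2 ≤ Real.cosh u := by
  have h1 : Real.cosh u = 1 + 2 * Real.sinh (u / 2) ^ 2 := by
    have h2 := Real.cosh_two_mul (u / 2)
    have h3 := Real.cosh_sq (u / 2)
    have h4 : 2 * (u / 2) = u := by ring
    rw [h4] at h2
    rw [h2, h3]; ring
  have h5 : (u / 2) ^ 2 ≤ Real.sinh (u / 2) ^ 2 := by
    rcases le_total 0 u with hu | hu
    · have : u / 2 ≤ Real.sinh (u / 2) := Real.self_le_sinh_iff.mpr (by linarith)
      exact pow_le_pow_left₀ (by linarith) this 2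
    · have : Real.sinh (u / 2) ≤ u / 2 := Real.sinh_le_self_iff.mpr (by linarith)
      have h6 : (-(u / 2)) ^ 2 ≤ (-Real.sinh (u / 2)) ^ 2 :=
        pow_le_pow_left₀ (by linarith) (by linarith) 2
      nlinarith [h6]
  rw [h1]; nlinarith

theorem integrable_exp_neg_cosh {s : ℝ} (hs : 0 < s) :
    IntegrableOn (fun u => Real.exp (-(s * Real.cosh u))) (Ioi 0) := by
  have h1 : Integrable (fun u : ℝ => Real.exp (-(s / 2) * u ^ 2)) :=
    integrable_exp_neg_mul_sq (by linarith)
  refine (h1.integrableOn).mono' (by fun_prop : Continuous _).aestronglyMeasurable ?_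
  refine Eventually.of_forall fun u => ?_
  rw [Real.norm_eq_abs, Real.abs_exp]
  apply Real.exp_le_exp.mpr
  have := sq_div_two_le_cosh_sub_one u
  nlinarith

theorem cosh_pow_mul_exp_le (k : ℕ) {s : ℝ} (hs : 0 < s) (u : ℝ) :
    Real.cosh u ^ k * Real.exp (-(2 * s * Real.cosh u)) ≤
      (k.factorial / s ^ k) * Real.exp (-(s * Real.cosh u)) := by
  have hc : 0 < Real.cosh u := Real.cosh_pos u
  have h1 : (s * Real.cosh u) ^ k / k.factorial ≤ Real.exp (s * Real.cosh u) :=
    Real.pow_div_factorial_le_exp (s * Real.cosh u) (by positivity) k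
  have h2 : Real.cosh u ^ k ≤ (k.factorial / s ^ k) * Real.exp (s * Real.cosh u) := by
    have hk : (0:ℝ) < k.factorial := by exact_mod_cast Nat.factorial_pos k
    rw [div_le_iff₀ hk, mul_pow] at h1
    have hsk : 0 < s ^ k := by positivity
    rw [div_mul_eq_mul_div, le_div_iff₀ hsk]
    linarith
  calc Real.cosh u ^ k * Real.exp (-(2 * s * Real.cosh u))
      ≤ ((k.factorial / s ^ k) * Real.exp (s * Real.cosh u)) *
          Real.exp (-(2 * s * Real.cosh u)) :=
        mul_le_mul_of_nonneg_right h2 (Real.exp_pos _).le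
    _ = _ := by rw [mul_assoc, ← Real.exp_add]; congr 2; ring

theorem integrable_Kk (k : ℕ) {t : ℝ} (ht : 0 < t) :
    IntegrableOn (fun u => Real.cosh u ^ k * Real.exp (-(t * Real.cosh u))) (Ioi 0) := by
  have h1 := (integrable_exp_neg_cosh (s := t / 2) (by linarith)).const_mul
    ((k.factorial : ℝ) / (t / 2) ^ k)
  refine h1.mono' (by fun_prop : Continuous _).aestronglyMeasurable ?_
  refine Eventually.of_forall fun u => ?_
  have h2 := cosh_pow_mul_exp_le k (s := t / 2) (by linarith) u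
  have h3 : 2 * (t / 2) * Real.cosh u = t * Real.cosh u := by ring
  rw [h3] at h2
  rw [Real.norm_eq_abs, abs_of_nonneg (by have := Real.cosh_pos u; positivity)]
  exact h2

theorem hasDerivAt_Kk (k : ℕ) {t : ℝ} (ht : 0 < t) :
    HasDerivAt (Kk k) (-Kk (k + 1) t) t := by
  unfold Kk
  have h := hasDerivAt_integral_of_dominated_loc_of_deriv_le
    (μ := volume.restrict (Ioi (0:ℝ)))
    (F := fun (s : ℝ) (u : ℝ) => Real.cosh u ^ k * Real.exp (-(s * Real.cosh u)))
    (F' := fun (s : ℝ) (u : ℝ) => -(Real.cosh u ^ (k + 1) * Real.exp (-(s * Real.cosh u))))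
    (x₀ := t) (s := Metric.ball t (t / 2))
    (bound := fun u => Real.cosh u ^ (k + 1) * Real.exp (-(t / 2 * Real.cosh u)))
    (Metric.ball_mem_nhds t (by linarith)) ?_ ?_ ?_ ?_ ?_ ?_
  · rw [integral_neg] at h
    exact h.2
  · exact Eventually.of_forall fun s => (by fun_prop : Continuous _).aestronglyMeasurable
  · exact integrable_Kk k ht
  · exact (by fun_prop : Continuous _).aestronglyMeasurable
  · refine Eventually.of_forall fun u s hs => ?_
    have hc : 0 < Real.cosh u := Real.cosh_pos u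
    have h3 : t / 2 < s := by
      have : |s - t| < t / 2 := by simpa [Real.dist_eq] using hs
      have := (abs_lt.mp this).1
      linarith
    rw [norm_neg, Real.norm_eq_abs, abs_of_nonneg (by positivity)]
    apply mul_le_mul_of_nonneg_left _ (by positivity)
    apply Real.exp_le_exp.mpr
    nlinarith
  · exact integrable_Kk (k + 1) (by linarith)
  · refine Eventually.of_forall fun u s _ => ?_
    have h1 : HasDerivAt (fun s : ℝ => Real.exp (-(s * Real.cosh u)))
        (Real.exp (-(s * Real.cosh u)) * (-(1 * Real.cosh u))) s :=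
      (((hasDerivAt_id s).mul_const (Real.cosh u)).neg).exp
    exact (h1.const_mul (Real.cosh u ^ k)).congr_deriv (by ring)

theorem hasDerivAt_I0 (t : ℝ) : HasDerivAt I0 (I1 t) t := by
  have h := hasDerivAt_Ik 0 t
  have e : Ik 0 = I0 := funext Ik_zero
  rw [e, Ik_one] at h
  exact h

theorem hasDerivAt_K0 {t : ℝ} (ht : 0 < t) : HasDerivAt K0 (-K1 t) t := by
  have h := hasDerivAt_Kk 0 ht
  have e : Kk 0 = K0 := funext Kk_zero
  rw [e, Kk_one] at h
  exact h

/-- `t (I_0 - I_0'') = I_0'`. -/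
theorem Ik_two (t : ℝ) : t * Ik 2 t = t * I0 t - I1 t := by
  have h1 : ∀ θ : ℝ, HasDerivAt (fun θ => Real.sin θ * Real.exp (t * Real.cos θ))
      (Real.cos θ * Real.exp (t * Real.cos θ) +
        Real.sin θ * (Real.exp (t * Real.cos θ) * (t * (-Real.sin θ)))) θ := fun θ =>
    (Real.hasDerivAt_sin θ).mul (((Real.hasDerivAt_cos θ).const_mul t).exp)
  have h2 := intervalIntegral.integral_eq_sub_of_hasDerivAt (a := 0) (b := Real.pi)
    (fun θ _ => h1 θ) ((by fun_prop : Continuous _).intervalIntegrable _ _)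
  rw [Real.sin_pi, Real.sin_zero, zero_mul, zero_mul, sub_zero] at h2
  have h3 : ∫ θ in (0:ℝ)..Real.pi, (Real.cos θ * Real.exp (t * Real.cos θ) +
        Real.sin θ * (Real.exp (t * Real.cos θ) * (t * (-Real.sin θ)))) =
      (∫ θ in (0:ℝ)..Real.pi, Real.cos θ ^ 1 * Real.exp (t * Real.cos θ)) -
      t * ((∫ θ in (0:ℝ)..Real.pi, Real.exp (t * Real.cos θ)) -
        ∫ θ in (0:ℝ)..Real.pi, Real.cos θ ^ 2 * Real.exp (t * Real.cos θ)) := by
    rw [← intervalIntegral.integral_sub ((by fun_prop : Continuous _).intervalIntegrable _ _)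
      ((by fun_prop : Continuous _).intervalIntegrable _ _),
      ← intervalIntegral.integral_const_mul,
      ← intervalIntegral.integral_sub ((by fun_prop : Continuous _).intervalIntegrable _ _)
      ((by fun_prop : Continuous _).intervalIntegrable _ _)]
    congr 1
    ext θ
    have := Real.sin_sq θ
    linear_combination (-(t * Real.exp (t * Real.cos θ))) * this
  rw [h3] at h2
  rw [← Ik_one]
  unfold Ik I0
  linear_combination (1 / Real.pi) * h2

theorem hasDerivAt_I1_of_ne {t : ℝ} (ht : t ≠ 0) : HasDerivAt I1 (I0 t - I1 t / t) t := by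
  have h := hasDerivAt_Ik 1 t
  have h2 : Ik 2 t = I0 t - I1 t / t := by
    have := Ik_two t
    field_simp
    linarith
  have e : Ik 1 = I1 := funext Ik_one
  rw [show 1 + 1 = 2 from rfl, h2, e] at h
  exact h

theorem hasDerivAt_I1 {t : ℝ} (ht : 0 < t) : HasDerivAt I1 (I0 t - I1 t / t) t :=
  hasDerivAt_I1_of_ne ht.ne'

/-- `t (K_0'' - K_0) = -K_0'`. -/
theorem Kk_two {t : ℝ} (ht : 0 < t) : t * Kk 2 t = t * K0 t + K1 t := by
  have h1 : ∀ u ∈ Ici (0:ℝ), HasDerivAt (fun u => Real.sinh u * Real.exp (-(t * Real.cosh u)))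
      (Real.cosh u * Real.exp (-(t * Real.cosh u)) +
        Real.sinh u * (Real.exp (-(t * Real.cosh u)) * (-(t * Real.sinh u)))) u := fun u _ =>
    (Real.hasDerivAt_sinh u).mul ((((Real.hasDerivAt_cosh u).const_mul t).neg).exp)
  have i0 := integrable_Kk 0 ht
  have i1 := integrable_Kk 1 ht
  have i2 := integrable_Kk 2 ht
  have i20 : IntegrableOn (fun u => Real.cosh u ^ 2 * Real.exp (-(t * Real.cosh u)) -
      Real.cosh u ^ 0 * Real.exp (-(t * Real.cosh u))) (Ioi 0) := i2.sub i0
  have e : ∀ u : ℝ, Real.cosh u * Real.exp (-(t * Real.cosh u)) +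
        Real.sinh u * (Real.exp (-(t * Real.cosh u)) * (-(t * Real.sinh u))) =
      Real.cosh u ^ 1 * Real.exp (-(t * Real.cosh u)) -
        t * (Real.cosh u ^ 2 * Real.exp (-(t * Real.cosh u)) -
          Real.cosh u ^ 0 * Real.exp (-(t * Real.cosh u))) := by
    intro u
    have := Real.cosh_sq u
    linear_combination (t * Real.exp (-(t * Real.cosh u))) * this
  have h3 : Tendsto (fun u => Real.sinh u * Real.exp (-(t * Real.cosh u))) atTop (𝓝 0) := by
    have h4 : Tendsto (fun x : ℝ => x ^ 1 * Real.exp (-(t * x))) atTop (𝓝 0) := by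
      have := Real.tendsto_pow_mul_exp_neg_atTop_nhds_zero 1
      have h5 : Tendsto (fun x : ℝ => (t * x) ^ 1 * Real.exp (-(t * x))) atTop (𝓝 0) :=
        this.comp (tendsto_id.const_mul_atTop ht)
      have h6 := h5.const_mul (1 / t)
      rw [mul_zero] at h6
      refine h6.congr fun x => ?_
      field_simp
    have h7 : Tendsto Real.cosh atTop atTop := by
      refine tendsto_atTop_mono (f := fun u => u) (fun u => ?_) tendsto_id
      have := sq_div_two_le_cosh_sub_one u
      nlinarith [sq_nonneg (u - 1)]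
    have h8 := h4.comp h7
    refine squeeze_zero' (Filter.eventually_atTop.mpr ⟨0, fun u hu => ?_⟩)
      (Eventually.of_forall fun u => ?_) h8
    · exact mul_nonneg (Real.sinh_nonneg_iff.mpr hu) (Real.exp_pos _).le
    · simp only [Function.comp, pow_one]
      exact mul_le_mul_of_nonneg_right (Real.sinh_lt_cosh u).le (Real.exp_pos _).le
  have i3 : IntegrableOn (fun u => Real.cosh u * Real.exp (-(t * Real.cosh u)) +
        Real.sinh u * (Real.exp (-(t * Real.cosh u)) * (-(t * Real.sinh u)))) (Ioi 0) := by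
    simp_rw [e]
    exact i1.sub (i20.const_mul t)
  have h2 := integral_Ioi_of_hasDerivAt_of_tendsto' h1 i3 h3
  rw [Real.sinh_zero, zero_mul, sub_zero] at h2
  simp_rw [e] at h2
  rw [integral_sub i1 (i20.const_mul t), integral_const_mul, integral_sub i2 i0] at h2
  have e0 : K0 t = ∫ u in Set.Ioi (0:ℝ), Real.cosh u ^ 0 * Real.exp (-(t * Real.cosh u)) := by
    rw [← Kk_zero]; rfl
  rw [e0, ← Kk_one]
  unfold Kk
  linarith

theorem hasDerivAt_K1 {t : ℝ} (ht : 0 < t) : HasDerivAt K1 (-K0 t - K1 t / t) t := by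
  have h := hasDerivAt_Kk 1 ht
  have h2 : -Kk 2 t = -K0 t - K1 t / t := by
    have := Kk_two ht
    field_simp
    linarith
  have e : Kk 1 = K1 := funext Kk_one
  rw [show 1 + 1 = 2 from rfl, h2, e] at h
  exact h

end Pool.Agent.Lib.BM
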