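import Pool.Agent.Lib.BM.BesA

/-!
# Modified Bessel functions of order zero and one, part B: bounds
-/

set_option autoImplicit false

open MeasureTheory Set Filter Topology

namespace Pool.Agent.Lib.BM

/-! ### `I_0`, `I_1` -/

theorem one_le_I0 (t : ℝ) : 1 ≤ I0 t := by
  have h1 : ∫ θ in (0:ℝ)..Real.pi, (1 + t * Real.cos θ) = Real.pi := by
    rw [intervalIntegral.integral_add ((by fun_prop : Continuous _).intervalIntegrable _ _)
      ((by fun_prop : Continuous _).intervalIntegrable _ _),
      intervalIntegral.integral_const_mul, integral_cos]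
    simp
  have h2 : ∫ θ in (0:ℝ)..Real.pi, (1 + t * Real.cos θ) ≤
      ∫ θ in (0:ℝ)..Real.pi, Real.exp (t * Real.cos θ) :=
    intervalIntegral.integral_mono_on Real.pi_pos.le
      ((by fun_prop : Continuous _).intervalIntegrable _ _)
      ((by fun_prop : Continuous _).intervalIntegrable _ _)
      (fun θ _ => by have := Real.add_one_le_exp (t * Real.cos θ); linarith)
  rw [h1] at h2
  unfold I0
  rw [one_div, inv_mul_eq_div, le_div_iff₀ Real.pi_pos]
  linarith

theorem I0_pos (t : ℝ) : 0 < I0 t := lt_of_lt_of_le one_pos (one_le_I0 t)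

theorem I0_le_exp {t : ℝ} (ht : 0 ≤ t) : I0 t ≤ Real.exp t := by
  have h2 : ∫ θ in (0:ℝ)..Real.pi, Real.exp (t * Real.cos θ) ≤
      ∫ _ in (0:ℝ)..Real.pi, Real.exp t :=
    intervalIntegral.integral_mono_on Real.pi_pos.le
      ((by fun_prop : Continuous _).intervalIntegrable _ _)
      ((by fun_prop : Continuous _).intervalIntegrable _ _)
      (fun θ _ => by
        apply Real.exp_le_exp.mpr
        have := Real.cos_le_one θ
        nlinarith)
  rw [intervalIntegral.integral_const, smul_eq_mul, sub_zero] at h2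
  unfold I0
  rw [one_div, inv_mul_eq_div, div_le_iff₀ Real.pi_pos]
  linarith

theorem I1_nonneg {t : ℝ} (ht : 0 ≤ t) : 0 ≤ I1 t := by
  have h2 : ∫ θ in (0:ℝ)..Real.pi, Real.cos θ ≤
      ∫ θ in (0:ℝ)..Real.pi, Real.cos θ * Real.exp (t * Real.cos θ) :=
    intervalIntegral.integral_mono_on Real.pi_pos.le
      ((by fun_prop : Continuous _).intervalIntegrable _ _)
      ((by fun_prop : Continuous _).intervalIntegrable _ _)
      (fun θ _ => by
        rcases le_total 0 (Real.cos θ) with h | h
        · have h3 : 1 ≤ Real.exp (t * Real.cos θ) := Real.one_le_exp (mul_nonneg ht h)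
          nlinarith
        · have h3 : Real.exp (t * Real.cos θ) ≤ 1 :=
            Real.exp_le_one_iff.mpr (mul_nonpos_of_nonneg_of_nonpos ht h)
          nlinarith)
  rw [integral_cos] at h2
  simp only [Real.sin_pi, Real.sin_zero, sub_zero] at h2
  unfold I1
  exact mul_nonneg (by have := Real.pi_pos; positivity) h2

theorem I1_le_I0 {t : ℝ} (_ht : 0 ≤ t) : I1 t ≤ I0 t := by
  unfold I1 I0
  refine mul_le_mul_of_nonneg_left ?_ (by have := Real.pi_pos; positivity)
  refine intervalIntegral.integral_mono_on Real.pi_pos.le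
      ((by fun_prop : Continuous _).intervalIntegrable _ _)
      ((by fun_prop : Continuous _).intervalIntegrable _ _)
      (fun θ _ => ?_)
  have := Real.cos_le_one θ
  have h3 := Real.exp_pos (t * Real.cos θ)
  nlinarith

theorem I1_le {t : ℝ} (ht : 0 ≤ t) : I1 t ≤ t * Real.exp t := by
  have h2 : ∫ θ in (0:ℝ)..Real.pi, Real.cos θ * Real.exp (t * Real.cos θ) ≤
      ∫ θ in (0:ℝ)..Real.pi, (Real.cos θ + t * Real.exp t) :=
    intervalIntegral.integral_mono_on Real.pi_pos.le
      ((by fun_prop : Continuous _).intervalIntegrable _ _)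
      ((by fun_prop : Continuous _).intervalIntegrable _ _)
      (fun θ _ => by
        have hc1 := Real.cos_le_one θ
        have hc2 := Real.neg_one_le_cos θ
        have het : 1 ≤ Real.exp t := Real.one_le_exp ht
        rcases le_total 0 (Real.cos θ) with h | h
        · have h3 : Real.exp (t * Real.cos θ) - 1 ≤
              t * Real.cos θ * Real.exp (t * Real.cos θ) := by
            have h4 := Real.add_one_le_exp (-(t * Real.cos θ))
            have h5 : Real.exp (-(t * Real.cos θ)) * Real.exp (t * Real.cos θ) = 1 := by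
              rw [← Real.exp_add]; simp
            have h6 := Real.exp_pos (t * Real.cos θ)
            nlinarith
          have h7 : Real.exp (t * Real.cos θ) ≤ Real.exp t := Real.exp_le_exp.mpr (by nlinarith)
          have h8 : t * Real.cos θ * Real.exp (t * Real.cos θ) ≤ t * 1 * Real.exp t := by
            gcongr
          have h9 : 0 ≤ Real.exp (t * Real.cos θ) - 1 := by
            have := Real.one_le_exp (mul_nonneg ht h); linarith
          nlinarith
        · have h3 := Real.add_one_le_exp (t * Real.cos θ)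
          have h4 : 0 < Real.exp (t * Real.cos θ) := Real.exp_pos _
          have h5 := mul_le_mul_of_nonpos_left h3 h
          have h7 : Real.cos θ ^ 2 ≤ 1 := by nlinarith
          have h8 := mul_le_mul_of_nonneg_left h7 ht
          have h6 : Real.cos θ * Real.exp (t * Real.cos θ) - Real.cos θ ≤ t := by
            nlinarith
          nlinarith)
  rw [intervalIntegral.integral_add ((by fun_prop : Continuous _).intervalIntegrable _ _)
      ((by fun_prop : Continuous _).intervalIntegrable _ _), integral_cos,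
      intervalIntegral.integral_const] at h2
  simp only [Real.sin_pi, Real.sin_zero, sub_zero, smul_eq_mul, zero_add] at h2
  unfold I1
  rw [one_div, inv_mul_eq_div, div_le_iff₀ Real.pi_pos]
  linarith

theorem I0_zero : I0 0 = 1 := by
  have := Real.pi_ne_zero
  simp [I0, this]

theorem I1_zero : I1 0 = 0 := by
  simp [I1]

theorem continuous_I0 : Continuous I0 :=
  continuous_iff_continuousAt.mpr fun t => (hasDerivAt_I0 t).continuousAt

theorem continuous_I1 : Continuous I1 := by
  have e : Ik 1 = I1 := funext Ik_one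
  rw [← e]
  exact continuous_iff_continuousAt.mpr fun t => (hasDerivAt_Ik 1 t).continuousAt

/-- `(t I_1)' = t I_0`. -/
theorem hasDerivAt_tI1 (t : ℝ) : HasDerivAt (fun t => t * I1 t) (t * I0 t) t := by
  have e : Ik 1 = I1 := funext Ik_one
  have h := hasDerivAt_Ik 1 t
  rw [e] at h
  refine ((hasDerivAt_id t).mul h).congr_deriv ?_
  have := Ik_two t
  simp only [id]
  rw [show 1 + 1 = 2 from rfl]
  linarith

/-! ### `K_0`, `K_1` -/

theorem integrable_K0 {t : ℝ} (ht : 0 < t) :
    IntegrableOn (fun u => Real.exp (-(t * Real.cosh u))) (Ioi 0) := integrable_exp_neg_cosh ht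

theorem integrable_K1 {t : ℝ} (ht : 0 < t) :
    IntegrableOn (fun u => Real.cosh u * Real.exp (-(t * Real.cosh u))) (Ioi 0) := by
  have := integrable_Kk 1 ht
  simpa using this

theorem K0_pos {t : ℝ} (ht : 0 < t) : 0 < K0 t := by
  unfold K0
  rw [setIntegral_pos_iff_support_of_nonneg_ae (Eventually.of_forall fun u => (Real.exp_pos _).le)
    (integrable_K0 ht)]
  have : (Function.support fun u => Real.exp (-(t * Real.cosh u))) ∩ Ioi 0 = Ioi 0 := by
    ext u
    simp [(Real.exp_pos _).ne']
  rw [this]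
  simp

theorem K0_le_K1 {t : ℝ} (ht : 0 < t) : K0 t ≤ K1 t := by
  unfold K0 K1
  refine setIntegral_mono (integrable_K0 ht) (integrable_K1 ht) fun u => ?_
  have h1 := Real.one_le_cosh u
  have h2 := Real.exp_pos (-(t * Real.cosh u))
  simp only
  nlinarith

theorem K1_pos {t : ℝ} (ht : 0 < t) : 0 < K1 t := lt_of_lt_of_le (K0_pos ht) (K0_le_K1 ht)

theorem tendsto_sinh_atTop : Tendsto Real.sinh atTop atTop := by
  refine tendsto_atTop_mono' atTop (f₁ := fun u => u) ?_ tendsto_id
  filter_upwards [eventually_ge_atTop 0] with u hu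
  exact Real.self_le_sinh_iff.mpr hu

theorem integral_cosh_mul_exp_sinh {t : ℝ} (ht : 0 < t) :
    IntegrableOn (fun u => Real.cosh u * Real.exp (-(t * Real.sinh u))) (Ioi 0) ∧
      ∫ u in Ioi (0:ℝ), Real.cosh u * Real.exp (-(t * Real.sinh u)) = 1 / t := by
  have h1 : ∀ u ∈ Ici (0:ℝ), HasDerivAt (fun u => -(1 / t) * Real.exp (-(t * Real.sinh u)))
      (Real.cosh u * Real.exp (-(t * Real.sinh u))) u := fun u _ => by
    refine (((((Real.hasDerivAt_sinh u).const_mul t).neg).exp).const_mul
      (-(1 / t))).congr_deriv ?_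
    field_simp
    rfl
  have h2 : Tendsto (fun u => -(1 / t) * Real.exp (-(t * Real.sinh u))) atTop (𝓝 0) := by
    have h3 : Tendsto (fun u => -(t * Real.sinh u)) atTop atBot :=
      tendsto_neg_atTop_atBot.comp (tendsto_sinh_atTop.const_mul_atTop ht)
    have := (Real.tendsto_exp_atBot.comp h3).const_mul (-(1 / t))
    simpa using this
  have hpos : ∀ u ∈ Ioi (0:ℝ), 0 ≤ Real.cosh u * Real.exp (-(t * Real.sinh u)) := fun u _ =>
    mul_nonneg (Real.cosh_pos u).le (Real.exp_pos _).le
  refine ⟨integrableOn_Ioi_deriv_of_nonneg' h1 hpos h2, ?_⟩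
  rw [integral_Ioi_of_hasDerivAt_of_nonneg' h1 hpos h2]
  simp

theorem K1_le_inv {t : ℝ} (ht : 0 < t) : K1 t ≤ 1 / t := by
  obtain ⟨h1, h2⟩ := integral_cosh_mul_exp_sinh ht
  rw [← h2]
  unfold K1
  refine setIntegral_mono (integrable_K1 ht) h1 fun u => ?_
  refine mul_le_mul_of_nonneg_left (Real.exp_le_exp.mpr ?_) (Real.cosh_pos u).le
  have := (Real.sinh_lt_cosh u).le
  nlinarith

theorem tK1_le_one {t : ℝ} (ht : 0 < t) : t * K1 t ≤ 1 := by
  have := K1_le_inv ht
  rw [le_div_iff₀ ht] at this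
  linarith

theorem exp_neg_le_tK1 {t : ℝ} (ht : 0 < t) : Real.exp (-t) ≤ t * K1 t := by
  obtain ⟨h1, h2⟩ := integral_cosh_mul_exp_sinh ht
  have h3 : ∫ u in Ioi (0:ℝ), Real.exp (-t) * (Real.cosh u * Real.exp (-(t * Real.sinh u))) ≤
      K1 t := by
    unfold K1
    refine setIntegral_mono_on (h1.const_mul _) (integrable_K1 ht) measurableSet_Ioi
      fun u hu => ?_
    have h4 : Real.cosh u ≤ Real.sinh u + 1 := by
      have h5 : Real.cosh u - Real.sinh u = Real.exp (-u) := by
        rw [Real.cosh_sub_sinh]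
      have h6 : Real.exp (-u) ≤ 1 := Real.exp_le_one_iff.mpr (by
        have : (0:ℝ) < u := hu
        linarith)
      linarith
    have h7 : Real.exp (-t) * Real.exp (-(t * Real.sinh u)) ≤ Real.exp (-(t * Real.cosh u)) := by
      rw [← Real.exp_add]
      apply Real.exp_le_exp.mpr
      nlinarith
    have h8 := Real.cosh_pos u
    calc Real.exp (-t) * (Real.cosh u * Real.exp (-(t * Real.sinh u)))
        = Real.cosh u * (Real.exp (-t) * Real.exp (-(t * Real.sinh u))) := by ring
      _ ≤ _ := mul_le_mul_of_nonneg_left h7 h8.le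
  rw [integral_const_mul, h2, mul_one_div, div_le_iff₀ ht] at h3
  linarith

theorem tK1_tendsto : Tendsto (fun t => t * K1 t) (𝓝[>] 0) (𝓝 1) := by
  have h1 : Tendsto (fun t : ℝ => Real.exp (-t)) (𝓝[>] 0) (𝓝 1) := by
    have : Continuous fun t : ℝ => Real.exp (-t) := by fun_prop
    have h := this.tendsto 0
    simp only [neg_zero, Real.exp_zero] at h
    exact h.mono_left nhdsWithin_le_nhds
  refine tendsto_of_tendsto_of_tendsto_of_le_of_le' h1 tendsto_const_nhds ?_ ?_
  · filter_upwards [self_mem_nhdsWithin] with t ht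
    exact exp_neg_le_tK1 ht
  · filter_upwards [self_mem_nhdsWithin] with t ht
    exact tK1_le_one ht

/-- `(t K_1)' = -t K_0`. -/
theorem hasDerivAt_tK1 {t : ℝ} (ht : 0 < t) :
    HasDerivAt (fun t => t * K1 t) (-(t * K0 t)) t := by
  refine ((hasDerivAt_id t).mul (hasDerivAt_K1 ht)).congr_deriv ?_
  simp only [id]
  field_simp
  ring

theorem K0_le_exp_mul {s t : ℝ} (hs : 0 < s) (hst : s ≤ t) :
    K0 t ≤ Real.exp (s - t) * K0 s := by
  unfold K0
  rw [← integral_const_mul]
  refine setIntegral_mono (integrable_K0 (by linarith)) ((integrable_K0 hs).const_mul _)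
    fun u => ?_
  simp only
  rw [← Real.exp_add]
  apply Real.exp_le_exp.mpr
  have := Real.one_le_cosh u
  nlinarith

theorem K1_le_exp_mul {s t : ℝ} (hs : 0 < s) (hst : s ≤ t) :
    K1 t ≤ Real.exp (s - t) * K1 s := by
  unfold K1
  rw [← integral_const_mul]
  refine setIntegral_mono (integrable_K1 (by linarith)) ((integrable_K1 hs).const_mul _)
    fun u => ?_
  simp only
  have h1 : Real.exp (-(t * Real.cosh u)) ≤ Real.exp (s - t) * Real.exp (-(s * Real.cosh u)) := by
    rw [← Real.exp_add]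
    apply Real.exp_le_exp.mpr
    have := Real.one_le_cosh u
    nlinarith
  have := Real.cosh_pos u
  calc Real.cosh u * Real.exp (-(t * Real.cosh u))
      ≤ Real.cosh u * (Real.exp (s - t) * Real.exp (-(s * Real.cosh u))) :=
        mul_le_mul_of_nonneg_left h1 this.le
    _ = _ := by ring

theorem K1_one_le : K1 1 ≤ 1 := by
  have := K1_le_inv one_pos
  simpa using this

theorem K1_le {t : ℝ} (ht : 1 ≤ t) : K1 t ≤ 4 * Real.exp (-t) := by
  have h1 := K1_le_exp_mul one_pos ht
  have h2 : Real.exp (1 - t) * K1 1 ≤ Real.exp (1 - t) * 1 :=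
    mul_le_mul_of_nonneg_left K1_one_le (Real.exp_pos _).le
  have h3 : Real.exp (1 - t) = Real.exp 1 * Real.exp (-t) := by rw [← Real.exp_add]; ring_nf
  have h4 : Real.exp 1 ≤ 4 := by
    have := Real.exp_one_lt_d9
    linarith
  have h5 : Real.exp 1 * Real.exp (-t) ≤ 4 * Real.exp (-t) :=
    mul_le_mul_of_nonneg_right h4 (Real.exp_pos _).le
  linarith

theorem K0_le {t : ℝ} (ht : 1 ≤ t) : K0 t ≤ 4 * Real.exp (-t) :=
  (K0_le_K1 (by linarith)).trans (K1_le ht)

theorem K0_le_sqrt {t : ℝ} (ht : 0 < t) :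
    K0 t ≤ Real.exp (-t) * Real.sqrt (Real.pi / (2 * t)) := by
  have h1 : Integrable (fun u : ℝ => Real.exp (-(t / 2) * u ^ 2)) :=
    integrable_exp_neg_mul_sq (by linarith)
  have h2 : K0 t ≤ ∫ u in Ioi (0:ℝ), Real.exp (-t) * Real.exp (-(t / 2) * u ^ 2) := by
    unfold K0
    refine setIntegral_mono (integrable_K0 ht) (h1.integrableOn.const_mul _) fun u => ?_
    simp only
    rw [← Real.exp_add]
    apply Real.exp_le_exp.mpr
    have := sq_div_two_le_cosh_sub_one u
    nlinarith
  rw [integral_const_mul, integral_gaussian_Ioi] at h2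
  have h3 : Real.sqrt (Real.pi / (t / 2)) / 2 = Real.sqrt (Real.pi / (2 * t)) := by
    rw [div_eq_iff (by norm_num), show (2:ℝ) = Real.sqrt 4 by
      rw [show (4:ℝ) = 2 ^ 2 by norm_num, Real.sqrt_sq (by norm_num)], ← Real.sqrt_mul (by
        have := Real.pi_pos; positivity)]
    congr 1
    rw [show (Real.sqrt 4) = 2 by
      rw [show (4:ℝ) = 2 ^ 2 by norm_num, Real.sqrt_sq (by norm_num)]]
    field_simp
    norm_num
  rw [h3] at h2
  exact h2

theorem hasDerivAt_K0_add_log {t : ℝ} (ht : 0 < t) :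
    HasDerivAt (fun t => K0 t + Real.log t) ((1 - t * K1 t) / t) t := by
  refine ((hasDerivAt_K0 ht).add (Real.hasDerivAt_log ht.ne')).congr_deriv ?_
  field_simp
  ring

theorem monotoneOn_K0_add_log : MonotoneOn (fun t => K0 t + Real.log t) (Ioi 0) := by
  refine monotoneOn_of_deriv_nonneg (convex_Ioi 0)
    (fun t ht => (hasDerivAt_K0_add_log ht).continuousAt.continuousWithinAt)
    (fun t ht => ?_) (fun t ht => ?_)
  · rw [interior_Ioi] at ht
    exact (hasDerivAt_K0_add_log ht).differentiableAt.differentiableWithinAt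
  · rw [interior_Ioi] at ht
    rw [(hasDerivAt_K0_add_log ht).deriv]
    exact div_nonneg (by have := tK1_le_one ht; linarith) (le_of_lt ht)

theorem K0_le_one_sub_log {t : ℝ} (ht : 0 < t) (ht1 : t ≤ 1) : K0 t ≤ 1 - Real.log t := by
  have h1 := monotoneOn_K0_add_log (show t ∈ Ioi (0:ℝ) from ht)
    (mem_Ioi.mpr one_pos) ht1
  simp only [Real.log_one, add_zero] at h1
  have h2 := (K0_le_K1 one_pos).trans K1_one_le
  linarith

theorem K0_le_log {t : ℝ} (ht : 0 < t) (ht1 : t ≤ 1) : K0 t ≤ 2 - Real.log t := by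
  have := K0_le_one_sub_log ht ht1
  linarith

theorem one_sub_tK1_nonneg {t : ℝ} (ht : 0 < t) : 0 ≤ 1 - t * K1 t := by
  have := tK1_le_one ht; linarith

theorem one_sub_tK1_le' {t : ℝ} (ht : 0 < t) (ht1 : t ≤ 1) :
    1 - t * K1 t ≤ t ^ 2 * (3 / 4 - Real.log t / 2) := by
  set h : ℝ → ℝ := fun t => t * K1 t + t ^ 2 * (3 / 4 - Real.log t / 2) with hh
  have hd : ∀ s : ℝ, 0 < s → HasDerivAt h (s * (1 - Real.log s - K0 s)) s := by
    intro s hs
    have h1 : HasDerivAt (fun t : ℝ => t ^ 2 * (3 / 4 - Real.log t / 2))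
        ((2 * s) * (3 / 4 - Real.log s / 2) + s ^ 2 * (-(s⁻¹ / 2))) s := by
      have h2 : HasDerivAt (fun t : ℝ => t ^ 2) (2 * s) s := by
        simpa using hasDerivAt_pow 2 s
      have h3 : HasDerivAt (fun t : ℝ => 3 / 4 - Real.log t / 2) (-(s⁻¹ / 2)) s := by
        have := ((Real.hasDerivAt_log hs.ne').div_const 2).const_sub (3 / 4)
        exact this
      exact h2.mul h3
    refine ((hasDerivAt_tK1 hs).add h1).congr_deriv ?_
    field_simp
    ring
  have hmono : MonotoneOn h (Ioc 0 1) := by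
    refine monotoneOn_of_deriv_nonneg (convex_Ioc 0 1)
      (fun s hs => (hd s hs.1).continuousAt.continuousWithinAt)
      (fun s hs => ?_) (fun s hs => ?_)
    · rw [interior_Ioc] at hs
      exact (hd s hs.1).differentiableAt.differentiableWithinAt
    · rw [interior_Ioc] at hs
      rw [(hd s hs.1).deriv]
      have := K0_le_one_sub_log hs.1 hs.2.le
      exact mul_nonneg hs.1.le (by linarith)
  have hlim : Tendsto (fun s : ℝ => Real.exp (-s)) (𝓝[>] 0) (𝓝 1) := by
    have : Continuous fun t : ℝ => Real.exp (-t) := by fun_prop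
    have h := this.tendsto 0
    simp only [neg_zero, Real.exp_zero] at h
    exact h.mono_left nhdsWithin_le_nhds
  have hle : 1 ≤ h t := by
    refine le_of_tendsto hlim ?_
    filter_upwards [Ioc_mem_nhdsGT ht] with s hs
    have h1 := hmono ⟨hs.1, hs.2.trans ht1⟩ ⟨ht, ht1⟩ hs.2
    have h2 := exp_neg_le_tK1 hs.1
    have h3 : 0 ≤ s ^ 2 * (3 / 4 - Real.log s / 2) := by
      have := Real.log_nonpos hs.1.le (hs.2.trans ht1)
      exact mul_nonneg (sq_nonneg s) (by linarith)
    simp only [hh] at h1 ⊢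
    linarith
  simp only [hh] at hle
  linarith

theorem one_sub_tK1_le {t : ℝ} (ht : 0 < t) (ht1 : t ≤ 1) :
    1 - t * K1 t ≤ 2 * t ^ 2 * (1 + |Real.log t|) := by
  have h1 := one_sub_tK1_le' ht ht1
  have h2 := Real.log_nonpos ht.le ht1
  rw [abs_of_nonpos h2]
  nlinarith [sq_nonneg t, mul_nonneg (sq_nonneg t) (neg_nonneg.mpr h2)]

end Pool.Agent.Lib.BM
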