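import Pool.Agent.Lib.BM.BesB

/-!
# Modified Bessel functions of order zero and one, part C: integrability

Main result: `integrableOn_exp_IK`.
-/

set_option autoImplicit false

open MeasureTheory Set Filter Topology

namespace Pool.Agent.Lib.BM

theorem I1_le_exp {t : ℝ} (ht : 0 ≤ t) : I1 t ≤ Real.exp t := (I1_le_I0 ht).trans (I0_le_exp ht)

/-- a bound of `K_0` on the whole half line -/
theorem K0_le_all {t : ℝ} (ht : 0 < t) : K0 t ≤ (1 + |Real.log t|) * Real.exp (1 - t) := by
  have hl := abs_nonneg (Real.log t)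
  rcases le_total t 1 with h | h
  · have h1 := K0_le_one_sub_log ht h
    have h2 : (1:ℝ) ≤ Real.exp (1 - t) := Real.one_le_exp (by linarith)
    rw [abs_of_nonpos (Real.log_nonpos ht.le h)] at hl ⊢
    nlinarith
  · have h1 := K0_le_exp_mul one_pos h
    have h2 := (K0_le_K1 one_pos).trans K1_one_le
    have h3 := Real.exp_pos (1 - t)
    nlinarith [mul_nonneg hl h3.le]

/-- a bound of `t K_1` on the whole half line -/
theorem tK1_le_all {t : ℝ} (ht : 0 < t) : t * K1 t ≤ (1 + t) * Real.exp (1 - t) := by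
  rcases le_total t 1 with h | h
  · have h1 := tK1_le_one ht
    have h2 : (1:ℝ) ≤ Real.exp (1 - t) := Real.one_le_exp (by linarith)
    nlinarith
  · have h1 := K1_le_exp_mul one_pos h
    have h2 := K1_one_le
    have h3 := Real.exp_pos (1 - t)
    have h4 : K1 t ≤ Real.exp (1 - t) := by nlinarith
    nlinarith

theorem continuousOn_K0 : ContinuousOn K0 (Ioi 0) := fun _ ht =>
  (hasDerivAt_K0 ht).continuousAt.continuousWithinAt

theorem continuousOn_K1 : ContinuousOn K1 (Ioi 0) := fun _ ht =>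
  (hasDerivAt_K1 ht).continuousAt.continuousWithinAt

namespace BesCAux

theorem log_pow_le (c : ℕ) {t : ℝ} (ht : 0 < t) :
    (1 + |Real.log t|) ^ c ≤
      (c.factorial * 2 ^ c * Real.exp (1 / 2)) * (t ^ (-(1 / 2) : ℝ) + t ^ ((1 / 2) : ℝ)) := by
  have h1 := Real.pow_div_factorial_le_exp ((1 + |Real.log t|) / 2) (by positivity) c
  have hf : (0:ℝ) < c.factorial := by exact_mod_cast Nat.factorial_pos c
  rw [div_le_iff₀ hf, div_pow, div_le_iff₀ (by positivity)] at h1
  have h2 : Real.exp ((1 + |Real.log t|) / 2) =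
      Real.exp (1 / 2) * Real.exp (|Real.log t| / 2) := by
    rw [← Real.exp_add]; congr 1; ring
  have h3 : Real.exp (|Real.log t| / 2) ≤ t ^ (-(1 / 2) : ℝ) + t ^ ((1 / 2) : ℝ) := by
    rw [Real.rpow_def_of_pos ht, Real.rpow_def_of_pos ht]
    rcases le_total 0 (Real.log t) with h | h
    · rw [abs_of_nonneg h]
      have h4 : Real.log t / 2 = Real.log t * (1 / 2) := by ring
      rw [h4]
      have := Real.exp_pos (Real.log t * (-(1 / 2)))
      linarith
    · rw [abs_of_nonpos h]
      have h4 : -Real.log t / 2 = Real.log t * (-(1 / 2)) := by ring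
      rw [h4]
      have := Real.exp_pos (Real.log t * (1 / 2))
      linarith
  rw [h2] at h1
  calc (1 + |Real.log t|) ^ c
      ≤ Real.exp (1 / 2) * Real.exp (|Real.log t| / 2) * c.factorial * 2 ^ c := h1
    _ ≤ Real.exp (1 / 2) * (t ^ (-(1 / 2) : ℝ) + t ^ ((1 / 2) : ℝ)) * c.factorial * 2 ^ c := by
        gcongr
    _ = _ := by ring

theorem poly_le (m : ℕ) {s : ℝ} (hs : 0 < s) {t : ℝ} (ht : 0 < t) :
    (1 + t) ^ m ≤ (m.factorial / s ^ m * Real.exp s) * Real.exp (s * t) := by
  have h1 := Real.pow_div_factorial_le_exp (s * (1 + t)) (by positivity) m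
  have hf : (0:ℝ) < m.factorial := by exact_mod_cast Nat.factorial_pos m
  have hsm : 0 < s ^ m := by positivity
  rw [div_le_iff₀ hf, mul_pow] at h1
  have h2 : Real.exp (s * (1 + t)) = Real.exp s * Real.exp (s * t) := by
    rw [← Real.exp_add]; congr 1; ring
  rw [h2] at h1
  have h3 : (m.factorial / s ^ m * Real.exp s) * Real.exp (s * t) =
      (Real.exp s * Real.exp (s * t) * m.factorial) / s ^ m := by ring
  rw [h3, le_div_iff₀ hsm]
  linarith

end BesCAux

/-- the majorants are integrable -/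
theorem integrableOn_maj (m c : ℕ) {δ : ℝ} (hδ : 0 < δ) :
    IntegrableOn (fun t : ℝ => (1 + t) ^ m * (1 + |Real.log t|) ^ c * Real.exp (-(δ * t)))
      (Ioi 0) := by
  have h1 : IntegrableOn (fun t : ℝ => t ^ (-(1 / 2) : ℝ) * Real.exp (-(δ / 2) * t ^ (1:ℝ)))
      (Ioi 0) :=
    integrableOn_rpow_mul_exp_neg_mul_rpow (by norm_num) (by norm_num) (by linarith)
  have h2 : IntegrableOn (fun t : ℝ => t ^ ((1 / 2) : ℝ) * Real.exp (-(δ / 2) * t ^ (1:ℝ)))
      (Ioi 0) :=
    integrableOn_rpow_mul_exp_neg_mul_rpow (by norm_num) (by norm_num) (by linarith)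
  have h3 := (h1.add h2).const_mul ((m.factorial / (δ / 2) ^ m * Real.exp (δ / 2)) *
    (c.factorial * 2 ^ c * Real.exp (1 / 2)))
  refine h3.mono' ?_ ?_
  · refine ContinuousOn.aestronglyMeasurable ?_ measurableSet_Ioi
    have hlog : ContinuousOn Real.log (Ioi 0) :=
      Real.continuousOn_log.mono fun t ht => ne_of_gt ht
    fun_prop
  · rw [ae_restrict_iff' measurableSet_Ioi]
    refine Eventually.of_forall fun t ht => ?_
    have ht' : (0:ℝ) < t := ht
    have e1 := BesCAux.log_pow_le c ht'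
    have e2 := BesCAux.poly_le m (s := δ / 2) (by linarith) ht'
    rw [Real.norm_eq_abs, abs_of_nonneg (by positivity)]
    simp only [Pi.add_apply, Real.rpow_one]
    calc (1 + t) ^ m * (1 + |Real.log t|) ^ c * Real.exp (-(δ * t))
        ≤ ((m.factorial / (δ / 2) ^ m * Real.exp (δ / 2)) * Real.exp (δ / 2 * t)) *
            ((c.factorial * 2 ^ c * Real.exp (1 / 2)) *
              (t ^ (-(1 / 2) : ℝ) + t ^ ((1 / 2) : ℝ))) * Real.exp (-(δ * t)) := by
          gcongr
      _ = (m.factorial / (δ / 2) ^ m * Real.exp (δ / 2)) *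
            (c.factorial * 2 ^ c * Real.exp (1 / 2)) *
            ((t ^ (-(1 / 2) : ℝ) + t ^ ((1 / 2) : ℝ)) *
              (Real.exp (δ / 2 * t) * Real.exp (-(δ * t)))) := by ring
      _ = _ := by
          rw [← Real.exp_add]
          have : δ / 2 * t + -(δ * t) = -(δ / 2) * t := by ring
          rw [this]
          ring

/-- pointwise bound of a product of Bessel functions -/
theorem IK_le (n a b c d : ℕ) (hn : d ≤ n) {t : ℝ} (ht : 0 < t) :
    t ^ n * (I0 t ^ a * I1 t ^ b * K0 t ^ c * K1 t ^ d) ≤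
      Real.exp (c + d) * ((1 + t) ^ n * (1 + |Real.log t|) ^ c *
        Real.exp (-(((c:ℝ) + d - a - b) * t))) := by
  obtain ⟨k, rfl⟩ := Nat.exists_eq_add_of_le hn
  have hI0 := (I0_pos t).le
  have hI1 := I1_nonneg ht.le
  have hK0 := (K0_pos ht).le
  have hK1 := (K1_pos ht).le
  have a1 : I0 t ^ a ≤ Real.exp t ^ a := pow_le_pow_left₀ hI0 (I0_le_exp ht.le) a
  have a2 : I1 t ^ b ≤ Real.exp t ^ b := pow_le_pow_left₀ hI1 (I1_le_exp ht.le) b
  have a3 : K0 t ^ c ≤ ((1 + |Real.log t|) * Real.exp (1 - t)) ^ c :=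
    pow_le_pow_left₀ hK0 (K0_le_all ht) c
  have a4 : (t * K1 t) ^ d ≤ ((1 + t) * Real.exp (1 - t)) ^ d :=
    pow_le_pow_left₀ (mul_nonneg ht.le hK1) (tK1_le_all ht) d
  have a5 : t ^ k ≤ (1 + t) ^ k := pow_le_pow_left₀ ht.le (by linarith) k
  calc t ^ (d + k) * (I0 t ^ a * I1 t ^ b * K0 t ^ c * K1 t ^ d)
      = t ^ k * (I0 t ^ a * I1 t ^ b * K0 t ^ c * (t * K1 t) ^ d) := by
        rw [pow_add, mul_pow]; ring
    _ ≤ (1 + t) ^ k * (Real.exp t ^ a * Real.exp t ^ b *
          ((1 + |Real.log t|) * Real.exp (1 - t)) ^ c *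
          ((1 + t) * Real.exp (1 - t)) ^ d) := by
        gcongr
    _ = (1 + t) ^ (d + k) * (1 + |Real.log t|) ^ c *
          (Real.exp t ^ a * Real.exp t ^ b * Real.exp (1 - t) ^ c * Real.exp (1 - t) ^ d) := by
        rw [mul_pow, mul_pow, pow_add]; ring
    _ = _ := by
        have : Real.exp t ^ a * Real.exp t ^ b * Real.exp (1 - t) ^ c * Real.exp (1 - t) ^ d =
            Real.exp (c + d) * Real.exp (-(((c:ℝ) + d - a - b) * t)) := by
          rw [← Real.exp_nat_mul, ← Real.exp_nat_mul, ← Real.exp_nat_mul, ← Real.exp_nat_mul,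
            ← Real.exp_add, ← Real.exp_add, ← Real.exp_add, ← Real.exp_add]
          congr 1
          ring
        rw [this]
        ring

/-- Integrability of `t^n (1 + |log t|)^e exp (s t) I_0^a I_1^b K_0^c K_1^d` on the half line. -/
theorem integrableOn_exp_IK (n e a b c d : ℕ) {s : ℝ} (h : s + a + b < c + d) (hn : d ≤ n) :
    IntegrableOn (fun t : ℝ => t ^ n * (1 + |Real.log t|) ^ e * Real.exp (s * t) *
      (I0 t ^ a * I1 t ^ b * K0 t ^ c * K1 t ^ d)) (Ioi 0) := by
  have hδ : 0 < (c:ℝ) + d - a - b - s := by linarith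
  have h3 := (integrableOn_maj n (c + e) hδ).const_mul (Real.exp (c + d))
  refine h3.mono' ?_ ?_
  · refine ContinuousOn.aestronglyMeasurable ?_ measurableSet_Ioi
    have hlog : ContinuousOn Real.log (Ioi 0) :=
      Real.continuousOn_log.mono fun t ht => ne_of_gt ht
    have c0 : ContinuousOn I0 (Ioi 0) := continuous_I0.continuousOn
    have c1 : ContinuousOn I1 (Ioi 0) := continuous_I1.continuousOn
    have c2 := continuousOn_K0
    have c3 := continuousOn_K1
    exact (((continuousOn_id.pow n).mul ((continuousOn_const.add hlog.abs).pow e)).mul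
      ((continuousOn_const.mul continuousOn_id).rexp)).mul
      ((((c0.pow a).mul (c1.pow b)).mul (c2.pow c)).mul (c3.pow d))
  · rw [ae_restrict_iff' measurableSet_Ioi]
    refine Eventually.of_forall fun t ht => ?_
    have ht' : (0:ℝ) < t := ht
    have hI0 := (I0_pos t).le
    have hI1 := I1_nonneg ht'.le
    have hK0 := (K0_pos ht').le
    have hK1 := (K1_pos ht').le
    rw [Real.norm_eq_abs, abs_of_nonneg (by positivity)]
    have h4 := IK_le n a b c d hn ht'
    calc t ^ n * (1 + |Real.log t|) ^ e * Real.exp (s * t) *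
          (I0 t ^ a * I1 t ^ b * K0 t ^ c * K1 t ^ d)
        = (1 + |Real.log t|) ^ e * Real.exp (s * t) *
          (t ^ n * (I0 t ^ a * I1 t ^ b * K0 t ^ c * K1 t ^ d)) := by ring
      _ ≤ (1 + |Real.log t|) ^ e * Real.exp (s * t) *
          (Real.exp (c + d) * ((1 + t) ^ n * (1 + |Real.log t|) ^ c *
            Real.exp (-(((c:ℝ) + d - a - b) * t)))) :=
          mul_le_mul_of_nonneg_left h4 (by positivity)
      _ = Real.exp (c + d) * ((1 + t) ^ n * (1 + |Real.log t|) ^ (c + e) *
            (Real.exp (s * t) * Real.exp (-(((c:ℝ) + d - a - b) * t)))) := by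
          rw [pow_add]; ring
      _ = _ := by
          rw [← Real.exp_add]
          have : s * t + -(((c:ℝ) + d - a - b) * t) = -(((c:ℝ) + d - a - b - s) * t) := by ring
          rw [this]

/-- Integrability of `t^n I_0^a I_1^b K_0^c K_1^d` on the half line. -/
theorem integrableOn_IK (n a b c d : ℕ) (h : a + b < c + d) (hn : d ≤ n) :
    IntegrableOn (fun t : ℝ => t ^ n * (I0 t ^ a * I1 t ^ b * K0 t ^ c * K1 t ^ d)) (Ioi 0) := by
  have h' : (0:ℝ) + a + b < c + d := by
    rw [zero_add]; exact_mod_cast h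
  have := integrableOn_exp_IK n 0 a b c d h' hn
  simpa using this

end Pool.Agent.Lib.BM
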