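import Mathlib

set_option autoImplicit false

/-! Project BM: the modified Bessel functions, literally as in the statement of the problem. -/

namespace Pool.Agent.Lib.BM

noncomputable section

/-- The modified Bessel function of order zero, first kind. -/
def I0 (t : ℝ) : ℝ := (1 / Real.pi) * ∫ θ in (0:ℝ)..Real.pi, Real.exp (t * Real.cos θ)

/-- The modified Bessel function of order one, first kind. -/
def I1 (t : ℝ) : ℝ :=
  (1 / Real.pi) * ∫ θ in (0:ℝ)..Real.pi, Real.cos θ * Real.exp (t * Real.cos θ)

/-- The modified Bessel function of order zero, second kind. -/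
def K0 (t : ℝ) : ℝ := ∫ u in Set.Ioi (0:ℝ), Real.exp (-(t * Real.cosh u))

/-- The modified Bessel function of order one, second kind. -/
def K1 (t : ℝ) : ℝ := ∫ u in Set.Ioi (0:ℝ), Real.cosh u * Real.exp (-(t * Real.cosh u))

end

end Pool.Agent.Lib.BM
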