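import Mathlib

set_option autoImplicit false

/-! Project BM, block B1: two small predicates for the growth at `0` and at infinity. -/

open MeasureTheory Set Filter Topology

namespace Pool.Agent.Lib.BM

/-- `u = O(t^N exp(-c t))` on `[1, ∞)` for some `N`. -/
def EB (c : ℝ) (u : ℝ → ℝ) : Prop :=
  ∃ (N : ℕ) (C : ℝ), 0 ≤ C ∧ ∀ t : ℝ, 1 ≤ t → |u t| ≤ C * t ^ N * Real.exp (-(c * t))

/-- `u = O(t^a)` on `(0, 1]`. -/
def ZB (a : ℝ) (u : ℝ → ℝ) : Prop :=
  ∃ C : ℝ, 0 ≤ C ∧ ∀ t : ℝ, 0 < t → t ≤ 1 → |u t| ≤ C * t ^ a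

namespace EB

variable {c d : ℝ} {u v : ℝ → ℝ}

theorem mul (hu : EB c u) (hv : EB d v) : EB (c + d) (fun t => u t * v t) := by
  obtain ⟨N, C, hC, h⟩ := hu
  obtain ⟨M, D, hD, k⟩ := hv
  refine ⟨N + M, C * D, mul_nonneg hC hD, fun t ht => ?_⟩
  rw [abs_mul]
  calc |u t| * |v t| ≤ (C * t ^ N * Real.exp (-(c * t))) * (D * t ^ M * Real.exp (-(d * t))) :=
        mul_le_mul (h t ht) (k t ht) (abs_nonneg _) (by positivity)
    _ = C * D * t ^ (N + M) * Real.exp (-((c + d) * t)) := by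
        rw [show -((c + d) * t) = -(c * t) + -(d * t) by ring, Real.exp_add, pow_add]
        ring

theorem mono (hu : EB c u) (hdc : d ≤ c) : EB d u := by
  obtain ⟨N, C, hC, h⟩ := hu
  refine ⟨N, C, hC, fun t ht => (h t ht).trans ?_⟩
  have h1 : Real.exp (-(c * t)) ≤ Real.exp (-(d * t)) := by
    apply Real.exp_le_exp.2
    nlinarith
  have : 0 ≤ C * t ^ N := by positivity
  exact mul_le_mul_of_nonneg_left h1 this

theorem add (hu : EB c u) (hv : EB c v) : EB c (fun t => u t + v t) := by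
  obtain ⟨N, C, hC, h⟩ := hu
  obtain ⟨M, D, hD, k⟩ := hv
  refine ⟨N + M, C + D, by positivity, fun t ht => ?_⟩
  have e1 : t ^ N ≤ t ^ (N + M) := pow_le_pow_right₀ ht (Nat.le_add_right _ _)
  have e2 : t ^ M ≤ t ^ (N + M) := pow_le_pow_right₀ ht (Nat.le_add_left _ _)
  have e3 : 0 ≤ Real.exp (-(c * t)) := (Real.exp_pos _).le
  calc |u t + v t| ≤ |u t| + |v t| := abs_add_le _ _
    _ ≤ C * t ^ N * Real.exp (-(c * t)) + D * t ^ M * Real.exp (-(c * t)) :=
        add_le_add (h t ht) (k t ht)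
    _ ≤ C * t ^ (N + M) * Real.exp (-(c * t)) + D * t ^ (N + M) * Real.exp (-(c * t)) := by
        gcongr
    _ = (C + D) * t ^ (N + M) * Real.exp (-(c * t)) := by ring

theorem const_mul (hu : EB c u) (a : ℝ) : EB c (fun t => a * u t) := by
  obtain ⟨N, C, hC, h⟩ := hu
  refine ⟨N, |a| * C, by positivity, fun t ht => ?_⟩
  rw [abs_mul]
  calc |a| * |u t| ≤ |a| * (C * t ^ N * Real.exp (-(c * t))) :=
        mul_le_mul_of_nonneg_left (h t ht) (abs_nonneg _)
    _ = |a| * C * t ^ N * Real.exp (-(c * t)) := by ring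

theorem neg (hu : EB c u) : EB c (fun t => -u t) := by
  have := hu.const_mul (-1)
  simpa using this

theorem sub (hu : EB c u) (hv : EB c v) : EB c (fun t => u t - v t) := by
  have := hu.add hv.neg
  simpa [sub_eq_add_neg] using this

theorem div_const (hu : EB c u) (a : ℝ) : EB c (fun t => u t / a) := by
  have := hu.const_mul (a⁻¹)
  simpa [div_eq_inv_mul] using this

theorem const (a : ℝ) : EB 0 (fun _ => a) :=
  ⟨0, |a|, abs_nonneg _, fun t _ => by simp⟩

theorem pow_id (n : ℕ) : EB 0 (fun t => t ^ n) :=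
  ⟨n, 1, zero_le_one, fun t ht => by
    have : 0 ≤ t ^ n := by positivity
    simp [abs_of_nonneg this]⟩

theorem id' : EB 0 (fun t => t) := by simpa using pow_id 1

theorem abs (hu : EB c u) : EB c (fun t => |u t|) := by
  obtain ⟨N, C, hC, h⟩ := hu
  exact ⟨N, C, hC, fun t ht => by rw [abs_abs]; exact h t ht⟩

theorem pow (hu : EB c u) (n : ℕ) : EB (n * c) (fun t => u t ^ n) := by
  induction n with
  | zero => simpa using const 1
  | succ n ih =>
    have := ih.mul hu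
    refine (this.mono (le_of_eq ?_))
    push_cast
    ring

theorem congr' (hu : EB c u) (huv : ∀ t, 1 ≤ t → v t = u t) : EB c v := by
  obtain ⟨N, C, hC, h⟩ := hu
  exact ⟨N, C, hC, fun t ht => by rw [huv t ht]; exact h t ht⟩

theorem tendsto (hu : EB c u) (hc : 0 < c) : Tendsto u atTop (𝓝 0) := by
  obtain ⟨N, C, hC, h⟩ := hu
  have h1 : Tendsto (fun t : ℝ => t ^ N * Real.exp (-(c * t))) atTop (𝓝 0) := by
    have := tendsto_pow_mul_exp_neg_mul_atTop_nhds_zero' N hc
    exact this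
  have h2 : Tendsto (fun t : ℝ => C * t ^ N * Real.exp (-(c * t))) atTop (𝓝 0) := by
    have := h1.const_mul C
    simpa [mul_assoc] using this
  exact squeeze_zero_norm' (by
    filter_upwards [eventually_ge_atTop (1:ℝ)] with t ht
    simpa [Real.norm_eq_abs] using h t ht) h2
where
  tendsto_pow_mul_exp_neg_mul_atTop_nhds_zero' (N : ℕ) {c : ℝ} (hc : 0 < c) :
      Tendsto (fun t : ℝ => t ^ N * Real.exp (-(c * t))) atTop (𝓝 0) := by
    have := Real.tendsto_pow_mul_exp_neg_atTop_nhds_zero N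
    have h2 : Tendsto (fun t : ℝ => c * t) atTop atTop := tendsto_id.const_mul_atTop hc
    have h3 := (this.comp h2).const_mul ((c ^ N)⁻¹)
    rw [mul_zero] at h3
    refine h3.congr fun t => ?_
    simp only [Function.comp]
    rw [mul_pow]
    field_simp

theorem integrableOn (hu : EB c u) (hc : 0 < c) (hcont : ContinuousOn u (Ioi 0)) :
    IntegrableOn u (Ioi 1) := by
  obtain ⟨N, C, hC, h⟩ := hu
  have h1 : IntegrableOn (fun t : ℝ => t ^ (N : ℝ) * Real.exp (-c * t ^ (1:ℝ))) (Ioi 0) :=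
    integrableOn_rpow_mul_exp_neg_mul_rpow (by
      have : (0:ℝ) ≤ N := Nat.cast_nonneg N
      linarith) one_pos hc
  have h2 : IntegrableOn (fun t : ℝ => C * (t ^ (N : ℝ) * Real.exp (-c * t ^ (1:ℝ)))) (Ioi 1) :=
    (h1.mono_set (Ioi_subset_Ioi zero_le_one)).const_mul C
  refine Integrable.mono' h2 ((hcont.mono
    (Ioi_subset_Ioi zero_le_one)).aestronglyMeasurable measurableSet_Ioi) ?_
  refine (ae_restrict_iff' measurableSet_Ioi).2 (Filter.Eventually.of_forall fun t ht => ?_)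
  have := h t (le_of_lt ht)
  rw [Real.norm_eq_abs]
  refine this.trans (le_of_eq ?_)
  rw [Real.rpow_natCast, Real.rpow_one]
  ring_nf

end EB

namespace ZB

variable {a b : ℝ} {u v : ℝ → ℝ}

theorem mul (hu : ZB a u) (hv : ZB b v) : ZB (a + b) (fun t => u t * v t) := by
  obtain ⟨C, hC, h⟩ := hu
  obtain ⟨D, hD, k⟩ := hv
  refine ⟨C * D, mul_nonneg hC hD, fun t ht ht1 => ?_⟩
  rw [abs_mul]
  calc |u t| * |v t| ≤ (C * t ^ a) * (D * t ^ b) :=
        mul_le_mul (h t ht ht1) (k t ht ht1) (abs_nonneg _) (by positivity)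
    _ = C * D * t ^ (a + b) := by
        rw [Real.rpow_add ht]
        ring

theorem mono (hu : ZB a u) (hab : b ≤ a) : ZB b u := by
  obtain ⟨C, hC, h⟩ := hu
  refine ⟨C, hC, fun t ht ht1 => (h t ht ht1).trans ?_⟩
  exact mul_le_mul_of_nonneg_left (Real.rpow_le_rpow_of_exponent_ge ht ht1 hab) hC

theorem add (hu : ZB a u) (hv : ZB a v) : ZB a (fun t => u t + v t) := by
  obtain ⟨C, hC, h⟩ := hu
  obtain ⟨D, hD, k⟩ := hv
  refine ⟨C + D, by positivity, fun t ht ht1 => ?_⟩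
  calc |u t + v t| ≤ |u t| + |v t| := abs_add_le _ _
    _ ≤ C * t ^ a + D * t ^ a := add_le_add (h t ht ht1) (k t ht ht1)
    _ = (C + D) * t ^ a := by ring

theorem const_mul (hu : ZB a u) (e : ℝ) : ZB a (fun t => e * u t) := by
  obtain ⟨C, hC, h⟩ := hu
  refine ⟨|e| * C, by positivity, fun t ht ht1 => ?_⟩
  rw [abs_mul, mul_assoc]
  exact mul_le_mul_of_nonneg_left (h t ht ht1) (abs_nonneg _)

theorem neg (hu : ZB a u) : ZB a (fun t => -u t) := by
  have := hu.const_mul (-1)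
  simpa using this

theorem sub (hu : ZB a u) (hv : ZB a v) : ZB a (fun t => u t - v t) := by
  have := hu.add hv.neg
  simpa [sub_eq_add_neg] using this

theorem div_const (hu : ZB a u) (e : ℝ) : ZB a (fun t => u t / e) := by
  have := hu.const_mul (e⁻¹)
  simpa [div_eq_inv_mul] using this

theorem const (e : ℝ) : ZB 0 (fun _ => e) :=
  ⟨|e|, abs_nonneg _, fun t _ _ => by simp⟩

theorem pow_id (n : ℕ) : ZB n (fun t => t ^ n) :=
  ⟨1, zero_le_one, fun t ht _ => by
    have : 0 ≤ t ^ n := by positivity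
    simp [abs_of_nonneg this]⟩

theorem id' : ZB 1 (fun t => t) := by simpa using pow_id 1

theorem abs (hu : ZB a u) : ZB a (fun t => |u t|) := by
  obtain ⟨C, hC, h⟩ := hu
  exact ⟨C, hC, fun t ht ht1 => by rw [abs_abs]; exact h t ht ht1⟩

theorem pow (hu : ZB a u) (n : ℕ) : ZB (n * a) (fun t => u t ^ n) := by
  induction n with
  | zero => simpa using const 1
  | succ n ih =>
    have := ih.mul hu
    refine (this.mono (le_of_eq ?_))
    push_cast
    ring

theorem congr' (hu : ZB a u) (huv : ∀ t, 0 < t → t ≤ 1 → v t = u t) : ZB a v := by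
  obtain ⟨C, hC, h⟩ := hu
  exact ⟨C, hC, fun t ht ht1 => by rw [huv t ht ht1]; exact h t ht ht1⟩

theorem tendsto (hu : ZB a u) (ha : 0 < a) : Tendsto u (𝓝[>] 0) (𝓝 0) := by
  obtain ⟨C, hC, h⟩ := hu
  have h1 : Tendsto (fun t : ℝ => t ^ a) (𝓝[>] 0) (𝓝 0) := by
    have h2 : ContinuousAt (fun t : ℝ => t ^ a) 0 := Real.continuousAt_rpow_const 0 a (Or.inr ha.le)
    have h3 := h2.tendsto
    rw [Real.zero_rpow ha.ne'] at h3
    exact h3.mono_left nhdsWithin_le_nhds
  have h2 : Tendsto (fun t : ℝ => C * t ^ a) (𝓝[>] 0) (𝓝 0) := by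
    simpa using h1.const_mul C
  refine squeeze_zero_norm' ?_ h2
  have : Ioc (0:ℝ) 1 ∈ 𝓝[>] (0:ℝ) := Ioc_mem_nhdsGT one_pos
  filter_upwards [this] with t ht
  simpa [Real.norm_eq_abs] using h t ht.1 ht.2

theorem integrableOn (hu : ZB a u) (ha : -1 < a) (hcont : ContinuousOn u (Ioi 0)) :
    IntegrableOn u (Ioc 0 1) := by
  obtain ⟨C, hC, h⟩ := hu
  have h1 : IntegrableOn (fun t : ℝ => t ^ a) (Ioc 0 1) := by
    have := intervalIntegral.intervalIntegrable_rpow' (a := 0) (b := 1) ha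
    rwa [intervalIntegrable_iff_integrableOn_Ioc_of_le zero_le_one] at this
  refine Integrable.mono' (h1.const_mul C) ((hcont.mono
    Ioc_subset_Ioi_self).aestronglyMeasurable measurableSet_Ioc) ?_
  refine (ae_restrict_iff' measurableSet_Ioc).2 (Filter.Eventually.of_forall fun t ht => ?_)
  rw [Real.norm_eq_abs]
  exact h t ht.1 ht.2

end ZB

/-- Integrability on `(0, ∞)` from the two growth conditions. -/
theorem integrableOn_of_growth {a c : ℝ} {u : ℝ → ℝ} (hz : ZB a u) (ha : -1 < a) (he : EB c u)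
    (hc : 0 < c) (hcont : ContinuousOn u (Ioi 0)) : IntegrableOn u (Ioi 0) := by
  rw [← Ioc_union_Ioi_eq_Ioi (zero_le_one : (0:ℝ) ≤ 1)]
  exact (hz.integrableOn ha hcont).union (he.integrableOn hc hcont)

end Pool.Agent.Lib.BM
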