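import Pool.Agent.Lib.BM.BesSys
import Pool.Agent.Lib.BM.BesC
import Pool.Agent.Lib.BM.Growth

set_option autoImplicit false

/-! Project BM, block B1: growth of the scaled Bessel functions and continuity. -/

open MeasureTheory Set Filter Topology

namespace Pool.Agent.Lib.BM

theorem continuousOn_thK : ContinuousOn thK (Ioi 0) := fun _ hx =>
  (hasDerivAt_thK hx).continuousAt.continuousWithinAt

theorem continuous_thI : Continuous thI :=
  continuous_iff_continuousAt.2 fun t => (hasDerivAt_thI t).continuousAt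

theorem continuousOn_scale {h : ℝ → ℝ} (hh : ContinuousOn h (Ioi 0)) {r : ℝ} (hr : 0 < r) :
    ContinuousOn (fun t => h (r * t)) (Ioi 0) :=
  hh.comp (continuous_const.mul continuous_id).continuousOn fun _ ht => mul_pos hr ht

theorem abs_thK_le_one {t : ℝ} (ht : 0 < t) : |thK t| ≤ 1 := by
  unfold thK
  rw [abs_neg, abs_of_nonneg (mul_nonneg ht.le (K1_pos ht).le)]
  exact tK1_le_one ht

theorem K0_le_rpow {t : ℝ} (ht : 0 < t) : K0 t ≤ 8 * t ^ (-(1/8) : ℝ) := by
  rcases le_or_gt t 1 with h | h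
  · have h1 := K0_le_one_sub_log ht h
    have h2 : -Real.log t ≤ 8 * (t ^ (-(1/8) : ℝ)) - 8 := by
      have h3 := Real.log_le_sub_one_of_pos (Real.rpow_pos_of_pos ht (-(1/8) : ℝ))
      rw [Real.log_rpow ht] at h3
      linarith
    linarith
  · have h1 := K0_le h.le
    have h2 : Real.exp (-t) ≤ t ^ (-(1/8) : ℝ) := by
      have h3 : t ^ (-(1:ℝ)) ≤ t ^ (-(1/8) : ℝ) :=
        Real.rpow_le_rpow_of_exponent_le h.le (by norm_num)
      refine le_trans ?_ h3
      rw [Real.rpow_neg_one, Real.exp_neg]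
      have h4 : t ≤ Real.exp t := by linarith [Real.add_one_le_exp t]
      exact inv_anti₀ ht h4
    have h5 := Real.rpow_pos_of_pos ht (-(1/8) : ℝ)
    linarith

theorem ZB_K0 {r : ℝ} (hr : 0 < r) : ZB (-(1/8)) (fun t => K0 (r * t)) := by
  refine ⟨8 * r ^ (-(1/8) : ℝ), by positivity, fun t ht _ => ?_⟩
  have h1 := K0_le_rpow (mul_pos hr ht)
  rw [abs_of_nonneg (K0_pos (mul_pos hr ht)).le]
  rw [Real.mul_rpow hr.le ht.le] at h1
  linarith

theorem EB_K0 {r : ℝ} (hr : 0 < r) : EB r (fun t => K0 (r * t)) := by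
  refine ⟨0, Real.exp r * K0 r, by have := K0_pos hr; positivity, fun t ht => ?_⟩
  rw [abs_of_nonneg (K0_pos (mul_pos hr (by linarith))).le]
  have h1 := K0_le_exp_mul (s := r) (t := r * t) hr (by nlinarith)
  refine h1.trans (le_of_eq ?_)
  rw [sub_eq_add_neg, Real.exp_add]
  ring

theorem ZB_thK {r : ℝ} (hr : 0 < r) : ZB 0 (fun t => thK (r * t)) :=
  ⟨1, zero_le_one, fun t ht _ => by simpa using abs_thK_le_one (mul_pos hr ht)⟩

theorem EB_thK {r : ℝ} (hr : 0 < r) : EB r (fun t => thK (r * t)) := by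
  refine ⟨1, r * (Real.exp r * K1 r), by have := K1_pos hr; positivity, fun t ht => ?_⟩
  have ht0 : 0 < t := by linarith
  have hrt := mul_pos hr ht0
  unfold thK
  rw [abs_neg, abs_of_nonneg (mul_nonneg hrt.le (K1_pos hrt).le)]
  have h1 := K1_le_exp_mul (s := r) (t := r * t) hr (by nlinarith)
  calc r * t * K1 (r * t) ≤ r * t * (Real.exp (r - r * t) * K1 r) :=
        mul_le_mul_of_nonneg_left h1 hrt.le
    _ = r * (Real.exp r * K1 r) * t ^ 1 * Real.exp (-(r * t)) := by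
        rw [sub_eq_add_neg, Real.exp_add]
        ring

theorem EB_thK_zero {r : ℝ} (hr : 0 < r) : EB 0 (fun t => thK (r * t)) :=
  ⟨0, 1, zero_le_one, fun t ht => by
    simpa using abs_thK_le_one (mul_pos hr (by linarith : (0:ℝ) < t))⟩

theorem ZB_I0 {r : ℝ} (hr : 0 ≤ r) : ZB 0 (fun t => I0 (r * t)) := by
  refine ⟨Real.exp r, (Real.exp_pos _).le, fun t ht ht1 => ?_⟩
  rw [abs_of_nonneg (I0_pos _).le, Real.rpow_zero, mul_one]
  refine (I0_le_exp (mul_nonneg hr ht.le)).trans (Real.exp_le_exp.2 ?_)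
  nlinarith

theorem EB_I0 {r : ℝ} (hr : 0 ≤ r) : EB (-r) (fun t => I0 (r * t)) := by
  refine ⟨0, 1, zero_le_one, fun t ht => ?_⟩
  rw [abs_of_nonneg (I0_pos _).le]
  refine (I0_le_exp (mul_nonneg hr (by linarith))).trans (le_of_eq ?_)
  simp

theorem thI_nonneg {t : ℝ} (ht : 0 ≤ t) : 0 ≤ thI t := mul_nonneg ht (I1_nonneg ht)

theorem thI_le {t : ℝ} (ht : 0 ≤ t) : thI t ≤ t * Real.exp t :=
  mul_le_mul_of_nonneg_left ((I1_le_I0 ht).trans (I0_le_exp ht)) ht

theorem ZB_thI {r : ℝ} (hr : 0 ≤ r) : ZB 1 (fun t => thI (r * t)) := by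
  refine ⟨r * Real.exp r, by positivity, fun t ht ht1 => ?_⟩
  have hrt : 0 ≤ r * t := mul_nonneg hr ht.le
  rw [abs_of_nonneg (thI_nonneg hrt), Real.rpow_one]
  refine (thI_le hrt).trans ?_
  have : Real.exp (r * t) ≤ Real.exp r := Real.exp_le_exp.2 (by nlinarith)
  calc r * t * Real.exp (r * t) ≤ r * t * Real.exp r := mul_le_mul_of_nonneg_left this hrt
    _ = r * Real.exp r * t := by ring

theorem EB_thI {r : ℝ} (hr : 0 ≤ r) : EB (-r) (fun t => thI (r * t)) := by
  refine ⟨1, r, hr, fun t ht => ?_⟩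
  have hrt : 0 ≤ r * t := mul_nonneg hr (by linarith)
  rw [abs_of_nonneg (thI_nonneg hrt)]
  refine (thI_le hrt).trans (le_of_eq ?_)
  simp

/-! The unscaled versions. -/

theorem ZB_K0_one : ZB (-(1/8)) K0 := by simpa using ZB_K0 one_pos
theorem EB_K0_one : EB 1 K0 := by simpa using EB_K0 one_pos
theorem ZB_thK_one : ZB 0 thK := by simpa using ZB_thK one_pos
theorem EB_thK_one : EB 1 thK := by simpa using EB_thK one_pos
theorem ZB_I0_one : ZB 0 I0 := by simpa using ZB_I0 zero_le_one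
theorem EB_I0_one : EB (-1) I0 := by simpa using EB_I0 zero_le_one
theorem ZB_thI_one : ZB 1 thI := by simpa using ZB_thI zero_le_one
theorem EB_thI_one : EB (-1) thI := by simpa using EB_thI zero_le_one

end Pool.Agent.Lib.BM
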