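import Pool.Agent.Lib.BM.BesC

/-!
# Modified Bessel functions of order zero and one, part L

* the fundamental theorem of calculus on `(0, ∞)` with limits at both ends;
* `K_0(t) + log t` has a limit at `0`;
* `K_0(t)^2 = ∫_ℝ K_0(2 t cosh p) dp`;
* `∫ t K_0(a t) K_0(b t) dt = log (a/b) / (a^2 - b^2)`.
-/

set_option autoImplicit false

open MeasureTheory Set Filter Topology

namespace Pool.Agent.Lib.BM

/-! ### Fundamental theorem of calculus on `(0, ∞)` -/

theorem integral_Ioi_zero_of_tendsto {f f' : ℝ → ℝ} {l m : ℝ}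
    (hderiv : ∀ x, 0 < x → HasDerivAt f (f' x) x) (hint : IntegrableOn f' (Ioi 0))
    (h0 : Tendsto f (𝓝[>] 0) (𝓝 l)) (hf : Tendsto f atTop (𝓝 m)) :
    ∫ x in Ioi (0:ℝ), f' x = m - l := by
  have h1 : ContinuousWithinAt (Function.update f 0 l) (Ici 0) 0 := by
    rw [continuousWithinAt_update_same, Ici_sdiff_left]
    exact h0
  have h2 : ∀ x ∈ Ioi (0:ℝ), HasDerivAt (Function.update f 0 l) (f' x) x := by
    intro x hx
    refine (hderiv x hx).congr_of_eventuallyEq ?_
    filter_upwards [Ioi_mem_nhds hx] with y hy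
    exact Function.update_of_ne (ne_of_gt hy) _ _
  have h3 : Tendsto (Function.update f 0 l) atTop (𝓝 m) := by
    refine hf.congr' ?_
    filter_upwards [eventually_gt_atTop 0] with y hy
    exact (Function.update_of_ne (ne_of_gt hy) _ _).symm
  have := integral_Ioi_of_hasDerivAt_of_tendsto h1 h2 hint h3
  simpa using this

theorem integrableOn_Ioi_zero_of_nonneg {f f' : ℝ → ℝ} {l m : ℝ}
    (hderiv : ∀ x, 0 < x → HasDerivAt f (f' x) x) (hpos : ∀ x, 0 < x → 0 ≤ f' x)
    (h0 : Tendsto f (𝓝[>] 0) (𝓝 l)) (hf : Tendsto f atTop (𝓝 m)) :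
    IntegrableOn f' (Ioi 0) := by
  have h1 : ContinuousWithinAt (Function.update f 0 l) (Ici 0) 0 := by
    rw [continuousWithinAt_update_same, Ici_sdiff_left]
    exact h0
  have h2 : ∀ x ∈ Ioi (0:ℝ), HasDerivAt (Function.update f 0 l) (f' x) x := by
    intro x hx
    refine (hderiv x hx).congr_of_eventuallyEq ?_
    filter_upwards [Ioi_mem_nhds hx] with y hy
    exact Function.update_of_ne (ne_of_gt hy) _ _
  have h3 : Tendsto (Function.update f 0 l) atTop (𝓝 m) := by
    refine hf.congr' ?_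
    filter_upwards [eventually_gt_atTop 0] with y hy
    exact (Function.update_of_ne (ne_of_gt hy) _ _).symm
  exact integrableOn_Ioi_deriv_of_nonneg h1 h2 (fun x hx => hpos x hx) h3

/-! ### The limit of `K_0 + log` -/

theorem K0_add_log_bddBelow : BddBelow ((fun t => K0 t + Real.log t) '' Ioi 0) := by
  -- `K_0 + log - t` is antitone, since `(1 - t K_1)/t ≤ 1`
  refine ⟨-1, ?_⟩
  rintro _ ⟨t, ht, rfl⟩
  have ht' : (0:ℝ) < t := ht
  simp only
  rcases le_total 1 t with h1 | h1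
  · have := K0_pos ht'
    have := Real.log_nonneg h1
    linarith
  · have hanti : AntitoneOn (fun t => K0 t + Real.log t - t) (Ioi 0) := by
      refine antitoneOn_of_deriv_nonpos (convex_Ioi 0)
        (fun t ht => ((hasDerivAt_K0_add_log ht).sub (hasDerivAt_id t)).continuousAt.continuousWithinAt)
        (fun t ht => ?_) (fun t ht => ?_)
      · rw [interior_Ioi] at ht
        exact ((hasDerivAt_K0_add_log ht).sub
          (hasDerivAt_id t)).differentiableAt.differentiableWithinAt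
      · rw [interior_Ioi] at ht
        have ht' : (0:ℝ) < t := ht
        have hd : deriv (fun t => K0 t + Real.log t - t) t = (1 - t * K1 t) / t - 1 :=
          ((hasDerivAt_K0_add_log ht).sub (hasDerivAt_id t)).deriv
        rw [hd, sub_nonpos, div_le_one ht']
        have h2 := exp_neg_le_tK1 ht'
        have h3 := Real.add_one_le_exp (-t)
        linarith
    have h2 := hanti (mem_Ioi.mpr ht') (mem_Ioi.mpr one_pos) h1
    simp only [Real.log_one, add_zero] at h2
    have := K0_pos one_pos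
    linarith

theorem exists_tendsto_K0_add_log :
    ∃ c, Tendsto (fun t => K0 t + Real.log t) (𝓝[>] 0) (𝓝 c) :=
  ⟨_, monotoneOn_K0_add_log.tendsto_nhdsGT K0_add_log_bddBelow⟩

/-- `K_0(b t) - K_0(a t) → log (a/b)` as `t → 0+`. -/
theorem tendsto_K0_sub_K0 {a b : ℝ} (ha : 0 < a) (hb : 0 < b) :
    Tendsto (fun t => K0 (b * t) - K0 (a * t)) (𝓝[>] 0) (𝓝 (Real.log (a / b))) := by
  obtain ⟨c, hc⟩ := exists_tendsto_K0_add_log
  have hlim : ∀ {a : ℝ}, 0 < a → Tendsto (fun t : ℝ => a * t) (𝓝[>] 0) (𝓝[>] 0) := by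
    intro a ha
    refine tendsto_nhdsWithin_iff.mpr ⟨?_, ?_⟩
    · have : Continuous fun t : ℝ => a * t := by fun_prop
      have h := this.tendsto 0
      rw [mul_zero] at h
      exact h.mono_left nhdsWithin_le_nhds
    · filter_upwards [self_mem_nhdsWithin] with t ht
      exact mul_pos ha ht
  have h1 := (hc.comp (hlim hb)).sub (hc.comp (hlim ha))
  rw [sub_self] at h1
  have h2 := h1.add_const (Real.log (a / b))
  rw [zero_add] at h2
  refine h2.congr' ?_
  filter_upwards [self_mem_nhdsWithin] with t ht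
  have ht' : (0:ℝ) < t := ht
  simp only [Function.comp]
  rw [Real.log_mul hb.ne' ht'.ne', Real.log_mul ha.ne' ht'.ne', Real.log_div ha.ne' hb.ne']
  ring

/-! ### Limits at infinity and at zero -/

theorem tendsto_K0_atTop : Tendsto K0 atTop (𝓝 0) := by
  have h1 : Tendsto (fun t : ℝ => 4 * Real.exp (-t)) atTop (𝓝 0) := by
    have := (Real.tendsto_exp_neg_atTop_nhds_zero).const_mul 4
    simpa using this
  refine squeeze_zero' ?_ ?_ h1
  · filter_upwards [eventually_gt_atTop 0] with t ht using (K0_pos ht).le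
  · filter_upwards [eventually_ge_atTop 1] with t ht using K0_le ht

theorem tendsto_tK1_atTop : Tendsto (fun t => t * K1 t) atTop (𝓝 0) := by
  have h1 : Tendsto (fun t : ℝ => 4 * (t ^ 1 * Real.exp (-t))) atTop (𝓝 0) := by
    have := (Real.tendsto_pow_mul_exp_neg_atTop_nhds_zero 1).const_mul 4
    simpa using this
  refine squeeze_zero' ?_ ?_ h1
  · filter_upwards [eventually_gt_atTop 0] with t ht
    exact mul_nonneg ht.le (K1_pos ht).le
  · filter_upwards [eventually_ge_atTop 1] with t ht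
    have := K1_le ht
    rw [pow_one]
    nlinarith

theorem tendsto_t_mul_log : Tendsto (fun t : ℝ => t * (1 + |Real.log t|)) (𝓝[>] 0) (𝓝 0) := by
  have h1 : Tendsto (fun t : ℝ => t) (𝓝[>] 0) (𝓝 0) :=
    (continuous_id.tendsto 0).mono_left nhdsWithin_le_nhds
  have h2 : Tendsto (fun t : ℝ => Real.log t * t) (𝓝[>] 0) (𝓝 0) := by
    simpa only [Real.rpow_one] using tendsto_log_mul_rpow_nhdsGT_zero zero_lt_one
  have h3 := h1.add h2.abs
  rw [abs_zero, add_zero] at h3
  refine h3.congr' ?_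
  filter_upwards [self_mem_nhdsWithin] with t ht
  have ht' : (0:ℝ) < t := ht
  rw [abs_mul, abs_of_pos ht']
  ring

/-- `(1 - a t K_1(a t)) K_0(b t) → 0` as `t → 0+`. -/
theorem tendsto_one_sub_mul_K0 {a b : ℝ} (ha : 0 < a) (hb : 0 < b) :
    Tendsto (fun t => (1 - a * t * K1 (a * t)) * K0 (b * t)) (𝓝[>] 0) (𝓝 0) := by
  have hlim : Tendsto (fun t : ℝ => a * t) (𝓝[>] 0) (𝓝[>] 0) := by
    refine tendsto_nhdsWithin_iff.mpr ⟨?_, ?_⟩
    · have : Continuous fun t : ℝ => a * t := by fun_prop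
      have h := this.tendsto 0
      rw [mul_zero] at h
      exact h.mono_left nhdsWithin_le_nhds
    · filter_upwards [self_mem_nhdsWithin] with t ht
      exact mul_pos ha ht
  have h1 := (tendsto_t_mul_log.comp hlim).const_mul (2 * a / b)
  rw [mul_zero] at h1
  refine squeeze_zero' ?_ ?_ h1
  · filter_upwards [self_mem_nhdsWithin] with t ht
    have ht' : (0:ℝ) < t := ht
    exact mul_nonneg (one_sub_tK1_nonneg (mul_pos ha ht')) (K0_pos (mul_pos hb ht')).le
  · have h3 : ∀ᶠ t in 𝓝[>] (0:ℝ), t ≤ 1 / a := by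
      filter_upwards [Ioc_mem_nhdsGT (one_div_pos.mpr ha)] with t ht using ht.2
    filter_upwards [self_mem_nhdsWithin, h3] with t ht ht1
    have ht' : (0:ℝ) < t := ht
    have hat : 0 < a * t := mul_pos ha ht'
    have hbt : 0 < b * t := mul_pos hb ht'
    have hat1 : a * t ≤ 1 := by rw [le_div_iff₀ ha] at ht1; linarith
    have h4 := one_sub_tK1_le hat hat1
    have h5 := (K0_le_K1 hbt).trans (K1_le_inv hbt)
    simp only [Function.comp]
    calc (1 - a * t * K1 (a * t)) * K0 (b * t)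
        ≤ (2 * (a * t) ^ 2 * (1 + |Real.log (a * t)|)) * (1 / (b * t)) :=
          mul_le_mul h4 h5 (K0_pos hbt).le (by positivity)
      _ = _ := by field_simp

/-! ### The integral of two `K_0` -/

theorem hasDerivAt_W {a b : ℝ} (ha : 0 < a) (hb : 0 < b) {t : ℝ} (ht : 0 < t) :
    HasDerivAt (fun t => (a * t * K1 (a * t)) * K0 (b * t) - K0 (a * t) * (b * t * K1 (b * t)))
      ((b ^ 2 - a ^ 2) * (t * (K0 (a * t) * K0 (b * t)))) t := by
  have hs : ∀ {a : ℝ}, 0 < a → HasDerivAt (fun t => a * t * K1 (a * t))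
      (-(a * t * K0 (a * t)) * a) t ∧ HasDerivAt (fun t => K0 (a * t)) (-K1 (a * t) * a) t := by
    intro a ha
    have h0 : HasDerivAt (fun t : ℝ => a * t) a t := by
      simpa using (hasDerivAt_id t).const_mul a
    exact ⟨(hasDerivAt_tK1 (mul_pos ha ht)).comp t h0, (hasDerivAt_K0 (mul_pos ha ht)).comp t h0⟩
  obtain ⟨h1, h2⟩ := hs ha
  obtain ⟨h3, h4⟩ := hs hb
  refine ((h1.mul h4).sub (h2.mul h3)).congr_deriv ?_
  ring

theorem K0K0_aux {a b : ℝ} (ha : 0 < a) (hab : a < b) :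
    IntegrableOn (fun t => t * (K0 (a * t) * K0 (b * t))) (Ioi 0) ∧
      ∫ t in Ioi (0:ℝ), t * (K0 (a * t) * K0 (b * t)) = Real.log (a / b) / (a ^ 2 - b ^ 2) := by
  have hb : 0 < b := ha.trans hab
  have hderiv : ∀ t, 0 < t → HasDerivAt
      (fun t => (a * t * K1 (a * t)) * K0 (b * t) - K0 (a * t) * (b * t * K1 (b * t)))
      ((b ^ 2 - a ^ 2) * (t * (K0 (a * t) * K0 (b * t)))) t := fun t ht => hasDerivAt_W ha hb ht
  have hpos : ∀ t, 0 < t → 0 ≤ (b ^ 2 - a ^ 2) * (t * (K0 (a * t) * K0 (b * t))) := by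
    intro t ht
    have h1 := K0_pos (mul_pos ha ht)
    have h2 := K0_pos (mul_pos hb ht)
    have h3 : 0 < b ^ 2 - a ^ 2 := by nlinarith
    positivity
  have h0 : Tendsto
      (fun t => (a * t * K1 (a * t)) * K0 (b * t) - K0 (a * t) * (b * t * K1 (b * t)))
      (𝓝[>] 0) (𝓝 (Real.log (a / b))) := by
    have h1 := ((tendsto_K0_sub_K0 ha hb).sub (tendsto_one_sub_mul_K0 ha hb)).add
      (tendsto_one_sub_mul_K0 hb ha)
    rw [sub_zero, add_zero] at h1
    refine h1.congr fun t => ?_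
    ring
  have hlim : ∀ {a : ℝ}, 0 < a → Tendsto (fun t : ℝ => a * t) atTop atTop := fun ha =>
    tendsto_id.const_mul_atTop ha
  have hinf : Tendsto
      (fun t => (a * t * K1 (a * t)) * K0 (b * t) - K0 (a * t) * (b * t * K1 (b * t)))
      atTop (𝓝 0) := by
    have h1 := ((tendsto_tK1_atTop.comp (hlim ha)).mul (tendsto_K0_atTop.comp (hlim hb))).sub
      ((tendsto_K0_atTop.comp (hlim ha)).mul (tendsto_tK1_atTop.comp (hlim hb)))
    simpa using h1
  have hint := integrableOn_Ioi_zero_of_nonneg hderiv hpos h0 hinf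
  have hval := integral_Ioi_zero_of_tendsto hderiv hint h0 hinf
  have h3 : b ^ 2 - a ^ 2 ≠ 0 := by nlinarith
  have h4 : a ^ 2 - b ^ 2 ≠ 0 := by nlinarith
  refine ⟨?_, ?_⟩
  · have h5 := hint.const_mul (1 / (b ^ 2 - a ^ 2))
    refine h5.congr (Eventually.of_forall fun t => ?_)
    simp only
    field_simp
  · rw [integral_const_mul] at hval
    rw [eq_div_iff h4]
    linarith

theorem integrable_K0K0 {a b : ℝ} (ha : 0 < a) (hb : 0 < b) (hab : a ≠ b) :
    IntegrableOn (fun t => t * (K0 (a * t) * K0 (b * t))) (Ioi 0) := by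
  rcases lt_or_gt_of_ne hab with h | h
  · exact (K0K0_aux ha h).1
  · have := (K0K0_aux hb h).1
    refine this.congr (Eventually.of_forall fun t => ?_)
    simp only
    ring

theorem integral_K0K0 {a b : ℝ} (ha : 0 < a) (hb : 0 < b) (hab : a ≠ b) :
    ∫ t in Ioi (0:ℝ), t * (K0 (a * t) * K0 (b * t)) = Real.log (a / b) / (a ^ 2 - b ^ 2) := by
  rcases lt_or_gt_of_ne hab with h | h
  · exact (K0K0_aux ha h).2
  · have := (K0K0_aux hb h).2
    have e : ∀ t : ℝ, t * (K0 (a * t) * K0 (b * t)) = t * (K0 (b * t) * K0 (a * t)) := fun t => by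
      ring
    simp_rw [e]
    rw [this, Real.log_div ha.ne' hb.ne', Real.log_div hb.ne' ha.ne', ← neg_div_neg_eq]
    congr 1 <;> ring

theorem lintegral_K0K0 {a b : ℝ} (ha : 0 < a) (hb : 0 < b) (hab : a ≠ b) :
    ∫⁻ t in Ioi (0:ℝ), ENNReal.ofReal (t * (K0 (a * t) * K0 (b * t))) =
      ENNReal.ofReal (Real.log (a / b) / (a ^ 2 - b ^ 2)) := by
  rw [← integral_K0K0 ha hb hab, ofReal_integral_eq_lintegral_ofReal (integrable_K0K0 ha hb hab)]
  rw [EventuallyLE, ae_restrict_iff' measurableSet_Ioi]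
  refine Eventually.of_forall fun t ht => ?_
  have ht' : (0:ℝ) < t := ht
  have h1 := K0_pos (mul_pos ha ht')
  have h2 := K0_pos (mul_pos hb ht')
  simp only [Pi.zero_apply]
  positivity

/-! ### Integrals over `ℝ` and `ℝ^2` of nonnegative functions -/

theorem lintegral_even {g : ℝ → ENNReal} (heven : ∀ x, g (-x) = g x) :
    ∫⁻ x, g x = 2 * ∫⁻ x in Ioi (0:ℝ), g x := by
  have h1 : ∫⁻ x in Iio (0:ℝ), g x = ∫⁻ x in Ioi (0:ℝ), g x := by
    have h2 := (Measure.measurePreserving_neg (volume : Measure ℝ)).setLIntegral_comp_preimage_emb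
      (Homeomorph.neg ℝ).measurableEmbedding g (Ioi 0)
    rw [← h2]
    have h3 : (Neg.neg ⁻¹' Ioi (0:ℝ)) = Iio 0 := by
      ext x; simp
    rw [h3]
    exact lintegral_congr fun x => (heven x).symm
  have h4 := lintegral_add_compl g (measurableSet_Iic (a := (0:ℝ))) (μ := volume)
  rw [← h4, compl_Iic, setLIntegral_congr Iio_ae_eq_Iic.symm, h1, two_mul]

theorem lintegral_comp_two_mul (g : ℝ → ENNReal) (hg : Measurable g) :
    ∫⁻ x, g (2 * x) = 2⁻¹ * ∫⁻ x, g x := by
  have h1 : ∫⁻ x, g (2 * x) = ∫⁻ x, g x ∂(Measure.map (fun x : ℝ => 2 * x) volume) := by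
    rw [lintegral_map hg (by fun_prop)]
  rw [h1]
  have h2 : Measure.map (fun x : ℝ => 2 * x) volume = ENNReal.ofReal |(2:ℝ)⁻¹| • volume :=
    Real.map_volume_mul_left two_ne_zero
  rw [h2, lintegral_smul_measure]
  congr 1
  rw [abs_of_pos (by norm_num), ENNReal.ofReal_inv_of_pos (by norm_num)]
  simp

theorem lintegral_rot (f : ℝ → ℝ → ENNReal) (hf : Measurable (Function.uncurry f)) :
    ∫⁻ p, ∫⁻ q, f (p + q) (p - q) = 2⁻¹ * ∫⁻ u, ∫⁻ v, f u v := by
  have m1 : Measurable (Function.uncurry fun p q : ℝ => f (p + q) (p - q)) :=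
    hf.comp (f := fun x : ℝ × ℝ => (x.1 + x.2, x.1 - x.2)) (by fun_prop)
  have m2 : Measurable (Function.uncurry fun q p : ℝ => f (p + 2 * q) p) :=
    hf.comp (f := fun x : ℝ × ℝ => (x.2 + 2 * x.1, x.2)) (by fun_prop)
  have m3 : Measurable (Function.uncurry fun p q : ℝ => f q p) :=
    hf.comp (f := fun x : ℝ × ℝ => (x.2, x.1)) (by fun_prop)
  calc ∫⁻ p, ∫⁻ q, f (p + q) (p - q)
      = ∫⁻ q, ∫⁻ p, f (p + q) (p - q) := lintegral_lintegral_swap m1.aemeasurable
    _ = ∫⁻ q, ∫⁻ p, f (p + 2 * q) p := by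
        refine lintegral_congr fun q => ?_
        rw [← lintegral_add_right_eq_self (fun p => f (p + q) (p - q)) q]
        refine lintegral_congr fun p => ?_
        congr 1 <;> ring
    _ = ∫⁻ p, ∫⁻ q, f (p + 2 * q) p := lintegral_lintegral_swap m2.aemeasurable
    _ = ∫⁻ p, 2⁻¹ * ∫⁻ q, f q p := by
        refine lintegral_congr fun p => ?_
        rw [lintegral_comp_two_mul (fun q => f (p + q) p)
          (hf.comp (f := fun q : ℝ => (p + q, p)) (by fun_prop)),
          lintegral_add_left_eq_self (fun q => f q p) p]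
    _ = 2⁻¹ * ∫⁻ p, ∫⁻ q, f q p := lintegral_const_mul' _ _ (by simp)
    _ = 2⁻¹ * ∫⁻ u, ∫⁻ v, f u v := by
        rw [lintegral_lintegral_swap m3.aemeasurable]

/-! ### The square of `K_0` -/

theorem lintegral_K0 {t : ℝ} (ht : 0 < t) :
    ∫⁻ u, ENNReal.ofReal (Real.exp (-(t * Real.cosh u))) = 2 * ENNReal.ofReal (K0 t) := by
  rw [lintegral_even fun u => by rw [Real.cosh_neg]]
  congr 1
  unfold K0
  rw [ofReal_integral_eq_lintegral_ofReal (integrable_K0 ht)
    (Eventually.of_forall fun u => (Real.exp_pos _).le)]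

theorem K0_sq {t : ℝ} (ht : 0 < t) :
    ENNReal.ofReal (K0 t) ^ 2 = ∫⁻ p, ENNReal.ofReal (K0 (2 * t * Real.cosh p)) := by
  have hm : Measurable (Function.uncurry fun u v : ℝ =>
      ENNReal.ofReal (Real.exp (-(t * Real.cosh u))) *
        ENNReal.ofReal (Real.exp (-(t * Real.cosh v)))) := by
    have h1 : Measurable Real.cosh := Real.continuous_cosh.measurable
    unfold Function.uncurry
    fun_prop
  have h1 := lintegral_rot _ hm
  have h2 : ∫⁻ u, ∫⁻ v, ENNReal.ofReal (Real.exp (-(t * Real.cosh u))) *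
      ENNReal.ofReal (Real.exp (-(t * Real.cosh v))) = (2 * ENNReal.ofReal (K0 t)) ^ 2 := by
    have h3 : ∀ u : ℝ, ∫⁻ v, ENNReal.ofReal (Real.exp (-(t * Real.cosh u))) *
        ENNReal.ofReal (Real.exp (-(t * Real.cosh v))) =
        (2 * ENNReal.ofReal (K0 t)) * ENNReal.ofReal (Real.exp (-(t * Real.cosh u))) := by
      intro u
      rw [lintegral_const_mul' _ _ ENNReal.ofReal_ne_top, lintegral_K0 ht, mul_comm]
    simp_rw [h3]
    rw [lintegral_const_mul' _ _ (ENNReal.mul_ne_top (by simp) ENNReal.ofReal_ne_top),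
      lintegral_K0 ht]
    ring
  have h3 : ∀ p : ℝ, ∫⁻ q, ENNReal.ofReal (Real.exp (-(t * Real.cosh (p + q)))) *
      ENNReal.ofReal (Real.exp (-(t * Real.cosh (p - q)))) =
      2 * ENNReal.ofReal (K0 (2 * t * Real.cosh p)) := by
    intro p
    rw [← lintegral_K0 (t := 2 * t * Real.cosh p) (by have := Real.cosh_pos p; positivity)]
    refine lintegral_congr fun q => ?_
    rw [← ENNReal.ofReal_mul (Real.exp_pos _).le, ← Real.exp_add]
    congr 2
    rw [Real.cosh_add, Real.cosh_sub]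
    ring
  rw [h2] at h1
  simp_rw [h3] at h1
  rw [lintegral_const_mul' _ _ (by simp)] at h1
  have h4 : 2 * (ENNReal.ofReal (K0 t) ^ 2) =
      2 * ∫⁻ p, ENNReal.ofReal (K0 (2 * t * Real.cosh p)) := by
    rw [h1]
    have : (2:ENNReal)⁻¹ * (2 * ENNReal.ofReal (K0 t)) ^ 2 =
        (2⁻¹ * 2) * (2 * ENNReal.ofReal (K0 t) ^ 2) := by ring
    rw [this, ENNReal.inv_mul_cancel (by simp) (by simp), one_mul]
  exact (ENNReal.mul_right_inj (by simp) (by simp)).mp h4

end Pool.Agent.Lib.BM
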