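import Pool.Agent.Lib.BM.BesDefs

set_option autoImplicit false

/-!
# BM.Defs: the shared definitions of project BM

`q = -exp(-2 π y)` on the line `Re τ = 1/2`; `F4`, `lx` are the weight 4 Eisenstein series and the logarithm of
the mass; `lat0`, `lat1` are the two lattice sums for the value of the L-function.
-/

namespace Pool.Agent.Lib.BM

noncomputable section

/-- `ζ(3)` -/
def zeta3 : ℝ := ∑' n : ℕ, 1 / ((n : ℝ) + 1) ^ 3

/-- The imaginary part of the point `τ₀ = 1/2 + i √15/6`. -/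
def y0 : ℝ := Real.sqrt 15 / 6

/-- The nome on the line `Re τ = 1/2`. -/
def qn (y : ℝ) : ℝ := -Real.exp (-(2 * Real.pi * y))

/-- `∑ n q^n / (1 - q^n)` -/
def S1 (q : ℝ) : ℝ := ∑' n : ℕ, ((n : ℝ) + 1) * q ^ (n + 1) / (1 - q ^ (n + 1))

/-- `∑ n^3 q^n / (1 - q^n)` -/
def S3 (q : ℝ) : ℝ := ∑' n : ℕ, ((n : ℝ) + 1) ^ 3 * q ^ (n + 1) / (1 - q ^ (n + 1))

/-- `∑ log (1 - q^n)` -/
def LP (q : ℝ) : ℝ := ∑' n : ℕ, Real.log (1 - q ^ (n + 1))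

/-- The Eisenstein series of weight 4 on the line `Re τ = 1/2`. -/
def F4 (y : ℝ) : ℝ :=
  -(S3 (qn y) - S3 (qn y ^ 2) - 9 * S3 (qn y ^ 3) + 9 * S3 (qn y ^ 6))

/-- The logarithm of the mass `x` on the line `Re τ = 1/2`. -/
def lx (y : ℝ) : ℝ :=
  Real.log 8 - Real.pi * y - 3 * LP (qn y) + 3 * LP (qn y ^ 2) - 3 * LP (qn y ^ 3) +
    3 * LP (qn y ^ 6)

/-- `7 π ζ(3) / 8 - 24 π^3 ∫ y F log x dy`, integral over `y > y₀`. -/
def TT : ℝ :=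
  7 * Real.pi * zeta3 / 8 - 24 * Real.pi ^ 3 * ∫ y in Set.Ioi y0, y * (F4 y * lx y)

/-- The moments of Bessel functions. -/
def IKM (a b n : ℕ) : ℝ := ∫ t in Set.Ioi (0:ℝ), I0 t ^ a * K0 t ^ b * t ^ n

/-- The determinant of the problem. -/
def det5 : ℝ := IKM 0 5 1 * IKM 2 3 3 - IKM 0 5 3 * IKM 2 3 1

/-- `1 / (z^4 conj(z)^2)` -/
def kap (z : ℂ) : ℂ := (z ^ 4 * (starRingEnd ℂ) z ^ 2)⁻¹

/-- `(1 + i √15) / 2` -/
def w15 : ℂ := (1 + Complex.I * (Real.sqrt 15 : ℝ)) / 2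

/-- `1/2 + i √15 / 6` -/
def tau0 : ℂ := 1 / 2 + Complex.I * (Real.sqrt 15 : ℝ) / 6

/-- The lattice sum over `ℤ + ℤ w15`. -/
def lat0 : ℝ := (∑' p : ℤ × ℤ, kap ((p.1 : ℂ) + (p.2 : ℂ) * w15)).re

/-- The lattice sum over `ℤ τ₀ + ℤ`. -/
def lat1 : ℝ := (∑' p : ℤ × ℤ, kap ((p.1 : ℂ) * tau0 + (p.2 : ℂ))).re

/-- The Dedekind eta function at `i y`. -/
def etaR (y : ℝ) : ℝ := Real.exp (-(2 * Real.pi * y / 24)) *
  ∏' n : ℕ, (1 - Real.exp (-(2 * Real.pi * ((n : ℝ) + 1) * y)))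

/-- The cusp form of weight 3 at `i y`. -/
def fR (y : ℝ) : ℝ := (etaR (3 * y) * etaR (5 * y)) ^ 3 + (etaR y * etaR (15 * y)) ^ 3

/-- `L(f, 4)` -/
def Lf4 : ℝ := (2 * Real.pi) ^ 4 / Real.Gamma 4 * ∫ y in Set.Ioi (0:ℝ), fR y * y ^ 3

end

/-- Block (P1), Bessel side and modular parametrisation. -/
def StP1 : Prop := det5 = 8 / (15 * Real.sqrt 15) * TT

/-- Block (P2), Eisenstein series, lattice sums and complex multiplication. -/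
def StP2 : Prop := TT = 675 * Real.sqrt 15 / (64 * Real.pi ^ 2) * (lat0 / 2 - lat1 / 54)

/-- Block (P3), the L-value as a lattice sum. -/
def StP3 : Prop := Lf4 = lat0 / 2 - lat1 / 54

end Pool.Agent.Lib.BM
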