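import Pool.Agent.Lib.BM.Lim
import Pool.Agent.Lib.BM.Defs

set_option autoImplicit false

/-! Project BM, block B1: the exported theorems on `Af`, `Bf`. -/

open MeasureTheory Set Filter Topology

namespace Pool.Agent.Lib.BM

/-! (B1.1) -/

theorem Af_hasDerivAt {r : ℝ} (hr : 0 < r) (hr2 : r < 2) : HasDerivAt Af (Af1 r / r) r := by
  have e : Af = mom I0 mI0 1 := funext Af_eq
  rw [e, Af1_eq]
  exact hasDerivAt_mom_I0 hr hr2 1

theorem Af1_hasDerivAt {r : ℝ} (hr : 0 < r) (hr2 : r < 2) : HasDerivAt Af1 (Af2 r / r) r := by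
  have e : Af1 = mom thI mI0 1 := funext Af1_eq
  rw [e, Af2_eq]
  refine (hasDerivAt_mom_thI hr hr2 1).congr_deriv ?_
  field_simp

theorem Af2_hasDerivAt {r : ℝ} (hr : 0 < r) (hr2 : r < 2) : HasDerivAt Af2 (Af3 r / r) r := by
  have e : Af2 = fun r => r ^ 2 * mom I0 mI0 3 r := funext Af2_eq
  rw [e, Af3_eq]
  have h2 : HasDerivAt (fun r : ℝ => r ^ 2) (2 * r) r := by simpa using hasDerivAt_pow 2 r
  refine (h2.mul (hasDerivAt_mom_I0 hr hr2 3)).congr_deriv ?_
  field_simp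

theorem Bf_hasDerivAt {r : ℝ} (hr : 0 < r) : HasDerivAt Bf (Bf1 r / r) r := by
  have e : Bf = mom K0 mK0 1 := funext Bf_eq
  rw [e, Bf1_eq]
  exact hasDerivAt_mom_K0 hr 1

theorem Bf1_hasDerivAt {r : ℝ} (hr : 0 < r) : HasDerivAt Bf1 (Bf2 r / r) r := by
  have e : Bf1 = mom thK mK0 1 := funext Bf1_eq
  rw [e, Bf2_eq]
  refine (hasDerivAt_mom_thK hr 1).congr_deriv ?_
  field_simp

theorem Bf2_hasDerivAt {r : ℝ} (hr : 0 < r) : HasDerivAt Bf2 (Bf3 r / r) r := by
  have e : Bf2 = fun r => r ^ 2 * mom K0 mK0 3 r := funext Bf2_eq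
  rw [e, Bf3_eq]
  have h2 : HasDerivAt (fun r : ℝ => r ^ 2) (2 * r) r := by simpa using hasDerivAt_pow 2 r
  refine (h2.mul (hasDerivAt_mom_K0 hr 3)).congr_deriv ?_
  field_simp

/-! (B1.2) -/

theorem Af_ode {r : ℝ} (hr : 0 < r) (hr2 : r < 2) :
    (64 - 20 * r ^ 2 + r ^ 4) * Af3 r + (6 * r ^ 4 - 60 * r ^ 2) * Af2 r
      + (12 * r ^ 4 - 72 * r ^ 2) * Af1 r + (8 * r ^ 4 - 32 * r ^ 2) * Af r = 0 := by
  have key := tel_integral (g0 := I0) (g1 := thI) (m0 := mI0) (m1 := mI1) (m2 := mI2)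
    (m3 := mI3) (m4 := mI4) (r := r) (q0 := 0) hr
    (fun x hx => hasDerivAt_I0' hx) (fun x _ => hasDerivAt_thI x)
    (fun t ht => hasDerivAt_mI0 ht) (fun t ht => hasDerivAt_mI1 ht)
    (fun t ht => hasDerivAt_mI2 ht) (fun t ht => hasDerivAt_mI3 ht)
    (fun t ht => hasDerivAt_mI4 ht)
    (integrable_I0_mI0 hr.le hr2 1) (integrable_I0_mI0 hr.le hr2 3)
    (integrable_thI_mI0 hr.le hr2 1) (integrable_thI_mI0 hr.le hr2 3)
    (tendsto_telQ_I_zero hr.le) (tendsto_telQ_I_top hr.le hr2)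
  rw [Af3_eq, Af2_eq, Af1_eq, Af_eq]
  linear_combination r ^ 2 * key

theorem Bf_ode {r : ℝ} (hr : 0 < r) :
    (64 - 20 * r ^ 2 + r ^ 4) * Bf3 r + (6 * r ^ 4 - 60 * r ^ 2) * Bf2 r
      + (12 * r ^ 4 - 72 * r ^ 2) * Bf1 r + (8 * r ^ 4 - 32 * r ^ 2) * Bf r
      = 24 * r ^ 2 * Real.log r := by
  have key := tel_integral (g0 := K0) (g1 := thK) (m0 := mK0) (m1 := mK1) (m2 := mK2)
    (m3 := mK3) (m4 := mK4) (r := r) (q0 := -(24 * Real.log r)) hr
    (fun x hx => hasDerivAt_K0' hx) (fun x hx => hasDerivAt_thK hx)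
    (fun t ht => hasDerivAt_mK0 ht) (fun t ht => hasDerivAt_mK1 ht)
    (fun t ht => hasDerivAt_mK2 ht) (fun t ht => hasDerivAt_mK3 ht)
    (fun t ht => hasDerivAt_mK4 ht)
    (integrable_K0_mK0 hr 1) (integrable_K0_mK0 hr 3)
    (integrable_thK_mK0 hr 1) (integrable_thK_mK0 hr 3)
    (tendsto_telQ_K_zero hr) (tendsto_telQ_K_top hr)
  rw [Bf3_eq, Bf2_eq, Bf1_eq, Bf_eq]
  linear_combination r ^ 2 * key

/-! (B1.3) -/

theorem Af_tendsto_zero :
    Tendsto Af (𝓝[>] 0) (𝓝 (∫ t in Ioi (0:ℝ), (I0 t * K0 t ^ 3) * t)) := by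
  have key := tendsto_integral_filter_of_dominated_convergence
    (μ := volume.restrict (Ioi (0:ℝ))) (l := 𝓝[>] (0:ℝ))
    (F := fun r t => I0 (r * t) * (I0 t * K0 t ^ 3) * t)
    (f := fun t => (I0 t * K0 t ^ 3) * t)
    (fun t => Real.exp (1 * t) * |mI0 t * t ^ 1|) ?_ ?_ (integrable_exp_mI0 (by norm_num) 1) ?_
  · exact key
  · refine Filter.Eventually.of_forall fun r => ?_
    exact ((((continuous_I0.comp (continuous_const.mul continuous_id)).continuousOn.mul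
      continuousOn_mI0).mul continuousOn_id).aestronglyMeasurable measurableSet_Ioi)
  · filter_upwards [Ioc_mem_nhdsGT (one_pos : (0:ℝ) < 1)] with r hr
    refine (ae_restrict_iff' measurableSet_Ioi).2 (Filter.Eventually.of_forall fun t ht => ?_)
    have ht0 : 0 < t := ht
    have hrt : 0 ≤ r * t := (mul_pos hr.1 ht0).le
    have h1 : I0 (r * t) ≤ Real.exp (1 * t) :=
      (I0_le_exp hrt).trans (Real.exp_le_exp.2 (mul_le_mul_of_nonneg_right hr.2 ht0.le))
    rw [Real.norm_eq_abs, mul_assoc, abs_mul, abs_of_pos (I0_pos _), pow_one]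
    exact mul_le_mul_of_nonneg_right h1 (abs_nonneg _)
  · refine (ae_restrict_iff' measurableSet_Ioi).2 (Filter.Eventually.of_forall fun t ht => ?_)
    have h1 : Tendsto (fun r : ℝ => I0 (r * t)) (𝓝[>] 0) (𝓝 1) := by
      have h2 : Continuous fun r : ℝ => I0 (r * t) :=
        continuous_I0.comp (continuous_id.mul continuous_const)
      have h3 := h2.tendsto 0
      rw [zero_mul, I0_zero] at h3
      exact h3.mono_left nhdsWithin_le_nhds
    have h4 := h1.mul_const ((I0 t * K0 t ^ 3) * t)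
    rw [one_mul] at h4
    refine h4.congr fun r => ?_
    ring

theorem Bf_log_bound : ∃ C : ℝ, ∀ r : ℝ, 0 < r → r ≤ 1 →
    |Bf r + (∫ t in Ioi (0:ℝ), K0 t ^ 4 * t) * Real.log r| ≤ C := by
  have hI : IntegrableOn (fun t => (K0 t + t) * (mK0 t * t ^ 1)) (Ioi 0) := by
    have h1 := integrable_K0_mK0 one_pos 1
    have h2 := integrable_mK0_pow 2
    refine (h1.add h2).congr_fun (fun t _ => ?_) measurableSet_Ioi
    simp only [Pi.add_apply, one_mul]
    ring
  refine ⟨∫ t in Ioi (0:ℝ), (K0 t + t) * (mK0 t * t ^ 1), fun r hr hr1 => ?_⟩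
  have e : Bf r + (∫ t in Ioi (0:ℝ), K0 t ^ 4 * t) * Real.log r =
      ∫ t in Ioi (0:ℝ), (K0 (r * t) + Real.log r) * (mK0 t * t ^ 1) := by
    have h1 := integrable_K0_mK0 hr 1
    have h2 := (integrable_mK0_pow 1).mul_const (Real.log r)
    have h3 := integral_add h1 h2
    rw [integral_mul_const] at h3
    rw [Bf_eq, mom]
    have h4 : (∫ t in Ioi (0:ℝ), K0 t ^ 4 * t) = ∫ t in Ioi (0:ℝ), mK0 t * t ^ 1 := by
      simp [mK0]
    rw [h4, ← h3]
    refine setIntegral_congr_fun measurableSet_Ioi fun t _ => ?_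
    ring
  rw [e, ← Real.norm_eq_abs]
  refine norm_integral_le_of_norm_le hI ?_
  refine (ae_restrict_iff' measurableSet_Ioi).2 (Filter.Eventually.of_forall fun t ht => ?_)
  have ht0 : 0 < t := ht
  have h1 := abs_K0_sub_K0_add_log hr ht0
  have hm : 0 ≤ mK0 t * t ^ 1 := by
    have : 0 ≤ mK0 t := by unfold mK0; positivity
    positivity
  rw [Real.norm_eq_abs, abs_mul, abs_of_nonneg hm]
  refine mul_le_mul_of_nonneg_right ?_ hm
  have h2 : |r - 1| * t ≤ t := by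
    rw [abs_of_nonpos (by linarith)]
    nlinarith
  have h3 := abs_le.1 (h1.trans h2)
  have h4 := K0_pos ht0
  rw [abs_le]
  constructor <;> linarith [h3.1, h3.2]

/-! (B1.4) -/

theorem det5_eq : det5 = Bf 1 * Af2 1 - Bf2 1 * Af 1 := by
  have e1 : IKM 0 5 1 = Bf 1 := by
    unfold IKM Bf
    refine setIntegral_congr_fun measurableSet_Ioi fun t _ => ?_
    simp only [one_mul]
    ring
  have e2 : IKM 2 3 3 = Af2 1 := by
    unfold IKM Af2
    rw [one_pow, one_mul]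
    refine setIntegral_congr_fun measurableSet_Ioi fun t _ => ?_
    simp only [one_mul]
    ring
  have e3 : IKM 0 5 3 = Bf2 1 := by
    unfold IKM Bf2
    rw [one_pow, one_mul]
    refine setIntegral_congr_fun measurableSet_Ioi fun t _ => ?_
    simp only [one_mul]
    ring
  have e4 : IKM 2 3 1 = Af 1 := by
    unfold IKM Af
    refine setIntegral_congr_fun measurableSet_Ioi fun t _ => ?_
    simp only [one_mul]
    ring
  rw [det5, e1, e2, e3, e4]

end Pool.Agent.Lib.BM
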