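import Pool.Agent.Lib.BM.BesB

set_option autoImplicit false

/-! Project BM, block B1: the fourth symmetric power system for `K0^4` and `I0 K0^3`. -/

open Set Filter Topology

namespace Pool.Agent.Lib.BM

/-- `θ K0` -/
noncomputable def thK (t : ℝ) : ℝ := -(t * K1 t)

/-- `θ I0` -/
noncomputable def thI (t : ℝ) : ℝ := t * I1 t

theorem hasDerivAt_K0' {t : ℝ} (ht : 0 < t) : HasDerivAt K0 (thK t / t) t := by
  refine (hasDerivAt_K0 ht).congr_deriv ?_
  unfold thK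
  field_simp

theorem hasDerivAt_thK {t : ℝ} (ht : 0 < t) : HasDerivAt thK (t * K0 t) t := by
  have h := (hasDerivAt_tK1 ht).neg
  refine (h.congr_deriv ?_)
  ring

theorem hasDerivAt_I0' {t : ℝ} (ht : 0 < t) : HasDerivAt I0 (thI t / t) t := by
  refine (hasDerivAt_I0 t).congr_deriv ?_
  unfold thI
  field_simp

theorem hasDerivAt_thI (t : ℝ) : HasDerivAt thI (t * I0 t) t := hasDerivAt_tI1 t

/-! The `K` system. -/

noncomputable def mK0 (t : ℝ) : ℝ := K0 t ^ 4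
noncomputable def mK1 (t : ℝ) : ℝ := K0 t ^ 3 * thK t
noncomputable def mK2 (t : ℝ) : ℝ := K0 t ^ 2 * thK t ^ 2
noncomputable def mK3 (t : ℝ) : ℝ := K0 t * thK t ^ 3
noncomputable def mK4 (t : ℝ) : ℝ := thK t ^ 4

theorem hasDerivAt_mK0 {t : ℝ} (ht : 0 < t) : HasDerivAt mK0 (4 * mK1 t / t) t := by
  have h := (hasDerivAt_K0' ht).pow 4
  refine h.congr_deriv ?_
  simp only [mK1]
  field_simp
  push_cast
  ring

theorem hasDerivAt_mK1 {t : ℝ} (ht : 0 < t) :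
    HasDerivAt mK1 ((3 * mK2 t + t ^ 2 * mK0 t) / t) t := by
  have h := ((hasDerivAt_K0' ht).pow 3).mul (hasDerivAt_thK ht)
  refine h.congr_deriv ?_
  simp only [mK2, mK0]
  field_simp
  simp
  ring

theorem hasDerivAt_mK2 {t : ℝ} (ht : 0 < t) :
    HasDerivAt mK2 ((2 * mK3 t + 2 * t ^ 2 * mK1 t) / t) t := by
  have h := ((hasDerivAt_K0' ht).pow 2).mul ((hasDerivAt_thK ht).pow 2)
  refine h.congr_deriv ?_
  simp only [mK3, mK1]
  field_simp
  simp
  ring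

theorem hasDerivAt_mK3 {t : ℝ} (ht : 0 < t) :
    HasDerivAt mK3 ((mK4 t + 3 * t ^ 2 * mK2 t) / t) t := by
  have h := (hasDerivAt_K0' ht).mul ((hasDerivAt_thK ht).pow 3)
  refine h.congr_deriv ?_
  simp only [mK4, mK2]
  field_simp
  simp
  ring

theorem hasDerivAt_mK4 {t : ℝ} (ht : 0 < t) :
    HasDerivAt mK4 (4 * t ^ 2 * mK3 t / t) t := by
  have h := (hasDerivAt_thK ht).pow 4
  refine h.congr_deriv ?_
  simp only [mK3]
  field_simp
  simp
  ring

/-! The `I` system (polarisation). -/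

noncomputable def mI0 (t : ℝ) : ℝ := I0 t * K0 t ^ 3
noncomputable def mI1 (t : ℝ) : ℝ := (thI t * K0 t ^ 3 + 3 * (I0 t * (K0 t ^ 2 * thK t))) / 4
noncomputable def mI2 (t : ℝ) : ℝ :=
  (thI t * (K0 t ^ 2 * thK t) + I0 t * (K0 t * thK t ^ 2)) / 2
noncomputable def mI3 (t : ℝ) : ℝ := (3 * (thI t * (K0 t * thK t ^ 2)) + I0 t * thK t ^ 3) / 4
noncomputable def mI4 (t : ℝ) : ℝ := thI t * thK t ^ 3

theorem hasDerivAt_mI0 {t : ℝ} (ht : 0 < t) : HasDerivAt mI0 (4 * mI1 t / t) t := by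
  have h := (hasDerivAt_I0' ht).mul ((hasDerivAt_K0' ht).pow 3)
  refine h.congr_deriv ?_
  simp only [mI1]
  field_simp
  simp
  ring

theorem hasDerivAt_mI1 {t : ℝ} (ht : 0 < t) :
    HasDerivAt mI1 ((3 * mI2 t + t ^ 2 * mI0 t) / t) t := by
  have h := (((hasDerivAt_thI t).mul ((hasDerivAt_K0' ht).pow 3)).add
    (((hasDerivAt_I0' ht).mul (((hasDerivAt_K0' ht).pow 2).mul (hasDerivAt_thK ht))).const_mul
      3)).div_const 4
  refine h.congr_deriv ?_
  simp only [mI2, mI0]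
  field_simp
  simp
  ring

theorem hasDerivAt_mI2 {t : ℝ} (ht : 0 < t) :
    HasDerivAt mI2 ((2 * mI3 t + 2 * t ^ 2 * mI1 t) / t) t := by
  have h := (((hasDerivAt_thI t).mul (((hasDerivAt_K0' ht).pow 2).mul (hasDerivAt_thK ht))).add
    ((hasDerivAt_I0' ht).mul ((hasDerivAt_K0' ht).mul ((hasDerivAt_thK ht).pow 2)))).div_const 2
  refine h.congr_deriv ?_
  simp only [mI3, mI1]
  field_simp
  simp
  ring

theorem hasDerivAt_mI3 {t : ℝ} (ht : 0 < t) :
    HasDerivAt mI3 ((mI4 t + 3 * t ^ 2 * mI2 t) / t) t := by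
  have h := ((((hasDerivAt_thI t).mul ((hasDerivAt_K0' ht).mul
    ((hasDerivAt_thK ht).pow 2))).const_mul 3).add
    ((hasDerivAt_I0' ht).mul ((hasDerivAt_thK ht).pow 3))).div_const 4
  refine h.congr_deriv ?_
  simp only [mI4, mI2]
  field_simp
  simp
  ring

theorem hasDerivAt_mI4 {t : ℝ} (ht : 0 < t) :
    HasDerivAt mI4 (4 * t ^ 2 * mI3 t / t) t := by
  have h := (hasDerivAt_thI t).mul ((hasDerivAt_thK ht).pow 3)
  refine h.congr_deriv ?_
  simp only [mI3]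
  field_simp
  simp
  ring

end Pool.Agent.Lib.BM
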