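import Pool.Agent.Lib.BM.ValK

/-!
# The moment `∫ t I_0(t) K_0(t)^3 dt = π^2 / 16`
-/

set_option autoImplicit false

open MeasureTheory Set Filter Topology

namespace Pool.Agent.Lib.BM

namespace ValIAux

/-- `∫ t I_0(t) K_0(t) K_0(b t) dt` -/
noncomputable def X (b : ℝ) : ℝ := ∫ t in Ioi (0:ℝ), t * (I0 t * K0 t) * K0 (b * t)

/-- `b X'(b)` -/
noncomputable def X1 (b : ℝ) : ℝ :=
  ∫ t in Ioi (0:ℝ), t * (I0 t * K0 t) * (-(b * t * K1 (b * t)))

theorem K0_scaled_le {b t : ℝ} (hb : 0 < b) (ht : 0 < t) :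
    K0 (b * t) ≤ (Real.exp 1 * (1 + |Real.log b|)) * ((1 + |Real.log t|) * Real.exp (-b * t)) := by
  have h1 := K0_le_all (mul_pos hb ht)
  have h2 : 1 + |Real.log (b * t)| ≤ (1 + |Real.log b|) * (1 + |Real.log t|) := by
    rw [Real.log_mul hb.ne' ht.ne']
    have := abs_add_le (Real.log b) (Real.log t)
    have := abs_nonneg (Real.log b)
    have := abs_nonneg (Real.log t)
    nlinarith
  have h3 : Real.exp (1 - b * t) = Real.exp 1 * Real.exp (-b * t) := by
    rw [← Real.exp_add]; congr 1; ring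
  calc K0 (b * t) ≤ (1 + |Real.log (b * t)|) * Real.exp (1 - b * t) := h1
    _ ≤ ((1 + |Real.log b|) * (1 + |Real.log t|)) * Real.exp (1 - b * t) :=
        mul_le_mul_of_nonneg_right h2 (Real.exp_pos _).le
    _ = _ := by rw [h3]; ring

theorem tK1_scaled_le {b t : ℝ} (hb : 0 < b) (ht : 0 < t) :
    b * t * K1 (b * t) ≤ (Real.exp 1 * (1 + b)) * ((1 + t) * Real.exp (-b * t)) := by
  have h1 := tK1_le_all (mul_pos hb ht)
  have h2 : 1 + b * t ≤ (1 + b) * (1 + t) := by nlinarith
  have h3 : Real.exp (1 - b * t) = Real.exp 1 * Real.exp (-b * t) := by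
    rw [← Real.exp_add]; congr 1; ring
  calc b * t * K1 (b * t) ≤ (1 + b * t) * Real.exp (1 - b * t) := h1
    _ ≤ ((1 + b) * (1 + t)) * Real.exp (1 - b * t) :=
        mul_le_mul_of_nonneg_right h2 (Real.exp_pos _).le
    _ = _ := by rw [h3]; ring

/-- the two majorants -/
theorem int_maj (n e : ℕ) {s : ℝ} (hs : 0 < s) :
    IntegrableOn (fun t : ℝ => t ^ n * (1 + |Real.log t|) ^ e * Real.exp (-s * t) *
      (I0 t * K0 t)) (Ioi 0) := by
  have := integrableOn_exp_IK n e 1 0 1 0 (s := -s) (by push_cast; linarith) (Nat.zero_le _)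
  simpa using this

theorem cont_scaled {b : ℝ} (hb : 0 < b) : ContinuousOn (fun t => K0 (b * t)) (Ioi 0) ∧
    ContinuousOn (fun t => K1 (b * t)) (Ioi 0) := by
  have h : MapsTo (fun t : ℝ => b * t) (Ioi 0) (Ioi 0) := fun t ht => mul_pos hb ht
  exact ⟨continuousOn_K0.comp (by fun_prop) h, continuousOn_K1.comp (by fun_prop) h⟩

theorem cont_base : ContinuousOn (fun t => t * (I0 t * K0 t)) (Ioi 0) :=
  continuousOn_id.mul (continuous_I0.continuousOn.mul continuousOn_K0)

theorem int_X {b : ℝ} (hb : 0 < b) :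
    IntegrableOn (fun t => t * (I0 t * K0 t) * K0 (b * t)) (Ioi 0) := by
  refine ((int_maj 1 1 hb).const_mul (Real.exp 1 * (1 + |Real.log b|))).mono'
    ((cont_base.mul (cont_scaled hb).1).aestronglyMeasurable measurableSet_Ioi) ?_
  rw [ae_restrict_iff' measurableSet_Ioi]
  refine Eventually.of_forall fun t ht => ?_
  have ht' : (0:ℝ) < t := ht
  have h1 := (I0_pos t).le
  have h2 := (K0_pos ht').le
  have h3 := (K0_pos (mul_pos hb ht')).le
  rw [Real.norm_eq_abs, abs_of_nonneg (by positivity)]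
  calc t * (I0 t * K0 t) * K0 (b * t)
      ≤ t * (I0 t * K0 t) *
        ((Real.exp 1 * (1 + |Real.log b|)) * ((1 + |Real.log t|) * Real.exp (-b * t))) :=
        mul_le_mul_of_nonneg_left (K0_scaled_le hb ht') (by positivity)
    _ = _ := by ring

theorem int_X1 {b : ℝ} (hb : 0 < b) :
    IntegrableOn (fun t => t * (I0 t * K0 t) * (-(b * t * K1 (b * t)))) (Ioi 0) := by
  have hm := (((int_maj 1 0 hb).add (int_maj 2 0 hb)).const_mul (Real.exp 1 * (1 + b)))
  refine hm.mono' ((cont_base.mul ((continuousOn_const.mul continuousOn_id).mul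
    (cont_scaled hb).2).neg).aestronglyMeasurable measurableSet_Ioi) ?_
  rw [ae_restrict_iff' measurableSet_Ioi]
  refine Eventually.of_forall fun t ht => ?_
  have ht' : (0:ℝ) < t := ht
  have h1 := (I0_pos t).le
  have h2 := (K0_pos ht').le
  have h3 := (K1_pos (mul_pos hb ht')).le
  rw [mul_neg, norm_neg, Real.norm_eq_abs, abs_of_nonneg (by positivity)]
  simp only [Pi.add_apply]
  calc t * (I0 t * K0 t) * (b * t * K1 (b * t))
      ≤ t * (I0 t * K0 t) *
        ((Real.exp 1 * (1 + b)) * ((1 + t) * Real.exp (-b * t))) :=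
        mul_le_mul_of_nonneg_left (tK1_scaled_le hb ht') (by positivity)
    _ = _ := by ring

theorem hasDerivAt_X {b : ℝ} (hb : 0 < b) : HasDerivAt X (X1 b / b) b := by
  have h := hasDerivAt_integral_of_dominated_loc_of_deriv_le
    (μ := volume.restrict (Ioi (0:ℝ)))
    (F := fun (b t : ℝ) => t * (I0 t * K0 t) * K0 (b * t))
    (F' := fun (b t : ℝ) => t * (I0 t * K0 t) * (-(K1 (b * t)) * t))
    (x₀ := b) (s := Metric.ball b (b / 2))
    (bound := fun t => (2 / b * (Real.exp 1 * (1 + 2 * b))) *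
      ((t ^ 1 * (1 + |Real.log t|) ^ 0 * Real.exp (-(b / 2) * t) * (I0 t * K0 t)) +
       (t ^ 2 * (1 + |Real.log t|) ^ 0 * Real.exp (-(b / 2) * t) * (I0 t * K0 t))))
    (Metric.ball_mem_nhds b (by linarith)) ?_ ?_ ?_ ?_ ?_ ?_
  · refine h.2.congr_deriv ?_
    rw [X1, ← integral_div]
    refine setIntegral_congr_fun measurableSet_Ioi fun t _ => ?_
    field_simp
  · filter_upwards [Ioi_mem_nhds hb] with c hc
    exact (cont_base.mul (cont_scaled hc).1).aestronglyMeasurable measurableSet_Ioi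
  · exact int_X hb
  · exact (cont_base.mul ((cont_scaled hb).2.neg.mul continuousOn_id)).aestronglyMeasurable
      measurableSet_Ioi
  · rw [ae_restrict_iff' measurableSet_Ioi]
    refine Eventually.of_forall fun t ht c hc => ?_
    have ht' : (0:ℝ) < t := ht
    have hc1 : b / 2 < c ∧ c < 2 * b := by
      have : |c - b| < b / 2 := by simpa [Real.dist_eq] using hc
      have := abs_lt.mp this
      constructor <;> linarith
    have hc0 : 0 < c := by linarith [hc1.1]
    have h1 := (I0_pos t).le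
    have h2 := (K0_pos ht').le
    have h3 := (K1_pos (mul_pos hc0 ht')).le
    have h4 := tK1_scaled_le hc0 ht'
    have h5 : K1 (c * t) * t ≤ 2 / b * (c * t * K1 (c * t)) := by
      have : K1 (c * t) * t * 1 ≤ K1 (c * t) * t * (2 / b * c) := by
        refine mul_le_mul_of_nonneg_left ?_ (by positivity)
        rw [div_mul_eq_mul_div, le_div_iff₀ hb]
        linarith [hc1.1]
      calc K1 (c * t) * t = K1 (c * t) * t * 1 := by ring
        _ ≤ _ := this
        _ = _ := by ring
    have h6 : c * t * K1 (c * t) ≤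
        (Real.exp 1 * (1 + 2 * b)) * ((1 + t) * Real.exp (-(b / 2) * t)) := by
      refine h4.trans ?_
      have h7 : Real.exp (-c * t) ≤ Real.exp (-(b / 2) * t) := by
        apply Real.exp_le_exp.mpr
        nlinarith [hc1.1]
      have h8 : 1 + c ≤ 1 + 2 * b := by linarith [hc1.2]
      gcongr
    rw [show t * (I0 t * K0 t) * (-K1 (c * t) * t) = -(t * (I0 t * K0 t) * (K1 (c * t) * t)) by
      ring, norm_neg, Real.norm_eq_abs, abs_of_nonneg (by positivity)]
    calc t * (I0 t * K0 t) * (K1 (c * t) * t)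
        ≤ t * (I0 t * K0 t) * (2 / b *
          ((Real.exp 1 * (1 + 2 * b)) * ((1 + t) * Real.exp (-(b / 2) * t)))) := by
          refine mul_le_mul_of_nonneg_left (h5.trans ?_) (by positivity)
          exact mul_le_mul_of_nonneg_left h6 (by positivity)
      _ = _ := by ring
  · exact ((int_maj 1 0 (by linarith)).add (int_maj 2 0 (by linarith))).const_mul _
  · rw [ae_restrict_iff' measurableSet_Ioi]
    refine Eventually.of_forall fun t ht c hc => ?_
    have ht' : (0:ℝ) < t := ht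
    have hc1 : b / 2 < c := by
      have : |c - b| < b / 2 := by simpa [Real.dist_eq] using hc
      have := abs_lt.mp this
      linarith
    have hc0 : 0 < c := by linarith
    have h0 : HasDerivAt (fun c : ℝ => c * t) t c := by
      simpa using (hasDerivAt_id c).mul_const t
    exact ((hasDerivAt_K0 (mul_pos hc0 ht')).comp c h0).const_mul _

/-- the certificate -/
noncomputable def Q (b t : ℝ) : ℝ :=
  -2 * ((1 / 2) * (I0 t * (-(t * K1 t)) + t * I1 t * K0 t)) * (-(b * t * K1 (b * t))) +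
    (b ^ 2 - 2) * t ^ 2 * (I0 t * K0 t) * K0 (b * t) +
    2 * (t * I1 t * (-(t * K1 t))) * K0 (b * t)

theorem hasDerivAt_Q {b t : ℝ} (hb : 0 < b) (ht : 0 < t) :
    HasDerivAt (Q b) ((b ^ 2 - 4) * (t * (I0 t * K0 t) * (-(b * t * K1 (b * t)))) +
      (2 * b ^ 2 - 4) * (t * (I0 t * K0 t) * K0 (b * t))) t := by
  have dI0 := hasDerivAt_I0 t
  have di1 := hasDerivAt_tI1 t
  have dK0 := hasDerivAt_K0 ht
  have dk1 := (hasDerivAt_tK1 ht).neg
  have h0 : HasDerivAt (fun t : ℝ => b * t) b t := by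
    simpa using (hasDerivAt_id t).const_mul b
  have dg0 : HasDerivAt (fun t => K0 (b * t)) (-K1 (b * t) * b) t :=
    (hasDerivAt_K0 (mul_pos hb ht)).comp t h0
  have dg1 : HasDerivAt (fun t => -(b * t * K1 (b * t))) (-(-(b * t * K0 (b * t)) * b)) t :=
    ((hasDerivAt_tK1 (mul_pos hb ht)).comp t h0).neg
  have dt2 : HasDerivAt (fun t : ℝ => t ^ 2) (2 * t) t := by simpa using hasDerivAt_pow 2 t
  have e1 := ((((dI0.mul dk1).add (di1.mul dK0)).const_mul (1 / 2)).const_mul (-2)).mul dg1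
  have e2 := ((dt2.const_mul (b ^ 2 - 2)).mul (dI0.mul dK0)).mul dg0
  have e3 := (((di1.mul dk1).const_mul 2)).mul dg0
  have e := (e1.add e2).add e3
  refine (e.congr_deriv ?_).congr_of_eventuallyEq (Filter.Eventually.of_forall fun s => ?_)
  · simp only [Pi.mul_apply, Pi.neg_apply, Pi.add_apply]
    ring
  · simp only [Q, Pi.mul_apply, Pi.neg_apply, Pi.add_apply]

theorem lim_scale {a : ℝ} (ha : 0 < a) : Tendsto (fun t : ℝ => a * t) (𝓝[>] 0) (𝓝[>] 0) := by
  refine tendsto_nhdsWithin_iff.mpr ⟨?_, ?_⟩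
  · have : Continuous fun t : ℝ => a * t := by fun_prop
    have h := this.tendsto 0
    rw [mul_zero] at h
    exact h.mono_left nhdsWithin_le_nhds
  · filter_upwards [self_mem_nhdsWithin] with t ht
    exact mul_pos ha ht

theorem tendsto_tK0 : Tendsto (fun t => t * K0 t) (𝓝[>] 0) (𝓝 0) := by
  refine squeeze_zero' ?_ ?_ tendsto_t_mul_log
  · filter_upwards [self_mem_nhdsWithin] with t ht
    exact mul_nonneg (le_of_lt ht) (K0_pos ht).le
  · filter_upwards [Ioc_mem_nhdsGT one_pos] with t ht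
    have h1 := K0_le_one_sub_log ht.1 ht.2
    have h2 := neg_abs_le (Real.log t)
    exact mul_le_mul_of_nonneg_left (by linarith) ht.1.le

theorem tendsto_tK0_scaled {b : ℝ} (hb : 0 < b) :
    Tendsto (fun t => t * K0 (b * t)) (𝓝[>] 0) (𝓝 0) := by
  have h := (tendsto_tK0.comp (lim_scale hb)).const_mul (1 / b)
  rw [mul_zero] at h
  refine h.congr fun t => ?_
  simp only [Function.comp]
  field_simp

theorem tendsto_Q_zero {b : ℝ} (hb : 0 < b) : Tendsto (Q b) (𝓝[>] 0) (𝓝 (-1)) := by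
  have cI0 : Tendsto I0 (𝓝[>] 0) (𝓝 1) := by
    have := continuous_I0.tendsto 0
    rw [I0_zero] at this
    exact this.mono_left nhdsWithin_le_nhds
  have cI1 : Tendsto I1 (𝓝[>] 0) (𝓝 0) := by
    have := continuous_I1.tendsto 0
    rw [I1_zero] at this
    exact this.mono_left nhdsWithin_le_nhds
  have ct : Tendsto (fun t : ℝ => t) (𝓝[>] 0) (𝓝 0) :=
    (continuous_id.tendsto 0).mono_left nhdsWithin_le_nhds
  have k1 := tK1_tendsto
  have g1 := tK1_tendsto.comp (lim_scale hb)
  have k0 := tendsto_tK0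
  have g0 := tendsto_tK0_scaled hb
  have h1 := ((((cI0.mul k1.neg).add (cI1.mul k0)).const_mul (1 / 2)).const_mul (-2)).mul g1.neg
  have h2 := ((cI0.mul k0).mul g0).const_mul (b ^ 2 - 2)
  have h3 := ((cI1.mul k1.neg).mul g0).const_mul 2
  have h := (h1.add h2).add h3
  have e : -2 * (1 / 2 * (1 * -1 + 0 * 0)) * -1 + (b ^ 2 - 2) * (1 * 0 * 0) +
      2 * (0 * -1 * 0) = (-1:ℝ) := by ring
  rw [e] at h
  refine h.congr fun t => ?_
  simp only [Q, Function.comp]
  ring

theorem tendsto_Q_atTop {b : ℝ} (hb : 0 < b) : Tendsto (Q b) atTop (𝓝 0) := by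
  have h0 : Tendsto (fun t : ℝ => (64 * (1 + b ^ 2) * (1 + b) / b ^ 2) *
      ((b * t) ^ 2 * Real.exp (-(b * t)))) atTop (𝓝 0) := by
    have h1 := (Real.tendsto_pow_mul_exp_neg_atTop_nhds_zero 2).comp
      (tendsto_id.const_mul_atTop hb)
    have := h1.const_mul (64 * (1 + b ^ 2) * (1 + b) / b ^ 2)
    simpa using this
  refine squeeze_zero_norm' ?_ h0
  filter_upwards [eventually_ge_atTop 1, eventually_ge_atTop (1 / b)] with t ht htb
  have ht0 : 0 < t := by linarith
  have hbt : 1 ≤ b * t := by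
    rw [div_le_iff₀ hb] at htb; linarith
  have hbt0 : 0 < b * t := by linarith
  have i0 := (I0_pos t).le
  have i1 := I1_nonneg ht0.le
  have i0' := I0_le_exp ht0.le
  have i1' := I1_le_exp ht0.le
  have k0 := (K0_pos ht0).le
  have k1 := (K1_pos ht0).le
  have k0' := K0_le ht
  have k1' := K1_le ht
  have g0 := (K0_pos hbt0).le
  have g1 := (K1_pos hbt0).le
  have g0' := K0_le hbt
  have g1' := K1_le hbt
  have hE : Real.exp t * Real.exp (-t) = 1 := by rw [← Real.exp_add]; simp
  have p1 : I0 t * K1 t ≤ 4 := by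
    calc I0 t * K1 t ≤ Real.exp t * (4 * Real.exp (-t)) := mul_le_mul i0' k1' k1 (Real.exp_pos _).le
      _ = 4 * (Real.exp t * Real.exp (-t)) := by ring
      _ = 4 := by rw [hE]; ring
  have p2 : I1 t * K0 t ≤ 4 := by
    calc I1 t * K0 t ≤ Real.exp t * (4 * Real.exp (-t)) := mul_le_mul i1' k0' k0 (Real.exp_pos _).le
      _ = 4 * (Real.exp t * Real.exp (-t)) := by ring
      _ = 4 := by rw [hE]; ring
  have p3 : I0 t * K0 t ≤ 4 := by
    calc I0 t * K0 t ≤ Real.exp t * (4 * Real.exp (-t)) := mul_le_mul i0' k0' k0 (Real.exp_pos _).le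
      _ = 4 * (Real.exp t * Real.exp (-t)) := by ring
      _ = 4 := by rw [hE]; ring
  have p4 : I1 t * K1 t ≤ 4 := by
    calc I1 t * K1 t ≤ Real.exp t * (4 * Real.exp (-t)) := mul_le_mul i1' k1' k1 (Real.exp_pos _).le
      _ = 4 * (Real.exp t * Real.exp (-t)) := by ring
      _ = 4 := by rw [hE]; ring
  have q1 := mul_nonneg i0 k1
  have q2 := mul_nonneg i1 k0
  have q3 := mul_nonneg i0 k0
  have q4 := mul_nonneg i1 k1
  set E := Real.exp (-(b * t)) with hEdef
  have hEpos : 0 < E := Real.exp_pos _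
  -- the three terms
  have a1 : |(-2 * ((1 / 2) * (I0 t * (-(t * K1 t)) + t * I1 t * K0 t)) *
      (-(b * t * K1 (b * t))))| ≤ 4 * t * (b * t * (4 * E)) := by
    have e1 : (-2 * ((1 / 2) * (I0 t * (-(t * K1 t)) + t * I1 t * K0 t)) *
        (-(b * t * K1 (b * t)))) = (t * (I1 t * K0 t - I0 t * K1 t)) * (b * t * K1 (b * t)) := by
      ring
    rw [e1, abs_mul, abs_mul, abs_of_pos ht0, abs_of_nonneg (by positivity : 0 ≤ b * t * K1 (b * t))]
    have e2 : |I1 t * K0 t - I0 t * K1 t| ≤ 4 := by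
      rw [abs_le]; constructor <;> linarith
    have e3 : b * t * K1 (b * t) ≤ b * t * (4 * E) := mul_le_mul_of_nonneg_left g1' hbt0.le
    calc t * |I1 t * K0 t - I0 t * K1 t| * (b * t * K1 (b * t))
        ≤ t * 4 * (b * t * (4 * E)) := by gcongr
      _ = _ := by ring
  have a2 : |(b ^ 2 - 2) * t ^ 2 * (I0 t * K0 t) * K0 (b * t)| ≤
      (b ^ 2 + 2) * t ^ 2 * 4 * (4 * E) := by
    rw [abs_mul, abs_mul, abs_mul, abs_of_nonneg g0, abs_of_nonneg q3,
      abs_of_nonneg (by positivity : 0 ≤ t ^ 2)]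
    have e2 : |b ^ 2 - 2| ≤ b ^ 2 + 2 := by
      rw [abs_le]; constructor <;> nlinarith [sq_nonneg b]
    gcongr
  have a3 : |2 * (t * I1 t * (-(t * K1 t))) * K0 (b * t)| ≤ 2 * t ^ 2 * 4 * (4 * E) := by
    have e1 : 2 * (t * I1 t * (-(t * K1 t))) * K0 (b * t) =
        -(2 * t ^ 2 * (I1 t * K1 t) * K0 (b * t)) := by ring
    rw [e1, abs_neg, abs_of_nonneg (by positivity)]
    gcongr
  rw [Real.norm_eq_abs]
  unfold Q
  refine (abs_add_le _ _).trans ?_
  refine (add_le_add_left (abs_add_le _ _) _).trans ?_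
  have e4 : 64 * (1 + b ^ 2) * (1 + b) / b ^ 2 * ((b * t) ^ 2 * E) =
      64 * (1 + b ^ 2) * (1 + b) * t ^ 2 * E := by
    field_simp
  rw [e4]
  have h5 : 0 < t ^ 2 * E := by positivity
  nlinarith [mul_pos hb h5, mul_pos (pow_pos hb 2) h5, mul_pos (pow_pos hb 3) h5]

/-- the first order equation -/
theorem ode {b : ℝ} (hb : 0 < b) : (b ^ 2 - 4) * X1 b + (2 * b ^ 2 - 4) * X b = 1 := by
  have hint := ((int_X1 hb).const_mul (b ^ 2 - 4)).add ((int_X hb).const_mul (2 * b ^ 2 - 4))
  have h := integral_Ioi_zero_of_tendsto (fun t ht => hasDerivAt_Q hb ht) hint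
    (tendsto_Q_zero hb) (tendsto_Q_atTop hb)
  rw [integral_add ((int_X1 hb).const_mul (b ^ 2 - 4)) ((int_X hb).const_mul (2 * b ^ 2 - 4)),
    integral_const_mul, integral_const_mul] at h
  unfold X X1
  linarith

theorem sinh_mul_X (p : ℝ) : Real.sinh (2 * p) * X (2 * Real.cosh p) = p / 2 := by
  have hd : ∀ p : ℝ, HasDerivAt (fun p => Real.sinh (2 * p) * X (2 * Real.cosh p) - p / 2) 0 p := by
    intro p
    have hc := Real.cosh_pos p
    have hb : 0 < 2 * Real.cosh p := by positivity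
    have h1 : HasDerivAt (fun p => Real.sinh (2 * p)) (Real.cosh (2 * p) * 2) p := by
      have h0 : HasDerivAt (fun p : ℝ => 2 * p) 2 p := by simpa using (hasDerivAt_id p).const_mul 2
      exact (Real.hasDerivAt_sinh (2 * p)).comp p h0
    have h2 : HasDerivAt (fun p => X (2 * Real.cosh p))
        (X1 (2 * Real.cosh p) / (2 * Real.cosh p) * (2 * Real.sinh p)) p :=
      HasDerivAt.comp (h₂ := X) (h := fun p => 2 * Real.cosh p) p (hasDerivAt_X hb)
        ((Real.hasDerivAt_cosh p).const_mul 2)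
    have h3 := (h1.mul h2).sub ((hasDerivAt_id p).div_const 2)
    refine h3.congr_deriv ?_
    have ho := ode hb
    have hs : Real.sinh p ^ 2 = Real.cosh p ^ 2 - 1 := Real.sinh_sq p
    have hc2 : Real.cosh (2 * p) = 2 * Real.cosh p ^ 2 - 1 := by
      rw [Real.cosh_two_mul, hs]; ring
    rw [hc2, Real.sinh_two_mul]
    have e1 : 2 * Real.sinh p * Real.cosh p *
        (X1 (2 * Real.cosh p) / (2 * Real.cosh p) * (2 * Real.sinh p)) =
        2 * Real.sinh p ^ 2 * X1 (2 * Real.cosh p) := by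
      field_simp
    rw [e1, hs]
    linear_combination (1 / 2) * ho
  have h1 := is_const_of_deriv_eq_zero (fun p => (hd p).differentiableAt)
    (fun p => (hd p).deriv) p 0
  simp only [mul_zero, Real.sinh_zero, zero_mul, zero_div, sub_zero] at h1
  linarith

theorem X_eq {p : ℝ} (hp : 0 < p) : X (2 * Real.cosh p) = p / (2 * Real.sinh (2 * p)) := by
  have h1 := sinh_mul_X p
  have h2 : 0 < Real.sinh (2 * p) := Real.sinh_pos_iff.mpr (by linarith)
  rw [eq_div_iff (by positivity)]
  linarith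

theorem lintegral_exp {c : ℝ} (hc : 0 < c) :
    ∫⁻ p in Ioi (0:ℝ), ENNReal.ofReal (p * Real.exp (-(c * p))) = ENNReal.ofReal (1 / c ^ 2) := by
  have hderiv : ∀ p : ℝ, 0 < p → HasDerivAt (fun p => -((p / c + 1 / c ^ 2) * Real.exp (-(c * p))))
      (p * Real.exp (-(c * p))) p := by
    intro p _
    have h0 : HasDerivAt (fun p : ℝ => -(c * p)) (-c) p := by
      have := ((hasDerivAt_id p).const_mul c).neg
      rw [mul_one] at this
      exact this
    have h1 : HasDerivAt (fun p : ℝ => p / c + 1 / c ^ 2) (1 / c) p :=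
      ((hasDerivAt_id p).div_const c).add_const _
    refine ((h1.mul h0.exp).neg).congr_deriv ?_
    field_simp
    ring
  have h0 : Tendsto (fun p => -((p / c + 1 / c ^ 2) * Real.exp (-(c * p)))) (𝓝[>] 0)
      (𝓝 (-(1 / c ^ 2))) := by
    have : Continuous fun p : ℝ => -((p / c + 1 / c ^ 2) * Real.exp (-(c * p))) := by fun_prop
    have h := this.tendsto 0
    simp only [zero_div, zero_add, mul_zero, neg_zero, Real.exp_zero, mul_one] at h
    exact h.mono_left nhdsWithin_le_nhds
  have hinf : Tendsto (fun p => -((p / c + 1 / c ^ 2) * Real.exp (-(c * p)))) atTop (𝓝 0) := by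
    have hl : Tendsto (fun p : ℝ => c * p) atTop atTop := tendsto_id.const_mul_atTop hc
    have h1 := (Real.tendsto_pow_mul_exp_neg_atTop_nhds_zero 1).comp hl
    have h2 := (Real.tendsto_pow_mul_exp_neg_atTop_nhds_zero 0).comp hl
    have h3 := ((h1.add h2).const_mul (-(1 / c ^ 2)))
    rw [add_zero, mul_zero] at h3
    refine h3.congr fun p => ?_
    simp only [Function.comp, pow_one, pow_zero]
    field_simp
  have hint := integrableOn_Ioi_zero_of_nonneg hderiv
    (fun p hp => mul_nonneg hp.le (Real.exp_pos _).le) h0 hinf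
  have hval := integral_Ioi_zero_of_tendsto hderiv hint h0 hinf
  rw [zero_sub, neg_neg] at hval
  rw [← hval, ofReal_integral_eq_lintegral_ofReal hint]
  rw [EventuallyLE, ae_restrict_iff' measurableSet_Ioi]
  exact Eventually.of_forall fun p hp => mul_nonneg (le_of_lt hp) (Real.exp_pos _).le

theorem X_hasSum {p : ℝ} (hp : 0 < p) :
    HasSum (fun k : ℕ => p * Real.exp (-((4 * k + 2) * p))) (X (2 * Real.cosh p)) := by
  rw [X_eq hp]
  have hx : Real.exp (-(4 * p)) < 1 := Real.exp_lt_one_iff.mpr (by linarith)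
  have h1 := (hasSum_geometric_of_lt_one (Real.exp_pos (-(4 * p))).le hx).mul_left
    (p * Real.exp (-(2 * p)))
  have e1 : (fun k : ℕ => p * Real.exp (-((4 * (k:ℝ) + 2) * p))) =
      fun k : ℕ => p * Real.exp (-(2 * p)) * Real.exp (-(4 * p)) ^ k := by
    funext k
    rw [← Real.exp_nat_mul, mul_assoc, ← Real.exp_add]
    congr 2
    ring
  have e2 : p / (2 * Real.sinh (2 * p)) =
      p * Real.exp (-(2 * p)) * (1 - Real.exp (-(4 * p)))⁻¹ := by
    have h2 : 0 < Real.sinh (2 * p) := Real.sinh_pos_iff.mpr (by linarith)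
    have h3 : 0 < 1 - Real.exp (-(4 * p)) := by linarith
    rw [div_eq_iff (by positivity)]
    have h4 : Real.exp (-(2 * p)) * (2 * Real.sinh (2 * p)) = 1 - Real.exp (-(4 * p)) := by
      rw [Real.sinh_eq]
      have h5 : Real.exp (-(2 * p)) * Real.exp (2 * p) = 1 := by rw [← Real.exp_add]; simp
      have h6 : Real.exp (-(2 * p)) * Real.exp (-(2 * p)) = Real.exp (-(4 * p)) := by
        rw [← Real.exp_add]; congr 1; ring
      linear_combination h5 - h6
    calc p = p * ((1 - Real.exp (-(4 * p))) * (1 - Real.exp (-(4 * p)))⁻¹) := by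
          rw [mul_inv_cancel₀ h3.ne', mul_one]
      _ = p * ((Real.exp (-(2 * p)) * (2 * Real.sinh (2 * p))) * (1 - Real.exp (-(4 * p)))⁻¹) := by
          rw [h4]
      _ = _ := by ring
  rw [e1, e2]
  exact h1

theorem lintegral_I0_K0 :
    ∫⁻ t in Ioi (0:ℝ), ENNReal.ofReal ((I0 t * K0 t ^ 3) * t) =
      ∑' k : ℕ, ENNReal.ofReal (1 / 2 * (1 / (2 * (k:ℝ) + 1) ^ 2)) := by
  have hmK := ValKAux.measurable_K0
  have hmI : Measurable I0 := continuous_I0.measurable
  have hmc : Measurable Real.cosh := Real.continuous_cosh.measurable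
  have h1 : ∫⁻ t in Ioi (0:ℝ), ENNReal.ofReal ((I0 t * K0 t ^ 3) * t) =
      ∫⁻ t in Ioi (0:ℝ), 2 * ∫⁻ p in Ioi (0:ℝ),
        ENNReal.ofReal (t * (I0 t * K0 t) * K0 (2 * Real.cosh p * t)) := by
    refine setLIntegral_congr_fun measurableSet_Ioi fun t ht => ?_
    have ht' : (0:ℝ) < t := ht
    have i0 := (I0_pos t).le
    have k0 := (K0_pos ht').le
    have e1 : ENNReal.ofReal ((I0 t * K0 t ^ 3) * t) =
        ENNReal.ofReal (t * (I0 t * K0 t)) * ENNReal.ofReal (K0 t) ^ 2 := by
      rw [← ENNReal.ofReal_pow k0, ← ENNReal.ofReal_mul (by positivity)]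
      congr 1; ring
    rw [e1, K0_sq ht', ← lintegral_const_mul' _ _ ENNReal.ofReal_ne_top,
      lintegral_even fun p => by rw [Real.cosh_neg]]
    congr 1
    refine lintegral_congr fun p => ?_
    rw [← ENNReal.ofReal_mul (by positivity)]
    congr 3
    ring
  have m1 : Measurable (Function.uncurry fun (t p : ℝ) =>
      ENNReal.ofReal (t * (I0 t * K0 t) * K0 (2 * Real.cosh p * t))) := by
    unfold Function.uncurry
    fun_prop
  rw [h1, lintegral_const_mul' _ _ (by simp), lintegral_lintegral_swap m1.aemeasurable]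
  have h2 : ∫⁻ p in Ioi (0:ℝ), ∫⁻ t in Ioi (0:ℝ),
        ENNReal.ofReal (t * (I0 t * K0 t) * K0 (2 * Real.cosh p * t)) =
      ∫⁻ p in Ioi (0:ℝ), ∑' k : ℕ, ENNReal.ofReal (p * Real.exp (-((4 * k + 2) * p))) := by
    refine setLIntegral_congr_fun measurableSet_Ioi fun p hp => ?_
    have hp' : (0:ℝ) < p := hp
    have hb : 0 < 2 * Real.cosh p := by have := Real.cosh_pos p; positivity
    rw [← ENNReal.ofReal_tsum_of_nonneg (fun k => mul_nonneg hp'.le (Real.exp_pos _).le)
      (X_hasSum hp').summable, (X_hasSum hp').tsum_eq, X,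
      ofReal_integral_eq_lintegral_ofReal (int_X hb)]
    rw [EventuallyLE, ae_restrict_iff' measurableSet_Ioi]
    refine Eventually.of_forall fun t ht => ?_
    have ht' : (0:ℝ) < t := ht
    have i0 := (I0_pos t).le
    have k0 := (K0_pos ht').le
    have g0 := (K0_pos (mul_pos hb ht')).le
    simp only [Pi.zero_apply]
    positivity
  rw [h2, lintegral_tsum fun k => by
      exact (by fun_prop : Measurable _).aemeasurable, ← ENNReal.tsum_mul_left]
  refine tsum_congr fun k => ?_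
  rw [lintegral_exp (by positivity)]
  have : (2:ENNReal) = ENNReal.ofReal 2 := by simp
  rw [this, ← ENNReal.ofReal_mul (by positivity)]
  congr 1
  field_simp
  ring

theorem tsum_zeta_two : ∑' n : ℕ, 1 / ((n:ℝ) + 1) ^ 2 = Real.pi ^ 2 / 6 := by
  have h := hasSum_zeta_two
  have h1 := h.tsum_eq
  rw [h.summable.tsum_eq_zero_add] at h1
  simpa using h1

end ValIAux

theorem integrable_I0_mul_K0_cubed : IntegrableOn (fun t => (I0 t * K0 t ^ 3) * t) (Ioi 0) := by
  refine (integrableOn_IK 1 1 0 3 0 (by norm_num) (by norm_num)).congr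
    (Eventually.of_forall fun t => ?_)
  simp only
  ring

/-- `∫ t I_0(t) K_0(t)^3 dt = π^2 / 16` -/
theorem integral_I0_mul_K0_cubed :
    ∫ t in Ioi (0:ℝ), (I0 t * K0 t ^ 3) * t = Real.pi ^ 2 / 16 := by
  have hs := (ValKAux.summable_odd 2 le_rfl).mul_left (1 / 2)
  rw [integral_eq_lintegral_of_nonneg_ae, ValIAux.lintegral_I0_K0,
    ← ENNReal.ofReal_tsum_of_nonneg (fun k => by positivity) hs,
    ENNReal.toReal_ofReal (tsum_nonneg fun k => by positivity), tsum_mul_left,
    ValKAux.tsum_odd 2 le_rfl, ValIAux.tsum_zeta_two]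
  · ring
  · rw [EventuallyLE, ae_restrict_iff' measurableSet_Ioi]
    refine Eventually.of_forall fun t ht => ?_
    have ht' : (0:ℝ) < t := ht
    have i0 := (I0_pos t).le
    have k0 := (K0_pos ht').le
    simp only [Pi.zero_apply]
    positivity
  · exact integrable_I0_mul_K0_cubed.aestronglyMeasurable

theorem IKM_one_three_one : IKM 1 3 1 = Real.pi ^ 2 / 16 := by
  rw [← integral_I0_mul_K0_cubed]
  unfold IKM
  simp

end Pool.Agent.Lib.BM
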