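import Pool.Agent.Lib.BM.BesX0
import Pool.Agent.Lib.BM.ValI

set_option autoImplicit false

/-! Project BM, block B1: the exports of the Bessel side. -/

namespace Pool.Agent.Lib.BM

theorem besX : BesX Af Af1 Af2 Af3 Bf Bf1 Bf2 Bf3 := besX_of integral_I0_mul_K0_cubed

end Pool.Agent.Lib.BM
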