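import Pool.Agent.Lib.BM.BesL
import Pool.Agent.Lib.BM.Defs

/-!
# The fourth moment `∫ t K_0(t)^4 dt = 7 ζ(3) / 8`
-/

set_option autoImplicit false

open MeasureTheory Set Filter Topology

namespace Pool.Agent.Lib.BM

namespace ValKAux

/-- `tanh` -/
noncomputable def th (p : ℝ) : ℝ := Real.sinh p / Real.cosh p

theorem hasDerivAt_th (p : ℝ) : HasDerivAt th (1 / Real.cosh p ^ 2) p := by
  have hc := (Real.cosh_pos p).ne'
  refine ((Real.hasDerivAt_sinh p).div (Real.hasDerivAt_cosh p) hc).congr_deriv ?_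
  congr 1
  have := Real.cosh_sq p
  nlinarith

theorem th_pos {p : ℝ} (hp : 0 < p) : 0 < th p :=
  div_pos (Real.sinh_pos_iff.mpr hp) (Real.cosh_pos p)

theorem th_lt_one (p : ℝ) : th p < 1 := by
  unfold th
  rw [div_lt_one (Real.cosh_pos p)]
  exact Real.sinh_lt_cosh p

theorem tendsto_th : Tendsto th atTop (𝓝 1) := by
  have h1 : Tendsto (fun p : ℝ => 1 - Real.exp (-p)) atTop (𝓝 1) := by
    have := (Real.tendsto_exp_neg_atTop_nhds_zero).const_sub 1
    simpa using this
  refine tendsto_of_tendsto_of_tendsto_of_le_of_le' h1 tendsto_const_nhds ?_ ?_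
  · filter_upwards with p
    unfold th
    rw [le_div_iff₀ (Real.cosh_pos p)]
    have h2 := Real.cosh_sub_sinh p
    have h3 := Real.one_le_cosh p
    have h4 := Real.exp_pos (-p)
    nlinarith
  · filter_upwards with p using (th_lt_one p).le

/-- the weights -/
noncomputable def wt (k : ℕ) (p : ℝ) : ℝ := th p ^ (2 * k + 1) / Real.sinh (2 * p)

theorem wt_eq (k : ℕ) {p : ℝ} (hp : 0 < p) : wt k p = th p ^ (2 * k) / (2 * Real.cosh p ^ 2) := by
  unfold wt
  have hs := (Real.sinh_pos_iff.mpr hp).ne'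
  have hc := (Real.cosh_pos p).ne'
  rw [Real.sinh_two_mul, pow_succ, th]
  field_simp

theorem wt_nonneg (k : ℕ) {p : ℝ} (hp : 0 < p) : 0 ≤ wt k p := by
  have := th_pos hp
  have h2 : 0 < Real.sinh (2 * p) := Real.sinh_pos_iff.mpr (by linarith)
  unfold wt
  positivity

theorem continuous_th : Continuous th :=
  continuous_iff_continuousAt.mpr fun p => (hasDerivAt_th p).continuousAt

theorem measurable_wt (k : ℕ) : Measurable (wt k) :=
  (continuous_th.measurable.pow_const _).div
    (Real.continuous_sinh.comp (continuous_const.mul continuous_id)).measurable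

theorem lintegral_wt (k : ℕ) :
    ∫⁻ p in Ioi (0:ℝ), ENNReal.ofReal (wt k p) = ENNReal.ofReal (1 / (2 * (2 * k + 1))) := by
  have hderiv : ∀ p, 0 < p →
      HasDerivAt (fun p => th p ^ (2 * k + 1) / (2 * (2 * k + 1))) (wt k p) p := by
    intro p hp
    rw [wt_eq k hp]
    refine (((hasDerivAt_th p).pow (2 * k + 1)).div_const _).congr_deriv ?_
    have hc := (Real.cosh_pos p).ne'
    push_cast
    field_simp
  have h0 : Tendsto (fun p => th p ^ (2 * k + 1) / (2 * (2 * k + 1))) (𝓝[>] 0) (𝓝 0) := by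
    have : Continuous fun p => th p ^ (2 * k + 1) / (2 * (2 * (k:ℝ) + 1)) :=
      (continuous_th.pow _).div_const _
    have h := this.tendsto 0
    simp only [th, Real.sinh_zero, zero_div, ne_eq, Nat.add_eq_zero_iff, one_ne_zero, and_false,
      not_false_eq_true, zero_pow] at h
    exact h.mono_left nhdsWithin_le_nhds
  have hinf : Tendsto (fun p => th p ^ (2 * k + 1) / (2 * (2 * k + 1))) atTop
      (𝓝 (1 / (2 * (2 * k + 1)))) := by
    have := (tendsto_th.pow (2 * k + 1)).div_const (2 * (2 * (k:ℝ) + 1))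
    simpa using this
  have hint := integrableOn_Ioi_zero_of_nonneg hderiv (fun p hp => wt_nonneg k hp) h0 hinf
  have hval := integral_Ioi_zero_of_tendsto hderiv hint h0 hinf
  rw [sub_zero] at hval
  rw [← hval, ofReal_integral_eq_lintegral_ofReal hint]
  rw [EventuallyLE, ae_restrict_iff' measurableSet_Ioi]
  exact Eventually.of_forall fun p hp => wt_nonneg k hp

/-- the `t`-integral in rotated coordinates -/
theorem H_eq {p q : ℝ} (hp : 0 < p) (hq : 0 < q) :
    HasSum (fun k : ℕ => 1 / (2 * (2 * k + 1)) * (wt k p * wt k q))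
      (Real.log ((2 * Real.cosh (p + q)) / (2 * Real.cosh (p - q))) /
        ((2 * Real.cosh (p + q)) ^ 2 - (2 * Real.cosh (p - q)) ^ 2)) := by
  have hsp := Real.sinh_pos_iff.mpr hp
  have hsq := Real.sinh_pos_iff.mpr hq
  have hcp := Real.cosh_pos p
  have hcq := Real.cosh_pos q
  set x := th p * th q with hx
  have hx0 : 0 < x := mul_pos (th_pos hp) (th_pos hq)
  have hx1 : x < 1 := by
    have := th_lt_one p
    have := th_lt_one q
    have := th_pos hp
    have := th_pos hq
    nlinarith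
  have h1 := Real.hasSum_log_sub_log_of_abs_lt_one (x := x) (by rw [abs_of_pos hx0]; exact hx1)
  have h2 := h1.div_const (4 * (Real.sinh (2 * p) * Real.sinh (2 * q)))
  have e1 : (2 * Real.cosh (p + q)) ^ 2 - (2 * Real.cosh (p - q)) ^ 2 =
      4 * (Real.sinh (2 * p) * Real.sinh (2 * q)) := by
    rw [Real.cosh_add, Real.cosh_sub, Real.sinh_two_mul, Real.sinh_two_mul]
    ring
  have e2 : Real.log ((2 * Real.cosh (p + q)) / (2 * Real.cosh (p - q))) =
      Real.log (1 + x) - Real.log (1 - x) := by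
    rw [← Real.log_div (by linarith) (by linarith)]
    congr 1
    rw [Real.cosh_add, Real.cosh_sub, div_eq_div_iff (by
      have : Real.cosh p * Real.cosh q - Real.sinh p * Real.sinh q = Real.cosh (p - q) :=
        (Real.cosh_sub p q).symm
      rw [this]
      have := Real.cosh_pos (p - q)
      positivity) (by linarith), hx, th, th]
    field_simp
  rw [e1, e2]
  have e3 : (fun k : ℕ => 1 / (2 * (2 * (k:ℝ) + 1)) * (wt k p * wt k q)) =
      fun k : ℕ => 2 * (1 / (2 * (k:ℝ) + 1)) * x ^ (2 * k + 1) /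
        (4 * (Real.sinh (2 * p) * Real.sinh (2 * q))) := by
    funext k
    unfold wt
    rw [hx, mul_pow]
    have h3 : 0 < Real.sinh (2 * p) := Real.sinh_pos_iff.mpr (by linarith)
    have h4 : 0 < Real.sinh (2 * q) := Real.sinh_pos_iff.mpr (by linarith)
    field_simp
    ring
  rw [e3]
  exact h2

theorem measurable_K0 : Measurable K0 := by
  have h : StronglyMeasurable (Function.uncurry fun t u : ℝ => Real.exp (-(t * Real.cosh u))) := by
    have : Continuous (Function.uncurry fun t u : ℝ => Real.exp (-(t * Real.cosh u))) := by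
      unfold Function.uncurry
      exact Real.continuous_exp.comp
        ((continuous_fst.mul (Real.continuous_cosh.comp continuous_snd)).neg)
    exact this.stronglyMeasurable
  exact (h.integral_prod_right (ν := volume.restrict (Ioi (0:ℝ)))).measurable

/-- the integrand -/
noncomputable def F (t u v : ℝ) : ENNReal :=
  ENNReal.ofReal (t * (K0 (2 * Real.cosh u * t) * K0 (2 * Real.cosh v * t)))

theorem measurable_F : Measurable (fun x : ℝ × ℝ × ℝ => F x.1 x.2.1 x.2.2) := by
  unfold F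
  have h1 : Measurable Real.cosh := Real.continuous_cosh.measurable
  have h2 := measurable_K0
  fun_prop

theorem F_symm (t u v : ℝ) : F t u v = F t v u := by
  unfold F; congr 2; ring

theorem F_neg_left (t u v : ℝ) : F t (-u) v = F t u v := by
  unfold F; rw [Real.cosh_neg]

theorem F_neg_right (t u v : ℝ) : F t u (-v) = F t u v := by
  unfold F; rw [Real.cosh_neg]

theorem K0_four {t : ℝ} (ht : 0 < t) :
    ENNReal.ofReal (K0 t ^ 4 * t) =
      8 * ∫⁻ p in Ioi (0:ℝ), ∫⁻ q in Ioi (0:ℝ), F t (p + q) (p - q) := by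
  have hK := (K0_pos ht).le
  have h1 : ENNReal.ofReal (K0 t ^ 4 * t) = ∫⁻ u, ∫⁻ v, F t u v := by
    have e1 : ENNReal.ofReal (K0 t ^ 4 * t) =
        ENNReal.ofReal t * (ENNReal.ofReal (K0 t) ^ 2 * ENNReal.ofReal (K0 t) ^ 2) := by
      rw [← ENNReal.ofReal_pow hK, ← ENNReal.ofReal_mul (by positivity),
        ← ENNReal.ofReal_mul ht.le]
      congr 1; ring
    have hfin : ENNReal.ofReal (K0 t) ^ 2 ≠ ⊤ := ENNReal.pow_ne_top ENNReal.ofReal_ne_top
    have e2 : ∀ u : ℝ, ∫⁻ v, F t u v = (ENNReal.ofReal t * ENNReal.ofReal (K0 t) ^ 2) *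
        ENNReal.ofReal (K0 (2 * t * Real.cosh u)) := by
      intro u
      have hu : 0 < 2 * t * Real.cosh u := by have := Real.cosh_pos u; positivity
      rw [K0_sq ht, mul_comm, ← mul_assoc, ← lintegral_const_mul' _ _
        (ENNReal.mul_ne_top ENNReal.ofReal_ne_top ENNReal.ofReal_ne_top)]
      refine lintegral_congr fun v => ?_
      unfold F
      have hv : 0 < 2 * t * Real.cosh v := by have := Real.cosh_pos v; positivity
      rw [← ENNReal.ofReal_mul (K0_pos hu).le, ← ENNReal.ofReal_mul (by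
        have := (K0_pos hu).le; positivity)]
      congr 1
      have a1 : 2 * Real.cosh u * t = 2 * t * Real.cosh u := by ring
      have a2 : 2 * Real.cosh v * t = 2 * t * Real.cosh v := by ring
      rw [a1, a2]; ring
    simp_rw [e2]
    rw [lintegral_const_mul' _ _ (ENNReal.mul_ne_top ENNReal.ofReal_ne_top hfin), ← K0_sq ht, e1]
    ring
  have hm : Measurable (Function.uncurry (F t)) :=
    measurable_F.comp (f := fun x : ℝ × ℝ => (t, x.1, x.2)) (by fun_prop)
  have h2 := lintegral_rot _ hm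
  have h3 : ∀ p : ℝ, ∫⁻ q, F t (p + q) (p - q) = 2 * ∫⁻ q in Ioi (0:ℝ), F t (p + q) (p - q) := by
    intro p
    refine lintegral_even fun q => ?_
    rw [F_symm]
    congr 1
    ring
  have h4 : ∫⁻ p, ∫⁻ q, F t (p + q) (p - q) =
      2 * ∫⁻ p in Ioi (0:ℝ), ∫⁻ q, F t (p + q) (p - q) := by
    refine lintegral_even fun p => ?_
    refine lintegral_congr fun q => ?_
    have a1 : -p + q = -(p - q) := by ring
    have a2 : -p - q = -(p + q) := by ring
    rw [a1, a2, F_neg_left, F_neg_right, F_symm]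
  have h5 : ∫⁻ u, ∫⁻ v, F t u v = 2 * ∫⁻ p, ∫⁻ q, F t (p + q) (p - q) := by
    rw [h2, ← mul_assoc, ENNReal.mul_inv_cancel (by simp) (by simp), one_mul]
  rw [h1, h5, h4]
  simp_rw [h3]
  rw [lintegral_const_mul' _ _ (by simp), ← mul_assoc, ← mul_assoc]
  norm_num

theorem lintegral_F {p q : ℝ} (hp : 0 < p) (hq : 0 < q) :
    ∫⁻ t in Ioi (0:ℝ), F t (p + q) (p - q) =
      ∑' k : ℕ, ENNReal.ofReal (1 / (2 * (2 * k + 1))) *
        (ENNReal.ofReal (wt k p) * ENNReal.ofReal (wt k q)) := by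
  have hab : (2 * Real.cosh (p + q)) ≠ (2 * Real.cosh (p - q)) := by
    have h1 := Real.sinh_pos_iff.mpr hp
    have h2 := Real.sinh_pos_iff.mpr hq
    rw [Real.cosh_add, Real.cosh_sub]
    nlinarith
  have h1 := lintegral_K0K0 (a := 2 * Real.cosh (p + q)) (b := 2 * Real.cosh (p - q))
    (by have := Real.cosh_pos (p + q); positivity) (by have := Real.cosh_pos (p - q); positivity)
    hab
  unfold F
  rw [h1, ← (H_eq hp hq).tsum_eq, ENNReal.ofReal_tsum_of_nonneg (fun k => by
    have := wt_nonneg k hp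
    have := wt_nonneg k hq
    positivity) (H_eq hp hq).summable]
  refine tsum_congr fun k => ?_
  have a1 := wt_nonneg k hp
  rw [ENNReal.ofReal_mul (by positivity), ENNReal.ofReal_mul a1]

theorem lintegral_K0_four :
    ∫⁻ t in Ioi (0:ℝ), ENNReal.ofReal (K0 t ^ 4 * t) =
      ∑' k : ℕ, ENNReal.ofReal (1 / (2 * (k:ℝ) + 1) ^ 3) := by
  have h1 : ∫⁻ t in Ioi (0:ℝ), ENNReal.ofReal (K0 t ^ 4 * t) =
      ∫⁻ t in Ioi (0:ℝ), 8 * ∫⁻ p in Ioi (0:ℝ), ∫⁻ q in Ioi (0:ℝ), F t (p + q) (p - q) :=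
    setLIntegral_congr_fun measurableSet_Ioi fun t ht => K0_four ht
  have m1 : Measurable (Function.uncurry fun (t p : ℝ) =>
      ∫⁻ q in Ioi (0:ℝ), F t (p + q) (p - q)) := by
    have : Measurable (fun x : (ℝ × ℝ) × ℝ => F x.1.1 (x.1.2 + x.2) (x.1.2 - x.2)) :=
      measurable_F.comp (f := fun x : (ℝ × ℝ) × ℝ => (x.1.1, x.1.2 + x.2, x.1.2 - x.2))
        (by fun_prop)
    exact this.lintegral_prod_right'
  have m2 : ∀ p : ℝ, Measurable (Function.uncurry fun (t q : ℝ) => F t (p + q) (p - q)) :=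
    fun p => measurable_F.comp (f := fun x : ℝ × ℝ => (x.1, p + x.2, p - x.2)) (by fun_prop)
  rw [h1, lintegral_const_mul' _ _ (by simp), lintegral_lintegral_swap m1.aemeasurable]
  have h2 : ∫⁻ p in Ioi (0:ℝ), ∫⁻ t in Ioi (0:ℝ), ∫⁻ q in Ioi (0:ℝ), F t (p + q) (p - q) =
      ∫⁻ p in Ioi (0:ℝ), ∑' k : ℕ, ENNReal.ofReal (1 / (2 * (2 * k + 1))) *
        (ENNReal.ofReal (wt k p) * ENNReal.ofReal (1 / (2 * (2 * k + 1)))) := by
    refine setLIntegral_congr_fun measurableSet_Ioi fun p hp => ?_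
    rw [lintegral_lintegral_swap (m2 p).aemeasurable]
    have h3 : ∫⁻ q in Ioi (0:ℝ), ∫⁻ t in Ioi (0:ℝ), F t (p + q) (p - q) =
        ∫⁻ q in Ioi (0:ℝ), ∑' k : ℕ, ENNReal.ofReal (1 / (2 * (2 * k + 1))) *
        (ENNReal.ofReal (wt k p) * ENNReal.ofReal (wt k q)) :=
      setLIntegral_congr_fun measurableSet_Ioi fun q hq => lintegral_F hp hq
    rw [h3, lintegral_tsum fun k => by
      have := measurable_wt k
      exact (by fun_prop : Measurable _).aemeasurable]
    refine tsum_congr fun k => ?_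
    rw [lintegral_const_mul' _ _ ENNReal.ofReal_ne_top,
      lintegral_const_mul' _ _ ENNReal.ofReal_ne_top, lintegral_wt]
  rw [h2, lintegral_tsum fun k => by
      have := measurable_wt k
      exact (by fun_prop : Measurable _).aemeasurable, ← ENNReal.tsum_mul_left]
  refine tsum_congr fun k => ?_
  rw [lintegral_const_mul' _ _ ENNReal.ofReal_ne_top,
      lintegral_mul_const' _ _ ENNReal.ofReal_ne_top, lintegral_wt,
      ← ENNReal.ofReal_mul (by positivity), ← ENNReal.ofReal_mul (by positivity)]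
  have : (8:ENNReal) = ENNReal.ofReal 8 := by simp
  rw [this, ← ENNReal.ofReal_mul (by positivity)]
  congr 1
  field_simp
  norm_num

/-- sums over the odd integers -/
theorem summable_odd (s : ℕ) (hs : 2 ≤ s) : Summable fun k : ℕ => 1 / (2 * (k:ℝ) + 1) ^ s := by
  have h1 : Summable fun k : ℕ => 1 / ((k:ℝ) + 1) ^ s := by
    have := (summable_nat_add_iff (f := fun k : ℕ => 1 / (k:ℝ) ^ s) 1).mpr
      (Real.summable_one_div_nat_pow.mpr (by omega))
    simpa using this
  refine Summable.of_nonneg_of_le (fun k => by positivity) (fun k => ?_) h1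
  apply one_div_le_one_div_of_le (by positivity)
  apply pow_le_pow_left₀ (by positivity)
  have : (0:ℝ) ≤ k := Nat.cast_nonneg k
  linarith

theorem tsum_odd (s : ℕ) (hs : 2 ≤ s) : ∑' k : ℕ, 1 / (2 * (k:ℝ) + 1) ^ s =
    (1 - 1 / 2 ^ s) * ∑' n : ℕ, 1 / ((n:ℝ) + 1) ^ s := by
  have h1 : Summable fun k : ℕ => 1 / ((k:ℝ) + 1) ^ s := by
    have := (summable_nat_add_iff (f := fun k : ℕ => 1 / (k:ℝ) ^ s) 1).mpr
      (Real.summable_one_div_nat_pow.mpr (by omega))
    simpa using this
  have e : ∀ k : ℕ, 1 / (((2 * k + 1 : ℕ) : ℝ) + 1) ^ s = 1 / 2 ^ s * (1 / ((k:ℝ) + 1) ^ s) := by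
    intro k
    have : (((2 * k + 1 : ℕ) : ℝ) + 1) = 2 * ((k:ℝ) + 1) := by push_cast; ring
    rw [this, mul_pow, one_div_mul_one_div]
  have e' : ∀ k : ℕ, 1 / (((2 * k : ℕ) : ℝ) + 1) ^ s = 1 / (2 * (k:ℝ) + 1) ^ s := by
    intro k; push_cast; rfl
  have h2 := tsum_even_add_odd (f := fun n : ℕ => 1 / ((n:ℝ) + 1) ^ s)
    (by simp_rw [e']; exact summable_odd s hs)
    (by simp_rw [e]; exact h1.mul_left _)
  simp_rw [e, e'] at h2
  rw [tsum_mul_left] at h2
  linarith

end ValKAux

theorem integrable_K0_pow_four : IntegrableOn (fun t => K0 t ^ 4 * t) (Ioi 0) := by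
  refine (integrableOn_IK 1 0 0 4 0 (by norm_num) (by norm_num)).congr
    (Eventually.of_forall fun t => ?_)
  simp only
  ring

theorem integral_K0_pow_four' :
    ∫ t in Ioi (0:ℝ), K0 t ^ 4 * t = ∑' k : ℕ, 1 / (2 * (k:ℝ) + 1) ^ 3 := by
  rw [integral_eq_lintegral_of_nonneg_ae, ValKAux.lintegral_K0_four,
    ← ENNReal.ofReal_tsum_of_nonneg (fun k => by positivity) (ValKAux.summable_odd 3 (by norm_num)),
    ENNReal.toReal_ofReal (tsum_nonneg fun k => by positivity)]
  · rw [EventuallyLE, ae_restrict_iff' measurableSet_Ioi]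
    refine Eventually.of_forall fun t ht => ?_
    have ht' : (0:ℝ) < t := ht
    simp only [Pi.zero_apply]
    positivity
  · exact integrable_K0_pow_four.aestronglyMeasurable

/-- `∫ t K_0(t)^4 dt = 7 ζ(3) / 8` -/
theorem integral_K0_pow_four : ∫ t in Ioi (0:ℝ), K0 t ^ 4 * t = 7 * zeta3 / 8 := by
  rw [integral_K0_pow_four', ValKAux.tsum_odd 3 (by norm_num), zeta3]
  ring

theorem IKM_zero_four_one : IKM 0 4 1 = 7 * zeta3 / 8 := by
  rw [← integral_K0_pow_four]
  unfold IKM
  simp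

end Pool.Agent.Lib.BM
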