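import Mathlib

/-! # The integration step (iii): `g' - y g''` at `y₀` -/

set_option autoImplicit false

open Filter Topology MeasureTheory Set

namespace Pool.Agent.Lib.BM.Omega

/-- A function with exponentially small derivative converges exponentially fast. -/
lemma exp_limit {f h : ℝ → ℝ} {y0 C c : ℝ} (hc : 0 < c)
    (hd : ∀ y, y0 ≤ y → HasDerivAt f (h y) y) (hh : ∀ y, y0 ≤ y → |h y| ≤ C * Real.exp (-(c * y))) :
    ∃ L, ∀ y, y0 ≤ y → |f y - L| ≤ C / c * Real.exp (-(c * y)) := by
  have hC : 0 ≤ C := by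
    have := (abs_nonneg _).trans (hh y0 le_rfl)
    exact nonneg_of_mul_nonneg_left this (Real.exp_pos _)
  have hE : ∀ y, HasDerivAt (fun y => C / c * Real.exp (-(c * y))) (-(C * Real.exp (-(c * y)))) y := by
    intro y
    have h1 : HasDerivAt (fun y : ℝ => -(c * y)) (-(c * 1)) y :=
      ((hasDerivAt_id y).const_mul c).neg
    have h2 := (h1.exp).const_mul (C / c)
    exact h2.congr_deriv (by rw [mul_one]; field_simp)
  have hu : AntitoneOn (fun y => f y + C / c * Real.exp (-(c * y))) (Ici y0) := by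
    apply antitoneOn_of_deriv_nonpos (convex_Ici y0)
    · intro y hy
      exact ((hd y hy).add (hE y)).continuousAt.continuousWithinAt
    · intro y hy
      rw [interior_Ici] at hy
      exact ((hd y (le_of_lt hy)).add (hE y)).differentiableAt.differentiableWithinAt
    · intro y hy
      rw [interior_Ici] at hy
      have hy' : y0 ≤ y := le_of_lt hy
      rw [show deriv (fun y => f y + C / c * Real.exp (-(c * y))) y = _ from
        ((hd y hy').add (hE y)).deriv]
      have := (abs_le.1 (hh y hy')).2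
      linarith
  have hv : MonotoneOn (fun y => f y - C / c * Real.exp (-(c * y))) (Ici y0) := by
    apply monotoneOn_of_deriv_nonneg (convex_Ici y0)
    · intro y hy
      exact ((hd y hy).sub (hE y)).continuousAt.continuousWithinAt
    · intro y hy
      rw [interior_Ici] at hy
      exact ((hd y (le_of_lt hy)).sub (hE y)).differentiableAt.differentiableWithinAt
    · intro y hy
      rw [interior_Ici] at hy
      have hy' : y0 ≤ y := le_of_lt hy
      rw [show deriv (fun y => f y - C / c * Real.exp (-(c * y))) y = _ from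
        ((hd y hy').sub (hE y)).deriv]
      have := (abs_le.1 (hh y hy')).1
      linarith
  have hpos : ∀ y, 0 ≤ C / c * Real.exp (-(c * y)) := fun y => by positivity
  have key : ∀ y z, y0 ≤ y → y0 ≤ z →
      f y - C / c * Real.exp (-(c * y)) ≤ f z + C / c * Real.exp (-(c * z)) := by
    intro y z hy hz
    rcases le_total y z with h | h
    · have a1 := hv hy hz h
      have a2 := hpos z
      simp only at a1
      linarith
    · have a1 := hu hz hy h
      have a2 := hpos y
      simp only at a1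
      linarith
  set S : Set ℝ := (fun y => f y - C / c * Real.exp (-(c * y))) '' (Ici y0)
  have hbdd : BddAbove S := ⟨f y0 + C / c * Real.exp (-(c * y0)), by
    rintro _ ⟨y, hy, rfl⟩
    exact key y y0 hy le_rfl⟩
  refine ⟨sSup S, fun y hy => ?_⟩
  rw [abs_le]
  constructor
  · have : sSup S ≤ f y + C / c * Real.exp (-(c * y)) := by
      apply csSup_le (Set.image_nonempty.2 ⟨y0, self_mem_Ici⟩)
      rintro _ ⟨z, hz, rfl⟩
      exact key z y hz hy
    linarith
  · have : f y - C / c * Real.exp (-(c * y)) ≤ sSup S := le_csSup hbdd ⟨y, hy, rfl⟩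
    linarith

lemma tendsto_mul_exp {c : ℝ} (hc : 0 < c) : Tendsto (fun y : ℝ => y * Real.exp (-(c * y))) atTop (𝓝 0) := by
  have h := (Real.tendsto_pow_mul_exp_neg_atTop_nhds_zero 1).comp (tendsto_id.const_mul_atTop hc)
  have h2 := h.const_mul (1 / c)
  rw [mul_zero] at h2
  refine h2.congr fun y => ?_
  simp only [Function.comp, id, pow_one]
  field_simp

lemma tendsto_exp_neg_mul {c : ℝ} (hc : 0 < c) : Tendsto (fun y : ℝ => Real.exp (-(c * y))) atTop (𝓝 0) :=
  Real.tendsto_exp_atBot.comp (tendsto_neg_atTop_atBot.comp (tendsto_id.const_mul_atTop hc))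

/-- a quadratic polynomial bounded at infinity is constant -/
lemma bounded_quad {L2 L1 M y0 : ℝ} (h : ∀ y, y0 ≤ y → |L2 * y ^ 2 + L1 * y| ≤ M) : L2 = 0 ∧ L1 = 0 := by
  have hinv : Tendsto (fun y : ℝ => y⁻¹) atTop (𝓝 0) := tendsto_inv_atTop_zero
  have hL2 : L2 = 0 := by
    have t1 : Tendsto (fun y : ℝ => L2 + L1 * y⁻¹) atTop (𝓝 (L2 + L1 * 0)) :=
      (hinv.const_mul L1).const_add L2
    have t2 : Tendsto (fun y : ℝ => L2 + L1 * y⁻¹) atTop (𝓝 0) := by
      have b : Tendsto (fun y : ℝ => M * (y⁻¹ * y⁻¹)) atTop (𝓝 0) := by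
        simpa using (hinv.mul hinv).const_mul M
      apply squeeze_zero_norm' _ b
      filter_upwards [eventually_ge_atTop y0, eventually_gt_atTop 0] with y hy hy0
      have := h y hy
      rw [Real.norm_eq_abs]
      have e : L2 + L1 * y⁻¹ = (L2 * y ^ 2 + L1 * y) * (y⁻¹ * y⁻¹) := by field_simp
      rw [e, abs_mul, abs_of_nonneg (by positivity : 0 ≤ y⁻¹ * y⁻¹)]
      exact mul_le_mul_of_nonneg_right this (by positivity)
    have := tendsto_nhds_unique t1 t2
    linarith
  subst hL2
  refine ⟨rfl, ?_⟩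
  have t2 : Tendsto (fun _ : ℝ => L1) atTop (𝓝 0) := by
    have b : Tendsto (fun y : ℝ => M * y⁻¹) atTop (𝓝 0) := by simpa using hinv.const_mul M
    apply squeeze_zero_norm' _ b
    filter_upwards [eventually_ge_atTop y0, eventually_gt_atTop 0] with y hy hy0
    have := h y hy
    rw [Real.norm_eq_abs]
    have e : L1 = (0 * y ^ 2 + L1 * y) * y⁻¹ := by field_simp; ring
    rw [e, abs_mul, abs_of_nonneg (by positivity : 0 ≤ y⁻¹)]
    exact mul_le_mul_of_nonneg_right this (by positivity)
  exact tendsto_nhds_unique tendsto_const_nhds t2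

/-- limits of the first two derivatives -/
theorem limits {g g1 g2 φ : ℝ → ℝ} {y0 a C C' c : ℝ} (hc : 0 < c)
    (h1 : ∀ y, y0 ≤ y → HasDerivAt g (g1 y) y) (h2 : ∀ y, y0 ≤ y → HasDerivAt g1 (g2 y) y)
    (h3 : ∀ y, y0 ≤ y → HasDerivAt g2 (φ y) y)
    (hφ : ∀ y, y0 ≤ y → |φ y| ≤ C * Real.exp (-(c * y)))
    (hg : ∀ y, y0 ≤ y → |g y - a * y| ≤ C') :
    (∀ y, y0 ≤ y → |g2 y| ≤ C / c * Real.exp (-(c * y))) ∧
    (∀ y, y0 ≤ y → |g1 y - a| ≤ C / c / c * Real.exp (-(c * y))) := by
  obtain ⟨L2, hL2⟩ := exp_limit hc h3 hφ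
  -- first derivative minus linear part
  have d1 : ∀ y, y0 ≤ y → HasDerivAt (fun y => g1 y - L2 * y) (g2 y - L2) y := by
    intro y hy
    have := (h2 y hy).sub ((hasDerivAt_id y).const_mul L2)
    rw [mul_one] at this
    exact this
  obtain ⟨L1, hL1⟩ := exp_limit hc d1 hL2
  have d0 : ∀ y, y0 ≤ y → HasDerivAt (fun y => g y - L2 / 2 * y ^ 2 - L1 * y)
      (g1 y - L2 * y - L1) y := by
    intro y hy
    have := ((h1 y hy).sub (((hasDerivAt_id y).pow 2).const_mul (L2 / 2))).sub
      ((hasDerivAt_id y).const_mul L1)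
    exact this.congr_deriv (by simp only [id, Nat.cast_ofNat, mul_one]; ring)
  obtain ⟨L0, hL0⟩ := exp_limit hc d0 hL1
  have hbd : ∀ y, y0 ≤ y → |L2 / 2 * y ^ 2 + (L1 - a) * y|
      ≤ C' + |L0| + |C / c / c / c| * Real.exp (-(c * y0)) := by
    intro y hy
    have e1 := hg y hy
    have e2 := hL0 y hy
    have e3 : C / c / c / c * Real.exp (-(c * y)) ≤ |C / c / c / c| * Real.exp (-(c * y0)) := by
      apply mul_le_mul (le_abs_self _) _ (Real.exp_pos _).le (abs_nonneg _)
      apply Real.exp_le_exp.2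
      nlinarith
    rw [abs_le] at e1 e2 ⊢
    have e4 := abs_le.1 (le_refl |L0|)
    constructor <;> linarith [e1.1, e1.2, e2.1, e2.2, e4.1, e4.2]
  obtain ⟨z2, z1⟩ := bounded_quad hbd
  have hL20 : L2 = 0 := by linarith
  have hL1a : L1 = a := by linarith
  subst hL20 hL1a
  constructor
  · intro y hy
    simpa using hL2 y hy
  · intro y hy
    simpa using hL1 y hy

/-- **Integration step.** -/
theorem omega_identity {g g1 g2 φ : ℝ → ℝ} {y0 a C C' c : ℝ} (hc : 0 < c)
    (h1 : ∀ y, y0 ≤ y → HasDerivAt g (g1 y) y) (h2 : ∀ y, y0 ≤ y → HasDerivAt g1 (g2 y) y)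
    (h3 : ∀ y, y0 ≤ y → HasDerivAt g2 (φ y) y) (hφc : ContinuousOn φ (Ici y0))
    (hφ : ∀ y, y0 ≤ y → |φ y| ≤ C * Real.exp (-(c * y)))
    (hg : ∀ y, y0 ≤ y → |g y - a * y| ≤ C') :
    IntegrableOn (fun y => y * φ y) (Ioi y0) ∧
    g1 y0 - y0 * g2 y0 = a + ∫ y in Ioi y0, y * φ y := by
  obtain ⟨b2, b1⟩ := limits hc h1 h2 h3 hφ hg
  have hint : IntegrableOn (fun y => y * φ y) (Ioi y0) := by
    refine integrable_of_isBigO_exp_neg (b := c / 2) (by positivity)
      (continuousOn_id.mul hφc) ?_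
    have t := tendsto_mul_exp (by positivity : 0 < c / 2)
    have ht : ∀ᶠ y : ℝ in atTop, |y * Real.exp (-(c / 2 * y))| ≤ 1 := by
      have := t.abs
      rw [abs_zero] at this
      exact this.eventually_le_const one_pos
    apply Asymptotics.IsBigO.of_bound |C|
    filter_upwards [ht, eventually_ge_atTop y0] with y hy1 hy
    rw [Real.norm_eq_abs, Real.norm_eq_abs, abs_mul, abs_of_nonneg (Real.exp_pos _).le]
    have e : Real.exp (-(c * y)) = Real.exp (-(c / 2 * y)) * Real.exp (-(c / 2) * y) := by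
      rw [← Real.exp_add]; congr 1; ring
    rw [abs_mul, abs_of_nonneg (Real.exp_pos (-(c / 2 * y))).le] at hy1
    calc |y| * |φ y| ≤ |y| * (|C| * Real.exp (-(c * y))) := by
          apply mul_le_mul_of_nonneg_left _ (abs_nonneg _)
          exact (hφ y hy).trans (mul_le_mul_of_nonneg_right (le_abs_self C) (Real.exp_pos _).le)
      _ = (|y| * Real.exp (-(c / 2 * y))) * (|C| * Real.exp (-(c / 2) * y)) := by rw [e]; ring
      _ ≤ 1 * (|C| * Real.exp (-(c / 2) * y)) :=
          mul_le_mul_of_nonneg_right hy1 (by positivity)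
      _ = |C| * Real.exp (-(c / 2) * y) := one_mul _
  refine ⟨hint, ?_⟩
  have hd : ∀ y ∈ Ici y0, HasDerivAt (fun y => y * g2 y - g1 y) (y * φ y) y := by
    intro y hy
    have := ((hasDerivAt_id y).mul (h3 y hy)).sub (h2 y hy)
    exact this.congr_deriv (by simp only [id, one_mul]; ring)
  have hl : Tendsto (fun y => y * g2 y - g1 y) atTop (𝓝 (0 - a)) := by
    apply Tendsto.sub
    · have t := (tendsto_mul_exp hc).const_mul (C / c)
      rw [mul_zero] at t
      apply squeeze_zero_norm' _ t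
      filter_upwards [eventually_ge_atTop y0, eventually_ge_atTop 0] with y hy hy0
      rw [Real.norm_eq_abs, abs_mul, abs_of_nonneg hy0]
      calc y * |g2 y| ≤ y * (C / c * Real.exp (-(c * y))) := mul_le_mul_of_nonneg_left (b2 y hy) hy0
        _ = C / c * (y * Real.exp (-(c * y))) := by ring
    · rw [tendsto_iff_norm_sub_tendsto_zero]
      have t := (tendsto_exp_neg_mul hc).const_mul (C / c / c)
      rw [mul_zero] at t
      refine squeeze_zero' (Eventually.of_forall fun y => norm_nonneg _) ?_ t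
      filter_upwards [eventually_ge_atTop y0] with y hy
      exact b1 y hy
  have := integral_Ioi_of_hasDerivAt_of_tendsto' hd hint hl
  rw [this]
  ring

end Pool.Agent.Lib.BM.Omega
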