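import Pool.Agent.Lib.BM.Defs
import Pool.Agent.Lib.BM.Omega

set_option autoImplicit false

/-!
# BM.Wr: from the Bessel side and the modular parametrisation to the block `StP1`

`BesX`: the exports of the Bessel side; `ModX`: the exports of the modular side.  `θ = r d/dr`, `A₁ = θA`
and so on.  With `x = x(y)`, `v = A B₁ - B A₁`, `u = A B₂ - B A₂` (at `x`) the functions `g = B/Z`,
`g₁ = -π w v / A`, `g₂ = 16 (P v / 128 + w² (u - v A₁/A))` satisfy `g' = g₁`, `g₁' = g₂`,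
`g₂' = -24 π³ F log x`.
-/

namespace Pool.Agent.Lib.BM

open Filter Topology MeasureTheory Set

/-- `w = √((1 - r²/16)(1 - r²/4))` -/
noncomputable def wr (r : ℝ) : ℝ := Real.sqrt ((1 - r ^ 2 / 16) * (1 - r ^ 2 / 4))

/-- The exports of the Bessel side (`A₁ = θA` and so on). -/
structure BesX (A A1 A2 A3 B B1 B2 B3 : ℝ → ℝ) : Prop where
  dA : ∀ r, 0 < r → r < 2 → HasDerivAt A (A1 r / r) r
  dA1 : ∀ r, 0 < r → r < 2 → HasDerivAt A1 (A2 r / r) r
  dA2 : ∀ r, 0 < r → r < 2 → HasDerivAt A2 (A3 r / r) r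
  dB : ∀ r, 0 < r → r < 2 → HasDerivAt B (B1 r / r) r
  dB1 : ∀ r, 0 < r → r < 2 → HasDerivAt B1 (B2 r / r) r
  dB2 : ∀ r, 0 < r → r < 2 → HasDerivAt B2 (B3 r / r) r
  odeA : ∀ r, 0 < r → r < 2 → (64 - 20 * r ^ 2 + r ^ 4) * A3 r + (6 * r ^ 4 - 60 * r ^ 2) * A2 r +
    (12 * r ^ 4 - 72 * r ^ 2) * A1 r + (8 * r ^ 4 - 32 * r ^ 2) * A r = 0
  odeB : ∀ r, 0 < r → r < 2 → (64 - 20 * r ^ 2 + r ^ 4) * B3 r + (6 * r ^ 4 - 60 * r ^ 2) * B2 r +
    (12 * r ^ 4 - 72 * r ^ 2) * B1 r + (8 * r ^ 4 - 32 * r ^ 2) * B r = 24 * r ^ 2 * Real.log r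
  det : det5 = B 1 * A2 1 - B2 1 * A 1
  A_ge : ∀ r, 0 < r → r < 2 → Real.pi ^ 2 / 16 ≤ A r
  A_lim : Tendsto A (𝓝[>] 0) (𝓝 (Real.pi ^ 2 / 16))
  A1_bd : ∃ C, ∀ r, 0 < r → r ≤ 1 → |A1 r| ≤ C * r ^ 2
  A2_lim : Tendsto A2 (𝓝[>] 0) (𝓝 0)
  B_log : ∃ C, ∀ r, 0 < r → r ≤ 1 → |B r + 7 * zeta3 / 8 * Real.log r| ≤ C

/-- The exports of the modular side. -/
structure ModX (A A1 : ℝ → ℝ) : Prop where
  dl : ∀ y, y0 ≤ y → HasDerivAt lx
    (-(Real.pi * (16 / Real.pi ^ 2 * A (Real.exp (lx y))) * wr (Real.exp (lx y)))) y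
  F : ∀ y, y0 ≤ y → F4 y = (16 / Real.pi ^ 2 * A (Real.exp (lx y))) ^ 2 * wr (Real.exp (lx y)) *
    (Real.exp (lx y)) ^ 2 / 64
  l0 : lx y0 = 0
  neg : ∀ y, y0 ≤ y → lx y ≤ 0
  bd : ∃ C, ∀ y, y0 ≤ y → |lx y + Real.pi * y| ≤ C
  fricke : 5 * A1 1 + 2 * A 1 = Real.pi / Real.sqrt 3

namespace WrAux

variable {A A1 A2 A3 B B1 B2 B3 : ℝ → ℝ}

/-- the first integral -/
noncomputable def Qf (A A1 A2 : ℝ → ℝ) (r : ℝ) : ℝ :=
  (64 - 20 * r ^ 2 + r ^ 4) * (2 * A r * A2 r - A1 r ^ 2) +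
    (4 * r ^ 4 - 40 * r ^ 2) * (A r * A1 r) + (4 * r ^ 4 - 32 * r ^ 2) * A r ^ 2

theorem dpoly (a b c : ℝ) (r : ℝ) :
    HasDerivAt (fun r : ℝ => a + b * r ^ 2 + c * r ^ 4) (2 * b * r + 4 * c * r ^ 3) r := by
  have h1 : HasDerivAt (fun r : ℝ => r ^ 2) (2 * r) r := by simpa using hasDerivAt_pow 2 r
  have h2 : HasDerivAt (fun r : ℝ => r ^ 4) (4 * r ^ 3) r := by simpa using hasDerivAt_pow 4 r
  have h := ((h1.const_mul b).const_add a).add (h2.const_mul c)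
  exact h.congr_deriv (by ring)

theorem dQ (h : BesX A A1 A2 A3 B B1 B2 B3) {r : ℝ} (h0 : 0 < r) (h2 : r < 2) :
    HasDerivAt (Qf A A1 A2) 0 r := by
  have p1 := dpoly 64 (-20) 1 r
  have p2 := dpoly 0 (-40) 4 r
  have p3 := dpoly 0 (-32) 4 r
  have dA := h.dA r h0 h2
  have dA1 := h.dA1 r h0 h2
  have dA2 := h.dA2 r h0 h2
  have e1 := ((dA.mul dA2).const_mul 2).sub (dA1.mul dA1)
  have e := ((p1.mul e1).add (p2.mul (dA.mul dA1))).add (p3.mul (dA.mul dA))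
  refine (e.congr_deriv ?_).congr_of_eventuallyEq (Filter.Eventually.of_forall fun s => ?_)
  · have ho := h.odeA r h0 h2
    have hr := h0.ne'
    simp only [Pi.mul_apply, Pi.sub_apply]
    field_simp
    linear_combination (2 * A r) * ho
  · simp only [Qf, Pi.add_apply, Pi.mul_apply, Pi.sub_apply]
    ring

theorem A_pos (h : BesX A A1 A2 A3 B B1 B2 B3) {r : ℝ} (h0 : 0 < r) (h2 : r < 2) : 0 < A r :=
  lt_of_lt_of_le (by positivity) (h.A_ge r h0 h2)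

theorem A_bd (h : BesX A A1 A2 A3 B B1 B2 B3) : ∃ C, 0 ≤ C ∧ ∀ r, 0 < r → r ≤ 1 →
    |A r - Real.pi ^ 2 / 16| ≤ C * r ^ 2 := by
  obtain ⟨C, hC⟩ := h.A1_bd
  have hC0 : 0 ≤ C := by
    have := (abs_nonneg _).trans (hC 1 one_pos le_rfl)
    simpa using this
  refine ⟨C, hC0, fun r hr hr1 => ?_⟩
  have key : ∀ s, 0 < s → s < r → |A r - A s| ≤ C * r ^ 2 := by
    intro s hs hsr
    have hb := Convex.norm_image_sub_le_of_norm_hasDerivWithin_le (f := A)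
      (f' := fun t => A1 t / t) (C := C * r) (s := Icc s r) (x := s) (y := r)
      (fun t ht => (h.dA t (by linarith [ht.1]) (by linarith [ht.2])).hasDerivWithinAt)
      (fun t ht => by
        have ht0 : 0 < t := by linarith [ht.1]
        rw [Real.norm_eq_abs, abs_div, abs_of_pos ht0, div_le_iff₀ ht0]
        have h1 := hC t ht0 (by linarith [ht.2])
        have h2 : C * t ^ 2 ≤ C * r * t := by
          have : t ≤ r := ht.2
          nlinarith [mul_nonneg hC0 ht0.le]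
        linarith)
      (convex_Icc s r) (left_mem_Icc.mpr hsr.le) (right_mem_Icc.mpr hsr.le)
    rw [Real.norm_eq_abs, Real.norm_eq_abs, abs_of_pos (by linarith : (0:ℝ) < r - s)] at hb
    have : C * r * (r - s) ≤ C * r ^ 2 := by nlinarith [mul_nonneg (mul_nonneg hC0 hr.le) hs.le]
    linarith
  have hl : Tendsto (fun s => |A r - A s|) (𝓝[>] 0) (𝓝 |A r - Real.pi ^ 2 / 16|) :=
    (tendsto_const_nhds.sub h.A_lim).abs
  refine le_of_tendsto hl ?_
  filter_upwards [Ioo_mem_nhdsGT hr] with s hs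
  exact key s hs.1 hs.2

theorem A1_lim (h : BesX A A1 A2 A3 B B1 B2 B3) : Tendsto A1 (𝓝[>] 0) (𝓝 0) := by
  obtain ⟨C, hC⟩ := h.A1_bd
  have ht : Tendsto (fun r : ℝ => C * r ^ 2) (𝓝[>] 0) (𝓝 0) := by
    have : Tendsto (fun r : ℝ => C * r ^ 2) (𝓝 0) (𝓝 (C * 0 ^ 2)) :=
      (continuous_const.mul (continuous_pow 2)).tendsto 0
    simpa using this.mono_left nhdsWithin_le_nhds
  refine squeeze_zero_norm' ?_ ht
  filter_upwards [Ioo_mem_nhdsGT (show (0:ℝ) < 1 from one_pos)] with r hr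
  exact hC r hr.1 hr.2.le

theorem Q_zero (h : BesX A A1 A2 A3 B B1 B2 B3) {r : ℝ} (h0 : 0 < r) (h2 : r < 2) :
    Qf A A1 A2 r = 0 := by
  have key : ∀ s, 0 < s → s < r → Qf A A1 A2 r = Qf A A1 A2 s := by
    intro s hs hsr
    have hb := Convex.norm_image_sub_le_of_norm_hasDerivWithin_le (f := Qf A A1 A2)
      (f' := fun _ => 0) (C := 0) (s := Icc s r) (x := s) (y := r)
      (fun t ht => (dQ h (by linarith [ht.1]) (by linarith [ht.2])).hasDerivWithinAt)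
      (fun t _ => by simp)
      (convex_Icc s r) (left_mem_Icc.mpr hsr.le) (right_mem_Icc.mpr hsr.le)
    rw [zero_mul] at hb
    exact sub_eq_zero.mp (norm_le_zero_iff.mp hb)
  have hid : Tendsto (fun s : ℝ => s) (𝓝[>] 0) (𝓝 0) := nhdsWithin_le_nhds
  have hA := h.A_lim
  have hA1 := A1_lim h
  have hA2 := h.A2_lim
  have hl : Tendsto (Qf A A1 A2) (𝓝[>] 0)
      (𝓝 ((64 - 20 * 0 ^ 2 + 0 ^ 4) * (2 * (Real.pi ^ 2 / 16) * 0 - 0 ^ 2) +
        (4 * 0 ^ 4 - 40 * 0 ^ 2) * ((Real.pi ^ 2 / 16) * 0) +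
        (4 * 0 ^ 4 - 32 * 0 ^ 2) * (Real.pi ^ 2 / 16) ^ 2)) := by
    refine Tendsto.add (Tendsto.add (Tendsto.mul ?_ ?_) (Tendsto.mul ?_ ?_)) (Tendsto.mul ?_ ?_)
    · exact (tendsto_const_nhds.sub (tendsto_const_nhds.mul (hid.pow 2))).add (hid.pow 4)
    · exact ((tendsto_const_nhds.mul hA).mul hA2).sub (hA1.pow 2)
    · exact (tendsto_const_nhds.mul (hid.pow 4)).sub (tendsto_const_nhds.mul (hid.pow 2))
    · exact hA.mul hA1
    · exact (tendsto_const_nhds.mul (hid.pow 4)).sub (tendsto_const_nhds.mul (hid.pow 2))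
    · exact hA.pow 2
  have hc : Tendsto (Qf A A1 A2) (𝓝[>] 0) (𝓝 (Qf A A1 A2 r)) := by
    refine tendsto_const_nhds.congr' ?_
    filter_upwards [Ioo_mem_nhdsGT h0] with s hs
    exact key s hs.1 hs.2
  have := tendsto_nhds_unique hc hl
  rw [this]; ring

theorem y0_pos : 0 < y0 := by unfold y0; positivity

/-- the mass -/
noncomputable def xx (y : ℝ) : ℝ := Real.exp (lx y)

theorem xx_pos (y : ℝ) : 0 < xx y := Real.exp_pos _

theorem xx_le (h : ModX A A1) {y : ℝ} (hy : y0 ≤ y) : xx y ≤ 1 := by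
  unfold xx; rw [Real.exp_le_one_iff]; exact h.neg y hy

theorem wr_sq {r : ℝ} (h0 : 0 < r) (h2 : r < 2) :
    wr r ^ 2 = (64 - 20 * r ^ 2 + r ^ 4) / 64 := by
  unfold wr
  rw [Real.sq_sqrt]
  · ring
  · have : r ^ 2 < 4 := by nlinarith
    apply mul_nonneg <;> linarith

theorem wr_pos {r : ℝ} (h0 : 0 < r) (h2 : r < 2) : 0 < wr r := by
  unfold wr
  apply Real.sqrt_pos.mpr
  have : r ^ 2 < 4 := by nlinarith
  apply mul_pos <;> linarith

/-- the derivative of `w` -/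
theorem d_wr {r : ℝ} (h0 : 0 < r) (h2 : r < 2) :
    HasDerivAt wr ((4 * r ^ 4 - 40 * r ^ 2) / (128 * wr r) / r) r := by
  have hp := dpoly 1 (-20 / 64) (1 / 64) r
  have hne : (1 + -20 / 64 * r ^ 2 + 1 / 64 * r ^ 4 : ℝ) ≠ 0 := by
    have h1 := wr_sq h0 h2
    have h3 := wr_pos h0 h2
    have h4 : (0:ℝ) < wr r ^ 2 := by positivity
    rw [h1] at h4
    intro h5
    linarith
  have hs := hp.sqrt hne
  have hw : wr r = Real.sqrt (1 + -20 / 64 * r ^ 2 + 1 / 64 * r ^ 4) := by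
    unfold wr; congr 1; ring
  refine (hs.congr_deriv ?_).congr_of_eventuallyEq (Filter.Eventually.of_forall fun s => ?_)
  · rw [← hw]
    have h3 := (wr_pos h0 h2).ne'
    field_simp
    ring
  · unfold wr; congr 1; ring

/-- composition with the mass -/
theorem d_comp {f f1 : ℝ → ℝ} {l y : ℝ} (hl : HasDerivAt lx l y)
    (hf : HasDerivAt f (f1 (xx y) / xx y) (xx y)) :
    HasDerivAt (fun y => f (xx y)) (f1 (xx y) * l) y := by
  have h1 : HasDerivAt xx (Real.exp (lx y) * l) y := hl.exp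
  have h2 := hf.comp y h1
  refine h2.congr_deriv ?_
  have := (xx_pos y).ne'
  change f1 (xx y) / xx y * (xx y * l) = _
  field_simp

/-- `l'` -/
noncomputable def ll (A : ℝ → ℝ) (y : ℝ) : ℝ := -(16 / Real.pi * A (xx y) * wr (xx y))

theorem d_l (h : ModX A A1) {y : ℝ} (hy : y0 ≤ y) : HasDerivAt lx (ll A y) y := by
  refine (h.dl y hy).congr_deriv ?_
  have := Real.pi_ne_zero
  unfold ll xx
  field_simp

/-- `v` -/
noncomputable def vv (A A1 B B1 : ℝ → ℝ) (y : ℝ) : ℝ := A (xx y) * B1 (xx y) - B (xx y) * A1 (xx y)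

/-- `g` -/
noncomputable def g0 (A B : ℝ → ℝ) (y : ℝ) : ℝ := Real.pi ^ 2 / 16 * (B (xx y) / A (xx y))

/-- `g₁` -/
noncomputable def g1 (A A1 B B1 : ℝ → ℝ) (y : ℝ) : ℝ :=
  -(Real.pi * (wr (xx y) * (vv A A1 B B1 y / A (xx y))))

/-- `g₂` -/
noncomputable def g2 (A A1 A2 B B1 B2 : ℝ → ℝ) (y : ℝ) : ℝ :=
  16 * ((0 + -40 / 128 * xx y ^ 2 + 4 / 128 * xx y ^ 4) * vv A A1 B B1 y +
    (1 + -20 / 64 * xx y ^ 2 + 1 / 64 * xx y ^ 4) *
      (vv A A2 B B2 y - vv A A1 B B1 y * A1 (xx y) / A (xx y)))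

theorem lt2 (h : ModX A A1) {y : ℝ} (hy : y0 ≤ y) : xx y < 2 := by linarith [xx_le h hy]

theorem d_g0 (h : BesX A A1 A2 A3 B B1 B2 B3) (hM : ModX A A1) {y : ℝ} (hy : y0 ≤ y) :
    HasDerivAt (g0 A B) (g1 A A1 B B1 y) y := by
  have hx := xx_pos y
  have hx2 := lt2 hM hy
  have ha := d_comp (d_l hM hy) (h.dA (xx y) hx hx2)
  have hb := d_comp (d_l hM hy) (h.dB (xx y) hx hx2)
  have hA := (A_pos h hx hx2).ne'
  have := (hb.div ha hA).const_mul (Real.pi ^ 2 / 16)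
  refine this.congr_deriv ?_
  have hp := Real.pi_ne_zero
  unfold g1 vv ll
  field_simp
  ring

theorem d_vv (h : BesX A A1 A2 A3 B B1 B2 B3) (hM : ModX A A1) {y : ℝ} (hy : y0 ≤ y) :
    HasDerivAt (vv A A1 B B1) (vv A A2 B B2 y * ll A y) y := by
  have hx := xx_pos y
  have hx2 := lt2 hM hy
  have ha := d_comp (d_l hM hy) (h.dA (xx y) hx hx2)
  have hb := d_comp (d_l hM hy) (h.dB (xx y) hx hx2)
  have ha1 := d_comp (d_l hM hy) (h.dA1 (xx y) hx hx2)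
  have hb1 := d_comp (d_l hM hy) (h.dB1 (xx y) hx hx2)
  have := (ha.mul hb1).sub (hb.mul ha1)
  refine this.congr_deriv ?_
  unfold vv
  ring

theorem d_uu (h : BesX A A1 A2 A3 B B1 B2 B3) (hM : ModX A A1) {y : ℝ} (hy : y0 ≤ y) :
    HasDerivAt (vv A A2 B B2) ((A1 (xx y) * B2 (xx y) + A (xx y) * B3 (xx y) -
      B1 (xx y) * A2 (xx y) - B (xx y) * A3 (xx y)) * ll A y) y := by
  have hx := xx_pos y
  have hx2 := lt2 hM hy
  have ha := d_comp (d_l hM hy) (h.dA (xx y) hx hx2)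
  have hb := d_comp (d_l hM hy) (h.dB (xx y) hx hx2)
  have ha2 := d_comp (d_l hM hy) (h.dA2 (xx y) hx hx2)
  have hb2 := d_comp (d_l hM hy) (h.dB2 (xx y) hx hx2)
  have := (ha.mul hb2).sub (hb.mul ha2)
  refine this.congr_deriv ?_
  ring

theorem d_g1 (h : BesX A A1 A2 A3 B B1 B2 B3) (hM : ModX A A1) {y : ℝ} (hy : y0 ≤ y) :
    HasDerivAt (g1 A A1 B B1) (g2 A A1 A2 B B1 B2 y) y := by
  have hx := xx_pos y
  have hx2 := lt2 hM hy
  have ha := d_comp (d_l hM hy) (h.dA (xx y) hx hx2)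
  have hA := (A_pos h hx hx2).ne'
  have hw := d_comp (f1 := fun r => (4 * r ^ 4 - 40 * r ^ 2) / (128 * wr r)) (d_l hM hy)
    (d_wr hx hx2)
  have hv := d_vv h hM hy
  have := ((hw.mul (hv.div ha hA)).const_mul Real.pi).neg
  refine this.congr_deriv ?_
  have hp := Real.pi_ne_zero
  have hw0 := (wr_pos hx hx2).ne'
  have hw2 := wr_sq hx hx2
  unfold g2
  simp only [Pi.div_apply]
  have hll : ll A y = -(16 / Real.pi * A (xx y) * wr (xx y)) := rfl
  rw [hll]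
  generalize vv A A1 B B1 y = v
  generalize vv A A2 B B2 y = u
  field_simp
  generalize wr (xx y) = w at *
  generalize xx y = x at *
  have e : w ^ 2 = (64 - 20 * x ^ 2 + x ^ 4) / 64 := hw2
  field_simp at e
  linear_combination (128 * (A x * u - v * A1 x)) * e

theorem d_g2 (h : BesX A A1 A2 A3 B B1 B2 B3) (hM : ModX A A1) {y : ℝ} (hy : y0 ≤ y) :
    HasDerivAt (g2 A A1 A2 B B1 B2) (-(24 * Real.pi ^ 3) * (F4 y * lx y)) y := by
  have hx := xx_pos y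
  have hx2 := lt2 hM hy
  have ha := d_comp (d_l hM hy) (h.dA (xx y) hx hx2)
  have ha1 := d_comp (d_l hM hy) (h.dA1 (xx y) hx hx2)
  have hA := (A_pos h hx hx2).ne'
  have hp1 := d_comp (f1 := fun r => (0 + -80 / 128 * r ^ 2 + 16 / 128 * r ^ 4)) (d_l hM hy)
    ((dpoly 0 (-40 / 128) (4 / 128) (xx y)).congr_deriv (by field_simp; ring))
  have hp2 := d_comp (f1 := fun r => (0 + -40 / 64 * r ^ 2 + 4 / 64 * r ^ 4)) (d_l hM hy)
    ((dpoly 1 (-20 / 64) (1 / 64) (xx y)).congr_deriv (by field_simp; ring))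
  have hv := d_vv h hM hy
  have hu := d_uu h hM hy
  have := ((hp1.mul hv).add (hp2.mul (hu.sub ((hv.mul ha1).div ha hA)))).const_mul 16
  refine this.congr_deriv ?_
  have hq := Q_zero h hx hx2
  have hoA := h.odeA (xx y) hx hx2
  have hoB := h.odeB (xx y) hx hx2
  have hlog : Real.log (xx y) = lx y := Real.log_exp _
  rw [hlog] at hoB
  have hF : F4 y = (16 / Real.pi ^ 2 * A (xx y)) ^ 2 * wr (xx y) * (xx y) ^ 2 / 64 := hM.F y hy
  rw [hF]
  have hll : ll A y = -(16 / Real.pi * A (xx y) * wr (xx y)) := rfl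
  rw [hll]
  have hp := Real.pi_ne_zero
  unfold Qf at hq
  simp only [Pi.mul_apply, Pi.sub_apply, Pi.div_apply, vv]
  generalize xx y = x at *
  generalize wr x = w at *
  generalize lx y = l at *
  generalize A x = a at *
  generalize A1 x = a1 at *
  generalize A2 x = a2 at *
  generalize A3 x = a3 at *
  generalize B x = b at *
  generalize B1 x = b1 at *
  generalize B2 x = b2 at *
  generalize B3 x = b3 at *
  clear hp1 hp2 hv hu this ha ha1 hF hll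
  field_simp
  linear_combination (-128 * w * a ^ 3) * hoB + (128 * w * a ^ 2 * b) * hoA +
    (128 * w * (a * b1 - b * a1)) * hq

theorem wr_le {r : ℝ} (h0 : 0 < r) (h1 : r ≤ 1) : wr r ≤ 1 := by
  unfold wr
  rw [Real.sqrt_le_one]
  have : r ^ 2 ≤ 1 := by nlinarith
  nlinarith [sq_nonneg r]

theorem log_bd {r : ℝ} (h0 : 0 < r) (h1 : r ≤ 1) : r * |Real.log r| ≤ 1 := by
  have h := Real.abs_log_mul_self_lt r h0 h1
  rw [abs_mul, abs_of_pos h0] at h
  linarith [mul_comm r |Real.log r|]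

theorem cont_phi (h : BesX A A1 A2 A3 B B1 B2 B3) (hM : ModX A A1) :
    ContinuousOn (fun y => -(24 * Real.pi ^ 3) * (F4 y * lx y)) (Ici y0) := by
  have hl : ContinuousOn lx (Ici y0) := fun y hy => (d_l hM hy).continuousAt.continuousWithinAt
  have hx : ContinuousOn xx (Ici y0) := hl.rexp
  have hA : ContinuousOn (fun y => A (xx y)) (Ici y0) := fun y hy =>
    (d_comp (d_l hM hy) (h.dA (xx y) (xx_pos y) (lt2 hM hy))).continuousAt.continuousWithinAt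
  have hw : ContinuousOn (fun y => wr (xx y)) (Ici y0) := by
    have : Continuous wr := by unfold wr; fun_prop
    exact this.comp_continuousOn hx
  refine continuousOn_const.mul (ContinuousOn.mul ?_ hl)
  have : ContinuousOn (fun y => (16 / Real.pi ^ 2 * A (xx y)) ^ 2 * wr (xx y) * (xx y) ^ 2 / 64)
      (Ici y0) := (((continuousOn_const.mul hA).pow 2).mul hw |>.mul (hx.pow 2)).div_const 64
  exact this.congr fun y hy => hM.F y hy

theorem bd_phi (h : BesX A A1 A2 A3 B B1 B2 B3) (hM : ModX A A1) :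
    ∃ C, ∀ y, y0 ≤ y → |-(24 * Real.pi ^ 3) * (F4 y * lx y)| ≤ C * Real.exp (-(Real.pi * y)) := by
  obtain ⟨C, hC0, hC⟩ := A_bd h
  obtain ⟨D, hD⟩ := hM.bd
  refine ⟨24 * Real.pi ^ 3 * ((16 / Real.pi ^ 2 * (Real.pi ^ 2 / 16 + C)) ^ 2 / 64 * Real.exp D),
    fun y hy => ?_⟩
  have hx := xx_pos y
  have hx1 := xx_le hM hy
  have hA : |A (xx y)| ≤ Real.pi ^ 2 / 16 + C := by
    have h1 := hC (xx y) hx hx1
    have h2 : C * xx y ^ 2 ≤ C := by
      have : xx y ^ 2 ≤ 1 := by nlinarith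
      nlinarith
    have h3 := abs_sub_abs_le_abs_sub (A (xx y)) (Real.pi ^ 2 / 16)
    rw [abs_of_pos (by positivity : 0 < Real.pi ^ 2 / 16)] at h3
    linarith
  have hF : F4 y = (16 / Real.pi ^ 2 * A (xx y)) ^ 2 * wr (xx y) * (xx y) ^ 2 / 64 := hM.F y hy
  have hlog : lx y = Real.log (xx y) := (Real.log_exp _).symm
  have hw0 := wr_pos hx (lt2 hM hy)
  have hw1 := wr_le hx hx1
  have hlb := log_bd hx hx1
  have hxe : xx y ≤ Real.exp D * Real.exp (-(Real.pi * y)) := by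
    rw [← Real.exp_add]
    unfold xx
    apply Real.exp_le_exp.mpr
    have := (abs_le.mp (hD y hy)).2
    linarith
  have hk : (16 / Real.pi ^ 2 * A (xx y)) ^ 2 ≤ (16 / Real.pi ^ 2 * (Real.pi ^ 2 / 16 + C)) ^ 2 := by
    rw [← sq_abs]
    apply pow_le_pow_left₀ (abs_nonneg _)
    rw [abs_mul, abs_of_pos (by positivity : 0 < 16 / Real.pi ^ 2)]
    gcongr
  have hrhs : 24 * Real.pi ^ 3 * ((16 / Real.pi ^ 2 * (Real.pi ^ 2 / 16 + C)) ^ 2 / 64 *
      Real.exp D) * Real.exp (-(Real.pi * y)) = 24 * Real.pi ^ 3 *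
      ((16 / Real.pi ^ 2 * (Real.pi ^ 2 / 16 + C)) ^ 2 / 64 * Real.exp D *
        Real.exp (-(Real.pi * y))) := by ring
  rw [abs_mul, abs_neg, abs_of_pos (by positivity : 0 < 24 * Real.pi ^ 3), hrhs]
  refine mul_le_mul_of_nonneg_left ?_ (by positivity)
  rw [hF, hlog, abs_mul]
  have hF0 : 0 ≤ (16 / Real.pi ^ 2 * A (xx y)) ^ 2 * wr (xx y) * (xx y) ^ 2 / 64 := by positivity
  rw [abs_of_nonneg hF0]
  calc (16 / Real.pi ^ 2 * A (xx y)) ^ 2 * wr (xx y) * (xx y) ^ 2 / 64 * |Real.log (xx y)|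
      = (16 / Real.pi ^ 2 * A (xx y)) ^ 2 / 64 * wr (xx y) * (xx y * |Real.log (xx y)|) * xx y := by
        ring
    _ ≤ (16 / Real.pi ^ 2 * (Real.pi ^ 2 / 16 + C)) ^ 2 / 64 * 1 * 1 *
        (Real.exp D * Real.exp (-(Real.pi * y))) := by gcongr
    _ = _ := by ring

theorem bd_g (h : BesX A A1 A2 A3 B B1 B2 B3) (hM : ModX A A1) :
    ∃ C, ∀ y, y0 ≤ y → |g0 A B y - 7 * Real.pi * zeta3 / 8 * y| ≤ C := by
  obtain ⟨C, hC0, hC⟩ := A_bd h
  obtain ⟨D, hD⟩ := hM.bd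
  obtain ⟨K, hK⟩ := h.B_log
  refine ⟨K + |7 * zeta3 / 8| * (C / (Real.pi ^ 2 / 16)) + |7 * zeta3 / 8| * D, fun y hy => ?_⟩
  have hx := xx_pos y
  have hx1 := xx_le hM hy
  have hx2 := lt2 hM hy
  have hge := h.A_ge (xx y) hx hx2
  have hA := A_pos h hx hx2
  have hAb := hC (xx y) hx hx1
  have hB := hK (xx y) hx hx1
  have hlog : lx y = Real.log (xx y) := (Real.log_exp _).symm
  have hDy := hD y hy
  have hlb := log_bd hx hx1
  rw [hlog] at hDy
  unfold g0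
  have ha0 : 0 < Real.pi ^ 2 / 16 := by positivity
  generalize hc : 7 * zeta3 / 8 = c at *
  have hc2 : 7 * Real.pi * zeta3 / 8 = c * Real.pi := by rw [← hc]; ring
  rw [hc2]
  generalize xx y = x at *
  generalize Real.log x = s at *
  generalize Real.pi ^ 2 / 16 = a0 at *
  have e : a0 * (B x / A x) - c * Real.pi * y =
      a0 / A x * (B x + c * s) + c * ((A x - a0) / A x * s) - c * (s + Real.pi * y) := by
    field_simp
    ring
  rw [e]
  have h1 : |a0 / A x * (B x + c * s)| ≤ K := by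
    rw [abs_mul, abs_of_pos (div_pos ha0 hA)]
    have h2 : a0 / A x ≤ 1 := (div_le_one hA).mpr hge
    have h3 : 0 < a0 / A x := div_pos ha0 hA
    calc a0 / A x * |B x + c * s| ≤ 1 * |B x + c * s| := by gcongr
      _ ≤ K := by rw [one_mul]; exact hB
  have h2 : |c * ((A x - a0) / A x * s)| ≤ |c| * (C / a0) := by
    rw [abs_mul, abs_mul, abs_div, abs_of_pos hA]
    refine mul_le_mul_of_nonneg_left ?_ (abs_nonneg c)
    calc |A x - a0| / A x * |s| ≤ (C * x ^ 2) / a0 * |s| := by gcongr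
      _ = C / a0 * (x * (x * |s|)) := by ring
      _ ≤ C / a0 * (1 * 1) := by gcongr
      _ = C / a0 := by ring
  have h3 : |c * (s + Real.pi * y)| ≤ |c| * D := by
    rw [abs_mul]
    exact mul_le_mul_of_nonneg_left hDy (abs_nonneg c)
  rw [abs_le] at h1 h2 h3 ⊢
  constructor <;> linarith [h1.1, h1.2, h2.1, h2.2, h3.1, h3.2]

theorem w_one : wr 1 = 3 * Real.sqrt 5 / 8 := by
  unfold wr
  have h5 : (0:ℝ) ≤ Real.sqrt 5 := Real.sqrt_nonneg 5
  rw [show (1 - 1 ^ 2 / 16) * (1 - 1 ^ 2 / 4) = (3 * Real.sqrt 5 / 8) ^ 2 by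
    rw [div_pow, mul_pow, Real.sq_sqrt (by norm_num)]; norm_num]
  exact Real.sqrt_sq (by positivity)

theorem at_y0 (h : BesX A A1 A2 A3 B B1 B2 B3) (hM : ModX A A1) :
    g1 A A1 B B1 y0 - y0 * g2 A A1 A2 B B1 B2 y0 = 45 / 4 * y0 * det5 := by
  have hx : xx y0 = 1 := by unfold xx; rw [hM.l0, Real.exp_zero]
  have hA := A_pos h one_pos one_lt_two
  unfold g1 g2 vv
  rw [hx, w_one, h.det]
  have hf := hM.fricke
  have h3 : Real.sqrt 3 ≠ 0 := by positivity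
  have hpi := Real.pi_ne_zero
  have e0 : y0 = Real.sqrt 3 * Real.sqrt 5 / 6 := by
    unfold y0
    rw [← Real.sqrt_mul (by norm_num)]
    norm_num
  rw [e0]
  have hf2 : Real.sqrt 3 * (5 * A1 1 + 2 * A 1) = Real.pi := by
    rw [hf]; field_simp
  generalize Real.sqrt 3 = s3 at *
  generalize Real.sqrt 5 = s5 at *
  generalize Real.pi = p at *
  field_simp
  linear_combination (589824 * s5 * (A 1 * B1 1 - B 1 * A1 1)) * hf2

end WrAux

open WrAux in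
/-- Block (P1) from the two exports. -/
theorem stP1 {A A1 A2 A3 B B1 B2 B3 : ℝ → ℝ} (h : BesX A A1 A2 A3 B B1 B2 B3)
    (hM : ModX A A1) : StP1 := by
  obtain ⟨C, hC⟩ := bd_phi h hM
  obtain ⟨C', hC'⟩ := bd_g h hM
  have hid := Omega.omega_identity (g := g0 A B) (g1 := g1 A A1 B B1) (g2 := g2 A A1 A2 B B1 B2)
    (φ := fun y => -(24 * Real.pi ^ 3) * (F4 y * lx y)) (y0 := y0)
    (a := 7 * Real.pi * zeta3 / 8) (C := C) (C' := C') (c := Real.pi) Real.pi_pos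
    (fun y hy => d_g0 h hM hy) (fun y hy => d_g1 h hM hy) (fun y hy => d_g2 h hM hy)
    (cont_phi h hM) hC hC'
  have h2 := hid.2
  rw [at_y0 h hM] at h2
  have hint : (∫ y in Ioi y0, y * (-(24 * Real.pi ^ 3) * (F4 y * lx y))) =
      -(24 * Real.pi ^ 3) * ∫ y in Ioi y0, y * (F4 y * lx y) := by
    rw [← integral_const_mul]
    congr 1
    funext y
    ring
  rw [hint] at h2
  have hT : TT = 45 / 4 * y0 * det5 := by
    rw [h2]; unfold TT; ring
  unfold StP1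
  rw [hT]
  unfold y0
  have h15 : Real.sqrt 15 ≠ 0 := by positivity
  field_simp
  ring

end Pool.Agent.Lib.BM

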