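import Pool.Agent.Lib.BM.BesODE
import Pool.Agent.Lib.BM.ValK
import Pool.Agent.Lib.BM.Wr

set_option autoImplicit false

/-! Project BM, block B1: the structure `BesX` for `Af`, `Bf`, from the value of
`∫ I0 K0^3 t`. -/

open MeasureTheory Set Filter Topology

namespace Pool.Agent.Lib.BM

theorem Af_ge {r : ℝ} (hr : 0 < r) (hr2 : r < 2) :
    (∫ t in Ioi (0:ℝ), (I0 t * K0 t ^ 3) * t) ≤ Af r := by
  have i1 : IntegrableOn (fun t => (I0 t * K0 t ^ 3) * t) (Ioi 0) := by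
    have h := integrable_I0_mI0 (le_refl 0) (by norm_num) 1
    refine h.congr_fun (fun t _ => ?_) measurableSet_Ioi
    simp only [zero_mul, I0_zero, one_mul, pow_one, mI0]
  have i2 : IntegrableOn (fun t => I0 (r * t) * (I0 t * K0 t ^ 3) * t) (Ioi 0) := by
    have h := integrable_I0_mI0 hr.le hr2 1
    refine h.congr_fun (fun t _ => ?_) measurableSet_Ioi
    simp only [pow_one, mI0]
  refine setIntegral_mono_on i1 i2 measurableSet_Ioi fun t ht => ?_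
  have ht0 : 0 < t := ht
  have h1 := one_le_I0 (r * t)
  have h2 : 0 ≤ (I0 t * K0 t ^ 3) * t := by
    have := I0_pos t
    have := K0_pos ht0
    positivity
  nlinarith

theorem Af1_bd {r : ℝ} (hr : 0 < r) (hr1 : r ≤ 1) :
    |Af1 r| ≤ (∫ t in Ioi (0:ℝ), Real.exp (1 * t) * |mI0 t * t ^ 3|) * r ^ 2 := by
  rw [← Real.norm_eq_abs, Af1_eq, mom, ← integral_mul_const]
  refine norm_integral_le_of_norm_le ((integrable_exp_mI0 (by norm_num) 3).mul_const _) ?_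
  refine (ae_restrict_iff' measurableSet_Ioi).2 (Filter.Eventually.of_forall fun t ht => ?_)
  have ht0 : 0 < t := ht
  have hrt : 0 ≤ r * t := (mul_pos hr ht0).le
  have h1 : thI (r * t) ≤ Real.exp (1 * t) * (r * t) ^ 2 := by
    have h2 := I1_le hrt
    have h3 : Real.exp (r * t) ≤ Real.exp (1 * t) :=
      Real.exp_le_exp.2 (mul_le_mul_of_nonneg_right hr1 ht0.le)
    calc thI (r * t) ≤ (r * t) * ((r * t) * Real.exp (r * t)) :=
          mul_le_mul_of_nonneg_left h2 hrt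
      _ ≤ (r * t) * ((r * t) * Real.exp (1 * t)) := by gcongr
      _ = Real.exp (1 * t) * (r * t) ^ 2 := by ring
  rw [Real.norm_eq_abs, mul_assoc, abs_mul, abs_of_nonneg (thI_nonneg hrt)]
  have e : Real.exp (1 * t) * |mI0 t * t ^ 3| * r ^ 2 =
      (Real.exp (1 * t) * (r * t) ^ 2) * |mI0 t * t ^ 1| := by
    rw [abs_mul, abs_mul, abs_of_pos (pow_pos ht0 3), abs_of_pos (pow_pos ht0 1)]
    ring
  rw [e]
  exact mul_le_mul_of_nonneg_right h1 (abs_nonneg _)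

theorem Af2_bd {r : ℝ} (hr : 0 < r) (hr1 : r ≤ 1) :
    |Af2 r| ≤ r ^ 2 * ∫ t in Ioi (0:ℝ), Real.exp (1 * t) * |mI0 t * t ^ 3| := by
  rw [Af2_eq, abs_mul, abs_of_pos (pow_pos hr 2), mom]
  refine mul_le_mul_of_nonneg_left ?_ (pow_pos hr 2).le
  rw [← Real.norm_eq_abs]
  refine norm_integral_le_of_norm_le (integrable_exp_mI0 (by norm_num) 3) ?_
  refine (ae_restrict_iff' measurableSet_Ioi).2 (Filter.Eventually.of_forall fun t ht => ?_)
  have ht0 : 0 < t := ht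
  have hrt : 0 ≤ r * t := (mul_pos hr ht0).le
  have h1 : I0 (r * t) ≤ Real.exp (1 * t) :=
    (I0_le_exp hrt).trans (Real.exp_le_exp.2 (mul_le_mul_of_nonneg_right hr1 ht0.le))
  rw [Real.norm_eq_abs, mul_assoc, abs_mul, abs_of_pos (I0_pos _)]
  exact mul_le_mul_of_nonneg_right h1 (abs_nonneg _)

theorem Af2_tendsto_zero : Tendsto Af2 (𝓝[>] 0) (𝓝 0) := by
  have h1 : Tendsto (fun r : ℝ => r ^ 2 * ∫ t in Ioi (0:ℝ), Real.exp (1 * t) * |mI0 t * t ^ 3|)
      (𝓝[>] 0) (𝓝 0) := by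
    have h2 : Continuous fun r : ℝ =>
        r ^ 2 * ∫ t in Ioi (0:ℝ), Real.exp (1 * t) * |mI0 t * t ^ 3| := by fun_prop
    have h3 := h2.tendsto 0
    simp only [ne_eq, OfNat.ofNat_ne_zero, not_false_eq_true, zero_pow, zero_mul] at h3
    exact h3.mono_left nhdsWithin_le_nhds
  refine squeeze_zero_norm' ?_ h1
  filter_upwards [Ioc_mem_nhdsGT (one_pos : (0:ℝ) < 1)] with r hr
  rw [Real.norm_eq_abs]
  exact Af2_bd hr.1 hr.2

theorem besX_of (hv : ∫ t in Ioi (0:ℝ), (I0 t * K0 t ^ 3) * t = Real.pi ^ 2 / 16) :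
    BesX Af Af1 Af2 Af3 Bf Bf1 Bf2 Bf3 where
  dA := fun _ h0 h2 => Af_hasDerivAt h0 h2
  dA1 := fun _ h0 h2 => Af1_hasDerivAt h0 h2
  dA2 := fun _ h0 h2 => Af2_hasDerivAt h0 h2
  dB := fun _ h0 _ => Bf_hasDerivAt h0
  dB1 := fun _ h0 _ => Bf1_hasDerivAt h0
  dB2 := fun _ h0 _ => Bf2_hasDerivAt h0
  odeA := fun _ h0 h2 => Af_ode h0 h2
  odeB := fun _ h0 _ => Bf_ode h0
  det := det5_eq
  A_ge := fun r h0 h2 => by rw [← hv]; exact Af_ge h0 h2
  A_lim := by rw [← hv]; exact Af_tendsto_zero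
  A1_bd := ⟨_, fun _ h0 h1 => Af1_bd h0 h1⟩
  A2_lim := Af2_tendsto_zero
  B_log := by
    obtain ⟨C, hC⟩ := Bf_log_bound
    refine ⟨C, fun r h0 h1 => ?_⟩
    have := hC r h0 h1
    rwa [integral_K0_pow_four] at this

end Pool.Agent.Lib.BM
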