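import Pool.Agent.Lib.BM.CmF5

set_option autoImplicit false

/-!
# BM.CmConj: complex conjugation
-/

namespace Pool.Agent.Lib.BM.Cm

noncomputable section

/-- complex conjugation of a vector -/
def cj2 (v : ℂ × ℂ) : ℂ × ℂ := ((starRingEnd ℂ) v.1, (starRingEnd ℂ) v.2)

/-- complex conjugation of a triple -/
def cj3 (q : ℂ × ℂ × ℂ) : ℂ × ℂ × ℂ :=
  ((starRingEnd ℂ) q.1, (starRingEnd ℂ) q.2.1, (starRingEnd ℂ) q.2.2)

end

lemma cj2_cj2 (v : ℂ × ℂ) : cj2 (cj2 v) = v := by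
  unfold cj2; simp

lemma cj3_cj3 (q : ℂ × ℂ × ℂ) : cj3 (cj3 q) = q := by
  unfold cj3; simp

lemma cj2_inj : Function.Injective cj2 := Function.LeftInverse.injective cj2_cj2

lemma Dst_cj (q : ℂ × ℂ × ℂ) (v : ℂ × ℂ) : Dst (cj3 q) (cj2 v) = (starRingEnd ℂ) (Dst q v) := by
  unfold Dst EE' cj2 cj3
  simp only [map_sub, map_add, map_mul, map_inv₀, map_div₀, map_pow, map_neg, map_ofNat,
    starRingEnd_self_apply]

lemma kap_cj (t : ℂ) : kap ((starRingEnd ℂ) t) = (starRingEnd ℂ) (kap t) := by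
  unfold kap
  simp only [map_mul, map_inv₀, map_pow, starRingEnd_self_apply]

/-- conjugation of a depth two sum -/
theorem SS_cj (M : Set (ℂ × ℂ)) (q : ℂ × ℂ × ℂ) :
    SS (cj2 '' M) (cj3 q) = (starRingEnd ℂ) (SS M q) := by
  rw [SS_image cj2_inj.injOn]
  unfold SS
  rw [Complex.conj_tsum]
  exact tsum_congr fun v => Dst_cj q v

/-- conjugation of a depth two sum, real part -/
theorem SS_cj_re (M : Set (ℂ × ℂ)) (q : ℂ × ℂ × ℂ) :
    (SS (cj2 '' M) (cj3 q)).re = (SS M q).re := by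
  rw [SS_cj, Complex.conj_re]

/-- sum over an image, depth one -/
lemma KS_image {J : Set ℂ} {g : ℂ → ℂ} (hg : Set.InjOn g J) :
    KS (g '' J) = ∑' t : J, kap (g t) := by
  unfold KS
  exact tsum_image kap hg

/-- conjugation of a depth one sum -/
theorem KS_cj (J : Set ℂ) : KS ((starRingEnd ℂ) '' J) = (starRingEnd ℂ) (KS J) := by
  rw [KS_image (starRingEnd ℂ).injective.injOn]
  unfold KS
  rw [Complex.conj_tsum]
  exact tsum_congr fun t => kap_cj t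

lemma cj_tau0 : (starRingEnd ℂ) tau0 = 1 - tau0 := by
  unfold tau0
  simp only [map_add, map_div₀, map_mul, map_one, map_ofNat, Complex.conj_I, Complex.conj_ofReal]
  ring

lemma cj_w15 : (starRingEnd ℂ) w15 = 1 - w15 := by
  rw [w15_eq, map_sub, map_mul, cj_tau0, map_one, map_ofNat]
  ring

lemma Lam0_conj {x : ℂ} (hx : x ∈ Lam0) : (starRingEnd ℂ) x ∈ Lam0 := by
  obtain ⟨m, n, rfl⟩ := hx
  refine ⟨-m, m + n, ?_⟩
  rw [map_add, map_mul, cj_tau0, map_intCast, map_intCast]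
  push_cast
  ring

lemma OO_conj {x : ℂ} (hx : x ∈ OO) : (starRingEnd ℂ) x ∈ OO := by
  obtain ⟨a, b, rfl⟩ := hx
  refine ⟨a + b, -b, ?_⟩
  rw [map_add, map_mul, cj_w15, map_intCast, map_intCast]
  push_cast
  ring

lemma Lam0_conj_iff {x : ℂ} : (starRingEnd ℂ) x ∈ Lam0 ↔ x ∈ Lam0 :=
  ⟨fun h => by have := Lam0_conj h; rwa [starRingEnd_self_apply] at this, Lam0_conj⟩

lemma OO_conj_iff {x : ℂ} : (starRingEnd ℂ) x ∈ OO ↔ x ∈ OO :=
  ⟨fun h => by have := OO_conj h; rwa [starRingEnd_self_apply] at this, OO_conj⟩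

lemma KK_conj {x : ℂ} (hx : x ∈ KK) : (starRingEnd ℂ) x ∈ KK := by
  obtain ⟨c, hc, h⟩ := mem_KK.1 hx
  refine mem_KK.2 ⟨c, hc, ?_⟩
  have := OO_conj h
  rwa [map_mul, map_intCast] at this

lemma Nice.cj {M : Set (ℂ × ℂ)} (hM : Nice M) : Nice (cj2 '' M) := by
  obtain ⟨c, hc, h⟩ := hM
  refine ⟨c, hc, ?_⟩
  rintro w ⟨v, hv, rfl⟩
  obtain ⟨h1, h2⟩ := h v hv
  have h3 := Lam0_conj h1
  have h4 := Lam0_conj h2
  rw [map_mul, map_intCast] at h3 h4
  exact ⟨h3, h4⟩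

lemma Nice1.cj {J : Set ℂ} (hJ : Nice1 J) : Nice1 ((starRingEnd ℂ) '' J) := by
  obtain ⟨c, hc, h⟩ := hJ
  refine ⟨c, hc, ?_⟩
  rintro w ⟨v, hv, rfl⟩
  have h3 := Lam0_conj (h v hv)
  rwa [map_mul, map_intCast] at h3

/-- the image of `Λ` under conjugation -/
lemma image_conj_Lam0 : (starRingEnd ℂ) '' Lam0 = Lam0 := by
  ext x
  constructor
  · rintro ⟨y, hy, rfl⟩
    exact Lam0_conj hy
  · intro hx
    exact ⟨(starRingEnd ℂ) x, Lam0_conj hx, starRingEnd_self_apply x⟩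

lemma image_conj_OO : (starRingEnd ℂ) '' OO = OO := by
  ext x
  constructor
  · rintro ⟨y, hy, rfl⟩
    exact OO_conj hy
  · intro hx
    exact ⟨(starRingEnd ℂ) x, OO_conj hx, starRingEnd_self_apply x⟩

/-- the depth one sum over `Λ` is real -/
theorem KS_Lam0_im : (KS Lam0).im = 0 := by
  have h := KS_cj Lam0
  rw [image_conj_Lam0] at h
  exact Complex.conj_eq_iff_im.1 h.symm

theorem KS_OO_im : (KS OO).im = 0 := by
  have h := KS_cj OO
  rw [image_conj_OO] at h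
  exact Complex.conj_eq_iff_im.1 h.symm

end Pool.Agent.Lib.BM.Cm
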