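import Pool.Agent.Lib.BM.CmRefl

set_option autoImplicit false

/-!
# BM.CmData: the data of the certificate (eight four-term relations and scalar moves)
-/

namespace Pool.Agent.Lib.BM.Cm

/-- the common denominator -/
def CC : ℤ := 225600

/-- t(1-1w)/1/1 A10 B11 C4 -/
def I1 : InstD where
  G0 := ((3, 0, 0, 0), (0, 1, 0, 0), (1, 1, 2, 0), (0, 0, 0, 2))
  G1 := ((-2, -2, -4, -6), (2, 2, 4, 2), (4, 4, 2, 6), (-8, -4, -4, -4))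
  G2 := ((6, 3, 0, 0), (-6, -1, 0, 0), (-4, -1, -2, 0), (0, -1, 0, -2))
  G3 := ((3, 3, 0, 0), (-6, -2, 0, 0), (-1, -1, -2, 0), (0, 0, 0, -2))
  a := 1
  b := -1
  c := 1
  z0 := (-7191, 14382, 18189, 3807, -21996, 3807)
  z1 := (1407744, -108288, -1299456, -108288, -108288, 216576)
  z2 := (-115056, -201348, -87984, 15228, 27072, -54144)
  z3 := (-316404, 201348, -72756, -15228, -27072, 54144)
  l0 := { kind := false, s := ⟨-1, 0⟩, k1 := (0, 0), k2 := (1, 0), r1 := (0, 0, -1, 0), r2 := (0, 0, 0, -1), L1 := (0, 0, -1, 0), L2 := (0, 0, 0, -1), N1 := (1, 0, 0, 0), N2 := (0, 3, 0, 0), h := 3 }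
  l1 := { kind := false, s := ⟨1, -1 / 2⟩, k1 := (1, 0), k2 := (0, 0), r1 := (0, 2, -1, 0), r2 := (-1, 3, -1, 0), L1 := (0, -1, -3, 0), L2 := (0, 1, 2, 0), N1 := (-2, 0, 0, 0), N2 := (0, 0, 0, -1), h := 2 }
  l2 := { kind := false, s := ⟨-1 / 2, -1 / 2⟩, k1 := (1, 0), k2 := (-1, 0), r1 := (-1, 2, 1, -1), r2 := (-1, 0, 2, 0), L1 := (0, 0, 0, -1), L2 := (-1, 0, 0, 1), N1 := (0, 0, 1, 0), N2 := (0, 2, -1, 0), h := -2 }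
  l3 := { kind := true, s := ⟨-1 / 2, 0⟩, k1 := (1, 0), k2 := (-1, 1), r1 := (0, -1, -1, 1), r2 := (-1, 1, 0, 2), L1 := (0, 0, -1, 0), L2 := (0, 1, -1, 0), N1 := (-2, 0, 0, 6), N2 := (0, 0, 0, 2), h := -4 }
  al := ⟨63 / 20, 0⟩
  be := ⟨89 / 240, 0⟩

/-- t(1+1w)/2/3 A0 B10 C0 -/
def I2 : InstD where
  G0 := ((3, 0, 0, 0), (3, 4, 0, 0), (3, 0, 6, 0), (3, 0, 2, 4))
  G1 := ((0, 0, -2, 2), (-4, 0, -4, -4), (-6, -2, -4, -2), (2, 0, 2, 0))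
  G2 := ((0, -2, 0, 0), (4, 4, 0, 0), (-6, 0, -6, 0), (-6, -4, -2, -4))
  G3 := ((-3, -2, 0, 0), (1, 0, 0, 0), (-3, 0, -6, 0), (-3, 0, -2, -4))
  a := 1
  b := 1
  c := 6
  z0 := (-284256, 111672, 362016, 875448, -3051648, 971136)
  z1 := (-120736, -22368, 7712, 28256, 18048, -36096)
  z2 := (-36096, 72192, -2034432, 647424, -108288, 216576)
  z3 := (2256, 3948, -60336, -145908, 27072, -54144)
  l0 := { kind := false, s := ⟨2, -1⟩, k1 := (0, 0), k2 := (1, 0), r1 := (0, 0, 0, 1), r2 := (0, 0, -1, 2), L1 := (0, 0, 2, 1), L2 := (0, 0, -1, 0), N1 := (4, -3, 0, 0), N2 := (0, 3, 0, 0), h := 12 }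
  l1 := { kind := false, s := ⟨-2, 1⟩, k1 := (1, 0), k2 := (0, 0), r1 := (0, -1, 0, 0), r2 := (2, -3, -1, -1), L1 := (0, -1, 0, 3), L2 := (0, 0, 0, -1), N1 := (-2, 0, 3, 0), N2 := (6, 0, -3, 0), h := -12 }
  l2 := { kind := true, s := ⟨0, 1 / 2⟩, k1 := (1, 0), k2 := (-1, 0), r1 := (1, -1, -1, 0), r2 := (1, -2, -1, 1), L1 := (0, 0, -1, -1), L2 := (0, 0, 0, 1), N1 := (-4, 6, 0, 0), N2 := (0, -6, 0, 0), h := 24 }
  l3 := { kind := true, s := ⟨2, 1 / 2⟩, k1 := (6, 0), k2 := (-1, -1), r1 := (1, 0, -1, 0), r2 := (5, -6, -3, -1), L1 := (0, 0, -1, 3), L2 := (0, 0, 0, -1), N1 := (0, -12, 0, 0), N2 := (-12, 36, 0, 0), h := 144 }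
  al := ⟨111357 / 3760, 1233 / 752⟩
  be := ⟨24053 / 33840, -23761 / 67680⟩

/-- t(1+1w)/2/1 A7 B9 C5 -/
def I3 : InstD where
  G0 := ((2, 0, 0, 0), (2, 4, 0, 0), (0, 0, 2, 0), (0, 0, 0, 2))
  G1 := ((0, 0, 1, 3), (0, 0, -2, -2), (-6, -6, -3, -3), (2, 0, 2, 0))
  G2 := ((-4, -6, 0, 0), (4, 4, 0, 0), (-2, 0, -2, 0), (-2, -4, 0, -2))
  G3 := ((-6, -6, 0, 0), (2, 0, 0, 0), (0, 0, -2, 0), (0, 0, 0, -2))
  a := 1
  b := 1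
  c := 2
  z0 := (11520, -56800, 60160, -7520, -122880, 24320)
  z1 := (78960, 11280, -28800, 138240, 78960, 11280)
  z2 := (-65440, 53920, -122880, 24320, -52640, -7520)
  z3 := (-242640, -12960, -90240, 11280, 78960, 11280)
  l0 := { kind := false, s := ⟨-1, 0⟩, k1 := (0, 0), k2 := (1, 0), r1 := (0, 0, -1, 0), r2 := (0, 0, 0, -1), L1 := (0, 0, -1, 0), L2 := (0, 0, 0, -1), N1 := (4, -2, 0, 0), N2 := (0, 2, 0, 0), h := 8 }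
  l1 := { kind := true, s := ⟨2 / 3, -1 / 3⟩, k1 := (1, 0), k2 := (0, 0), r1 := (-1, 1, 0, 0), r2 := (1, 0, 0, 0), L1 := (0, 1, 0, 0), L2 := (1, 1, 0, 0), N1 := (0, 0, -2, 0), N2 := (0, 0, 0, -2), h := 4 }
  l2 := { kind := true, s := ⟨-2 / 3, 1 / 3⟩, k1 := (1, 0), k2 := (-1, 0), r1 := (1, -1, -1, 1), r2 := (-1, 0, 1, 1), L1 := (0, -1, 0, 0), L2 := (0, 1, 0, 1), N1 := (0, 0, 2, 0), N2 := (2, 0, -2, 0), h := -4 }
  l3 := { kind := true, s := ⟨-2 / 3, 1 / 3⟩, k1 := (2, 0), k2 := (-1, -1), r1 := (1, -1, 0, 1), r2 := (-1, 0, 3, -1), L1 := (0, -1, 0, 0), L2 := (0, -1, 0, -1), N1 := (0, 0, 4, 0), N2 := (-4, 0, 12, 0), h := -16 }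
  al := ⟨-19131 / 1880, 17127 / 1880⟩
  be := ⟨29 / 282, -173 / 141⟩

/-- t(1+1w)/2/1 A7 B1 C5 -/
def I4 : InstD where
  G0 := ((2, 0, 0, 0), (2, 4, 0, 0), (0, 0, 2, 0), (2, 0, 0, 4))
  G1 := ((3, 0, 1, 6), (-2, 0, -2, -4), (-9, -6, -3, -6), (2, 0, 2, 0))
  G2 := ((-4, -6, 0, 0), (4, 4, 0, 0), (-2, 0, -2, 0), (-4, -4, 0, -4))
  G3 := ((-6, -6, 0, 0), (2, 0, 0, 0), (0, 0, -2, 0), (-2, 0, 0, -4))
  a := 1
  b := 1
  c := 2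
  z0 := (602112, -305664, -39104, 303808, -752448, -123584)
  z1 := (-499704, 441048, -1402632, 846504, -18048, 36096)
  z2 := (-757248, 155136, -752448, -123584, 12032, -24064)
  z3 := (-698112, -677376, 58656, -455712, -18048, 36096)
  l0 := { kind := true, s := ⟨-1 / 3, -1 / 3⟩, k1 := (0, 0), k2 := (1, 0), r1 := (0, 0, -1, 0), r2 := (0, 0, -2, 1), L1 := (0, 0, -1, -2), L2 := (0, 0, 0, 1), N1 := (4, -2, 0, 0), N2 := (0, 2, 0, 0), h := 8 }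
  l1 := { kind := false, s := ⟨-2, 0⟩, k1 := (1, 0), k2 := (0, 0), r1 := (-2, 1, 0, 1), r2 := (0, -1, 0, 0), L1 := (0, 0, 0, 1), L2 := (0, -1, 0, 1), N1 := (0, 0, -2, 0), N2 := (-2, 0, 0, 0), h := 4 }
  l2 := { kind := true, s := ⟨-2 / 3, 1 / 3⟩, k1 := (1, 0), k2 := (-1, 0), r1 := (1, -1, -1, 0), r2 := (-1, 0, 1, 1), L1 := (0, 0, -1, 1), L2 := (0, 0, 0, 1), N1 := (-4, 4, 0, 0), N2 := (0, -2, 0, 0), h := 8 }
  l3 := { kind := true, s := ⟨2 / 3, -1 / 3⟩, k1 := (2, 0), k2 := (-1, -1), r1 := (-1, 1, 0, 0), r2 := (1, 0, -3, 0), L1 := (0, 1, 0, 0), L2 := (1, 1, 0, 0), N1 := (0, 0, -8, 0), N2 := (0, 0, 0, -4), h := 32 }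
  al := ⟨-78291 / 470, 5106 / 235⟩
  be := ⟨1033 / 6768, -1151 / 33840⟩

/-- t(1+1w)/2/1 A9 B9 C5 -/
def I5 : InstD where
  G0 := ((2, 0, 0, 0), (0, 2, 0, 0), (0, 0, 2, 0), (0, 0, 0, 2))
  G1 := ((0, 0, 1, 3), (0, 0, -2, -2), (-3, -3, -3, -3), (2, 0, 2, 0))
  G2 := ((-1, -3, 0, 0), (2, 2, 0, 0), (-2, 0, -2, 0), (0, -2, 0, -2))
  G3 := ((-3, -3, 0, 0), (2, 0, 0, 0), (0, 0, -2, 0), (0, 0, 0, -2))
  a := 1
  b := 1
  c := 2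
  z0 := (-11344, -21952, 28576, -752, 50816, -16512)
  z1 := (33276, 9588, -17136, -57168, -161022, -20586)
  z2 := (-13444, 24788, 50816, -16512, 107348, 13724)
  z3 := (-111546, 12762, -42864, 1128, -161022, -20586)
  l0 := { kind := false, s := ⟨-1, 0⟩, k1 := (0, 0), k2 := (1, 0), r1 := (0, 0, -1, 0), r2 := (0, 0, 0, -1), L1 := (0, 0, -1, 0), L2 := (0, 0, 0, -1), N1 := (2, 0, 0, 0), N2 := (0, 2, 0, 0), h := 4 }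
  l1 := { kind := false, s := ⟨-1, 0⟩, k1 := (1, 0), k2 := (0, 0), r1 := (-1, 0, 0, 0), r2 := (0, -1, 0, 0), L1 := (-1, 0, 0, 0), L2 := (0, -1, 0, 0), N1 := (0, 0, -2, 0), N2 := (0, 0, 0, -2), h := 4 }
  l2 := { kind := false, s := ⟨1, 0⟩, k1 := (1, 0), k2 := (-1, 0), r1 := (1, 0, -1, 0), r2 := (0, 1, 0, -1), L1 := (0, 0, -1, 0), L2 := (0, 0, 0, -1), N1 := (-2, 0, 0, 0), N2 := (0, -2, 0, 0), h := 4 }
  l3 := { kind := true, s := ⟨2 / 3, -1 / 3⟩, k1 := (2, 0), k2 := (-1, -1), r1 := (-1, 1, 0, -1), r2 := (1, 1, -3, 1), L1 := (-1, -1, -1, -1), L2 := (-1, -1, -1, 0), N1 := (0, -4, 4, 0), N2 := (2, -2, 0, 0), h := 8 }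
  al := ⟨1089 / 940, 1023 / 1880⟩
  be := ⟨35437 / 16920, 12911 / 16920⟩

/-- t(1+1w)/1/1 A10 B2 C5 -/
def I6 : InstD where
  G0 := ((1, 0, 0, 0), (0, 2, 0, 0), (1, 0, 2, 0), (2, 0, 0, 4))
  G1 := ((8, 0, 4, 12), (-4, 0, -4, -4), (-12, -6, -6, -12), (4, 0, 4, 0))
  G2 := ((-2, -6, 0, 0), (2, 2, 0, 0), (-2, 0, -2, 0), (-2, -2, 0, -4))
  G3 := ((-3, -6, 0, 0), (2, 0, 0, 0), (-1, 0, -2, 0), (-2, 0, 0, -4))
  a := 1
  b := 1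
  c := 1
  z0 := (-14660, -16300, -42300, -14100, -87760, 8400)
  z1 := (-5414400, 0, -3899520, 6318720, -270720, 270720)
  z2 := (495360, 136960, -351040, 33600, 45120, -45120)
  z3 := (-1437480, 263880, 253800, 84600, -67680, 67680)
  l0 := { kind := true, s := ⟨-1 / 3, -1 / 3⟩, k1 := (0, 0), k2 := (1, 0), r1 := (0, 0, -1, 0), r2 := (0, 0, -2, 1), L1 := (0, 0, -1, -2), L2 := (0, 0, 0, 1), N1 := (2, 0, 0, 0), N2 := (0, 1, 0, 0), h := 2 }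
  l1 := { kind := false, s := ⟨-1, 0⟩, k1 := (1, 0), k2 := (0, 0), r1 := (-2, 0, 1, 1), r2 := (0, -1, 0, 0), L1 := (0, 0, 0, 1), L2 := (0, -1, 0, 0), N1 := (0, 0, 2, 0), N2 := (2, 0, -1, 0), h := -4 }
  l2 := { kind := false, s := ⟨-1 / 2, 1 / 2⟩, k1 := (1, 0), k2 := (-1, 0), r1 := (1, -1, -1, 0), r2 := (3, -1, -3, -1), L1 := (0, 0, -1, 3), L2 := (0, 0, 0, -1), N1 := (-2, 2, 0, 0), N2 := (0, -2, 0, 0), h := 4 }
  l3 := { kind := true, s := ⟨-1 / 6, -1 / 6⟩, k1 := (1, 0), k2 := (-1, -1), r1 := (-1, 0, 2, 0), r2 := (-2, 1, 1, 0), L1 := (-1, -2, 0, 0), L2 := (0, 1, 0, 0), N1 := (0, 0, -4, 0), N2 := (0, 0, 0, -2), h := 8 }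
  al := ⟨-25323 / 940, 4839 / 1880⟩
  be := ⟨-2551 / 6768, 6469 / 33840⟩

/-- t(0+1w)/2/1 A2 B0 C5 -/
def I7 : InstD where
  G0 := ((2, 0, 0, 0), (0, 4, 0, 0), (0, 0, 4, 0), (0, 0, 0, 4))
  G1 := ((0, 0, 0, 6), (0, 0, -4, -6), (-2, -6, -4, -6), (2, 2, 4, 2))
  G2 := ((0, -6, 0, 0), (2, 6, 0, 0), (-2, 0, -4, 0), (0, -4, 0, -4))
  G3 := ((-2, -6, 0, 0), (2, 2, 0, 0), (0, 0, -4, 0), (0, 0, 0, -4))
  a := 0
  b := 1
  c := 2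
  z0 := (2165888, -196736, 285184, 1201152, -679808, -354944)
  z1 := (-5405184, 1672128, -1552128, -144384, -1552128, 532416)
  z2 := (-885312, -2215296, -1019712, -532416, 1552128, -532416)
  z3 := (1969152, -689024, -285184, -1201152, -1034752, 354944)
  l0 := { kind := false, s := ⟨-2, 0⟩, k1 := (0, 0), k2 := (1, 0), r1 := (0, 0, -1, 0), r2 := (0, 0, 0, -1), L1 := (0, 0, -1, 0), L2 := (0, 0, 0, -1), N1 := (4, 0, 0, 0), N2 := (0, 2, 0, 0), h := 8 }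
  l1 := { kind := true, s := ⟨-1 / 3, -1 / 3⟩, k1 := (1, 0), k2 := (0, 0), r1 := (-1, 0, 0, 0), r2 := (-2, 1, 0, 0), L1 := (-1, -2, 0, 0), L2 := (0, 1, 0, 0), N1 := (0, 0, -4, 0), N2 := (0, 0, 0, -4), h := 16 }
  l2 := { kind := false, s := ⟨2, 0⟩, k1 := (1, 0), k2 := (-1, 0), r1 := (2, 0, -1, 0), r2 := (0, 1, 0, -1), L1 := (0, 0, -1, 0), L2 := (0, 0, 0, -1), N1 := (-4, 0, 0, 0), N2 := (0, -2, 0, 0), h := 8 }
  l3 := { kind := false, s := ⟨1, -1⟩, k1 := (2, 0), k2 := (0, -1), r1 := (-1, 1, -1, 0), r2 := (-3, 1, 0, -1), L1 := (0, 0, -1, 0), L2 := (0, 0, 0, -1), N1 := (4, -4, 0, 0), N2 := (12, -4, 0, 0), h := 32 }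
  al := ⟨24147 / 470, -1557 / 47⟩
  be := ⟨-24475 / 13536, 1903 / 5640⟩

/-- t(1+1w)/1/1 A10 B2 C3 -/
def I8 : InstD where
  G0 := ((1, 0, 0, 0), (0, 2, 0, 0), (3, 0, 6, 0), (2, 0, 0, 4))
  G1 := ((12, 0, 12, 12), (-8, 0, -12, -4), (-18, -6, -18, -12), (8, 0, 12, 0))
  G2 := ((-2, -6, 0, 0), (2, 2, 0, 0), (-4, 0, -6, 0), (-2, -2, 0, -4))
  G3 := ((-3, -6, 0, 0), (2, 0, 0, 0), (-3, 0, -6, 0), (-2, 0, 0, -4))
  a := 1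
  b := 1
  c := 1
  z0 := (6204, -3948, -330804, 270468, -27072, 54144)
  z1 := (-5792256, 27412992, 13644288, 1949184, -20279808, -3884544)
  z2 := (-36096, 72192, -108288, 216576, 3379968, 647424)
  z3 := (-172584, -111672, 1984824, -1622808, -5069952, -971136)
  l0 := { kind := false, s := ⟨-1, -1⟩, k1 := (0, 0), k2 := (1, 0), r1 := (0, 0, -1, 1), r2 := (0, 0, -1, 0), L1 := (0, 0, 0, 1), L2 := (0, 0, -1, -1), N1 := (2, 0, 0, 0), N2 := (0, 1, 0, 0), h := 2 }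
  l1 := { kind := false, s := ⟨-1, 0⟩, k1 := (1, 0), k2 := (0, 0), r1 := (-2, 0, 1, 1), r2 := (0, -1, 0, 0), L1 := (0, 0, 0, 1), L2 := (0, -1, 0, 0), N1 := (0, 0, 2, 0), N2 := (6, 0, -3, 0), h := -12 }
  l2 := { kind := true, s := ⟨1 / 2, -1 / 2⟩, k1 := (1, 0), k2 := (-1, 0), r1 := (-3, 1, 2, 1), r2 := (0, 2, 0, -1), L1 := (-1, 0, -1, 0), L2 := (-1, 0, -1, -1), N1 := (2, -2, -2, 0), N2 := (0, -2, 0, 0), h := 4 }
  l3 := { kind := true, s := ⟨1 / 6, 1 / 6⟩, k1 := (1, 0), k2 := (-1, -1), r1 := (1, 0, -1, 0), r2 := (2, -1, -1, 0), L1 := (0, 1, -1, 0), L2 := (0, -1, 0, 0), N1 := (-4, 0, 0, 0), N2 := (0, 0, 0, -6), h := 24 }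
  al := ⟨212499 / 3760, -9279 / 3760⟩
  be := ⟨29221 / 22560, 4337 / 13536⟩

/-- s(1-1w)/4/1 A0 B1 C3 -/
def S1 : MoveD where
  G := ((2, 0, 0, 0), (2, 4, 0, 0), (6, 0, 12, 0), (2, 0, 0, 4))
  G' := ((-2, -3, 0, 0), (2, 2, 0, 0), (-3, 0, -3, -3), (4, 0, 6, 2))
  a := 1
  b := -1
  c := 4
  z := (-5847552, 866304, -1253376, 1078272, 2743296, -72192)
  z' := (-82062, -9306, -31536, 11952, 33276, 9588)

/-- s(1+0w)/2/1 A1 B0 C3 -/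
def S2 : MoveD where
  G := ((2, 0, 0, 0), (0, 4, 0, 0), (6, 0, 12, 0), (0, 0, 0, 4))
  G' := ((1, 0, 0, 0), (0, 2, 0, 0), (3, 0, 6, 0), (0, 0, 0, 2))
  a := 1
  b := 0
  c := 2
  z := (-5251968, -595584, -8060544, 5240448, -2743296, 72192)
  z' := (82062, 9306, 125946, -81882, 42864, -1128)

/-- s(1-1w)/2/1 A1 B11 C1 -/
def S3 : MoveD where
  G := ((1, 0, 0, 0), (1, 2, 0, 0), (2, 0, 6, 0), (2, 2, 2, 4))
  G' := ((-2, -3, 0, 0), (2, 2, 0, 0), (-4, -3, -6, -6), (4, 2, 8, 4))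
  a := 1
  b := -1
  c := 2
  z := (90240, -11280, 0, 0, 54720, 55440)
  z' := (78960, 11280, 0, 0, -14400, 69120)

/-- s(-1-1w)/2/3 A0 B1 C0 -/
def S4 : MoveD where
  G := ((6, 0, 0, 0), (2, 4, 0, 0), (6, 0, 12, 0), (2, 0, 0, 4))
  G' := ((-4, -2, 0, 0), (2, 0, 0, 0), (-4, 0, -6, -2), (2, 0, 4, 0))
  a := -1
  b := -1
  c := 6
  z := (15455232, -10381824, 0, 0, 0, 0)
  z' := (-60352, -35776, 0, 0, 0, 0)

/-- s(1-1w)/2/1 A0 B9 C1 -/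
def S5 : MoveD where
  G := ((2, 0, 0, 0), (2, 4, 0, 0), (4, 0, 6, 0), (0, 0, 2, 4))
  G' := ((-4, -6, 0, 0), (4, 4, 0, 0), (-2, 0, -6, -6), (4, 0, 8, 4))
  a := 1
  b := -1
  c := 2
  z := (-2707200, 676800, 0, 0, 0, 0)
  z' := (-2707200, 0, 0, 0, 0, 0)

/-- s(1-1w)/2/1 A0 B10 C0 -/
def S6 : MoveD where
  G := ((3, 0, 0, 0), (3, 4, 0, 0), (3, 0, 6, 0), (3, 0, 2, 4))
  G' := ((-6, -6, 0, 0), (6, 4, 0, 0), (-6, 0, -6, -6), (6, 0, 8, 4))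
  a := 1
  b := -1
  c := 2
  z := (646272, 763776, 0, 0, 0, 0)
  z' := (-279072, 925344, 0, 0, 0, 0)

/-- s(1+0w)/2/1 A1 B2 C4 -/
def S7 : MoveD where
  G := ((6, 0, 0, 0), (0, 2, 0, 0), (2, 2, 4, 0), (0, 0, 0, 4))
  G' := ((3, 0, 0, 0), (0, 1, 0, 0), (1, 1, 2, 0), (0, 0, 0, 2))
  a := 1
  b := 0
  c := 2
  z := (-460224, 920448, 1164096, 243648, -1407744, 243648)
  z' := (7191, -14382, -18189, -3807, 21996, -3807)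

/-- s(1-1w)/2/1 A1 B9 C0 -/
def S8 : MoveD where
  G := ((6, 0, 0, 0), (0, 2, 0, 0), (0, 0, 6, 0), (2, 2, 2, 4))
  G' := ((-3, -3, 0, 0), (6, 2, 0, 0), (-3, -3, -6, -6), (2, 2, 8, 4))
  a := 1
  b := -1
  c := 2
  z := (393984, 5190912, 0, 0, 0, 0)
  z' := (-4895424, 5289408, 0, 0, 0, 0)

/-- s(-1-1w)/2/3 A1 B2 C0 -/
def S9 : MoveD where
  G := ((6, 0, 0, 0), (0, 2, 0, 0), (6, 6, 12, 0), (0, 0, 0, 4))
  G' := ((-3, -1, 0, 0), (2, 0, 0, 0), (-3, -3, -6, -2), (2, 2, 4, 0))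
  a := -1
  b := -1
  c := 6
  z := (-1112832, -9732096, 4617216, 4866048, -3504384, 4866048)
  z' := (-92688, 2576, 55744, -10688, 36944, 8112)

/-- s(-2+1w)/2/3 A1 B0 C0 -/
def S10 : MoveD where
  G := ((6, 0, 0, 0), (0, 4, 0, 0), (6, 0, 12, 0), (0, 0, 0, 4))
  G' := ((0, 2, 0, 0), (-2, -2, 0, 0), (0, 0, 0, 2), (-2, 0, -4, -2))
  a := -2
  b := 1
  c := 6
  z := (-16892928, 4548096, 0, 0, 0, 0)
  z' := (-42112, -28576, 0, 0, 0, 0)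

/-- s(-1-1w)/2/1 A0 B1 C5 -/
def S11 : MoveD where
  G := ((2, 0, 0, 0), (2, 4, 0, 0), (2, 0, 4, 0), (2, 0, 0, 4))
  G' := ((-6, -6, 0, 0), (2, 0, 0, 0), (-6, 0, -6, -6), (2, 0, 4, 0))
  a := -1
  b := -1
  c := 2
  z := (3624448, -923136, 0, 0, 0, 0)
  z' := (-114912, -6116256, 0, 0, 0, 0)

/-- s(1+0w)/2/1 A0 B0 C1 -/
def S12 : MoveD where
  G := ((4, 0, 0, 0), (0, 4, 0, 0), (8, 0, 12, 0), (0, 0, 0, 4))
  G' := ((2, 0, 0, 0), (0, 2, 0, 0), (4, 0, 6, 0), (0, 0, 0, 2))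
  a := 1
  b := 0
  c := 2
  z := (-10828800, 0, 0, 0, 0, 0)
  z' := (169200, 0, 0, 0, 0, 0)

/-- s(-1-1w)/2/1 A1 B0 C5 -/
def S13 : MoveD where
  G := ((2, 0, 0, 0), (0, 4, 0, 0), (2, 0, 4, 0), (0, 0, 0, 4))
  G' := ((-3, -6, 0, 0), (2, 0, 0, 0), (-3, 0, -6, -6), (2, 0, 4, 0))
  a := -1
  b := -1
  c := 2
  z := (4029952, 37376, 0, 0, 0, 0)
  z' := (7052832, -6800544, 0, 0, 0, 0)

/-- s(1-1w)/2/1 A1 B9 C3 -/
def S14 : MoveD where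
  G := ((2, 0, 0, 0), (0, 2, 0, 0), (0, 0, 6, 0), (2, 2, 2, 4))
  G' := ((-1, -3, 0, 0), (2, 2, 0, 0), (-3, -3, -6, -6), (2, 2, 8, 4))
  a := 1
  b := -1
  c := 2
  z := (216576, -433152, -726912, -539136, -18048, 36096)
  z' := (595584, -379008, -6048, -720864, -49632, 31584)

/-- the four-term relations -/
def insts : List InstD := [I1, I2, I3, I4, I5, I6, I7, I8]

/-- the scalar moves -/
def moves : List MoveD := [S1, S2, S3, S4, S5, S6, S7, S8, S9, S10, S11, S12, S13, S14]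

end Pool.Agent.Lib.BM.Cm
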