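import Pool.Agent.Lib.BM.CmData

set_option autoImplicit false

/-!
# BM.CmDataChk: the certificate data pass the checks
-/

namespace Pool.Agent.Lib.BM.Cm

theorem chk_insts : insts.all (chkInst CC) = true := by decide +kernel

theorem chk_moves : moves.all (chkMove CC) = true := by decide +kernel

/-- the sum of all symbols of the instances -/
noncomputable def instSum (C : ℤ) (D : InstD) : ℂ :=
  SS (Mset D.G0) (qz C D.z0) + SS (Mset D.G1) (qz C D.z1) + SS (Mset D.G2) (qz C D.z2) +
      SS (Mset D.G3) (qz C D.z3)

noncomputable def moveSum (C : ℤ) (D : MoveD) : ℂ :=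
  SS (Mset D.G) (qz C D.z) + SS (Mset D.G') (qz C D.z')

def sumQ (f : InstD → Qw) : List InstD → Qw
  | [] => ⟨0, 0⟩
  | D :: L => f D + sumQ f L

lemma instSum_all (hF : StF3) {C : ℤ} (L : List InstD) (h : L.all (chkInst C) = true) :
    (L.map (instSum C)).sum = evq (sumQ InstD.al L) * KS OO + evq (sumQ InstD.be L) * KS Lam0 := by
  induction L with
  | nil =>
    have e : evq ⟨0, 0⟩ = 0 := evq_K0
    simp [sumQ, e]
  | cons D L ih =>
    rw [List.all_cons, Bool.and_eq_true] at h
    rw [List.map_cons, List.sum_cons, ih h.2]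
    show instSum C D + _ = evq (D.al + sumQ InstD.al L) * _ + evq (D.be + sumQ InstD.be L) * _
    rw [evq_add, evq_add]
    have e := inst_of_check hF h.1
    unfold instSum
    linear_combination e

lemma moveSum_all {C : ℤ} (L : List MoveD) (h : L.all (chkMove C) = true) :
    (L.map (moveSum C)).sum = 0 := by
  induction L with
  | nil => simp
  | cons D L ih =>
    rw [List.all_cons, Bool.and_eq_true] at h
    rw [List.map_cons, List.sum_cons, ih h.2, add_zero]
    exact move_of_check h.1

theorem sum_al : sumQ InstD.al insts = ⟨-495 / 8, 0⟩ := by decide +kernel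

theorem sum_be : sumQ InstD.be insts = ⟨61 / 24, 0⟩ := by decide +kernel

/-- the value of the sum of all instances -/
theorem insts_value (hF : StF3) :
    (insts.map (instSum CC)).sum = (-495 / 8 : ℂ) * KS OO + (61 / 24 : ℂ) * KS Lam0 := by
  rw [instSum_all hF insts chk_insts, sum_al, sum_be]
  have e1 : evq ⟨-495 / 8, 0⟩ = (-495 / 8 : ℂ) := by unfold evq; push_cast; ring
  have e2 : evq ⟨61 / 24, 0⟩ = (61 / 24 : ℂ) := by unfold evq; push_cast; ring
  rw [e1, e2]

/-- the scalar moves -/
theorem moves_value : (moves.map (moveSum CC)).sum = 0 := moveSum_all moves chk_moves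

end Pool.Agent.Lib.BM.Cm
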