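import Pool.Agent.Lib.BM.CmFrame

set_option autoImplicit false

/-!
# BM.CmDefs: lattice sums of the cochains

`Lam0 = ℤ τ₀ + ℤ`, `KK = ℚ(√-15)`, `SS M q = ∑_{v ∈ M} D_q (v)`, `KS J = ∑_{t ∈ J} t^-4 conj(t)^-2`.
-/

namespace Pool.Agent.Lib.BM.Cm

noncomputable section

/-- The lattice `Λ = ℤ τ₀ + ℤ`. -/
def Lam0 : Set ℂ := {z | ∃ m n : ℤ, z = m * tau0 + n}

/-- The field `ℚ(√-15)` in `ℂ`. -/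
def KK : Set ℂ := {z | ∃ a b c : ℤ, c ≠ 0 ∧ (c : ℂ) * z = a + b * w15}

/-- A set of vectors contained in a multiple of `Λ × Λ`. -/
def Nice (M : Set (ℂ × ℂ)) : Prop :=
  ∃ c : ℤ, c ≠ 0 ∧ ∀ v ∈ M, (c : ℂ) * v.1 ∈ Lam0 ∧ (c : ℂ) * v.2 ∈ Lam0

/-- A set of numbers contained in a multiple of `Λ`. -/
def Nice1 (J : Set ℂ) : Prop := ∃ c : ℤ, c ≠ 0 ∧ ∀ t ∈ J, (c : ℂ) * t ∈ Lam0

/-- The depth two sum. -/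
def SS (M : Set (ℂ × ℂ)) (q : ℂ × ℂ × ℂ) : ℂ := ∑' v : M, Dst q v

/-- The depth one sum. -/
def KS (J : Set ℂ) : ℂ := ∑' t : J, kap t

/-- The three changes of variables of the four-term relation with fourth form `d`. -/
def g1 (d v : ℂ × ℂ) : ℂ × ℂ := ((d.1 - d.2) * v.2, -(d.1 * (v.1 + v.2)))
def g2 (d v : ℂ × ℂ) : ℂ × ℂ := ((d.2 - d.1) * v.1, -(d.2 * (v.1 + v.2)))
def g3 (d v : ℂ × ℂ) : ℂ × ℂ := (-(d.1 * v.1), -(d.2 * v.2))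

/-- The value `P (d,d)` -/
def qd (q : ℂ × ℂ × ℂ) (d : ℂ × ℂ) : ℂ :=
  q.1 * d.1 ^ 2 + (q.2.2 - q.1 - q.2.1) * (d.1 * d.2) + q.2.1 * d.2 ^ 2

def q1 (q : ℂ × ℂ × ℂ) (d : ℂ × ℂ) : ℂ × ℂ × ℂ :=
  ((d.1 - d.2) ^ 2 * q.2.1, d.1 ^ 2 * q.2.2, qd q d)
def q2 (q : ℂ × ℂ × ℂ) (d : ℂ × ℂ) : ℂ × ℂ × ℂ :=
  ((d.2 - d.1) ^ 2 * q.1, d.2 ^ 2 * q.2.2, qd q d)
def q3 (q : ℂ × ℂ × ℂ) (d : ℂ × ℂ) : ℂ × ℂ × ℂ :=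
  (d.1 ^ 2 * q.1, d.2 ^ 2 * q.2.1, qd q d)

/-- `z conj z` -/
def nn (z : ℂ) : ℂ := z * (starRingEnd ℂ) z

end

/-- (F3) absolute convergence -/
def StF3 : Prop := (∀ M : Set (ℂ × ℂ), Nice M → ∀ q, Summable (fun v : M => Dst q v)) ∧
  ∀ J : Set ℂ, Nice1 J → Summable (fun t : J => kap t)

/-- (F5) the summed four-term relation -/
def StF5 : Prop := ∀ (M : Set (ℂ × ℂ)) (q : ℂ × ℂ × ℂ) (d : ℂ × ℂ), Nice M → d.1 ∈ KK → d.2 ∈ KK →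
  d.1 ≠ 0 → d.2 ≠ 0 → d.1 ≠ d.2 →
  nn (d.1 * (d.1 - d.2)) * SS (g1 d '' M) (q1 q d) - nn (d.2 * (d.1 - d.2)) * SS (g2 d '' M) (q2 q d) +
    nn (d.1 * d.2) * SS (g3 d '' M) (q3 q d) - SS M q =
  Dc (Pq q) e2 e3 d (0, 1) * KS {t | ((0 : ℂ), t) ∈ M} -
    Dc (Pq q) e1 e3 d (1, 0) * KS {t | (t, (0 : ℂ)) ∈ M} +
    Dc (Pq q) e1 e2 d (1, -1) * KS {t | (t, -t) ∈ M} -
    Dc (Pq q) e1 e2 e3 (d.2, -d.1) * KS {t | (t * d.2, -(t * d.1)) ∈ M}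

end Pool.Agent.Lib.BM.Cm
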