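import Pool.Agent.Lib.BM.EtaSums

/-! # `L(f_{3,15}, 4)` as a combination of two lattice sums -/

set_option autoImplicit false

open Filter Topology MeasureTheory Set

namespace Pool.Agent.Lib.BM.Eta

/-! ### summability on `ℤ × ℤ` -/

lemma summable_inv_one_add_sq : Summable fun x : ℤ => 1 / (1 + (x : ℝ) ^ 2) := by
  have h := (Real.summable_one_div_int_pow (p := 2)).2 (by norm_num)
  have h2 : Summable fun x : ℤ => 1 / |(x : ℝ)| ^ 2 := by simpa using h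
  refine Summable.of_norm_bounded_eventually (g := fun x : ℤ => 1 / (x : ℝ) ^ 2) h ?_
  have : ∀ᶠ x : ℤ in cofinite, x ≠ 0 := by
    simp only [ne_eq, eventually_cofinite, not_not]
    exact Set.finite_singleton 0
  filter_upwards [this] with x hx
  have hx' : (x : ℝ) ≠ 0 := by exact_mod_cast hx
  have hx2 : 0 < (x : ℝ) ^ 2 := by positivity
  rw [Real.norm_of_nonneg (by positivity)]
  exact one_div_le_one_div_of_le hx2 (by linarith)

lemma summable_prod_inv : Summable fun p : ℤ × ℤ => 1 / ((1 + (p.1 : ℝ) ^ 2) * (1 + (p.2 : ℝ) ^ 2)) := by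
  have := summable_inv_one_add_sq.mul_of_nonneg summable_inv_one_add_sq
    (fun x => by positivity) (fun x => by positivity)
  refine this.congr fun p => ?_
  rw [one_div_mul_one_div]

/-- If `|F p| (x²+y²)² ≤ C` then `F` is summable. -/
lemma summable_of_bound {E : Type*} [NormedAddCommGroup E] [CompleteSpace E] (F : ℤ × ℤ → E) (C : ℝ)
    (h : ∀ p : ℤ × ℤ, p ≠ 0 → ‖F p‖ * ((p.1 : ℝ) ^ 2 + (p.2 : ℝ) ^ 2) ^ 2 ≤ C) : Summable F := by
  refine Summable.of_norm_bounded_eventually (g := fun p : ℤ × ℤ =>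
    4 * C * (1 / ((1 + (p.1 : ℝ) ^ 2) * (1 + (p.2 : ℝ) ^ 2)))) (summable_prod_inv.mul_left _) ?_
  have : ∀ᶠ p : ℤ × ℤ in cofinite, p ≠ 0 := by
    simp only [ne_eq, eventually_cofinite, not_not]
    exact Set.finite_singleton 0
  filter_upwards [this] with p hp
  have h1 := h p hp
  have hr : (1 : ℝ) ≤ (p.1 : ℝ) ^ 2 + (p.2 : ℝ) ^ 2 := by
    have : 1 ≤ p.1 ^ 2 + p.2 ^ 2 := by
      rcases eq_or_ne p.1 0 with h | h
      · have h' : p.2 ≠ 0 := fun h' => hp (Prod.ext h h')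
        have := Int.one_le_abs h'
        nlinarith [sq_abs p.2, sq_nonneg p.1]
      · have := Int.one_le_abs h
        nlinarith [sq_abs p.1, sq_nonneg p.2]
    exact_mod_cast this
  set s : ℝ := (p.1 : ℝ) ^ 2 + (p.2 : ℝ) ^ 2 with hs
  have hprod : (1 + (p.1 : ℝ) ^ 2) * (1 + (p.2 : ℝ) ^ 2) ≤ 4 * s ^ 2 := by
    have a1 : (1 + (p.1 : ℝ) ^ 2) ≤ 2 * s := by nlinarith [sq_nonneg (p.2 : ℝ)]
    have a2 : (1 + (p.2 : ℝ) ^ 2) ≤ 2 * s := by nlinarith [sq_nonneg (p.1 : ℝ)]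
    calc _ ≤ (2 * s) * (2 * s) := mul_le_mul a1 a2 (by positivity) (by linarith)
      _ = 4 * s ^ 2 := by ring
  have hpos : 0 < (1 + (p.1 : ℝ) ^ 2) * (1 + (p.2 : ℝ) ^ 2) := by positivity
  rw [mul_one_div, le_div_iff₀ hpos]
  calc ‖F p‖ * ((1 + (p.1 : ℝ) ^ 2) * (1 + (p.2 : ℝ) ^ 2)) ≤ ‖F p‖ * (4 * s ^ 2) :=
        mul_le_mul_of_nonneg_left hprod (norm_nonneg _)
    _ = 4 * (‖F p‖ * s ^ 2) := by ring
    _ ≤ 4 * C := by linarith

/-- the odd kernel `ab / (A a² + B b²)^4` -/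
noncomputable def gk (A B : ℝ) (p : ℤ × ℤ) : ℝ :=
  (p.1 : ℝ) * p.2 / (A * (p.1 : ℝ) ^ 2 + B * (p.2 : ℝ) ^ 2) ^ 4

lemma summable_gk {A B : ℝ} (hA : 1 ≤ A) (hB : 1 ≤ B) : Summable (gk A B) := by
  apply summable_of_bound _ 1
  intro p hp
  unfold gk
  have hr : (1 : ℝ) ≤ (p.1 : ℝ) ^ 2 + (p.2 : ℝ) ^ 2 := by
    have : 1 ≤ p.1 ^ 2 + p.2 ^ 2 := by
      rcases eq_or_ne p.1 0 with h | h
      · have h' : p.2 ≠ 0 := fun h' => hp (Prod.ext h h')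
        have := Int.one_le_abs h'
        nlinarith [sq_abs p.2, sq_nonneg p.1]
      · have := Int.one_le_abs h
        nlinarith [sq_abs p.1, sq_nonneg p.2]
    exact_mod_cast this
  set s : ℝ := (p.1 : ℝ) ^ 2 + (p.2 : ℝ) ^ 2 with hs
  set Q : ℝ := A * (p.1 : ℝ) ^ 2 + B * (p.2 : ℝ) ^ 2 with hQ
  have hsQ : s ≤ Q := by
    rw [hs, hQ]
    nlinarith [mul_le_mul_of_nonneg_right hA (sq_nonneg (p.1 : ℝ)),
      mul_le_mul_of_nonneg_right hB (sq_nonneg (p.2 : ℝ))]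
  have hQ0 : 0 < Q := by linarith
  have hab : |(p.1 : ℝ) * p.2| ≤ s := by
    rw [abs_le]
    constructor <;> nlinarith [sq_nonneg ((p.1 : ℝ) - p.2), sq_nonneg ((p.1 : ℝ) + p.2)]
  rw [Real.norm_eq_abs, abs_div, abs_of_nonneg (by positivity : 0 ≤ Q ^ 4), div_mul_eq_mul_div,
    div_le_one (by positivity)]
  calc |(p.1 : ℝ) * p.2| * s ^ 2 ≤ s * s ^ 2 := mul_le_mul_of_nonneg_right hab (by positivity)
    _ = s ^ 3 * 1 := by ring
    _ ≤ Q ^ 3 * Q := mul_le_mul (pow_le_pow_left₀ (by linarith) hsQ 3) (by linarith) zero_le_one (by positivity)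
    _ = Q ^ 4 := by ring

lemma gk_neg (A B : ℝ) (a b : ℤ) : gk A B (a, -b) = -gk A B (a, b) := by
  unfold gk
  push_cast
  ring

/-- indicator of the lattice `a ≡ e b mod 4` -/
noncomputable def ind (e : ℤ) (p : ℤ × ℤ) : ℝ := if (4 : ℤ) ∣ p.1 - e * p.2 then 1 else 0

lemma abs_ind_le (e : ℤ) (p : ℤ × ℤ) : |ind e p| ≤ 1 := by
  unfold ind; split_ifs <;> simp

lemma summable_ind_gk {A B : ℝ} (hA : 1 ≤ A) (hB : 1 ≤ B) (e : ℤ) :
    Summable fun p => ind e p * gk A B p := by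
  refine Summable.of_norm_bounded (summable_gk hA hB).norm fun p => ?_
  rw [norm_mul, Real.norm_eq_abs (ind e p)]
  exact mul_le_of_le_one_left (norm_nonneg _) (abs_ind_le e p)

/-- the involution `b ↦ -b`. -/
def negSnd : ℤ × ℤ ≃ ℤ × ℤ := (Equiv.refl ℤ).prodCongr (Equiv.neg ℤ)

lemma tsum_ind_neg (A B : ℝ) (e : ℤ) :
    ∑' p : ℤ × ℤ, ind e (p.1, -p.2) * gk A B p = -∑' p : ℤ × ℤ, ind e p * gk A B p := by
  rw [← negSnd.tsum_eq, ← tsum_neg]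
  apply tsum_congr
  rintro ⟨a, b⟩
  simp only [negSnd, Equiv.prodCongr_apply, Prod.map_apply, Equiv.refl_apply, Equiv.neg_apply, neg_neg]
  rw [gk_neg]
  ring

/-- For `e = ±1` and `a, b` odd: `e (I(a,b) - I(a,-b)) = χ(a) χ(b)`; in all other cases `0`. -/
lemma ind_sub_odd (e : ℤ) (he : e = 1 ∨ e = -1) (j k : ℤ) :
    (e : ℝ) * (ind e (2 * j + 1, 2 * k + 1) - ind e (2 * j + 1, -(2 * k + 1)))
      = (-1 : ℝ) ^ j * (-1 : ℝ) ^ k := by
  have hpar : ∀ j : ℤ, (-1 : ℝ) ^ j = if j % 2 = 0 then 1 else -1 := by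
    intro j
    rcases Int.even_or_odd j with h | h
    · rw [h.neg_one_zpow, if_pos (Int.even_iff.1 h)]
    · rw [h.neg_one_zpow, if_neg (by rw [Int.odd_iff.1 h]; norm_num)]
  rw [hpar, hpar]
  unfold ind
  simp only
  rcases he with rfl | rfl
  · have e1 : ((4 : ℤ) ∣ 2 * j + 1 - 1 * (2 * k + 1)) ↔ (j % 2 = k % 2) := by omega
    have e2 : ((4 : ℤ) ∣ 2 * j + 1 - 1 * -(2 * k + 1)) ↔ ¬ (j % 2 = k % 2) := by omega
    rw [if_congr e1 rfl rfl, if_congr e2 rfl rfl]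
    rcases Int.emod_two_eq_zero_or_one j with h | h <;>
      rcases Int.emod_two_eq_zero_or_one k with h' | h' <;> simp [h, h']
  · have e1 : ((4 : ℤ) ∣ 2 * j + 1 - -1 * (2 * k + 1)) ↔ ¬ (j % 2 = k % 2) := by omega
    have e2 : ((4 : ℤ) ∣ 2 * j + 1 - -1 * -(2 * k + 1)) ↔ (j % 2 = k % 2) := by omega
    rw [if_congr e1 rfl rfl, if_congr e2 rfl rfl]
    rcases Int.emod_two_eq_zero_or_one j with h | h <;>
      rcases Int.emod_two_eq_zero_or_one k with h' | h' <;> simp [h, h']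

lemma ind_sub_even (e : ℤ) (he : e = 1 ∨ e = -1) (a b : ℤ) (h : ¬ (a % 2 = 1 ∧ b % 2 = 1)) :
    ind e (a, b) - ind e (a, -b) = 0 := by
  unfold ind
  simp only
  have : ((4 : ℤ) ∣ a - e * b) ↔ ((4 : ℤ) ∣ a - e * -b) := by
    rcases he with rfl | rfl <;> omega
  rw [if_congr this rfl rfl, sub_self]

/-- the symmetric summand on `ℤ × ℤ`. -/
noncomputable def hk (A B : ℝ) (j k : ℤ) : ℝ :=
  ((-1 : ℝ) ^ j * (2 * j + 1)) * ((-1 : ℝ) ^ k * (2 * k + 1)) /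
    (A * (2 * (j : ℝ) + 1) ^ 2 + B * (2 * (k : ℝ) + 1) ^ 2) ^ 4

lemma neg_one_zpow_refl (n : ℕ) : (-1 : ℝ) ^ (-((n : ℤ) + 1)) = -(-1 : ℝ) ^ (n : ℤ) := by
  rw [zpow_neg, zpow_add_one₀ (by norm_num : (-1 : ℝ) ≠ 0), zpow_natCast]
  rcases neg_one_pow_eq_or ℝ n with h | h <;> rw [h] <;> norm_num

lemma hk_refl_left (A B : ℝ) (n : ℕ) (k : ℤ) : hk A B (-((n : ℤ) + 1)) k = hk A B n k := by
  unfold hk
  rw [neg_one_zpow_refl]
  have e : (2 * (((-((n : ℤ) + 1) : ℤ)) : ℝ) + 1) = -(2 * ((n : ℤ) : ℝ) + 1) := by push_cast; ring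
  rw [e, neg_sq]
  ring

lemma hk_refl_right (A B : ℝ) (j : ℤ) (n : ℕ) : hk A B j (-((n : ℤ) + 1)) = hk A B j n := by
  unfold hk
  rw [neg_one_zpow_refl]
  have e : (2 * (((-((n : ℤ) + 1) : ℤ)) : ℝ) + 1) = -(2 * ((n : ℤ) : ℝ) + 1) := by push_cast; ring
  rw [e, neg_sq]
  ring

lemma tsum_symm (f : ℤ → ℝ) (hf : Summable f) (h : ∀ n : ℕ, f (-((n : ℤ) + 1)) = f n) :
    ∑' j : ℤ, f j = 2 * ∑' n : ℕ, f n := by
  have s1 : Summable fun n : ℕ => f (n : ℤ) := hf.comp_injective Nat.cast_injective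
  rw [tsum_of_nat_of_neg_add_one s1 (by simpa only [h] using s1)]
  simp only [h]
  ring

/-- the double sum over odd positive pairs equals `(e/2)` times the lattice sum. -/
theorem odd_sum_eq {A B : ℝ} (hA : 1 ≤ A) (hB : 1 ≤ B) (e : ℤ) (he : e = 1 ∨ e = -1) :
    ∑' p : ℕ × ℕ, sg p.1 * sg p.2 / wt A B p ^ 4
      = (e : ℝ) / 2 * ∑' p : ℤ × ℤ, ind e p * gk A B p := by
  have sI := summable_ind_gk hA hB e
  have sI' : Summable fun p : ℤ × ℤ => ind e (p.1, -p.2) * gk A B p := by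
    refine Summable.of_norm_bounded (summable_gk hA hB).norm fun p => ?_
    rw [norm_mul, Real.norm_eq_abs (ind e _)]
    exact mul_le_of_le_one_left (norm_nonneg _) (abs_ind_le e _)
  -- the full sum with sign
  have h1 : ∑' p : ℤ × ℤ, (e : ℝ) * (ind e p - ind e (p.1, -p.2)) * gk A B p
      = 2 * (e : ℝ) * ∑' p : ℤ × ℤ, ind e p * gk A B p := by
    have : ∀ p : ℤ × ℤ, (e : ℝ) * (ind e p - ind e (p.1, -p.2)) * gk A B p
        = (e : ℝ) * (ind e p * gk A B p - ind e (p.1, -p.2) * gk A B p) := fun p => by ring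
    simp only [this]
    rw [tsum_mul_left, sI.tsum_sub sI', tsum_ind_neg]
    ring
  have sD : Summable fun p : ℤ × ℤ => (e : ℝ) * (ind e p - ind e (p.1, -p.2)) * gk A B p := by
    have := (sI.sub sI').mul_left (e : ℝ)
    refine this.congr fun p => by ring
  -- restrict to odd pairs
  set φ : ℤ × ℤ → ℤ × ℤ := fun p => (2 * p.1 + 1, 2 * p.2 + 1) with hφ
  have hinj : Function.Injective φ := by
    rintro ⟨a, b⟩ ⟨c, d⟩ h
    simp only [hφ, Prod.mk.injEq] at h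
    ext <;> simp <;> omega
  have hφval : ∀ p : ℤ × ℤ, (e : ℝ) * (ind e (φ p) - ind e ((φ p).1, -(φ p).2)) * gk A B (φ p)
      = hk A B p.1 p.2 := by
    rintro ⟨j, k⟩
    simp only [hφ]
    rw [ind_sub_odd e he]
    unfold gk hk
    push_cast
    ring
  have h2 : ∑' p : ℤ × ℤ, (e : ℝ) * (ind e p - ind e (p.1, -p.2)) * gk A B p
      = ∑' p : ℤ × ℤ, hk A B p.1 p.2 := by
    rw [← hinj.tsum_eq (f := fun p : ℤ × ℤ => (e : ℝ) * (ind e p - ind e (p.1, -p.2)) * gk A B p)]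
    · exact tsum_congr hφval
    · intro p hp
      rw [Function.mem_support] at hp
      by_contra hc
      apply hp
      have : ¬ (p.1 % 2 = 1 ∧ p.2 % 2 = 1) := by
        rintro ⟨q1, q2⟩
        apply hc
        exact ⟨(p.1 / 2, p.2 / 2), by simp only [hφ]; ext <;> simp <;> omega⟩
      have h0 := ind_sub_even e he p.1 p.2 this
      rw [show ind e p = ind e (p.1, p.2) from rfl, h0]
      ring
  have sH : Summable fun p : ℤ × ℤ => hk A B p.1 p.2 := by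
    have := sD.comp_injective hinj
    exact this.congr hφval
  have sH1 : ∀ j : ℤ, Summable fun k : ℤ => hk A B j k := fun j => sH.prod_factor j
  have sHs : Summable fun j : ℤ => ∑' k : ℤ, hk A B j k := sH.prod
  have h3 : ∑' p : ℤ × ℤ, hk A B p.1 p.2 = 4 * ∑' j : ℕ, ∑' k : ℕ, hk A B j k := by
    rw [sH.tsum_prod]
    rw [tsum_symm _ sHs (fun n => by simp only [hk_refl_left])]
    have : ∀ j : ℕ, ∑' k : ℤ, hk A B (j : ℤ) k = 2 * ∑' k : ℕ, hk A B (j : ℤ) (k : ℤ) :=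
      fun j => tsum_symm _ (sH1 j) (hk_refl_right A B j)
    simp only [this]
    rw [tsum_mul_left]
    ring
  have h4 : ∑' p : ℕ × ℕ, sg p.1 * sg p.2 / wt A B p ^ 4 = ∑' j : ℕ, ∑' k : ℕ, hk A B j k := by
    have hval : ∀ p : ℕ × ℕ, sg p.1 * sg p.2 / wt A B p ^ 4 = hk A B (p.1 : ℤ) (p.2 : ℤ) := by
      intro p
      unfold sg wt hk
      simp only [zpow_natCast, Int.cast_natCast]
    have hs : Summable fun p : ℕ × ℕ => hk A B (p.1 : ℤ) (p.2 : ℤ) := by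
      have := sH.comp_injective (i := fun p : ℕ × ℕ => ((p.1 : ℤ), (p.2 : ℤ))) (by
        rintro ⟨a, b⟩ ⟨c, d⟩ h
        simp only [Prod.mk.injEq, Nat.cast_inj] at h
        exact Prod.ext h.1 h.2)
      exact this
    rw [tsum_congr hval]
    exact hs.tsum_prod
  rw [h4]
  have := h1.symm.trans (h2.trans h3)
  linarith

/-! ### The two changes of variables -/

/-- first quadratic form: `|x + y w|²`, `w = (1+√-15)/2` -/
noncomputable def QA (p : ℤ × ℤ) : ℝ := (p.1 : ℝ) ^ 2 + p.1 * p.2 + 4 * (p.2 : ℝ) ^ 2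

/-- second quadratic form: `|m τ₀ + n|²`, `τ₀ = 1/2 + √-15/6` -/
noncomputable def QB (p : ℤ × ℤ) : ℝ := 2 / 3 * (p.1 : ℝ) ^ 2 + p.1 * p.2 + (p.2 : ℝ) ^ 2

lemma norm_le_QA (p : ℤ × ℤ) : ((p.1 : ℝ) ^ 2 + (p.2 : ℝ) ^ 2) ≤ 2 * QA p := by
  unfold QA
  nlinarith [sq_nonneg ((p.1 : ℝ) + p.2), sq_nonneg (p.2 : ℝ), sq_nonneg (p.1 : ℝ)]

lemma norm_le_QB (p : ℤ × ℤ) : ((p.1 : ℝ) ^ 2 + (p.2 : ℝ) ^ 2) ≤ 4 * QB p := by
  unfold QB
  nlinarith [sq_nonneg (10 * (p.1 : ℝ) + 12 * p.2), sq_nonneg (p.2 : ℝ), sq_nonneg (p.1 : ℝ)]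

/-- Numerator bound gives summability. -/
lemma summable_div_QA (f : ℤ × ℤ → ℝ) (c : ℝ) (hc : ∀ p, |f p| ≤ c * QA p) :
    Summable fun p => f p / QA p ^ 4 := by
  apply summable_of_bound _ (4 * |c|)
  intro p hp
  have hr : (1 : ℝ) ≤ (p.1 : ℝ) ^ 2 + (p.2 : ℝ) ^ 2 := by
    have : 1 ≤ p.1 ^ 2 + p.2 ^ 2 := by
      rcases eq_or_ne p.1 0 with h | h
      · have h' : p.2 ≠ 0 := fun h' => hp (Prod.ext h h')
        have := Int.one_le_abs h'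
        nlinarith [sq_abs p.2, sq_nonneg p.1]
      · have := Int.one_le_abs h
        nlinarith [sq_abs p.1, sq_nonneg p.2]
    exact_mod_cast this
  have h1 := norm_le_QA p
  set s : ℝ := (p.1 : ℝ) ^ 2 + (p.2 : ℝ) ^ 2
  have hQ : 0 < QA p := by linarith
  have hQi : (1 : ℝ) ≤ QA p := by
    have : (1 : ℤ) ≤ p.1 ^ 2 + p.1 * p.2 + 4 * p.2 ^ 2 := by
      have h0 : (0 : ℝ) < ((p.1 ^ 2 + p.1 * p.2 + 4 * p.2 ^ 2 : ℤ) : ℝ) := by
        push_cast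
        exact hQ
      have : (0 : ℤ) < p.1 ^ 2 + p.1 * p.2 + 4 * p.2 ^ 2 := by exact_mod_cast h0
      omega
    have h2 : ((1 : ℤ) : ℝ) ≤ ((p.1 ^ 2 + p.1 * p.2 + 4 * p.2 ^ 2 : ℤ) : ℝ) := by exact_mod_cast this
    unfold QA
    push_cast at h2
    exact h2
  rw [Real.norm_eq_abs, abs_div, abs_of_nonneg (by positivity : 0 ≤ QA p ^ 4), div_mul_eq_mul_div,
    div_le_iff₀ (by positivity)]
  have hcc : |f p| ≤ |c| * QA p := (hc p).trans (mul_le_mul_of_nonneg_right (le_abs_self c) hQ.le)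
  calc |f p| * s ^ 2 ≤ (|c| * QA p) * (2 * QA p) ^ 2 :=
        mul_le_mul hcc (pow_le_pow_left₀ (by linarith) h1 2) (by positivity)
          (mul_nonneg (abs_nonneg _) hQ.le)
    _ = 4 * |c| * (QA p ^ 3 * 1) := by ring
    _ ≤ 4 * |c| * (QA p ^ 3 * QA p) :=
        mul_le_mul_of_nonneg_left (mul_le_mul_of_nonneg_left hQi (by positivity)) (by positivity)
    _ = 4 * |c| * QA p ^ 4 := by ring

lemma summable_div_QB (f : ℤ × ℤ → ℝ) (c : ℝ) (hc : ∀ p, |f p| ≤ c * QB p) :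
    Summable fun p => f p / QB p ^ 4 := by
  apply summable_of_bound _ (64 * |c|)
  intro p hp
  have hr : (1 : ℝ) ≤ (p.1 : ℝ) ^ 2 + (p.2 : ℝ) ^ 2 := by
    have : 1 ≤ p.1 ^ 2 + p.2 ^ 2 := by
      rcases eq_or_ne p.1 0 with h | h
      · have h' : p.2 ≠ 0 := fun h' => hp (Prod.ext h h')
        have := Int.one_le_abs h'
        nlinarith [sq_abs p.2, sq_nonneg p.1]
      · have := Int.one_le_abs h
        nlinarith [sq_abs p.1, sq_nonneg p.2]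
    exact_mod_cast this
  have h1 := norm_le_QB p
  set s : ℝ := (p.1 : ℝ) ^ 2 + (p.2 : ℝ) ^ 2
  have hQ : 0 < QB p := by linarith
  have hQi : (1 : ℝ) / 4 ≤ QB p := by linarith
  rw [Real.norm_eq_abs, abs_div, abs_of_nonneg (by positivity : 0 ≤ QB p ^ 4), div_mul_eq_mul_div,
    div_le_iff₀ (by positivity)]
  have hcc : |f p| ≤ |c| * QB p := (hc p).trans (mul_le_mul_of_nonneg_right (le_abs_self c) hQ.le)
  calc |f p| * s ^ 2 ≤ (|c| * QB p) * (4 * QB p) ^ 2 :=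
        mul_le_mul hcc (pow_le_pow_left₀ (by linarith) h1 2) (by positivity)
          (mul_nonneg (abs_nonneg _) hQ.le)
    _ = 64 * |c| * (QB p ^ 3 * (1 / 4)) := by ring
    _ ≤ 64 * |c| * (QB p ^ 3 * QB p) :=
        mul_le_mul_of_nonneg_left (mul_le_mul_of_nonneg_left hQi (by positivity)) (by positivity)
    _ = 64 * |c| * QB p ^ 4 := by ring

/-- `K0` as a real series. -/
noncomputable def KA : ℝ :=
  ∑' p : ℤ × ℤ, ((p.1 : ℝ) ^ 2 + p.1 * p.2 - 7 / 2 * (p.2 : ℝ) ^ 2) / QA p ^ 4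

/-- `K1` as a real series. -/
noncomputable def KB : ℝ :=
  ∑' p : ℤ × ℤ, (-1 / 6 * (p.1 : ℝ) ^ 2 + p.1 * p.2 + (p.2 : ℝ) ^ 2) / QB p ^ 4

/-- conjugation `x + y w ↦ (x + y) - y w`. -/
def conjA : ℤ × ℤ ≃ ℤ × ℤ where
  toFun p := (p.1 + p.2, -p.2)
  invFun p := (p.1 + p.2, -p.2)
  left_inv p := by ext <;> simp
  right_inv p := by ext <;> simp

lemma QA_conjA (p : ℤ × ℤ) : QA (conjA p) = QA p := by
  unfold QA conjA
  simp only [Equiv.coe_fn_mk]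
  push_cast
  ring

/-- an odd numerator sums to zero -/
lemma tsum_odd_QA : ∑' p : ℤ × ℤ, ((p.2 : ℝ) * (2 * p.1 + p.2)) / QA p ^ 4 = 0 := by
  have h : ∑' p : ℤ × ℤ, ((p.2 : ℝ) * (2 * p.1 + p.2)) / QA p ^ 4
      = -∑' p : ℤ × ℤ, ((p.2 : ℝ) * (2 * p.1 + p.2)) / QA p ^ 4 := by
    conv_lhs => rw [← conjA.tsum_eq]
    rw [← tsum_neg]
    apply tsum_congr
    intro p
    rw [QA_conjA]
    simp only [conjA, Equiv.coe_fn_mk]
    push_cast
    ring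
  linarith

lemma summable_numA : Summable fun p : ℤ × ℤ =>
    ((p.1 : ℝ) ^ 2 + p.1 * p.2 - 7 / 2 * (p.2 : ℝ) ^ 2) / QA p ^ 4 :=
  summable_div_QA (fun p => (p.1 : ℝ) ^ 2 + p.1 * p.2 - 7 / 2 * (p.2 : ℝ) ^ 2) 1 (by
    intro p
    unfold QA
    rw [abs_le]
    constructor <;> nlinarith [sq_nonneg (2 * (p.1 : ℝ) + p.2), sq_nonneg (p.2 : ℝ)])

lemma summable_oddA : Summable fun p : ℤ × ℤ => ((p.2 : ℝ) * (2 * p.1 + p.2)) / QA p ^ 4 :=
  summable_div_QA (fun p => (p.2 : ℝ) * (2 * p.1 + p.2)) 1 (by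
    intro p
    unfold QA
    rw [abs_le]
    constructor <;> nlinarith [sq_nonneg (2 * (p.1 : ℝ) + p.2 - p.2), sq_nonneg (2 * (p.1 : ℝ) + p.2 + p.2),
      sq_nonneg (2 * (p.1 : ℝ) + 5 * p.2), sq_nonneg (2 * (p.1 : ℝ) - p.2), sq_nonneg (p.2 : ℝ),
      sq_nonneg (2 * (p.1 : ℝ) - 3 * p.2), sq_nonneg (2 * (p.1 : ℝ) + p.2)])

/-- first part -/
theorem S1_eq : ∑' p : ℕ × ℕ, sg p.1 * sg p.2 / wt 3 5 p ^ 4 = 1 / 8 ^ 4 * (KA / 2) := by
  rw [odd_sum_eq (by norm_num) (by norm_num) (-1) (Or.inr rfl)]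
  set φ : ℤ × ℤ → ℤ × ℤ := fun p => (p.1 + 3 * p.2, p.2 - p.1) with hφ
  have hinj : Function.Injective φ := by
    rintro ⟨a, b⟩ ⟨c, d⟩ h
    simp only [hφ, Prod.mk.injEq] at h
    ext <;> simp <;> omega
  have h2 : ∑' p : ℤ × ℤ, ind (-1) p * gk 3 5 p = ∑' p : ℤ × ℤ, ind (-1) (φ p) * gk 3 5 (φ p) := by
    rw [← hinj.tsum_eq (f := fun p : ℤ × ℤ => ind (-1) p * gk 3 5 p)]
    intro p hp
    rw [Function.mem_support] at hp
    by_contra hc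
    apply hp
    have : ¬ ((4 : ℤ) ∣ p.1 - (-1) * p.2) := by
      intro hd
      apply hc
      refine ⟨(p.1 - 3 * ((p.1 + p.2) / 4), (p.1 + p.2) / 4), ?_⟩
      simp only [hφ]
      ext
      · simp only
        omega
      · simp only
        omega
    unfold ind
    rw [if_neg this]
    ring
  rw [h2]
  have h3 : ∀ p : ℤ × ℤ, ind (-1) (φ p) * gk 3 5 (φ p)
      = 1 / 8 ^ 4 * (-(((p.1 : ℝ) ^ 2 + p.1 * p.2 - 7 / 2 * (p.2 : ℝ) ^ 2) / QA p ^ 4)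
        - 1 / 2 * (((p.2 : ℝ) * (2 * p.1 + p.2)) / QA p ^ 4)) := by
    intro p
    have hd : (4 : ℤ) ∣ (φ p).1 - (-1) * (φ p).2 := by simp only [hφ]; omega
    unfold ind
    rw [if_pos hd, one_mul]
    unfold gk
    have hq : (3 : ℝ) * ((φ p).1 : ℝ) ^ 2 + 5 * ((φ p).2 : ℝ) ^ 2 = 8 * QA p := by
      simp only [hφ, QA]; push_cast; ring
    rw [hq, mul_pow]
    simp only [hφ]
    push_cast
    rw [div_mul_eq_div_mul_one_div ((_ : ℝ)) ((8 : ℝ) ^ 4)]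
    ring
  rw [tsum_congr h3, tsum_mul_left]
  have sA := summable_numA
  have sB := summable_oddA
  rw [sA.neg.tsum_sub (sB.mul_left _), tsum_neg, tsum_mul_left, tsum_odd_QA]
  unfold KA
  push_cast
  ring

/-- conjugation `m τ₀ + n ↦ -m τ₀ + (m + n)`. -/
def conjB : ℤ × ℤ ≃ ℤ × ℤ where
  toFun p := (-p.1, p.1 + p.2)
  invFun p := (-p.1, p.1 + p.2)
  left_inv p := by ext <;> simp
  right_inv p := by ext <;> simp

lemma QB_conjB (p : ℤ × ℤ) : QB (conjB p) = QB p := by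
  unfold QB conjB
  simp only [Equiv.coe_fn_mk]
  push_cast
  ring

/-- an odd numerator sums to zero -/
lemma tsum_odd_QB : ∑' p : ℤ × ℤ, ((p.1 : ℝ) * (p.1 + 2 * p.2)) / QB p ^ 4 = 0 := by
  have h : ∑' p : ℤ × ℤ, ((p.1 : ℝ) * (p.1 + 2 * p.2)) / QB p ^ 4
      = -∑' p : ℤ × ℤ, ((p.1 : ℝ) * (p.1 + 2 * p.2)) / QB p ^ 4 := by
    conv_lhs => rw [← conjB.tsum_eq]
    rw [← tsum_neg]
    apply tsum_congr
    intro p
    rw [QB_conjB]
    simp only [conjB, Equiv.coe_fn_mk]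
    push_cast
    ring
  linarith

lemma summable_numB : Summable fun p : ℤ × ℤ =>
    (-1 / 6 * (p.1 : ℝ) ^ 2 + p.1 * p.2 + (p.2 : ℝ) ^ 2) / QB p ^ 4 :=
  summable_div_QB (fun p => -1 / 6 * (p.1 : ℝ) ^ 2 + p.1 * p.2 + (p.2 : ℝ) ^ 2) 1 (by
    intro p
    unfold QB
    rw [abs_le]
    constructor <;> nlinarith [sq_nonneg ((p.1 : ℝ) + 2 * p.2), sq_nonneg (p.1 : ℝ)])

lemma summable_oddB : Summable fun p : ℤ × ℤ => ((p.1 : ℝ) * (p.1 + 2 * p.2)) / QB p ^ 4 :=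
  summable_div_QB (fun p => (p.1 : ℝ) * (p.1 + 2 * p.2)) 4 (by
    intro p
    unfold QB
    rw [abs_le]
    constructor <;> nlinarith [sq_nonneg ((p.1 : ℝ) + 2 * p.2), sq_nonneg (p.1 : ℝ),
      sq_nonneg ((p.1 : ℝ) + p.2), sq_nonneg (p.2 : ℝ), sq_nonneg (5 * (p.1 : ℝ) + 6 * p.2)])

/-- second part -/
theorem S2_eq : ∑' p : ℕ × ℕ, sg p.1 * sg p.2 / wt 1 15 p ^ 4 = 1 / 8 ^ 4 * (-(KB / 54)) := by
  rw [odd_sum_eq (by norm_num) (by norm_num) 1 (Or.inl rfl)]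
  set φ : ℤ × ℤ → ℤ × ℤ := fun p => (4 * p.1 + 3 * p.2, -p.2) with hφ
  have hinj : Function.Injective φ := by
    rintro ⟨a, b⟩ ⟨c, d⟩ h
    simp only [hφ, Prod.mk.injEq] at h
    ext <;> simp <;> omega
  have h2 : ∑' p : ℤ × ℤ, ind 1 p * gk 1 15 p = ∑' p : ℤ × ℤ, ind 1 (φ p) * gk 1 15 (φ p) := by
    rw [← hinj.tsum_eq (f := fun p : ℤ × ℤ => ind 1 p * gk 1 15 p)]
    intro p hp
    rw [Function.mem_support] at hp
    by_contra hc
    apply hp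
    have : ¬ ((4 : ℤ) ∣ p.1 - 1 * p.2) := by
      intro hd
      apply hc
      refine ⟨((p.1 + 3 * p.2) / 4, -p.2), ?_⟩
      simp only [hφ]
      ext
      · simp only
        omega
      · simp only
        omega
    unfold ind
    rw [if_neg this]
    ring
  rw [h2]
  have h3 : ∀ p : ℤ × ℤ, ind 1 (φ p) * gk 1 15 (φ p)
      = 1 / 24 ^ 4 * (-3 * ((-1 / 6 * (p.1 : ℝ) ^ 2 + p.1 * p.2 + (p.2 : ℝ) ^ 2) / QB p ^ 4)
        - 1 / 2 * (((p.1 : ℝ) * (p.1 + 2 * p.2)) / QB p ^ 4)) := by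
    intro p
    have hd : (4 : ℤ) ∣ (φ p).1 - 1 * (φ p).2 := by simp only [hφ]; omega
    unfold ind
    rw [if_pos hd, one_mul]
    unfold gk
    have hq : (1 : ℝ) * ((φ p).1 : ℝ) ^ 2 + 15 * ((φ p).2 : ℝ) ^ 2 = 24 * QB p := by
      simp only [hφ, QB]; push_cast; ring
    rw [hq, mul_pow]
    simp only [hφ]
    push_cast
    rw [div_mul_eq_div_mul_one_div ((_ : ℝ)) ((24 : ℝ) ^ 4)]
    ring
  rw [tsum_congr h3, tsum_mul_left]
  have sA := summable_numB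
  have sB := summable_oddB
  rw [(sA.mul_left _).tsum_sub (sB.mul_left _), tsum_mul_left, tsum_mul_left, tsum_odd_QB]
  unfold KB
  push_cast
  ring

/-- **Block (T), real form.** -/
theorem mellin_eq_KA_KB :
    (2 * Real.pi) ^ 4 / Real.Gamma 4 * ∫ y in Ioi (0 : ℝ),
        ((etaR (3 * y) * etaR (5 * y)) ^ 3 + (etaR y * etaR (15 * y)) ^ 3) * y ^ 3
      = KA / 2 - KB / 54 := by
  rw [mellin_four]
  have h : ∀ A B : ℝ, ∑' p : ℕ × ℕ, sg p.1 * sg p.2 * (8 ^ 4 / wt A B p ^ 4)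
      = 8 ^ 4 * ∑' p : ℕ × ℕ, sg p.1 * sg p.2 / wt A B p ^ 4 := by
    intro A B
    rw [← tsum_mul_left]
    exact tsum_congr fun p => by ring
  rw [h, h, S1_eq, S2_eq]
  ring

/-! ### Complex form -/

/-- `w = (1 + √-15)/2` -/
noncomputable def w : ℂ := (1 + Complex.I * (Real.sqrt 15 : ℝ)) / 2

/-- `τ₀ = 1/2 + √-15/6` -/
noncomputable def tau0 : ℂ := 1 / 2 + Complex.I * (Real.sqrt 15 : ℝ) / 6

/-- `z^{-4} conj(z)^{-2}` -/
noncomputable def kap (z : ℂ) : ℂ := (z ^ 4 * (starRingEnd ℂ z) ^ 2)⁻¹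

/-- `K0 = ∑' (a + b w)^{-4} conj(a + b w)^{-2}` -/
noncomputable def K0 : ℂ := ∑' p : ℤ × ℤ, kap (p.1 + p.2 * w)

/-- `K1 = ∑' (m τ₀ + n)^{-4} conj(m τ₀ + n)^{-2}` -/
noncomputable def K1 : ℂ := ∑' p : ℤ × ℤ, kap (p.1 * tau0 + p.2)

lemma kap_eq (z : ℂ) : kap z = (starRingEnd ℂ z) ^ 2 / ((Complex.normSq z : ℝ) : ℂ) ^ 4 := by
  rcases eq_or_ne z 0 with rfl | hz
  · simp [kap]
  · have hz' : starRingEnd ℂ z ≠ 0 := by simpa using hz
    unfold kap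
    rw [← Complex.mul_conj z, mul_pow]
    field_simp

lemma kap_re (z : ℂ) : (kap z).re = (z.re ^ 2 - z.im ^ 2) / Complex.normSq z ^ 4 := by
  rw [kap_eq, ← Complex.ofReal_pow, Complex.div_ofReal_re]
  congr 1
  simp [sq]

lemma kap_im (z : ℂ) : (kap z).im = -(2 * z.re * z.im) / Complex.normSq z ^ 4 := by
  rw [kap_eq, ← Complex.ofReal_pow, Complex.div_ofReal_im]
  congr 1
  simp [sq]
  ring

lemma sqrt15_sq : Real.sqrt 15 ^ 2 = 15 := Real.sq_sqrt (by norm_num)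

lemma reA (p : ℤ × ℤ) : ((p.1 : ℂ) + p.2 * w).re = (p.1 : ℝ) + p.2 / 2 := by
  simp [w]
  ring

lemma imA (p : ℤ × ℤ) : ((p.1 : ℂ) + p.2 * w).im = (p.2 : ℝ) * (Real.sqrt 15 / 2) := by
  simp [w]

lemma nsA (p : ℤ × ℤ) : Complex.normSq ((p.1 : ℂ) + p.2 * w) = QA p := by
  rw [Complex.normSq_apply, reA, imA]
  unfold QA
  linear_combination ((p.2 : ℝ) ^ 2 / 4) * sqrt15_sq

lemma reB (p : ℤ × ℤ) : ((p.1 : ℂ) * tau0 + p.2).re = (p.1 : ℝ) / 2 + p.2 := by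
  simp [tau0]
  ring

lemma imB (p : ℤ × ℤ) : ((p.1 : ℂ) * tau0 + p.2).im = (p.1 : ℝ) * (Real.sqrt 15 / 6) := by
  simp [tau0]

lemma nsB (p : ℤ × ℤ) : Complex.normSq ((p.1 : ℂ) * tau0 + p.2) = QB p := by
  rw [Complex.normSq_apply, reB, imB]
  unfold QB
  linear_combination ((p.1 : ℝ) ^ 2 / 36) * sqrt15_sq

lemma kapA_re (p : ℤ × ℤ) : (kap ((p.1 : ℂ) + p.2 * w)).re
    = ((p.1 : ℝ) ^ 2 + p.1 * p.2 - 7 / 2 * (p.2 : ℝ) ^ 2) / QA p ^ 4 := by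
  rw [kap_re, nsA, reA, imA]
  congr 1
  linear_combination (-(p.2 : ℝ) ^ 2 / 4) * sqrt15_sq

lemma kapA_im (p : ℤ × ℤ) : (kap ((p.1 : ℂ) + p.2 * w)).im
    = -(Real.sqrt 15 / 2) * (((p.2 : ℝ) * (2 * p.1 + p.2)) / QA p ^ 4) := by
  rw [kap_im, nsA, reA, imA]
  ring

lemma kapB_re (p : ℤ × ℤ) : (kap ((p.1 : ℂ) * tau0 + p.2)).re
    = (-1 / 6 * (p.1 : ℝ) ^ 2 + p.1 * p.2 + (p.2 : ℝ) ^ 2) / QB p ^ 4 := by
  rw [kap_re, nsB, reB, imB]
  congr 1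
  linear_combination (-(p.1 : ℝ) ^ 2 / 36) * sqrt15_sq

lemma kapB_im (p : ℤ × ℤ) : (kap ((p.1 : ℂ) * tau0 + p.2)).im
    = -(Real.sqrt 15 / 6) * (((p.1 : ℝ) * (p.1 + 2 * p.2)) / QB p ^ 4) := by
  rw [kap_im, nsB, reB, imB]
  ring

lemma summable_kapA : Summable fun p : ℤ × ℤ => kap ((p.1 : ℂ) + p.2 * w) := by
  have h1 := summable_numA.hasSum
  have h2 := (summable_oddA.mul_left (-(Real.sqrt 15 / 2))).hasSum
  have h1' : HasSum (fun p : ℤ × ℤ => (kap ((p.1 : ℂ) + p.2 * w)).re) _ := h1.congr_fun kapA_re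
  have h2' : HasSum (fun p : ℤ × ℤ => (kap ((p.1 : ℂ) + p.2 * w)).im) _ := h2.congr_fun kapA_im
  exact ((Complex.hasSum_iff (fun p : ℤ × ℤ => kap ((p.1 : ℂ) + p.2 * w))
    (Complex.mk _ _)).2 ⟨h1', h2'⟩).summable

lemma summable_kapB : Summable fun p : ℤ × ℤ => kap ((p.1 : ℂ) * tau0 + p.2) := by
  have h1 := summable_numB.hasSum
  have h2 := (summable_oddB.mul_left (-(Real.sqrt 15 / 6))).hasSum
  have h1' : HasSum (fun p : ℤ × ℤ => (kap ((p.1 : ℂ) * tau0 + p.2)).re) _ := h1.congr_fun kapB_re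
  have h2' : HasSum (fun p : ℤ × ℤ => (kap ((p.1 : ℂ) * tau0 + p.2)).im) _ := h2.congr_fun kapB_im
  exact ((Complex.hasSum_iff (fun p : ℤ × ℤ => kap ((p.1 : ℂ) * tau0 + p.2))
    (Complex.mk _ _)).2 ⟨h1', h2'⟩).summable

theorem K0_re : K0.re = KA := by
  unfold K0 KA
  rw [Complex.re_tsum summable_kapA]
  exact tsum_congr kapA_re

theorem K0_im : K0.im = 0 := by
  unfold K0
  rw [Complex.im_tsum summable_kapA, tsum_congr kapA_im, tsum_mul_left, tsum_odd_QA, mul_zero]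

theorem K1_re : K1.re = KB := by
  unfold K1 KB
  rw [Complex.re_tsum summable_kapB]
  exact tsum_congr kapB_re

theorem K1_im : K1.im = 0 := by
  unfold K1
  rw [Complex.im_tsum summable_kapB, tsum_congr kapB_im, tsum_mul_left, tsum_odd_QB, mul_zero]

/-- **Block (T)**, complex lattice sums, with the quantifiers of the frozen statement. -/
theorem blockT (eta f : ℝ → ℝ)
    (heta : ∀ y : ℝ, eta y = Real.exp (-(2 * Real.pi * y / 24)) *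
          ∏' n : ℕ, (1 - Real.exp (-(2 * Real.pi * ((n : ℝ) + 1) * y))))
    (hf : ∀ y : ℝ, f y = (eta (3 * y) * eta (5 * y)) ^ 3 + (eta y * eta (15 * y)) ^ 3) :
    (2 * Real.pi) ^ 4 / Real.Gamma 4 * ∫ y in Set.Ioi (0:ℝ), f y * y ^ 3
      = K0.re / 2 - K1.re / 54 := by
  rw [K0_re, K1_re, ← mellin_eq_KA_KB]
  have he : eta = etaR := funext heta
  simp only [hf, he]

end Pool.Agent.Lib.BM.Eta
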