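import Pool.Agent.Lib.BM.LDefs
import Pool.Agent.Lib.BM.EtaLattice

set_option autoImplicit false

/-!
# BM.CmKh: the depth one sum `K_42((1-χ)(1-9u))` at the CM point

`Kh42 (y0) = -(45/16) K0 - (1/48) K1`, where `K0`, `K1` are the sums of `kap` over `O = ℤ + ℤ w15` and over
`Λ = ℤ τ₀ + ℤ`.
-/

namespace Pool.Agent.Lib.BM

namespace CmKhAux

/-- The summand over `Λ`. -/
noncomputable def FF (p : ℤ × ℤ) : ℂ := kap ((p.1 : ℂ) * tau0 + p.2)

/-- The summand over `O`. -/
noncomputable def GG (p : ℤ × ℤ) : ℂ := kap ((p.1 : ℂ) + p.2 * w15)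

/-- The sum over `O`. -/
noncomputable def KO : ℂ := ∑' p : ℤ × ℤ, GG p

/-- The sum over `Λ`. -/
noncomputable def KL : ℂ := ∑' p : ℤ × ℤ, FF p

theorem summable_FF : Summable FF := Eta.summable_kapB

theorem summable_GG : Summable GG := Eta.summable_kapA

theorem kap_mul (c z : ℂ) : kap (c * z) = kap c * kap z := by
  unfold kap
  rw [map_mul, ← mul_inv]
  congr 1
  ring

theorem s15 : ((Real.sqrt 15 : ℝ) : ℂ) ^ 2 = 15 := by
  have h : (Real.sqrt 15) ^ 2 = 15 := Real.sq_sqrt (by norm_num)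
  exact_mod_cast h

theorem w15_sq : w15 ^ 2 = w15 - 4 := by
  unfold w15
  linear_combination (Complex.I ^ 2 / 4) * s15 + (15 / 4) * Complex.I_sq

theorem w15_conj : (starRingEnd ℂ) w15 = 1 - w15 := by
  unfold w15
  simp only [map_div₀, map_add, map_mul, map_one, Complex.conj_I, Complex.conj_ofReal, map_ofNat]
  ring

theorem tau0_w : tau0 = (1 + w15) / 3 := by
  unfold tau0 w15
  ring

theorem tau0_conj : (starRingEnd ℂ) tau0 = 1 - tau0 := by
  unfold tau0
  simp only [map_div₀, map_add, map_mul, map_one, Complex.conj_I, Complex.conj_ofReal, map_ofNat]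
  ring

theorem tau0_w' : tau0 * w15 = 2 * tau0 - 2 := by
  rw [tau0_w]
  linear_combination (1 / 3) * w15_sq

theorem tau0_sq : tau0 ^ 2 = tau0 - 2 / 3 := by
  rw [tau0_w]
  linear_combination (1 / 9) * w15_sq

/-- The sum over a sublattice that is the image of an injective map. -/
theorem sub_tsum {f g : ℤ × ℤ → ℂ} {P : ℤ × ℤ → Prop} [DecidablePred P] (e : ℤ × ℤ → ℤ × ℤ) (c : ℂ)
    (he : Function.Injective e) (hP : ∀ p, P p → p ∈ Set.range e) (hP' : ∀ p, P (e p))
    (h : ∀ p, f (e p) = c * g p) :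
    ∑' p, (if P p then f p else 0) = c * ∑' p, g p := by
  rw [← he.tsum_eq, ← tsum_mul_left]
  · refine tsum_congr fun p => ?_
    rw [if_pos (hP' p), h]
  · intro p hp
    apply hP
    by_contra hn
    rw [Function.mem_support, if_neg hn] at hp
    exact hp rfl

theorem F_n : ∑' p : ℤ × ℤ, (if Even p.2 then FF p else 0) = kap tau0 * KO := by
  refine sub_tsum (fun p => (p.1 + 2 * p.2, -2 * p.2)) (kap tau0) ?_ ?_ ?_ ?_
  · intro p q hpq
    simp only [Prod.mk.injEq] at hpq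
    ext <;> omega
  · rintro ⟨m, n⟩ ⟨k, hk⟩
    simp only at hk
    exact ⟨(m + 2 * k, -k), by simp only [Prod.mk.injEq]; omega⟩
  · intro p
    exact ⟨-p.2, by ring⟩
  · intro p
    unfold FF GG
    rw [← kap_mul]
    congr 1
    push_cast
    linear_combination -(p.2 : ℂ) * tau0_w'

theorem F_mn : ∑' p : ℤ × ℤ, (if Even (p.1 + p.2) then FF p else 0) = kap (1 - tau0) * KO := by
  refine sub_tsum (fun p => (p.2 - p.1, p.1 + p.2)) (kap (1 - tau0)) ?_ ?_ ?_ ?_
  · intro p q hpq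
    simp only [Prod.mk.injEq] at hpq
    ext <;> omega
  · rintro ⟨m, n⟩ ⟨k, hk⟩
    simp only at hk
    exact ⟨(k - m, k), by simp only [Prod.mk.injEq]; omega⟩
  · intro p
    exact ⟨p.2, by ring⟩
  · intro p
    unfold FF GG
    rw [← kap_mul]
    congr 1
    have h1 := tau0_w'
    have h2 : w15 = 3 * tau0 - 1 := by rw [tau0_w]; ring
    push_cast
    linear_combination (p.2 : ℂ) * h1 - (p.2 : ℂ) * h2

theorem F_two : ∑' p : ℤ × ℤ, (if Even p.1 ∧ Even p.2 then FF p else 0) = kap 2 * KL := by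
  refine sub_tsum (fun p => (2 * p.1, 2 * p.2)) (kap 2) ?_ ?_ ?_ ?_
  · intro p q hpq
    simp only [Prod.mk.injEq] at hpq
    ext <;> omega
  · rintro ⟨m, n⟩ ⟨⟨k, hk⟩, ⟨l, hl⟩⟩
    simp only at hk hl
    exact ⟨(k, l), by simp only [Prod.mk.injEq]; omega⟩
  · intro p
    exact ⟨⟨p.1, by ring⟩, ⟨p.2, by ring⟩⟩
  · intro p
    unfold FF
    rw [← kap_mul]
    congr 1
    push_cast
    ring

theorem G_a : ∑' p : ℤ × ℤ, (if Even p.1 then GG p else 0) = kap (2 - w15) * KL := by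
  refine sub_tsum (fun p => (2 * (p.1 + p.2), -p.2)) (kap (2 - w15)) ?_ ?_ ?_ ?_
  · intro p q hpq
    simp only [Prod.mk.injEq] at hpq
    ext <;> omega
  · rintro ⟨m, n⟩ ⟨k, hk⟩
    simp only at hk
    exact ⟨(k + n, -n), by simp only [Prod.mk.injEq]; omega⟩
  · intro p
    exact ⟨p.1 + p.2, by ring⟩
  · intro p
    unfold FF GG
    rw [← kap_mul]
    congr 1
    push_cast
    linear_combination (p.1 : ℂ) * tau0_w'

theorem G_ab : ∑' p : ℤ × ℤ, (if Even (p.1 + p.2) then GG p else 0) = kap (1 + w15) * KL := by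
  refine sub_tsum (fun p => (p.2 - p.1, p.1 + p.2)) (kap (1 + w15)) ?_ ?_ ?_ ?_
  · intro p q hpq
    simp only [Prod.mk.injEq] at hpq
    ext <;> omega
  · rintro ⟨m, n⟩ ⟨k, hk⟩
    simp only at hk
    exact ⟨(k - m, k), by simp only [Prod.mk.injEq]; omega⟩
  · intro p
    exact ⟨p.2, by ring⟩
  · intro p
    unfold FF GG
    rw [← kap_mul]
    congr 1
    have h1 := tau0_w'
    have h2 : w15 = 3 * tau0 - 1 := by rw [tau0_w]; ring
    push_cast
    linear_combination -(p.1 : ℂ) * h1 + (p.1 : ℂ) * h2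

theorem G_two : ∑' p : ℤ × ℤ, (if Even p.1 ∧ Even p.2 then GG p else 0) = kap 2 * KO := by
  refine sub_tsum (fun p => (2 * p.1, 2 * p.2)) (kap 2) ?_ ?_ ?_ ?_
  · intro p q hpq
    simp only [Prod.mk.injEq] at hpq
    ext <;> omega
  · rintro ⟨m, n⟩ ⟨⟨k, hk⟩, ⟨l, hl⟩⟩
    simp only at hk hl
    exact ⟨(k, l), by simp only [Prod.mk.injEq]; omega⟩
  · intro p
    exact ⟨⟨p.1, by ring⟩, ⟨p.2, by ring⟩⟩
  · intro p
    unfold GG
    rw [← kap_mul]
    congr 1
    push_cast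
    ring

theorem F_three : ∑' p : ℤ × ℤ, (if (3 : ℤ) ∣ p.1 ∧ ¬ Even p.1 then FF p else 0) =
    1 * ∑' p : ℤ × ℤ, (if ¬ Even p.2 then GG p else 0) := by
  have h : ∀ p : ℤ × ℤ, (if (3 : ℤ) ∣ p.1 ∧ ¬ Even p.1 then FF p else 0) =
      (if (3 : ℤ) ∣ p.1 then (if ¬ Even p.1 then FF p else 0) else 0) := by
    intro p
    by_cases h3 : (3 : ℤ) ∣ p.1 <;> by_cases h2 : Even p.1 <;> simp [h3, h2]
  rw [tsum_congr h]
  refine sub_tsum (f := fun p => if ¬ Even p.1 then FF p else 0)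
    (fun p => (3 * p.2, p.1 - p.2)) 1 ?_ ?_ ?_ ?_
  · intro p q hpq
    simp only [Prod.mk.injEq] at hpq
    ext <;> omega
  · rintro ⟨m, n⟩ ⟨k, hk⟩
    simp only at hk
    exact ⟨(n + k, k), by simp only [Prod.mk.injEq]; omega⟩
  · intro p
    exact ⟨p.2, rfl⟩
  · intro p
    have h2 : Even (3 * p.2) ↔ Even p.2 := by
      rw [Int.even_mul]
      simp [show ¬ Even (3 : ℤ) by decide]
    simp only [h2, one_mul]
    by_cases h : Even p.2
    · simp [h]
    · simp only [h, not_false_eq_true, if_true]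
      unfold FF GG
      congr 1
      rw [tau0_w]
      push_cast
      ring

theorem summable_if {f : ℤ × ℤ → ℂ} (hf : Summable f) (P : ℤ × ℤ → Prop) [DecidablePred P] :
    Summable fun p => if P p then f p else 0 := by
  refine Summable.of_norm_bounded hf.norm fun p => ?_
  split_ifs
  · exact le_rfl
  · simp

theorem G_odd : ∑' p : ℤ × ℤ, (if ¬ Even p.2 then GG p else 0) =
    -2 * (kap 2 * KO) + kap (2 - w15) * KL + kap (1 + w15) * KL := by
  rw [← G_two, ← G_a, ← G_ab, ← tsum_mul_left, ← (((summable_if summable_GG _).mul_left _).tsum_add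
    (summable_if summable_GG _)), ← ((((summable_if summable_GG _).mul_left _).add
    (summable_if summable_GG _)).tsum_add (summable_if summable_GG _))]
  refine tsum_congr fun p => ?_
  by_cases h1 : Even p.1 <;> by_cases h2 : Even p.2 <;> simp [h1, h2, Int.even_add]
  ring

theorem F_odd : ∑' p : ℤ × ℤ, (if ¬ Even p.1 then FF p else 0) =
    -2 * (kap 2 * KL) + kap tau0 * KO + kap (1 - tau0) * KO := by
  rw [← F_two, ← F_n, ← F_mn, ← tsum_mul_left, ← (((summable_if summable_FF _).mul_left _).tsum_add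
    (summable_if summable_FF _)), ← ((((summable_if summable_FF _).mul_left _).add
    (summable_if summable_FF _)).tsum_add (summable_if summable_FF _))]
  refine tsum_congr fun p => ?_
  by_cases h1 : Even p.1 <;> by_cases h2 : Even p.2 <;> simp [h1, h2, Int.even_add]
  ring

theorem Kh42_eq : Kh42 y0 = 2 * ∑' p : ℤ × ℤ, (if ¬ Even p.1 then FF p else 0) -
    18 * ∑' p : ℤ × ℤ, (if (3 : ℤ) ∣ p.1 ∧ ¬ Even p.1 then FF p else 0) := by
  rw [← tsum_mul_left, ← tsum_mul_left, ← ((summable_if summable_FF _).mul_left _).tsum_sub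
    ((summable_if summable_FF _).mul_left _)]
  unfold Kh42 Kab
  refine tsum_congr fun p => ?_
  have h : av y0 p ^ 4 * (starRingEnd ℂ) (av y0 p) ^ 2 = FF p := by
    have e : lam y0 p = (p.1 : ℂ) * tau0 + p.2 := by
      unfold lam y0 tau0
      push_cast
      ring
    unfold av FF kap
    rw [e, map_inv₀, mul_inv, inv_pow, inv_pow]
  rw [h]
  unfold Wh chiR uR
  by_cases h1 : Even p.1 <;> by_cases h2 : (3 : ℤ) ∣ p.1 <;> simp [h1, h2]
  · ring
  · left
    norm_num

theorem kap_two : kap 2 = 1 / 64 := by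
  unfold kap
  simp only [map_ofNat]
  norm_num

theorem kap_tau : kap tau0 + kap (1 - tau0) = -27 / 16 := by
  have h1 : tau0 * (1 - tau0) = 2 / 3 := by linear_combination -tau0_sq
  have h0 : tau0 ≠ 0 := by
    intro h
    rw [h] at h1
    norm_num at h1
  have h0' : 1 - tau0 ≠ 0 := by
    intro h
    rw [h] at h1
    norm_num at h1
  have e1 : kap tau0 = 81 / 16 * (1 - tau0) ^ 2 := by
    unfold kap
    rw [tau0_conj]
    rw [inv_eq_iff_eq_inv, eq_comm, inv_eq_iff_eq_inv, eq_comm, ← one_div, div_eq_iff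
      (mul_ne_zero (pow_ne_zero _ h0) (pow_ne_zero _ h0'))]
    have : (81 / 16 : ℂ) * (1 - tau0) ^ 2 * (tau0 ^ 4 * (1 - tau0) ^ 2) =
        81 / 16 * (tau0 * (1 - tau0)) ^ 4 := by ring
    rw [this, h1]
    norm_num
  have e2 : kap (1 - tau0) = 81 / 16 * tau0 ^ 2 := by
    unfold kap
    rw [map_sub, map_one, tau0_conj, sub_sub_cancel]
    rw [inv_eq_iff_eq_inv, eq_comm, inv_eq_iff_eq_inv, eq_comm, ← one_div, div_eq_iff
      (mul_ne_zero (pow_ne_zero _ h0') (pow_ne_zero _ h0))]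
    have : (81 / 16 : ℂ) * tau0 ^ 2 * ((1 - tau0) ^ 4 * tau0 ^ 2) =
        81 / 16 * (tau0 * (1 - tau0)) ^ 4 := by ring
    rw [this, h1]
    norm_num
  rw [e1, e2]
  linear_combination (81 / 8) * tau0_sq

theorem kap_del : kap (2 - w15) + kap (1 + w15) = -1 / 432 := by
  have h1 : (2 - w15) * (1 + w15) = 6 := by linear_combination -w15_sq
  have h0 : 2 - w15 ≠ 0 := by
    intro h
    rw [h] at h1
    norm_num at h1
  have h0' : 1 + w15 ≠ 0 := by
    intro h
    rw [h] at h1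
    norm_num at h1
  have e1 : kap (2 - w15) = 1 / 1296 * (1 + w15) ^ 2 := by
    unfold kap
    rw [map_sub, w15_conj, map_ofNat, show (2 : ℂ) - (1 - w15) = 1 + w15 by ring]
    rw [inv_eq_iff_eq_inv, eq_comm, inv_eq_iff_eq_inv, eq_comm, ← one_div, div_eq_iff
      (mul_ne_zero (pow_ne_zero _ h0) (pow_ne_zero _ h0'))]
    have : (1 / 1296 : ℂ) * (1 + w15) ^ 2 * ((2 - w15) ^ 4 * (1 + w15) ^ 2) =
        1 / 1296 * ((2 - w15) * (1 + w15)) ^ 4 := by ring
    rw [this, h1]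
    norm_num
  have e2 : kap (1 + w15) = 1 / 1296 * (2 - w15) ^ 2 := by
    unfold kap
    rw [map_add, w15_conj, map_one, show (1 : ℂ) + (1 - w15) = 2 - w15 by ring]
    rw [inv_eq_iff_eq_inv, eq_comm, inv_eq_iff_eq_inv, eq_comm, ← one_div, div_eq_iff
      (mul_ne_zero (pow_ne_zero _ h0') (pow_ne_zero _ h0))]
    have : (1 / 1296 : ℂ) * (2 - w15) ^ 2 * ((1 + w15) ^ 4 * (2 - w15) ^ 2) =
        1 / 1296 * ((2 - w15) * (1 + w15)) ^ 4 := by ring
    rw [this, h1]
    norm_num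
  rw [e1, e2]
  linear_combination (1 / 648) * w15_sq

theorem Kh42_val : Kh42 y0 = -(45 / 16) * KO - 1 / 48 * KL := by
  rw [Kh42_eq, F_three, G_odd, F_odd, kap_two]
  linear_combination (2 * KO) * kap_tau - 18 * KL * kap_del

end CmKhAux

/-- **The value of `Kh42` at the CM point**. -/
theorem kh42_val : (Kh42 y0).re = -(45 / 16) * lat0 - 1 / 48 * lat1 := by
  have h := congrArg Complex.re CmKhAux.Kh42_val
  have e1 : (CmKhAux.KO).re = lat0 := rfl
  have e2 : (CmKhAux.KL).re = lat1 := rfl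
  rw [h, ← e1, ← e2]
  simp only [Complex.sub_re, Complex.neg_re, Complex.mul_re, Complex.neg_im]
  norm_num

end Pool.Agent.Lib.BM
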