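import Pool.Agent.Lib.BM.CmTG
import Pool.Agent.Lib.BM.CmKh

set_option autoImplicit false

/-!
# BM.CmEnd: block (CM) from the certificate
-/

namespace Pool.Agent.Lib.BM.Cm

/-- The statement (CM) from the value of the target. -/
theorem stCM_of (hF : StF3)
    (h : (Tlist.map fun x => SS (Mset x.1) (qz 2 x.2)).sum =
      -(495 / 8) * (lat0 : ℂ) + 61 / 24 * (lat1 : ℂ)) : StCM := by
  unfold StCM
  have e : (TL y0).re = -(495 / 8) * lat0 + 61 / 24 * lat1 := by
    rw [TL_G hF, h]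
    have : (-(495 / 8) * (lat0 : ℂ) + 61 / 24 * (lat1 : ℂ)) =
        ((-(495 / 8) * lat0 + 61 / 24 * lat1 : ℝ) : ℂ) := by push_cast; ring
    rw [this, Complex.ofReal_re]
  have k : (2 * Kh42 y0).re = 2 * (Kh42 y0).re := by
    rw [Complex.mul_re]; simp
  rw [Complex.add_re, e, k, kh42_val]
  ring

end Pool.Agent.Lib.BM.Cm
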