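import Pool.Agent.Lib.BM.Defs

set_option autoImplicit false

/-!
# BM.LDefs: definitions of block (L), the lattice sums on the line `Re τ = 1/2`

The lattice points are `lam y p = m τ + n`, `p = (m, n)`, `τ = 1/2 + i y`; `av y p` is the inverse of `lam y p` with the
convention `1/0 = 0`. Triples `p₁ + p₂ + p₃ = 0` are indexed by the pair `P = (p₁, p₂)`, `p₃ = -p₁-p₂`; every term of the
double sums contains the inverses of all three points, so it vanishes at the degenerate pairs and no restriction of the index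
set is needed. All weights are real and depend only on the first coordinates.
-/

namespace Pool.Agent.Lib.BM

noncomputable section

/-- The lattice point `m τ + n`, `τ = 1/2 + i y`. -/
def lam (y : ℝ) (p : ℤ × ℤ) : ℂ := (p.1 : ℂ) * (1 / 2 + Complex.I * (y : ℂ)) + (p.2 : ℂ)

/-- The inverse of the lattice point (`0` at `p = 0`). -/
def av (y : ℝ) (p : ℤ × ℤ) : ℂ := (lam y p)⁻¹

/-- `(-1)^m` -/
def chiR (m : ℤ) : ℝ := if Even m then 1 else -1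

/-- The indicator of `3 ∣ m`. -/
def uR (m : ℤ) : ℝ := if (3 : ℤ) ∣ m then 1 else 0

/-- `D_(1,0,0)` as a function of the inverses `a, b, c` of `λ₁, λ₂, λ₃`;
`D_q = q₁ Del a₁ a₂ a₃ + q₂ Del a₂ a₃ a₁ + q₃ Del a₃ a₁ a₂`. -/
def Del (a b c : ℂ) : ℂ :=
  2 * a ^ 3 * (starRingEnd ℂ) a * (c * (starRingEnd ℂ) b - b * (starRingEnd ℂ) c) -
    a ^ 2 * (starRingEnd ℂ) a * (c ^ 2 * (starRingEnd ℂ) b - b ^ 2 * (starRingEnd ℂ) c)

/-- The weight of `D_(0,1,-1)` in `T`. -/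
def wA (m1 m2 : ℤ) : ℝ := chiR m1 * (1 / 2 + 9 * (uR m1 * uR m2) - 3 / 2 * uR m1)

/-- The weight of `D_(0,1,1)` in `T`. -/
def wB (m1 m2 : ℤ) : ℝ := 3 * (chiR m1 * uR m2)

/-- The summand of `T`, `P = (p₁, p₂)`. -/
def Tterm (y : ℝ) (P : (ℤ × ℤ) × (ℤ × ℤ)) : ℂ :=
  (wA P.1.1 P.2.1 : ℂ) * (Del (av y P.2) (av y (-P.1 - P.2)) (av y P.1) -
      Del (av y (-P.1 - P.2)) (av y P.1) (av y P.2)) +
    (wB P.1.1 P.2.1 : ℂ) * (Del (av y P.2) (av y (-P.1 - P.2)) (av y P.1) +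
      Del (av y (-P.1 - P.2)) (av y P.1) (av y P.2))

/-- The depth two lattice sum `T(y)`. -/
def TL (y : ℝ) : ℂ := ∑' P : (ℤ × ℤ) × (ℤ × ℤ), Tterm y P

/-- `K_ab(W) = ∑' W(m) λ^-a conj(λ)^-b` -/
def Kab (a b : ℕ) (W : ℤ → ℝ) (y : ℝ) : ℂ :=
  ∑' p : ℤ × ℤ, (W p.1 : ℂ) * (av y p ^ a * (starRingEnd ℂ) (av y p) ^ b)

/-- The weight `(1 - χ)(1 - 9u)`. -/
def Wh (m : ℤ) : ℝ := (1 - chiR m) * (1 - 9 * uR m)

/-- `K_42((1 - χ)(1 - 9u))` -/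
def Kh42 (y : ℝ) : ℂ := Kab 4 2 Wh y

/-- `K_51((1 - χ)(1 - 9u))` -/
def Kh51 (y : ℝ) : ℂ := Kab 5 1 Wh y

/-- `K_33((1 - χ)(1 - 9u))` -/
def Kh33 (y : ℝ) : ℂ := Kab 3 3 Wh y

/-- `K_40((1 - χ)(1 - 9u))` -/
def Gh (y : ℝ) : ℂ := Kab 4 0 Wh y

/-- The weight `χ (1 + 3u)`. -/
def Wl (m : ℤ) : ℝ := chiR m * (1 + 3 * uR m)

/-- The row sum `∑_n |m τ + n|^-2` (without the point `0`). -/
def r11 (y : ℝ) (m : ℤ) : ℝ := ∑' n : ℤ, ‖av y (m, n)‖ ^ 2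

/-- The symmetric partial sums of `L = ∑' χ (1 + 3u) |λ|^-2`, rows first. -/
def LhPart (y : ℝ) (M : ℕ) : ℝ := ∑ m ∈ Finset.Icc (-(M : ℤ)) (M : ℤ), Wl m * r11 y m

/-- The total weight after relabelling, `T = 2 ∑ Wt D_(0,1,0)`. -/
def Wt (m1 m2 : ℤ) : ℝ := wA m1 m2 + 3 / 2 * (chiR m1 * (uR m2 - uR (-m1 - m2)))

/-- The total weight of the terms `P(1;2,3)` in block (LB). -/
def WV (m1 m2 : ℤ) : ℝ :=
  chiR m1 * (1 / 2 + 9 * (uR m1 * uR m2) - 3 / 2 * uR m1) -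
    chiR m2 * (1 / 2 + 9 * (uR m1 * uR m2) - 3 / 2 * uR m2) -
    3 / 2 * ((uR m2 - uR m1) * chiR (-m1 - m2))

/-- The kernel of the derivative of `y^3 T` for `q = (0,1,0)`, after the line symmetry, as a function of the inverses
`a₁, a₂, a₃`. -/
def H2 (a b c : ℂ) : ℂ :=
  (starRingEnd ℂ) a * (-6 * b ^ 4 * c + 4 * b ^ 3 * c ^ 2 - 2 * b ^ 2 * c ^ 3) +
    (starRingEnd ℂ) b * (-2 * c ^ 3 * a ^ 2 + 2 * c ^ 2 * a ^ 3) +
    (starRingEnd ℂ) c * (2 * a ^ 3 * b ^ 2 - 4 * a ^ 2 * b ^ 3 + 6 * a * b ^ 4) +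
    2 * (starRingEnd ℂ) b ^ 3 * (c ^ 2 * a - c * a ^ 2)

/-- The summand of the derivative of `y^3 T`. -/
def Hterm (y : ℝ) (P : (ℤ × ℤ) × (ℤ × ℤ)) : ℂ :=
  2 * (Wt P.1.1 P.2.1 : ℂ) * H2 (av y P.1) (av y P.2) (av y (-P.1 - P.2))

/-- `Ψ(y) = y^3 (T + 2 K_42)`, real part. -/
def PsiR (y : ℝ) : ℝ := y ^ 3 * (TL y + 2 * Kh42 y).re

end

/-- Block (LA), part 1: derivative of `y^3 T`. -/
def StLA : Prop := ∀ y : ℝ, 0 < y →
  HasDerivAt (fun t : ℝ => (t : ℂ) ^ 3 * TL t)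
    ((y : ℂ) ^ 2 / 2 * ∑' P : (ℤ × ℤ) × (ℤ × ℤ), Hterm y P) y

/-- Block (LA), part 2: derivative of `y^3 K_42`. -/
def StLK : Prop := ∀ y : ℝ, 0 < y →
  HasDerivAt (fun t : ℝ => (t : ℂ) ^ 3 * Kh42 t) ((y : ℂ) ^ 2 * (2 * Kh51 y + Kh33 y)) y

/-- Block (LB): evaluation of the derivative. -/
def StLB : Prop := ∀ y l : ℝ, 0 < y → Filter.Tendsto (LhPart y) Filter.atTop (nhds l) →
  ∑' P : (ℤ × ℤ) × (ℤ × ℤ), Hterm y P = -3 * Gh y * (l : ℂ) - 8 * Kh51 y - 4 * Kh33 y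

/-- Block (E1): the Eisenstein series of weight 4. -/
def StE1 : Prop := ∀ y : ℝ, y0 ≤ y → Gh y = ((-(32 * Real.pi ^ 4 / 3) * F4 y : ℝ) : ℂ)

/-- Block (E2): the Kronecker limit formula on the line. -/
def StE2 : Prop := ∀ y : ℝ, y0 ≤ y →
  Filter.Tendsto (LhPart y) Filter.atTop (nhds (-(4 * Real.pi / 3) * lx y / y))

/-- (L1) with (E1), (E2) inserted: the derivative of `Ψ`. -/
def StL1 : Prop := ∀ y : ℝ, y0 ≤ y →
  HasDerivAt PsiR (-(64 * Real.pi ^ 5 / 3) * (y * (F4 y * lx y))) y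

/-- (L2): the limit of `Ψ`. -/
def StL2 : Prop := Filter.Tendsto PsiR Filter.atTop (nhds (-(7 * Real.pi ^ 3 * zeta3 / 9)))

/-- (CM): the value of `Ψ` at `τ₀`. -/
def StCM : Prop := (TL y0 + 2 * Kh42 y0).re = -135 * (lat0 / 2 - lat1 / 54)

end Pool.Agent.Lib.BM
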