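import Mathlib
import Pool.Agent.Lib.BM.LDefs

set_option autoImplicit false

/-!
# BM.E1: the Eisenstein series of weight 4 as a lattice sum

Summability of the simple lattice sums over `ℤ τ + ℤ`, the Lipschitz formula on a strip, and
`Gh y = -(32 π^4 / 3) F4 y`.
-/

namespace Pool.Agent.Lib.BM

open Complex Filter Topology

namespace E1Aux

/-- The point `1/2 + i y` of the upper half plane. -/
noncomputable def tt (y : ℝ) (hy : 0 < y) : UpperHalfPlane :=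
  ⟨1 / 2 + I * (y : ℂ), by simpa using hy⟩

lemma lam_eq {y : ℝ} (hy : 0 < y) (p : ℤ × ℤ) :
    lam y p = (p.1 : ℂ) * (tt y hy : ℂ) + (p.2 : ℂ) := rfl

lemma nome {y : ℝ} : cexp (2 * Real.pi * I * (1 / 2 + I * (y : ℂ))) = ((qn y : ℝ) : ℂ) := by
  have h1 : (2 * Real.pi * I * (1 / 2 + I * (y : ℂ)) : ℂ) =
      Real.pi * I + ((-(2 * Real.pi * y) : ℝ) : ℂ) := by
    push_cast
    linear_combination (2 * Real.pi * y : ℂ) * I_mul_I
  rw [h1, Complex.exp_add, Complex.exp_pi_mul_I, ← Complex.ofReal_exp, qn]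
  push_cast
  ring

lemma qn_abs {y : ℝ} (hy : 0 < y) : |qn y| < 1 := by
  rw [qn, abs_neg, abs_of_pos (Real.exp_pos _), Real.exp_lt_one_iff]
  have := Real.pi_pos
  nlinarith [mul_pos this hy]

end E1Aux

open E1Aux

/-- The lattice sum of `|λ|^{-k}` converges for `k ≥ 3`. -/
theorem E1_norm {y : ℝ} (hy : 0 < y) (k : ℕ) (hk : 3 ≤ k) :
    Summable fun p : ℤ × ℤ => ‖lam y p‖⁻¹ ^ k := by
  have h := (summable_prod_eisSummand hk (tt y hy)).norm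
  refine h.congr (fun p => ?_)
  rw [lam_eq hy, EisensteinSeries.eisSummand]
  simp [zpow_neg, inv_pow]

/-- Absolute convergence of the weighted lattice sums. -/
theorem E1_summable {y : ℝ} (hy : 0 < y) {W : ℤ → ℝ} (C : ℝ) (hW : ∀ m, |W m| ≤ C) (a b : ℕ)
    (hab : 3 ≤ a + b) :
    Summable fun p : ℤ × ℤ => (W p.1 : ℂ) * (av y p ^ a * (starRingEnd ℂ) (av y p) ^ b) := by
  refine Summable.of_norm_bounded ((E1_norm hy (a + b) hab).mul_left C) (fun p => ?_)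
  unfold av
  rw [norm_mul, norm_mul, norm_pow, norm_pow, norm_inv, RCLike.norm_conj, norm_inv, ← pow_add,
    Complex.norm_real, Real.norm_eq_abs]
  exact mul_le_mul_of_nonneg_right (hW _) (by positivity)

/-- A strip is summable. -/
theorem E1_strip_summable (y : ℝ) (m : ℤ) (k : ℕ) (hk : 2 ≤ k) :
    Summable fun n : ℤ => (lam y (m, n))⁻¹ ^ k := by
  have h := EisensteinSeries.linear_right_summable (1 / 2 + I * (y : ℂ)) m (k := k) (by exact_mod_cast hk)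
  refine h.congr (fun n => ?_)
  simp [lam]

/-- The Lipschitz formula on the strip `m ≥ 1`. -/
theorem E1_strip {y : ℝ} (hy : 0 < y) (m : ℕ+) :
    ∑' n : ℤ, (lam y ((m : ℕ), n))⁻¹ ^ 4 =
      ((8 * Real.pi ^ 4 / 3 * ∑' d : ℕ+, ((d : ℕ) : ℝ) ^ 3 * qn y ^ ((m : ℕ) * (d : ℕ)) : ℝ) : ℂ) := by
  have hz : 0 < (((m : ℕ) : ℂ) * (1 / 2 + I * (y : ℂ))).im := by
    simpa using hy
  have h := EisensteinSeries.qExpansion_identity_pnat (k := 3) (by norm_num)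
    ⟨((m : ℕ) : ℂ) * (1 / 2 + I * (y : ℂ)), hz⟩
  have h1 : ∀ n : ℤ, (lam y ((m : ℕ), n))⁻¹ ^ 4 =
      1 / ((((m : ℕ) : ℂ) * (1 / 2 + I * (y : ℂ))) + n) ^ (3 + 1) := by
    intro n
    simp [lam]
  rw [tsum_congr h1]
  refine h.trans ?_
  have h2 : cexp (2 * Real.pi * I * (((m : ℕ) : ℂ) * (1 / 2 + I * (y : ℂ)))) =
      ((qn y : ℝ) : ℂ) ^ (m : ℕ) := by
    rw [← nome, ← Complex.exp_nat_mul]
    congr 1
    ring
  simp only [UpperHalfPlane.coe_mk]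
  rw [h2, Complex.ofReal_mul, Complex.ofReal_tsum]
  have h3 : ((-2 * Real.pi * I) ^ (3 + 1) / (Nat.factorial 3 : ℕ) : ℂ) = ((8 * Real.pi ^ 4 / 3 : ℝ) : ℂ) := by
    have : (-2 * Real.pi * I : ℂ) ^ (3 + 1) = 16 * Real.pi ^ 4 := by
      rw [mul_pow, mul_pow, show (3 + 1 : ℕ) = 4 from rfl, I_pow_four]
      ring
    rw [this]
    push_cast [Nat.factorial]
    ring
  rw [h3]
  congr 1
  refine tsum_congr (fun d => ?_)
  push_cast
  rw [pow_mul]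

namespace E1Aux

/-- The Lambert coefficients. -/
noncomputable def gq (q : ℝ) (m : ℕ+) : ℝ := ∑' d : ℕ+, ((d : ℕ) : ℝ) ^ 3 * q ^ ((m : ℕ) * (d : ℕ))

lemma gq_summable {q : ℝ} (hq : |q| < 1) : Summable (gq q) := by
  have h := (summable_prod_mul_pow (𝕜 := ℝ) 3 (r := q) (by rwa [Real.norm_eq_abs])).prod
  exact h

lemma S3_eq {q : ℝ} (hq : |q| < 1) : S3 q = ∑' m : ℕ+, gq q m := by
  have hq' : ‖q‖ < 1 := by rwa [Real.norm_eq_abs]
  have h1 := tsum_pow_div_one_sub_eq_tsum_sigma (𝕜 := ℝ) hq' 3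
  have h2 := tsum_prod_pow_eq_tsum_sigma (𝕜 := ℝ) 3 hq'
  have h3 : S3 q = ∑' n : ℕ+, ((n : ℕ) : ℝ) ^ 3 * q ^ (n : ℕ) / (1 - q ^ (n : ℕ)) := by
    rw [tsum_pnat_eq_tsum_succ (f := fun n : ℕ => (n : ℝ) ^ 3 * q ^ n / (1 - q ^ n))]
    unfold S3
    refine tsum_congr (fun n => ?_)
    push_cast
    rfl
  rw [h3]
  exact h1.trans h2.symm

lemma gq_pow (q : ℝ) (k m : ℕ+) : gq (q ^ (k : ℕ)) m = gq q (k * m) := by
  unfold gq
  refine tsum_congr (fun d => ?_)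
  rw [← pow_mul, PNat.mul_coe]
  congr 2
  ring

lemma tsum_dvd (k : ℕ+) (g : ℕ+ → ℝ) :
    ∑' m : ℕ+, (if (k : ℕ) ∣ (m : ℕ) then g m else 0) = ∑' m : ℕ+, g (k * m) := by
  have hinj : Function.Injective (fun m : ℕ+ => k * m) := mul_right_injective k
  have hsupp : Function.support (fun m : ℕ+ => if (k : ℕ) ∣ (m : ℕ) then g m else 0) ⊆
      Set.range (fun m : ℕ+ => k * m) := by
    intro m hm
    rw [Function.mem_support] at hm
    have hk : (k : ℕ) ∣ (m : ℕ) := by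
      by_contra hcon
      rw [if_neg hcon] at hm
      exact hm rfl
    rw [← PNat.dvd_iff] at hk
    obtain ⟨c, hc⟩ := hk
    exact ⟨c, hc.symm⟩
  rw [← hinj.tsum_eq hsupp]
  refine tsum_congr (fun m => ?_)
  rw [if_pos (by rw [PNat.mul_coe]; exact dvd_mul_right _ _)]

lemma summable_dvd (k : ℕ+) {g : ℕ+ → ℝ} (hg : Summable g) :
    Summable fun m : ℕ+ => (if (k : ℕ) ∣ (m : ℕ) then g m else 0) := by
  have h := hg.indicator {m : ℕ+ | (k : ℕ) ∣ (m : ℕ)}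
  refine h.congr (fun m => ?_)
  rw [Set.indicator_apply]
  rfl

lemma Wh_eq (m : ℕ+) (x : ℝ) : Wh ((m : ℕ) : ℤ) * x = 2 * (x - (if ((2 : ℕ+) : ℕ) ∣ (m : ℕ) then x else 0)
    - 9 * (if ((3 : ℕ+) : ℕ) ∣ (m : ℕ) then x else 0)
    + 9 * (if ((6 : ℕ+) : ℕ) ∣ (m : ℕ) then x else 0)) := by
  have e2 : ((2 : ℕ+) : ℕ) = 2 := rfl
  have e3 : ((3 : ℕ+) : ℕ) = 3 := rfl
  have e6 : ((6 : ℕ+) : ℕ) = 6 := rfl
  rw [e2, e3, e6]
  generalize (m : ℕ) = n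
  unfold Wh chiR uR
  have a2 : Even ((n : ℕ) : ℤ) ↔ 2 ∣ n := by
    rw [even_iff_two_dvd]
    exact_mod_cast Int.natCast_dvd_natCast (m := 2) (n := n)
  have a3 : (3 : ℤ) ∣ ((n : ℕ) : ℤ) ↔ 3 ∣ n := by
    exact_mod_cast Int.natCast_dvd_natCast (m := 3) (n := n)
  simp only [a2, a3]
  by_cases h2 : 2 ∣ n <;> by_cases h3 : 3 ∣ n
  · have h6 : 6 ∣ n := by omega
    simp [h2, h3, h6]
  · have h6 : ¬ 6 ∣ n := by omega
    simp [h2, h3, h6]
  · have h6 : ¬ 6 ∣ n := by omega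
    simp only [h2, h3, h6, if_true, if_false]
    ring
  · have h6 : ¬ 6 ∣ n := by omega
    simp only [h2, h3, h6, if_false]
    ring

lemma Wh_sum {q : ℝ} (hq : |q| < 1) : ∑' m : ℕ+, Wh ((m : ℕ) : ℤ) * gq q m =
    2 * (S3 q - S3 (q ^ 2) - 9 * S3 (q ^ 3) + 9 * S3 (q ^ 6)) := by
  have hs := gq_summable hq
  have hpow : ∀ k : ℕ+, S3 (q ^ (k : ℕ)) = ∑' m : ℕ+, (if (k : ℕ) ∣ (m : ℕ) then gq q m else 0) := by
    intro k
    have h1 : |q ^ (k : ℕ)| < 1 := by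
      rw [abs_pow]
      exact pow_lt_one₀ (abs_nonneg _) hq k.ne_zero
    rw [S3_eq h1, tsum_dvd]
    exact tsum_congr (fun m => gq_pow q k m)
  have h2 := hpow 2
  have h3 := hpow 3
  have h6 := hpow 6
  rw [show ((2 : ℕ+) : ℕ) = 2 from rfl] at h2
  rw [show ((3 : ℕ+) : ℕ) = 3 from rfl] at h3
  rw [show ((6 : ℕ+) : ℕ) = 6 from rfl] at h6
  rw [h2, h3, h6, S3_eq hq, tsum_congr (fun m => Wh_eq m (gq q m)), tsum_mul_left]
  congr 1
  have s2 := summable_dvd 2 hs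
  have s3 := summable_dvd 3 hs
  have s6 := summable_dvd 6 hs
  rw [((hs.sub s2).sub (s3.mul_left 9)).tsum_add (s6.mul_left 9),
    (hs.sub s2).tsum_sub (s3.mul_left 9), hs.tsum_sub s2, tsum_mul_left, tsum_mul_left]
  rfl

lemma Wh_bound (m : ℤ) : |Wh m| ≤ 16 := by
  unfold Wh chiR uR
  split_ifs <;> norm_num

lemma Wh_neg (m : ℤ) : Wh (-m) = Wh m := by
  unfold Wh chiR uR
  simp only [even_neg, dvd_neg]

lemma Wh_zero : Wh 0 = 0 := by
  unfold Wh chiR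
  simp

end E1Aux

/-- (E1) -/
theorem E1_Gh' {y : ℝ} (hy : 0 < y) : Gh y = ((-(32 * Real.pi ^ 4 / 3) * F4 y : ℝ) : ℂ) := by
  have hs := E1_summable hy 16 Wh_bound 4 0 (by norm_num)
  have h1 : Gh y = ∑' m : ℤ, (Wh m : ℂ) * ∑' n : ℤ, (lam y (m, n))⁻¹ ^ 4 := by
    unfold Gh Kab
    rw [hs.tsum_prod]
    refine tsum_congr (fun m => ?_)
    rw [← tsum_mul_left]
    refine tsum_congr (fun n => ?_)
    simp [av]
  have h2 : Summable fun m : ℤ => (Wh m : ℂ) * ∑' n : ℤ, (lam y (m, n))⁻¹ ^ 4 := by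
    refine hs.prod.congr (fun m => ?_)
    rw [← tsum_mul_left]
    refine tsum_congr (fun n => ?_)
    simp [av]
  have h3 : Function.Even (fun m : ℤ => (Wh m : ℂ) * ∑' n : ℤ, (lam y (m, n))⁻¹ ^ 4) := by
    intro m
    show (Wh (-m) : ℂ) * ∑' n : ℤ, (lam y (-m, n))⁻¹ ^ 4 = (Wh m : ℂ) * ∑' n : ℤ, (lam y (m, n))⁻¹ ^ 4
    rw [Wh_neg]
    congr 1
    rw [← (Equiv.neg ℤ).tsum_eq]
    refine tsum_congr (fun n => ?_)
    have : lam y (-m, (Equiv.neg ℤ) n) = -lam y (m, n) := by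
      simp only [lam, Equiv.neg_apply]
      push_cast
      ring
    rw [this, inv_neg]
    ring
  rw [h1, tsum_int_eq_zero_add_two_mul_tsum_pnat h3 h2]
  simp only [Wh_zero, Complex.ofReal_zero, zero_mul, zero_add]
  have h4 : ∀ m : ℕ+, ((Wh ((m : ℕ) : ℤ) : ℝ) : ℂ) * ∑' n : ℤ, (lam y (((m : ℕ) : ℤ), n))⁻¹ ^ 4 =
      (((8 * Real.pi ^ 4 / 3) * (Wh ((m : ℕ) : ℤ) * gq (qn y) m) : ℝ) : ℂ) := by
    intro m
    rw [E1_strip hy m]
    unfold gq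
    push_cast
    ring
  have h5 : ∑' m : ℕ+, ((Wh ((m : ℕ) : ℤ) : ℝ) : ℂ) * ∑' n : ℤ, (lam y (((m : ℕ) : ℤ), n))⁻¹ ^ 4 =
      (((8 * Real.pi ^ 4 / 3) * (2 * (S3 (qn y) - S3 (qn y ^ 2) - 9 * S3 (qn y ^ 3) +
        9 * S3 (qn y ^ 6))) : ℝ) : ℂ) := by
    rw [tsum_congr h4, ← Complex.ofReal_tsum, tsum_mul_left, Wh_sum (qn_abs hy)]
  rw [nsmul_eq_mul]
  refine (congrArg (fun t => ((2 : ℕ) : ℂ) * t) h5).trans ?_
  unfold F4
  push_cast
  ring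

/-- (E1) in the frozen form. -/
theorem stE1 : StE1 := by
  intro y hy
  have h0 : 0 < y0 := by
    unfold y0
    positivity
  exact E1_Gh' (lt_of_lt_of_le h0 hy)

end Pool.Agent.Lib.BM
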