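import Mathlib
import Pool.Agent.Lib.BM.CmDefs
import Pool.Agent.Lib.BM.E1

set_option autoImplicit false

/-!
# BM.CmF3: absolute convergence of the lattice sums of the cochains
-/

namespace Pool.Agent.Lib.BM.Cm

namespace F3Aux

lemma EE_norm (qi qj qk a b : ℂ) : ‖EE' qi qj qk a b‖ ≤
    2 * ‖qj‖ * (‖a‖⁻¹ ^ 3 * ‖b‖⁻¹) + (‖qi‖ + ‖qj‖ + ‖qk‖) * (‖a‖⁻¹ ^ 2 * ‖b‖⁻¹ ^ 2) +
      2 * ‖qk‖ * (‖a‖⁻¹ * ‖b‖⁻¹ ^ 3) := by
  unfold EE'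
  have h1 : ‖2 * qj / (a ^ 3 * b)‖ = 2 * ‖qj‖ * (‖a‖⁻¹ ^ 3 * ‖b‖⁻¹) := by
    rw [norm_div, norm_mul, norm_mul, norm_pow, div_eq_mul_inv, mul_inv, inv_pow]
    simp
  have h3 : ‖2 * qk / (a * b ^ 3)‖ = 2 * ‖qk‖ * (‖a‖⁻¹ * ‖b‖⁻¹ ^ 3) := by
    rw [norm_div, norm_mul, norm_mul, norm_pow, div_eq_mul_inv, mul_inv, inv_pow]
    simp
  have h2 : ‖(qi - qj - qk) / (a ^ 2 * b ^ 2)‖ ≤ (‖qi‖ + ‖qj‖ + ‖qk‖) * (‖a‖⁻¹ ^ 2 * ‖b‖⁻¹ ^ 2) := by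
    rw [norm_div, norm_mul, norm_pow, norm_pow, div_eq_mul_inv, mul_inv, inv_pow, inv_pow]
    refine mul_le_mul_of_nonneg_right ?_ (by positivity)
    exact (norm_sub_le _ _).trans (add_le_add_left (norm_sub_le _ _) _)
  refine (norm_add_le _ _).trans ?_
  rw [h3]
  refine add_le_add_left ((norm_add_le _ _).trans ?_) _
  rw [h1]
  exact add_le_add_right h2 _

lemma mono_bd {X Y Z : ℝ} (hX : 0 ≤ X) (hY : 0 ≤ Y) (hZ : 0 ≤ Z) (h1 : Y ≤ X) (h2 : Z ≤ X) (h3 : Z ≤ 2 * Y)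
    {a b c : ℝ} (ha : 0 ≤ a) (hb : 0 ≤ b) (hc : 0 ≤ c) :
    (2 * a * (X ^ 3 * Y) + (c + a + b) * (X ^ 2 * Y ^ 2) + 2 * b * (X * Y ^ 3)) * (Y * Z) +
      (2 * b * (Y ^ 3 * Z) + (a + b + c) * (Y ^ 2 * Z ^ 2) + 2 * c * (Y * Z ^ 3)) * (X * Y) ≤
      6 * (a + b + c) * (X ^ 3 * Y ^ 3) := by
  have m1 : X ^ 3 * Y * (Y * Z) ≤ 2 * (X ^ 3 * Y ^ 3) := by
    calc X ^ 3 * Y * (Y * Z) = (X ^ 3 * Y ^ 2) * Z := by ring
      _ ≤ (X ^ 3 * Y ^ 2) * (2 * Y) := mul_le_mul_of_nonneg_left h3 (by positivity)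
      _ = _ := by ring
  have m2 : X ^ 2 * Y ^ 2 * (Y * Z) ≤ X ^ 3 * Y ^ 3 := by
    calc X ^ 2 * Y ^ 2 * (Y * Z) = (X ^ 2 * Y ^ 3) * Z := by ring
      _ ≤ (X ^ 2 * Y ^ 3) * X := mul_le_mul_of_nonneg_left h2 (by positivity)
      _ = _ := by ring
  have m3 : X * Y ^ 3 * (Y * Z) ≤ X ^ 3 * Y ^ 3 := by
    calc X * Y ^ 3 * (Y * Z) = (X * Y ^ 3) * (Y * Z) := by ring
      _ ≤ (X * Y ^ 3) * (X * X) := mul_le_mul_of_nonneg_left (mul_le_mul h1 h2 hZ hX) (by positivity)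
      _ = _ := by ring
  have m4 : Y ^ 3 * Z * (X * Y) ≤ X ^ 3 * Y ^ 3 := by
    calc Y ^ 3 * Z * (X * Y) = (X * Y ^ 3) * (Y * Z) := by ring
      _ ≤ (X * Y ^ 3) * (X * X) := mul_le_mul_of_nonneg_left (mul_le_mul h1 h2 hZ hX) (by positivity)
      _ = _ := by ring
  have m5 : Y ^ 2 * Z ^ 2 * (X * Y) ≤ X ^ 3 * Y ^ 3 := by
    calc Y ^ 2 * Z ^ 2 * (X * Y) = (X * Y ^ 3) * (Z * Z) := by ring
      _ ≤ (X * Y ^ 3) * (X * X) := mul_le_mul_of_nonneg_left (mul_le_mul h2 h2 hZ hX) (by positivity)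
      _ = _ := by ring
  have m6 : Y * Z ^ 3 * (X * Y) ≤ 2 * (X ^ 3 * Y ^ 3) := by
    calc Y * Z ^ 3 * (X * Y) = (X * Y ^ 2 * (Z * Z)) * Z := by ring
      _ ≤ (X * Y ^ 2 * (Z * Z)) * (2 * Y) := mul_le_mul_of_nonneg_left h3 (by positivity)
      _ = (2 * (X * Y ^ 3)) * (Z * Z) := by ring
      _ ≤ (2 * (X * Y ^ 3)) * (X * X) := mul_le_mul_of_nonneg_left (mul_le_mul h2 h2 hZ hX) (by positivity)
      _ = _ := by ring
  have hs : 0 ≤ a + b + c := by positivity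
  have k1 := mul_le_mul_of_nonneg_left m1 (by positivity : 0 ≤ 2 * a)
  have k2 := mul_le_mul_of_nonneg_left m2 hs
  have k3 := mul_le_mul_of_nonneg_left m3 (by positivity : 0 ≤ 2 * b)
  have k4 := mul_le_mul_of_nonneg_left m4 (by positivity : 0 ≤ 2 * b)
  have k5 := mul_le_mul_of_nonneg_left m5 hs
  have k6 := mul_le_mul_of_nonneg_left m6 (by positivity : 0 ≤ 2 * c)
  calc _ = 2 * a * (X ^ 3 * Y * (Y * Z)) + (a + b + c) * (X ^ 2 * Y ^ 2 * (Y * Z)) +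
        2 * b * (X * Y ^ 3 * (Y * Z)) + 2 * b * (Y ^ 3 * Z * (X * Y)) +
        (a + b + c) * (Y ^ 2 * Z ^ 2 * (X * Y)) + 2 * c * (Y * Z ^ 3 * (X * Y)) := by ring
    _ ≤ 2 * a * (2 * (X ^ 3 * Y ^ 3)) + (a + b + c) * (X ^ 3 * Y ^ 3) + 2 * b * (X ^ 3 * Y ^ 3) +
        2 * b * (X ^ 3 * Y ^ 3) + (a + b + c) * (X ^ 3 * Y ^ 3) + 2 * c * (2 * (X ^ 3 * Y ^ 3)) := by
      linarith
    _ = _ := by ring

/-- The bound when the first of the three numbers is the smallest. -/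
lemma bd_first (q1 q2 q3 : ℂ) {x y z : ℂ} (hz : z = -(x + y)) (hx : x ≠ 0)
    (h1 : ‖x‖ ≤ ‖y‖) (h2 : ‖x‖ ≤ ‖z‖) :
    ‖Dst (q1, q2, q3) (x, y)‖ ≤ 6 * (‖q1‖ + ‖q2‖ + ‖q3‖) * (‖x‖⁻¹ ^ 3 * ‖y‖⁻¹ ^ 3) := by
  have hx0 : 0 < ‖x‖ := norm_pos_iff.2 hx
  have hy0 : 0 < ‖y‖ := lt_of_lt_of_le hx0 h1
  have hz0 : 0 < ‖z‖ := lt_of_lt_of_le hx0 h2
  have h3 : ‖y‖ ≤ 2 * ‖z‖ := by
    have : y = -x - z := by rw [hz]; ring
    have h4 : ‖y‖ ≤ ‖x‖ + ‖z‖ := by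
      rw [this]
      exact (norm_sub_le _ _).trans (by rw [norm_neg])
    linarith
  have hXY : ‖y‖⁻¹ ≤ ‖x‖⁻¹ := inv_anti₀ hx0 h1
  have hXZ : ‖z‖⁻¹ ≤ ‖x‖⁻¹ := inv_anti₀ hx0 h2
  have hZY : ‖z‖⁻¹ ≤ 2 * ‖y‖⁻¹ := by
    rw [inv_eq_one_div, inv_eq_one_div, mul_one_div, div_le_div_iff₀ hz0 hy0]
    linarith
  have e1 : Dst (q1, q2, q3) (x, y) = EE' q3 q1 q2 x y * (starRingEnd ℂ) (y * z)⁻¹ -
      EE' q1 q2 q3 y z * (starRingEnd ℂ) (x * y)⁻¹ := by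
    unfold Dst
    simp only
    rw [← hz]
  rw [e1]
  refine (norm_sub_le _ _).trans ?_
  rw [norm_mul, norm_mul, RCLike.norm_conj, RCLike.norm_conj, norm_inv, norm_inv, norm_mul, norm_mul,
    mul_inv, mul_inv]
  refine le_trans ?_ (mono_bd (by positivity) (by positivity) (by positivity) hXY hXZ hZY
    (norm_nonneg q1) (norm_nonneg q2) (norm_nonneg q3))
  exact add_le_add (mul_le_mul_of_nonneg_right (EE_norm q3 q1 q2 x y) (by positivity))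
    (mul_le_mul_of_nonneg_right (EE_norm q1 q2 q3 y z) (by positivity))

/-- The master bound. -/
lemma bd (q1 q2 q3 x y : ℂ) : ‖Dst (q1, q2, q3) (x, y)‖ ≤ 6 * (‖q1‖ + ‖q2‖ + ‖q3‖) *
    (‖x‖⁻¹ ^ 3 * ‖y‖⁻¹ ^ 3 + ‖y‖⁻¹ ^ 3 * ‖-(x + y)‖⁻¹ ^ 3 + ‖-(x + y)‖⁻¹ ^ 3 * ‖x‖⁻¹ ^ 3) := by
  have hq : 0 ≤ 6 * (‖q1‖ + ‖q2‖ + ‖q3‖) := by positivity
  by_cases hx : x = 0
  · have : Dst (q1, q2, q3) (x, y) = 0 := by
      unfold Dst EE'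
      simp [hx]
    rw [this, norm_zero]
    positivity
  by_cases hy : y = 0
  · have : Dst (q1, q2, q3) (x, y) = 0 := by
      unfold Dst EE'
      simp [hy]
    rw [this, norm_zero]
    positivity
  by_cases hz : -(x + y) = 0
  · have : Dst (q1, q2, q3) (x, y) = 0 := by
      unfold Dst EE'
      simp [hz]
    rw [this, norm_zero]
    positivity
  set z := -(x + y) with hzdef
  have p1 : 0 ≤ ‖x‖⁻¹ ^ 3 * ‖y‖⁻¹ ^ 3 := by positivity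
  have p2 : 0 ≤ ‖y‖⁻¹ ^ 3 * ‖z‖⁻¹ ^ 3 := by positivity
  have p3 : 0 ≤ ‖z‖⁻¹ ^ 3 * ‖x‖⁻¹ ^ 3 := by positivity
  have c1 : Dst (q1, q2, q3) (x, y) = Dst (q2, q3, q1) (y, z) := (Dst_cycle q1 q2 q3 x y).symm
  have e2 : -(y + z) = x := by rw [hzdef]; ring
  have c2 : Dst (q2, q3, q1) (y, z) = Dst (q3, q1, q2) (z, x) := by
    rw [← Dst_cycle q2 q3 q1 y z, e2]
  by_cases a1 : ‖x‖ ≤ ‖y‖ ∧ ‖x‖ ≤ ‖z‖
  · refine (bd_first q1 q2 q3 hzdef hx a1.1 a1.2).trans (mul_le_mul_of_nonneg_left ?_ hq)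
    linarith
  by_cases a2 : ‖y‖ ≤ ‖z‖ ∧ ‖y‖ ≤ ‖x‖
  · rw [c1]
    refine (bd_first q2 q3 q1 e2.symm hy a2.1 a2.2).trans ?_
    rw [show ‖q2‖ + ‖q3‖ + ‖q1‖ = ‖q1‖ + ‖q2‖ + ‖q3‖ by ring]
    refine mul_le_mul_of_nonneg_left ?_ hq
    linarith
  · have a3 : ‖z‖ ≤ ‖x‖ ∧ ‖z‖ ≤ ‖y‖ := by
      rw [not_and_or, not_le, not_le] at a1 a2
      constructor
      · rcases a1 with h | h
        · rcases a2 with h' | h'
          · linarith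
          · linarith
        · exact h.le
      · rcases a1 with h | h
        · rcases a2 with h' | h'
          · exact h'.le
          · linarith
        · rcases a2 with h' | h'
          · exact h'.le
          · linarith
    rw [c1, c2]
    have e3 : y = -(z + x) := by rw [hzdef]; ring
    refine (bd_first q3 q1 q2 e3 hz a3.1 a3.2).trans ?_
    rw [show ‖q3‖ + ‖q1‖ + ‖q2‖ = ‖q1‖ + ‖q2‖ + ‖q3‖ by ring]
    refine mul_le_mul_of_nonneg_left ?_ hq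
    linarith

lemma y0_pos : 0 < y0 := by
  unfold y0
  positivity

lemma tau0_eq : tau0 = 1 / 2 + Complex.I * (y0 : ℂ) := by
  unfold tau0 y0
  push_cast
  ring

lemma mem_Lam0 {z : ℂ} : z ∈ Lam0 ↔ ∃ p : ℤ × ℤ, z = lam y0 p := by
  constructor
  · rintro ⟨m, n, h⟩
    exact ⟨(m, n), by rw [h, lam, tau0_eq]⟩
  · rintro ⟨p, h⟩
    exact ⟨p.1, p.2, by rw [h, lam, tau0_eq]⟩

/-- The cubes of the inverse norms. -/
noncomputable def gg (p : ℤ × ℤ) : ℝ := ‖lam y0 p‖⁻¹ ^ 3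

lemma gg_nonneg (p : ℤ × ℤ) : 0 ≤ gg p := by
  unfold gg
  positivity

lemma gg_summable : Summable gg := E1_norm y0_pos 3 le_rfl

lemma prod_summable : Summable fun P : (ℤ × ℤ) × (ℤ × ℤ) => gg P.1 * gg P.2 :=
  gg_summable.mul_of_nonneg gg_summable gg_nonneg gg_nonneg

/-- The rotation of triples. -/
def rot : (ℤ × ℤ) × (ℤ × ℤ) ≃ (ℤ × ℤ) × (ℤ × ℤ) where
  toFun P := (P.2, -P.1 - P.2)
  invFun P := (-P.1 - P.2, P.1)
  left_inv P := by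
    refine Prod.ext ?_ rfl
    show -P.2 - (-P.1 - P.2) = P.1
    abel
  right_inv P := by
    refine Prod.ext rfl ?_
    show -(-P.1 - P.2) - P.1 = P.2
    abel

lemma tot_summable : Summable fun P : (ℤ × ℤ) × (ℤ × ℤ) =>
    gg P.1 * gg P.2 + gg P.2 * gg (-P.1 - P.2) + gg (-P.1 - P.2) * gg P.1 := by
  have h2 := rot.summable_iff.2 prod_summable
  have h3 := rot.summable_iff.2 h2
  refine (prod_summable.add h2).add (h3.congr (fun P => ?_))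
  have : -P.2 - (-P.1 - P.2) = P.1 := by abel
  simp only [Function.comp, rot, Equiv.coe_fn_mk, this]

end F3Aux

open F3Aux

/-- (F3) absolute convergence of the depth two sums. -/
theorem summable_Dst {M : Set (ℂ × ℂ)} (hM : Nice M) (q : ℂ × ℂ × ℂ) :
    Summable (fun v : M => Dst q v) := by
  obtain ⟨c, hc, hM⟩ := hM
  have hc' : (c : ℂ) ≠ 0 := by exact_mod_cast hc
  have h1 : ∀ v : M, ∃ P : (ℤ × ℤ) × (ℤ × ℤ), (c : ℂ) * v.1.1 = lam y0 P.1 ∧ (c : ℂ) * v.1.2 = lam y0 P.2 := by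
    intro v
    obtain ⟨p, hp⟩ := mem_Lam0.1 (hM v.1 v.2).1
    obtain ⟨r, hr⟩ := mem_Lam0.1 (hM v.1 v.2).2
    exact ⟨(p, r), hp, hr⟩
  choose f hf1 hf2 using h1
  have hinj : Function.Injective f := by
    intro v w h
    have a1 : (c : ℂ) * v.1.1 = (c : ℂ) * w.1.1 := by rw [hf1, hf1, h]
    have a2 : (c : ℂ) * v.1.2 = (c : ℂ) * w.1.2 := by rw [hf2, hf2, h]
    exact Subtype.ext (Prod.ext (mul_left_cancel₀ hc' a1) (mul_left_cancel₀ hc' a2))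
  have hs := (tot_summable.comp_injective hinj).mul_left
    (6 * (‖q.1‖ + ‖q.2.1‖ + ‖q.2.2‖) * ‖(c : ℂ)‖ ^ 6)
  refine Summable.of_norm_bounded hs (fun v => ?_)
  have hb := bd q.1 q.2.1 q.2.2 v.1.1 v.1.2
  have hcn : (‖(c : ℂ)‖ : ℝ) ≠ 0 := norm_ne_zero_iff.2 hc'
  have key : ∀ (x : ℂ) (p : ℤ × ℤ), (c : ℂ) * x = lam y0 p → ‖x‖⁻¹ ^ 3 = ‖(c : ℂ)‖ ^ 3 * gg p := by
    intro x p h
    unfold gg
    rw [← h, norm_mul, mul_inv, mul_pow, ← mul_assoc, ← mul_pow, mul_inv_cancel₀ hcn, one_pow, one_mul]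
  have k1 := key _ _ (hf1 v)
  have k2 := key _ _ (hf2 v)
  have k3 := key (-(v.1.1 + v.1.2)) (-(f v).1 - (f v).2) (by
    have a1 := hf1 v
    have a2 := hf2 v
    have : lam y0 (-(f v).1 - (f v).2) = -lam y0 (f v).1 - lam y0 (f v).2 := by
      simp only [lam, Prod.fst_sub, Prod.fst_neg, Prod.snd_sub, Prod.snd_neg]
      push_cast
      ring
    rw [this, ← a1, ← a2]
    ring)
  rw [k1, k2, k3] at hb
  refine hb.trans (le_of_eq ?_)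
  simp only [Function.comp]
  ring

/-- (F3) absolute convergence of the depth one sums. -/
theorem summable_kap {J : Set ℂ} (hJ : Nice1 J) : Summable (fun t : J => kap t) := by
  obtain ⟨c, hc, hJ⟩ := hJ
  have hc' : (c : ℂ) ≠ 0 := by exact_mod_cast hc
  have h1 : ∀ t : J, ∃ p : ℤ × ℤ, (c : ℂ) * t.1 = lam y0 p := fun t => mem_Lam0.1 (hJ t.1 t.2)
  choose f hf using h1
  have hinj : Function.Injective f := by
    intro v w h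
    have a1 : (c : ℂ) * v.1 = (c : ℂ) * w.1 := by rw [hf, hf, h]
    exact Subtype.ext (mul_left_cancel₀ hc' a1)
  have hs := ((E1_norm y0_pos 6 (by norm_num)).comp_injective hinj).mul_left (‖(c : ℂ)‖ ^ 6)
  refine Summable.of_norm_bounded hs (fun t => ?_)
  have hcn : (‖(c : ℂ)‖ : ℝ) ≠ 0 := norm_ne_zero_iff.2 hc'
  unfold kap
  rw [norm_inv, norm_mul, norm_pow, norm_pow, RCLike.norm_conj]
  simp only [Function.comp]
  rw [← hf t, norm_mul, mul_inv ‖(c : ℂ)‖, mul_pow, ← mul_assoc, ← mul_pow, mul_inv_cancel₀ hcn, one_pow,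
    one_mul, ← pow_add, inv_pow]

theorem stF3 : StF3 := ⟨fun _ hM q => summable_Dst hM q, fun _ hJ => summable_kap hJ⟩

end Pool.Agent.Lib.BM.Cm
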