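import Pool.Agent.Lib.BM.CmNice

set_option autoImplicit false

/-!
# BM.CmF5: the summed four-term relation
-/

namespace Pool.Agent.Lib.BM.Cm

/-- homogeneity of `kap` -/
lemma kap_mul (s t : ℂ) : kap (s * t) = kap s * kap t := by
  unfold kap
  rw [map_mul, ← mul_inv]
  congr 1
  ring

lemma ev_smul_right (s : ℂ) (a v : ℂ × ℂ) : ev a (s • v) = s * ev a v := by
  unfold ev; simp only [Prod.smul_fst, Prod.smul_snd, smul_eq_mul]; ring

/-- homogeneity -/
lemma Dc_hom (P : ℂ × ℂ × ℂ) (a b c : ℂ × ℂ) (s : ℂ) (v : ℂ × ℂ) :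
    Dc P a b c (s • v) = kap s * Dc P a b c v := by
  unfold Dc xc yc kap
  simp only [ev_smul_right, div_eq_mul_inv, map_mul, mul_inv, mul_pow, map_inv₀]
  ring

/-- sum over the points of a line -/
lemma tsum_line {M : Set (ℂ × ℂ)} {f : ℂ × ℂ → ℂ} {φ : ℂ → ℂ × ℂ} (hφ : Function.Injective φ)
    {p : ℂ × ℂ → Prop} [DecidablePred p] (hp : ∀ v ∈ M, p v → ∃ t, φ t = v)
    (hp' : ∀ t, p (φ t)) :
    ∑' v : M, (if p v then f v else 0) = ∑' t : {t | φ t ∈ M}, f (φ t) := by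
  rw [tsum_subtype M (fun v => if p v then f v else 0),
    tsum_subtype {t | φ t ∈ M} (fun t => f (φ t))]
  have h := hφ.tsum_eq (f := M.indicator (fun v => if p v then f v else 0)) (by
    intro v hv
    rw [Function.mem_support] at hv
    have hvM : v ∈ M := by
      by_contra hc
      exact hv (Set.indicator_of_notMem hc _)
    rw [Set.indicator_of_mem hvM] at hv
    have hpv : p v := by
      by_contra hc
      rw [if_neg hc] at hv
      exact hv rfl
    obtain ⟨t, ht⟩ := hp v hvM hpv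
    exact ⟨t, ht⟩)
  rw [← h]
  congr 1
  ext t
  by_cases ht : φ t ∈ M
  · rw [Set.indicator_of_mem ht, Set.indicator_of_mem (show t ∈ {t | φ t ∈ M} from ht), if_pos (hp' t)]
  · rw [Set.indicator_of_notMem ht, Set.indicator_of_notMem (show t ∉ {t | φ t ∈ M} from ht)]

/-- sum over an image -/
lemma SS_image {M : Set (ℂ × ℂ)} {g : ℂ × ℂ → ℂ × ℂ} (hg : Set.InjOn g M) (q : ℂ × ℂ × ℂ) :
    SS (g '' M) q = ∑' v : M, Dst q (g v) := by
  unfold SS
  exact tsum_image (Dst q) hg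

lemma summable_image {M : Set (ℂ × ℂ)} {g : ℂ × ℂ → ℂ × ℂ} (hg : Set.InjOn g M)
    {q : ℂ × ℂ × ℂ} (h : Summable (fun v : (g '' M : Set (ℂ × ℂ)) => Dst q v)) :
    Summable (fun v : M => Dst q (g v)) := by
  have := (Equiv.Set.imageOfInjOn g M hg).summable_iff (f := fun v : (g '' M : Set (ℂ × ℂ)) => Dst q v)
  exact this.2 h

lemma mul_conj_ne_zero {z : ℂ} (hz : z ≠ 0) : nn z ≠ 0 := by
  unfold nn
  exact mul_ne_zero hz ((map_ne_zero _).2 hz)

lemma g1_inj {d : ℂ × ℂ} (h1 : d.1 ≠ 0) (h3 : d.1 ≠ d.2) : Function.Injective (g1 d) := by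
  intro v w h
  unfold g1 at h
  have a := congrArg Prod.fst h
  have b := congrArg Prod.snd h
  simp only at a b
  have h2 : v.2 = w.2 := mul_left_cancel₀ (sub_ne_zero.2 h3) a
  have h4 : v.1 + v.2 = w.1 + w.2 := mul_left_cancel₀ h1 (neg_injective b)
  ext
  · rw [h2] at h4; exact add_right_cancel h4
  · exact h2

lemma g2_inj {d : ℂ × ℂ} (h1 : d.2 ≠ 0) (h3 : d.1 ≠ d.2) : Function.Injective (g2 d) := by
  intro v w h
  unfold g2 at h
  have a := congrArg Prod.fst h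
  have b := congrArg Prod.snd h
  simp only at a b
  have h2 : v.1 = w.1 := mul_left_cancel₀ (sub_ne_zero.2 h3.symm) a
  have h4 : v.1 + v.2 = w.1 + w.2 := mul_left_cancel₀ h1 (neg_injective b)
  ext
  · exact h2
  · rw [h2] at h4; exact add_left_cancel h4

lemma g3_inj {d : ℂ × ℂ} (h1 : d.1 ≠ 0) (h2 : d.2 ≠ 0) : Function.Injective (g3 d) := by
  intro v w h
  unfold g3 at h
  have a := congrArg Prod.fst h
  have b := congrArg Prod.snd h
  simp only at a b
  ext
  · exact mul_left_cancel₀ h1 (neg_injective a)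
  · exact mul_left_cancel₀ h2 (neg_injective b)

lemma pp_self (q : ℂ × ℂ × ℂ) (d : ℂ × ℂ) : pp (Pq q) d d = qd q d := by
  unfold pp Pq qd; ring

lemma Dc_face1 (q : ℂ × ℂ × ℂ) {d : ℂ × ℂ} (h1 : d.1 ≠ 0) (h3 : d.1 ≠ d.2) (v : ℂ × ℂ) :
    Dc (Pq q) e2 e3 d v = nn (d.1 * (d.1 - d.2)) * Dst (q1 q d) (g1 d v) := by
  have h := Dc_of_rel (Pq q) (a := e2) (b := e3) (c := d) (r := d.1 - d.2) (s := d.1) (t := 1)
    (sub_ne_zero.2 h3) h1 one_ne_zero (by unfold e2 e3; ext <;> simp <;> ring) v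
  have k1 : dt e2 e3 = 1 := by unfold dt e2 e3; simp
  have k2 : pp (Pq q) e2 e2 = q.2.1 := by unfold pp Pq e2; ring
  have k3 : pp (Pq q) e3 e3 = q.2.2 := by unfold pp Pq e3; ring
  have k4 : ev e2 v = v.2 := by unfold ev e2; ring
  have k5 : ev e3 v = -(v.1 + v.2) := by unfold ev e3; ring
  rw [h, k1, k2, k3, k4, k5, pp_self]
  unfold nn q1 g1
  rw [mul_one, one_pow, one_mul, mul_comm (d.1 - d.2) d.1, mul_neg]

lemma Dc_face2 (q : ℂ × ℂ × ℂ) {d : ℂ × ℂ} (h2 : d.2 ≠ 0) (h3 : d.1 ≠ d.2) (v : ℂ × ℂ) :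
    Dc (Pq q) e1 e3 d v = nn (d.2 * (d.1 - d.2)) * Dst (q2 q d) (g2 d v) := by
  have h := Dc_of_rel (Pq q) (a := e1) (b := e3) (c := d) (r := d.2 - d.1) (s := d.2) (t := 1)
    (sub_ne_zero.2 h3.symm) h2 one_ne_zero (by unfold e1 e3; ext <;> simp <;> ring) v
  have k1 : dt e1 e3 = -1 := by unfold dt e1 e3; simp
  have k2 : pp (Pq q) e1 e1 = q.1 := by unfold pp Pq e1; ring
  have k3 : pp (Pq q) e3 e3 = q.2.2 := by unfold pp Pq e3; ring
  have k4 : ev e1 v = v.1 := by unfold ev e1; ring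
  have k5 : ev e3 v = -(v.1 + v.2) := by unfold ev e3; ring
  rw [h, k1, k2, k3, k4, k5, pp_self]
  unfold nn q2 g2
  have e : (d.2 - d.1) * d.2 * -1 = d.2 * (d.1 - d.2) := by ring
  rw [e, one_pow, one_mul, mul_neg]

lemma Dc_face3 (q : ℂ × ℂ × ℂ) {d : ℂ × ℂ} (h1 : d.1 ≠ 0) (h2 : d.2 ≠ 0) (v : ℂ × ℂ) :
    Dc (Pq q) e1 e2 d v = nn (d.1 * d.2) * Dst (q3 q d) (g3 d v) := by
  have h := Dc_of_rel (Pq q) (a := e1) (b := e2) (c := d) (r := -d.1) (s := -d.2) (t := 1)
    (neg_ne_zero.2 h1) (neg_ne_zero.2 h2) one_ne_zero (by unfold e1 e2; ext <;> simp) v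
  have k1 : dt e1 e2 = 1 := by unfold dt e1 e2; simp
  have k2 : pp (Pq q) e1 e1 = q.1 := by unfold pp Pq e1; ring
  have k3 : pp (Pq q) e2 e2 = q.2.1 := by unfold pp Pq e2; ring
  have k4 : ev e1 v = v.1 := by unfold ev e1; ring
  have k5 : ev e2 v = v.2 := by unfold ev e2; ring
  rw [h, k1, k2, k3, k4, k5, pp_self]
  unfold nn q3 g3
  have e : -d.1 * -d.2 * 1 = d.1 * d.2 := by ring
  rw [e, one_pow, one_mul, neg_sq, neg_sq, neg_mul, neg_mul]

/-- correction on a line through the vector `u` -/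
lemma corr {M : Set (ℂ × ℂ)} (P : ℂ × ℂ × ℂ) (a b c e u : ℂ × ℂ) (hu : u ≠ 0)
    (he : ∀ v, ev e v = 0 ↔ ∃ t : ℂ, t • u = v) :
    ∑' v : M, (if ev e v = 0 then Dc P a b c v else 0) =
      Dc P a b c u * KS {t | t • u ∈ M} := by
  have hφ : Function.Injective (fun t : ℂ => t • u) := smul_left_injective ℂ hu
  rw [tsum_line (M := M) (f := Dc P a b c) (φ := fun t : ℂ => t • u) hφ
    (fun v _ hv => (he v).1 hv) (fun t => (he _).2 ⟨t, rfl⟩)]
  unfold KS
  rw [← tsum_mul_left]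
  congr 1
  ext t
  rw [Dc_hom, mul_comm]

/-- block F5 from block F3 -/
theorem f5 (hF : StF3) : StF5 := by
  intro M q d hM hd1 hd2 h1 h2 h3
  have n1 : nn (d.1 * (d.1 - d.2)) ≠ 0 := mul_conj_ne_zero (mul_ne_zero h1 (sub_ne_zero.2 h3))
  -- summability of the four faces
  have s1 : Summable (fun v : M => Dc (Pq q) e2 e3 d v) := by
    simp only [Dc_face1 q h1 h3]
    exact (summable_image (g1_inj h1 h3).injOn (hF.1 _ (hM.g1 hd1 hd2) _)).mul_left _
  have s2 : Summable (fun v : M => Dc (Pq q) e1 e3 d v) := by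
    simp only [Dc_face2 q h2 h3]
    exact (summable_image (g2_inj h2 h3).injOn (hF.1 _ (hM.g2 hd1 hd2) _)).mul_left _
  have s3 : Summable (fun v : M => Dc (Pq q) e1 e2 d v) := by
    simp only [Dc_face3 q h1 h2]
    exact (summable_image (g3_inj h1 h2).injOn (hF.1 _ (hM.g3 hd1 hd2) _)).mul_left _
  have s4 : Summable (fun v : M => Dc (Pq q) e1 e2 e3 v) := by
    have := hF.1 _ hM q
    simpa only [Dst_eq_Dc] using this
  have ind : ∀ (f : ℂ × ℂ → ℂ) (a : ℂ × ℂ), Summable (fun v : M => f v) →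
      Summable (fun v : M => if ev a v = 0 then f v else 0) := by
    intro f a hf
    have := hf.indicator {v : M | ev a v = 0}
    refine this.congr fun v => ?_
    by_cases hv : ev a v = 0
    · rw [Set.indicator_of_mem (show v ∈ {v : M | ev a v = 0} from hv), if_pos hv]
    · rw [Set.indicator_of_notMem (show v ∉ {v : M | ev a v = 0} from hv), if_neg hv]
  -- the faces
  have f1 : ∑' v : M, Dc (Pq q) e2 e3 d v = nn (d.1 * (d.1 - d.2)) * SS (g1 d '' M) (q1 q d) := by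
    rw [SS_image (g1_inj h1 h3).injOn, ← tsum_mul_left]
    congr 1; ext v; exact Dc_face1 q h1 h3 v
  have f2 : ∑' v : M, Dc (Pq q) e1 e3 d v = nn (d.2 * (d.1 - d.2)) * SS (g2 d '' M) (q2 q d) := by
    rw [SS_image (g2_inj h2 h3).injOn, ← tsum_mul_left]
    congr 1; ext v; exact Dc_face2 q h2 h3 v
  have f3 : ∑' v : M, Dc (Pq q) e1 e2 d v = nn (d.1 * d.2) * SS (g3 d '' M) (q3 q d) := by
    rw [SS_image (g3_inj h1 h2).injOn, ← tsum_mul_left]
    congr 1; ext v; exact Dc_face3 q h1 h2 v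
  have f4 : ∑' v : M, Dc (Pq q) e1 e2 e3 v = SS M q := by
    unfold SS
    congr 1; ext v; exact (Dst_eq_Dc q v).symm
  -- the corrections
  have c1 := corr (M := M) (Pq q) e2 e3 d e1 (0, 1) (by simp) (fun v => by
    unfold ev e1
    constructor
    · intro h
      refine ⟨v.2, ?_⟩
      ext
      · simp only [Prod.smul_fst, smul_eq_mul]; linear_combination -h
      · simp
    · rintro ⟨t, rfl⟩; simp)
  have c2 := corr (M := M) (Pq q) e1 e3 d e2 (1, 0) (by simp) (fun v => by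
    unfold ev e2
    constructor
    · intro h
      refine ⟨v.1, ?_⟩
      ext
      · simp
      · simp only [Prod.smul_snd, smul_eq_mul]; linear_combination -h
    · rintro ⟨t, rfl⟩; simp)
  have c3 := corr (M := M) (Pq q) e1 e2 d e3 (1, -1) (by simp) (fun v => by
    unfold ev e3
    constructor
    · intro h
      refine ⟨v.1, ?_⟩
      ext
      · simp
      · simp only [Prod.smul_snd, smul_eq_mul]; linear_combination h
    · rintro ⟨t, rfl⟩; simp)
  have c4 := corr (M := M) (Pq q) e1 e2 e3 d (d.2, -d.1) (by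
      intro h
      exact h2 (congrArg Prod.fst h)) (fun v => by
    unfold ev
    constructor
    · intro h
      refine ⟨v.1 / d.2, ?_⟩
      ext
      · simp only [Prod.smul_fst, smul_eq_mul]; field_simp
      · simp only [Prod.smul_snd, smul_eq_mul]; field_simp; linear_combination -h
    · rintro ⟨t, rfl⟩
      simp only [Prod.smul_fst, Prod.smul_snd, smul_eq_mul]
      ring)
  have key : ∑' v : M, (Dc (Pq q) e2 e3 d v - Dc (Pq q) e1 e3 d v + Dc (Pq q) e1 e2 d v -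
      Dc (Pq q) e1 e2 e3 v) = ∑' v : M, ((if ev e1 v = 0 then Dc (Pq q) e2 e3 d v else 0) -
      (if ev e2 v = 0 then Dc (Pq q) e1 e3 d v else 0) +
      (if ev e3 v = 0 then Dc (Pq q) e1 e2 d v else 0) -
      (if ev d v = 0 then Dc (Pq q) e1 e2 e3 v else 0)) := by
    congr 1; ext v; exact Dc_four' (Pq q) e1 e2 e3 d v
  rw [((s1.sub s2).add s3).tsum_sub s4, (s1.sub s2).tsum_add s3, s1.tsum_sub s2, f1, f2, f3, f4,
    (((ind _ e1 s1).sub (ind _ e2 s2)).add (ind _ e3 s3)).tsum_sub (ind _ d s4),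
    ((ind _ e1 s1).sub (ind _ e2 s2)).tsum_add (ind _ e3 s3),
    (ind _ e1 s1).tsum_sub (ind _ e2 s2), c1, c2, c3, c4] at key
  rw [key]
  simp only [Prod.smul_mk, smul_eq_mul, mul_zero, mul_one, mul_neg]

end Pool.Agent.Lib.BM.Cm
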