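import Pool.Agent.Lib.BM.Defs

set_option autoImplicit false

/-!
# BM.CmFrame: four-term relations for triples of linear forms

For linear forms `a, b, c` on `ℂ²` and a quadratic differential operator `P = A ∂x² + B ∂x∂y + C ∂y²`
we put `x_ab = P (det (a,b) / (ℓ_a ℓ_b))`, `y_ab = conj (det (a,b) / (ℓ_a ℓ_b))` and
`D(P; a,b,c) = x_ab y_bc - x_bc y_ab`.
-/

namespace Pool.Agent.Lib.BM.Cm

noncomputable section

/-- value of the linear form `a` at `v` -/
def ev (a v : ℂ × ℂ) : ℂ := a.1 * v.1 + a.2 * v.2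

/-- determinant of two forms -/
def dt (a b : ℂ × ℂ) : ℂ := a.1 * b.2 - a.2 * b.1

/-- the symmetric bilinear form attached to `P = (A,B,C)` -/
def pp (P : ℂ × ℂ × ℂ) (a b : ℂ × ℂ) : ℂ :=
  P.1 * (a.1 * b.1) + P.2.1 * ((a.1 * b.2 + a.2 * b.1) / 2) + P.2.2 * (a.2 * b.2)

/-- `P (det (a,b) / (ℓ_a ℓ_b))` -/
def xc (P : ℂ × ℂ × ℂ) (a b v : ℂ × ℂ) : ℂ :=
  dt a b * (2 * pp P a a / (ev a v ^ 3 * ev b v) + 2 * pp P a b / (ev a v ^ 2 * ev b v ^ 2) +
    2 * pp P b b / (ev a v * ev b v ^ 3))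

/-- `conj (det (a,b) / (ℓ_a ℓ_b))` -/
def yc (a b v : ℂ × ℂ) : ℂ := (starRingEnd ℂ) (dt a b / (ev a v * ev b v))

/-- the cochain of a triple of forms -/
def Dc (P : ℂ × ℂ × ℂ) (a b c v : ℂ × ℂ) : ℂ := xc P a b v * yc b c v - xc P b c v * yc a b v

lemma xc_swap (P : ℂ × ℂ × ℂ) (a b v : ℂ × ℂ) : xc P b a v = - xc P a b v := by
  unfold xc dt pp
  ring

lemma yc_swap (a b v : ℂ × ℂ) : yc b a v = - yc a b v := by
  unfold yc
  rw [← map_neg]
  congr 1
  unfold dt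
  ring

lemma dt_smul_left (s : ℂ) (a b : ℂ × ℂ) : dt (s • a) b = s * dt a b := by
  unfold dt; simp only [Prod.smul_fst, Prod.smul_snd, smul_eq_mul]; ring

lemma ev_smul_left (s : ℂ) (a v : ℂ × ℂ) : ev (s • a) v = s * ev a v := by
  unfold ev; simp only [Prod.smul_fst, Prod.smul_snd, smul_eq_mul]; ring

lemma pp_smul_left (P : ℂ × ℂ × ℂ) (s : ℂ) (a b : ℂ × ℂ) : pp P (s • a) b = s * pp P a b := by
  unfold pp; simp only [Prod.smul_fst, Prod.smul_snd, smul_eq_mul]; ring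

lemma pp_comm (P : ℂ × ℂ × ℂ) (a b : ℂ × ℂ) : pp P a b = pp P b a := by
  unfold pp; ring

/-- dependence on the line only -/
lemma xc_smul_left (P : ℂ × ℂ × ℂ) {s : ℂ} (hs : s ≠ 0) (a b v : ℂ × ℂ) :
    xc P (s • a) b v = xc P a b v := by
  unfold xc
  rw [dt_smul_left, ev_smul_left, pp_smul_left, pp_smul_left, pp_comm P a (s • a), pp_smul_left,
    pp_comm P a b]
  by_cases ha : ev a v = 0
  · rw [ha]; simp
  by_cases hb : ev b v = 0
  · rw [hb]; simp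
  field_simp

lemma yc_smul_left {s : ℂ} (hs : s ≠ 0) (a b v : ℂ × ℂ) : yc (s • a) b v = yc a b v := by
  unfold yc
  rw [dt_smul_left, ev_smul_left]
  congr 1
  rw [mul_assoc, mul_div_mul_left _ _ hs]

lemma xc_smul_right (P : ℂ × ℂ × ℂ) {s : ℂ} (hs : s ≠ 0) (a b v : ℂ × ℂ) :
    xc P a (s • b) v = xc P a b v := by
  rw [xc_swap, xc_smul_left P hs, xc_swap, neg_neg]

lemma yc_smul_right {s : ℂ} (hs : s ≠ 0) (a b v : ℂ × ℂ) : yc a (s • b) v = yc a b v := by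
  rw [yc_swap, yc_smul_left hs, yc_swap, neg_neg]

/-- the value at a point where one of the forms vanishes is zero -/
lemma xc_zero_left {P : ℂ × ℂ × ℂ} {a b v : ℂ × ℂ} (h : ev a v = 0) : xc P a b v = 0 := by
  unfold xc; rw [h]; simp

lemma xc_zero_right {P : ℂ × ℂ × ℂ} {a b v : ℂ × ℂ} (h : ev b v = 0) : xc P a b v = 0 := by
  unfold xc; rw [h]; simp

lemma yc_zero_left {a b v : ℂ × ℂ} (h : ev a v = 0) : yc a b v = 0 := by
  unfold yc; rw [h]; simp

lemma yc_zero_right {a b v : ℂ × ℂ} (h : ev b v = 0) : yc a b v = 0 := by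
  unfold yc; rw [h]; simp

lemma Dc_zero₁ {P : ℂ × ℂ × ℂ} {a b c v : ℂ × ℂ} (h : ev a v = 0) : Dc P a b c v = 0 := by
  unfold Dc; rw [xc_zero_left h, yc_zero_left h]; ring

lemma Dc_zero₂ {P : ℂ × ℂ × ℂ} {a b c v : ℂ × ℂ} (h : ev b v = 0) : Dc P a b c v = 0 := by
  unfold Dc; rw [xc_zero_right h, xc_zero_left h]; ring

lemma Dc_zero₃ {P : ℂ × ℂ × ℂ} {a b c v : ℂ × ℂ} (h : ev c v = 0) : Dc P a b c v = 0 := by
  unfold Dc; rw [xc_zero_right h, yc_zero_right h]; ring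

/-- Pluecker relation -/
lemma plucker (a b c v : ℂ × ℂ) : dt a b * ev c v + dt b c * ev a v = dt a c * ev b v := by
  unfold dt ev; ring

/-- the cocycle relation for `y` -/
lemma yc_add {a b c v : ℂ × ℂ} (ha : ev a v ≠ 0) (hb : ev b v ≠ 0) (hc : ev c v ≠ 0) :
    yc a b v + yc b c v = yc a c v := by
  unfold yc
  rw [← map_add]
  congr 1
  have h := plucker a b c v
  field_simp
  linear_combination h

/-- the algebraic identity behind the cocycle relation -/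
lemma xc_add_aux {A B C al be paa pab pbb : ℂ} (hA : A ≠ 0) (hB : B ≠ 0) (hC : C ≠ 0)
    (hc : C = al * A + be * B) :
    (2 * paa / (A ^ 3 * B) + 2 * pab / (A ^ 2 * B ^ 2) + 2 * pbb / (A * B ^ 3)) +
      (-al) * (2 * pbb / (B ^ 3 * C) + 2 * (al * pab + be * pbb) / (B ^ 2 * C ^ 2) +
        2 * (al ^ 2 * paa + 2 * (al * be) * pab + be ^ 2 * pbb) / (B * C ^ 3)) =
    be * (2 * paa / (A ^ 3 * C) + 2 * (al * paa + be * pab) / (A ^ 2 * C ^ 2) +
        2 * (al ^ 2 * paa + 2 * (al * be) * pab + be ^ 2 * pbb) / (A * C ^ 3)) := by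
  field_simp
  subst hc
  ring

lemma eq_smul_of_dt {a b v : ℂ × ℂ} (ha : ev a v ≠ 0) (h : dt a b = 0) :
    b = (ev b v / ev a v) • a := by
  unfold dt at h
  have h1 : b.1 * ev a v = ev b v * a.1 := by unfold ev; linear_combination (- v.2) * h
  have h2 : b.2 * ev a v = ev b v * a.2 := by unfold ev; linear_combination (v.1) * h
  ext
  · simp only [Prod.smul_fst, smul_eq_mul]
    rw [div_mul_eq_mul_div, eq_div_iff ha, h1]
  · simp only [Prod.smul_snd, smul_eq_mul]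
    rw [div_mul_eq_mul_div, eq_div_iff ha, h2]

/-- the cocycle relation for `x` -/
lemma xc_add {P : ℂ × ℂ × ℂ} {a b c v : ℂ × ℂ} (ha : ev a v ≠ 0) (hb : ev b v ≠ 0)
    (hc : ev c v ≠ 0) : xc P a b v + xc P b c v = xc P a c v := by
  by_cases hd : dt a b = 0
  · have h1 := eq_smul_of_dt ha hd
    have hs : ev b v / ev a v ≠ 0 := div_ne_zero hb ha
    have h2 : xc P b c v = xc P a c v := by
      conv_lhs => rw [h1]
      exact xc_smul_left P hs a c v
    have h3 : xc P a b v = 0 := by unfold xc; rw [hd]; ring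
    rw [h3, h2, zero_add]
  · obtain ⟨al, be, hal, hbe⟩ : ∃ al be : ℂ, al * dt a b = - dt b c ∧ be * dt a b = dt a c :=
      ⟨- dt b c / dt a b, dt a c / dt a b, by field_simp, by field_simp⟩
    have hc1 : c.1 = al * a.1 + be * b.1 := by
      apply mul_left_cancel₀ hd
      have : dt a b * (al * a.1 + be * b.1) = (al * dt a b) * a.1 + (be * dt a b) * b.1 := by ring
      rw [this, hal, hbe]; unfold dt; ring
    have hc2 : c.2 = al * a.2 + be * b.2 := by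
      apply mul_left_cancel₀ hd
      have : dt a b * (al * a.2 + be * b.2) = (al * dt a b) * a.2 + (be * dt a b) * b.2 := by ring
      rw [this, hal, hbe]; unfold dt; ring
    have hC : ev c v = al * ev a v + be * ev b v := by
      unfold ev; rw [hc1, hc2]; ring
    have h := xc_add_aux (paa := pp P a a) (pab := pp P a b) (pbb := pp P b b) ha hb hc hC
    have e1 : pp P b c = al * pp P a b + be * pp P b b := by
      unfold pp; rw [hc1, hc2]; ring
    have e2 : pp P a c = al * pp P a a + be * pp P a b := by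
      unfold pp; rw [hc1, hc2]; ring
    have e3 : pp P c c = al ^ 2 * pp P a a + 2 * (al * be) * pp P a b + be ^ 2 * pp P b b := by
      unfold pp; rw [hc1, hc2]; ring
    have d1 : dt b c = - al * dt a b := by rw [neg_mul, hal, neg_neg]
    unfold xc
    rw [e1, e2, e3, d1, ← hbe]
    linear_combination (dt a b) * h

/-- the four-term relation off the lines -/
lemma Dc_four {P : ℂ × ℂ × ℂ} {a b c d v : ℂ × ℂ} (ha : ev a v ≠ 0) (hb : ev b v ≠ 0)
    (hc : ev c v ≠ 0) (hd : ev d v ≠ 0) :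
    Dc P b c d v - Dc P a c d v + Dc P a b d v - Dc P a b c v = 0 := by
  have x1 := xc_add (P := P) ha hb hc
  have x2 := xc_add (P := P) ha hb hd
  have x3 := xc_add (P := P) ha hc hd
  have x4 := xc_add (P := P) hb hc hd
  have y1 := yc_add ha hb hc
  have y2 := yc_add ha hb hd
  have y3 := yc_add ha hc hd
  have y4 := yc_add hb hc hd
  unfold Dc
  rw [← y4, ← x4, ← y1, ← x1]
  ring

/-- the four-term relation at every point: the corrections are supported on the four lines -/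
lemma Dc_four' (P : ℂ × ℂ × ℂ) (a b c d v : ℂ × ℂ) :
    Dc P b c d v - Dc P a c d v + Dc P a b d v - Dc P a b c v =
      (if ev a v = 0 then Dc P b c d v else 0) - (if ev b v = 0 then Dc P a c d v else 0) +
      (if ev c v = 0 then Dc P a b d v else 0) - (if ev d v = 0 then Dc P a b c v else 0) := by
  by_cases ha : ev a v = 0 <;> by_cases hb : ev b v = 0 <;> by_cases hc : ev c v = 0 <;>
    by_cases hd : ev d v = 0 <;>
    simp only [ha, hb, hc, hd, Dc_zero₁, Dc_zero₂, Dc_zero₃, if_true, if_false, sub_zero,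
      add_zero, zero_add, zero_sub, sub_self]
  exact Dc_four ha hb hc hd

/-- dependence on the lines only -/
lemma Dc_smul (P : ℂ × ℂ × ℂ) {r s t : ℂ} (hr : r ≠ 0) (hs : s ≠ 0) (ht : t ≠ 0)
    (a b c v : ℂ × ℂ) : Dc P (r • a) (s • b) (t • c) v = Dc P a b c v := by
  unfold Dc
  rw [xc_smul_left P hr, xc_smul_right P hs, xc_smul_left P hs, xc_smul_right P ht,
    yc_smul_left hr, yc_smul_right hs, yc_smul_left hs, yc_smul_right ht]

/-- The standard cochain, `x + y + z = 0`, in terms of `q = (q₁,q₂,q₃)`. -/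
def EE' (qi qj qk : ℂ) (a b : ℂ) : ℂ :=
  2 * qj / (a ^ 3 * b) + (qi - qj - qk) / (a ^ 2 * b ^ 2) + 2 * qk / (a * b ^ 3)

/-- `D_q (x, y, z)` with `z = - (x + y)` -/
def Dst (q : ℂ × ℂ × ℂ) (v : ℂ × ℂ) : ℂ :=
  EE' q.2.2 q.1 q.2.1 v.1 v.2 * (starRingEnd ℂ) (v.2 * (-(v.1 + v.2)))⁻¹ -
    EE' q.1 q.2.1 q.2.2 v.2 (-(v.1 + v.2)) * (starRingEnd ℂ) (v.1 * v.2)⁻¹

/-- three forms with sum zero -/
lemma Dc_of_sum (P : ℂ × ℂ × ℂ) {a b c : ℂ × ℂ} (h : a + b + c = 0) (v : ℂ × ℂ) :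
    Dc P a b c v = dt a b * (starRingEnd ℂ) (dt a b) *
      Dst (pp P a a, pp P b b, pp P c c) (ev a v, ev b v) := by
  have h1 : c.1 = -(a.1 + b.1) := by
    have := congrArg Prod.fst h
    simp only [Prod.fst_add, Prod.fst_zero] at this
    linear_combination this
  have h2 : c.2 = -(a.2 + b.2) := by
    have := congrArg Prod.snd h
    simp only [Prod.snd_add, Prod.snd_zero] at this
    linear_combination this
  have hC : ev c v = -(ev a v + ev b v) := by unfold ev; rw [h1, h2]; ring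
  have hd : dt b c = dt a b := by unfold dt; rw [h1, h2]; ring
  have e1 : 2 * pp P a b = pp P c c - pp P a a - pp P b b := by
    unfold pp; rw [h1, h2]; ring
  have e2 : 2 * pp P b c = pp P a a - pp P b b - pp P c c := by
    unfold pp; rw [h1, h2]; ring
  unfold Dc xc yc Dst EE'
  rw [e1, e2, hd, hC]
  simp only [div_eq_mul_inv, map_mul]
  ring

/-- three forms with a linear relation -/
lemma Dc_of_rel (P : ℂ × ℂ × ℂ) {a b c : ℂ × ℂ} {r s t : ℂ} (hr : r ≠ 0) (hs : s ≠ 0)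
    (ht : t ≠ 0) (h : r • a + s • b + t • c = 0) (v : ℂ × ℂ) :
    Dc P a b c v = (r * s * dt a b) * (starRingEnd ℂ) (r * s * dt a b) *
      Dst (r ^ 2 * pp P a a, s ^ 2 * pp P b b, t ^ 2 * pp P c c) (r * ev a v, s * ev b v) := by
  rw [← Dc_smul P hr hs ht a b c v, Dc_of_sum P h]
  have e1 : dt (r • a) (s • b) = r * s * dt a b := by
    unfold dt; simp only [Prod.smul_fst, Prod.smul_snd, smul_eq_mul]; ring
  have e2 : ∀ (r : ℂ) (a : ℂ × ℂ), pp P (r • a) (r • a) = r ^ 2 * pp P a a := by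
    intro r a
    rw [pp_smul_left, pp_comm, pp_smul_left]; ring
  rw [e1, e2, e2, e2, ev_smul_left, ev_smul_left]

/-- homogeneity -/
lemma Dst_smul (q : ℂ × ℂ × ℂ) (s : ℂ) (v : ℂ × ℂ) :
    Dst q (s * v.1, s * v.2) = (s ^ 4 * (starRingEnd ℂ) s ^ 2)⁻¹ * Dst q v := by
  unfold Dst EE'
  have e : -(s * v.1 + s * v.2) = s * (-(v.1 + v.2)) := by ring
  simp only [e]
  simp only [div_eq_mul_inv, map_mul, mul_inv, mul_pow, map_inv₀]
  ring

lemma Dc_swap₁₂ (P : ℂ × ℂ × ℂ) (a b c v : ℂ × ℂ) : Dc P b a c v = - Dc P a b c v := by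
  by_cases ha : ev a v = 0
  · rw [Dc_zero₂ ha, Dc_zero₁ ha, neg_zero]
  by_cases hb : ev b v = 0
  · rw [Dc_zero₁ hb, Dc_zero₂ hb, neg_zero]
  by_cases hc : ev c v = 0
  · rw [Dc_zero₃ hc, Dc_zero₃ hc, neg_zero]
  unfold Dc
  rw [xc_swap P a b, yc_swap a b, ← xc_add (P := P) ha hb hc, ← yc_add ha hb hc]
  ring

lemma Dc_swap₂₃ (P : ℂ × ℂ × ℂ) (a b c v : ℂ × ℂ) : Dc P a c b v = - Dc P a b c v := by
  by_cases ha : ev a v = 0
  · rw [Dc_zero₁ ha, Dc_zero₁ ha, neg_zero]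
  by_cases hb : ev b v = 0
  · rw [Dc_zero₃ hb, Dc_zero₂ hb, neg_zero]
  by_cases hc : ev c v = 0
  · rw [Dc_zero₂ hc, Dc_zero₃ hc, neg_zero]
  unfold Dc
  rw [xc_swap P b c, yc_swap b c, ← xc_add (P := P) ha hb hc, ← yc_add ha hb hc]
  ring

lemma Dc_cycle (P : ℂ × ℂ × ℂ) (a b c v : ℂ × ℂ) : Dc P b c a v = Dc P a b c v := by
  rw [Dc_swap₂₃, Dc_swap₁₂, neg_neg]

/-- the forms `λ₁, λ₂, λ₃` -/
def e1 : ℂ × ℂ := (1, 0)
def e2 : ℂ × ℂ := (0, 1)
def e3 : ℂ × ℂ := (-1, -1)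

/-- `P` with `P (e_i, e_i) = q_i` -/
def Pq (q : ℂ × ℂ × ℂ) : ℂ × ℂ × ℂ := (q.1, q.2.2 - q.1 - q.2.1, q.2.1)

lemma Dst_eq_Dc (q : ℂ × ℂ × ℂ) (v : ℂ × ℂ) : Dst q v = Dc (Pq q) e1 e2 e3 v := by
  rw [Dc_of_sum]
  · have h1 : dt e1 e2 = 1 := by unfold dt e1 e2; simp
    have h2 : pp (Pq q) e1 e1 = q.1 := by unfold pp Pq e1; ring
    have h3 : pp (Pq q) e2 e2 = q.2.1 := by unfold pp Pq e2; ring
    have h4 : pp (Pq q) e3 e3 = q.2.2 := by unfold pp Pq e3; ring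
    have h5 : ev e1 v = v.1 := by unfold ev e1; ring
    have h6 : ev e2 v = v.2 := by unfold ev e2; ring
    rw [h1, h2, h3, h4, h5, h6, map_one]
    simp
  · unfold e1 e2 e3
    ext <;> simp

/-- cyclic rotation -/
lemma Dst_cycle (q1 q2 q3 x y : ℂ) :
    Dst (q2, q3, q1) (y, -(x + y)) = Dst (q1, q2, q3) (x, y) := by
  have h := Dc_of_sum (Pq (q1, q2, q3)) (a := e2) (b := e3) (c := e1)
    (by unfold e1 e2 e3; ext <;> simp) (x, y)
  have h1 : dt e2 e3 = 1 := by unfold dt e2 e3; simp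
  have h2 : pp (Pq (q1, q2, q3)) e1 e1 = q1 := by unfold pp Pq e1; ring
  have h3 : pp (Pq (q1, q2, q3)) e2 e2 = q2 := by unfold pp Pq e2; ring
  have h4 : pp (Pq (q1, q2, q3)) e3 e3 = q3 := by unfold pp Pq e3; ring
  have h5 : ev e2 (x, y) = y := by unfold ev e2; ring
  have h6 : ev e3 (x, y) = -(x + y) := by unfold ev e3; ring
  rw [h1, h2, h3, h4, h5, h6, map_one, Dc_cycle, ← Dst_eq_Dc] at h
  rw [h]; ring

/-- transposition -/
lemma Dst_swap (q1 q2 q3 x y : ℂ) :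
    Dst (q2, q1, q3) (y, x) = - Dst (q1, q2, q3) (x, y) := by
  have h := Dc_of_sum (Pq (q1, q2, q3)) (a := e2) (b := e1) (c := e3)
    (by unfold e1 e2 e3; ext <;> simp) (x, y)
  have h1 : dt e2 e1 = -1 := by unfold dt e2 e1; simp
  have h2 : pp (Pq (q1, q2, q3)) e1 e1 = q1 := by unfold pp Pq e1; ring
  have h3 : pp (Pq (q1, q2, q3)) e2 e2 = q2 := by unfold pp Pq e2; ring
  have h4 : pp (Pq (q1, q2, q3)) e3 e3 = q3 := by unfold pp Pq e3; ring
  have h5 : ev e2 (x, y) = y := by unfold ev e2; ring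
  have h6 : ev e1 (x, y) = x := by unfold ev e1; ring
  rw [h1, h2, h3, h4, h5, h6, map_neg, map_one, Dc_swap₁₂, ← Dst_eq_Dc] at h
  rw [h]; ring

/-- linearity in `q` -/
lemma Dst_add (q r : ℂ × ℂ × ℂ) (v : ℂ × ℂ) : Dst (q + r) v = Dst q v + Dst r v := by
  unfold Dst EE'
  simp only [Prod.fst_add, Prod.snd_add]
  ring

lemma Dst_smul_q (s : ℂ) (q : ℂ × ℂ × ℂ) (v : ℂ × ℂ) : Dst (s • q) v = s * Dst q v := by
  unfold Dst EE'
  simp only [Prod.smul_fst, Prod.smul_snd, smul_eq_mul]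
  ring

/-- complex conjugation (uses the antisymmetry of `D`) -/
lemma Dst_conj_aux (q : ℂ × ℂ × ℂ) (v : ℂ × ℂ) :
    (starRingEnd ℂ) (Dst q v) =
      (starRingEnd ℂ) (EE' q.2.2 q.1 q.2.1 v.1 v.2) * (v.2 * (-(v.1 + v.2)))⁻¹ -
    (starRingEnd ℂ) (EE' q.1 q.2.1 q.2.2 v.2 (-(v.1 + v.2))) * (v.1 * v.2)⁻¹ := by
  unfold Dst
  simp only [map_sub, map_mul, map_inv₀, starRingEnd_self_apply]

end

end Pool.Agent.Lib.BM.Cm
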