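import Pool.Agent.Lib.BM.CmF5

set_option autoImplicit false

/-!
# BM.CmMoves: symmetric group, scalars, linearity, relations between weights
-/

namespace Pool.Agent.Lib.BM.Cm

/-- swap of the two variables -/
theorem SS_swap (M : Set (ℂ × ℂ)) (q1 q2 q3 : ℂ) :
    SS ((fun v : ℂ × ℂ => (v.2, v.1)) '' M) (q2, q1, q3) = - SS M (q1, q2, q3) := by
  have hinj : Function.Injective (fun v : ℂ × ℂ => (v.2, v.1)) := by
    intro v w h
    have h1 := congrArg Prod.fst h
    have h2 := congrArg Prod.snd h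
    exact Prod.ext h2 h1
  rw [SS_image hinj.injOn]
  unfold SS
  rw [← tsum_neg]
  exact tsum_congr fun v => Dst_swap q1 q2 q3 v.1.1 v.1.2

/-- cyclic rotation of the three variables `x, y, -(x + y)` -/
theorem SS_cycle (M : Set (ℂ × ℂ)) (q1 q2 q3 : ℂ) :
    SS ((fun v : ℂ × ℂ => (v.2, -(v.1 + v.2))) '' M) (q2, q3, q1) = SS M (q1, q2, q3) := by
  have hinj : Function.Injective (fun v : ℂ × ℂ => (v.2, -(v.1 + v.2))) := by
    intro v w h
    have h1 : v.2 = w.2 := congrArg Prod.fst h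
    have h2 : -(v.1 + v.2) = -(w.1 + w.2) := congrArg Prod.snd h
    refine Prod.ext ?_ h1
    linear_combination -h2 - h1
  rw [SS_image hinj.injOn]
  unfold SS
  exact tsum_congr fun v => Dst_cycle q1 q2 q3 v.1.1 v.1.2

/-- multiplication by a scalar -/
theorem SS_smul (M : Set (ℂ × ℂ)) {s : ℂ} (hs : s ≠ 0) (q : ℂ × ℂ × ℂ) :
    SS ((fun v : ℂ × ℂ => (s * v.1, s * v.2)) '' M) q = kap s * SS M q := by
  have hinj : Function.Injective (fun v : ℂ × ℂ => (s * v.1, s * v.2)) := by
    intro v w h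
    have h1 : s * v.1 = s * w.1 := congrArg Prod.fst h
    have h2 : s * v.2 = s * w.2 := congrArg Prod.snd h
    exact Prod.ext (mul_left_cancel₀ hs h1) (mul_left_cancel₀ hs h2)
  rw [SS_image hinj.injOn]
  unfold SS
  rw [← tsum_mul_left]
  exact tsum_congr fun v => Dst_smul q s v

/-- homogeneity in `q` -/
theorem SS_smul_q (M : Set (ℂ × ℂ)) (s : ℂ) (q : ℂ × ℂ × ℂ) : SS M (s • q) = s * SS M q := by
  unfold SS
  rw [← tsum_mul_left]
  exact tsum_congr fun v => Dst_smul_q s q v

theorem SS_zero_q (M : Set (ℂ × ℂ)) : SS M 0 = 0 := by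
  have h := SS_smul_q M 0 0
  rwa [zero_smul, zero_mul] at h

/-- additivity in `q` -/
theorem SS_add_q (hF : StF3) {M : Set (ℂ × ℂ)} (hM : Nice M) (q r : ℂ × ℂ × ℂ) :
    SS M (q + r) = SS M q + SS M r := by
  unfold SS
  rw [← (hF.1 M hM q).tsum_add (hF.1 M hM r)]
  exact tsum_congr fun v => Dst_add q r v

lemma Dst_zero_q (v : ℂ × ℂ) : Dst 0 v = 0 := by
  have h := Dst_smul_q 0 0 v
  rwa [zero_smul, zero_mul] at h

lemma Dst_sum {ι : Type*} (s : Finset ι) (q : ι → ℂ × ℂ × ℂ) (v : ℂ × ℂ) :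
    Dst (∑ i ∈ s, q i) v = ∑ i ∈ s, Dst (q i) v := by
  classical
  induction s using Finset.induction_on with
  | empty => simpa using Dst_zero_q v
  | insert a s ha ih => rw [Finset.sum_insert ha, Finset.sum_insert ha, Dst_add, ih]

/-- A relation between weights gives a relation between depth two sums. -/
theorem SS_rel (hF : StF3) {ι : Type*} (s : Finset ι) (M : ι → Set (ℂ × ℂ)) (q : ι → ℂ × ℂ × ℂ)
    (hM : ∀ i ∈ s, Nice (M i))
    (h : ∀ v : ℂ × ℂ, ∑ i ∈ s, (M i).indicator (fun _ => q i) v = 0) :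
    ∑ i ∈ s, SS (M i) (q i) = 0 := by
  classical
  have e : ∀ i ∈ s, HasSum ((M i).indicator (Dst (q i))) (SS (M i) (q i)) := by
    intro i hi
    have h1 := (hF.1 (M i) (hM i hi) (q i)).hasSum
    exact (hasSum_subtype_iff_indicator (f := Dst (q i))).1 h1
  have h2 := hasSum_sum e
  have h3 : (fun v : ℂ × ℂ => ∑ i ∈ s, (M i).indicator (Dst (q i)) v) = fun _ => 0 := by
    funext v
    have h4 : ∀ i ∈ s, (M i).indicator (Dst (q i)) v =
        Dst ((M i).indicator (fun _ => q i) v) v := by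
      intro i _
      by_cases hv : v ∈ M i
      · rw [Set.indicator_of_mem hv, Set.indicator_of_mem hv]
      · rw [Set.indicator_of_notMem hv, Set.indicator_of_notMem hv, Dst_zero_q]
    rw [Finset.sum_congr rfl h4, ← Dst_sum, h v, Dst_zero_q]
  rw [h3] at h2
  exact h2.unique hasSum_zero

/-- The same with the sets given by predicates of an injective parametrisation `φ`. -/
theorem SS_rel_of (hF : StF3) {ι X : Type*} (s : Finset ι) (φ : X → ℂ × ℂ)
    (M : ι → Set (ℂ × ℂ)) (q : ι → ℂ × ℂ × ℂ) (hM : ∀ i ∈ s, Nice (M i))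
    (hφ : ∀ i ∈ s, ∀ v ∈ M i, ∃ n, φ n = v)
    (h : ∀ n : X, ∑ i ∈ s, (M i).indicator (fun _ => q i) (φ n) = 0) :
    ∑ i ∈ s, SS (M i) (q i) = 0 := by
  classical
  refine SS_rel hF s M q hM fun v => ?_
  by_cases hv : ∃ n, φ n = v
  · obtain ⟨n, rfl⟩ := hv
    exact h n
  · refine Finset.sum_eq_zero fun i hi => ?_
    rw [Set.indicator_of_notMem]
    exact fun hc => hv (hφ i hi v hc)

/-- Multiplication by a scalar, depth one. -/
theorem KS_smul (J : Set ℂ) {s : ℂ} (hs : s ≠ 0) :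
    KS ((fun t : ℂ => s * t) '' J) = kap s * KS J := by
  have hinj : Function.Injective (fun t : ℂ => s * t) := fun t u h => mul_left_cancel₀ hs h
  unfold KS
  rw [tsum_image kap hinj.injOn, ← tsum_mul_left]
  exact tsum_congr fun t => kap_mul s t

/-- A relation between weights gives a relation between depth one sums. -/
theorem KS_rel (hF : StF3) {ι : Type*} (s : Finset ι) (J : ι → Set ℂ) (c : ι → ℂ)
    (hJ : ∀ i ∈ s, Nice1 (J i))
    (h : ∀ t : ℂ, ∑ i ∈ s, (J i).indicator (fun _ => c i) t = 0) :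
    ∑ i ∈ s, c i * KS (J i) = 0 := by
  classical
  have e : ∀ i ∈ s, HasSum ((J i).indicator (fun t => c i * kap t)) (c i * KS (J i)) := by
    intro i hi
    have h1 := ((hF.2 (J i) (hJ i hi)).hasSum).mul_left (c i)
    exact (hasSum_subtype_iff_indicator (f := fun t => c i * kap t)).1 h1
  have h2 := hasSum_sum e
  have h3 : (fun t : ℂ => ∑ i ∈ s, (J i).indicator (fun t => c i * kap t) t) = fun _ => 0 := by
    funext t
    have h4 : ∀ i ∈ s, (J i).indicator (fun t => c i * kap t) t =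
        (J i).indicator (fun _ => c i) t * kap t := by
      intro i _
      by_cases ht : t ∈ J i
      · rw [Set.indicator_of_mem ht, Set.indicator_of_mem ht]
      · rw [Set.indicator_of_notMem ht, Set.indicator_of_notMem ht, zero_mul]
    rw [Finset.sum_congr rfl h4, ← Finset.sum_mul, h t, zero_mul]
  rw [h3] at h2
  exact h2.unique hasSum_zero

/-- sums over `-M` -/
theorem SS_neg (M : Set (ℂ × ℂ)) (q : ℂ × ℂ × ℂ) :
    SS ((fun v : ℂ × ℂ => (-v.1, -v.2)) '' M) q = SS M q := by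
  have h := SS_smul M (s := -1) (by norm_num) q
  have e : kap (-1) = 1 := by unfold kap; norm_num
  rw [e, one_mul] at h
  rw [← h]
  congr 2
  funext v
  simp

end Pool.Agent.Lib.BM.Cm
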