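import Pool.Agent.Lib.BM.CmDefs

set_option autoImplicit false

/-!
# BM.CmNice: closure properties of nice sets
-/

namespace Pool.Agent.Lib.BM.Cm

/-- integers of `ℚ(√-15)` -/
def OO : Set ℂ := {z | ∃ a b : ℤ, z = a + b * w15}

lemma w15_eq : w15 = 3 * tau0 - 1 := by unfold w15 tau0; ring

lemma sqrt15_sq : ((Real.sqrt 15 : ℝ) : ℂ) ^ 2 = 15 := by
  rw [← Complex.ofReal_pow, Real.sq_sqrt (by norm_num)]; norm_num

lemma tau0_sq : 3 * tau0 ^ 2 = 3 * tau0 - 2 := by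
  unfold tau0
  linear_combination (3 / 36 : ℂ) * (Complex.I ^ 2 * sqrt15_sq + 15 * Complex.I_sq)

lemma w15_sq : w15 ^ 2 = w15 - 4 := by
  rw [w15_eq]
  linear_combination 3 * tau0_sq

lemma w15_mul_tau0 : w15 * tau0 = 2 * tau0 - 2 := by
  rw [w15_eq]
  linear_combination tau0_sq

lemma Lam0_zero : (0 : ℂ) ∈ Lam0 := ⟨0, 0, by simp⟩

lemma Lam0_add {x y : ℂ} (hx : x ∈ Lam0) (hy : y ∈ Lam0) : x + y ∈ Lam0 := by
  obtain ⟨m, n, rfl⟩ := hx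
  obtain ⟨m', n', rfl⟩ := hy
  exact ⟨m + m', n + n', by push_cast; ring⟩

lemma Lam0_neg {x : ℂ} (hx : x ∈ Lam0) : -x ∈ Lam0 := by
  obtain ⟨m, n, rfl⟩ := hx
  exact ⟨-m, -n, by push_cast; ring⟩

lemma Lam0_sub {x y : ℂ} (hx : x ∈ Lam0) (hy : y ∈ Lam0) : x - y ∈ Lam0 := by
  rw [sub_eq_add_neg]; exact Lam0_add hx (Lam0_neg hy)

lemma Lam0_mul {s x : ℂ} (hs : s ∈ OO) (hx : x ∈ Lam0) : s * x ∈ Lam0 := by
  obtain ⟨a, b, rfl⟩ := hs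
  obtain ⟨m, n, rfl⟩ := hx
  refine ⟨a * m + b * (2 * m + 3 * n), a * n - b * (2 * m + n), ?_⟩
  have h1 := w15_mul_tau0
  have h2 := w15_eq
  push_cast
  linear_combination (b * m : ℂ) * h1 + (b * n : ℂ) * h2

lemma OO_mul {s x : ℂ} (hs : s ∈ OO) (hx : x ∈ OO) : s * x ∈ OO := by
  obtain ⟨a, b, rfl⟩ := hs
  obtain ⟨m, n, rfl⟩ := hx
  refine ⟨a * m - 4 * (b * n), a * n + b * m + b * n, ?_⟩
  have h1 := w15_sq
  push_cast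
  linear_combination (b * n : ℂ) * h1

lemma OO_add {x y : ℂ} (hx : x ∈ OO) (hy : y ∈ OO) : x + y ∈ OO := by
  obtain ⟨m, n, rfl⟩ := hx
  obtain ⟨m', n', rfl⟩ := hy
  exact ⟨m + m', n + n', by push_cast; ring⟩

lemma OO_neg {x : ℂ} (hx : x ∈ OO) : -x ∈ OO := by
  obtain ⟨m, n, rfl⟩ := hx
  exact ⟨-m, -n, by push_cast; ring⟩

lemma OO_int (n : ℤ) : (n : ℂ) ∈ OO := ⟨n, 0, by simp⟩

lemma mem_KK {z : ℂ} : z ∈ KK ↔ ∃ c : ℤ, c ≠ 0 ∧ (c : ℂ) * z ∈ OO :=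
  ⟨fun ⟨a, b, c, hc, h⟩ => ⟨c, hc, a, b, h⟩, fun ⟨c, hc, a, b, h⟩ => ⟨a, b, c, hc, h⟩⟩

lemma KK_neg {x : ℂ} (hx : x ∈ KK) : -x ∈ KK := by
  obtain ⟨c, hc, h⟩ := mem_KK.1 hx
  exact mem_KK.2 ⟨c, hc, by rw [mul_neg]; exact OO_neg h⟩

lemma KK_add {x y : ℂ} (hx : x ∈ KK) (hy : y ∈ KK) : x + y ∈ KK := by
  obtain ⟨c, hc, h⟩ := mem_KK.1 hx
  obtain ⟨c', hc', h'⟩ := mem_KK.1 hy
  refine mem_KK.2 ⟨c * c', mul_ne_zero hc hc', ?_⟩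
  have e : ((c * c' : ℤ) : ℂ) * (x + y) = c' * (c * x) + c * (c' * y) := by push_cast; ring
  rw [e]
  exact OO_add (OO_mul (OO_int c') h) (OO_mul (OO_int c) h')

lemma KK_sub {x y : ℂ} (hx : x ∈ KK) (hy : y ∈ KK) : x - y ∈ KK := by
  rw [sub_eq_add_neg]; exact KK_add hx (KK_neg hy)

lemma KK_mul {x y : ℂ} (hx : x ∈ KK) (hy : y ∈ KK) : x * y ∈ KK := by
  obtain ⟨c, hc, h⟩ := mem_KK.1 hx
  obtain ⟨c', hc', h'⟩ := mem_KK.1 hy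
  refine mem_KK.2 ⟨c * c', mul_ne_zero hc hc', ?_⟩
  have e : ((c * c' : ℤ) : ℂ) * (x * y) = (c * x) * (c' * y) := by push_cast; ring
  rw [e]
  exact OO_mul h h'

/-- a linear map with coefficients in `KK` preserves nice sets -/
lemma Nice.image {M : Set (ℂ × ℂ)} (hM : Nice M) {a b c d : ℂ} (ha : a ∈ KK) (hb : b ∈ KK)
    (hc : c ∈ KK) (hd : d ∈ KK) :
    Nice ((fun v : ℂ × ℂ => (a * v.1 + b * v.2, c * v.1 + d * v.2)) '' M) := by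
  obtain ⟨k, hk, hkM⟩ := hM
  obtain ⟨na, na0, ha⟩ := mem_KK.1 ha
  obtain ⟨nb, nb0, hb⟩ := mem_KK.1 hb
  obtain ⟨nc, nc0, hc⟩ := mem_KK.1 hc
  obtain ⟨nd, nd0, hd⟩ := mem_KK.1 hd
  refine ⟨k * (na * nb * nc * nd), mul_ne_zero hk (mul_ne_zero (mul_ne_zero (mul_ne_zero na0 nb0) nc0)
    nd0), ?_⟩
  rintro w ⟨v, hv, rfl⟩
  obtain ⟨h1, h2⟩ := hkM v hv
  constructor
  · have e : ((k * (na * nb * nc * nd) : ℤ) : ℂ) * (a * v.1 + b * v.2) =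
        ((nb * nc * nd : ℤ) : ℂ) * ((na * a) * (k * v.1)) +
        ((na * nc * nd : ℤ) : ℂ) * ((nb * b) * (k * v.2)) := by push_cast; ring
    simp only
    rw [e]
    exact Lam0_add (Lam0_mul (OO_int _) (Lam0_mul ha h1)) (Lam0_mul (OO_int _) (Lam0_mul hb h2))
  · have e : ((k * (na * nb * nc * nd) : ℤ) : ℂ) * (c * v.1 + d * v.2) =
        ((na * nb * nd : ℤ) : ℂ) * ((nc * c) * (k * v.1)) +
        ((na * nb * nc : ℤ) : ℂ) * ((nd * d) * (k * v.2)) := by push_cast; ring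
    simp only
    rw [e]
    exact Lam0_add (Lam0_mul (OO_int _) (Lam0_mul hc h1)) (Lam0_mul (OO_int _) (Lam0_mul hd h2))

lemma KK_zero : (0 : ℂ) ∈ KK := ⟨0, 0, 1, one_ne_zero, by simp⟩

lemma Nice.mono {M N : Set (ℂ × ℂ)} (hN : Nice N) (h : M ⊆ N) : Nice M := by
  obtain ⟨c, hc, hcM⟩ := hN
  exact ⟨c, hc, fun v hv => hcM v (h hv)⟩

lemma Nice1.mono {M N : Set ℂ} (hN : Nice1 N) (h : M ⊆ N) : Nice1 M := by
  obtain ⟨c, hc, hcM⟩ := hN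
  exact ⟨c, hc, fun v hv => hcM v (h hv)⟩

lemma Nice.g1 {M : Set (ℂ × ℂ)} (hM : Nice M) {d : ℂ × ℂ} (h1 : d.1 ∈ KK) (h2 : d.2 ∈ KK) :
    Nice (g1 d '' M) := by
  have h := hM.image KK_zero (KK_sub h1 h2) (KK_neg h1) (KK_neg h1)
  have e : Cm.g1 d '' M = (fun v : ℂ × ℂ => ((0 : ℂ) * v.1 + (d.1 - d.2) * v.2, (-d.1) * v.1 + (-d.1) * v.2)) '' M := by
    apply Set.image_congr
    intro v _
    unfold Cm.g1
    ext <;> simp only <;> ring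
  rw [e]
  exact h

lemma Nice.g2 {M : Set (ℂ × ℂ)} (hM : Nice M) {d : ℂ × ℂ} (h1 : d.1 ∈ KK) (h2 : d.2 ∈ KK) :
    Nice (g2 d '' M) := by
  have h := hM.image (KK_sub h2 h1) KK_zero (KK_neg h2) (KK_neg h2)
  have e : Cm.g2 d '' M = (fun v : ℂ × ℂ => ((d.2 - d.1) * v.1 + (0 : ℂ) * v.2, (-d.2) * v.1 + (-d.2) * v.2)) '' M := by
    apply Set.image_congr
    intro v _
    unfold Cm.g2
    ext <;> simp only <;> ring
  rw [e]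
  exact h

lemma Nice.g3 {M : Set (ℂ × ℂ)} (hM : Nice M) {d : ℂ × ℂ} (h1 : d.1 ∈ KK) (h2 : d.2 ∈ KK) :
    Nice (g3 d '' M) := by
  have h := hM.image (KK_neg h1) KK_zero KK_zero (KK_neg h2)
  have e : Cm.g3 d '' M = (fun v : ℂ × ℂ => ((-d.1) * v.1 + (0 : ℂ) * v.2, (0 : ℂ) * v.1 + (-d.2) * v.2)) '' M := by
    apply Set.image_congr
    intro v _
    unfold Cm.g3
    ext <;> simp only <;> ring
  rw [e]
  exact h

end Pool.Agent.Lib.BM.Cm
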