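import Pool.Agent.Lib.BM.CmNice
import Pool.Agent.Lib.BM.E1

set_option autoImplicit false

/-!
# BM.CmOne: the depth one sums at the CM point

`KS OO = lat0`, `KS Lam0 = lat1`, the ideals `tau0 OO`, `conj(tau0) OO`, `2 Lam0`, `3 tau0 Lam0`, `3 conj(tau0) Lam0`,
`2 OO` as images of congruence classes under `lam y0`, and `Kh42 y0 = -(45/16) lat0 - (1/48) lat1`.
-/

namespace Pool.Agent.Lib.BM.Cm.One

open Complex

/-- Scaling of a set of numbers. -/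
def sc (g : ℂ) (J : Set ℂ) : Set ℂ := (fun z => g * z) '' J

/-- The conjugate of `tau0`. -/
noncomputable def tau0' : ℂ := 1 - tau0

lemma conj_tau0 : (starRingEnd ℂ) tau0 = tau0' := by
  unfold tau0' tau0
  simp only [map_add, map_div₀, map_one, map_mul, conj_I, conj_ofReal, map_ofNat]
  ring

lemma conj_tau0' : (starRingEnd ℂ) tau0' = tau0 := by
  unfold tau0'
  rw [map_sub, map_one, conj_tau0]
  unfold tau0'
  ring

lemma tau0_mul_tau0' : tau0 * tau0' = 2 / 3 := by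
  unfold tau0'
  linear_combination (-1 / 3 : ℂ) * tau0_sq

lemma tau0_ne : tau0 ≠ 0 := by
  intro h
  have := tau0_mul_tau0'
  rw [h, zero_mul] at this
  norm_num at this

lemma tau0'_ne : tau0' ≠ 0 := by
  intro h
  have := tau0_mul_tau0'
  rw [h, mul_zero] at this
  norm_num at this

lemma conj_w15 : (starRingEnd ℂ) w15 = 1 - w15 := by
  rw [w15_eq, map_sub, map_mul, conj_tau0, map_one, map_ofNat]
  unfold tau0'
  ring

lemma kap_mul (g z : ℂ) : kap (g * z) = (g ^ 4 * (starRingEnd ℂ) g ^ 2)⁻¹ * kap z := by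
  unfold kap
  rw [map_mul, ← mul_inv]
  congr 1
  ring

lemma kap_conj (z : ℂ) : kap ((starRingEnd ℂ) z) = (starRingEnd ℂ) (kap z) := by
  unfold kap
  simp only [map_inv₀, map_mul, map_pow]

theorem KS_sc {g : ℂ} (hg : g ≠ 0) (J : Set ℂ) :
    KS (sc g J) = (g ^ 4 * (starRingEnd ℂ) g ^ 2)⁻¹ * KS J := by
  unfold KS sc
  rw [tsum_image (fun z => kap z) (mul_right_injective₀ hg).injOn, ← tsum_mul_left]
  exact tsum_congr fun t => kap_mul g t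

theorem KS_conj (J : Set ℂ) : KS ((starRingEnd ℂ) '' J) = (starRingEnd ℂ) (KS J) := by
  unfold KS
  rw [tsum_image (fun z => kap z) ((starRingEnd ℂ).injective.injOn), conj_tsum]
  exact tsum_congr fun t => kap_conj t

/-- `lam` at the CM point. -/
lemma lam_y0 (p : ℤ × ℤ) : lam y0 p = p.1 * tau0 + p.2 := by
  unfold lam tau0 y0
  push_cast
  ring

lemma tau0_im : tau0.im = Real.sqrt 15 / 6 := by
  unfold tau0
  simp

lemma lam_inj : Function.Injective (lam y0) := by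
  intro p r h
  rw [lam_y0, lam_y0] at h
  have hs : (0 : ℝ) < Real.sqrt 15 := by positivity
  have h1 := congrArg Complex.im h
  simp only [add_im, mul_im, intCast_re, intCast_im, zero_mul, add_zero, tau0_im] at h1
  have h2 : (p.1 : ℝ) = r.1 := by
    have h3 : Real.sqrt 15 / 6 ≠ 0 := by positivity
    exact mul_right_cancel₀ h3 h1
  have h4 : p.1 = r.1 := by exact_mod_cast h2
  rw [h4] at h
  have h5 : (p.2 : ℂ) = r.2 := add_left_cancel h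
  have h6 : p.2 = r.2 := by exact_mod_cast h5
  exact Prod.ext h4 h6

lemma kap_lam (p : ℤ × ℤ) :
    kap (lam y0 p) = av y0 p ^ 4 * (starRingEnd ℂ) (av y0 p) ^ 2 := by
  unfold kap av
  rw [map_inv₀, mul_inv, inv_pow, inv_pow]

lemma y0_pos' : 0 < y0 := by unfold y0; positivity

lemma kap_summable : Summable (fun p : ℤ × ℤ => kap (lam y0 p)) := by
  have h := E1_summable y0_pos' (W := fun _ => 1) 1 (fun _ => by simp) 4 2 (by norm_num)
  refine h.congr fun p => ?_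
  rw [kap_lam]
  push_cast
  ring

lemma KS_img (s : Set (ℤ × ℤ)) :
    KS (lam y0 '' s) = ∑' p : ℤ × ℤ, s.indicator (fun p => kap (lam y0 p)) p := by
  unfold KS
  rw [tsum_image (fun z => kap z) lam_inj.injOn, tsum_subtype s (fun p => kap (lam y0 p))]

lemma hasSum_img (s : Set (ℤ × ℤ)) :
    HasSum (fun p : ℤ × ℤ => s.indicator (fun p => kap (lam y0 p)) p) (KS (lam y0 '' s)) := by
  rw [KS_img]
  exact (kap_summable.indicator s).hasSum

/-! ### The ideals -/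

lemma Lam0_img : lam y0 '' Set.univ = Lam0 := by
  ext z
  simp only [Set.image_univ, Set.mem_range, Lam0, Set.mem_setOf_eq, Prod.exists]
  constructor
  · rintro ⟨m, n, rfl⟩; exact ⟨m, n, lam_y0 _⟩
  · rintro ⟨m, n, rfl⟩; exact ⟨m, n, lam_y0 _⟩

lemma OO_img : lam y0 '' {p | (3 : ℤ) ∣ p.1} = OO := by
  ext z
  constructor
  · rintro ⟨⟨m, n⟩, ⟨k, hk⟩, rfl⟩
    simp only at hk
    refine ⟨n + k, k, ?_⟩
    rw [lam_y0, w15_eq, hk]
    push_cast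
    ring
  · rintro ⟨a, b, rfl⟩
    refine ⟨(3 * b, a - b), ⟨b, rfl⟩, ?_⟩
    rw [lam_y0, w15_eq]
    push_cast
    ring

lemma A_img : lam y0 '' {p | Even p.2} = sc tau0 OO := by
  ext z
  constructor
  · rintro ⟨⟨m, n⟩, ⟨k, hk⟩, rfl⟩
    simp only at hk
    refine ⟨((m + 2 * k : ℤ) : ℂ) + ((-k : ℤ) : ℂ) * w15, ⟨_, _, rfl⟩, ?_⟩
    rw [lam_y0, hk]
    have h := w15_mul_tau0
    push_cast
    linear_combination (-(k : ℂ)) * h
  · rintro ⟨_, ⟨a, b, rfl⟩, rfl⟩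
    refine ⟨(a + 2 * b, -(2 * b)), ⟨-b, by ring⟩, ?_⟩
    rw [lam_y0]
    have h := w15_mul_tau0
    push_cast
    linear_combination (-(b : ℂ)) * h

lemma B_img : lam y0 '' {p | Even (p.1 + p.2)} = sc tau0' OO := by
  ext z
  constructor
  · rintro ⟨⟨m, n⟩, ⟨k, hk⟩, rfl⟩
    simp only at hk
    have hm : m = k + k - n := by linarith
    refine ⟨((n - k : ℤ) : ℂ) + (k : ℂ) * w15, ⟨_, _, rfl⟩, ?_⟩
    rw [lam_y0, hm]
    have h := w15_mul_tau0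
    have h2 := w15_eq
    unfold tau0'
    push_cast
    linear_combination (-(k : ℂ)) * h + (k : ℂ) * h2
  · rintro ⟨_, ⟨a, b, rfl⟩, rfl⟩
    refine ⟨(b - a, a + b), ⟨b, by ring⟩, ?_⟩
    rw [lam_y0]
    have h := w15_mul_tau0
    have h2 := w15_eq
    unfold tau0'
    push_cast
    linear_combination (b : ℂ) * h - (b : ℂ) * h2

lemma C_img : lam y0 '' {p | Even p.1 ∧ Even p.2} = sc 2 Lam0 := by
  ext z
  constructor
  · rintro ⟨⟨m, n⟩, ⟨⟨k, hk⟩, ⟨l, hl⟩⟩, rfl⟩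
    simp only at hk hl
    refine ⟨(k : ℂ) * tau0 + l, ⟨_, _, rfl⟩, ?_⟩
    rw [lam_y0, hk, hl]
    push_cast
    ring
  · rintro ⟨_, ⟨a, b, rfl⟩, rfl⟩
    refine ⟨(2 * a, 2 * b), ⟨⟨a, by ring⟩, ⟨b, by ring⟩⟩, ?_⟩
    rw [lam_y0]
    push_cast
    ring

lemma A3_img : lam y0 '' {p | (3 : ℤ) ∣ p.1 ∧ Even p.2} = sc (3 * tau0) Lam0 := by
  ext z
  constructor
  · rintro ⟨⟨m, n⟩, ⟨⟨k, hk⟩, ⟨l, hl⟩⟩, rfl⟩
    simp only at hk hl
    refine ⟨((-l : ℤ) : ℂ) * tau0 + ((k + l : ℤ) : ℂ), ⟨_, _, rfl⟩, ?_⟩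
    rw [lam_y0, hk, hl]
    have h := tau0_sq
    push_cast
    linear_combination (-(l : ℂ)) * h
  · rintro ⟨_, ⟨a, b, rfl⟩, rfl⟩
    refine ⟨(3 * (a + b), -(2 * a)), ⟨⟨a + b, rfl⟩, ⟨-a, by ring⟩⟩, ?_⟩
    rw [lam_y0]
    have h := tau0_sq
    push_cast
    linear_combination (-(a : ℂ)) * h

lemma B3_img : lam y0 '' {p | (3 : ℤ) ∣ p.1 ∧ Even (p.1 + p.2)} = sc (3 * tau0') Lam0 := by
  ext z
  constructor
  · rintro ⟨⟨m, n⟩, ⟨⟨k, hk⟩, ⟨j, hj⟩⟩, rfl⟩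
    simp only at hk hj
    have hn : n = j + j - 3 * k := by linarith
    refine ⟨(j : ℂ) * tau0 + ((-k : ℤ) : ℂ), ⟨_, _, rfl⟩, ?_⟩
    rw [lam_y0, hk, hn]
    have h := tau0_sq
    unfold tau0'
    push_cast
    linear_combination (-(j : ℂ)) * h
  · rintro ⟨_, ⟨a, b, rfl⟩, rfl⟩
    refine ⟨(-(3 * b), 3 * b + 2 * a), ⟨⟨-b, by ring⟩, ⟨a, by ring⟩⟩, ?_⟩
    rw [lam_y0]
    have h := tau0_sq
    unfold tau0'
    push_cast
    linear_combination (a : ℂ) * h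

lemma C3_img : lam y0 '' {p | (3 : ℤ) ∣ p.1 ∧ Even p.1 ∧ Even p.2} = sc 2 OO := by
  ext z
  constructor
  · rintro ⟨⟨m, n⟩, ⟨⟨k, hk⟩, ⟨j, hj⟩, ⟨l, hl⟩⟩, rfl⟩
    simp only at hk hj hl
    obtain ⟨b, hb⟩ : ∃ b, m = 6 * b := ⟨m / 6, by omega⟩
    refine ⟨((l + b : ℤ) : ℂ) + (b : ℂ) * w15, ⟨_, _, rfl⟩, ?_⟩
    rw [lam_y0, hb, hl, w15_eq]
    push_cast
    ring
  · rintro ⟨_, ⟨a, b, rfl⟩, rfl⟩
    refine ⟨(6 * b, 2 * a - 2 * b), ⟨⟨2 * b, by ring⟩, ⟨3 * b, by ring⟩, ⟨a - b, by ring⟩⟩, ?_⟩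
    rw [lam_y0, w15_eq]
    push_cast
    ring

/-! ### Values -/

lemma conj_OO : (starRingEnd ℂ) '' OO = OO := by
  ext z
  constructor
  · rintro ⟨_, ⟨a, b, rfl⟩, rfl⟩
    refine ⟨a + b, -b, ?_⟩
    simp only [map_add, map_mul, map_intCast, conj_w15]
    push_cast
    ring
  · rintro ⟨a, b, rfl⟩
    refine ⟨((a + b : ℤ) : ℂ) + ((-b : ℤ) : ℂ) * w15, ⟨_, _, rfl⟩, ?_⟩
    simp only [map_add, map_mul, map_intCast, conj_w15]
    push_cast
    ring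

lemma conj_Lam0 : (starRingEnd ℂ) '' Lam0 = Lam0 := by
  ext z
  constructor
  · rintro ⟨_, ⟨a, b, rfl⟩, rfl⟩
    refine ⟨-a, a + b, ?_⟩
    simp only [map_add, map_mul, map_intCast, conj_tau0]
    unfold tau0'
    push_cast
    ring
  · rintro ⟨a, b, rfl⟩
    refine ⟨((-a : ℤ) : ℂ) * tau0 + ((a + b : ℤ) : ℂ), ⟨_, _, rfl⟩, ?_⟩
    simp only [map_add, map_mul, map_intCast, conj_tau0]
    unfold tau0'
    push_cast
    ring

/-- `KS Lam0 = lat1`. -/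
theorem KS_Lam0 : KS Lam0 = (lat1 : ℂ) := by
  have h1 : (starRingEnd ℂ) (KS Lam0) = KS Lam0 := by rw [← KS_conj, conj_Lam0]
  have h2 : KS Lam0 = ∑' p : ℤ × ℤ, kap ((p.1 : ℂ) * tau0 + (p.2 : ℂ)) := by
    rw [← Lam0_img, KS_img]
    refine tsum_congr fun p => ?_
    rw [Set.indicator_univ, lam_y0]
  unfold lat1
  rw [← h2]
  exact (conj_eq_iff_re.mp h1).symm

/-- `KS OO = lat0`. -/
theorem KS_OO : KS OO = (lat0 : ℂ) := by
  have h1 : (starRingEnd ℂ) (KS OO) = KS OO := by rw [← KS_conj, conj_OO]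
  have hinj : Function.Injective (fun p : ℤ × ℤ => (p.1 : ℂ) + (p.2 : ℂ) * w15) := by
    intro p r h
    have e : ∀ s : ℤ × ℤ, (s.1 : ℂ) + (s.2 : ℂ) * w15 = lam y0 (3 * s.2, s.1 - s.2) := by
      intro s
      rw [lam_y0, w15_eq]
      push_cast
      ring
    simp only at h
    rw [e, e] at h
    have h3 := lam_inj h
    simp only [Prod.mk.injEq] at h3
    obtain ⟨h4, h5⟩ := h3
    have h6 : p.2 = r.2 := by omega
    have h7 : p.1 = r.1 := by omega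
    exact Prod.ext h7 h6
  have h2 : KS OO = ∑' p : ℤ × ℤ, kap ((p.1 : ℂ) + (p.2 : ℂ) * w15) := by
    have e : OO = (fun p : ℤ × ℤ => (p.1 : ℂ) + (p.2 : ℂ) * w15) '' Set.univ := by
      ext z
      simp only [Set.image_univ, Set.mem_range, Prod.exists]
      constructor
      · rintro ⟨a, b, rfl⟩; exact ⟨a, b, rfl⟩
      · rintro ⟨a, b, rfl⟩; exact ⟨a, b, rfl⟩
    unfold KS
    rw [e, tsum_image (fun z => kap z) hinj.injOn,
      tsum_subtype Set.univ (fun p : ℤ × ℤ => kap ((p.1 : ℂ) + (p.2 : ℂ) * w15))]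
    refine tsum_congr fun p => ?_
    rw [Set.indicator_univ]
  unfold lat0
  rw [← h2]
  exact (conj_eq_iff_re.mp h1).symm

lemma tau_pow4 : tau0 ^ 4 * tau0' ^ 4 = 16 / 81 := by
  rw [← mul_pow, tau0_mul_tau0']
  norm_num

lemma nrm_tau0 : (tau0 ^ 4 * (starRingEnd ℂ) tau0 ^ 2)⁻¹ = 81 / 16 * tau0' ^ 2 := by
  rw [conj_tau0]
  refine inv_eq_of_mul_eq_one_right ?_
  linear_combination (81 / 16 : ℂ) * tau_pow4

lemma nrm_tau0' : (tau0' ^ 4 * (starRingEnd ℂ) tau0' ^ 2)⁻¹ = 81 / 16 * tau0 ^ 2 := by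
  rw [conj_tau0']
  refine inv_eq_of_mul_eq_one_right ?_
  linear_combination (81 / 16 : ℂ) * tau_pow4

lemma nrm_3tau0 : ((3 * tau0) ^ 4 * (starRingEnd ℂ) (3 * tau0) ^ 2)⁻¹ = 1 / 144 * tau0' ^ 2 := by
  rw [map_mul, conj_tau0, map_ofNat]
  refine inv_eq_of_mul_eq_one_right ?_
  linear_combination (81 / 16 : ℂ) * tau_pow4

lemma nrm_3tau0' : ((3 * tau0') ^ 4 * (starRingEnd ℂ) (3 * tau0') ^ 2)⁻¹ = 1 / 144 * tau0 ^ 2 := by
  rw [map_mul, conj_tau0', map_ofNat]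
  refine inv_eq_of_mul_eq_one_right ?_
  linear_combination (81 / 16 : ℂ) * tau_pow4

lemma nrm_two : ((2 : ℂ) ^ 4 * (starRingEnd ℂ) 2 ^ 2)⁻¹ = 1 / 64 := by
  rw [map_ofNat]
  norm_num

lemma sum_sq : tau0 ^ 2 + tau0' ^ 2 = -1 / 3 := by
  have h := tau0_mul_tau0'
  have h2 : tau0 + tau0' = 1 := by unfold tau0'; ring
  linear_combination (tau0 + tau0' + 1) * h2 - 2 * h

theorem KS_A : KS (sc tau0 OO) = 81 / 16 * tau0' ^ 2 * (lat0 : ℂ) := by
  rw [KS_sc tau0_ne, nrm_tau0, KS_OO]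

theorem KS_B : KS (sc tau0' OO) = 81 / 16 * tau0 ^ 2 * (lat0 : ℂ) := by
  rw [KS_sc tau0'_ne, nrm_tau0', KS_OO]

theorem KS_C : KS (sc 2 Lam0) = 1 / 64 * (lat1 : ℂ) := by
  rw [KS_sc two_ne_zero, nrm_two, KS_Lam0]

theorem KS_A3 : KS (sc (3 * tau0) Lam0) = 1 / 144 * tau0' ^ 2 * (lat1 : ℂ) := by
  rw [KS_sc (mul_ne_zero three_ne_zero tau0_ne), nrm_3tau0, KS_Lam0]

theorem KS_B3 : KS (sc (3 * tau0') Lam0) = 1 / 144 * tau0 ^ 2 * (lat1 : ℂ) := by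
  rw [KS_sc (mul_ne_zero three_ne_zero tau0'_ne), nrm_3tau0', KS_Lam0]

theorem KS_C3 : KS (sc 2 OO) = 1 / 64 * (lat0 : ℂ) := by
  rw [KS_sc two_ne_zero, nrm_two, KS_OO]

/-! ### The value of `Kh42` -/

open Classical in
/-- The sign character through the four lattices. -/
lemma chiR_eq (m n : ℤ) : chiR m = 1 - 2 * (if Even n then 1 else 0) -
    2 * (if Even (m + n) then 1 else 0) + 4 * (if Even m ∧ Even n then 1 else 0) := by
  unfold chiR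
  by_cases hm : Even m <;> by_cases hn : Even n <;>
    simp only [hm, hn, Int.even_add, iff_true, iff_false, if_true, if_false, true_and, false_and,
      not_true_eq_false, not_false_eq_true] <;> norm_num

lemma ind_eq (s : Set (ℤ × ℤ)) [DecidablePred (· ∈ s)] (f : ℤ × ℤ → ℂ) (p : ℤ × ℤ) :
    s.indicator f p = (if p ∈ s then 1 else 0) * f p := by
  rw [Set.indicator_apply]
  split_ifs <;> simp

open Classical in
lemma Wh_split (p : ℤ × ℤ) (f : ℤ × ℤ → ℂ) :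
    (Wh p.1 : ℂ) * f p =
      2 * ({p : ℤ × ℤ | Even p.2}).indicator f p
      + 2 * ({p : ℤ × ℤ | Even (p.1 + p.2)}).indicator f p
      - 4 * ({p : ℤ × ℤ | Even p.1 ∧ Even p.2}).indicator f p
      - 18 * ({p : ℤ × ℤ | (3 : ℤ) ∣ p.1 ∧ Even p.2}).indicator f p
      - 18 * ({p : ℤ × ℤ | (3 : ℤ) ∣ p.1 ∧ Even (p.1 + p.2)}).indicator f p
      + 36 * ({p : ℤ × ℤ | (3 : ℤ) ∣ p.1 ∧ Even p.1 ∧ Even p.2}).indicator f p := by
  simp only [ind_eq, Set.mem_setOf_eq]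
  unfold Wh uR
  rw [chiR_eq p.1 p.2]
  by_cases h1 : Even p.1 <;> by_cases h2 : Even p.2 <;> by_cases h3 : (3 : ℤ) ∣ p.1 <;>
    simp only [h1, h2, h3, Int.even_add, iff_true, iff_false, if_true, if_false, true_and,
      false_and, not_true_eq_false, not_false_eq_true, and_true, and_false] <;>
    push_cast <;> ring

/-- **The depth one part of (CM).** -/
theorem Kh42_y0 : Kh42 y0 = -(45 / 16) * (lat0 : ℂ) - 1 / 48 * (lat1 : ℂ) := by
  have h := (((((((hasSum_img {p | Even p.2}).mul_left 2).add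
    ((hasSum_img {p | Even (p.1 + p.2)}).mul_left 2)).sub
    ((hasSum_img {p | Even p.1 ∧ Even p.2}).mul_left 4)).sub
    ((hasSum_img {p | (3 : ℤ) ∣ p.1 ∧ Even p.2}).mul_left 18)).sub
    ((hasSum_img {p | (3 : ℤ) ∣ p.1 ∧ Even (p.1 + p.2)}).mul_left 18)).add
    ((hasSum_img {p | (3 : ℤ) ∣ p.1 ∧ Even p.1 ∧ Even p.2}).mul_left 36))
  rw [A_img, B_img, C_img, A3_img, B3_img, C3_img, KS_A, KS_B, KS_C, KS_A3, KS_B3, KS_C3] at h
  unfold Kh42 Kab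
  have e : (fun p : ℤ × ℤ => (Wh p.1 : ℂ) * (av y0 p ^ 4 * (starRingEnd ℂ) (av y0 p) ^ 2))
      = fun p : ℤ × ℤ => (Wh p.1 : ℂ) * kap (lam y0 p) := by
    funext p
    rw [kap_lam]
  rw [e]
  have e2 : (fun p : ℤ × ℤ => (Wh p.1 : ℂ) * kap (lam y0 p)) = _ :=
    funext fun p => Wh_split p (fun p => kap (lam y0 p))
  rw [e2, h.tsum_eq]
  have h3 := sum_sq
  linear_combination (81 / 8 * (lat0 : ℂ) - 1 / 8 * (lat1 : ℂ)) * h3

end Pool.Agent.Lib.BM.Cm.One
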