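import Pool.Agent.Lib.BM.CmSym
import Pool.Agent.Lib.BM.CmMoves
import Pool.Agent.Lib.BM.CmF3

set_option autoImplicit false

/-!
# BM.CmRefl: certificates for the four-term relations, checked by computation

`Qw` is the field `ℚ(√-15)` with coordinates `x + y w`; all functions of BM.CmFrame are mirrored on `Qw`.
-/

namespace Pool.Agent.Lib.BM.Cm

/-- the field `ℚ(√-15)` as pairs of rational numbers -/
structure Qw where
  x : ℚ
  y : ℚ
deriving DecidableEq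

namespace Qw

instance : Add Qw := ⟨fun a b => ⟨a.x + b.x, a.y + b.y⟩⟩
instance : Sub Qw := ⟨fun a b => ⟨a.x - b.x, a.y - b.y⟩⟩
instance : Neg Qw := ⟨fun a => ⟨-a.x, -a.y⟩⟩
instance : Mul Qw := ⟨fun a b => ⟨a.x * b.x - 4 * (a.y * b.y), a.x * b.y + a.y * b.x + a.y * b.y⟩⟩
instance : Inv Qw := ⟨fun a => ⟨(a.x + a.y) / (a.x * a.x + a.x * a.y + 4 * (a.y * a.y)),
  -a.y / (a.x * a.x + a.x * a.y + 4 * (a.y * a.y))⟩⟩

/-- complex conjugation -/
def cj (a : Qw) : Qw := ⟨a.x + a.y, -a.y⟩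

/-- rational numbers -/
def r (a : ℚ) : Qw := ⟨a, 0⟩

end Qw

noncomputable section

/-- the value of an element of `Qw` -/
def evq (a : Qw) : ℂ := (a.x : ℂ) + (a.y : ℂ) * w15

/-- the values of pairs and triples -/
def ev2 (v : Qw × Qw) : ℂ × ℂ := (evq v.1, evq v.2)
def ev3 (v : Qw × Qw × Qw) : ℂ × ℂ × ℂ := (evq v.1, evq v.2.1, evq v.2.2)

end

lemma evq_add (a b : Qw) : evq (a + b) = evq a + evq b := by
  show ((a.x + b.x : ℚ) : ℂ) + ((a.y + b.y : ℚ) : ℂ) * w15 = _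
  unfold evq; push_cast; ring

lemma evq_sub (a b : Qw) : evq (a - b) = evq a - evq b := by
  show ((a.x - b.x : ℚ) : ℂ) + ((a.y - b.y : ℚ) : ℂ) * w15 = _
  unfold evq; push_cast; ring

lemma evq_neg (a : Qw) : evq (-a) = - evq a := by
  show ((-a.x : ℚ) : ℂ) + ((-a.y : ℚ) : ℂ) * w15 = _
  unfold evq; push_cast; ring

lemma evq_mul (a b : Qw) : evq (a * b) = evq a * evq b := by
  show ((a.x * b.x - 4 * (a.y * b.y) : ℚ) : ℂ) +
    ((a.x * b.y + a.y * b.x + a.y * b.y : ℚ) : ℂ) * w15 = _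
  unfold evq
  have h1 := w15_sq
  push_cast
  linear_combination (-(a.y * b.y) : ℂ) * h1

lemma evq_cj (a : Qw) : evq a.cj = (starRingEnd ℂ) (evq a) := by
  unfold evq Qw.cj
  simp only [map_add, map_mul, map_ratCast, conj_w15']
  push_cast
  ring

lemma evq_r (a : ℚ) : evq (Qw.r a) = (a : ℂ) := by unfold evq Qw.r; simp

lemma norm_pos_of {a : Qw} (h : a.x * a.x + a.x * a.y + 4 * (a.y * a.y) = 0) : a.x = 0 ∧ a.y = 0 := by
  have h1 : (a.x + a.y / 2) ^ 2 + 15 / 4 * a.y ^ 2 = 0 := by linear_combination h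
  have h2 : a.y ^ 2 ≤ 0 := by nlinarith [sq_nonneg (a.x + a.y / 2)]
  have h3 : a.y = 0 := by
    have : a.y ^ 2 = 0 := le_antisymm h2 (sq_nonneg _)
    exact pow_eq_zero_iff (two_ne_zero) |>.1 this
  refine ⟨?_, h3⟩
  rw [h3] at h
  have : a.x * a.x = 0 := by linear_combination h
  exact mul_self_eq_zero.1 this

lemma evq_inv (a : Qw) : evq a⁻¹ = (evq a)⁻¹ := by
  show (((a.x + a.y) / (a.x * a.x + a.x * a.y + 4 * (a.y * a.y)) : ℚ) : ℂ) +
    ((-a.y / (a.x * a.x + a.x * a.y + 4 * (a.y * a.y)) : ℚ) : ℂ) * w15 = _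
  by_cases h : a.x * a.x + a.x * a.y + 4 * (a.y * a.y) = 0
  · obtain ⟨h1, h2⟩ := norm_pos_of h
    unfold evq
    rw [h1, h2]
    simp
  · have h' : ((a.x * a.x + a.x * a.y + 4 * (a.y * a.y) : ℚ) : ℂ) ≠ 0 := by exact_mod_cast h
    have h1 := w15_sq
    refine (inv_eq_of_mul_eq_one_right ?_).symm
    unfold evq
    push_cast at h' ⊢
    rw [show ((a.x : ℂ) + (a.y : ℂ) * w15) *
        (((a.x : ℂ) + a.y) / (a.x * a.x + a.x * a.y + 4 * (a.y * a.y)) +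
          -(a.y : ℂ) / (a.x * a.x + a.x * a.y + 4 * (a.y * a.y)) * w15) =
        (((a.x : ℂ) + (a.y : ℂ) * w15) * ((a.x : ℂ) + a.y - a.y * w15)) /
          (a.x * a.x + a.x * a.y + 4 * (a.y * a.y)) by ring, div_eq_one_iff_eq h']
    linear_combination (-(a.y * a.y) : ℂ) * h1

lemma kz_eq_evq (a b c : ℤ) : kz a b c = evq ⟨a / c, b / c⟩ := by
  unfold kz evq
  push_cast
  ring

/-- the coordinates of `bt n` -/
def btq (n : Z4) : Qw × Qw :=
  (⟨n.1 / 6 + n.2.1 / 2, n.1 / 6⟩, ⟨n.2.2.1 / 6 + n.2.2.2 / 2, n.2.2.1 / 6⟩)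

lemma ev2_btq (n : Z4) : ev2 (btq n) = bt n := by
  unfold ev2 btq evq bt
  rw [w15_eq]
  ext
  · simp only; push_cast; ring
  · simp only; push_cast; ring

/-! ### mirrored functions -/

def evK (a v : Qw × Qw) : Qw := a.1 * v.1 + a.2 * v.2
def dtK (a b : Qw × Qw) : Qw := a.1 * b.2 - a.2 * b.1
def ppK (P : Qw × Qw × Qw) (a b : Qw × Qw) : Qw :=
  P.1 * (a.1 * b.1) + P.2.1 * ((a.1 * b.2 + a.2 * b.1) * Qw.r (1 / 2)) + P.2.2 * (a.2 * b.2)
def xcK (P : Qw × Qw × Qw) (a b v : Qw × Qw) : Qw :=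
  dtK a b * (Qw.r 2 * ppK P a a * (evK a v * evK a v * evK a v * evK b v)⁻¹ +
    Qw.r 2 * ppK P a b * (evK a v * evK a v * (evK b v * evK b v))⁻¹ +
    Qw.r 2 * ppK P b b * (evK a v * (evK b v * evK b v * evK b v))⁻¹)
def ycK (a b v : Qw × Qw) : Qw := (dtK a b * (evK a v * evK b v)⁻¹).cj
def DcK (P : Qw × Qw × Qw) (a b c v : Qw × Qw) : Qw :=
  xcK P a b v * ycK b c v - xcK P b c v * ycK a b v

lemma evq_evK (a v : Qw × Qw) : evq (evK a v) = ev (ev2 a) (ev2 v) := by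
  unfold evK ev ev2; simp only [evq_add, evq_mul]

lemma evq_dtK (a b : Qw × Qw) : evq (dtK a b) = dt (ev2 a) (ev2 b) := by
  unfold dtK dt ev2; simp only [evq_sub, evq_mul]

lemma evq_ppK (P : Qw × Qw × Qw) (a b : Qw × Qw) :
    evq (ppK P a b) = pp (ev3 P) (ev2 a) (ev2 b) := by
  unfold ppK pp ev2 ev3; simp only [evq_add, evq_mul, evq_r]; push_cast; ring

lemma evq_xcK (P : Qw × Qw × Qw) (a b v : Qw × Qw) :
    evq (xcK P a b v) = xc (ev3 P) (ev2 a) (ev2 b) (ev2 v) := by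
  unfold xcK xc
  simp only [evq_add, evq_mul, evq_r, evq_inv, evq_dtK, evq_ppK, evq_evK, div_eq_mul_inv]
  push_cast
  ring

lemma evq_ycK (a b v : Qw × Qw) : evq (ycK a b v) = yc (ev2 a) (ev2 b) (ev2 v) := by
  unfold ycK yc
  simp only [evq_cj, evq_mul, evq_inv, evq_dtK, evq_evK, div_eq_mul_inv]

lemma evq_DcK (P : Qw × Qw × Qw) (a b c v : Qw × Qw) :
    evq (DcK P a b c v) = Dc (ev3 P) (ev2 a) (ev2 b) (ev2 c) (ev2 v) := by
  unfold DcK Dc
  simp only [evq_sub, evq_mul, evq_xcK, evq_ycK]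

def PqK (q : Qw × Qw × Qw) : Qw × Qw × Qw := (q.1, q.2.2 - q.1 - q.2.1, q.2.1)

lemma ev3_PqK (q : Qw × Qw × Qw) : ev3 (PqK q) = Pq (ev3 q) := by
  unfold ev3 PqK Pq; simp only [evq_sub]

def qdK (q : Qw × Qw × Qw) (d : Qw × Qw) : Qw :=
  q.1 * (d.1 * d.1) + (q.2.2 - q.1 - q.2.1) * (d.1 * d.2) + q.2.1 * (d.2 * d.2)
def q1K (q : Qw × Qw × Qw) (d : Qw × Qw) : Qw × Qw × Qw :=
  ((d.1 - d.2) * (d.1 - d.2) * q.2.1, d.1 * d.1 * q.2.2, qdK q d)
def q2K (q : Qw × Qw × Qw) (d : Qw × Qw) : Qw × Qw × Qw :=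
  ((d.2 - d.1) * (d.2 - d.1) * q.1, d.2 * d.2 * q.2.2, qdK q d)
def q3K (q : Qw × Qw × Qw) (d : Qw × Qw) : Qw × Qw × Qw :=
  (d.1 * d.1 * q.1, d.2 * d.2 * q.2.1, qdK q d)
def smK (s : Qw) (q : Qw × Qw × Qw) : Qw × Qw × Qw := (s * q.1, s * q.2.1, s * q.2.2)
def ngK (q : Qw × Qw × Qw) : Qw × Qw × Qw := (-q.1, -q.2.1, -q.2.2)
def nnK (z : Qw) : Qw := z * z.cj
def kapK (s : Qw) : Qw := (s * s * (s * s) * (s.cj * s.cj))⁻¹

lemma evq_qdK (q : Qw × Qw × Qw) (d : Qw × Qw) : evq (qdK q d) = qd (ev3 q) (ev2 d) := by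
  unfold qdK qd ev2 ev3; simp only [evq_add, evq_sub, evq_mul]; ring

lemma ev3_q1K (q : Qw × Qw × Qw) (d : Qw × Qw) : ev3 (q1K q d) = q1 (ev3 q) (ev2 d) := by
  unfold q1K q1
  rw [← evq_qdK]
  unfold ev3 ev2; simp only [evq_sub, evq_mul]; ext <;> simp only <;> ring

lemma ev3_q2K (q : Qw × Qw × Qw) (d : Qw × Qw) : ev3 (q2K q d) = q2 (ev3 q) (ev2 d) := by
  unfold q2K q2
  rw [← evq_qdK]
  unfold ev3 ev2; simp only [evq_sub, evq_mul]; ext <;> simp only <;> ring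

lemma ev3_q3K (q : Qw × Qw × Qw) (d : Qw × Qw) : ev3 (q3K q d) = q3 (ev3 q) (ev2 d) := by
  unfold q3K q3
  rw [← evq_qdK]
  unfold ev3 ev2; simp only [evq_mul]; ext <;> simp only <;> ring

lemma ev3_smK (s : Qw) (q : Qw × Qw × Qw) : ev3 (smK s q) = evq s • ev3 q := by
  unfold ev3 smK; simp only [evq_mul, Prod.smul_mk, smul_eq_mul]

lemma ev3_ngK (q : Qw × Qw × Qw) : ev3 (ngK q) = (-1 : ℂ) • ev3 q := by
  unfold ev3 ngK; simp only [evq_neg, Prod.smul_mk, smul_eq_mul, neg_mul, one_mul]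

lemma evq_nnK (z : Qw) : evq (nnK z) = nn (evq z) := by
  unfold nnK nn; rw [evq_mul, evq_cj]

lemma evq_kapK (s : Qw) : evq (kapK s) = kap (evq s) := by
  unfold kapK kap; rw [evq_inv]; simp only [evq_mul, evq_cj]; congr 1; ring

/-! ### lines -/

def add4 (n m : Z4) : Z4 := (n.1 + m.1, n.2.1 + m.2.1, n.2.2.1 + m.2.2.1, n.2.2.2 + m.2.2.2)
def addM (A B : M4) : M4 := (add4 A.1 B.1, add4 A.2.1 B.2.1, add4 A.2.2.1 B.2.2.1, add4 A.2.2.2 B.2.2.2)
def outer (u v : Z4) : M4 := (sv u.1 v, sv u.2.1 v, sv u.2.2.1 v, sv u.2.2.2 v)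

lemma mv_addM (A B : M4) (n : Z4) : mv (addM A B) n = add4 (mv A n) (mv B n) := by
  unfold mv addM add4 dot4; simp only [Prod.mk.injEq]; refine ⟨?_, ?_, ?_, ?_⟩ <;> ring

lemma mv_outer (u v n : Z4) : mv (outer u v) n = sv (dot4 v n) u := by
  unfold mv outer sv dot4; simp only [Prod.mk.injEq]; refine ⟨?_, ?_, ?_, ?_⟩ <;> ring

lemma mv_add4 (A : M4) (n m : Z4) : mv A (add4 n m) = add4 (mv A n) (mv A m) := by
  unfold mv add4 dot4; simp only [Prod.mk.injEq]; refine ⟨?_, ?_, ?_, ?_⟩ <;> ring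

lemma bt_add4 (n m : Z4) : bt (add4 n m) = ((bt n).1 + (bt m).1, (bt n).2 + (bt m).2) := by
  unfold bt add4; ext
  · simp only; push_cast; ring
  · simp only; push_cast; ring

lemma bt_sv (d : ℤ) (n : Z4) : bt (sv d n) = ((d : ℂ) * (bt n).1, (d : ℂ) * (bt n).2) := by
  unfold bt sv; ext
  · simp only; push_cast; ring
  · simp only; push_cast; ring

/-- data of a line: the ideal is `s O` (`kind = true`) or `s Λ` -/
structure LineD where
  kind : Bool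
  s : Qw
  k1 : ℤ × ℤ
  k2 : ℤ × ℤ
  r1 : Z4
  r2 : Z4
  L1 : Z4
  L2 : Z4
  N1 : Z4
  N2 : Z4
  h : ℤ

/-- the basis of `O` or `Λ` -/
def bas1 (k : Bool) : Qw := if k then ⟨1, 0⟩ else ⟨1 / 3, 1 / 3⟩
def bas2 (k : Bool) : Qw := if k then ⟨0, 1⟩ else ⟨1, 0⟩

/-- the matrix of the equation of the line -/
def lineP (l : LineD) : M4 := blk ((l.k2.1, l.k2.2, -l.k1.1, -l.k1.2), (0, 0, 0, 0))

/-- the check of a line datum -/
def chkLine (G : M4) (k : Qw × Qw) (l : LineD) : Bool :=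
  decide (l.h ≠ 0) && decide (l.s ≠ ⟨0, 0⟩) && decide (k ≠ (⟨0, 0⟩, ⟨0, 0⟩)) &&
  decide (k.2 * ⟨l.k1.1, l.k1.2⟩ = k.1 * ⟨l.k2.1, l.k2.2⟩) &&
  decide ((l.s * bas1 l.kind * k.1, l.s * bas1 l.kind * k.2) = btq (mv G l.r1)) &&
  decide ((l.s * bas2 l.kind * k.1, l.s * bas2 l.kind * k.2) = btq (mv G l.r2)) &&
  decide (sm l.h id4 = addM (sm l.h (addM (outer l.r1 l.L1) (outer l.r2 l.L2)))
    (addM (outer l.N1 (rm (lineP l).1 G)) (outer l.N2 (rm (lineP l).2.1 G))))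

lemma evq_eq_zero {a : Qw} (h : evq a = 0) : a = ⟨0, 0⟩ := by
  have h1 : ((3 * a.y : ℚ) : ℂ) * tau0 + ((a.x - a.y : ℚ) : ℂ) = 0 := by
    unfold evq at h; rw [w15_eq] at h; push_cast; linear_combination h
  have h2 := congrArg Complex.im h1
  have hs : Real.sqrt 15 / 6 ≠ 0 := by positivity
  simp only [Complex.add_im, Complex.mul_im, Complex.ratCast_re, Complex.ratCast_im, zero_mul,
    add_zero, Complex.zero_im, tau0_im] at h2
  have h3 : ((3 * a.y : ℚ) : ℝ) = 0 := by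
    rcases mul_eq_zero.1 h2 with h4 | h4
    · exact h4
    · exact absurd h4 hs
  have h4 : 3 * a.y = 0 := by exact_mod_cast h3
  have h5 : a.y = 0 := by linarith
  rw [h4] at h1
  have h6 : ((a.x - a.y : ℚ) : ℂ) = 0 := by simpa using h1
  have h7 : a.x - a.y = 0 := by exact_mod_cast h6
  have h8 : a.x = 0 := by linarith
  cases a
  simp only at h5 h8
  rw [h5, h8]

/-- the lattice `O` or `Λ` -/
def latJ (k : Bool) : Set ℂ := if k then OO else Lam0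

lemma mem_latJ (k : Bool) (z : ℂ) :
    z ∈ latJ k ↔ ∃ x y : ℤ, z = x * evq (bas1 k) + y * evq (bas2 k) := by
  unfold latJ bas1 bas2
  cases k
  · simp only [Bool.false_eq_true, if_false]
    have e1 : evq ⟨1 / 3, 1 / 3⟩ = tau0 := by unfold evq; rw [w15_eq]; push_cast; ring
    have e2 : evq ⟨1, 0⟩ = 1 := by unfold evq; simp
    rw [e1, e2]
    constructor
    · rintro ⟨m, n, rfl⟩; exact ⟨m, n, by ring⟩
    · rintro ⟨m, n, rfl⟩; exact ⟨m, n, by ring⟩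
  · simp only [if_true]
    have e1 : evq ⟨0, 1⟩ = w15 := by unfold evq; simp
    have e2 : evq ⟨1, 0⟩ = 1 := by unfold evq; simp
    rw [e1, e2]
    constructor
    · rintro ⟨m, n, rfl⟩; exact ⟨m, n, by ring⟩
    · rintro ⟨m, n, rfl⟩; exact ⟨m, n, by ring⟩

/-- the set of a line -/
theorem line_set {G : M4} {k : Qw × Qw} {l : LineD} (h : chkLine G k l = true) :
    {t : ℂ | (t * evq k.1, t * evq k.2) ∈ Mset G} = (fun z => evq l.s * z) '' latJ l.kind := by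
  unfold chkLine at h
  simp only [Bool.and_eq_true, decide_eq_true_eq] at h
  obtain ⟨⟨⟨⟨⟨⟨h0, hs⟩, hk⟩, hk'⟩, hr1⟩, hr2⟩, hid⟩ := h
  have b1 : bt (mv G l.r1) = (evq l.s * evq (bas1 l.kind) * evq k.1, evq l.s * evq (bas1 l.kind) * evq k.2) := by
    rw [← ev2_btq, ← hr1]; unfold ev2; simp only [evq_mul]
  have b2 : bt (mv G l.r2) = (evq l.s * evq (bas2 l.kind) * evq k.1, evq l.s * evq (bas2 l.kind) * evq k.2) := by
    rw [← ev2_btq, ← hr2]; unfold ev2; simp only [evq_mul]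
  have comb : ∀ x y : ℤ, bt (mv G (add4 (sv x l.r1) (sv y l.r2))) =
      (evq l.s * (x * evq (bas1 l.kind) + y * evq (bas2 l.kind)) * evq k.1,
       evq l.s * (x * evq (bas1 l.kind) + y * evq (bas2 l.kind)) * evq k.2) := by
    intro x y
    rw [mv_add4, mv_sv, mv_sv, bt_add4, bt_sv, bt_sv, b1, b2]
    ext
    · simp only; ring
    · simp only; ring
  ext t
  constructor
  · rintro ⟨κ, hκ⟩
    simp only at hκ
    -- the equation of the line
    have hE : lin ((l.k2.1, l.k2.2, -l.k1.1, -l.k1.2), (0, 0, 0, 0)) 1 (bt (mv G κ)) = (0, 0) := by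
      rw [hκ]
      unfold lin
      have e := congrArg evq hk'
      rw [evq_mul, evq_mul] at e
      have e1 : evq ⟨l.k1.1, l.k1.2⟩ = kz l.k1.1 l.k1.2 1 := by rw [kz_eq_evq]; simp
      have e2 : evq ⟨l.k2.1, l.k2.2⟩ = kz l.k2.1 l.k2.2 1 := by rw [kz_eq_evq]; simp
      rw [e1, e2] at e
      simp only [kz_neg, kz_zero]
      ext
      · simp only; linear_combination (-t) * e
      · simp only; ring
    rw [lin_bt] at hE
    have hE1 := congrArg Prod.fst hE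
    simp only [Int.cast_one, div_one] at hE1
    have hE2 : ((mv (lineP l) (mv G κ)).1 : ℂ) * tau0 + ((mv (lineP l) (mv G κ)).2.1 : ℂ) = 0 := by
      have e3 : (bt (mv (lineP l) (mv G κ))).1 = 0 := hE1
      unfold bt at e3
      simp only at e3
      linear_combination 2 * e3
    obtain ⟨z1, z2⟩ := tau0_lin_zero hE2
    have z1' : dot4 (rm (lineP l).1 G) κ = 0 := by rw [dot4_rm]; exact z1
    have z2' : dot4 (rm (lineP l).2.1 G) κ = 0 := by rw [dot4_rm]; exact z2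
    have e4 := congrArg (fun A => mv A κ) hid
    simp only [mv_sm, mv_addM, mv_outer, mv_id4, z1', z2'] at e4
    have e5 : κ = add4 (sv (dot4 l.L1 κ) l.r1) (sv (dot4 l.L2 κ) l.r2) := by
      apply sv_inj h0
      rw [e4]
      unfold add4 sv
      simp only [zero_mul, add_zero]
    refine ⟨(dot4 l.L1 κ : ℂ) * evq (bas1 l.kind) + (dot4 l.L2 κ : ℂ) * evq (bas2 l.kind),
      (mem_latJ _ _).2 ⟨_, _, rfl⟩, ?_⟩
    have e6 := comb (dot4 l.L1 κ) (dot4 l.L2 κ)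
    rw [← e5, hκ] at e6
    simp only [Prod.mk.injEq] at e6
    simp only
    by_cases hk1 : evq k.1 = 0
    · have hk2 : evq k.2 ≠ 0 := by
        intro hk2
        apply hk
        rw [Prod.ext_iff]
        exact ⟨evq_eq_zero hk1, evq_eq_zero hk2⟩
      exact (mul_right_cancel₀ hk2 e6.2).symm
    · exact (mul_right_cancel₀ hk1 e6.1).symm
  · rintro ⟨z, hz, rfl⟩
    obtain ⟨x, y, rfl⟩ := (mem_latJ _ _).1 hz
    exact ⟨_, comb x y⟩

theorem KS_line {G : M4} {k : Qw × Qw} {l : LineD} (h : chkLine G k l = true) :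
    KS {t : ℂ | (t * evq k.1, t * evq k.2) ∈ Mset G} = evq (kapK l.s) * KS (latJ l.kind) := by
  rw [line_set h]
  have hs : evq l.s ≠ 0 := by
    intro h0
    unfold chkLine at h
    simp only [Bool.and_eq_true, decide_eq_true_eq] at h
    exact h.1.1.1.1.1.2 (evq_eq_zero h0)
  rw [KS_smul _ hs, evq_kapK]

/-! ### instances -/

/-- integer numerators of a triple -/
def qzK (c : ℤ) (z : ℤ × ℤ × ℤ × ℤ × ℤ × ℤ) : Qw × Qw × Qw :=
  (⟨z.1 / c, z.2.1 / c⟩, ⟨z.2.2.1 / c, z.2.2.2.1 / c⟩, ⟨z.2.2.2.2.1 / c, z.2.2.2.2.2 / c⟩)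

lemma ev3_qzK (c : ℤ) (z : ℤ × ℤ × ℤ × ℤ × ℤ × ℤ) : ev3 (qzK c z) = qz c z := by
  unfold ev3 qzK qz
  simp only [kz_eq_evq]

abbrev Zsix := ℤ × ℤ × ℤ × ℤ × ℤ × ℤ

/-- data of a four-term relation -/
structure InstD where
  G0 : M4
  G1 : M4
  G2 : M4
  G3 : M4
  a : ℤ
  b : ℤ
  c : ℤ
  z0 : Zsix
  z1 : Zsix
  z2 : Zsix
  z3 : Zsix
  l0 : LineD
  l1 : LineD
  l2 : LineD
  l3 : LineD
  al : Qw
  be : Qw

def InstD.t (D : InstD) : Qw := ⟨D.a / D.c, D.b / D.c⟩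

def K0 : Qw := ⟨0, 0⟩
def K1 : Qw := ⟨1, 0⟩
def Km1 : Qw := ⟨-1, 0⟩

/-- the four coefficients at the lines -/
def cf0 (q : Qw × Qw × Qw) (t : Qw) : Qw := DcK (PqK q) (K0, K1) (Km1, Km1) (t, K1) (K0, K1)
def cf1 (q : Qw × Qw × Qw) (t : Qw) : Qw := -DcK (PqK q) (K1, K0) (Km1, Km1) (t, K1) (K1, K0)
def cf2 (q : Qw × Qw × Qw) (t : Qw) : Qw := DcK (PqK q) (K1, K0) (K0, K1) (t, K1) (K1, Km1)
def cf3 (q : Qw × Qw × Qw) (t : Qw) : Qw := -DcK (PqK q) (K1, K0) (K0, K1) (Km1, Km1) (K1, -t)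

def pick (k b : Bool) (x : Qw) : Qw := if k = b then x else K0

/-- the check of an instance; `C` is the common denominator -/
def chkInst (C : ℤ) (D : InstD) : Bool :=
  let q : Qw × Qw × Qw := ngK (qzK C D.z0)
  let t := D.t
  let d : Qw × Qw := (t, K1)
  decide (D.c ≠ 0) && decide (t ≠ K0) && decide (t ≠ K1) &&
  decide (mm (blk ((0, 0, D.a - D.c, D.b), (-D.a, -D.b, -D.a, -D.b))) D.G0 = sm D.c D.G1) &&
  decide (mm (blk ((D.c - D.a, -D.b, 0, 0), (-D.c, 0, -D.c, 0))) D.G0 = sm D.c D.G2) &&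
  decide (mm (blk ((-D.a, -D.b, 0, 0), (0, 0, -D.c, 0))) D.G0 = sm D.c D.G3) &&
  decide (smK (nnK (t * (t - K1))) (q1K q d) = qzK C D.z1) &&
  decide (smK (-nnK (K1 * (t - K1))) (q2K q d) = qzK C D.z2) &&
  decide (smK (nnK (t * K1)) (q3K q d) = qzK C D.z3) &&
  chkLine D.G0 (K0, K1) D.l0 && chkLine D.G0 (K1, K0) D.l1 && chkLine D.G0 (K1, Km1) D.l2 &&
  chkLine D.G0 (K1, -t) D.l3 &&
  decide (D.al = pick D.l0.kind true (cf0 q t * kapK D.l0.s) + pick D.l1.kind true (cf1 q t * kapK D.l1.s) +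
    pick D.l2.kind true (cf2 q t * kapK D.l2.s) + pick D.l3.kind true (cf3 q t * kapK D.l3.s)) &&
  decide (D.be = pick D.l0.kind false (cf0 q t * kapK D.l0.s) + pick D.l1.kind false (cf1 q t * kapK D.l1.s) +
    pick D.l2.kind false (cf2 q t * kapK D.l2.s) + pick D.l3.kind false (cf3 q t * kapK D.l3.s))

lemma evq_K0 : evq K0 = 0 := by unfold evq K0; simp
lemma evq_K1 : evq K1 = 1 := by unfold evq K1; simp
lemma evq_Km1 : evq Km1 = -1 := by unfold evq Km1; simp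

lemma pick_sum (k : Bool) (x : Qw) : evq x * KS (latJ k) =
    evq (pick k true x) * KS OO + evq (pick k false x) * KS Lam0 := by
  unfold pick latJ
  cases k
  · simp [evq_K0]
  · simp [evq_K0]

/-- a checked instance gives a relation between the sums -/
theorem inst_of_check (hF : StF3) {C : ℤ} {D : InstD} (h : chkInst C D = true) :
    SS (Mset D.G0) (qz C D.z0) + SS (Mset D.G1) (qz C D.z1) + SS (Mset D.G2) (qz C D.z2) +
      SS (Mset D.G3) (qz C D.z3) = evq D.al * KS OO + evq D.be * KS Lam0 := by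
  unfold chkInst at h
  simp only [Bool.and_eq_true, decide_eq_true_eq] at h
  obtain ⟨⟨⟨⟨⟨⟨⟨⟨⟨⟨⟨⟨⟨⟨hc, ht0⟩, ht1⟩, hG1⟩, hG2⟩, hG3⟩, hz1⟩, hz2⟩, hz3⟩, hl0⟩, hl1⟩, hl2⟩, hl3⟩,
    hal⟩, hbe⟩ := h
  set q : Qw × Qw × Qw := ngK (qzK C D.z0) with hq
  have hT : evq D.t = kz D.a D.b D.c := by rw [kz_eq_evq]; rfl
  have hT0 : evq D.t ≠ 0 := fun h0 => ht0 (evq_eq_zero h0)
  have hT1 : evq D.t ≠ 1 := by
    intro h0
    apply ht1
    have : evq (D.t - K1) = 0 := by rw [evq_sub, h0, evq_K1, sub_self]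
    have h2 := evq_eq_zero this
    have h3 : D.t = ⟨1, 0⟩ := by
      have hx := congrArg Qw.x h2
      have hy := congrArg Qw.y h2
      change D.t.x - 1 = 0 at hx
      change D.t.y - 0 = 0 at hy
      have hx' : D.t.x = 1 := by linarith
      have hy' : D.t.y = 0 := by linarith
      cases hD : D.t
      rw [hD] at hx' hy'
      simp only at hx' hy'
      rw [hx', hy']
    exact h3
  have key := f5 hF (Mset D.G0) (ev3 q) (evq D.t, 1) (nice_Mset _) (by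
    simp only; rw [hT]; exact kz_mem_KK _ _ _) (by
    have := kz_mem_KK 1 0 1
    simp only
    convert this using 1
    unfold kz; simp) hT0 one_ne_zero hT1
  have i1 : g1 (evq D.t, 1) '' Mset D.G0 = Mset D.G1 := by
    rw [hT, g1_eq_lin hc]; exact lin_image hc hG1
  have i2 : g2 (evq D.t, 1) '' Mset D.G0 = Mset D.G2 := by
    rw [hT, g2_eq_lin hc]; exact lin_image hc hG2
  have i3 : g3 (evq D.t, 1) '' Mset D.G0 = Mset D.G3 := by
    rw [hT, g3_eq_lin hc]; exact lin_image hc hG3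
  have hd : ev2 (D.t, K1) = (evq D.t, 1) := by unfold ev2; rw [evq_K1]
  have s1 : nn (evq D.t * (evq D.t - 1)) * SS (Mset D.G1) (q1 (ev3 q) (evq D.t, 1)) =
      SS (Mset D.G1) (qz C D.z1) := by
    rw [← SS_smul_q, ← ev3_qzK, ← hz1, ev3_smK, ev3_q1K, hd, evq_nnK, evq_mul, evq_sub, evq_K1]
  have s2 : nn (1 * (evq D.t - 1)) * SS (Mset D.G2) (q2 (ev3 q) (evq D.t, 1)) =
      - SS (Mset D.G2) (qz C D.z2) := by
    rw [← ev3_qzK, ← hz2, ev3_smK, SS_smul_q, ev3_q2K, hd, evq_neg, evq_nnK, evq_mul, evq_sub, evq_K1]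
    ring
  have s3 : nn (evq D.t * 1) * SS (Mset D.G3) (q3 (ev3 q) (evq D.t, 1)) =
      SS (Mset D.G3) (qz C D.z3) := by
    rw [← SS_smul_q, ← ev3_qzK, ← hz3, ev3_smK, ev3_q3K, hd, evq_nnK, evq_mul, evq_K1]
  have s0 : SS (Mset D.G0) (ev3 q) = - SS (Mset D.G0) (qz C D.z0) := by
    rw [hq, ev3_ngK, SS_smul_q, ev3_qzK]; ring
  have hP : ev3 (PqK q) = Pq (ev3 q) := ev3_PqK q
  have E1 : ev2 (K1, K0) = e1 := by unfold ev2 e1; rw [evq_K1, evq_K0]
  have E2 : ev2 (K0, K1) = e2 := by unfold ev2 e2; rw [evq_K1, evq_K0]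
  have E3 : ev2 (Km1, Km1) = e3 := by unfold ev2 e3; rw [evq_Km1]
  have k0 : Dc (Pq (ev3 q)) e2 e3 (evq D.t, 1) (0, 1) * KS {t | ((0 : ℂ), t) ∈ Mset D.G0} =
      evq (cf0 q D.t * kapK D.l0.s) * KS (latJ D.l0.kind) := by
    have e := KS_line hl0
    simp only [evq_K0, evq_K1, mul_zero, mul_one] at e
    rw [e]
    unfold cf0
    rw [evq_mul, evq_DcK, hP, E2, E3, hd]
    rw [show ((0 : ℂ), (1 : ℂ)) = e2 from rfl]
    ring
  have k1 : Dc (Pq (ev3 q)) e1 e3 (evq D.t, 1) (1, 0) * KS {t | (t, (0 : ℂ)) ∈ Mset D.G0} =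
      - (evq (cf1 q D.t * kapK D.l1.s) * KS (latJ D.l1.kind)) := by
    have e := KS_line hl1
    simp only [evq_K0, evq_K1, mul_zero, mul_one] at e
    rw [e]
    unfold cf1
    rw [evq_mul, evq_neg, evq_DcK, hP, E1, E3, hd]
    rw [show ((1 : ℂ), (0 : ℂ)) = e1 from rfl]
    ring
  have k2 : Dc (Pq (ev3 q)) e1 e2 (evq D.t, 1) (1, -1) * KS {t | (t, -t) ∈ Mset D.G0} =
      evq (cf2 q D.t * kapK D.l2.s) * KS (latJ D.l2.kind) := by
    have e := KS_line hl2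
    simp only [evq_K1, evq_Km1, mul_one, mul_neg] at e
    rw [e]
    unfold cf2
    rw [evq_mul, evq_DcK, hP, E1, E2, hd]
    rw [show ev2 (K1, Km1) = ((1 : ℂ), (-1 : ℂ)) by unfold ev2; rw [evq_K1, evq_Km1]]
    ring
  have k3 : Dc (Pq (ev3 q)) e1 e2 e3 (1, -(evq D.t)) * KS {t | (t * 1, -(t * evq D.t)) ∈ Mset D.G0} =
      - (evq (cf3 q D.t * kapK D.l3.s) * KS (latJ D.l3.kind)) := by
    have e := KS_line hl3
    simp only [evq_K1, evq_neg, mul_neg] at e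
    rw [e]
    unfold cf3
    rw [evq_mul, evq_neg, evq_DcK, hP, E1, E2, E3]
    rw [show ev2 (K1, -D.t) = ((1 : ℂ), -(evq D.t)) by unfold ev2; rw [evq_K1, evq_neg]]
    ring
  simp only at key
  rw [i1, i2, i3, s1, s2, s3, s0, k0, k1, k2, k3, pick_sum, pick_sum, pick_sum, pick_sum] at key
  rw [hal, hbe]
  simp only [evq_add]
  linear_combination key

/-! ### scalar moves -/

/-- data of a scalar move -/
structure MoveD where
  G : M4
  G' : M4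
  a : ℤ
  b : ℤ
  c : ℤ
  z : Zsix
  z' : Zsix

def MoveD.s (D : MoveD) : Qw := ⟨D.a / D.c, D.b / D.c⟩

def chkMove (C : ℤ) (D : MoveD) : Bool :=
  decide (D.c ≠ 0) && decide (D.s ≠ K0) &&
  decide (mm (blk ((D.a, D.b, 0, 0), (0, 0, D.a, D.b))) D.G = sm D.c D.G') &&
  decide (smK (kapK D.s) (qzK C D.z') = ngK (qzK C D.z))

theorem move_of_check {C : ℤ} {D : MoveD} (h : chkMove C D = true) :
    SS (Mset D.G) (qz C D.z) + SS (Mset D.G') (qz C D.z') = 0 := by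
  unfold chkMove at h
  simp only [Bool.and_eq_true, decide_eq_true_eq] at h
  obtain ⟨⟨⟨hc, hs⟩, hG⟩, hz⟩ := h
  have hs' : evq D.s ≠ 0 := fun h0 => hs (evq_eq_zero h0)
  have hS : evq D.s = kz D.a D.b D.c := by rw [kz_eq_evq]; rfl
  have i : (fun v : ℂ × ℂ => (evq D.s * v.1, evq D.s * v.2)) '' Mset D.G = Mset D.G' := by
    rw [hS, smul_eq_lin]; exact lin_image hc hG
  have e := SS_smul (Mset D.G) hs' (qz C D.z')
  rw [i, ← SS_smul_q, ← ev3_qzK, ← evq_kapK, ← ev3_smK, hz, ev3_ngK, SS_smul_q, ev3_qzK] at e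
  rw [e, ev3_qzK]
  ring

end Pool.Agent.Lib.BM.Cm
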