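import Pool.Agent.Lib.BM.CmNice

set_option autoImplicit false

/-!
# BM.CmSym: modules in integer coordinates

The ambient lattice is `(1/2) Λ × (1/2) Λ`, `Λ = ℤ τ₀ + ℤ`, with the coordinates
`bt (n₁,n₂,n₃,n₄) = ((n₁ τ₀ + n₂)/2, (n₃ τ₀ + n₄)/2)`. A module is the image `Mset G` of `ℤ⁴` under an integer matrix `G`.
-/

namespace Pool.Agent.Lib.BM.Cm

/-- four integers -/
abbrev Z4 := ℤ × ℤ × ℤ × ℤ

/-- an integer matrix by rows -/
abbrev M4 := Z4 × Z4 × Z4 × Z4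

/-- scalar product -/
def dot4 (r n : Z4) : ℤ := r.1 * n.1 + r.2.1 * n.2.1 + r.2.2.1 * n.2.2.1 + r.2.2.2 * n.2.2.2

/-- matrix times vector -/
def mv (G : M4) (n : Z4) : Z4 := (dot4 G.1 n, dot4 G.2.1 n, dot4 G.2.2.1 n, dot4 G.2.2.2 n)

/-- the columns -/
def col1 (G : M4) : Z4 := (G.1.1, G.2.1.1, G.2.2.1.1, G.2.2.2.1)
def col2 (G : M4) : Z4 := (G.1.2.1, G.2.1.2.1, G.2.2.1.2.1, G.2.2.2.2.1)
def col3 (G : M4) : Z4 := (G.1.2.2.1, G.2.1.2.2.1, G.2.2.1.2.2.1, G.2.2.2.2.2.1)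
def col4 (G : M4) : Z4 := (G.1.2.2.2, G.2.1.2.2.2, G.2.2.1.2.2.2, G.2.2.2.2.2.2)

/-- row times matrix -/
def rm (r : Z4) (G : M4) : Z4 := (dot4 r (col1 G), dot4 r (col2 G), dot4 r (col3 G), dot4 r (col4 G))

/-- matrix product -/
def mm (A G : M4) : M4 := (rm A.1 G, rm A.2.1 G, rm A.2.2.1 G, rm A.2.2.2 G)

/-- scalar times vector, scalar times matrix -/
def sv (d : ℤ) (n : Z4) : Z4 := (d * n.1, d * n.2.1, d * n.2.2.1, d * n.2.2.2)
def sm (d : ℤ) (G : M4) : M4 := (sv d G.1, sv d G.2.1, sv d G.2.2.1, sv d G.2.2.2)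

/-- the identity matrix -/
def id4 : M4 := ((1, 0, 0, 0), (0, 1, 0, 0), (0, 0, 1, 0), (0, 0, 0, 1))

lemma dot4_rm (r : Z4) (G : M4) (n : Z4) : dot4 (rm r G) n = dot4 r (mv G n) := by
  unfold rm mv dot4 col1 col2 col3 col4
  simp only
  ring

lemma mv_mm (A G : M4) (n : Z4) : mv (mm A G) n = mv A (mv G n) := by
  unfold mm
  rw [mv]
  simp only [dot4_rm]
  rfl

lemma mv_sm (d : ℤ) (G : M4) (n : Z4) : mv (sm d G) n = sv d (mv G n) := by
  unfold mv sm sv dot4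
  simp only [Prod.mk.injEq]
  refine ⟨?_, ?_, ?_, ?_⟩ <;> ring

lemma mv_id4 (n : Z4) : mv id4 n = n := by
  obtain ⟨a, b, c, d⟩ := n
  unfold mv id4 dot4
  simp

lemma mv_sv (d : ℤ) (G : M4) (n : Z4) : mv G (sv d n) = sv d (mv G n) := by
  unfold mv sv dot4
  simp only [Prod.mk.injEq]
  refine ⟨?_, ?_, ?_, ?_⟩ <;> ring

lemma sv_inj {d : ℤ} (hd : d ≠ 0) {n m : Z4} (h : sv d n = sv d m) : n = m := by
  obtain ⟨a, b, c, e⟩ := n
  obtain ⟨a', b', c', e'⟩ := m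
  unfold sv at h
  simp only [Prod.mk.injEq] at h
  obtain ⟨h1, h2, h3, h4⟩ := h
  rw [mul_left_cancel₀ hd h1, mul_left_cancel₀ hd h2, mul_left_cancel₀ hd h3, mul_left_cancel₀ hd h4]

noncomputable section

/-- the ambient lattice `(1/2) Λ × (1/2) Λ` -/
def bt (n : Z4) : ℂ × ℂ :=
  (((n.1 : ℂ) * tau0 + (n.2.1 : ℂ)) / 2, ((n.2.2.1 : ℂ) * tau0 + (n.2.2.2 : ℂ)) / 2)

/-- the module with basis the columns of `G` -/
def Mset (G : M4) : Set (ℂ × ℂ) := Set.range (fun k : Z4 => bt (mv G k))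

/-- the number `(a + b w)/c` -/
def kz (a b c : ℤ) : ℂ := ((a : ℂ) + (b : ℂ) * w15) / (c : ℂ)

/-- three numbers of the field with the common denominator `c` -/
def qz (c : ℤ) (z : ℤ × ℤ × ℤ × ℤ × ℤ × ℤ) : ℂ × ℂ × ℂ :=
  (kz z.1 z.2.1 c, kz z.2.2.1 z.2.2.2.1 c, kz z.2.2.2.2.1 z.2.2.2.2.2 c)

/-- a linear map with coefficients in the field -/
def lin (P : Z4 × Z4) (c : ℤ) (v : ℂ × ℂ) : ℂ × ℂ :=
  (kz P.1.1 P.1.2.1 c * v.1 + kz P.1.2.2.1 P.1.2.2.2 c * v.2,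
    kz P.2.1 P.2.2.1 c * v.1 + kz P.2.2.2.1 P.2.2.2.2 c * v.2)

end

/-- the integer matrix of a linear map in the coordinates of the ambient lattice -/
def blk (P : Z4 × Z4) : M4 :=
  ((P.1.1 + 2 * P.1.2.1, 3 * P.1.2.1, P.1.2.2.1 + 2 * P.1.2.2.2, 3 * P.1.2.2.2),
   (-2 * P.1.2.1, P.1.1 - P.1.2.1, -2 * P.1.2.2.2, P.1.2.2.1 - P.1.2.2.2),
   (P.2.1 + 2 * P.2.2.1, 3 * P.2.2.1, P.2.2.2.1 + 2 * P.2.2.2.2, 3 * P.2.2.2.2),
   (-2 * P.2.2.1, P.2.1 - P.2.2.1, -2 * P.2.2.2.2, P.2.2.2.1 - P.2.2.2.2))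

lemma tau0_im : tau0.im = Real.sqrt 15 / 6 := by
  unfold tau0
  rw [show (1 / 2 + Complex.I * ((Real.sqrt 15 : ℝ) : ℂ) / 6 : ℂ) =
    ((1 / 2 : ℝ) : ℂ) + ((Real.sqrt 15 / 6 : ℝ) : ℂ) * Complex.I by push_cast; ring]
  simp

lemma tau0_lin_zero {m n : ℤ} (h : (m : ℂ) * tau0 + (n : ℂ) = 0) : m = 0 ∧ n = 0 := by
  have h1 := congrArg Complex.im h
  simp only [Complex.add_im, Complex.mul_im, Complex.intCast_re, Complex.intCast_im, zero_mul, add_zero,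
    Complex.zero_im, tau0_im] at h1
  have hs : Real.sqrt 15 / 6 ≠ 0 := by positivity
  have hm : (m : ℝ) = 0 := by
    rcases mul_eq_zero.1 h1 with h2 | h2
    · exact h2
    · exact absurd h2 hs
  have hm' : m = 0 := by exact_mod_cast hm
  subst hm'
  refine ⟨rfl, ?_⟩
  simpa using h

lemma tau0_lin_inj {m n m' n' : ℤ} (h : (m : ℂ) * tau0 + (n : ℂ) = m' * tau0 + n') :
    m = m' ∧ n = n' := by
  have := tau0_lin_zero (m := m - m') (n := n - n') (by push_cast; linear_combination h)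
  omega

lemma bt_inj {n m : Z4} (h : bt n = bt m) : n = m := by
  obtain ⟨a, b, c, d⟩ := n
  obtain ⟨a', b', c', d'⟩ := m
  unfold bt at h
  simp only [Prod.mk.injEq] at h
  have h1 := tau0_lin_inj (m := a) (n := b) (m' := a') (n' := b') (by linear_combination 2 * h.1)
  have h2 := tau0_lin_inj (m := c) (n := d) (m' := c') (n' := d') (by linear_combination 2 * h.2)
  rw [h1.1, h1.2, h2.1, h2.2]

lemma nice_Mset (G : M4) : Nice (Mset G) := by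
  refine ⟨2, by norm_num, ?_⟩
  rintro v ⟨k, rfl⟩
  refine ⟨⟨(mv G k).1, (mv G k).2.1, ?_⟩, ⟨(mv G k).2.2.1, (mv G k).2.2.2, ?_⟩⟩ <;>
  · unfold bt
    push_cast
    ring

/-- membership in a module -/
theorem mem_Mset {A G : M4} {d : ℤ} (hd : d ≠ 0) (h1 : mm A G = sm d id4) (h2 : mm G A = sm d id4)
    (n : Z4) : bt n ∈ Mset G ↔ ∃ k : Z4, mv A n = sv d k := by
  constructor
  · rintro ⟨k, hk⟩
    have := bt_inj hk
    refine ⟨k, ?_⟩
    rw [← this, ← mv_mm, h1, mv_sm, mv_id4]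
  · rintro ⟨k, hk⟩
    refine ⟨k, ?_⟩
    show bt (mv G k) = bt n
    congr 1
    apply sv_inj hd
    rw [← mv_sv, ← hk, ← mv_mm, h2, mv_sm, mv_id4]

lemma exists_sv (d : ℤ) (n : Z4) : (∃ k : Z4, n = sv d k) ↔
    d ∣ n.1 ∧ d ∣ n.2.1 ∧ d ∣ n.2.2.1 ∧ d ∣ n.2.2.2 := by
  constructor
  · rintro ⟨k, rfl⟩
    exact ⟨⟨k.1, rfl⟩, ⟨k.2.1, rfl⟩, ⟨k.2.2.1, rfl⟩, ⟨k.2.2.2, rfl⟩⟩
  · rintro ⟨⟨a, ha⟩, ⟨b, hb⟩, ⟨c, hc⟩, ⟨e, he⟩⟩
    exact ⟨(a, b, c, e), by unfold sv; ext <;> assumption⟩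

lemma mem_Mset' {A G : M4} {d : ℤ} (hd : d ≠ 0) (h1 : mm A G = sm d id4) (h2 : mm G A = sm d id4)
    (n : Z4) : bt n ∈ Mset G ↔
      d ∣ (mv A n).1 ∧ d ∣ (mv A n).2.1 ∧ d ∣ (mv A n).2.2.1 ∧ d ∣ (mv A n).2.2.2 := by
  rw [mem_Mset hd h1 h2, exists_sv]

lemma kz_mul_lam (a b c m n : ℤ) (x : ℂ) (hx : x = (m : ℂ) * tau0 + n) :
    kz a b c * (x / 2) = ((((a * m + b * (2 * m + 3 * n) : ℤ) : ℂ) * tau0 +
      ((a * n + b * (-2 * m - n) : ℤ) : ℂ)) / 2) / c := by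
  unfold kz
  subst hx
  have h1 := w15_mul_tau0
  have h2 := w15_eq
  push_cast
  rw [div_mul_div_comm, div_div, mul_comm (2 : ℂ) (c : ℂ)]
  congr 1
  linear_combination (b * m : ℂ) * h1 + (b * n : ℂ) * h2

/-- the linear map in coordinates -/
lemma lin_bt (P : Z4 × Z4) (c : ℤ) (n : Z4) :
    lin P c (bt n) = ((bt (mv (blk P) n)).1 / c, (bt (mv (blk P) n)).2 / c) := by
  unfold lin bt
  simp only
  rw [kz_mul_lam _ _ _ _ _ _ rfl, kz_mul_lam _ _ _ _ _ _ rfl, kz_mul_lam _ _ _ _ _ _ rfl,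
    kz_mul_lam _ _ _ _ _ _ rfl]
  unfold mv blk dot4
  ext
  · push_cast; ring
  · push_cast; ring

lemma bt_sv_div {c : ℤ} (hc : c ≠ 0) (n : Z4) : ((bt (sv c n)).1 / c, (bt (sv c n)).2 / c) = bt n := by
  have hc' : (c : ℂ) ≠ 0 := by exact_mod_cast hc
  unfold bt sv
  ext
  · simp only; push_cast; field_simp
  · simp only; push_cast; field_simp

lemma lin_bt_mv {P : Z4 × Z4} {c : ℤ} (hc : c ≠ 0) {G G' : M4} (h : mm (blk P) G = sm c G')
    (k : Z4) : lin P c (bt (mv G k)) = bt (mv G' k) := by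
  rw [lin_bt, ← mv_mm, h, mv_sm, bt_sv_div hc]

/-- the image of a module under a linear map -/
theorem lin_image {P : Z4 × Z4} {c : ℤ} (hc : c ≠ 0) {G G' : M4} (h : mm (blk P) G = sm c G') :
    lin P c '' Mset G = Mset G' := by
  unfold Mset
  rw [← Set.range_comp]
  congr 1
  funext k
  exact lin_bt_mv hc h k

lemma kz_zero (c : ℤ) : kz 0 0 c = 0 := by unfold kz; simp

lemma kz_self {c : ℤ} (hc : c ≠ 0) : kz c 0 c = 1 := by
  have hc' : (c : ℂ) ≠ 0 := by exact_mod_cast hc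
  unfold kz; simp [hc']

lemma kz_neg (a b c : ℤ) : kz (-a) (-b) c = - kz a b c := by unfold kz; push_cast; ring

lemma kz_add (a b a' b' c : ℤ) : kz (a + a') (b + b') c = kz a b c + kz a' b' c := by
  unfold kz; push_cast; ring

lemma kz_sub (a b a' b' c : ℤ) : kz (a - a') (b - b') c = kz a b c - kz a' b' c := by
  unfold kz; push_cast; ring

/-- the three changes of variables with `d = ((a + b w)/c, 1)` -/
lemma g1_eq_lin {a b c : ℤ} (hc : c ≠ 0) :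
    g1 (kz a b c, 1) = lin ((0, 0, a - c, b), (-a, -b, -a, -b)) c := by
  funext v
  unfold g1 lin
  simp only
  rw [kz_zero, show kz (a - c) b c = kz a b c - 1 by
    rw [← kz_self hc, ← kz_sub]; simp, kz_neg]
  ext
  · simp only; ring
  · simp only; ring

lemma g2_eq_lin {a b c : ℤ} (hc : c ≠ 0) :
    g2 (kz a b c, 1) = lin ((c - a, -b, 0, 0), (-c, 0, -c, 0)) c := by
  funext v
  unfold g2 lin
  simp only
  rw [kz_zero, show kz (c - a) (-b) c = 1 - kz a b c by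
    rw [← kz_self hc, ← kz_sub]; simp, show kz (-c) 0 c = -1 by
    rw [← kz_self hc, ← kz_neg]; simp]
  ext
  · simp only; ring
  · simp only; ring

lemma g3_eq_lin {a b c : ℤ} (hc : c ≠ 0) :
    g3 (kz a b c, 1) = lin ((-a, -b, 0, 0), (0, 0, -c, 0)) c := by
  funext v
  unfold g3 lin
  simp only
  rw [kz_zero, kz_neg, show kz (-c) 0 c = -1 by
    rw [← kz_self hc, ← kz_neg]; simp]
  ext
  · simp only; ring
  · simp only; ring

/-- multiplication by a scalar -/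
lemma smul_eq_lin (a b c : ℤ) :
    (fun v : ℂ × ℂ => (kz a b c * v.1, kz a b c * v.2)) = lin ((a, b, 0, 0), (0, 0, a, b)) c := by
  funext v
  unfold lin
  simp only
  rw [kz_zero]
  ext
  · simp only; ring
  · simp only; ring

lemma kz_mem_KK (a b c : ℤ) : kz a b c ∈ KK := by
  by_cases hc : c = 0
  · subst hc; unfold kz; simpa using KK_zero
  · refine ⟨a, b, c, hc, ?_⟩
    have hc' : (c : ℂ) ≠ 0 := by exact_mod_cast hc
    unfold kz; field_simp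

/-- linear independence of `1, w` -/
lemma w15_lin_zero {a b : ℤ} (h : (a : ℂ) + (b : ℂ) * w15 = 0) : a = 0 ∧ b = 0 := by
  have h1 : ((3 * b : ℤ) : ℂ) * tau0 + ((a - b : ℤ) : ℂ) = 0 := by
    rw [w15_eq] at h; push_cast; linear_combination h
  have := tau0_lin_zero h1
  omega

lemma kz_ne_zero {a b c : ℤ} (hc : c ≠ 0) (h : a ≠ 0 ∨ b ≠ 0) : kz a b c ≠ 0 := by
  unfold kz
  have hc' : (c : ℂ) ≠ 0 := by exact_mod_cast hc
  intro h0
  rw [div_eq_zero_iff] at h0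
  rcases h0 with h0 | h0
  · have := w15_lin_zero h0; omega
  · exact hc' h0

/-- products -/
lemma kz_mul (a b c a' b' c' : ℤ) :
    kz a b c * kz a' b' c' = kz (a * a' - 4 * (b * b')) (a * b' + b * a' + b * b') (c * c') := by
  unfold kz
  have h1 := w15_sq
  rw [div_mul_div_comm]
  push_cast
  congr 1
  linear_combination (b * b' : ℂ) * h1

lemma conj_w15' : (starRingEnd ℂ) w15 = 1 - w15 := by
  unfold w15
  simp only [map_div₀, map_add, map_mul, map_one, Complex.conj_I, Complex.conj_ofReal]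
  rw [show (starRingEnd ℂ) (2 : ℂ) = 2 from Complex.conj_ofReal 2]
  ring

lemma kz_conj (a b c : ℤ) : (starRingEnd ℂ) (kz a b c) = kz (a + b) (-b) c := by
  unfold kz
  simp only [map_div₀, map_add, map_mul, map_intCast, conj_w15']
  push_cast
  congr 1
  ring

end Pool.Agent.Lib.BM.Cm
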