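import Pool.Agent.Lib.BM.CmNice
import Pool.Agent.Lib.BM.LDefs

set_option autoImplicit false

/-!
# BM.CmT: `T(y₀)` as a combination of the sums `SS` over product modules

`χ = 1 + 4 [2Λ] - 2 [n even] - 2 [m + n even]`, `u = [O]`, `O = ℤ w15 + ℤ = ℤ 3τ₀ + ℤ`.
-/

namespace Pool.Agent.Lib.BM.Cm

open Function

noncomputable section

/-- `2Λ` -/
def Lam2 : Set ℂ := {z | ∃ m n : ℤ, z = m * tau0 + n ∧ Even m ∧ Even n}

/-- the points `m τ₀ + n`, `n` even -/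
def LamA : Set ℂ := {z | ∃ m n : ℤ, z = m * tau0 + n ∧ Even n}

/-- the points `m τ₀ + n`, `m + n` even -/
def LamB : Set ℂ := {z | ∃ m n : ℤ, z = m * tau0 + n ∧ Even (m + n)}

/-- the pairs of lattice points -/
def lv (P : (ℤ × ℤ) × (ℤ × ℤ)) : ℂ × ℂ := (lam y0 P.1, lam y0 P.2)

/-- the four sums with the same condition `X` on `λ₁` -/
def blkT (X : Set ℂ) : ℂ :=
  1 / 2 * SS (X ×ˢ Lam0) (0, 1, -1) + 9 * SS ((X ∩ OO) ×ˢ OO) (0, 1, -1) -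
    3 / 2 * SS ((X ∩ OO) ×ˢ Lam0) (0, 1, -1) + 3 * SS (X ×ˢ OO) (0, 1, 1)

/-- `D_q` in terms of `Del` -/
lemma Dst_eq_Del (q : ℂ × ℂ × ℂ) (x y : ℂ) : Dst q (x, y) =
    q.1 * Del x⁻¹ y⁻¹ (-(x + y))⁻¹ + q.2.1 * Del y⁻¹ (-(x + y))⁻¹ x⁻¹ +
      q.2.2 * Del (-(x + y))⁻¹ x⁻¹ y⁻¹ := by
  by_cases hx : x = 0
  · simp [Dst, EE', Del, hx]
  by_cases hy : y = 0
  · simp [Dst, EE', Del, hy]
  by_cases hz : x + y = 0
  · simp [Dst, EE', Del, hz]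
  have hr : x⁻¹ * y⁻¹ + y⁻¹ * (-(x + y))⁻¹ + (-(x + y))⁻¹ * x⁻¹ = 0 := by
    have h1 : -(x + y) ≠ 0 := neg_ne_zero.2 hz
    rw [inv_neg]
    field_simp
    ring
  have hc := congrArg (starRingEnd ℂ) hr
  unfold Dst EE' Del
  simp only [map_add, map_mul, map_zero, map_inv₀, map_neg] at hc
  simp only [div_eq_mul_inv, mul_inv, ← inv_pow, map_mul, map_inv₀, map_neg, map_add]
  generalize (starRingEnd ℂ) x = x' at *
  generalize (starRingEnd ℂ) y = y' at *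
  generalize (-(x + y))⁻¹ = c at *
  generalize (-(x' + y'))⁻¹ = c' at *
  generalize x⁻¹ = a at *
  generalize y⁻¹ = b at *
  generalize x'⁻¹ = a' at *
  generalize y'⁻¹ = b' at *
  obtain ⟨q1, q2, q3⟩ := q
  simp only
  linear_combination (-(q1 * (-2 * a ^ 3 * b + a ^ 2 * b ^ 2)) - q3 * (2 * b * c ^ 3 - b ^ 2 * c ^ 2)) * hc +
    (-(q1 * (a' * b' * (2 * a ^ 2 + 2 * b * c - (a * b + b * c + c * a)))) +
      q3 * (b' * c' * (2 * c ^ 2 + 2 * a * b - (a * b + b * c + c * a)))) * hr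

lemma lamT_y0 (p : ℤ × ℤ) : lam y0 p = p.1 * tau0 + p.2 := by
  unfold lam tau0 y0
  push_cast
  ring

lemma tauT_im : tau0.im = y0 := by
  unfold tau0 y0
  simp

lemma tau0_inj {m n m' n' : ℤ} (h : (m : ℂ) * tau0 + n = m' * tau0 + n') : m = m' ∧ n = n' := by
  have h1 := congrArg Complex.im h
  simp only [Complex.add_im, Complex.mul_im, Complex.intCast_im, Complex.intCast_re, tauT_im,
    zero_mul, add_zero] at h1
  have hy : (y0 : ℝ) ≠ 0 := by unfold y0; positivity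
  have h2 : (m : ℝ) = m' := mul_right_cancel₀ hy h1
  have h3 : m = m' := by exact_mod_cast h2
  subst h3
  refine ⟨rfl, ?_⟩
  have h4 : (n : ℂ) = n' := add_left_cancel h
  exact_mod_cast h4

lemma lamT_inj : Injective (lam y0) := by
  rintro ⟨m, n⟩ ⟨m', n'⟩ h
  rw [lamT_y0, lamT_y0] at h
  obtain ⟨h1, h2⟩ := tau0_inj h
  simp only at h1 h2
  rw [h1, h2]

lemma lv_inj : Injective lv := by
  rintro ⟨p, p'⟩ ⟨r, r'⟩ h
  unfold lv at h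
  simp only [Prod.mk.injEq] at h
  rw [lamT_inj h.1, lamT_inj h.2]

lemma OO_sub_Lam0 : OO ⊆ Lam0 := by
  rintro z ⟨a, b, rfl⟩
  refine ⟨3 * b, a - b, ?_⟩
  rw [w15_eq]
  push_cast
  ring

lemma Lam2_sub : Lam2 ⊆ Lam0 := by rintro z ⟨m, n, h, -⟩; exact ⟨m, n, h⟩
lemma LamA_sub : LamA ⊆ Lam0 := by rintro z ⟨m, n, h, -⟩; exact ⟨m, n, h⟩
lemma LamB_sub : LamB ⊆ Lam0 := by rintro z ⟨m, n, h, -⟩; exact ⟨m, n, h⟩

lemma lam_mem_Lam0 (p : ℤ × ℤ) : lam y0 p ∈ Lam0 := ⟨p.1, p.2, lamT_y0 p⟩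

lemma lam_mem_Lam2 (p : ℤ × ℤ) : lam y0 p ∈ Lam2 ↔ Even p.1 ∧ Even p.2 := by
  rw [lamT_y0]
  constructor
  · rintro ⟨m, n, h, h1⟩
    obtain ⟨e1, e2⟩ := tau0_inj h
    rw [e1, e2]; exact h1
  · intro h; exact ⟨p.1, p.2, rfl, h⟩

lemma lam_mem_LamA (p : ℤ × ℤ) : lam y0 p ∈ LamA ↔ Even p.2 := by
  rw [lamT_y0]
  constructor
  · rintro ⟨m, n, h, h1⟩
    obtain ⟨e1, e2⟩ := tau0_inj h
    rw [e2]; exact h1
  · intro h; exact ⟨p.1, p.2, rfl, h⟩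

lemma lam_mem_LamB (p : ℤ × ℤ) : lam y0 p ∈ LamB ↔ Even (p.1 + p.2) := by
  rw [lamT_y0]
  constructor
  · rintro ⟨m, n, h, h1⟩
    obtain ⟨e1, e2⟩ := tau0_inj h
    rw [e1, e2]; exact h1
  · intro h; exact ⟨p.1, p.2, rfl, h⟩

lemma lam_mem_OO (p : ℤ × ℤ) : lam y0 p ∈ OO ↔ (3 : ℤ) ∣ p.1 := by
  rw [lamT_y0]
  constructor
  · rintro ⟨a, b, h⟩
    have h1 : (p.1 : ℂ) * tau0 + p.2 = ((3 * b : ℤ) : ℂ) * tau0 + ((a - b : ℤ) : ℂ) := by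
      rw [h, w15_eq]; push_cast; ring
    exact ⟨b, (tau0_inj h1).1⟩
  · rintro ⟨b, h⟩
    refine ⟨p.2 + b, b, ?_⟩
    rw [h, w15_eq]
    push_cast
    ring

lemma nice_of_sub {M : Set (ℂ × ℂ)} (hM : M ⊆ Lam0 ×ˢ Lam0) : Nice M :=
  ⟨1, one_ne_zero, fun v hv => by simpa using hM hv⟩

/-- the sum over a set of pairs of lattice points -/
lemma SS_hasSum (hF : StF3) {M : Set (ℂ × ℂ)} (hM : M ⊆ Lam0 ×ˢ Lam0) (q : ℂ × ℂ × ℂ) :
    HasSum (fun P => M.indicator (Dst q) (lv P)) (SS M q) := by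
  have h1 : HasSum (fun v : M => Dst q v) (SS M q) := (hF.1 M (nice_of_sub hM) q).hasSum
  have h2 : HasSum (M.indicator (Dst q)) (SS M q) := hasSum_subtype_iff_indicator.1 h1
  refine (lv_inj.hasSum_iff (f := M.indicator (Dst q)) ?_).2 h2
  intro v hv
  refine Set.indicator_of_notMem (fun hvM => hv ?_) _
  obtain ⟨⟨m, n, h⟩, m', n', h'⟩ := hM hvM
  refine ⟨((m, n), (m', n')), ?_⟩
  unfold lv
  rw [lamT_y0, lamT_y0]
  ext
  · simp only; rw [h]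
  · simp only; rw [h']

open Classical in
/-- indicator of a set of numbers -/
def idc (X : Set ℂ) (z : ℂ) : ℂ := if z ∈ X then 1 else 0

lemma indicator_prod (X Y : Set ℂ) (q : ℂ × ℂ × ℂ) (x y : ℂ) :
    (X ×ˢ Y).indicator (Dst q) (x, y) = idc X x * idc Y y * Dst q (x, y) := by
  unfold idc Set.indicator
  by_cases h1 : x ∈ X <;> by_cases h2 : y ∈ Y <;> simp [h1, h2]

lemma idc_inter (X Y : Set ℂ) (z : ℂ) : idc (X ∩ Y) z = idc X z * idc Y z := by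
  unfold idc
  by_cases h1 : z ∈ X <;> by_cases h2 : z ∈ Y <;> simp [h1, h2]

lemma idc_Lam0 (p : ℤ × ℤ) : idc Lam0 (lam y0 p) = 1 := by
  unfold idc; rw [if_pos (lam_mem_Lam0 p)]

lemma idc_OO (p : ℤ × ℤ) : idc OO (lam y0 p) = (uR p.1 : ℂ) := by
  unfold idc uR
  by_cases h : (3 : ℤ) ∣ p.1
  · rw [if_pos ((lam_mem_OO p).2 h), if_pos h]; simp
  · rw [if_neg (fun h' => h ((lam_mem_OO p).1 h')), if_neg h]; simp

/-- `χ` in terms of the four modules -/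
lemma chi_eq (p : ℤ × ℤ) : (chiR p.1 : ℂ) = idc Lam0 (lam y0 p) + 4 * idc Lam2 (lam y0 p) -
    2 * idc LamA (lam y0 p) - 2 * idc LamB (lam y0 p) := by
  rw [idc_Lam0]
  unfold idc chiR
  have e1 := lam_mem_Lam2 p
  have e2 := lam_mem_LamA p
  have e3 := lam_mem_LamB p
  rw [Int.even_add] at e3
  by_cases h1 : Even p.1 <;> by_cases h2 : Even p.2 <;>
    simp only [e1, e2, e3, h1, h2, if_true, if_false, and_true, and_false, iff_true,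
      iff_false, not_true] <;> norm_num

lemma hasSum_fun {ι : Type} {f g : ι → ℂ} {a : ℂ} (h : HasSum g a) (e : ∀ i, f i = g i) :
    HasSum f a := by
  rw [show f = g from funext e]; exact h

/-- the four sums with the same condition `X` on `λ₁` -/
lemma blkT_hasSum (hF : StF3) {X : Set ℂ} (hX : X ⊆ Lam0) :
    HasSum (fun P : (ℤ × ℤ) × (ℤ × ℤ) => idc X (lam y0 P.1) *
      ((1 / 2 + 9 * ((uR P.1.1 : ℂ) * (uR P.2.1 : ℂ)) - 3 / 2 * (uR P.1.1 : ℂ)) * Dst (0, 1, -1) (lv P) +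
        3 * (uR P.2.1 : ℂ) * Dst (0, 1, 1) (lv P))) (blkT X) := by
  have s1 : X ×ˢ Lam0 ⊆ Lam0 ×ˢ Lam0 := Set.prod_mono hX subset_rfl
  have s2 : (X ∩ OO) ×ˢ OO ⊆ Lam0 ×ˢ Lam0 := Set.prod_mono (Set.inter_subset_left.trans hX) OO_sub_Lam0
  have s3 : (X ∩ OO) ×ˢ Lam0 ⊆ Lam0 ×ˢ Lam0 := Set.prod_mono (Set.inter_subset_left.trans hX) subset_rfl
  have s4 : X ×ˢ OO ⊆ Lam0 ×ˢ Lam0 := Set.prod_mono hX OO_sub_Lam0
  have h1 := (SS_hasSum hF s1 (0, 1, -1)).mul_left (1 / 2)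
  have h2 := (SS_hasSum hF s2 (0, 1, -1)).mul_left 9
  have h3 := (SS_hasSum hF s3 (0, 1, -1)).mul_left (3 / 2)
  have h4 := (SS_hasSum hF s4 (0, 1, 1)).mul_left 3
  refine hasSum_fun (((h1.add h2).sub h3).add h4) fun P => ?_
  unfold lv
  rw [indicator_prod, indicator_prod, indicator_prod, indicator_prod, idc_inter, idc_Lam0, idc_OO,
    idc_OO]
  ring

lemma Tterm_eq (P : (ℤ × ℤ) × (ℤ × ℤ)) : Tterm y0 P = (chiR P.1.1 : ℂ) *
    ((1 / 2 + 9 * ((uR P.1.1 : ℂ) * (uR P.2.1 : ℂ)) - 3 / 2 * (uR P.1.1 : ℂ)) * Dst (0, 1, -1) (lv P) +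
        3 * (uR P.2.1 : ℂ) * Dst (0, 1, 1) (lv P)) := by
  have e3 : lam y0 (-P.1 - P.2) = -(lam y0 P.1 + lam y0 P.2) := by
    simp only [lam, Prod.fst_sub, Prod.snd_sub, Prod.fst_neg, Prod.snd_neg]
    push_cast
    ring
  unfold Tterm wA wB av lv
  rw [e3, Dst_eq_Del, Dst_eq_Del]
  push_cast
  ring

/-- `T(y₀)` as a combination of sums over product modules. -/
theorem TL_mod (hF : StF3) :
    TL y0 = blkT Lam0 + 4 * blkT Lam2 - 2 * blkT LamA - 2 * blkT LamB := by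
  have h := (((blkT_hasSum hF subset_rfl).add ((blkT_hasSum hF Lam2_sub).mul_left 4)).sub
    ((blkT_hasSum hF LamA_sub).mul_left 2)).sub ((blkT_hasSum hF LamB_sub).mul_left 2)
  refine HasSum.tsum_eq (hasSum_fun h fun P => ?_)
  rw [Tterm_eq, chi_eq]
  ring

end

end Pool.Agent.Lib.BM.Cm
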