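import Pool.Agent.Lib.BM.CmT
import Pool.Agent.Lib.BM.CmSym
import Pool.Agent.Lib.BM.CmMoves

set_option autoImplicit false

/-!
# BM.CmTG: the target `T(y₀)` in the format of integer matrices
-/

namespace Pool.Agent.Lib.BM.Cm

noncomputable section

/-- the sublattice of `(1/2) Λ` with basis `(a τ₀ + c)/2, d/2` -/
def L2 (a c d : ℤ) : Set ℂ :=
  {z | ∃ k l : ℤ, z = (((a * k : ℤ) : ℂ) * tau0 + ((c * k + d * l : ℤ) : ℂ)) / 2}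

/-- block diagonal matrices -/
def dG (a c d a' c' d' : ℤ) : M4 := ((a, 0, 0, 0), (c, d, 0, 0), (0, 0, a', 0), (0, 0, c', d'))

lemma Mset_dG (a c d a' c' d' : ℤ) : Mset (dG a c d a' c' d') = L2 a c d ×ˢ L2 a' c' d' := by
  ext v
  constructor
  · rintro ⟨k, rfl⟩
    refine ⟨⟨k.1, k.2.1, ?_⟩, ⟨k.2.2.1, k.2.2.2, ?_⟩⟩
    · unfold bt mv dot4 dG
      push_cast
      ring
    · unfold bt mv dot4 dG
      push_cast
      ring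
  · rintro ⟨⟨k, l, h⟩, ⟨k', l', h'⟩⟩
    refine ⟨(k, l, k', l'), ?_⟩
    ext
    · rw [h]; simp only [bt, mv, dot4, dG]; push_cast; ring
    · rw [h']; simp only [bt, mv, dot4, dG]; push_cast; ring

lemma Lam0_L2 : Lam0 = L2 2 0 2 := by
  ext z
  constructor
  · rintro ⟨m, n, rfl⟩; exact ⟨m, n, by push_cast; ring⟩
  · rintro ⟨k, l, rfl⟩; exact ⟨k, l, by push_cast; ring⟩

lemma OO_L2 : OO = L2 6 0 2 := by
  ext z
  constructor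
  · rintro ⟨a, b, rfl⟩; exact ⟨b, a - b, by rw [w15_eq]; push_cast; ring⟩
  · rintro ⟨k, l, rfl⟩; exact ⟨k + l, k, by rw [w15_eq]; push_cast; ring⟩

lemma Lam2_L2 : Lam2 = L2 4 0 4 := by
  ext z
  constructor
  · rintro ⟨m, n, rfl, ⟨a, ha⟩, ⟨b, hb⟩⟩
    exact ⟨a, b, by rw [ha, hb]; push_cast; ring⟩
  · rintro ⟨k, l, rfl⟩
    exact ⟨k + k, l + l, by push_cast; ring, ⟨k, rfl⟩, ⟨l, rfl⟩⟩

lemma LamA_L2 : LamA = L2 2 0 4 := by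
  ext z
  constructor
  · rintro ⟨m, n, rfl, ⟨b, hb⟩⟩
    exact ⟨m, b, by rw [hb]; push_cast; ring⟩
  · rintro ⟨k, l, rfl⟩
    exact ⟨k, l + l, by push_cast; ring, ⟨l, rfl⟩⟩

lemma LamB_L2 : LamB = L2 2 2 4 := by
  ext z
  constructor
  · rintro ⟨m, n, rfl, ⟨b, hb⟩⟩
    refine ⟨m, b - m, ?_⟩
    have : n = b + b - m := by omega
    rw [this]; push_cast; ring
  · rintro ⟨k, l, rfl⟩
    exact ⟨k, k + 2 * l, by push_cast; ring, ⟨k + l, by ring⟩⟩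


lemma mem_OO_iff (m n : ℤ) : ((m : ℂ) * tau0 + (n : ℂ)) ∈ OO ↔ (3 : ℤ) ∣ m := by
  have h := lam_mem_OO (m, n)
  rw [lamT_y0] at h
  exact h

lemma Lam0_OO : Lam0 ∩ OO = L2 6 0 2 := by
  rw [← OO_L2]
  exact Set.inter_eq_right.2 OO_sub_Lam0

lemma Lam2_OO : Lam2 ∩ OO = L2 12 0 4 := by
  ext z
  constructor
  · rintro ⟨⟨m, n, rfl, ⟨a, ha⟩, ⟨b, hb⟩⟩, h⟩
    rw [mem_OO_iff] at h
    obtain ⟨c, hc⟩ : (3 : ℤ) ∣ a := by omega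
    exact ⟨c, b, by rw [ha, hb, hc]; push_cast; ring⟩
  · rintro ⟨k, l, rfl⟩
    have e : (((12 * k : ℤ) : ℂ) * tau0 + ((0 * k + 4 * l : ℤ) : ℂ)) / 2 =
        ((6 * k : ℤ) : ℂ) * tau0 + ((2 * l : ℤ) : ℂ) := by push_cast; ring
    rw [e]
    exact ⟨⟨6 * k, 2 * l, rfl, ⟨3 * k, by ring⟩, ⟨l, by ring⟩⟩, (mem_OO_iff _ _).2 ⟨2 * k, by ring⟩⟩

lemma LamA_OO : LamA ∩ OO = L2 6 0 4 := by
  ext z
  constructor
  · rintro ⟨⟨m, n, rfl, ⟨b, hb⟩⟩, h⟩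
    rw [mem_OO_iff] at h
    obtain ⟨c, hc⟩ := h
    exact ⟨c, b, by rw [hb, hc]; push_cast; ring⟩
  · rintro ⟨k, l, rfl⟩
    have e : (((6 * k : ℤ) : ℂ) * tau0 + ((0 * k + 4 * l : ℤ) : ℂ)) / 2 =
        ((3 * k : ℤ) : ℂ) * tau0 + ((2 * l : ℤ) : ℂ) := by push_cast; ring
    rw [e]
    exact ⟨⟨3 * k, 2 * l, rfl, ⟨l, by ring⟩⟩, (mem_OO_iff _ _).2 ⟨k, by ring⟩⟩

lemma LamB_OO : LamB ∩ OO = L2 6 2 4 := by
  ext z
  constructor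
  · rintro ⟨⟨m, n, rfl, ⟨b, hb⟩⟩, h⟩
    rw [mem_OO_iff] at h
    obtain ⟨c, hc⟩ := h
    refine ⟨c, b - 2 * c, ?_⟩
    have : n = b + b - 3 * c := by omega
    rw [this, hc]; push_cast; ring
  · rintro ⟨k, l, rfl⟩
    have e : (((6 * k : ℤ) : ℂ) * tau0 + ((2 * k + 4 * l : ℤ) : ℂ)) / 2 =
        ((3 * k : ℤ) : ℂ) * tau0 + ((k + 2 * l : ℤ) : ℂ) := by push_cast; ring
    rw [e]
    exact ⟨⟨3 * k, k + 2 * l, rfl, ⟨2 * k + l, by ring⟩⟩, (mem_OO_iff _ _).2 ⟨k, by ring⟩⟩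

end

/-- the sixteen terms of the target, common denominator `2` -/
def Tlist : List (M4 × (ℤ × ℤ × ℤ × ℤ × ℤ × ℤ)) :=
  [(dG 2 0 2 2 0 2, (0, 0, 1, 0, -1, 0)), (dG 6 0 2 6 0 2, (0, 0, 18, 0, -18, 0)),
   (dG 6 0 2 2 0 2, (0, 0, -3, 0, 3, 0)), (dG 2 0 2 6 0 2, (0, 0, 6, 0, 6, 0)),
   (dG 4 0 4 2 0 2, (0, 0, 4, 0, -4, 0)), (dG 12 0 4 6 0 2, (0, 0, 72, 0, -72, 0)),
   (dG 12 0 4 2 0 2, (0, 0, -12, 0, 12, 0)), (dG 4 0 4 6 0 2, (0, 0, 24, 0, 24, 0)),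
   (dG 2 0 4 2 0 2, (0, 0, -2, 0, 2, 0)), (dG 6 0 4 6 0 2, (0, 0, -36, 0, 36, 0)),
   (dG 6 0 4 2 0 2, (0, 0, 6, 0, -6, 0)), (dG 2 0 4 6 0 2, (0, 0, -12, 0, -12, 0)),
   (dG 2 2 4 2 0 2, (0, 0, -2, 0, 2, 0)), (dG 6 2 4 6 0 2, (0, 0, -36, 0, 36, 0)),
   (dG 6 2 4 2 0 2, (0, 0, 6, 0, -6, 0)), (dG 2 2 4 6 0 2, (0, 0, -12, 0, -12, 0))]

lemma qz_smul (M : Set (ℂ × ℂ)) (c : ℂ) (q : ℂ × ℂ × ℂ) (z : ℤ × ℤ × ℤ × ℤ × ℤ × ℤ)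
    (h : qz 2 z = c • q) : SS M (qz 2 z) = c * SS M q := by
  rw [h, SS_smul_q]

/-- `T(y₀)` in the format of integer matrices -/
theorem TL_G (hF : StF3) : TL y0 = (Tlist.map fun x => SS (Mset x.1) (qz 2 x.2)).sum := by
  rw [TL_mod hF]
  have k0 : ∀ (M : Set (ℂ × ℂ)) (a b : ℤ) (c : ℂ), (a : ℂ) = 2 * c → b = -a →
      SS M (qz 2 (0, 0, a, 0, b, 0)) = c * SS M (0, 1, -1) := by
    intro M a b c h1 h2
    apply qz_smul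
    subst h2
    unfold qz kz
    simp only [Prod.smul_mk, smul_eq_mul]
    push_cast
    rw [h1]
    refine Prod.ext ?_ (Prod.ext ?_ ?_) <;> simp only <;> ring
  have k1 : ∀ (M : Set (ℂ × ℂ)) (a b : ℤ) (c : ℂ), (a : ℂ) = 2 * c → b = a →
      SS M (qz 2 (0, 0, a, 0, b, 0)) = c * SS M (0, 1, 1) := by
    intro M a b c h1 h2
    apply qz_smul
    subst h2
    unfold qz kz
    simp only [Prod.smul_mk, smul_eq_mul]
    push_cast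
    rw [h1]
    refine Prod.ext ?_ (Prod.ext ?_ ?_) <;> simp only <;> ring
  unfold Tlist
  simp only [List.map_cons, List.map_nil, List.sum_cons, List.sum_nil, Mset_dG, ← Lam0_L2, ← OO_L2,
    ← Lam2_L2, ← LamA_L2, ← LamB_L2, ← Lam2_OO, ← LamA_OO, ← LamB_OO]
  rw [k0 _ 1 (-1) (1 / 2) (by norm_num) (by norm_num), k0 _ 18 (-18) 9 (by norm_num) (by norm_num),
    k0 _ (-3) 3 (-3 / 2) (by norm_num) (by norm_num), k1 _ 6 6 3 (by norm_num) (by norm_num),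
    k0 _ 4 (-4) 2 (by norm_num) (by norm_num), k0 _ 72 (-72) 36 (by norm_num) (by norm_num),
    k0 _ (-12) 12 (-6) (by norm_num) (by norm_num), k1 _ 24 24 12 (by norm_num) (by norm_num),
    k0 _ (-2) 2 (-1) (by norm_num) (by norm_num), k0 _ (-36) 36 (-18) (by norm_num) (by norm_num),
    k0 _ 6 (-6) 3 (by norm_num) (by norm_num), k1 _ (-12) (-12) (-6) (by norm_num) (by norm_num),
    k0 _ (-2) 2 (-1) (by norm_num) (by norm_num), k0 _ (-36) 36 (-18) (by norm_num) (by norm_num),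
    k0 _ 6 (-6) 3 (by norm_num) (by norm_num), k1 _ (-12) (-12) (-6) (by norm_num) (by norm_num)]
  unfold blkT
  have e : Lam0 ∩ OO = OO := Set.inter_eq_right.2 OO_sub_Lam0
  rw [e]
  ring

end Pool.Agent.Lib.BM.Cm
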