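import Pool.Agent.Lib.BM.CmWdat
import Pool.Agent.Lib.BM.CmDataChk
import Pool.Agent.Lib.BM.CmTG

set_option autoImplicit false

/-!
# BM.CmWchk: the weights of the target and of the certificate agree
-/

namespace Pool.Agent.Lib.BM.Cm

set_option maxRecDepth 1000000 in
theorem ok_all : (LW ++ LT).all okS = true := by decide +kernel

set_option maxRecDepth 1000000 in
theorem chk_U : chk ((LW ++ LT).map cvU) rg4 = true := by decide +kernel

set_option maxRecDepth 1000000 in
theorem chk_V : chk ((LW ++ LT).map cvV) rg4 = true := by decide +kernel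

/-- minus the value of a term of the target -/
def ngZ (z : ZZ6) : ZZ6 :=
  (-112800 * z.1, -112800 * z.2.1, -112800 * z.2.2.1, -112800 * z.2.2.2.1, -112800 * z.2.2.2.2.1,
    -112800 * z.2.2.2.2.2)

set_option maxRecDepth 1000000 in
theorem LT_data : LT.map (fun s => (s.G, s.z)) = Tlist.map fun x => (x.1, ngZ x.2) := rfl

set_option maxRecDepth 1000000 in
theorem LW_data : LW.map (fun s => (s.G, s.z)) =
    (insts.flatMap fun D => [(D.G0, D.z0), (D.G1, D.z1), (D.G2, D.z2), (D.G3, D.z3)]) ++
      moves.flatMap fun D => [(D.G, D.z), (D.G', D.z')] := rfl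

/-- the sum `SS` of a list of pairs -/
noncomputable def SZ (L : List (M4 × ZZ6)) : ℂ := (L.map fun x => SS (Mset x.1) (qz 225600 x.2)).sum

lemma SZ_append (L L' : List (M4 × ZZ6)) : SZ (L ++ L') = SZ L + SZ L' := by
  unfold SZ; rw [List.map_append, List.sum_append]

lemma SZ_insts (L : List InstD) :
    SZ (L.flatMap fun D => [(D.G0, D.z0), (D.G1, D.z1), (D.G2, D.z2), (D.G3, D.z3)]) =
      (L.map (instSum CC)).sum := by
  induction L with
  | nil => rfl
  | cons D L ih =>
    rw [List.flatMap_cons, SZ_append, ih, List.map_cons, List.sum_cons]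
    congr 1
    unfold SZ instSum CC
    simp only [List.map_cons, List.map_nil, List.sum_cons, List.sum_nil]
    ring

lemma SZ_moves (L : List MoveD) :
    SZ (L.flatMap fun D => [(D.G, D.z), (D.G', D.z')]) = (L.map (moveSum CC)).sum := by
  induction L with
  | nil => rfl
  | cons D L ih =>
    rw [List.flatMap_cons, SZ_append, ih, List.map_cons, List.sum_cons]
    congr 1
    unfold SZ moveSum CC
    simp only [List.map_cons, List.map_nil, List.sum_cons, List.sum_nil]
    ring

lemma qz_ngZ (z : ZZ6) : qz 225600 (ngZ z) = (-1 : ℂ) • qz 2 z := by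
  unfold qz ngZ kz
  simp only [Prod.smul_mk, smul_eq_mul]
  push_cast
  refine Prod.ext ?_ (Prod.ext ?_ ?_) <;> simp only <;> ring

lemma SZ_target (L : List (M4 × ZZ6)) :
    SZ (L.map fun x => (x.1, ngZ x.2)) = -(L.map fun x => SS (Mset x.1) (qz 2 x.2)).sum := by
  induction L with
  | nil => simp [SZ]
  | cons x L ih =>
    have e : SZ ((x :: L).map fun x => (x.1, ngZ x.2)) =
        SS (Mset x.1) (qz 225600 (ngZ x.2)) + SZ (L.map fun x => (x.1, ngZ x.2)) := by
      unfold SZ; rw [List.map_cons, List.map_cons, List.sum_cons]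
    rw [e, ih, List.map_cons, List.sum_cons, qz_ngZ, SS_smul_q]
    ring

/-- the weights of the target and of the certificate agree -/
theorem cm_weights (hF : StF3) : (Tlist.map fun x => SS (Mset x.1) (qz 2 x.2)).sum =
    (insts.map (instSum CC)).sum + (moves.map (moveSum CC)).sum := by
  have h := SS_check hF 225600 (LW ++ LT) ok_all chk_U chk_V
  have e : ((LW ++ LT).map fun s => SS (Mset s.G) (qz 225600 s.z)).sum =
      SZ (LW.map fun s => (s.G, s.z)) + SZ (LT.map fun s => (s.G, s.z)) := by
    rw [List.map_append, List.sum_append]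
    unfold SZ
    rw [List.map_map, List.map_map]
    rfl
  rw [e, LW_data, LT_data, SZ_append, SZ_insts, SZ_moves, SZ_target] at h
  linear_combination -h

end Pool.Agent.Lib.BM.Cm
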