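import Pool.Agent.Lib.BM.CmSym
import Pool.Agent.Lib.BM.CmMoves

set_option autoImplicit false

/-!
# BM.CmWt: relations between weights, with a decidable check

A symbol is a module with a value `q`. If the sum of the values (or its alternating sum over the six
permutations of the variables `x, y, -(x + y)`) vanishes at every point, then so does the sum of the
sums `SS`.
-/

namespace Pool.Agent.Lib.BM.Cm

open Classical in
/-- the value at `v` of the weight of a list of pairs (set, `q`) -/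
noncomputable def Fl (L : List (Set (ℂ × ℂ) × (ℂ × ℂ × ℂ))) (v : ℂ × ℂ) : ℂ × ℂ × ℂ :=
  (L.map fun s => if v ∈ s.1 then s.2 else 0).sum

/-- the sum of the sums `SS` -/
noncomputable def SL (L : List (Set (ℂ × ℂ) × (ℂ × ℂ × ℂ))) : ℂ := (L.map fun s => SS s.1 s.2).sum

theorem hasSum_SL (hF : StF3) (L : List (Set (ℂ × ℂ) × (ℂ × ℂ × ℂ))) (hL : ∀ s ∈ L, Nice s.1) :
    HasSum (fun v => Dst (Fl L v) v) (SL L) := by
  classical
  induction L with
  | nil =>
    unfold Fl SL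
    simp only [List.map_nil, List.sum_nil, Dst_zero_q]
    exact hasSum_zero
  | cons s L ih =>
    have ih' := ih fun r hr => hL r (List.mem_cons_of_mem s hr)
    have h1 := (hF.1 s.1 (hL s List.mem_cons_self) s.2).hasSum
    have h2 := (hasSum_subtype_iff_indicator (f := Dst s.2)).1 h1
    have h3 := h2.add ih'
    have e1 : SL (s :: L) = SS s.1 s.2 + SL L := by
      unfold SL; rw [List.map_cons, List.sum_cons]
    rw [e1]
    refine h3.congr_fun fun v => ?_
    have e2 : Fl (s :: L) v = (if v ∈ s.1 then s.2 else 0) + Fl L v := by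
      unfold Fl; rw [List.map_cons, List.sum_cons]
    rw [e2, Dst_add]
    by_cases hv : v ∈ s.1
    · rw [Set.indicator_of_mem hv, if_pos hv]
    · rw [Set.indicator_of_notMem hv, if_neg hv, Dst_zero_q]

/-- relations between weights -/
theorem SL_zero (hF : StF3) (L : List (Set (ℂ × ℂ) × (ℂ × ℂ × ℂ))) (hL : ∀ s ∈ L, Nice s.1)
    (h : ∀ v, Fl L v = 0) : SL L = 0 := by
  have h1 := hasSum_SL hF L hL
  have h2 : (fun v => Dst (Fl L v) v) = fun _ => 0 := by
    funext v; rw [h v, Dst_zero_q]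
  rw [h2] at h1
  exact h1.unique hasSum_zero

/-- the cyclic rotation `(x, y) ↦ (z, x)`, `z = -(x + y)` -/
def ecyc : ℂ × ℂ ≃ ℂ × ℂ where
  toFun v := (-(v.1 + v.2), v.1)
  invFun v := (v.2, -(v.1 + v.2))
  left_inv v := by ext <;> simp
  right_inv v := by ext <;> simp

/-- the swap -/
def eswp : ℂ × ℂ ≃ ℂ × ℂ := Equiv.prodComm ℂ ℂ

/-- the alternating sum of a function with values `q` -/
def altF {X K : Type*} [AddCommGroup K] (cy sw : X → X) (F : X → K × K × K) (v : X) : K × K × K :=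
  let a := F v
  let b := F (cy v)
  let c := F (cy (cy v))
  let a' := F (sw v)
  let b' := F (sw (cy v))
  let c' := F (sw (cy (cy v)))
  (a.1 + b.2.1 + c.2.2 - a'.2.1 - b'.1 - c'.2.2,
    a.2.1 + b.2.2 + c.1 - a'.1 - b'.2.2 - c'.2.1,
    a.2.2 + b.1 + c.2.1 - a'.2.2 - b'.2.1 - c'.1)

theorem Dst_ecyc (q : ℂ × ℂ × ℂ) (v : ℂ × ℂ) : Dst q (ecyc v) = Dst (q.2.1, q.2.2, q.1) v := by
  have h := Dst_cycle q.1 q.2.1 q.2.2 (-(v.1 + v.2)) v.1
  have e : -(-(v.1 + v.2) + v.1) = v.2 := by ring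
  rw [e] at h
  exact h.symm

theorem Dst_eswp (q : ℂ × ℂ × ℂ) (v : ℂ × ℂ) : Dst q (eswp v) = - Dst (q.2.1, q.1, q.2.2) v := by
  have h := Dst_swap q.1 q.2.1 q.2.2 v.2 v.1
  rw [h, neg_neg]
  rfl

/-- the six values together -/
theorem Dst_altF (F : ℂ × ℂ → ℂ × ℂ × ℂ) (v : ℂ × ℂ) :
    Dst (F v) v + Dst (F (ecyc v)) (ecyc v) + Dst (F (ecyc (ecyc v))) (ecyc (ecyc v)) +
      Dst (F (eswp v)) (eswp v) + Dst (F (eswp (ecyc v))) (eswp (ecyc v)) +
      Dst (F (eswp (ecyc (ecyc v)))) (eswp (ecyc (ecyc v))) = Dst (altF ecyc eswp F v) v := by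
  simp only [Dst_eswp, Dst_ecyc]
  unfold Dst EE' altF
  simp only
  ring

/-- relations between weights, alternating over the permutations of `x, y, -(x + y)` -/
theorem SL_alt_zero (hF : StF3) (L : List (Set (ℂ × ℂ) × (ℂ × ℂ × ℂ))) (hL : ∀ s ∈ L, Nice s.1)
    (h : ∀ v, altF ecyc eswp (Fl L) v = 0) : SL L = 0 := by
  have h0 := hasSum_SL hF L hL
  have hc : ∀ {f : ℂ × ℂ → ℂ}, HasSum f (SL L) → HasSum (fun v => f (ecyc v)) (SL L) :=
    fun hf => (ecyc.hasSum_iff).2 hf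
  have hs : ∀ {f : ℂ × ℂ → ℂ}, HasSum f (SL L) → HasSum (fun v => f (eswp v)) (SL L) :=
    fun hf => (eswp.hasSum_iff).2 hf
  have h1 := hc h0
  have h2 := hc h1
  have h3 := hs h0
  have h4 := hc (hs h0)
  have h5 := hc (hc (hs h0))
  have h6 := ((((h0.add h1).add h2).add h3).add h4).add h5
  have e : ∀ v : ℂ × ℂ, Dst (Fl L v) v + Dst (Fl L (ecyc v)) (ecyc v) +
      Dst (Fl L (ecyc (ecyc v))) (ecyc (ecyc v)) +
      Dst (Fl L (eswp v)) (eswp v) + Dst (Fl L (eswp (ecyc v))) (eswp (ecyc v)) +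
      Dst (Fl L (eswp (ecyc (ecyc v)))) (eswp (ecyc (ecyc v))) = 0 := by
    intro v
    rw [Dst_altF, h v, Dst_zero_q]
  have h7 := h6.congr_fun (fun v => (e v).symm)
  have h8 := h7.unique hasSum_zero
  have h9 : (6 : ℂ) * SL L = 0 := by linear_combination h8
  exact (mul_eq_zero.1 h9).resolve_left (by norm_num)

end Pool.Agent.Lib.BM.Cm
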