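import Pool.Agent.Lib.BM.CmWt

set_option autoImplicit false

/-!
# BM.CmWtZ: the decidable check of a relation between weights

A symbol is a module `Mset G` with `A G = G A = d₄ d₃`, `d₄ ∣ 4`, `d₃ ∣ 3`, two bit masks that describe
the module modulo 4 (256 classes, index `ix`) and modulo 3 (9 classes of the coordinates 1 and 3,
index `jx`), and six integers `z` (the value `qz c z`).
-/

namespace Pool.Agent.Lib.BM.Cm

abbrev ZZ6 := ℤ × ℤ × ℤ × ℤ × ℤ × ℤ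

/-- a symbol -/
structure WS where
  G : M4
  A : M4
  d4 : ℕ
  d3 : ℕ
  m2 : ℕ
  m3 : ℕ
  z : ZZ6

/-- the data of the numerical check -/
abbrev NS := ℕ × ℕ × ℕ × ℕ × ℕ × ℕ × ℕ × ℕ

/-- 1 if the class lies in the module, 0 otherwise -/
def hN (m2 m3 i j : ℕ) : ℕ :=
  Nat.mul (Nat.land 1 (Nat.shiftRight m2 i)) (Nat.land 1 (Nat.shiftRight m3 j))

/-- index of a class modulo 4 -/
def ix (a b c d : ℕ) : ℕ :=
  Nat.add (Nat.mul (Nat.add (Nat.mul (Nat.add (Nat.mul a 4) b) 4) c) 4) d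

/-- index of a class modulo 3 -/
def jx (a c : ℕ) : ℕ := Nat.add (Nat.mul a 3) c

def o4 (a b : ℕ) : ℕ := Nat.mod (Nat.sub 8 (Nat.add a b)) 4
def o3 (a b : ℕ) : ℕ := Nat.mod (Nat.sub 6 (Nat.add a b)) 3

def r4 (x : ℤ) : ℕ := (x % 4).toNat
def r3 (x : ℤ) : ℕ := (x % 3).toNat
def r12 (x : ℤ) : ℕ := (x % 12).toNat

def ixZ (n : Z4) : ℕ := ix (r4 n.1) (r4 n.2.1) (r4 n.2.2.1) (r4 n.2.2.2)
def jxZ (n : Z4) : ℕ := jx (r3 n.1) (r3 n.2.2.1)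

/-- the permutations in integer coordinates -/
def cyZ (n : Z4) : Z4 := (-(n.1 + n.2.2.1), -(n.2.1 + n.2.2.2), n.1, n.2.1)
def swZ (n : Z4) : Z4 := (n.2.2.1, n.2.2.2, n.1, n.2.1)

/-- left side of the first component of the alternating sum -/
def Ls (i0 j0 i1 j1 i2 j2 i3 j3 i4 j4 i5 j5 : ℕ) (L : List NS) : ℕ :=
  List.rec 0 (fun s _ r =>
    Nat.add (Nat.mul (hN s.1 s.2.1 i0 j0) s.2.2.1)
    (Nat.add (Nat.mul (hN s.1 s.2.1 i1 j1) s.2.2.2.2.1)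
    (Nat.add (Nat.mul (hN s.1 s.2.1 i2 j2) s.2.2.2.2.2.2.1)
    (Nat.add (Nat.mul (hN s.1 s.2.1 i3 j3) s.2.2.2.2.2.1)
    (Nat.add (Nat.mul (hN s.1 s.2.1 i4 j4) s.2.2.2.1)
    (Nat.add (Nat.mul (hN s.1 s.2.1 i5 j5) s.2.2.2.2.2.2.2) r)))))) L

/-- right side -/
def Rs (i0 j0 i1 j1 i2 j2 i3 j3 i4 j4 i5 j5 : ℕ) (L : List NS) : ℕ :=
  List.rec 0 (fun s _ r =>
    Nat.add (Nat.mul (hN s.1 s.2.1 i0 j0) s.2.2.2.1)
    (Nat.add (Nat.mul (hN s.1 s.2.1 i1 j1) s.2.2.2.2.2.1)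
    (Nat.add (Nat.mul (hN s.1 s.2.1 i2 j2) s.2.2.2.2.2.2.2)
    (Nat.add (Nat.mul (hN s.1 s.2.1 i3 j3) s.2.2.2.2.1)
    (Nat.add (Nat.mul (hN s.1 s.2.1 i4 j4) s.2.2.1)
    (Nat.add (Nat.mul (hN s.1 s.2.1 i5 j5) s.2.2.2.2.2.2.1) r)))))) L

def rg4 : List ℕ := [0, 1, 2, 3]
def rg3 : List ℕ := [0, 1, 2]

/-- the test at one class -/
def tst (L : List NS) (a b c d e f : ℕ) : Bool :=
  Nat.beq
    (Ls (ix a b c d) (jx e f) (ix (o4 a c) (o4 b d) a b) (jx (o3 e f) e)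
      (ix c d (o4 a c) (o4 b d)) (jx f (o3 e f)) (ix c d a b) (jx f e)
      (ix a b (o4 a c) (o4 b d)) (jx e (o3 e f)) (ix (o4 a c) (o4 b d) c d) (jx (o3 e f) f) L)
    (Rs (ix a b c d) (jx e f) (ix (o4 a c) (o4 b d) a b) (jx (o3 e f) e)
      (ix c d (o4 a c) (o4 b d)) (jx f (o3 e f)) (ix c d a b) (jx f e)
      (ix a b (o4 a c) (o4 b d)) (jx e (o3 e f)) (ix (o4 a c) (o4 b d) c d) (jx (o3 e f) f) L)

/-- the test at all classes with first coordinate in `R` -/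
def chk (L : List NS) (R : List ℕ) : Bool :=
  R.all fun a => rg4.all fun b => rg4.all fun c => rg4.all fun d => rg3.all fun e =>
    rg3.all fun f => tst L a b c d e f

/-- the data of a symbol for three integers -/
def cv (m2 m3 : ℕ) (x y w : ℤ) : NS :=
  (m2, m3, x.toNat, (-x).toNat, y.toNat, (-y).toNat, w.toNat, (-w).toNat)

/-- the two coordinates -/
def cvU (s : WS) : NS := cv s.m2 s.m3 s.z.1 s.z.2.2.1 s.z.2.2.2.2.1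
def cvV (s : WS) : NS := cv s.m2 s.m3 s.z.2.1 s.z.2.2.2.1 s.z.2.2.2.2.2

/-- a row modulo `d` -/
def rowN (r : Z4) (d a b c e : ℕ) : Bool :=
  Nat.beq (Nat.mod (Nat.add (Nat.mul (r12 r.1) a) (Nat.add (Nat.mul (r12 r.2.1) b)
    (Nat.add (Nat.mul (r12 r.2.2.1) c) (Nat.mul (r12 r.2.2.2) e)))) d) 0

/-- membership through the matrix `A` -/
def dvN (A : M4) (d a b c e : ℕ) : Bool :=
  rowN A.1 d a b c e && (rowN A.2.1 d a b c e && (rowN A.2.2.1 d a b c e && rowN A.2.2.2 d a b c e))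

/-- the masks are right -/
def msk (s : WS) : Bool :=
  (rg4.all fun a => rg4.all fun b => rg4.all fun c => rg4.all fun e =>
    (dvN s.A s.d4 a b c e == Nat.beq (Nat.land 1 (Nat.shiftRight s.m2 (ix a b c e))) 1)) &&
  (rg3.all fun a => rg3.all fun b => rg3.all fun c => rg3.all fun e =>
    (dvN s.A s.d3 a b c e == Nat.beq (Nat.land 1 (Nat.shiftRight s.m3 (jx a c))) 1))

/-- the symbol is right -/
def okS (s : WS) : Bool :=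
  decide (mm s.A s.G = sm (s.d4 * s.d3) id4) && (decide (mm s.G s.A = sm (s.d4 * s.d3) id4) &&
    ((Nat.beq s.d4 1 || (Nat.beq s.d4 2 || Nat.beq s.d4 4)) &&
      ((Nat.beq s.d3 1 || Nat.beq s.d3 3) && msk s)))

/-! ### soundness -/

lemma r4_lt (x : ℤ) : r4 x < 4 := by unfold r4; omega
lemma r3_lt (x : ℤ) : r3 x < 3 := by unfold r3; omega
lemma r12_lt (x : ℤ) : r12 x < 12 := by unfold r12; omega
lemma mem_rg4 {a : ℕ} (h : a < 4) : a ∈ rg4 := by unfold rg4; interval_cases a <;> simp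
lemma mem_rg3 {a : ℕ} (h : a < 3) : a ∈ rg3 := by unfold rg3; interval_cases a <;> simp

lemma o4_eq (a b : ℤ) : r4 (-(a + b)) = o4 (r4 a) (r4 b) := by
  change (-(a + b) % 4).toNat = (8 - ((a % 4).toNat + (b % 4).toNat)) % 4
  omega

lemma o3_eq (a b : ℤ) : r3 (-(a + b)) = o3 (r3 a) (r3 b) := by
  change (-(a + b) % 3).toNat = (6 - ((a % 3).toNat + (b % 3).toNat)) % 3
  omega

lemma bit_eq (m i : ℕ) : Nat.land 1 (Nat.shiftRight m i) = (m >>> i) % 2 := Nat.one_and_eq_mod_two _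

lemma nbeq {a b : ℕ} : Nat.beq a b = true ↔ a = b :=
  ⟨Nat.eq_of_beq_eq_true, fun h => by subst h; exact Nat.beq_refl a⟩

lemma hN_eq_one (m2 m3 i j : ℕ) : hN m2 m3 i j = 1 ↔
    Nat.land 1 (Nat.shiftRight m2 i) = 1 ∧ Nat.land 1 (Nat.shiftRight m3 j) = 1 := by
  unfold hN
  rw [bit_eq, bit_eq]
  rcases Nat.mod_two_eq_zero_or_one (m2 >>> i) with h | h <;>
    rcases Nat.mod_two_eq_zero_or_one (m3 >>> j) with h' | h' <;> rw [h, h'] <;> simp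

lemma hN_zero_or (m2 m3 i j : ℕ) : hN m2 m3 i j = 0 ∨ hN m2 m3 i j = 1 := by
  unfold hN
  rw [bit_eq, bit_eq]
  rcases Nat.mod_two_eq_zero_or_one (m2 >>> i) with h | h <;>
    rcases Nat.mod_two_eq_zero_or_one (m3 >>> j) with h' | h' <;> rw [h, h'] <;> simp

lemma mul_mod4 (x y : ℤ) : (4 : ℤ) ∣ x * y - (r12 x : ℤ) * (r4 y : ℤ) := by
  obtain ⟨k, hk⟩ : ∃ k : ℤ, x = (r12 x : ℤ) + 12 * k := ⟨x / 12, by unfold r12; omega⟩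
  obtain ⟨l, hl⟩ : ∃ l : ℤ, y = (r4 y : ℤ) + 4 * l := ⟨y / 4, by unfold r4; omega⟩
  refine ⟨(r12 x : ℤ) * l + 3 * k * y, ?_⟩
  generalize (r12 x : ℤ) = a at *
  generalize (r4 y : ℤ) = b at *
  subst hk
  subst hl
  ring

lemma mul_mod3 (x y : ℤ) : (3 : ℤ) ∣ x * y - (r12 x : ℤ) * (r3 y : ℤ) := by
  obtain ⟨k, hk⟩ : ∃ k : ℤ, x = (r12 x : ℤ) + 12 * k := ⟨x / 12, by unfold r12; omega⟩
  obtain ⟨l, hl⟩ : ∃ l : ℤ, y = (r3 y : ℤ) + 3 * l := ⟨y / 3, by unfold r3; omega⟩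
  refine ⟨(r12 x : ℤ) * l + 4 * k * y, ?_⟩
  generalize (r12 x : ℤ) = a at *
  generalize (r3 y : ℤ) = b at *
  subst hk
  subst hl
  ring

lemma rowN_iff (r : Z4) (d a b c e : ℕ) : rowN r d a b c e = true ↔
    (d : ℤ) ∣ (r12 r.1 : ℤ) * a + (r12 r.2.1 : ℤ) * b + (r12 r.2.2.1 : ℤ) * c +
      (r12 r.2.2.2 : ℤ) * e := by
  unfold rowN
  rw [nbeq]
  change (r12 r.1 * a + (r12 r.2.1 * b + (r12 r.2.2.1 * c + r12 r.2.2.2 * e))) % d = 0 ↔ _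
  rw [← Nat.dvd_iff_mod_eq_zero, ← Int.natCast_dvd_natCast]
  push_cast
  rw [show ((r12 r.1 : ℤ) * a + ((r12 r.2.1 : ℤ) * b + ((r12 r.2.2.1 : ℤ) * c +
    (r12 r.2.2.2 : ℤ) * e))) = (r12 r.1 : ℤ) * a + (r12 r.2.1 : ℤ) * b + (r12 r.2.2.1 : ℤ) * c +
      (r12 r.2.2.2 : ℤ) * e by ring]

lemma row_mod4 {d : ℕ} (hd : (d : ℤ) ∣ 4) (r n : Z4) : (d : ℤ) ∣ dot4 r n ↔
    rowN r d (r4 n.1) (r4 n.2.1) (r4 n.2.2.1) (r4 n.2.2.2) = true := by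
  rw [rowN_iff]
  have h1 := hd.trans (mul_mod4 r.1 n.1)
  have h2 := hd.trans (mul_mod4 r.2.1 n.2.1)
  have h3 := hd.trans (mul_mod4 r.2.2.1 n.2.2.1)
  have h4 := hd.trans (mul_mod4 r.2.2.2 n.2.2.2)
  have h5 := dvd_add (dvd_add (dvd_add h1 h2) h3) h4
  have e : dot4 r n = (r.1 * n.1 - (r12 r.1 : ℤ) * (r4 n.1 : ℤ) +
      (r.2.1 * n.2.1 - (r12 r.2.1 : ℤ) * (r4 n.2.1 : ℤ)) +
      (r.2.2.1 * n.2.2.1 - (r12 r.2.2.1 : ℤ) * (r4 n.2.2.1 : ℤ)) +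
      (r.2.2.2 * n.2.2.2 - (r12 r.2.2.2 : ℤ) * (r4 n.2.2.2 : ℤ))) +
      ((r12 r.1 : ℤ) * (r4 n.1 : ℤ) + (r12 r.2.1 : ℤ) * (r4 n.2.1 : ℤ) +
      (r12 r.2.2.1 : ℤ) * (r4 n.2.2.1 : ℤ) + (r12 r.2.2.2 : ℤ) * (r4 n.2.2.2 : ℤ)) := by
    unfold dot4; ring
  rw [e]
  exact (Int.dvd_add_right h5)

lemma row_mod3 {d : ℕ} (hd : (d : ℤ) ∣ 3) (r n : Z4) : (d : ℤ) ∣ dot4 r n ↔
    rowN r d (r3 n.1) (r3 n.2.1) (r3 n.2.2.1) (r3 n.2.2.2) = true := by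
  rw [rowN_iff]
  have h1 := hd.trans (mul_mod3 r.1 n.1)
  have h2 := hd.trans (mul_mod3 r.2.1 n.2.1)
  have h3 := hd.trans (mul_mod3 r.2.2.1 n.2.2.1)
  have h4 := hd.trans (mul_mod3 r.2.2.2 n.2.2.2)
  have h5 := dvd_add (dvd_add (dvd_add h1 h2) h3) h4
  have e : dot4 r n = (r.1 * n.1 - (r12 r.1 : ℤ) * (r3 n.1 : ℤ) +
      (r.2.1 * n.2.1 - (r12 r.2.1 : ℤ) * (r3 n.2.1 : ℤ)) +
      (r.2.2.1 * n.2.2.1 - (r12 r.2.2.1 : ℤ) * (r3 n.2.2.1 : ℤ)) +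
      (r.2.2.2 * n.2.2.2 - (r12 r.2.2.2 : ℤ) * (r3 n.2.2.2 : ℤ))) +
      ((r12 r.1 : ℤ) * (r3 n.1 : ℤ) + (r12 r.2.1 : ℤ) * (r3 n.2.1 : ℤ) +
      (r12 r.2.2.1 : ℤ) * (r3 n.2.2.1 : ℤ) + (r12 r.2.2.2 : ℤ) * (r3 n.2.2.2 : ℤ)) := by
    unfold dot4; ring
  rw [e]
  exact (Int.dvd_add_right h5)

lemma dvN_iff4 {d : ℕ} (hd : (d : ℤ) ∣ 4) (A : M4) (n : Z4) :
    dvN A d (r4 n.1) (r4 n.2.1) (r4 n.2.2.1) (r4 n.2.2.2) = true ↔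
    (d : ℤ) ∣ (mv A n).1 ∧ (d : ℤ) ∣ (mv A n).2.1 ∧ (d : ℤ) ∣ (mv A n).2.2.1 ∧
      (d : ℤ) ∣ (mv A n).2.2.2 := by
  unfold dvN mv
  simp only [Bool.and_eq_true, row_mod4 hd]

lemma dvN_iff3 {d : ℕ} (hd : (d : ℤ) ∣ 3) (A : M4) (n : Z4) :
    dvN A d (r3 n.1) (r3 n.2.1) (r3 n.2.2.1) (r3 n.2.2.2) = true ↔
    (d : ℤ) ∣ (mv A n).1 ∧ (d : ℤ) ∣ (mv A n).2.1 ∧ (d : ℤ) ∣ (mv A n).2.2.1 ∧
      (d : ℤ) ∣ (mv A n).2.2.2 := by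
  unfold dvN mv
  simp only [Bool.and_eq_true, row_mod3 hd]

lemma dvd_split {d4 d3 : ℕ} (h4 : d4 = 1 ∨ d4 = 2 ∨ d4 = 4) (h3 : d3 = 1 ∨ d3 = 3) (x : ℤ) :
    ((d4 : ℤ) * (d3 : ℤ)) ∣ x ↔ (d4 : ℤ) ∣ x ∧ (d3 : ℤ) ∣ x := by
  rcases h4 with rfl | rfl | rfl <;> rcases h3 with rfl | rfl <;> push_cast <;> omega

/-- membership in a module through the masks -/
theorem mem_okS {s : WS} (h : okS s = true) (n : Z4) :
    bt n ∈ Mset s.G ↔ hN s.m2 s.m3 (ixZ n) (jxZ n) = 1 := by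
  unfold okS at h
  simp only [Bool.and_eq_true, decide_eq_true_eq, Bool.or_eq_true, nbeq] at h
  obtain ⟨h1, h2, h4, h3, hm⟩ := h
  unfold msk at hm
  simp only [Bool.and_eq_true, List.all_eq_true, beq_iff_eq] at hm
  obtain ⟨hm4, hm3⟩ := hm
  have hd : ((s.d4 : ℤ) * (s.d3 : ℤ)) ≠ 0 := by
    rcases h4 with h | h | h <;> rcases h3 with h' | h' <;> rw [h, h'] <;> norm_num
  have hd4 : (s.d4 : ℤ) ∣ 4 := by
    rcases h4 with h | h | h <;> rw [h] <;> norm_num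
  have hd3 : (s.d3 : ℤ) ∣ 3 := by
    rcases h3 with h | h <;> rw [h] <;> norm_num
  rw [mem_Mset' hd h1 h2 n, hN_eq_one]
  simp only [dvd_split h4 h3]
  have e4 := hm4 _ (mem_rg4 (r4_lt n.1)) _ (mem_rg4 (r4_lt n.2.1)) _ (mem_rg4 (r4_lt n.2.2.1)) _
    (mem_rg4 (r4_lt n.2.2.2))
  have e3 := hm3 _ (mem_rg3 (r3_lt n.1)) _ (mem_rg3 (r3_lt n.2.1)) _ (mem_rg3 (r3_lt n.2.2.1)) _
    (mem_rg3 (r3_lt n.2.2.2))
  have i4 := dvN_iff4 hd4 s.A n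
  have i3 := dvN_iff3 hd3 s.A n
  rw [e4, nbeq] at i4
  rw [e3, nbeq] at i3
  unfold ixZ jxZ
  rw [i4, i3]
  tauto

/-! ### weights -/

/-- the integer weight -/
def WZ (p : ZZ6 → ℤ) (L : List WS) (n : Z4) : ℤ :=
  (L.map fun s => (hN s.m2 s.m3 (ixZ n) (jxZ n) : ℤ) * p s.z).sum

/-- the list of pairs (module, value) -/
noncomputable def symL (c : ℤ) (L : List WS) : List (Set (ℂ × ℂ) × (ℂ × ℂ × ℂ)) :=
  L.map fun s => (Mset s.G, qz c s.z)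

lemma WZ_cons (p : ZZ6 → ℤ) (s : WS) (L : List WS) (n : Z4) :
    WZ p (s :: L) n = (hN s.m2 s.m3 (ixZ n) (jxZ n) : ℤ) * p s.z + WZ p L n := by
  unfold WZ; rw [List.map_cons, List.sum_cons]

lemma WZ_nil (p : ZZ6 → ℤ) (n : Z4) : WZ p [] n = 0 := rfl

def z1 (z : ZZ6) : ℤ := z.1
def z2 (z : ZZ6) : ℤ := z.2.1
def z3 (z : ZZ6) : ℤ := z.2.2.1
def z4 (z : ZZ6) : ℤ := z.2.2.2.1
def z5 (z : ZZ6) : ℤ := z.2.2.2.2.1
def z6 (z : ZZ6) : ℤ := z.2.2.2.2.2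

lemma Fl_bt (c : ℤ) (L : List WS) (hok : ∀ s ∈ L, okS s = true) (n : Z4) :
    Fl (symL c L) (bt n) = (kz (WZ z1 L n) (WZ z2 L n) c, kz (WZ z3 L n) (WZ z4 L n) c,
      kz (WZ z5 L n) (WZ z6 L n) c) := by
  classical
  induction L with
  | nil =>
    simp only [WZ_nil, kz_zero]
    rfl
  | cons s L ih =>
    have ih' := ih fun r hr => hok r (List.mem_cons_of_mem s hr)
    have hs := mem_okS (hok s List.mem_cons_self) n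
    have e2 : Fl (symL c (s :: L)) (bt n) = (if bt n ∈ Mset s.G then qz c s.z else 0) +
        Fl (symL c L) (bt n) := by
      unfold Fl symL; rw [List.map_cons, List.map_cons, List.sum_cons]
    rw [e2, ih']
    simp only [WZ_cons, kz_add]
    rcases hN_zero_or s.m2 s.m3 (ixZ n) (jxZ n) with h0 | h0
    · have hn : bt n ∉ Mset s.G := by rw [hs, h0]; norm_num
      rw [if_neg hn, h0]
      simp only [Nat.cast_zero, zero_mul, kz_zero, zero_add]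
    · rw [if_pos (hs.2 h0), h0]
      simp only [Nat.cast_one, one_mul]
      rfl

lemma Fl_off (c : ℤ) (L : List WS) {v : ℂ × ℂ} (hv : ¬ ∃ n, bt n = v) : Fl (symL c L) v = 0 := by
  classical
  induction L with
  | nil => rfl
  | cons s L ih =>
    have e2 : Fl (symL c (s :: L)) v = (if v ∈ Mset s.G then qz c s.z else 0) +
        Fl (symL c L) v := by
      unfold Fl symL; rw [List.map_cons, List.map_cons, List.sum_cons]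
    have hn : v ∉ Mset s.G := by
      rintro ⟨k, hk⟩
      exact hv ⟨_, hk⟩
    rw [e2, if_neg hn, ih, zero_add]

lemma ecyc_bt (n : Z4) : ecyc (bt n) = bt (cyZ n) := by
  unfold bt cyZ
  ext
  · change -((((n.1 : ℂ) * tau0 + (n.2.1 : ℂ)) / 2) + (((n.2.2.1 : ℂ) * tau0 + (n.2.2.2 : ℂ)) / 2)) = _
    push_cast
    ring
  · rfl

lemma eswp_bt (n : Z4) : eswp (bt n) = bt (swZ n) := rfl

lemma cyZ_cyc (n : Z4) : cyZ (cyZ (cyZ n)) = n := by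
  obtain ⟨a, b, c, d⟩ := n
  unfold cyZ
  simp only [Prod.mk.injEq]
  refine ⟨?_, ?_, ?_, ?_⟩ <;> ring

lemma ecyc_cyc (v : ℂ × ℂ) : ecyc (ecyc (ecyc v)) = v := by
  ext
  · change -(-(-(v.1 + v.2) + v.1) + -(v.1 + v.2)) = v.1
    ring
  · change -(-(v.1 + v.2) + v.1) = v.2
    ring

/-- first component of the alternating sum -/
def AZ (p q r : ZZ6 → ℤ) (L : List WS) (n : Z4) : ℤ :=
  WZ p L n + WZ q L (cyZ n) + WZ r L (cyZ (cyZ n)) - WZ q L (swZ n) - WZ p L (swZ (cyZ n)) -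
    WZ r L (swZ (cyZ (cyZ n)))

lemma altF_bt (c : ℤ) (L : List WS) (hok : ∀ s ∈ L, okS s = true) (n : Z4) :
    altF ecyc eswp (Fl (symL c L)) (bt n) =
      (kz (AZ z1 z3 z5 L n) (AZ z2 z4 z6 L n) c,
        kz (AZ z1 z3 z5 L (cyZ (cyZ n))) (AZ z2 z4 z6 L (cyZ (cyZ n))) c,
        kz (AZ z1 z3 z5 L (cyZ n)) (AZ z2 z4 z6 L (cyZ n)) c) := by
  unfold altF
  simp only [ecyc_bt, eswp_bt, Fl_bt c L hok]
  unfold AZ
  simp only [cyZ_cyc]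
  ext
  · simp only [← kz_add, ← kz_sub]
  · simp only [← kz_add, ← kz_sub]
    congr 1 <;> ring
  · simp only [← kz_add, ← kz_sub]
    congr 1 <;> ring

theorem altF_zero (c : ℤ) (L : List WS) (hok : ∀ s ∈ L, okS s = true)
    (hU : ∀ n, AZ z1 z3 z5 L n = 0) (hV : ∀ n, AZ z2 z4 z6 L n = 0) (v : ℂ × ℂ) :
    altF ecyc eswp (Fl (symL c L)) v = 0 := by
  by_cases hv : ∃ n, bt n = v
  · obtain ⟨n, rfl⟩ := hv
    rw [altF_bt c L hok]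
    simp only [hU, hV, kz_zero]
    rfl
  · have h1 : ¬ ∃ n, bt n = ecyc v := by
      rintro ⟨n, hn⟩
      refine hv ⟨cyZ (cyZ n), ?_⟩
      rw [← ecyc_bt, ← ecyc_bt, hn, ecyc_cyc]
    have h2 : ¬ ∃ n, bt n = ecyc (ecyc v) := by
      rintro ⟨n, hn⟩
      refine hv ⟨cyZ n, ?_⟩
      rw [← ecyc_bt, hn, ecyc_cyc]
    have hs : ∀ w, (¬ ∃ n, bt n = w) → ¬ ∃ n, bt n = eswp w := by
      rintro w hw ⟨n, hn⟩
      refine hw ⟨swZ n, ?_⟩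
      rw [← eswp_bt, hn]
      rfl
    unfold altF
    simp only [Fl_off c L hv, Fl_off c L h1, Fl_off c L h2, Fl_off c L (hs _ hv),
      Fl_off c L (hs _ h1), Fl_off c L (hs _ h2)]
    simp

/-! ### the check -/

def cvP (p q r : ZZ6 → ℤ) (s : WS) : NS := cv s.m2 s.m3 (p s.z) (q s.z) (r s.z)

lemma toNat_sub (x : ℤ) : (x.toNat : ℤ) - ((-x).toNat : ℤ) = x := by omega

lemma Ls_sub (p q r : ZZ6 → ℤ) (i0 j0 i1 j1 i2 j2 i3 j3 i4 j4 i5 j5 : ℕ) (L : List WS) :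
    (Ls i0 j0 i1 j1 i2 j2 i3 j3 i4 j4 i5 j5 (L.map (cvP p q r)) : ℤ) -
      (Rs i0 j0 i1 j1 i2 j2 i3 j3 i4 j4 i5 j5 (L.map (cvP p q r)) : ℤ) =
    (L.map fun s => (hN s.m2 s.m3 i0 j0 : ℤ) * p s.z).sum +
    (L.map fun s => (hN s.m2 s.m3 i1 j1 : ℤ) * q s.z).sum +
    (L.map fun s => (hN s.m2 s.m3 i2 j2 : ℤ) * r s.z).sum -
    (L.map fun s => (hN s.m2 s.m3 i3 j3 : ℤ) * q s.z).sum -
    (L.map fun s => (hN s.m2 s.m3 i4 j4 : ℤ) * p s.z).sum -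
    (L.map fun s => (hN s.m2 s.m3 i5 j5 : ℤ) * r s.z).sum := by
  induction L with
  | nil => rfl
  | cons s L ih =>
    have hp := toNat_sub (p s.z)
    have hq := toNat_sub (q s.z)
    have hr := toNat_sub (r s.z)
    have e1 : Ls i0 j0 i1 j1 i2 j2 i3 j3 i4 j4 i5 j5 ((s :: L).map (cvP p q r)) =
        hN s.m2 s.m3 i0 j0 * (p s.z).toNat + (hN s.m2 s.m3 i1 j1 * (q s.z).toNat +
        (hN s.m2 s.m3 i2 j2 * (r s.z).toNat + (hN s.m2 s.m3 i3 j3 * (-(q s.z)).toNat +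
        (hN s.m2 s.m3 i4 j4 * (-(p s.z)).toNat + (hN s.m2 s.m3 i5 j5 * (-(r s.z)).toNat +
        Ls i0 j0 i1 j1 i2 j2 i3 j3 i4 j4 i5 j5 (L.map (cvP p q r))))))) := rfl
    have e2 : Rs i0 j0 i1 j1 i2 j2 i3 j3 i4 j4 i5 j5 ((s :: L).map (cvP p q r)) =
        hN s.m2 s.m3 i0 j0 * (-(p s.z)).toNat + (hN s.m2 s.m3 i1 j1 * (-(q s.z)).toNat +
        (hN s.m2 s.m3 i2 j2 * (-(r s.z)).toNat + (hN s.m2 s.m3 i3 j3 * (q s.z).toNat +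
        (hN s.m2 s.m3 i4 j4 * (p s.z).toNat + (hN s.m2 s.m3 i5 j5 * (r s.z).toNat +
        Rs i0 j0 i1 j1 i2 j2 i3 j3 i4 j4 i5 j5 (L.map (cvP p q r))))))) := rfl
    rw [e1, e2]
    simp only [List.map_cons, List.sum_cons]
    push_cast
    linear_combination ih + ((hN s.m2 s.m3 i0 j0 : ℤ) - hN s.m2 s.m3 i4 j4) * hp +
      ((hN s.m2 s.m3 i1 j1 : ℤ) - hN s.m2 s.m3 i3 j3) * hq +
      ((hN s.m2 s.m3 i2 j2 : ℤ) - hN s.m2 s.m3 i5 j5) * hr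

theorem chk_sound {p q r : ZZ6 → ℤ} {L : List WS} (h : chk (L.map (cvP p q r)) rg4 = true)
    (n : Z4) : AZ p q r L n = 0 := by
  unfold chk at h
  simp only [List.all_eq_true] at h
  have h1 := h _ (mem_rg4 (r4_lt n.1)) _ (mem_rg4 (r4_lt n.2.1)) _ (mem_rg4 (r4_lt n.2.2.1)) _
    (mem_rg4 (r4_lt n.2.2.2)) _ (mem_rg3 (r3_lt n.1)) _ (mem_rg3 (r3_lt n.2.2.1))
  unfold tst at h1
  rw [nbeq, ← o4_eq, ← o4_eq, ← o3_eq] at h1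
  have h2 := Ls_sub p q r (ix (r4 n.1) (r4 n.2.1) (r4 n.2.2.1) (r4 n.2.2.2))
    (jx (r3 n.1) (r3 n.2.2.1))
    (ix (r4 (-(n.1 + n.2.2.1))) (r4 (-(n.2.1 + n.2.2.2))) (r4 n.1) (r4 n.2.1))
    (jx (r3 (-(n.1 + n.2.2.1))) (r3 n.1))
    (ix (r4 n.2.2.1) (r4 n.2.2.2) (r4 (-(n.1 + n.2.2.1))) (r4 (-(n.2.1 + n.2.2.2))))
    (jx (r3 n.2.2.1) (r3 (-(n.1 + n.2.2.1))))
    (ix (r4 n.2.2.1) (r4 n.2.2.2) (r4 n.1) (r4 n.2.1))
    (jx (r3 n.2.2.1) (r3 n.1))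
    (ix (r4 n.1) (r4 n.2.1) (r4 (-(n.1 + n.2.2.1))) (r4 (-(n.2.1 + n.2.2.2))))
    (jx (r3 n.1) (r3 (-(n.1 + n.2.2.1))))
    (ix (r4 (-(n.1 + n.2.2.1))) (r4 (-(n.2.1 + n.2.2.2))) (r4 n.2.2.1) (r4 n.2.2.2))
    (jx (r3 (-(n.1 + n.2.2.1))) (r3 n.2.2.1)) L
  rw [h1, sub_self] at h2
  have e : cyZ (cyZ n) = (n.2.2.1, n.2.2.2, -(n.1 + n.2.2.1), -(n.2.1 + n.2.2.2)) := by
    unfold cyZ
    simp only [Prod.mk.injEq]
    refine ⟨?_, ?_, trivial⟩ <;> ring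
  unfold AZ
  rw [e]
  unfold WZ ixZ jxZ cyZ swZ
  exact h2.symm

/-- THE WEIGHT LEMMA. -/
theorem SS_check (hF : StF3) (c : ℤ) (L : List WS) (hok : L.all okS = true)
    (hU : chk (L.map cvU) rg4 = true) (hV : chk (L.map cvV) rg4 = true) :
    (L.map fun s => SS (Mset s.G) (qz c s.z)).sum = 0 := by
  have hok' : ∀ s ∈ L, okS s = true := List.all_eq_true.1 hok
  have h := SL_alt_zero hF (symL c L) (by
    intro s hs
    unfold symL at hs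
    rw [List.mem_map] at hs
    obtain ⟨t, _, rfl⟩ := hs
    exact nice_Mset t.G)
    (altF_zero c L hok' (fun n => chk_sound (p := z1) (q := z3) (r := z5) hU n)
      (fun n => chk_sound (p := z2) (q := z4) (r := z6) hV n))
  unfold SL symL at h
  rw [List.map_map] at h
  exact h

end Pool.Agent.Lib.BM.Cm
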