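import Pool.Agent.Lib.BM.Defs

set_option autoImplicit false

/-!
# BM.E2: Kronecker's limit formula on the line `Re τ = 1/2`

`rr y m = ∑ₙ |m τ + n|⁻²` (Lean `0⁻¹ = 0`), `τ = 1/2 + i y`.
-/

namespace Pool.Agent.Lib.BM

open Complex Filter Topology

noncomputable section

/-- The row sum `∑ₙ |m τ + n|⁻²`. -/
def rr (y : ℝ) (m : ℤ) : ℝ := ∑' n : ℤ, (normSq ((m : ℂ) * (1 / 2 + I * (y : ℂ)) + (n : ℂ)))⁻¹

/-- The symmetric limit of `∑ χ(m) r(m)`. -/
def aL (y : ℝ) : ℝ :=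
  (Real.pi ^ 2 * y / 3 - 2 * Real.pi * Real.log 2
    + 4 * Real.pi * (LP (qn y) - LP (qn y ^ 2))) / y

/-- The symmetric limit of `∑ χ(m) u(m) r(m)`. -/
def bL (y : ℝ) : ℝ :=
  (Real.pi ^ 2 * y / 3 - 2 * Real.pi / 3 * Real.log 2
    + 4 * Real.pi / 3 * (LP (qn y ^ 3) - LP (qn y ^ 6))) / y

end

namespace E2Aux

open Real in
theorem hs_congr {ι : Type*} {f g : ι → ℝ} {a : ℝ} (h : HasSum f a) (e : ∀ i, f i = g i) :
    HasSum g a := by
  have : f = g := funext e
  rwa [← this]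

/-- Summability of a row. -/
theorem row_summable (z : ℂ) : Summable (fun n : ℤ => (normSq (z + n))⁻¹) := by
  have h := (EisensteinSeries.linear_right_summable z 1 (k := 2) le_rfl).norm
  refine h.congr fun n => ?_
  rw [norm_inv, norm_zpow, normSq_eq_norm_sq]
  simp

/-- The row sum and the cotangent. -/
theorem row_hasSum {z : ℂ} (hz : 0 < z.im) :
    HasSum (fun n : ℤ => (normSq (z + n))⁻¹) (-((Real.pi : ℂ) * cot (Real.pi * z)).im / z.im) := by
  have hzi : z ∈ integerComplement := UpperHalfPlane.coe_mem_integerComplement ⟨z, hz⟩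
  have hs := row_summable z
  set f : ℤ → ℝ := fun n => (normSq (z + n))⁻¹ with hf
  have him : ∀ w : ℂ, (1 / w).im = -w.im * (normSq w)⁻¹ := by
    intro w
    rw [one_div, inv_im]
    ring
  have hcot : HasSum (fun n : ℕ => cotTerm z n) ((Real.pi : ℂ) * cot (Real.pi * z) - 1 / z) := by
    rw [cot_series_rep' hzi]
    exact (summable_cotTerm hzi).hasSum
  have h1 : HasSum (fun n : ℕ => (cotTerm z n).im)
      (((Real.pi : ℂ) * cot (Real.pi * z) - 1 / z).im) := hcot.mapL imCLM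
  have h2 : ∀ n : ℕ, (cotTerm z n).im = -z.im * (f (-((n : ℤ) + 1)) + f ((n : ℤ) + 1)) := by
    intro n
    unfold cotTerm
    rw [add_im, him, him]
    simp only [hf]
    have e1 : z - ((n : ℂ) + 1) = z + ((-((n : ℤ) + 1) : ℤ) : ℂ) := by push_cast; ring
    have e2 : z + ((n : ℂ) + 1) = z + ((((n : ℤ) + 1) : ℤ) : ℂ) := by push_cast; ring
    rw [e1, e2]
    have e3 : (z + ((-((n : ℤ) + 1) : ℤ) : ℂ)).im = z.im := by
      rw [add_im, intCast_im, add_zero]
    have e4 : (z + ((((n : ℤ) + 1) : ℤ) : ℂ)).im = z.im := by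
      rw [add_im, intCast_im, add_zero]
    rw [e3, e4]
    ring
  have s1 : Summable (fun n : ℕ => f ((n : ℤ) + 1)) :=
    hs.comp_injective (fun a b h => by
      have : (a : ℤ) + 1 = b + 1 := h
      exact_mod_cast add_right_cancel this)
  have s2 : Summable (fun n : ℕ => f (-((n : ℤ) + 1))) :=
    hs.comp_injective (fun a b h => by
      have : -((a : ℤ) + 1) = -(b + 1) := h
      have h' := neg_injective this
      exact_mod_cast add_right_cancel h')
  have h3 : HasSum (fun n : ℕ => (cotTerm z n).im)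
      (-z.im * ((∑' n : ℕ, f (-((n : ℤ) + 1))) + ∑' n : ℕ, f ((n : ℤ) + 1))) := by
    refine hs_congr ((s2.hasSum.add s1.hasSum).mul_left (-z.im)) fun n => (h2 n).symm
  have h4 := h1.unique h3
  have h5 : HasSum f ((∑' n : ℕ, f ((n : ℤ) + 1)) + f 0 + ∑' n : ℕ, f (-((n : ℤ) + 1))) :=
    HasSum.of_add_one_of_neg_add_one s1.hasSum s2.hasSum
  convert h5 using 1
  rw [sub_im, him] at h4
  have e0 : f 0 = (normSq z)⁻¹ := by simp only [hf]; simp
  rw [e0]
  have hz' : z.im ≠ 0 := hz.ne'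
  rw [div_eq_iff hz']
  linear_combination (-1) * h4

/-- The nome of `m τ`. -/
theorem cexp_mul_tau (y : ℝ) (m : ℕ) :
    cexp (2 * Real.pi * I * ((m : ℂ) * (1 / 2 + I * (y : ℂ)))) = ((qn y ^ m : ℝ) : ℂ) := by
  have e1 : 2 * (Real.pi : ℂ) * I * ((m : ℂ) * (1 / 2 + I * (y : ℂ)))
      = (m : ℂ) * ((Real.pi : ℂ) * I + ((-(2 * Real.pi * y) : ℝ) : ℂ)) := by
    push_cast
    linear_combination (2 * (Real.pi : ℂ) * m * y) * I_sq
  rw [e1, exp_nat_mul, exp_add, exp_pi_mul_I, ← ofReal_exp]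
  unfold qn
  push_cast
  ring

/-- `q^m ≠ 1`. -/
theorem abs_qn_pow_lt {y : ℝ} (hy : 0 < y) {m : ℕ} (hm : m ≠ 0) : |qn y ^ m| < 1 := by
  rw [abs_pow]
  refine pow_lt_one₀ (abs_nonneg _) ?_ hm
  unfold qn
  rw [abs_neg, abs_of_pos (Real.exp_pos _), Real.exp_lt_one_iff]
  have : 0 < 2 * Real.pi * y := by positivity
  linarith

/-- The value of a row. -/
theorem rr_nat {y : ℝ} (hy : 0 < y) (k : ℕ) :
    rr y ((k : ℤ) + 1) = Real.pi / (((k : ℝ) + 1) * y) *
      (1 + 2 * (qn y ^ (k + 1) / (1 - qn y ^ (k + 1)))) := by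
  set z : ℂ := ((k + 1 : ℕ) : ℂ) * (1 / 2 + I * (y : ℂ)) with hz
  have him : z.im = ((k : ℝ) + 1) * y := by
    rw [hz]
    simp
  have hk : (0 : ℝ) < (k : ℝ) + 1 := by positivity
  have hpos : 0 < z.im := by rw [him]; positivity
  have h := (row_hasSum hpos).tsum_eq
  have e1 : rr y ((k : ℤ) + 1) = ∑' n : ℤ, (normSq (z + n))⁻¹ := by
    unfold rr
    refine tsum_congr fun n => ?_
    rw [hz]
    push_cast
    rfl
  rw [e1, h, cot_pi_eq_exp_ratio, hz, cexp_mul_tau, ← hz]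
  set Q : ℝ := qn y ^ (k + 1) with hQ
  have hQ1 : |Q| < 1 := abs_qn_pow_lt hy (Nat.succ_ne_zero k)
  have hQ2 : 1 - Q ≠ 0 := by
    have := (abs_lt.mp hQ1).2
    linarith
  have e2 : (Real.pi : ℂ) * (((Q : ℂ) + 1) / (I * (1 - (Q : ℂ))))
      = ((-(Real.pi * ((Q + 1) / (1 - Q))) : ℝ) : ℂ) * I := by
    have hQ3 : (1 : ℂ) - (Q : ℂ) ≠ 0 := by
      have : ((1 - Q : ℝ) : ℂ) ≠ 0 := ofReal_ne_zero.mpr hQ2
      push_cast at this
      exact this
    push_cast
    field_simp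
    linear_combination (1 + (Q : ℂ)) * I_sq
  rw [e2, im_ofReal_mul, I_im, him]
  field_simp
  ring

/-- A row only depends on `|m|`. -/
theorem rr_neg (y : ℝ) (m : ℤ) : rr y (-m) = rr y m := by
  unfold rr
  rw [← (Equiv.neg ℤ).tsum_eq]
  refine tsum_congr fun n => ?_
  rw [Equiv.neg_apply, ← normSq_neg]
  congr 2
  push_cast
  ring

/-- The row `m = 0`. -/
theorem rr_zero (y : ℝ) : rr y 0 = Real.pi ^ 2 / 3 := by
  have h1 : HasSum (fun n : ℕ => 1 / ((n : ℝ) + 1) ^ 2) (Real.pi ^ 2 / 6) := by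
    have h2 := (hasSum_nat_add_iff' 1).mpr hasSum_zeta_two
    simpa using h2
  have h3 : HasSum (fun n : ℤ => ((n : ℝ) ^ 2)⁻¹) (Real.pi ^ 2 / 6 + (((0 : ℤ) : ℝ) ^ 2)⁻¹
      + Real.pi ^ 2 / 6) := by
    refine HasSum.of_add_one_of_neg_add_one (f := fun n : ℤ => ((n : ℝ) ^ 2)⁻¹) ?_ ?_
    · refine hs_congr h1 fun n => ?_
      push_cast
      rw [one_div]
    · refine hs_congr h1 fun n => ?_
      push_cast
      rw [one_div, neg_sq]
  have h4 : rr y 0 = ∑' n : ℤ, ((n : ℝ) ^ 2)⁻¹ := by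
    unfold rr
    refine tsum_congr fun n => ?_
    rw [Int.cast_zero, zero_mul, zero_add, normSq_intCast]
    rw [sq]
  rw [h4, h3.tsum_eq]
  norm_num
  ring

/-! ### The Lambert series -/

theorem lam_double {x : ℝ} (hx : |x| < 1) :
    Summable (fun p : ℕ × ℕ => x ^ ((p.1 + 1) * (p.2 + 1)) / ((p.2 : ℝ) + 1)) := by
  have h0 : 0 ≤ |x| := abs_nonneg x
  have h1 : Summable (fun n : ℕ => |x| ^ n) := summable_geometric_of_lt_one h0 hx
  have h2 : Summable (fun p : ℕ × ℕ => |x| ^ p.1 * |x| ^ p.2) :=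
    h1.mul_of_nonneg h1 (fun n => by positivity) (fun n => by positivity)
  refine Summable.of_norm_bounded h2 fun p => ?_
  have hp : (0 : ℝ) < (p.2 : ℝ) + 1 := by positivity
  rw [norm_div, norm_pow, Real.norm_eq_abs, Real.norm_of_nonneg hp.le, ← pow_add]
  have h3 : |x| ^ ((p.1 + 1) * (p.2 + 1)) ≤ |x| ^ (p.1 + p.2) :=
    pow_le_pow_of_le_one h0 hx.le (by nlinarith)
  have h4 : (1 : ℝ) ≤ (p.2 : ℝ) + 1 := by
    have : (0 : ℝ) ≤ p.2 := Nat.cast_nonneg _
    linarith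
  calc |x| ^ ((p.1 + 1) * (p.2 + 1)) / ((p.2 : ℝ) + 1)
      ≤ |x| ^ ((p.1 + 1) * (p.2 + 1)) / 1 :=
        div_le_div_of_nonneg_left (by positivity) one_pos h4
    _ = |x| ^ ((p.1 + 1) * (p.2 + 1)) := div_one _
    _ ≤ _ := h3

theorem abs_pow_succ_lt {x : ℝ} (hx : |x| < 1) (n : ℕ) : |x ^ (n + 1)| < 1 := by
  rw [abs_pow]
  exact pow_lt_one₀ (abs_nonneg _) hx (Nat.succ_ne_zero n)

theorem lambert {x : ℝ} (hx : |x| < 1) :
    HasSum (fun k : ℕ => 1 / ((k : ℝ) + 1) * (x ^ (k + 1) / (1 - x ^ (k + 1)))) (-LP x) := by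
  have hs := (lam_double hx).hasSum
  set S := ∑' p : ℕ × ℕ, x ^ ((p.1 + 1) * (p.2 + 1)) / ((p.2 : ℝ) + 1) with hS
  have h1 : HasSum (fun n : ℕ => -Real.log (1 - x ^ (n + 1))) S := by
    refine hs.prod_fiberwise fun n => ?_
    have h2 := Real.hasSum_pow_div_log_of_abs_lt_one (abs_pow_succ_lt hx n)
    refine hs_congr h2 fun k => ?_
    rw [← pow_mul]
  have h3 : S = -LP x := by
    unfold LP
    rw [← h1.tsum_eq, tsum_neg]
  rw [← h3]
  have hs' : HasSum (fun p : ℕ × ℕ => x ^ ((p.2 + 1) * (p.1 + 1)) / ((p.1 : ℝ) + 1)) S :=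
    (Equiv.prodComm ℕ ℕ).hasSum_iff.mpr hs
  refine hs'.prod_fiberwise fun k => ?_
  have hk := abs_pow_succ_lt hx k
  have h4 := (hasSum_geometric_of_abs_lt_one hk).mul_left (1 / ((k : ℝ) + 1) * x ^ (k + 1))
  have h5 : HasSum (fun n : ℕ => x ^ ((n + 1) * (k + 1)) / ((k : ℝ) + 1))
      (1 / ((k : ℝ) + 1) * x ^ (k + 1) * (1 - x ^ (k + 1))⁻¹) := by
    refine hs_congr h4 fun n => ?_
    have e1 : x ^ ((n + 1) * (k + 1)) = x ^ (k + 1) * (x ^ (k + 1)) ^ n := by
      rw [← pow_mul, ← pow_add]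
      congr 1
      ring
    rw [e1]
    ring
  convert h5 using 1
  rw [div_eq_mul_inv]
  ring

/-- The alternating Lambert series. -/
theorem lambert_alt {x : ℝ} (hx : |x| < 1) :
    HasSum (fun k : ℕ => (-1 : ℝ) ^ (k + 1) * (1 / ((k : ℝ) + 1) * (x ^ (k + 1) / (1 - x ^ (k + 1)))))
      (LP x - LP (x ^ 2)) := by
  have h1 := lambert hx
  have hx2 : |x ^ 2| < 1 := by
    have := abs_pow_succ_lt hx 1
    exact this
  have h2 := lambert hx2
  set g : ℕ → ℝ := fun k => 1 / ((k : ℝ) + 1) * (x ^ (k + 1) / (1 - x ^ (k + 1))) with hg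
  have h3 : HasSum (fun k : ℕ => g (2 * k + 1)) (-LP (x ^ 2) / 2) := by
    have h4 := h2.mul_left (1 / 2)
    have h5 : HasSum (fun k : ℕ => g (2 * k + 1)) (1 / 2 * -LP (x ^ 2)) := by
      refine hs_congr h4 fun k => ?_
      simp only [hg]
      have e1 : (x ^ 2) ^ (k + 1) = x ^ (2 * k + 1 + 1) := by rw [← pow_mul]; congr 1
      have e2 : (((2 * k + 1 : ℕ) : ℝ) + 1) = 2 * ((k : ℝ) + 1) := by push_cast; ring
      rw [e1, e2, ← mul_assoc]
      congr 1
      rw [one_div, one_div, one_div, mul_inv]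
    convert h5 using 1
    ring
  have h6 : Summable (fun k : ℕ => g (2 * k)) :=
    h1.summable.comp_injective (fun a b h => by simpa using h)
  have h7 : HasSum g ((∑' k : ℕ, g (2 * k)) + -LP (x ^ 2) / 2) := h6.hasSum.even_add_odd h3
  have h8 := h7.unique h1
  have h9 : HasSum (fun k : ℕ => (-1 : ℝ) ^ (k + 1) * g k)
      (-(∑' k : ℕ, g (2 * k)) + -LP (x ^ 2) / 2) := by
    refine HasSum.even_add_odd ?_ ?_
    · refine hs_congr h6.hasSum.neg fun k => ?_
      rw [pow_succ, pow_mul]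
      norm_num
    · refine hs_congr h3 fun k => ?_
      rw [show 2 * k + 1 + 1 = 2 * (k + 1) by ring, pow_mul]
      norm_num
  convert h9 using 1
  linarith

/-! ### The alternating harmonic series -/

theorem alt_even (N : ℕ) : ∑ k ∈ Finset.range (2 * N), (-1 : ℝ) ^ (k + 1) / ((k : ℝ) + 1)
    = (harmonic N : ℝ) - (harmonic (2 * N) : ℝ) := by
  induction N with
  | zero => simp
  | succ n ih =>
    rw [show 2 * (n + 1) = 2 * n + 1 + 1 by ring, Finset.sum_range_succ, Finset.sum_range_succ, ih,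
      harmonic_succ, harmonic_succ, harmonic_succ]
    have e1 : (-1 : ℝ) ^ (2 * n + 1) = -1 := by rw [pow_succ, pow_mul]; norm_num
    have e2 : (-1 : ℝ) ^ (2 * n + 1 + 1) = 1 := by
      rw [show 2 * n + 1 + 1 = 2 * (n + 1) by ring, pow_mul]; norm_num
    rw [e1, e2]
    push_cast
    have h1 : (n : ℝ) + 1 ≠ 0 := by positivity
    have h2 : 2 * (n : ℝ) + 1 ≠ 0 := by positivity
    field_simp
    ring

theorem alt_tendsto : Tendsto (fun N : ℕ => ∑ k ∈ Finset.range N, (-1 : ℝ) ^ (k + 1) / ((k : ℝ) + 1))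
    atTop (𝓝 (-Real.log 2)) := by
  have hanti : Antitone (fun k : ℕ => 1 / ((k : ℝ) + 1)) := by
    intro a b hab
    refine one_div_le_one_div_of_le (by positivity) ?_
    have : (a : ℝ) ≤ b := by exact_mod_cast hab
    linarith
  obtain ⟨l, hl⟩ := hanti.tendsto_alternating_series_of_tendsto_zero
    tendsto_one_div_add_atTop_nhds_zero_nat
  have h1 : Tendsto (fun N : ℕ => ∑ k ∈ Finset.range N, (-1 : ℝ) ^ (k + 1) / ((k : ℝ) + 1))
      atTop (𝓝 (-l)) := by
    refine hl.neg.congr fun N => ?_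
    rw [← Finset.sum_neg_distrib]
    refine Finset.sum_congr rfl fun k _ => ?_
    rw [pow_succ]
    ring
  have h2 : Tendsto (fun N : ℕ => 2 * N) atTop atTop :=
    tendsto_id.const_mul_atTop' (by norm_num)
  have h3 := h1.comp h2
  have h4 : Tendsto (fun N : ℕ => (harmonic N : ℝ) - (harmonic (2 * N) : ℝ)) atTop
      (𝓝 (-Real.log 2)) := by
    have h5 := Real.tendsto_harmonic_sub_log
    have h6 := (h5.sub (h5.comp h2)).sub_const (Real.log 2)
    rw [sub_self, zero_sub] at h6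
    refine h6.congr' ?_
    filter_upwards [eventually_ge_atTop 1] with N hN
    have hN' : (N : ℝ) ≠ 0 := by
      have : (1 : ℝ) ≤ N := by exact_mod_cast hN
      linarith
    simp only [Function.comp_apply]
    rw [show ((2 * N : ℕ) : ℝ) = 2 * (N : ℝ) by push_cast; ring, Real.log_mul (by norm_num) hN']
    ring
  have h7 : (-l) = -Real.log 2 := by
    refine tendsto_nhds_unique h3 (h4.congr fun N => ?_)
    exact (alt_even N).symm
  rw [← h7]
  exact h1

/-- The limit of the alternating row sums. -/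
theorem row_limit {x : ℝ} (hx : |x| < 1) :
    Tendsto (fun N : ℕ => ∑ k ∈ Finset.range N, (-1 : ℝ) ^ (k + 1) * (1 / ((k : ℝ) + 1)) *
      (1 + 2 * (x ^ (k + 1) / (1 - x ^ (k + 1))))) atTop
      (𝓝 (-Real.log 2 + 2 * (LP x - LP (x ^ 2)))) := by
  have h := alt_tendsto.add ((lambert_alt hx).tendsto_sum_nat.const_mul 2)
  refine h.congr fun N => ?_
  rw [Finset.mul_sum, ← Finset.sum_add_distrib]
  refine Finset.sum_congr rfl fun k _ => ?_
  ring

/-! ### Symmetric sums -/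

/-- The sign of an integer. -/
def sg (m : ℤ) : ℝ := if Even m then 1 else -1

theorem sg_nat (k : ℕ) : sg ((k : ℤ) + 1) = (-1) ^ (k + 1) := by
  unfold sg
  rcases Nat.even_or_odd (k + 1) with h | h
  · have h' : Even ((k : ℤ) + 1) := by exact_mod_cast h
    rw [if_pos h', h.neg_one_pow]
  · have h' : ¬ Even ((k : ℤ) + 1) := by
      rw [Int.not_even_iff_odd]; exact_mod_cast h
    rw [if_neg h', h.neg_one_pow]

theorem sum_Icc_even (g : ℤ → ℝ) (hg : ∀ m, g (-m) = g m) (M : ℕ) :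
    ∑ m ∈ Finset.Icc (-(M : ℤ)) M, g m = g 0 + 2 * ∑ k ∈ Finset.range M, g ((k : ℤ) + 1) := by
  induction M with
  | zero => simp
  | succ n ih =>
    have h1 : Finset.Icc (-((n + 1 : ℕ) : ℤ)) ((n + 1 : ℕ) : ℤ)
        = insert (-((n : ℤ) + 1)) (insert ((n : ℤ) + 1) (Finset.Icc (-(n : ℤ)) n)) := by
      ext m
      simp only [Finset.mem_Icc, Finset.mem_insert]
      push_cast
      omega
    rw [h1, Finset.sum_insert (by
      simp only [Finset.mem_insert, Finset.mem_Icc]; omega), Finset.sum_insert (by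
      simp only [Finset.mem_Icc]; omega), ih, hg, Finset.sum_range_succ]
    ring

/-- The indicator of `3 ∣ m`. -/
def t3 (m : ℤ) : ℝ := if (3 : ℤ) ∣ m then 1 else 0

theorem sg_neg (m : ℤ) : sg (-m) = sg m := by
  unfold sg; simp only [even_neg]

theorem t3_neg (m : ℤ) : t3 (-m) = t3 m := by
  unfold t3; simp only [dvd_neg]

theorem sum_third (g : ℤ → ℝ) (M : ℕ) :
    ∑ k ∈ Finset.range M, t3 ((k : ℤ) + 1) * g ((k : ℤ) + 1)
      = ∑ j ∈ Finset.range (M / 3), g (3 * ((j : ℤ) + 1)) := by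
  induction M with
  | zero => simp
  | succ n ih =>
    rw [Finset.sum_range_succ, ih]
    by_cases h : 3 ∣ n + 1
    · obtain ⟨c, hc⟩ := h
      have e1 : (n + 1) / 3 = n / 3 + 1 := by omega
      have e2 : t3 ((n : ℤ) + 1) = 1 := by
        unfold t3
        rw [if_pos]
        exact ⟨c, by exact_mod_cast hc⟩
      rw [e1, Finset.sum_range_succ, e2, one_mul]
      congr 2
      have : (3 : ℤ) * (((n / 3 : ℕ) : ℤ) + 1) = ((3 * (n / 3 + 1) : ℕ) : ℤ) := by push_cast; ring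
      rw [this]
      have e3 : 3 * (n / 3 + 1) = n + 1 := by omega
      rw [e3]
      push_cast
      ring
    · have e1 : (n + 1) / 3 = n / 3 := by omega
      have e2 : t3 ((n : ℤ) + 1) = 0 := by
        unfold t3
        rw [if_neg]
        intro h'
        exact h (by exact_mod_cast h')
      rw [e1, e2, zero_mul, add_zero]

theorem abs_qn_lt {y : ℝ} (hy : 0 < y) : |qn y| < 1 := by
  have := abs_qn_pow_lt hy (one_ne_zero)
  rwa [pow_one] at this

/-- The first symmetric limit. -/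
theorem tendsto_a {y : ℝ} (hy : 0 < y) :
    Tendsto (fun M : ℕ => ∑ m ∈ Finset.Icc (-(M : ℤ)) M, sg m * rr y m) atTop (𝓝 (aL y)) := by
  have h := ((row_limit (abs_qn_lt hy)).const_mul (2 * (Real.pi / y))).const_add (Real.pi ^ 2 / 3)
  have e : Real.pi ^ 2 / 3 + 2 * (Real.pi / y) *
      (-Real.log 2 + 2 * (LP (qn y) - LP (qn y ^ 2))) = aL y := by
    unfold aL
    field_simp
    ring
  rw [e] at h
  refine h.congr fun M => ?_
  rw [sum_Icc_even _ (fun m => by rw [sg_neg, rr_neg]), rr_zero]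
  have e0 : sg 0 = 1 := by unfold sg; simp
  rw [e0, one_mul, Finset.mul_sum, Finset.mul_sum]
  congr 1
  refine Finset.sum_congr rfl fun k _ => ?_
  rw [sg_nat, rr_nat hy]
  have h1 : (k : ℝ) + 1 ≠ 0 := by positivity
  field_simp

/-- The second symmetric limit. -/
theorem tendsto_b {y : ℝ} (hy : 0 < y) :
    Tendsto (fun M : ℕ => ∑ m ∈ Finset.Icc (-(M : ℤ)) M, t3 m * (sg m * rr y m)) atTop
      (𝓝 (bL y)) := by
  have hq : |qn y ^ 3| < 1 := abs_qn_pow_lt hy (by norm_num)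
  have hdiv : Tendsto (fun M : ℕ => M / 3) atTop atTop :=
    Nat.tendsto_div_const_atTop (by norm_num)
  have h := (((row_limit hq).comp hdiv).const_mul (2 * (Real.pi / (3 * y)))).const_add
    (Real.pi ^ 2 / 3)
  have e : Real.pi ^ 2 / 3 + 2 * (Real.pi / (3 * y)) *
      (-Real.log 2 + 2 * (LP (qn y ^ 3) - LP ((qn y ^ 3) ^ 2))) = bL y := by
    unfold bL
    rw [← pow_mul]
    field_simp
    ring
  rw [e] at h
  refine h.congr fun M => ?_
  rw [sum_Icc_even _ (fun m => by rw [sg_neg, rr_neg, t3_neg]), rr_zero]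
  have e0 : sg 0 = 1 := by unfold sg; simp
  have e1 : t3 0 = 1 := by unfold t3; simp
  rw [e0, e1, one_mul, one_mul, sum_third (fun m => sg m * rr y m)]
  simp only [Function.comp_apply]
  rw [Finset.mul_sum, Finset.mul_sum]
  congr 1
  refine Finset.sum_congr rfl fun k _ => ?_
  have e3 : (3 : ℤ) * ((k : ℤ) + 1) = ((3 * k + 2 : ℕ) : ℤ) + 1 := by push_cast; ring
  rw [e3, sg_nat, rr_nat hy]
  have e4 : (-1 : ℝ) ^ (3 * k + 2 + 1) = (-1) ^ (k + 1) := by
    rw [show 3 * k + 2 + 1 = 3 * (k + 1) by ring, pow_mul]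
    norm_num
  have e5 : qn y ^ (3 * k + 2 + 1) = (qn y ^ 3) ^ (k + 1) := by
    rw [← pow_mul]; congr 1
  rw [e4, e5]
  have h1 : (k : ℝ) + 1 ≠ 0 := by positivity
  have e6 : ((3 * k + 2 : ℕ) : ℝ) + 1 = 3 * ((k : ℝ) + 1) := by push_cast; ring
  rw [e6]
  field_simp

end E2Aux

/-- Kronecker's limit formula. -/
theorem aL_bL {y : ℝ} (hy : 0 < y) : y * (aL y + 3 * bL y) = -(4 * Real.pi / 3) * lx y := by
  unfold aL bL lx
  have h8 : Real.log 8 = 3 * Real.log 2 := by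
    rw [show (8 : ℝ) = 2 ^ 3 by norm_num, Real.log_pow]
    norm_num
  rw [h8]
  field_simp
  ring

end Pool.Agent.Lib.BM
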