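import Mathlib

/-! # Jacobi's identity for the cube of the eta product

For real `0 < q < 1`:
`(∏ (1 - q^(n+1)))^3 = ∑ (-1)^n (2n+1) q^(n(n+1)/2)`.
The proof is by a finite version (sums over all integers with finite support) and dominated convergence. -/

set_option autoImplicit false

open Filter Topology

namespace Pool.Agent.Lib.BM.Eta

/-- `qP q m = ∏_{k<m} (1 - q^(k+1))`. -/
noncomputable def qP (q : ℝ) (m : ℕ) : ℝ := ∏ k ∈ Finset.range m, (1 - q ^ (k + 1))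

/-- reciprocal of `qP`, extended by zero to the negative integers. -/
noncomputable def qR (q : ℝ) (m : ℤ) : ℝ := if m < 0 then 0 else (qP q m.toNat)⁻¹

/-- the coefficient `(-1)^j (2j+1) q^(j(j+1)/2)`. -/
noncomputable def qc (q : ℝ) (j : ℤ) : ℝ := (-1 : ℝ) ^ j * (2 * j + 1) * q ^ (j * (j + 1) / 2)

/-- the finite q-binomial `[2n+1, n-j]`. -/
noncomputable def qB (q : ℝ) (n : ℕ) (j : ℤ) : ℝ :=
  qP q (2 * n + 1) * (qR q (n - j) * qR q (n + j + 1))

section
variable {q : ℝ} (h0 : 0 < q) (h1 : q < 1)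
include h0 h1

lemma one_sub_pow_pos (k : ℕ) : 0 < 1 - q ^ (k + 1) := by
  have := pow_lt_one₀ h0.le h1 (Nat.succ_ne_zero k)
  simp only [Nat.succ_eq_add_one] at this
  linarith

lemma qP_pos (m : ℕ) : 0 < qP q m := Finset.prod_pos fun k _ => one_sub_pow_pos h0 h1 k

lemma qP_le_one (m : ℕ) : qP q m ≤ 1 :=
  Finset.prod_le_one (fun k _ => (one_sub_pow_pos h0 h1 k).le) fun k _ => by
    have := pow_pos h0 (k + 1)
    linarith

omit h0 h1 in
lemma qP_succ (m : ℕ) : qP q (m + 1) = qP q m * (1 - q ^ (m + 1)) := by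
  simp [qP, Finset.prod_range_succ]

lemma qR_step (m : ℤ) : qR q (m - 1) = (1 - q ^ m) * qR q m := by
  unfold qR
  rcases lt_trichotomy m 0 with hm | hm | hm
  · rw [if_pos (by omega), if_pos hm]; simp
  · subst hm; simp
  · obtain ⟨k, rfl⟩ : ∃ k : ℕ, m = k + 1 := ⟨(m - 1).toNat, by omega⟩
    rw [if_neg (by omega), if_neg (by omega)]
    have e1 : ((k : ℤ) + 1 - 1).toNat = k := by omega
    have e2 : ((k : ℤ) + 1).toNat = k + 1 := by omega
    rw [e1, e2, qP_succ]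
    have h2 := one_sub_pow_pos h0 h1 k
    have h3 := qP_pos h0 h1 k
    have e3 : q ^ ((k : ℤ) + 1) = q ^ (k + 1) := by
      have : ((k : ℤ) + 1) = ((k + 1 : ℕ) : ℤ) := by push_cast; ring
      rw [this, zpow_natCast]
    rw [e3]
    field_simp

lemma qB_rec (n : ℕ) (j : ℤ) :
    qB q (n + 1) j = q ^ ((n : ℤ) + 1 - j) * qB q n (j - 1) + (1 + (q ^ (n + 1)) ^ 2) * qB q n j
      + q ^ ((n : ℤ) + 2 + j) * qB q n (j + 1) := by
  have hq : q ≠ 0 := h0.ne'
  unfold qB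
  push_cast
  set a := q ^ ((n : ℤ) + 1 - j) with ha
  set b := q ^ ((n : ℤ) + 2 + j) with hb
  set R1 := qR q ((n : ℤ) + 1 - j) with hR1
  set R2 := qR q ((n : ℤ) + 2 + j) with hR2
  have e1 : qR q ((n : ℤ) - j) = (1 - a) * R1 := by
    rw [← qR_step h0 h1]; congr 1; ring
  have e2 : qR q ((n : ℤ) - (j + 1)) = (1 - a / q) * ((1 - a) * R1) := by
    rw [← e1]
    have : (n : ℤ) - (j + 1) = ((n : ℤ) - j) - 1 := by ring
    rw [this, qR_step h0 h1]
    congr 2
    rw [ha, show (n : ℤ) + 1 - j = ((n : ℤ) - j) + 1 by ring, zpow_add_one₀ hq]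
    exact (mul_div_cancel_right₀ _ hq).symm
  have e3 : qR q ((n : ℤ) + j + 1) = (1 - b) * R2 := by
    rw [← qR_step h0 h1]; congr 1; ring
  have e4 : qR q ((n : ℤ) + (j - 1) + 1) = (1 - b / q) * ((1 - b) * R2) := by
    rw [← e3]
    have : (n : ℤ) + (j - 1) + 1 = ((n : ℤ) + j + 1) - 1 := by ring
    rw [this, qR_step h0 h1]
    congr 2
    rw [hb, show (n : ℤ) + 2 + j = ((n : ℤ) + j + 1) + 1 by ring,
      zpow_add_one₀ hq ((n : ℤ) + j + 1)]
    exact (mul_div_cancel_right₀ _ hq).symm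
  have e5 : qR q ((n : ℤ) - (j - 1)) = R1 := by rw [hR1]; congr 1; ring
  have e6 : qR q ((n : ℤ) + (j + 1) + 1) = R2 := by rw [hR2]; congr 1; ring
  have e7 : qR q ((n : ℤ) + 1 + j + 1) = R2 := by rw [hR2]; congr 1; ring
  rw [e1, e2, e3, e4, e5, e6, e7]
  have hab : a * b = q ^ (2 * n + 3) := by
    rw [ha, hb, ← zpow_add₀ hq, ← zpow_natCast]
    congr 1; push_cast; ring
  have hP : qP q (2 * (n + 1) + 1) = qP q (2 * n + 1) * (1 - a * b / q) * (1 - a * b) := by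
    rw [show 2 * (n + 1) + 1 = 2 * n + 1 + 1 + 1 by ring, qP_succ, qP_succ, hab]
    have : q ^ (2 * n + 3) / q = q ^ (2 * n + 1 + 1) := by
      rw [show 2 * n + 3 = 2 * n + 1 + 1 + 1 by ring, pow_succ]; field_simp
    rw [this]
  have h22 : (q ^ (n + 1)) ^ 2 = a * b / q := by
    rw [hab, show 2 * n + 3 = (n + 1) * 2 + 1 by ring, pow_succ q ((n + 1) * 2), pow_mul q]
    exact (mul_div_cancel_right₀ _ hq).symm
  rw [hP, h22]
  field_simp
  ring

omit h0 h1 in
lemma qB_eq_zero_of_gt (n : ℕ) (j : ℤ) (hj : (n : ℤ) < j) : qB q n j = 0 := by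
  unfold qB
  have : qR q ((n : ℤ) - j) = 0 := by unfold qR; rw [if_pos (by omega)]
  rw [this]; ring

omit h0 h1 in
lemma qB_eq_zero_of_lt (n : ℕ) (j : ℤ) (hj : j < -(n : ℤ) - 1) : qB q n j = 0 := by
  unfold qB
  have : qR q ((n : ℤ) + j + 1) = 0 := by unfold qR; rw [if_pos (by omega)]
  rw [this]; ring

omit h0 h1 in
lemma summable_qB (n : ℕ) (g : ℤ → ℝ) : Summable fun j : ℤ => g j * qB q n j := by
  apply summable_of_hasFiniteSupport
  apply (Set.finite_Icc (-(n : ℤ) - 1) n).subset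
  intro j hj
  rw [Function.mem_support] at hj
  by_contra hc
  apply hj
  rw [Set.mem_Icc, not_and_or, not_le, not_le] at hc
  rcases hc with hc | hc
  · rw [qB_eq_zero_of_lt n j hc, mul_zero]
  · rw [qB_eq_zero_of_gt n j hc, mul_zero]

omit h1 in
lemma qc_succ (j : ℤ) :
    qc q (j + 1) = -((-1 : ℝ) ^ j * (2 * j + 3) * q ^ (j * (j + 1) / 2)) * (q ^ j * q) := by
  unfold qc
  have e : (j + 1) * (j + 1 + 1) / 2 = j * (j + 1) / 2 + (j + 1) := by
    have : (j + 1) * (j + 1 + 1) = j * (j + 1) + (j + 1) * 2 := by ring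
    rw [this, Int.add_mul_ediv_right _ _ (by norm_num)]
  rw [e, zpow_add₀ h0.ne', zpow_add_one₀ (by norm_num : (-1 : ℝ) ≠ 0), zpow_add_one₀ h0.ne']
  push_cast
  ring

omit h1 in
lemma qc_pred (j : ℤ) :
    qc q (j - 1) * q ^ j = -((-1 : ℝ) ^ j * (2 * j - 1) * q ^ (j * (j + 1) / 2)) := by
  have h := qc_succ h0 (j - 1)
  unfold qc
  have e : j * (j + 1) / 2 = (j - 1) * (j - 1 + 1) / 2 + j := by
    have : j * (j + 1) = (j - 1) * (j - 1 + 1) + j * 2 := by ring
    rw [this, Int.add_mul_ediv_right _ _ (by norm_num)]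
  rw [e, zpow_add₀ h0.ne', zpow_sub_one₀ (by norm_num : (-1 : ℝ) ≠ 0)]
  push_cast
  ring

/-- the finite sum -/
lemma tsum_qB_succ (n : ℕ) :
    ∑' j : ℤ, qc q j * qB q (n + 1) j = (1 - q ^ (n + 1)) ^ 2 * ∑' j : ℤ, qc q j * qB q n j := by
  have hq : q ≠ 0 := h0.ne'
  have s1 : Summable fun j : ℤ => (qc q (j + 1) * q ^ ((n : ℤ) - j)) * qB q n j :=
    summable_qB n _
  have s2 : Summable fun j : ℤ => (qc q j * (1 + (q ^ (n + 1)) ^ 2)) * qB q n j :=
    summable_qB n _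
  have s3 : Summable fun j : ℤ => (qc q (j - 1) * q ^ ((n : ℤ) + 1 + j)) * qB q n j :=
    summable_qB n _
  have s1' : Summable fun j : ℤ => (qc q j * q ^ ((n : ℤ) + 1 - j)) * qB q n (j - 1) := by
    rw [← (Equiv.addRight (1 : ℤ)).summable_iff]
    convert s1 using 2 with j
    simp only [Function.comp, Equiv.coe_addRight]
    rw [show (n : ℤ) + 1 - (j + 1) = n - j by ring, add_sub_cancel_right]
  have s3' : Summable fun j : ℤ => (qc q j * q ^ ((n : ℤ) + 2 + j)) * qB q n (j + 1) := by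
    rw [← (Equiv.addRight (-1 : ℤ)).summable_iff]
    convert s3 using 2 with j
    simp only [Function.comp, Equiv.coe_addRight]
    rw [show (n : ℤ) + 2 + (j + -1) = n + 1 + j by ring, neg_add_cancel_right, ← sub_eq_add_neg]
  have t1 : ∑' j : ℤ, (qc q j * q ^ ((n : ℤ) + 1 - j)) * qB q n (j - 1)
      = ∑' j : ℤ, (qc q (j + 1) * q ^ ((n : ℤ) - j)) * qB q n j := by
    rw [← (Equiv.addRight (1 : ℤ)).tsum_eq]
    apply tsum_congr
    intro j
    simp only [Equiv.coe_addRight]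
    rw [show (n : ℤ) + 1 - (j + 1) = n - j by ring, add_sub_cancel_right]
  have t3 : ∑' j : ℤ, (qc q j * q ^ ((n : ℤ) + 2 + j)) * qB q n (j + 1)
      = ∑' j : ℤ, (qc q (j - 1) * q ^ ((n : ℤ) + 1 + j)) * qB q n j := by
    rw [← (Equiv.addRight (-1 : ℤ)).tsum_eq]
    apply tsum_congr
    intro j
    simp only [Equiv.coe_addRight]
    rw [show (n : ℤ) + 2 + (j + -1) = n + 1 + j by ring, neg_add_cancel_right, ← sub_eq_add_neg]
  calc ∑' j : ℤ, qc q j * qB q (n + 1) j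
      = ∑' j : ℤ, ((qc q j * q ^ ((n : ℤ) + 1 - j)) * qB q n (j - 1)
          + (qc q j * (1 + (q ^ (n + 1)) ^ 2)) * qB q n j
          + (qc q j * q ^ ((n : ℤ) + 2 + j)) * qB q n (j + 1)) := by
        apply tsum_congr
        intro j
        rw [qB_rec h0 h1]
        ring
    _ = ∑' j : ℤ, (qc q (j + 1) * q ^ ((n : ℤ) - j)) * qB q n j
          + ∑' j : ℤ, (qc q j * (1 + (q ^ (n + 1)) ^ 2)) * qB q n j
          + ∑' j : ℤ, (qc q (j - 1) * q ^ ((n : ℤ) + 1 + j)) * qB q n j := by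
        rw [(s1'.add s2).tsum_add s3', s1'.tsum_add s2, t1, t3]
    _ = ∑' j : ℤ, (1 - q ^ (n + 1)) ^ 2 * (qc q j * qB q n j) := by
        rw [← s1.tsum_add s2, ← (s1.add s2).tsum_add s3]
        apply tsum_congr
        intro j
        have h3 : qc q (j - 1) * q ^ ((n : ℤ) + 1 + j)
            = -((-1 : ℝ) ^ j * (2 * j - 1) * q ^ (j * (j + 1) / 2)) * q ^ (n + 1) := by
          rw [← qc_pred h0, zpow_add₀ hq, show ((n : ℤ) + 1) = ((n + 1 : ℕ) : ℤ) by push_cast; ring,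
            zpow_natCast]
          ring
        have h2 : qc q (j + 1) * q ^ ((n : ℤ) - j)
            = -((-1 : ℝ) ^ j * (2 * j + 3) * q ^ (j * (j + 1) / 2)) * q ^ (n + 1) := by
          rw [qc_succ h0, zpow_sub₀ hq, zpow_natCast]
          have : q ^ j ≠ 0 := zpow_ne_zero _ hq
          field_simp
          ring
        rw [h2, h3]
        unfold qc
        ring
    _ = _ := tsum_mul_left

lemma tsum_qB (n : ℕ) : ∑' j : ℤ, qc q j * qB q n j = 2 * qP q n ^ 2 := by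
  induction n with
  | zero =>
    rw [tsum_eq_sum (s := {0, -1})]
    · rw [Finset.sum_pair (by norm_num)]
      have h := one_sub_pow_pos h0 h1 0
      simp only [zero_add, pow_one] at h
      have e1 : qB q 0 0 = 1 := by
        unfold qB qR
        simp [qP]
        field_simp
      have e2 : qB q 0 (-1) = 1 := by
        unfold qB qR
        simp [qP]
        field_simp
      rw [e1, e2]
      simp [qc, qP]
      try norm_num
    · intro j hj
      simp only [Finset.mem_insert, Finset.mem_singleton, not_or] at hj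
      rcases lt_or_ge 0 j with h | h
      · rw [qB_eq_zero_of_gt 0 j (by simpa using h), mul_zero]
      · rw [qB_eq_zero_of_lt 0 j (by push_cast; omega), mul_zero]
  | succ n ih =>
    rw [tsum_qB_succ h0 h1, ih, qP_succ]
    ring


/-! ### The limit -/

lemma summable_neg_pow : Summable fun k : ℕ => -q ^ (k + 1) := by
  have := (summable_geometric_of_lt_one h0.le h1).mul_right q
  simp only [← pow_succ] at this
  exact this.neg

lemma summable_log_one_sub : Summable fun k : ℕ => Real.log (1 - q ^ (k + 1)) := by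
  have := Real.summable_log_one_add_of_summable (summable_neg_pow h0 h1)
  simpa only [← sub_eq_add_neg] using this

lemma multipliable_one_sub_pow : Multipliable fun k : ℕ => 1 - q ^ (k + 1) :=
  Real.multipliable_of_summable_log (one_sub_pow_pos h0 h1) (summable_log_one_sub h0 h1)

lemma tprod_pos : 0 < ∏' k : ℕ, (1 - q ^ (k + 1)) := by
  rw [← Real.rexp_tsum_eq_tprod (one_sub_pow_pos h0 h1) (summable_log_one_sub h0 h1)]
  exact Real.exp_pos _

lemma tendsto_qP : Tendsto (qP q) atTop (𝓝 (∏' k : ℕ, (1 - q ^ (k + 1)))) :=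
  (multipliable_one_sub_pow h0 h1).hasProd.tendsto_prod_nat

lemma qP_antitone : Antitone (qP q) := by
  apply antitone_nat_of_succ_le
  intro m
  rw [qP_succ]
  have h2 := qP_pos h0 h1 m
  have h3 := pow_pos h0 (m + 1)
  nlinarith

lemma tprod_le_qP (m : ℕ) : ∏' k : ℕ, (1 - q ^ (k + 1)) ≤ qP q m :=
  (qP_antitone h0 h1).le_of_tendsto (tendsto_qP h0 h1) m

lemma qR_nonneg (m : ℤ) : 0 ≤ qR q m := by
  unfold qR
  split_ifs
  · exact le_rfl
  · exact (inv_pos.2 (qP_pos h0 h1 _)).le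

lemma qR_le (m : ℤ) : qR q m ≤ (∏' k : ℕ, (1 - q ^ (k + 1)))⁻¹ := by
  unfold qR
  split_ifs
  · exact (inv_pos.2 (tprod_pos h0 h1)).le
  · exact inv_anti₀ (tprod_pos h0 h1) (tprod_le_qP h0 h1 _)

lemma tendsto_qR (f : ℕ → ℤ) (hf : Tendsto f atTop atTop) :
    Tendsto (fun n => qR q (f n)) atTop (𝓝 (∏' k : ℕ, (1 - q ^ (k + 1)))⁻¹) := by
  have h2 : Tendsto (fun n => (f n).toNat) atTop atTop := by
    rw [tendsto_atTop_atTop] at hf ⊢
    intro b
    obtain ⟨N, hN⟩ := hf b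
    exact ⟨N, fun n hn => by have := hN n hn; omega⟩
  have h3 := ((tendsto_qP h0 h1).inv₀ (tprod_pos h0 h1).ne').comp h2
  refine h3.congr' ?_
  filter_upwards [hf.eventually_ge_atTop 0] with n hn
  unfold qR
  rw [if_neg (by omega)]
  rfl

lemma tendsto_qB (j : ℤ) :
    Tendsto (fun n => qB q n j) atTop (𝓝 (∏' k : ℕ, (1 - q ^ (k + 1)))⁻¹) := by
  have hL := (tprod_pos h0 h1).ne'
  have a1 : Tendsto (fun n : ℕ => qP q (2 * n + 1)) atTop (𝓝 (∏' k : ℕ, (1 - q ^ (k + 1)))) :=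
    (tendsto_qP h0 h1).comp (tendsto_atTop_mono (fun n => (by omega : n ≤ 2 * n + 1)) tendsto_id)
  have a2 : Tendsto (fun n : ℕ => qR q ((n : ℤ) - j)) atTop
      (𝓝 (∏' k : ℕ, (1 - q ^ (k + 1)))⁻¹) :=
    tendsto_qR h0 h1 _ (tendsto_atTop_add_const_right _ (-j) tendsto_natCast_atTop_atTop)
  have a3 : Tendsto (fun n : ℕ => qR q ((n : ℤ) + j + 1)) atTop
      (𝓝 (∏' k : ℕ, (1 - q ^ (k + 1)))⁻¹) :=
    tendsto_qR h0 h1 _ (tendsto_atTop_add_const_right _ 1
      (tendsto_atTop_add_const_right _ j tendsto_natCast_atTop_atTop))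
  have := a1.mul (a2.mul a3)
  have e : (∏' k : ℕ, (1 - q ^ (k + 1))) * ((∏' k : ℕ, (1 - q ^ (k + 1)))⁻¹ *
      (∏' k : ℕ, (1 - q ^ (k + 1)))⁻¹) = (∏' k : ℕ, (1 - q ^ (k + 1)))⁻¹ := by
    field_simp
  rw [e] at this
  exact this

/-- `(2n+1) q^(n(n+1)/2)` is summable. -/
lemma summable_cube : Summable fun n : ℕ => (2 * (n : ℝ) + 1) * q ^ (n * (n + 1) / 2) := by
  have s : Summable fun n : ℕ => (n : ℝ) ^ 1 * q ^ n :=
    summable_pow_mul_geometric_of_norm_lt_one 1 (by rw [Real.norm_of_nonneg h0.le]; exact h1)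
  have s2 := (s.mul_left 2).add (summable_geometric_of_lt_one h0.le h1)
  refine Summable.of_nonneg_of_le (fun n => by positivity) (fun n => ?_) s2
  have : q ^ (n * (n + 1) / 2) ≤ q ^ n := by
    apply pow_le_pow_of_le_one h0.le h1.le
    rcases Nat.eq_zero_or_pos n with rfl | hn
    · simp
    · rw [Nat.le_div_iff_mul_le (by norm_num)]
      nlinarith
  have h2 : (0 : ℝ) ≤ 2 * (n : ℝ) + 1 := by positivity
  nlinarith [mul_le_mul_of_nonneg_left this h2]

omit h0 h1 in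
lemma qc_natCast (n : ℕ) : qc q (n : ℤ) = (-1) ^ n * (2 * (n : ℝ) + 1) * q ^ (n * (n + 1) / 2) := by
  unfold qc
  have : ((n : ℤ) * (n + 1) / 2) = ((n * (n + 1) / 2 : ℕ) : ℤ) := by push_cast; rfl
  rw [this, zpow_natCast, zpow_natCast]
  push_cast
  rfl

omit h0 h1 in
lemma qc_neg (n : ℕ) : qc q (-((n : ℤ) + 1)) = qc q n := by
  unfold qc
  have e : -((n : ℤ) + 1) * (-((n : ℤ) + 1) + 1) / 2 = (n : ℤ) * (n + 1) / 2 := by
    congr 1; ring
  have e2 : (-1 : ℝ) ^ (-((n : ℤ) + 1)) = -(-1 : ℝ) ^ (n : ℤ) := by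
    rw [zpow_neg, zpow_add_one₀ (by norm_num : (-1 : ℝ) ≠ 0), zpow_natCast]
    rcases neg_one_pow_eq_or ℝ n with h | h <;> rw [h] <;> norm_num
  rw [e, e2]
  push_cast
  ring

omit h1 in
lemma abs_qc_natCast (n : ℕ) : |qc q (n : ℤ)| = (2 * (n : ℝ) + 1) * q ^ (n * (n + 1) / 2) := by
  rw [qc_natCast, abs_mul, abs_mul, abs_pow, abs_neg, abs_one, one_pow, one_mul,
    abs_of_nonneg (by positivity : (0 : ℝ) ≤ 2 * (n : ℝ) + 1), abs_of_nonneg (by positivity)]

lemma summable_abs_qc : Summable fun j : ℤ => |qc q j| := by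
  apply Summable.of_nat_of_neg_add_one
  · simp only [abs_qc_natCast h0]
    exact summable_cube h0 h1
  · simp only [qc_neg, abs_qc_natCast h0]
    exact summable_cube h0 h1

lemma tsum_qc : ∑' j : ℤ, qc q j
    = 2 * ∑' n : ℕ, (-1) ^ n * (2 * (n : ℝ) + 1) * q ^ (n * (n + 1) / 2) := by
  have s := (summable_abs_qc h0 h1).of_abs
  have s1 : Summable fun n : ℕ => qc q (n : ℤ) := s.comp_injective Nat.cast_injective
  rw [tsum_of_nat_of_neg_add_one s1 (by simpa only [qc_neg] using s1)]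
  simp only [qc_neg, qc_natCast]
  ring

/-- **Jacobi's identity**: `(∏ (1 - q^(n+1)))^3 = ∑ (-1)^n (2n+1) q^(n(n+1)/2)`, `0 < q < 1`. -/
theorem jacobi_cube : (∏' k : ℕ, (1 - q ^ (k + 1))) ^ 3
    = ∑' n : ℕ, (-1) ^ n * (2 * (n : ℝ) + 1) * q ^ (n * (n + 1) / 2) := by
  set L := ∏' k : ℕ, (1 - q ^ (k + 1)) with hL
  have hL0 : 0 < L := tprod_pos h0 h1
  have lim1 : Tendsto (fun n : ℕ => ∑' j : ℤ, qc q j * qB q n j) atTop
      (𝓝 (∑' j : ℤ, qc q j * L⁻¹)) := by
    refine tendsto_tsum_of_dominated_convergence (bound := fun j => |qc q j| * (L⁻¹ * L⁻¹)) ?_ ?_ ?_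
    · exact (summable_abs_qc h0 h1).mul_right _
    · intro j
      exact (tendsto_qB h0 h1 j).const_mul _
    · filter_upwards with n
      intro j
      rw [Real.norm_eq_abs, abs_mul]
      apply mul_le_mul_of_nonneg_left _ (abs_nonneg _)
      unfold qB
      have r1 := qR_nonneg h0 h1 ((n : ℤ) - j)
      have r2 := qR_nonneg h0 h1 ((n : ℤ) + j + 1)
      have r3 := qR_le h0 h1 ((n : ℤ) - j)
      have r4 := qR_le h0 h1 ((n : ℤ) + j + 1)
      have p1 := qP_pos h0 h1 (2 * n + 1)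
      have p2 := qP_le_one h0 h1 (2 * n + 1)
      rw [abs_of_nonneg (mul_nonneg p1.le (mul_nonneg r1 r2))]
      calc qP q (2 * n + 1) * (qR q ((n : ℤ) - j) * qR q ((n : ℤ) + j + 1))
          ≤ 1 * (qR q ((n : ℤ) - j) * qR q ((n : ℤ) + j + 1)) :=
            mul_le_mul_of_nonneg_right p2 (mul_nonneg r1 r2)
        _ = qR q ((n : ℤ) - j) * qR q ((n : ℤ) + j + 1) := one_mul _
        _ ≤ L⁻¹ * L⁻¹ := mul_le_mul r3 r4 r2 (inv_pos.2 hL0).le
  have lim2 : Tendsto (fun n : ℕ => ∑' j : ℤ, qc q j * qB q n j) atTop (𝓝 (2 * L ^ 2)) := by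
    simp only [tsum_qB h0 h1]
    exact ((tendsto_qP h0 h1).pow 2).const_mul 2
  have e := tendsto_nhds_unique lim1 lim2
  rw [tsum_mul_right, tsum_qc h0 h1] at e
  have : (∑' n : ℕ, (-1) ^ n * (2 * (n : ℝ) + 1) * q ^ (n * (n + 1) / 2)) = L ^ 3 := by
    field_simp at e
    linarith
  exact this.symm

end

end Pool.Agent.Lib.BM.Eta
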