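import Pool.Agent.Lib.BM.EtaCube

/-! # The Mellin transform of `(η(3y)η(5y))^3 + (η(y)η(15y))^3` at `s = 4` as a double sum -/

set_option autoImplicit false

open Filter Topology MeasureTheory Set

namespace Pool.Agent.Lib.BM.Eta

/-- `(-1)^n (2n+1)` -/
noncomputable def sg (n : ℕ) : ℝ := (-1) ^ n * (2 * (n : ℝ) + 1)

lemma abs_sg (n : ℕ) : |sg n| = 2 * (n : ℝ) + 1 := by
  unfold sg
  rw [abs_mul, abs_pow, abs_neg, abs_one, one_pow, one_mul,
    abs_of_nonneg (by positivity : (0 : ℝ) ≤ 2 * (n : ℝ) + 1)]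

/-- the eta product on the imaginary axis -/
noncomputable def etaR (y : ℝ) : ℝ := Real.exp (-(2 * Real.pi * y / 24)) *
          ∏' n : ℕ, (1 - Real.exp (-(2 * Real.pi * ((n : ℝ) + 1) * y)))

lemma exp_eq_pow (y : ℝ) (n : ℕ) :
    Real.exp (-(2 * Real.pi * ((n : ℝ) + 1) * y)) = (Real.exp (-(2 * Real.pi * y))) ^ (n + 1) := by
  rw [← Real.exp_nat_mul]
  congr 1
  push_cast
  ring

lemma exp_lt_one' {y : ℝ} (hy : 0 < y) : Real.exp (-(2 * Real.pi * y)) < 1 := by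
  rw [Real.exp_lt_one_iff]
  have := Real.pi_pos
  have : 0 < 2 * Real.pi * y := by positivity
  linarith

lemma term_eq (y : ℝ) (n : ℕ) :
    Real.exp (-(2 * Real.pi * y / 24)) ^ 3 *
      ((-1) ^ n * (2 * (n : ℝ) + 1) * Real.exp (-(2 * Real.pi * y)) ^ (n * (n + 1) / 2))
      = sg n * Real.exp (-(Real.pi / 4 * (2 * (n : ℝ) + 1) ^ 2 * y)) := by
  unfold sg
  have h2 : (2 : ℝ) * ((n * (n + 1) / 2 : ℕ) : ℝ) = (n : ℝ) * (n + 1) := by
    have : 2 * (n * (n + 1) / 2) = n * (n + 1) := Nat.mul_div_cancel' (Nat.even_mul_succ_self n).two_dvd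
    exact_mod_cast this
  rw [← Real.exp_nat_mul, ← Real.exp_nat_mul]
  have e : Real.exp (-(Real.pi / 4 * (2 * (n : ℝ) + 1) ^ 2 * y))
      = Real.exp ((3 : ℕ) * -(2 * Real.pi * y / 24)) *
        Real.exp (((n * (n + 1) / 2 : ℕ) : ℝ) * -(2 * Real.pi * y)) := by
    rw [← Real.exp_add]
    congr 1
    push_cast
    linear_combination (Real.pi * y) * h2
  rw [e]
  push_cast
  ring

lemma summable_eta {y : ℝ} (hy : 0 < y) :
    Summable fun n : ℕ => |sg n| * Real.exp (-(Real.pi / 4 * (2 * (n : ℝ) + 1) ^ 2 * y)) := by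
  have s := (summable_cube (Real.exp_pos (-(2 * Real.pi * y))) (exp_lt_one' hy)).mul_left
    (Real.exp (-(2 * Real.pi * y / 24)) ^ 3)
  refine s.congr (fun n => ?_)
  have h := congrArg abs (term_eq y n)
  rw [abs_mul, abs_mul, abs_mul, abs_mul, abs_pow (-1 : ℝ), abs_neg, abs_one, one_pow, one_mul,
    abs_of_nonneg (by positivity : (0 : ℝ) ≤ 2 * (n : ℝ) + 1),
    abs_of_nonneg (by positivity : (0 : ℝ) ≤ Real.exp (-(2 * Real.pi * y / 24)) ^ 3),
    abs_of_nonneg (by positivity : (0 : ℝ) ≤ Real.exp (-(2 * Real.pi * y)) ^ (n * (n + 1) / 2)),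
    abs_of_nonneg (Real.exp_pos (-(Real.pi / 4 * (2 * (n : ℝ) + 1) ^ 2 * y))).le] at h
  exact h

/-- Jacobi: `η(y)^3 = ∑ (-1)^n (2n+1) exp(-π(2n+1)²y/4)`. -/
theorem etaR_cube {y : ℝ} (hy : 0 < y) :
    etaR y ^ 3 = ∑' n : ℕ, sg n * Real.exp (-(Real.pi / 4 * (2 * (n : ℝ) + 1) ^ 2 * y)) := by
  unfold etaR
  simp only [exp_eq_pow]
  rw [mul_pow, jacobi_cube (Real.exp_pos _) (exp_lt_one' hy), ← tsum_mul_left]
  exact tsum_congr fun n => term_eq y n

/-- the general double sum -/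
theorem etaR_prod_cube {y : ℝ} (hy : 0 < y) {A B : ℝ} (hA : 0 < A) (hB : 0 < B) :
    HasSum (fun p : ℕ × ℕ => sg p.1 * sg p.2 *
      Real.exp (-(Real.pi / 4 * (A * (2 * (p.1 : ℝ) + 1) ^ 2 + B * (2 * (p.2 : ℝ) + 1) ^ 2) * y)))
      ((etaR (A * y) * etaR (B * y)) ^ 3) := by
  have sA := summable_eta (mul_pos hA hy)
  have sB := summable_eta (mul_pos hB hy)
  have hn : ∀ C : ℝ, (fun n : ℕ => ‖sg n * Real.exp (-(Real.pi / 4 * (2 * (n : ℝ) + 1) ^ 2 * (C * y)))‖)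
      = fun n : ℕ => |sg n| * Real.exp (-(Real.pi / 4 * (2 * (n : ℝ) + 1) ^ 2 * (C * y))) := by
    intro C
    ext n
    rw [Real.norm_eq_abs, abs_mul, abs_of_nonneg (Real.exp_pos _).le]
  have h1 := summable_mul_of_summable_norm (by rw [hn A]; exact sA) (by rw [hn B]; exact sB)
  have h2 := tsum_mul_tsum_of_summable_norm (by rw [hn A]; exact sA) (by rw [hn B]; exact sB)
  rw [mul_pow, etaR_cube (mul_pos hA hy), etaR_cube (mul_pos hB hy), h2]
  refine h1.hasSum.congr_fun ?_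
  intro p
  rw [show Real.exp (-(Real.pi / 4 * (A * (2 * (p.1 : ℝ) + 1) ^ 2 + B * (2 * (p.2 : ℝ) + 1) ^ 2) * y))
    = Real.exp (-(Real.pi / 4 * (2 * (p.1 : ℝ) + 1) ^ 2 * (A * y))) *
      Real.exp (-(Real.pi / 4 * (2 * (p.2 : ℝ) + 1) ^ 2 * (B * y))) by
    rw [← Real.exp_add]; congr 1; ring]
  ring

lemma integral_cube {c : ℝ} (hc : 0 < c) :
    ∫ y in Ioi (0 : ℝ), Real.exp (-(c * y)) * y ^ 3 = 6 / c ^ 4 := by
  have h := Real.integral_rpow_mul_exp_neg_mul_Ioi (a := 4) (r := c) (by norm_num) hc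
  have e : ∀ y : ℝ, y ^ ((4 : ℝ) - 1) * Real.exp (-(c * y)) = Real.exp (-(c * y)) * y ^ 3 := by
    intro y
    rw [show (4 : ℝ) - 1 = ((3 : ℕ) : ℝ) by norm_num, Real.rpow_natCast]
    ring
  simp only [e] at h
  rw [h, show (4 : ℝ) = ((3 : ℕ) : ℝ) + 1 by norm_num, Real.Gamma_nat_eq_factorial,
    show ((3 : ℕ) : ℝ) + 1 = ((4 : ℕ) : ℝ) by norm_num, Real.rpow_natCast]
  simp [Nat.factorial]
  ring

lemma integrable_cube {c : ℝ} (hc : 0 < c) :
    IntegrableOn (fun y : ℝ => Real.exp (-(c * y)) * y ^ 3) (Ioi 0) := by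
  have h := Real.GammaIntegral_convergent (s := 4) (by norm_num)
  by_contra hcon
  have := integral_undef hcon
  rw [integral_cube hc] at this
  have : 0 < 6 / c ^ 4 := by positivity
  linarith

/-- the weight of the double sum with quadratic form `A a² + B b²` -/
noncomputable def wt (A B : ℝ) (p : ℕ × ℕ) : ℝ :=
  A * (2 * (p.1 : ℝ) + 1) ^ 2 + B * (2 * (p.2 : ℝ) + 1) ^ 2

lemma wt_pos {A B : ℝ} (hA : 0 < A) (hB : 0 < B) (p : ℕ × ℕ) : 0 < wt A B p := by
  unfold wt; positivity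

lemma summable_wt {A B : ℝ} (hA : 1 ≤ A) (hB : 1 ≤ B) :
    Summable fun p : ℕ × ℕ => |sg p.1 * sg p.2| / wt A B p ^ 4 := by
  have s1 : Summable fun n : ℕ => 1 / (2 * (n : ℝ) + 1) ^ 2 := by
    have h := (Real.summable_nat_pow_inv (p := 2)).2 (by norm_num)
    have h' := (summable_nat_add_iff 1).2 h
    refine Summable.of_nonneg_of_le (fun n => by positivity) (fun n => ?_) h'
    rw [one_div]
    push_cast
    apply inv_anti₀ (by positivity)
    have : (0 : ℝ) ≤ n := n.cast_nonneg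
    nlinarith
  have s2 := s1.mul_of_nonneg s1 (fun n => by positivity) (fun n => by positivity)
  refine Summable.of_nonneg_of_le (fun p => by have := wt_pos (by linarith : 0 < A) (by linarith : 0 < B) p; positivity)
    (fun p => ?_) s2
  rw [abs_mul, abs_sg, abs_sg]
  set a : ℝ := 2 * (p.1 : ℝ) + 1 with ha
  set b : ℝ := 2 * (p.2 : ℝ) + 1 with hb
  have ha1 : 1 ≤ a := by rw [ha]; have : (0 : ℝ) ≤ p.1 := Nat.cast_nonneg _; linarith
  have hb1 : 1 ≤ b := by rw [hb]; have : (0 : ℝ) ≤ p.2 := Nat.cast_nonneg _; linarith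
  have hw : a * b ≤ wt A B p := by
    unfold wt
    nlinarith [sq_nonneg (a - b), sq_nonneg a, sq_nonneg b, mul_le_mul_of_nonneg_right hA (sq_nonneg a),
      mul_le_mul_of_nonneg_right hB (sq_nonneg b), mul_pos (by linarith : 0 < a) (by linarith : 0 < b)]
  have hab : 1 ≤ a * b := one_le_mul_of_one_le_of_one_le ha1 hb1
  calc a * b / wt A B p ^ 4 ≤ a * b / (a * b) ^ 4 := by
        apply div_le_div_of_nonneg_left (by linarith) (by positivity)
        exact pow_le_pow_left₀ (by linarith) hw 4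
    _ = 1 / (a * b) ^ 3 := by field_simp
    _ ≤ 1 / (a * b) ^ 2 := by
        apply one_div_le_one_div_of_le (by positivity)
        exact pow_le_pow_right₀ hab (by norm_num)
    _ = 1 / a ^ 2 * (1 / b ^ 2) := by rw [mul_pow]; field_simp

/-- the summand -/
noncomputable def Fm (A B : ℝ) (p : ℕ × ℕ) (y : ℝ) : ℝ :=
  sg p.1 * sg p.2 * (Real.exp (-(Real.pi / 4 * wt A B p * y)) * y ^ 3)

lemma Fm_integrable {A B : ℝ} (hA : 0 < A) (hB : 0 < B) (p : ℕ × ℕ) :
    Integrable (Fm A B p) (volume.restrict (Ioi 0)) := by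
  have hpi := Real.pi_pos
  have := wt_pos hA hB p
  exact (integrable_cube (by positivity : 0 < Real.pi / 4 * wt A B p)).const_mul _

lemma Fm_integral {A B : ℝ} (hA : 0 < A) (hB : 0 < B) (p : ℕ × ℕ) :
    ∫ y in Ioi (0 : ℝ), Fm A B p y = sg p.1 * sg p.2 * (6 / (Real.pi / 4 * wt A B p) ^ 4) := by
  have hpi := Real.pi_pos
  have := wt_pos hA hB p
  rw [← integral_cube (by positivity : 0 < Real.pi / 4 * wt A B p), ← integral_const_mul]
  rfl

lemma Fm_integral_norm {A B : ℝ} (hA : 0 < A) (hB : 0 < B) (p : ℕ × ℕ) :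
    ∫ y in Ioi (0 : ℝ), ‖Fm A B p y‖ = |sg p.1 * sg p.2| * (6 / (Real.pi / 4 * wt A B p) ^ 4) := by
  have hpi := Real.pi_pos
  have := wt_pos hA hB p
  rw [← integral_cube (by positivity : 0 < Real.pi / 4 * wt A B p), ← integral_const_mul]
  apply setIntegral_congr_fun measurableSet_Ioi
  intro y hy
  have hy' : (0 : ℝ) < y := hy
  have h : 0 ≤ Real.exp (-(Real.pi / 4 * wt A B p * y)) * y ^ 3 := by positivity
  simp only [Fm, Real.norm_eq_abs]
  rw [abs_mul (sg p.1 * sg p.2), abs_of_nonneg h]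

lemma Fm_summable {A B : ℝ} (hA : 1 ≤ A) (hB : 1 ≤ B) :
    Summable fun p => ∫ y in Ioi (0 : ℝ), ‖Fm A B p y‖ := by
  have hA0 : 0 < A := by linarith
  have hB0 : 0 < B := by linarith
  have hpi := Real.pi_pos
  have := (summable_wt hA hB).mul_left (6 / (Real.pi / 4) ^ 4)
  refine this.congr fun p => ?_
  have := (wt_pos hA0 hB0 p).ne'
  rw [Fm_integral_norm hA0 hB0, mul_pow]
  field_simp

lemma Fm_hasSum {A B : ℝ} (hA : 0 < A) (hB : 0 < B) {y : ℝ} (hy : 0 < y) :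
    HasSum (fun p => Fm A B p y) ((etaR (A * y) * etaR (B * y)) ^ 3 * y ^ 3) := by
  have h := (etaR_prod_cube hy hA hB).mul_right (y ^ 3)
  refine h.congr_fun ?_
  intro p
  simp only [Fm, wt]
  ring

/-- **The Mellin transform at `s = 4` as an absolutely convergent double sum.** -/
theorem mellin_four :
    (2 * Real.pi) ^ 4 / Real.Gamma 4 * ∫ y in Ioi (0 : ℝ),
        ((etaR (3 * y) * etaR (5 * y)) ^ 3 + (etaR y * etaR (15 * y)) ^ 3) * y ^ 3
      = ∑' p : ℕ × ℕ, sg p.1 * sg p.2 * (8 ^ 4 / wt 3 5 p ^ 4)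
        + ∑' p : ℕ × ℕ, sg p.1 * sg p.2 * (8 ^ 4 / wt 1 15 p ^ 4) := by
  have hpi := Real.pi_pos
  have i1 := Fm_summable (by norm_num : (1 : ℝ) ≤ 3) (by norm_num : (1 : ℝ) ≤ 5)
  have i2 := Fm_summable (le_refl (1 : ℝ)) (by norm_num : (1 : ℝ) ≤ 15)
  have int1 := Fm_integrable (by norm_num : (0 : ℝ) < 3) (by norm_num : (0 : ℝ) < 5)
  have int2 := Fm_integrable (by norm_num : (0 : ℝ) < 1) (by norm_num : (0 : ℝ) < 15)
  have hint : ∀ p, Integrable (fun y => Fm 3 5 p y + Fm 1 15 p y) (volume.restrict (Ioi 0)) :=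
    fun p => (int1 p).add (int2 p)
  have hsum : Summable fun p => ∫ y in Ioi (0 : ℝ), ‖Fm 3 5 p y + Fm 1 15 p y‖ := by
    refine Summable.of_nonneg_of_le (fun p => integral_nonneg fun y => norm_nonneg _) (fun p => ?_)
      (i1.add i2)
    rw [← integral_add (int1 p).norm (int2 p).norm]
    exact integral_mono (hint p).norm ((int1 p).norm.add (int2 p).norm) fun y => norm_add_le _ _
  have key := hasSum_integral_of_summable_integral_norm hint hsum
  have hts : EqOn (fun y => ∑' p, (Fm 3 5 p y + Fm 1 15 p y)) (fun y =>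
      ((etaR (3 * y) * etaR (5 * y)) ^ 3 + (etaR y * etaR (15 * y)) ^ 3) * y ^ 3) (Ioi (0 : ℝ)) := by
    intro y hy
    have h1 := Fm_hasSum (by norm_num : (0 : ℝ) < 3) (by norm_num : (0 : ℝ) < 5) hy
    have h2 := Fm_hasSum (by norm_num : (0 : ℝ) < 1) (by norm_num : (0 : ℝ) < 15) hy
    rw [one_mul] at h2
    simp only
    rw [(h1.add h2).tsum_eq]
    ring
  rw [setIntegral_congr_fun measurableSet_Ioi hts] at key
  have hval : ∀ p, ∫ y in Ioi (0 : ℝ), (Fm 3 5 p y + Fm 1 15 p y)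
      = sg p.1 * sg p.2 * (6 / (Real.pi / 4 * wt 3 5 p) ^ 4)
        + sg p.1 * sg p.2 * (6 / (Real.pi / 4 * wt 1 15 p) ^ 4) := by
    intro p
    rw [integral_add (int1 p) (int2 p), Fm_integral (by norm_num) (by norm_num),
      Fm_integral (by norm_num) (by norm_num)]
  simp only [hval] at key
  have hG : Real.Gamma 4 = 6 := by
    rw [show (4 : ℝ) = ((3 : ℕ) : ℝ) + 1 by norm_num, Real.Gamma_nat_eq_factorial]
    simp [Nat.factorial]
  have hs : ∀ {A B : ℝ}, 1 ≤ A → 1 ≤ B →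
      Summable fun p : ℕ × ℕ => sg p.1 * sg p.2 * (8 ^ 4 / wt A B p ^ 4) := by
    intro A B hA hB
    have h := ((summable_wt hA hB).mul_left (8 ^ 4))
    refine Summable.of_norm (h.congr fun p => ?_)
    have := wt_pos (by linarith : 0 < A) (by linarith : 0 < B) p
    rw [Real.norm_eq_abs, abs_mul (sg p.1 * sg p.2), abs_of_nonneg (by positivity : 0 ≤ 8 ^ 4 / wt A B p ^ 4)]
    ring
  rw [← (hs (by norm_num : (1 : ℝ) ≤ 3) (by norm_num : (1 : ℝ) ≤ 5)).tsum_add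
    (hs (le_refl (1 : ℝ)) (by norm_num : (1 : ℝ) ≤ 15)), ← key.tsum_eq, hG, ← tsum_mul_left]
  apply tsum_congr
  intro p
  have w1 := (wt_pos (by norm_num : (0 : ℝ) < 3) (by norm_num : (0 : ℝ) < 5) p).ne'
  have w2 := (wt_pos (by norm_num : (0 : ℝ) < 1) (by norm_num : (0 : ℝ) < 15) p).ne'
  field_simp
  ring

end Pool.Agent.Lib.BM.Eta
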