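import Pool.Agent.Lib.BM.MId

set_option autoImplicit false

/-!
# BM.MCM: evaluations at the CM point `τ₀ = 1/2 + i √15/6`

`M_cm1`: `5 a(τ₀)² = 4 a(2τ₀)²`; `M_cm2`: `5 P(τ₀) = 36 y₀/π + 4 a(τ₀) a(2τ₀) - 4 a(2τ₀)²`. Tools: even and odd
parts of Lambert series at `q` and `-q`, and the transformation of `E₂` under `z ↦ -1/z` (Mathlib).
-/

namespace Pool.Agent.Lib.BM

namespace MCMAux

open LamAux UpperHalfPlane EisensteinSeries

theorem u_zero (q : ℂ) : u q 0 = 0 := by simp [u]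

theorem u_pow (q : ℂ) (m n : ℕ) : u (q ^ m) n = u q (m * n) := by
  simp [u, pow_mul]

/-- Lambert series, summed from 0 (the term at 0 vanishes) -/
noncomputable def LS (w : ℕ → ℂ) (q : ℂ) : ℂ := ∑' n : ℕ, w n * u q n

theorem PG.comp_succ {w : ℕ → ℂ} (hw : PG w) : PG fun n => w (n + 1) := by
  obtain ⟨C, m, hC, h⟩ := hw
  refine ⟨C * 2 ^ m, m, by positivity, fun n => (h (n + 1)).trans ?_⟩
  rw [mul_assoc, ← mul_pow]
  gcongr
  push_cast
  nlinarith [Nat.cast_nonneg (α := ℝ) n]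

theorem PG.comp_two {w : ℕ → ℂ} (hw : PG w) : PG fun n => w (2 * n) := by
  obtain ⟨C, m, hC, h⟩ := hw
  refine ⟨C * 2 ^ m, m, by positivity, fun n => (h (2 * n)).trans ?_⟩
  rw [mul_assoc, ← mul_pow]
  gcongr
  push_cast
  nlinarith [Nat.cast_nonneg (α := ℝ) n]

theorem summable_LS {q : ℂ} (hq : ‖q‖ < 1) {w : ℕ → ℂ} (hw : PG w) :
    Summable fun n : ℕ => w n * u q n := by
  rw [← summable_nat_add_iff 1]
  exact PG.summable hq (PG.comp_succ hw)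

theorem LS_succ {q : ℂ} (hq : ‖q‖ < 1) {w : ℕ → ℂ} (hw : PG w) :
    ∑' n : ℕ, w (n + 1) * u q (n + 1) = LS w q := by
  unfold LS
  rw [(summable_LS hq hw).tsum_eq_zero_add, u_zero]
  simp

theorem LS_split {q : ℂ} (hq : ‖q‖ < 1) {w : ℕ → ℂ} (hw : PG w) :
    LS w q = LS (fun k => w (2 * k)) (q ^ 2) +
      ∑' k : ℕ, w (2 * k + 1) * u q (2 * k + 1) := by
  have h := summable_LS hq hw
  have h1 : Summable fun k : ℕ => w (2 * k) * u q (2 * k) :=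
    h.comp_injective (i := fun k : ℕ => 2 * k) (fun a b hab => by simpa using hab)
  have h2 : Summable fun k : ℕ => w (2 * k + 1) * u q (2 * k + 1) :=
    h.comp_injective (i := fun k : ℕ => 2 * k + 1) (fun a b hab => by simpa using hab)
  have h3 := tsum_even_add_odd (f := fun n : ℕ => w n * u q n) h1 h2
  have h4 : LS (fun k => w (2 * k)) (q ^ 2) = ∑' k : ℕ, w (2 * k) * u q (2 * k) := by
    unfold LS
    simp only [u_pow]
  rw [h4]
  exact h3.symm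

theorem summable_odd {q : ℂ} (hq : ‖q‖ < 1) {w : ℕ → ℂ} (hw : PG w) :
    Summable fun k : ℕ => w (2 * k + 1) * u q (2 * k + 1) :=
  (summable_LS hq hw).comp_injective (i := fun k : ℕ => 2 * k + 1)
    (fun a b hab => by simpa using hab)

theorem norm_sq_lt {q : ℂ} (hq : ‖q‖ < 1) : ‖q ^ 2‖ < 1 := by
  rw [norm_pow]
  exact pow_lt_one₀ (norm_nonneg _) hq two_ne_zero

/-- The values at `q` and at `-q`. -/
theorem LS_add_neg {q : ℂ} (hq : ‖q‖ < 1) {w : ℕ → ℂ} (hw : PG w) :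
    LS w q + LS w (-q) =
      2 * (LS (fun m => w (2 * m)) (q ^ 2) + LS w (q ^ 2) - LS (fun k => w (2 * k)) (q ^ 4)) := by
  have hq' : ‖-q‖ < 1 := by rwa [norm_neg]
  have hq2 := norm_sq_lt hq
  rw [LS_split hq hw, LS_split hq' hw, LS_split hq2 hw]
  have e1 : (-q) ^ 2 = q ^ 2 := by ring
  have e2 : (q ^ 2) ^ 2 = q ^ 4 := by ring
  rw [e1, e2]
  have e3 : ∑' k : ℕ, w (2 * k + 1) * u q (2 * k + 1) + ∑' k : ℕ, w (2 * k + 1) * u (-q) (2 * k + 1)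
      = 2 * ∑' k : ℕ, w (2 * k + 1) * u (q ^ 2) (2 * k + 1) := by
    rw [← (summable_odd hq hw).tsum_add (summable_odd hq' hw), ← tsum_mul_left]
    refine tsum_congr fun k => ?_
    have h1 : 1 - q ^ (2 * k + 1) ≠ 0 := one_sub_ne hq (by omega)
    have h2 : 1 - (-q) ^ (2 * k + 1) ≠ 0 := one_sub_ne hq' (by omega)
    have h3 : 1 - (q ^ 2) ^ (2 * k + 1) ≠ 0 := one_sub_ne hq2 (by omega)
    have e4 : (-q) ^ (2 * k + 1) = - q ^ (2 * k + 1) := (odd_two_mul_add_one k).neg_pow q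
    have e5 : (q ^ 2) ^ (2 * k + 1) = q ^ (2 * k + 1) * q ^ (2 * k + 1) := by
      rw [← pow_mul, ← pow_add]
      congr 1
      ring
    unfold u
    rw [e4] at h2 ⊢
    rw [e5] at h3 ⊢
    rw [sub_neg_eq_add] at h2 ⊢
    generalize q ^ (2 * k + 1) = t at h1 h2 h3 ⊢
    have e6 : 1 - t * t = (1 - t) * (1 + t) := by ring
    rw [e6]
    field_simp
    ring
  linear_combination e3

theorem chi3_two_mul (m : ℕ) : chi3 (2 * m) = - chi3 m := by
  have h : m % 3 = 0 ∨ m % 3 = 1 ∨ m % 3 = 2 := by omega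
  rcases h with h | h | h
  · have h' : (2 * m) % 3 = 0 := by omega
    simp [chi3, h, h']
  · have h' : (2 * m) % 3 = 2 := by omega
    simp [chi3, h, h']
  · have h' : (2 * m) % 3 = 1 := by omega
    simp [chi3, h, h']

theorem abs_chi3_le (n : ℕ) : |chi3 n| ≤ 1 := by
  unfold chi3
  split_ifs <;> simp

theorem PG_chi : PG fun n => ((chi3 n : ℝ) : ℂ) :=
  PG.of_bound (C := 1) fun n => by
    rw [Complex.norm_real]
    exact abs_chi3_le n

theorem aC_eq {q : ℂ} (hq : ‖q‖ < 1) : aC q = 1 + 6 * LS (fun n => ((chi3 n : ℝ) : ℂ)) q := by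
  rw [← LS_succ hq PG_chi]
  rfl

theorem PC_eq {q : ℂ} (hq : ‖q‖ < 1) : PC q = 1 - 24 * LS (fun n => (n : ℂ)) q := by
  rw [← LS_succ hq PG.natCast]
  unfold PC SC
  simp

theorem LS_neg (w : ℕ → ℂ) (q : ℂ) : LS (fun n => - w n) q = - LS w q := by
  unfold LS
  rw [← tsum_neg]
  exact tsum_congr fun n => by ring

theorem LS_mul (c : ℂ) (w : ℕ → ℂ) (q : ℂ) : LS (fun n => c * w n) q = c * LS w q := by
  unfold LS
  rw [← tsum_mul_left]
  exact tsum_congr fun n => by ring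

end MCMAux

open MCMAux LamAux

/-- The cubic theta function at `q` and at `-q`. -/
theorem aC_add_neg {q : ℂ} (hq : ‖q‖ < 1) : aC q + aC (-q) = 2 * aC (q ^ 4) := by
  have hq' : ‖-q‖ < 1 := by rwa [norm_neg]
  have hq4 : ‖q ^ 4‖ < 1 := by
    rw [norm_pow]
    exact pow_lt_one₀ (norm_nonneg _) hq (by norm_num)
  rw [aC_eq hq, aC_eq hq', aC_eq hq4]
  have h := LS_add_neg hq PG_chi
  have e : (fun m : ℕ => ((chi3 (2 * m) : ℝ) : ℂ)) = fun m => - ((chi3 m : ℝ) : ℂ) := by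
    funext m
    rw [chi3_two_mul]
    push_cast
    ring
  rw [e, LS_neg, LS_neg] at h
  linear_combination 6 * h

/-- The Eisenstein series of weight 2 at `q` and at `-q`. -/
theorem PC_add_neg {q : ℂ} (hq : ‖q‖ < 1) : PC q + PC (-q) = 6 * PC (q ^ 2) - 4 * PC (q ^ 4) := by
  have hq' : ‖-q‖ < 1 := by rwa [norm_neg]
  have hq4 : ‖q ^ 4‖ < 1 := by
    rw [norm_pow]
    exact pow_lt_one₀ (norm_nonneg _) hq (by norm_num)
  rw [PC_eq hq, PC_eq hq', PC_eq hq4, PC_eq (norm_sq_lt hq)]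
  have h := LS_add_neg hq PG.natCast
  have e : (fun m : ℕ => ((2 * m : ℕ) : ℂ)) = fun m : ℕ => 2 * (m : ℂ) := by
    funext m
    push_cast
    ring
  rw [e, LS_mul 2 (fun m : ℕ => (m : ℂ)), LS_mul 2 (fun m : ℕ => (m : ℂ))] at h
  linear_combination (-24 : ℂ) * h

open UpperHalfPlane EisensteinSeries in
/-- `P` is the Eisenstein series of weight 2. -/
theorem PC_eq_E2 (z : UpperHalfPlane) :
    PC (Complex.exp (2 * Real.pi * Complex.I * z)) = E2 z := by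
  have hr : ‖Complex.exp (2 * Real.pi * Complex.I * z)‖ < 1 := norm_exp_two_pi_I_lt_one z
  have h := tsum_pow_div_one_sub_eq_tsum_sigma hr 1
  have h1 := E2_eq_tsum_cexp z
  rw [h1, ← h, tsum_pnat_eq_tsum_succ (f := fun n : ℕ => (n : ℂ) ^ 1 *
    Complex.exp (2 * Real.pi * Complex.I * z) ^ n / (1 - Complex.exp (2 * Real.pi * Complex.I * z) ^ n))]
  unfold PC SC u
  congr 2
  refine tsum_congr fun n => ?_
  push_cast
  ring

namespace MCMAux

/-- the nome -/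
noncomputable def ee (z : ℂ) : ℂ := Complex.exp (2 * Real.pi * Complex.I * z)

theorem norm_ee {z : ℂ} (hz : 0 < z.im) : ‖ee z‖ < 1 :=
  UpperHalfPlane.norm_exp_two_pi_I_lt_one ⟨z, hz⟩

theorem ee_add_one (z : ℂ) : ee (z + 1) = ee z := by
  unfold ee
  rw [mul_add, mul_one, Complex.exp_add, Complex.exp_two_pi_mul_I, mul_one]

theorem ee_nsmul (n : ℕ) (z : ℂ) : ee (n * z) = ee z ^ n := by
  unfold ee
  rw [← Complex.exp_nat_mul]
  congr 1
  ring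

theorem im_inv_pos {z : ℂ} (hz : 0 < z.im) : 0 < (-1 / z).im := by
  have h : (-z)⁻¹ = -1 / z := by rw [neg_div, one_div, inv_neg]
  rw [← h]
  exact UpperHalfPlane.im_inv_neg_coe_pos ⟨z, hz⟩

open UpperHalfPlane EisensteinSeries in
theorem E2_S (z : UpperHalfPlane) :
    E2 (.mk _ z.im_inv_neg_coe_pos) = (z : ℂ) ^ 2 * E2 z + 6 * z / (Real.pi * Complex.I) := by
  have hE2 := congrFun (E2_slash_action ModularGroup.S) z
  simp only [one_div, ModularForm.SL_slash_def, modular_S_smul, ModularGroup.denom_S,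
    Int.reduceNeg, zpow_neg, riemannZeta_two, mul_inv_rev, inv_div, Pi.sub_apply, Pi.smul_apply,
    D2, smul_eq_mul] at hE2
  have hz : (z : ℂ) ≠ 0 := z.ne_zero
  have hp : (Real.pi : ℂ) ≠ 0 := by exact_mod_cast Real.pi_ne_zero
  have hI := Complex.I_ne_zero
  have e1 : ((ModularGroup.S 1 0 : ℤ) : ℂ) = 1 := by simp [ModularGroup.S]
  rw [e1] at hE2
  have e2 : ((z : ℂ) ^ (2 : ℤ))⁻¹ = ((z : ℂ) ^ 2)⁻¹ := by norm_cast
  rw [e2] at hE2
  have e3 : E2 (.mk _ z.im_inv_neg_coe_pos) = (z : ℂ) ^ 2 * (E2 z -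
      6 / (Real.pi : ℂ) ^ 2 * 2⁻¹ * (2 * Real.pi * Complex.I * 1 / z)) := by
    rw [← hE2]
    field_simp
  rw [e3]
  field_simp
  linear_combination (-6 : ℂ) * Complex.I_sq

theorem PC_S {z : ℂ} (hz : 0 < z.im) :
    PC (ee (-1 / z)) = z ^ 2 * PC (ee z) + 6 * z / (Real.pi * Complex.I) := by
  have h1 : PC (ee z) = EisensteinSeries.E2 ⟨z, hz⟩ := PC_eq_E2 ⟨z, hz⟩
  have h2 : PC (ee (-1 / z)) = EisensteinSeries.E2 ⟨-1 / z, im_inv_pos hz⟩ :=
    PC_eq_E2 ⟨-1 / z, im_inv_pos hz⟩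
  rw [h1, h2]
  have h3 : (⟨-1 / z, im_inv_pos hz⟩ : UpperHalfPlane) =
      .mk _ (UpperHalfPlane.im_inv_neg_coe_pos ⟨z, hz⟩) := by
    apply UpperHalfPlane.ext
    show -1 / z = (-z)⁻¹
    rw [neg_div, one_div, inv_neg]
  rw [h3]
  exact E2_S ⟨z, hz⟩


/-! ### The line and the CM point -/

theorem aC_ofReal (q : ℝ) : aC (q : ℂ) = (aR q : ℂ) := by
  unfold aC aR u
  push_cast
  rfl

theorem PC_ofReal (q : ℝ) : PC (q : ℂ) = ((1 - 24 * S1 q : ℝ) : ℂ) := by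
  unfold PC SC S1 u
  push_cast
  congr 2
  refine tsum_congr fun n => ?_
  rw [pow_one, mul_div_assoc]

theorem ee_line (y : ℝ) : ee (1 / 2 + Complex.I * y) = (qn y : ℂ) := by
  unfold ee qn
  have h : 2 * (Real.pi : ℂ) * Complex.I * (1 / 2 + Complex.I * y) =
      Real.pi * Complex.I + ((-(2 * Real.pi * y) : ℝ) : ℂ) := by
    push_cast
    linear_combination (2 * Real.pi * y : ℂ) * Complex.I_sq
  rw [h, Complex.exp_add, Complex.exp_pi_mul_I]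
  push_cast
  ring

theorem tau0_eq : tau0 = 1 / 2 + Complex.I * (y0 : ℂ) := by
  unfold tau0 y0
  push_cast
  ring

theorem y0_sq : y0 ^ 2 = 5 / 12 := by
  unfold y0
  rw [div_pow, Real.sq_sqrt (by norm_num)]
  norm_num

theorem y0_pos : 0 < y0 := by
  unfold y0
  positivity

theorem tau0_im : tau0.im = y0 := by
  rw [tau0_eq]
  simp

theorem tau0_quad : 3 * tau0 ^ 2 - 3 * tau0 + 2 = 0 := by
  have h : (y0 : ℂ) ^ 2 = 5 / 12 := by
    rw [← Complex.ofReal_pow, y0_sq]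
    norm_num
  rw [tau0_eq]
  linear_combination 3 * (y0 : ℂ) ^ 2 * Complex.I_sq - 3 * h

theorem tau0_ne : tau0 ≠ 0 := by
  intro h
  have := tau0_quad
  rw [h] at this
  norm_num at this

theorem ee_tau0 : ee tau0 = (qn y0 : ℂ) := by
  rw [tau0_eq]
  exact ee_line y0

theorem ee_half_sq : ee (tau0 / 2) ^ 2 = (qn y0 : ℂ) := by
  rw [← ee_tau0, ← ee_nsmul]
  congr 1
  push_cast
  ring

theorem ee_half_neg : ee ((tau0 - 1) / 2) = - ee (tau0 / 2) := by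
  have h : tau0 / 2 = (tau0 - 1) / 2 + 1 / 2 := by ring
  rw [h]
  unfold ee
  have h2 : 2 * (Real.pi : ℂ) * Complex.I * ((tau0 - 1) / 2 + 1 / 2) =
      2 * Real.pi * Complex.I * ((tau0 - 1) / 2) + Real.pi * Complex.I := by ring
  rw [h2, Complex.exp_add, Complex.exp_pi_mul_I]
  ring

theorem im_half : 0 < (tau0 / 2).im := by
  have h : (tau0 / 2).im = y0 / 2 := by
    rw [← tau0_im]
    simp
  rw [h]
  linarith [y0_pos]

theorem im_tau0 : 0 < tau0.im := by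
  rw [tau0_im]
  exact y0_pos

theorem im_three : 0 < (3 * tau0).im := by
  have h : (3 * tau0).im = 3 * y0 := by
    rw [← tau0_im]
    simp
  rw [h]
  linarith [y0_pos]

/-- `-1/(3 τ₀) = (τ₀ - 1)/2` -/
theorem inv_three : -1 / (3 * tau0) = (tau0 - 1) / 2 := by
  have h := tau0_ne
  field_simp
  linear_combination (-1 : ℂ) * tau0_quad

/-- `-1/(τ₀/2) = 3 (τ₀ - 1)` -/
theorem inv_half : -1 / (tau0 / 2) = 3 * (tau0 - 1) := by
  have h := tau0_ne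
  field_simp
  linear_combination (-1 : ℂ) * tau0_quad

/-- `-1/(3 (τ₀/2)) = τ₀ - 1` -/
theorem inv_half3 : -1 / (3 * (tau0 / 2)) = tau0 - 1 := by
  have h := tau0_ne
  field_simp
  linear_combination (-1 : ℂ) * tau0_quad

theorem ee_sub_one (z : ℂ) : ee (z - 1) = ee z := by
  have h := ee_add_one (z - 1)
  rw [sub_add_cancel] at h
  exact h.symm

/-- The transformation of `a²`. -/
theorem aC_S (ha : ∀ q : ℂ, ‖q‖ < 1 → aC q ^ 2 = (3 * PC (q ^ 3) - PC q) / 2) {z : ℂ}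
    (hz : 0 < z.im) : aC (ee (-1 / (3 * z))) ^ 2 = -3 * z ^ 2 * aC (ee z) ^ 2 := by
  have hz3 : 0 < (3 * z).im := by
    have h : (3 * z).im = 3 * z.im := by simp
    rw [h]
    linarith
  rw [ha _ (norm_ee (im_inv_pos hz3)), ha _ (norm_ee hz), PC_S hz3]
  have e1 : ee (-1 / (3 * z)) ^ 3 = ee (-1 / z) := by
    rw [← ee_nsmul]
    congr 1
    push_cast
    have hz0 : z ≠ 0 := fun h => by simp [h] at hz
    field_simp
  have e2 : ee (3 * z) = ee z ^ 3 := by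
    rw [← ee_nsmul]
    push_cast
    rfl
  rw [e1, e2, PC_S hz]
  ring

end MCMAux

/-- **First evaluation at the CM point**. -/
theorem M_cm1 (ha : ∀ q : ℂ, ‖q‖ < 1 → aC q ^ 2 = (3 * PC (q ^ 3) - PC q) / 2) :
    5 * a1f y0 ^ 2 = 4 * a2f y0 ^ 2 := by
  have hA : aC (qn y0 : ℂ) = (a1f y0 : ℂ) := aC_ofReal _
  have hB : aC ((qn y0 : ℂ) ^ 2) = (a2f y0 : ℂ) := by
    have h := aC_ofReal (qn y0 ^ 2)
    push_cast at h
    exact h
  have h1 := aC_S ha im_tau0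
  rw [inv_three, ee_half_neg, ee_tau0, hA] at h1
  have h2 := aC_S ha im_half
  rw [inv_half3, ee_sub_one, ee_tau0, hA] at h2
  have h3 := aC_add_neg (norm_ee im_half)
  have e4 : ee (tau0 / 2) ^ 4 = (qn y0 : ℂ) ^ 2 := by
    rw [← ee_half_sq]
    ring
  rw [e4, hB] at h3
  have hT := tau0_ne
  have hq := tau0_quad
  generalize aC (ee (tau0 / 2)) = s at h1 h2 h3
  generalize aC (-ee (tau0 / 2)) = t at h1 h2 h3
  generalize tau0 = T at h1 h2 h3 hT hq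
  have k1 : s ^ 2 * t ^ 2 = 4 * (a1f y0 : ℂ) ^ 4 := by
    have hT2 : 3 * T ^ 2 ≠ 0 := mul_ne_zero (by norm_num) (pow_ne_zero _ hT)
    apply mul_left_cancel₀ hT2
    rw [h1]
    have h2' : 3 * T ^ 2 * s ^ 2 = -4 * (a1f y0 : ℂ) ^ 2 := by
      linear_combination 4 * h2
    linear_combination (-3 * T ^ 2 * (a1f y0 : ℂ) ^ 2) * h2'
  have k2 : s ^ 2 + t ^ 2 = (a1f y0 : ℂ) ^ 2 := by
    have hT2 : 3 * T ^ 2 ≠ 0 := mul_ne_zero (by norm_num) (pow_ne_zero _ hT)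
    apply mul_left_cancel₀ hT2
    rw [h1]
    have h2' : 3 * T ^ 2 * s ^ 2 = -4 * (a1f y0 : ℂ) ^ 2 := by
      linear_combination 4 * h2
    linear_combination h2' - (a1f y0 : ℂ) ^ 2 * (3 * T ^ 2 + 3 * T + 2) * hq
  have k3 : (4 * (a2f y0 : ℂ) ^ 2 - (a1f y0 : ℂ) ^ 2) ^ 2 = 16 * (a1f y0 : ℂ) ^ 4 := by
    have e : 4 * (a2f y0 : ℂ) ^ 2 - (a1f y0 : ℂ) ^ 2 = 2 * (s * t) := by
      have : (s + t) ^ 2 = 4 * (a2f y0 : ℂ) ^ 2 := by rw [h3]; ring
      linear_combination k2 - this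
    rw [e]
    linear_combination 4 * k1
  have k4 : (4 * a2f y0 ^ 2 - a1f y0 ^ 2) ^ 2 = 16 * a1f y0 ^ 4 := by exact_mod_cast k3
  have k5 : (4 * a2f y0 ^ 2 - 5 * a1f y0 ^ 2) * (4 * a2f y0 ^ 2 + 3 * a1f y0 ^ 2) = 0 := by
    linear_combination k4
  rcases mul_eq_zero.mp k5 with h | h
  · linarith
  · nlinarith [sq_nonneg (a2f y0), sq_nonneg (a1f y0)]

/-- **Second evaluation at the CM point**. -/
theorem M_cm2 (ha : ∀ q : ℂ, ‖q‖ < 1 → aC q ^ 2 = (3 * PC (q ^ 3) - PC q) / 2)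
    (hb : ∀ q : ℂ, ‖q‖ < 1 →
      2 * PC (q ^ 2) - PC q = aC q ^ 2 + 2 * aC q * aC (q ^ 2) - 2 * aC (q ^ 2) ^ 2) :
    5 * (1 - 24 * S1 (qn y0)) = 36 * y0 / Real.pi + 4 * a1f y0 * a2f y0 - 4 * a2f y0 ^ 2 := by
  have hA : aC (qn y0 : ℂ) = (a1f y0 : ℂ) := aC_ofReal _
  have hB : aC ((qn y0 : ℂ) ^ 2) = (a2f y0 : ℂ) := by
    have h := aC_ofReal (qn y0 ^ 2)
    push_cast at h
    exact h
  have hP : PC (qn y0 : ℂ) = ((1 - 24 * S1 (qn y0) : ℝ) : ℂ) := PC_ofReal _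
  have hn : ‖(qn y0 : ℂ)‖ < 1 := by
    rw [← ee_tau0]
    exact norm_ee im_tau0
  have g1 := PC_S im_three
  have e1 : ee (3 * tau0) = (qn y0 : ℂ) ^ 3 := by
    rw [← ee_tau0, ← ee_nsmul]
    push_cast
    rfl
  rw [inv_three, ee_half_neg, e1] at g1
  have g2 := PC_S im_half
  have e2 : ee (3 * (tau0 - 1)) = (qn y0 : ℂ) ^ 3 := by
    rw [← ee_tau0, ← ee_sub_one tau0, ← ee_nsmul]
    push_cast
    rfl
  rw [inv_half, e2] at g2
  have g3 := PC_add_neg (norm_ee im_half)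
  have e4 : ee (tau0 / 2) ^ 4 = (qn y0 : ℂ) ^ 2 := by
    rw [← ee_half_sq]
    ring
  rw [e4, ee_half_sq] at g3
  have g4 := ha _ hn
  have g5 := hb _ hn
  rw [hA] at g4
  rw [hA, hB] at g5
  have hT := tau0_ne
  have hq := tau0_quad
  have hy : (y0 : ℂ) * Complex.I = tau0 - 1 / 2 := by
    rw [tau0_eq]
    ring
  have hp : (Real.pi : ℂ) ≠ 0 := by exact_mod_cast Real.pi_ne_zero
  have hI := Complex.I_ne_zero
  have key : 5 * PC (qn y0 : ℂ) =
      36 * (y0 : ℂ) / Real.pi + 4 * (a1f y0 : ℂ) * (a2f y0 : ℂ) - 4 * (a2f y0 : ℂ) ^ 2 := by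
    have hc : (36 * (y0 : ℂ) / Real.pi) = (36 * tau0 - 18) * (1 / (Real.pi * Complex.I)) := by
      field_simp
      linear_combination 36 * hy
    have hc1 : 6 * (3 * tau0) / (Real.pi * Complex.I) = 18 * tau0 * (1 / (Real.pi * Complex.I)) := by
      ring
    have hc2 : 6 * (tau0 / 2) / (Real.pi * Complex.I) = 3 * tau0 * (1 / (Real.pi * Complex.I)) := by
      ring
    rw [hc]
    rw [hc1] at g1
    rw [hc2] at g2
    generalize (1 / (Real.pi * Complex.I) : ℂ) = c at g1 g2 ⊢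
    generalize PC (ee (tau0 / 2)) = s at g1 g2 g3
    generalize PC (-ee (tau0 / 2)) = t at g1 g2 g3
    generalize PC ((qn y0 : ℂ) ^ 3) = P3 at g1 g2 g3 g4 g5
    generalize PC ((qn y0 : ℂ) ^ 2) = P2 at g1 g2 g3 g4 g5
    generalize PC (qn y0 : ℂ) = P1 at g1 g2 g3 g4 g5 ⊢
    generalize tau0 = T at g1 g2 g3 hT hq ⊢
    have hT2 : T ^ 2 ≠ 0 := pow_ne_zero _ hT
    have m1 : T ^ 2 * (-3 * P3 + (36 * T - 18) * c) = T ^ 2 * (6 * P1 - 4 * P2) := by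
      rw [← g3, g1]
      linear_combination 4 * g2 - (P3 * (3 * T ^ 2 + 3 * T + 2) - 6 * T * c) * hq
    have m2 := mul_left_cancel₀ hT2 m1
    linear_combination (-1 : ℂ) * m2 + 2 * g4 + 2 * g5
  rw [hP] at key
  exact_mod_cast key

/-- `5 a(τ₀)² = 4 a(2 τ₀)²` -/
theorem M_cm_a : 5 * a1f y0 ^ 2 = 4 * a2f y0 ^ 2 :=
  M_cm1 fun _ hq => aC_sq_PC hq

/-- `5 P(τ₀) = 36 y₀/π + 4 a(τ₀) a(2 τ₀) - 4 a(2 τ₀)²` -/
theorem M_cm_P : 5 * (1 - 24 * S1 (qn y0)) =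
    36 * y0 / Real.pi + 4 * (a1f y0 * a2f y0) - 4 * a2f y0 ^ 2 := by
  have h := M_cm2 (fun _ hq => aC_sq_PC hq) fun q hq => by
    rw [PC_two hq]
    ring
  rw [h]
  ring

end Pool.Agent.Lib.BM
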