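import Pool.Agent.Lib.BM.Defs

/-! # Continuity and exponential bounds of `F4` and `lx` -/

set_option autoImplicit false

open Filter Topology MeasureTheory Set

namespace Pool.Agent.Lib.BM

namespace QBoundsAux

lemma summable_half (k : ℕ) : Summable fun n : ℕ => 2 * (((n : ℝ) + 1) ^ k * (1 / 2) ^ n) := by
  have h := summable_pow_mul_geometric_of_norm_lt_one (R := ℝ) k (r := 1 / 2) (by
    rw [Real.norm_of_nonneg] <;> norm_num)
  have h1 := (summable_nat_add_iff 1).2 h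
  have h2 := h1.mul_left 4
  refine h2.congr fun n => ?_
  push_cast
  rw [pow_succ]
  ring

lemma abs_pow_le {q : ℝ} (hq : |q| ≤ 1 / 2) (n : ℕ) : |q| ^ n ≤ (1 / 2) ^ n :=
  pow_le_pow_left₀ (abs_nonneg q) hq n

lemma one_sub_pow_ge {q : ℝ} (hq : |q| ≤ 1 / 2) (n : ℕ) : 1 / 2 ≤ 1 - q ^ (n + 1) := by
  have h1 : q ^ (n + 1) ≤ |q| ^ (n + 1) := by
    rw [← abs_pow]; exact le_abs_self _
  have h2 : |q| ^ (n + 1) ≤ |q| ^ 1 := pow_le_pow_of_le_one (abs_nonneg q) (by linarith) (by omega)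
  rw [pow_one] at h2
  linarith

lemma term_bound {q : ℝ} (hq : |q| ≤ 1 / 2) (k n : ℕ) :
    |((n : ℝ) + 1) ^ k * q ^ (n + 1) / (1 - q ^ (n + 1))| ≤ (2 * (((n : ℝ) + 1) ^ k * (1 / 2) ^ n)) * |q| := by
  have h1 := one_sub_pow_ge hq n
  have h2 : (0 : ℝ) ≤ ((n : ℝ) + 1) ^ k := by positivity
  rw [abs_div, abs_mul, abs_of_nonneg h2, abs_pow, abs_of_pos (by linarith : 0 < 1 - q ^ (n + 1)),
    div_le_iff₀ (by linarith)]
  have h3 := abs_pow_le hq n
  have h4 : |q| ^ (n + 1) ≤ (1 / 2) ^ n * |q| := by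
    rw [pow_succ]; exact mul_le_mul_of_nonneg_right h3 (abs_nonneg q)
  calc ((n : ℝ) + 1) ^ k * |q| ^ (n + 1) ≤ ((n : ℝ) + 1) ^ k * ((1 / 2) ^ n * |q|) :=
        mul_le_mul_of_nonneg_left h4 h2
    _ = (2 * (((n : ℝ) + 1) ^ k * (1 / 2) ^ n)) * |q| * (1 / 2) := by ring
    _ ≤ (2 * (((n : ℝ) + 1) ^ k * (1 / 2) ^ n)) * |q| * (1 - q ^ (n + 1)) :=
        mul_le_mul_of_nonneg_left h1 (by positivity)

lemma term_bound' {q : ℝ} (hq : |q| ≤ 1 / 2) (k n : ℕ) :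
    |((n : ℝ) + 1) ^ k * q ^ (n + 1) / (1 - q ^ (n + 1))| ≤ 2 * (((n : ℝ) + 1) ^ k * (1 / 2) ^ n) := by
  refine (term_bound hq k n).trans ?_
  have : (0 : ℝ) ≤ 2 * (((n : ℝ) + 1) ^ k * (1 / 2) ^ n) := by positivity
  calc (2 * (((n : ℝ) + 1) ^ k * (1 / 2) ^ n)) * |q| ≤ (2 * (((n : ℝ) + 1) ^ k * (1 / 2) ^ n)) * 1 :=
        mul_le_mul_of_nonneg_left (by linarith) this
    _ = _ := mul_one _

lemma log_bound {q : ℝ} (hq : |q| ≤ 1 / 2) (n : ℕ) :
    |Real.log (1 - q ^ (n + 1))| ≤ (2 * (((n : ℝ) + 1) ^ 0 * (1 / 2) ^ n)) * |q| := by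
  have h1 := one_sub_pow_ge hq n
  have hp : |q ^ (n + 1)| ≤ (1 / 2) ^ n * |q| := by
    rw [abs_pow, pow_succ]; exact mul_le_mul_of_nonneg_right (abs_pow_le hq n) (abs_nonneg q)
  have hle : |q ^ (n + 1)| ≤ 1 / 2 := by
    refine hp.trans ?_
    have : ((1 : ℝ) / 2) ^ n ≤ 1 := pow_le_one₀ (by norm_num) (by norm_num)
    calc ((1 : ℝ) / 2) ^ n * |q| ≤ 1 * (1 / 2) := mul_le_mul this hq (abs_nonneg q) zero_le_one
      _ = 1 / 2 := by norm_num
  set x := q ^ (n + 1) with hx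
  rw [pow_zero, one_mul]
  have hlog : |Real.log (1 - x)| ≤ 2 * |x| := by
    rw [abs_le] at hle
    have hpos : 0 < 1 - x := by linarith [hle.2]
    have u1 : Real.log (1 - x) ≤ (1 - x) - 1 := Real.log_le_sub_one_of_pos hpos
    have u2 : 1 - (1 - x)⁻¹ ≤ Real.log (1 - x) := Real.one_sub_inv_le_log_of_pos hpos
    have u3 : 1 - (1 - x)⁻¹ = -x / (1 - x) := by field_simp; ring
    have u4 : -(2 * |x|) ≤ -x / (1 - x) := by
      rw [le_div_iff₀ hpos]
      nlinarith [le_abs_self x, neg_abs_le x, abs_nonneg x]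
    rw [abs_le]
    constructor
    · linarith
    · have := neg_abs_le x
      have := abs_nonneg x
      linarith
  calc |Real.log (1 - x)| ≤ 2 * |x| := hlog
    _ ≤ 2 * ((1 / 2) ^ n * |q|) := by linarith
    _ = _ := by ring

end QBoundsAux

open QBoundsAux

/-- general Lambert series -/
lemma lambert_summable {q : ℝ} (hq : |q| ≤ 1 / 2) (k : ℕ) :
    Summable fun n : ℕ => ((n : ℝ) + 1) ^ k * q ^ (n + 1) / (1 - q ^ (n + 1)) :=
  Summable.of_norm_bounded (summable_half k) fun n => term_bound' hq k n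

lemma S3_summable {q : ℝ} (hq : |q| ≤ 1 / 2) :
    Summable fun n : ℕ => ((n : ℝ) + 1) ^ 3 * q ^ (n + 1) / (1 - q ^ (n + 1)) :=
  lambert_summable hq 3

lemma LP_summable {q : ℝ} (hq : |q| ≤ 1 / 2) :
    Summable fun n : ℕ => Real.log (1 - q ^ (n + 1)) := by
  refine Summable.of_norm_bounded (summable_half 0) fun n => ?_
  refine (log_bound hq n).trans ?_
  have : (0 : ℝ) ≤ 2 * (((n : ℝ) + 1) ^ 0 * (1 / 2) ^ n) := by positivity
  calc (2 * (((n : ℝ) + 1) ^ 0 * (1 / 2) ^ n)) * |q| ≤ (2 * (((n : ℝ) + 1) ^ 0 * (1 / 2) ^ n)) * 1 :=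
        mul_le_mul_of_nonneg_left (by linarith) this
    _ = _ := mul_one _

lemma S3_bound : ∃ C, 0 ≤ C ∧ ∀ q : ℝ, |q| ≤ 1 / 2 → |S3 q| ≤ C * |q| := by
  refine ⟨∑' n : ℕ, 2 * (((n : ℝ) + 1) ^ 3 * (1 / 2) ^ n), tsum_nonneg fun n => by positivity,
    fun q hq => ?_⟩
  unfold S3
  have hs := (summable_half 3).mul_right |q|
  have := tsum_of_norm_bounded (f := fun n : ℕ => ((n : ℝ) + 1) ^ 3 * q ^ (n + 1) / (1 - q ^ (n + 1)))
    hs.hasSum fun n => term_bound hq 3 n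
  rw [tsum_mul_right] at this
  exact this

lemma S1_bound : ∃ C, 0 ≤ C ∧ ∀ q : ℝ, |q| ≤ 1 / 2 → |S1 q| ≤ C * |q| := by
  refine ⟨∑' n : ℕ, 2 * (((n : ℝ) + 1) ^ 1 * (1 / 2) ^ n), tsum_nonneg fun n => by positivity,
    fun q hq => ?_⟩
  unfold S1
  have hs := (summable_half 1).mul_right |q|
  have := tsum_of_norm_bounded (f := fun n : ℕ => ((n : ℝ) + 1) ^ 1 * q ^ (n + 1) / (1 - q ^ (n + 1)))
    hs.hasSum fun n => term_bound hq 1 n
  rw [tsum_mul_right] at this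
  simp only [pow_one] at this ⊢
  exact this

lemma LP_bound : ∃ C, 0 ≤ C ∧ ∀ q : ℝ, |q| ≤ 1 / 2 → |LP q| ≤ C * |q| := by
  refine ⟨∑' n : ℕ, 2 * (((n : ℝ) + 1) ^ 0 * (1 / 2) ^ n), tsum_nonneg fun n => by positivity,
    fun q hq => ?_⟩
  unfold LP
  have hs := (summable_half 0).mul_right |q|
  have := tsum_of_norm_bounded (f := fun n : ℕ => Real.log (1 - q ^ (n + 1)))
    hs.hasSum fun n => log_bound hq n
  rw [tsum_mul_right] at this
  exact this

lemma S3_continuousOn : ContinuousOn S3 {q | |q| ≤ 1 / 2} := by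
  unfold S3
  apply continuousOn_tsum (u := fun n : ℕ => 2 * (((n : ℝ) + 1) ^ 3 * (1 / 2) ^ n))
  · intro n
    apply ContinuousOn.div
    · fun_prop
    · fun_prop
    · intro q hq
      have := one_sub_pow_ge hq n
      linarith
  · exact summable_half 3
  · intro n q hq
    exact term_bound' hq 3 n

lemma LP_continuousOn : ContinuousOn LP {q | |q| ≤ 1 / 2} := by
  unfold LP
  apply continuousOn_tsum (u := fun n : ℕ => 2 * (((n : ℝ) + 1) ^ 0 * (1 / 2) ^ n))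
  · intro n
    apply ContinuousOn.log
    · fun_prop
    · intro q hq
      have := one_sub_pow_ge hq n
      linarith
  · exact summable_half 0
  · intro n q hq
    refine (log_bound hq n).trans ?_
    have h0 : (0 : ℝ) ≤ 2 * (((n : ℝ) + 1) ^ 0 * (1 / 2) ^ n) := by positivity
    have hq' : |q| ≤ 1 / 2 := hq
    calc (2 * (((n : ℝ) + 1) ^ 0 * (1 / 2) ^ n)) * |q| ≤ (2 * (((n : ℝ) + 1) ^ 0 * (1 / 2) ^ n)) * 1 :=
          mul_le_mul_of_nonneg_left (by linarith) h0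
      _ = _ := mul_one _

/-! ### the nome -/

lemma y0_pos : 0 < y0 := by unfold y0; positivity

lemma y0_gt : (1 : ℝ) / 2 < y0 := by
  unfold y0
  have : (3 : ℝ) < Real.sqrt 15 := by
    rw [show (3 : ℝ) = Real.sqrt 9 by rw [show (9 : ℝ) = 3 ^ 2 by norm_num, Real.sqrt_sq (by norm_num)]]
    exact Real.sqrt_lt_sqrt (by norm_num) (by norm_num)
  linarith

lemma abs_qn (y : ℝ) : |qn y| = Real.exp (-(2 * Real.pi * y)) := by
  unfold qn; rw [abs_neg, abs_of_pos (Real.exp_pos _)]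

/-- for `y ≥ 1/2` the nome is small -/
lemma abs_qn_le {y : ℝ} (hy : 1 / 2 ≤ y) : |qn y| ≤ 1 / 2 := by
  rw [abs_qn]
  have h1 : Real.exp (-(2 * Real.pi * y)) ≤ Real.exp (-1) := by
    apply Real.exp_le_exp.2
    have := Real.pi_gt_three
    nlinarith
  have h2 : Real.exp (-1) ≤ 1 / 2 := by
    rw [Real.exp_neg, ← one_div]
    apply one_div_le_one_div_of_le (by norm_num)
    have := Real.add_one_le_exp (1 : ℝ)
    linarith
  linarith

lemma abs_qn_pow_le {y : ℝ} (hy : 1 / 2 ≤ y) {k : ℕ} (hk : 1 ≤ k) : |qn y ^ k| ≤ |qn y| := by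
  rw [abs_pow]
  calc |qn y| ^ k ≤ |qn y| ^ 1 :=
        pow_le_pow_of_le_one (abs_nonneg _) (by have := abs_qn_le hy; linarith) hk
    _ = |qn y| := pow_one _

lemma abs_qn_pow_le' {y : ℝ} (hy : 1 / 2 ≤ y) {k : ℕ} (hk : 1 ≤ k) : |qn y ^ k| ≤ 1 / 2 :=
  (abs_qn_pow_le hy hk).trans (abs_qn_le hy)

lemma qn_continuous : Continuous qn := by unfold qn; fun_prop

lemma comp_continuousOn {f : ℝ → ℝ} (hf : ContinuousOn f {q | |q| ≤ 1 / 2}) {k : ℕ} (hk : 1 ≤ k) :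
    ContinuousOn (fun y => f (qn y ^ k)) (Ici (1 / 2)) :=
  hf.comp ((qn_continuous.pow k).continuousOn) fun _ hy => abs_qn_pow_le' hy hk

lemma F4_continuousOn : ContinuousOn F4 (Ici (1 / 2)) := by
  unfold F4
  have h1 := comp_continuousOn S3_continuousOn (le_refl 1)
  have h2 := comp_continuousOn S3_continuousOn (by norm_num : 1 ≤ 2)
  have h3 := comp_continuousOn S3_continuousOn (by norm_num : 1 ≤ 3)
  have h6 := comp_continuousOn S3_continuousOn (by norm_num : 1 ≤ 6)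
  simp only [pow_one] at h1
  exact (((h1.sub h2).sub (h3.const_mul 9)).add (h6.const_mul 9)).neg

lemma lx_continuousOn : ContinuousOn lx (Ici (1 / 2)) := by
  unfold lx
  have h1 := comp_continuousOn LP_continuousOn (le_refl 1)
  have h2 := comp_continuousOn LP_continuousOn (by norm_num : 1 ≤ 2)
  have h3 := comp_continuousOn LP_continuousOn (by norm_num : 1 ≤ 3)
  have h6 := comp_continuousOn LP_continuousOn (by norm_num : 1 ≤ 6)
  simp only [pow_one] at h1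
  exact (((((continuousOn_const.sub (continuousOn_const.mul continuousOn_id)).sub
    (h1.const_mul 3)).add (h2.const_mul 3)).sub (h3.const_mul 3)).add (h6.const_mul 3))

/-- `|F4 y| ≤ C exp(-2πy)` for `y ≥ 1/2` -/
lemma F4_bound : ∃ C, 0 ≤ C ∧ ∀ y : ℝ, 1 / 2 ≤ y → |F4 y| ≤ C * Real.exp (-(2 * Real.pi * y)) := by
  obtain ⟨C, hC, h⟩ := S3_bound
  refine ⟨20 * C, by positivity, fun y hy => ?_⟩
  rw [← abs_qn]
  have b : ∀ k : ℕ, 1 ≤ k → |S3 (qn y ^ k)| ≤ C * |qn y| := fun k hk =>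
    (h _ (abs_qn_pow_le' hy hk)).trans (mul_le_mul_of_nonneg_left (abs_qn_pow_le hy hk) hC)
  have b1 := b 1 le_rfl
  have b2 := b 2 (by norm_num)
  have b3 := b 3 (by norm_num)
  have b6 := b 6 (by norm_num)
  rw [pow_one] at b1
  unfold F4
  rw [abs_le] at *
  constructor <;> linarith [b1.1, b1.2, b2.1, b2.2, b3.1, b3.2, b6.1, b6.2]

/-- `|lx y + π y| ≤ C` for `y ≥ 1/2` -/
lemma lx_bound : ∃ C, 0 ≤ C ∧ ∀ y : ℝ, 1 / 2 ≤ y → |lx y + Real.pi * y| ≤ C := by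
  obtain ⟨C, hC, h⟩ := LP_bound
  refine ⟨Real.log 8 + 12 * C, by
    have : 0 ≤ Real.log 8 := Real.log_nonneg (by norm_num)
    positivity, fun y hy => ?_⟩
  have b : ∀ k : ℕ, 1 ≤ k → |LP (qn y ^ k)| ≤ C := fun k hk =>
    (h _ (abs_qn_pow_le' hy hk)).trans (by
      calc C * |qn y ^ k| ≤ C * 1 :=
            mul_le_mul_of_nonneg_left (by have := abs_qn_pow_le' hy hk; linarith) hC
        _ = C := mul_one _)
  have b1 := b 1 le_rfl
  have b2 := b 2 (by norm_num)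
  have b3 := b 3 (by norm_num)
  have b6 := b 6 (by norm_num)
  rw [pow_one] at b1
  have hl : 0 ≤ Real.log 8 := Real.log_nonneg (by norm_num)
  unfold lx
  rw [abs_le] at *
  constructor <;> linarith [b1.1, b1.2, b2.1, b2.2, b3.1, b3.2, b6.1, b6.2]

/-- `lx y + π y → log 8`. -/
lemma lx_asymp : ∃ C, 0 ≤ C ∧ ∀ y : ℝ, 1 / 2 ≤ y →
    |lx y - (Real.log 8 - Real.pi * y)| ≤ C * Real.exp (-(2 * Real.pi * y)) := by
  obtain ⟨C, hC, h⟩ := LP_bound
  refine ⟨12 * C, by positivity, fun y hy => ?_⟩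
  rw [← abs_qn]
  have b : ∀ k : ℕ, 1 ≤ k → |LP (qn y ^ k)| ≤ C * |qn y| := fun k hk =>
    (h _ (abs_qn_pow_le' hy hk)).trans (mul_le_mul_of_nonneg_left (abs_qn_pow_le hy hk) hC)
  have b1 := b 1 le_rfl
  have b2 := b 2 (by norm_num)
  have b3 := b 3 (by norm_num)
  have b6 := b 6 (by norm_num)
  rw [pow_one] at b1
  unfold lx
  rw [abs_le] at *
  constructor <;> linarith [b1.1, b1.2, b2.1, b2.2, b3.1, b3.2, b6.1, b6.2]

/-- `|F4 y * lx y| ≤ C exp(-π y)` for `y ≥ 1/2` -/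
lemma F4_lx_bound : ∃ C, 0 ≤ C ∧ ∀ y : ℝ, 1 / 2 ≤ y →
    |F4 y * lx y| ≤ C * Real.exp (-(Real.pi * y)) := by
  obtain ⟨C, hC, h⟩ := F4_bound
  obtain ⟨C', hC', h'⟩ := lx_bound
  refine ⟨C * (C' + 1), by positivity, fun y hy => ?_⟩
  have hpi := Real.pi_pos
  have hpy : 0 < Real.pi * y := by have : 0 < y := by linarith
                                   positivity
  have hl : |lx y| ≤ C' + Real.pi * y := by
    have := h' y hy
    rw [abs_le] at *
    constructor <;> linarith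
  have he : (C' + Real.pi * y) * Real.exp (-(Real.pi * y)) ≤ C' + 1 := by
    have e1 : Real.pi * y * Real.exp (-(Real.pi * y)) ≤ 1 := by
      rw [Real.exp_neg, ← div_eq_mul_inv, div_le_one (Real.exp_pos _)]
      have := Real.add_one_le_exp (Real.pi * y)
      linarith
    have e2 : C' * Real.exp (-(Real.pi * y)) ≤ C' * 1 := by
      apply mul_le_mul_of_nonneg_left _ hC'
      rw [Real.exp_le_one_iff]
      linarith
    rw [add_mul]
    linarith
  rw [abs_mul]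
  calc |F4 y| * |lx y| ≤ (C * Real.exp (-(2 * Real.pi * y))) * (C' + Real.pi * y) :=
        mul_le_mul (h y hy) hl (abs_nonneg _) (by positivity)
    _ = C * ((C' + Real.pi * y) * Real.exp (-(Real.pi * y))) * Real.exp (-(Real.pi * y)) := by
        have : Real.exp (-(2 * Real.pi * y)) = Real.exp (-(Real.pi * y)) * Real.exp (-(Real.pi * y)) := by
          rw [← Real.exp_add]; congr 1; ring
        rw [this]; ring
    _ ≤ C * (C' + 1) * Real.exp (-(Real.pi * y)) := by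
        apply mul_le_mul_of_nonneg_right _ (Real.exp_pos _).le
        exact mul_le_mul_of_nonneg_left he hC

end Pool.Agent.Lib.BM
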