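import Pool.Agent.Lib.BM.MLine
import Pool.Agent.Lib.BM.QBounds

set_option autoImplicit false

/-!
# BM.MFricke: the derivative of `Z/w` at the CM point
-/

namespace Pool.Agent.Lib.BM

theorem M_fricke_of
    (hP : 5 * P1f y0 = 36 * y0 / Real.pi + 4 * (a1f y0 * a2f y0) - 4 * a2f y0 ^ 2)
    (hA : 5 * a1f y0 ^ 2 = 4 * a2f y0 ^ 2) :
    HasDerivAt (fun y => Zf y / wf y) (-(1 / y0) * (Zf y0 / wf y0)) y0 := by
  have hy : (1:ℝ) / 2 < y0 := y0_gt
  have h0 : 0 < y0 := y0_pos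
  have ha := M_a1_pos hy
  have hb := M_a2_pos hy
  have hZ := M_Z_pos hy
  have hw := M_w_pos hy
  have hpi := Real.pi_pos
  have hy2 : y0 ^ 2 = 5 / 12 := by
    unfold y0
    rw [div_pow, Real.sq_sqrt (by norm_num)]
    norm_num
  have hP' : (5 * P1f y0 + 4 * a2f y0 ^ 2 - 4 * (a1f y0 * a2f y0)) * Real.pi = 36 * y0 := by
    rw [hP]; field_simp; ring
  have key : (2 * ellf y0 * (a1f y0 * a2f y0) - (2 * (a1f y0 * a2f y0) * P1f y0 +
      2 * a1f y0 ^ 4 + 2 * a1f y0 ^ 3 * a2f y0 + 2 * a1f y0 ^ 2 * a2f y0 ^ 2 -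
      8 * a2f y0 ^ 4) / 12) * (2 * Real.pi * y0) = a1f y0 * a2f y0 := by
    unfold ellf
    linear_combination (y0 * a1f y0 * a2f y0 / 15) * hP' +
      (Real.pi * y0 / 3) * (a1f y0 * a2f y0 / 5 - a1f y0 ^ 2 / 5 - a2f y0 ^ 2) * hA +
      (12 / 5 * a1f y0 * a2f y0) * hy2
  have hz := hasDerivAt_Zf h0
  have hwd : HasDerivAt wf _ y0 := (hasDerivAt_ab hy).div hz hZ.ne'
  refine (hz.div hwd hw.ne').congr_deriv ?_
  unfold wf
  generalize ((2 * (a1f y0 * a2f y0) * P1f y0 +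
      2 * a1f y0 ^ 4 + 2 * a1f y0 ^ 3 * a2f y0 + 2 * a1f y0 ^ 2 * a2f y0 ^ 2 -
      8 * a2f y0 ^ 4) / 12) = M at key ⊢
  generalize Zf y0 = Z at *
  generalize ellf y0 = E at *
  generalize a1f y0 = a at *
  generalize a2f y0 = b at *
  generalize y0 = t at *
  generalize Real.pi = p at *
  field_simp
  linear_combination (-1 : ℝ) * key

end Pool.Agent.Lib.BM
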