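import Pool.Agent.Lib.BM.Id

set_option autoImplicit false

/-!
# BM.MId: the modular identities in terms of `a(q)`, `a(q²)`, `P(q)`; real versions
-/

namespace Pool.Agent.Lib.BM

open Finset LamAux RamAux Ram2Aux IdAux

noncomputable section

section complex

variable {q : ℂ}

theorem aC_sq_PC (hq : ‖q‖ < 1) : aC q ^ 2 = (3 * PC (q ^ 3) - PC q) / 2 := by
  rw [aC_sq hq, PC, PC]; ring

theorem aC_mul (hq : ‖q‖ < 1) : aC q * aC (q ^ 2)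
    = 1 + 6 * SC 1 q - 12 * SC 1 (q ^ 2) + 18 * SC 1 (q ^ 3) - 36 * SC 1 (q ^ 6) := by
  have h1 := aC_sq hq
  have h2 := aC_sq (norm_pow_lt hq (d := 2) (by norm_num))
  have h3 := aC_mix hq
  rw [← pow_mul] at h2
  linear_combination h3 / 4 - h1 / 4 - h2

theorem PC_two (hq : ‖q‖ < 1) :
    2 * PC (q ^ 2) - PC q = aC q ^ 2 + 2 * (aC q * aC (q ^ 2)) - 2 * aC (q ^ 2) ^ 2 := by
  have h1 := aC_sq hq
  have h2 := aC_sq (norm_pow_lt hq (d := 2) (by norm_num))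
  have h3 := aC_mul hq
  rw [← pow_mul] at h2
  rw [PC, PC]
  linear_combination -h1 - 2 * h3 + 2 * h2

/-- the four Eisenstein series of weight 4 -/
theorem QC_all (hq : ‖q‖ < 1) :
    QC q = 5 * aC q ^ 4 + 12 * aC q ^ 3 * aC (q ^ 2) - 16 * aC q * aC (q ^ 2) ^ 3 ∧
    QC (q ^ 2) = 5 * aC (q ^ 2) ^ 4 - 6 * aC q * aC (q ^ 2) ^ 3 + 2 * aC q ^ 3 * aC (q ^ 2) ∧
    9 * QC (q ^ 3) = 5 * aC q ^ 4 - 12 * aC q ^ 3 * aC (q ^ 2) + 16 * aC q * aC (q ^ 2) ^ 3 ∧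
    9 * QC (q ^ 6) = 5 * aC (q ^ 2) ^ 4 + 6 * aC q * aC (q ^ 2) ^ 3 - 2 * aC q ^ 3 * aC (q ^ 2) := by
  have h2q := norm_pow_lt hq (d := 2) (by norm_num)
  have a1 := aC_sq hq
  have a2 := aC_sq h2q
  have a3 := aC_mul hq
  rw [← pow_mul] at a2
  have w1 := w4_pi hq
  have w2 := w4_2pi3 hq
  have w3 := w4_2pi3 h2q
  have w4 := w4_pi3 hq
  rw [← pow_mul] at w3
  norm_num at a2 w3
  -- V2 = (a^2+2ab-2b^2)/12, V3 = a^2/8, V6 = (-a^2+4ab+8b^2)/24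
  have v2 : 1 / 12 + (2 * SC 1 q - 4 * SC 1 (q ^ 2))
      = (aC q ^ 2 + 2 * (aC q * aC (q ^ 2)) - 2 * aC (q ^ 2) ^ 2) / 12 := by
    linear_combination (-1 / 12) * a1 - (1 / 6) * a3 + (1 / 6) * a2
  have v3 : 1 / 8 + (3 / 2 * SC 1 q - 9 / 2 * SC 1 (q ^ 3)) = aC q ^ 2 / 8 := by
    linear_combination (-1 / 8) * a1
  have v3' : 1 / 8 + (3 / 2 * SC 1 (q ^ 2) - 9 / 2 * SC 1 (q ^ 6)) = aC (q ^ 2) ^ 2 / 8 := by
    linear_combination (-1 / 8) * a2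
  have v6 : 11 / 24 + (1 / 2 * SC 1 q + 2 * SC 1 (q ^ 2) + 9 / 2 * SC 1 (q ^ 3) -
      18 * SC 1 (q ^ 6)) = (-aC q ^ 2 + 4 * (aC q * aC (q ^ 2)) + 8 * aC (q ^ 2) ^ 2) / 24 := by
    linear_combination (1 / 24) * a1 - (1 / 6) * a3 - (1 / 3) * a2
  have x1 : QC q + 4 * QC (q ^ 2)
      = 5 * (aC q ^ 2 + 2 * (aC q * aC (q ^ 2)) - 2 * aC (q ^ 2) ^ 2) ^ 2 := by
    have : (1 / 12 + (2 * SC 1 q - 4 * SC 1 (q ^ 2))) ^ 2
        = 1 / 144 + 5 / 12 * SC 3 q + (-SC 3 q + 16 * SC 3 (q ^ 2)) / 12 := by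
      linear_combination w1
    rw [v2] at this
    rw [QC, QC]
    linear_combination (-720 : ℂ) * this
  have x2 : QC q + 9 * QC (q ^ 3) = 10 * aC q ^ 4 := by
    have : (1 / 8 + (3 / 2 * SC 1 q - 9 / 2 * SC 1 (q ^ 3))) ^ 2
        = 1 / 64 + 5 / 12 * SC 3 q + (-1 / 2 * SC 3 q + 81 / 2 * SC 3 (q ^ 3)) / 12 := by
      linear_combination w2
    rw [v3] at this
    rw [QC, QC]
    linear_combination (-640 : ℂ) * this
  have x3 : QC (q ^ 2) + 9 * QC (q ^ 6) = 10 * aC (q ^ 2) ^ 4 := by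
    have : (1 / 8 + (3 / 2 * SC 1 (q ^ 2) - 9 / 2 * SC 1 (q ^ 6))) ^ 2
        = 1 / 64 + 5 / 12 * SC 3 (q ^ 2) + (-1 / 2 * SC 3 (q ^ 2) + 81 / 2 * SC 3 (q ^ 6)) / 12 := by
      linear_combination w3
    rw [v3'] at this
    rw [QC, QC]
    linear_combination (-640 : ℂ) * this
  have x4 : 11 / 2 * QC q - 8 * QC (q ^ 2) - 81 / 2 * QC (q ^ 3) + 648 * QC (q ^ 6)
      = 5 * (-aC q ^ 2 + 4 * (aC q * aC (q ^ 2)) + 8 * aC (q ^ 2) ^ 2) ^ 2 := by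
    have : (11 / 24 + (1 / 2 * SC 1 q + 2 * SC 1 (q ^ 2) + 9 / 2 * SC 1 (q ^ 3) -
        18 * SC 1 (q ^ 6))) ^ 2
        = 121 / 576 + 5 / 12 * SC 3 q + (1 / 2 * SC 3 q - 8 * SC 3 (q ^ 2) -
          81 / 2 * SC 3 (q ^ 3) + 648 * SC 3 (q ^ 6)) / 12 := by
      linear_combination w4
    rw [v6] at this
    simp only [QC]
    linear_combination (-2880 : ℂ) * this
  have y2 : QC (q ^ 2) = 5 * aC (q ^ 2) ^ 4 - 6 * aC q * aC (q ^ 2) ^ 3 +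
      2 * aC q ^ 3 * aC (q ^ 2) := by
    linear_combination (1 / 12) * x1 - (1 / 120) * x4 - (9 / 240) * x2 + (72 / 120) * x3
  have y1 : QC q = 5 * aC q ^ 4 + 12 * aC q ^ 3 * aC (q ^ 2) - 16 * aC q * aC (q ^ 2) ^ 3 := by
    linear_combination x1 - 4 * y2
  refine ⟨y1, y2, ?_, ?_⟩
  · linear_combination x2 - y1
  · linear_combination x3 - y2

/-- the weight 4 form `F` -/
theorem SC3_comb (hq : ‖q‖ < 1) :
    SC 3 q - SC 3 (q ^ 2) - 9 * SC 3 (q ^ 3) + 9 * SC 3 (q ^ 6)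
      = (aC q ^ 2 - aC (q ^ 2) ^ 2) * (aC q * aC (q ^ 2)) / 12 := by
  obtain ⟨h1, h2, h3, h4⟩ := QC_all hq
  simp only [QC] at h1 h2 h3 h4
  linear_combination (h1 - h2 - h3 + h4) / 240

end complex

/-! real versions -/

variable {q : ℝ}

theorem norm_ofReal_lt (hq : |q| < 1) : ‖(q : ℂ)‖ < 1 := by
  rw [Complex.norm_real]; exact hq

theorem ofReal_u (q : ℝ) (n : ℕ) : ((q ^ n / (1 - q ^ n) : ℝ) : ℂ) = u (q : ℂ) n := by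
  unfold u; push_cast; ring

theorem ofReal_S1 (q : ℝ) : (S1 q : ℂ) = SC 1 (q : ℂ) := by
  unfold S1 SC
  rw [Complex.ofReal_tsum]
  refine tsum_congr fun n => ?_
  rw [← ofReal_u]
  push_cast
  ring

theorem ofReal_S3 (q : ℝ) : (S3 q : ℂ) = SC 3 (q : ℂ) := by
  unfold S3 SC
  rw [Complex.ofReal_tsum]
  refine tsum_congr fun n => ?_
  rw [← ofReal_u]
  push_cast
  ring

theorem ofReal_aR (q : ℝ) : (aR q : ℂ) = aC (q : ℂ) := by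
  unfold aR aC
  rw [Complex.ofReal_add, Complex.ofReal_mul, Complex.ofReal_tsum]
  simp only [Complex.ofReal_one, Complex.ofReal_ofNat, Complex.ofReal_mul, ofReal_u]

/-- `∑ n² q^n/(1-q^n)²` -/
def DS1 (q : ℝ) : ℝ := ∑' n : ℕ, ((n : ℝ) + 1) ^ 2 * q ^ (n + 1) / (1 - q ^ (n + 1)) ^ 2

theorem ofReal_DS1 (hq : |q| < 1) : (DS1 q : ℂ) = DSC (q : ℂ) := by
  unfold DS1 DSC
  rw [Complex.ofReal_tsum]
  refine tsum_congr fun n => ?_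
  have h := one_sub_ne (norm_ofReal_lt hq) (n := n + 1) (by omega)
  unfold u
  push_cast
  field_simp
  ring

theorem aR_sq (hq : |q| < 1) : aR q ^ 2 = 1 + 12 * S1 q - 36 * S1 (q ^ 3) := by
  have h := aC_sq (norm_ofReal_lt hq)
  rw [← ofReal_aR, ← ofReal_S1, ← Complex.ofReal_pow q 3, ← ofReal_S1] at h
  exact_mod_cast h

theorem aR_mul (hq : |q| < 1) : aR q * aR (q ^ 2)
    = 1 + 6 * S1 q - 12 * S1 (q ^ 2) + 18 * S1 (q ^ 3) - 36 * S1 (q ^ 6) := by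
  have h := aC_mul (norm_ofReal_lt hq)
  rw [← Complex.ofReal_pow q 2, ← Complex.ofReal_pow q 3, ← Complex.ofReal_pow q 6, ← ofReal_aR,
    ← ofReal_aR, ← ofReal_S1, ← ofReal_S1, ← ofReal_S1, ← ofReal_S1] at h
  exact_mod_cast h

theorem PR_two (hq : |q| < 1) :
    2 * (1 - 24 * S1 (q ^ 2)) - (1 - 24 * S1 q)
      = aR q ^ 2 + 2 * (aR q * aR (q ^ 2)) - 2 * aR (q ^ 2) ^ 2 := by
  have h := PC_two (norm_ofReal_lt hq)
  rw [PC, PC, ← Complex.ofReal_pow q 2, ← ofReal_aR, ← ofReal_aR, ← ofReal_S1, ← ofReal_S1] at h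
  exact_mod_cast h

theorem QR_all (hq : |q| < 1) :
    1 + 240 * S3 q = 5 * aR q ^ 4 + 12 * aR q ^ 3 * aR (q ^ 2) - 16 * aR q * aR (q ^ 2) ^ 3 ∧
    1 + 240 * S3 (q ^ 2) = 5 * aR (q ^ 2) ^ 4 - 6 * aR q * aR (q ^ 2) ^ 3 +
      2 * aR q ^ 3 * aR (q ^ 2) ∧
    9 * (1 + 240 * S3 (q ^ 3)) = 5 * aR q ^ 4 - 12 * aR q ^ 3 * aR (q ^ 2) +
      16 * aR q * aR (q ^ 2) ^ 3 ∧
    9 * (1 + 240 * S3 (q ^ 6)) = 5 * aR (q ^ 2) ^ 4 + 6 * aR q * aR (q ^ 2) ^ 3 -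
      2 * aR q ^ 3 * aR (q ^ 2) := by
  obtain ⟨h1, h2, h3, h4⟩ := QC_all (norm_ofReal_lt hq)
  simp only [QC] at h1 h2 h3 h4
  rw [← Complex.ofReal_pow q 2, ← ofReal_aR, ← ofReal_aR] at h1 h2 h3 h4
  rw [← ofReal_S3] at h1 h2
  rw [← Complex.ofReal_pow q 3, ← ofReal_S3] at h3
  rw [← Complex.ofReal_pow q 6, ← ofReal_S3] at h4
  refine ⟨by exact_mod_cast h1, by exact_mod_cast h2, by exact_mod_cast h3, by exact_mod_cast h4⟩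

theorem rdeR (hq : |q| < 1) : 12 * S1 q ^ 2 = 5 * S3 q + S1 q - 6 * DS1 q := by
  have h := rde (norm_ofReal_lt hq)
  rw [← ofReal_S1, ← ofReal_S3, ← ofReal_DS1 hq] at h
  exact_mod_cast h

end

end Pool.Agent.Lib.BM
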