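import Pool.Agent.Lib.BM.MLine
import Pool.Agent.Lib.BM.QBounds

set_option autoImplicit false

/-!
# BM.MLim: behaviour of the functions of block (M) as `y → ∞`
-/

namespace Pool.Agent.Lib.BM

open Filter Topology

namespace MLimAux

theorem tendsto_exp_neg : Tendsto (fun y : ℝ => Real.exp (-(2 * Real.pi * y))) atTop (𝓝 0) := by
  refine Real.tendsto_exp_neg_atTop_nhds_zero.comp ?_
  exact tendsto_id.const_mul_atTop (by positivity)

theorem tendsto_qn : Tendsto qn atTop (𝓝 0) := by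
  have h := tendsto_exp_neg.neg
  rw [neg_zero] at h
  exact h

theorem qn_ne (y : ℝ) : qn y ≠ 0 := by
  unfold qn
  exact neg_ne_zero.2 (Real.exp_pos _).ne'

theorem S1_zero : S1 0 = 0 := by
  unfold S1
  simp

theorem S1_div : Tendsto (fun q : ℝ => S1 q / q) (𝓝[≠] 0) (𝓝 1) := by
  have h := MDerAux.hasDerivAt_S1 (q := 0) (by simp)
  have h2 : ∑' n : ℕ, ((n : ℝ) + 1) ^ 2 * (0:ℝ) ^ n / (1 - 0 ^ (n + 1)) ^ 2 = 1 := by
    rw [tsum_eq_single 0]
    · simp
    · intro n hn
      simp [hn]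
  rw [h2] at h
  have h3 := h.tendsto_slope
  refine h3.congr' ?_
  filter_upwards with q
  rw [slope_def_field, S1_zero, sub_zero, sub_zero]

theorem S1_qn_div : Tendsto (fun y : ℝ => S1 (qn y) / qn y) atTop (𝓝 1) :=
  S1_div.comp (tendsto_nhdsWithin_iff.2 ⟨tendsto_qn, Eventually.of_forall fun y => qn_ne y⟩)

theorem S1_pow_div {k : ℕ} (hk : 2 ≤ k) :
    Tendsto (fun y : ℝ => S1 (qn y ^ k) / qn y) atTop (𝓝 0) := by
  obtain ⟨C, hC, h⟩ := S1_bound
  have h0 : Tendsto (fun y : ℝ => C * |qn y|) atTop (𝓝 0) := by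
    have := (tendsto_qn.abs).const_mul C
    simpa using this
  refine squeeze_zero_norm' ?_ h0
  filter_upwards [eventually_ge_atTop (1 / 2 : ℝ)] with y hy
  have h1 := h _ (abs_qn_pow_le' hy (k := k) (by omega))
  have h2 : 0 < |qn y| := abs_pos.2 (qn_ne y)
  have h3 := abs_qn_le hy
  rw [Real.norm_eq_abs, abs_div, div_le_iff₀ h2]
  refine h1.trans ?_
  rw [mul_assoc]
  refine mul_le_mul_of_nonneg_left ?_ hC
  rw [abs_pow, ← sq]
  exact pow_le_pow_of_le_one (abs_nonneg _) (by linarith) hk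

theorem S1_pow {k : ℕ} (hk : 1 ≤ k) :
    Tendsto (fun y : ℝ => S1 (qn y ^ k)) atTop (𝓝 0) := by
  obtain ⟨C, hC, h⟩ := S1_bound
  have h0 : Tendsto (fun y : ℝ => C * |qn y|) atTop (𝓝 0) := by
    have := (tendsto_qn.abs).const_mul C
    simpa using this
  refine squeeze_zero_norm' ?_ h0
  filter_upwards [eventually_ge_atTop (1 / 2 : ℝ)] with y hy
  exact (h _ (abs_qn_pow_le' hy hk)).trans (mul_le_mul_of_nonneg_left (abs_qn_pow_le hy hk) hC)

theorem exp_eq (y : ℝ) : Real.exp (2 * Real.pi * y) = -(1 / qn y) := by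
  unfold qn
  rw [Real.exp_neg]
  have := (Real.exp_pos (2 * Real.pi * y)).ne'
  field_simp

end MLimAux

open MLimAux

theorem M_lim12 : Tendsto (fun y => (a2f y ^ 2 - a1f y ^ 2) * Real.exp (2 * Real.pi * y))
    atTop (𝓝 12) := by
  have h := (((S1_qn_div.const_mul 12).sub ((S1_pow_div (k := 2) le_rfl).const_mul 12)).add
    ((S1_pow_div (k := 6) (by norm_num)).const_mul 36)).sub
    ((S1_pow_div (k := 3) (by norm_num)).const_mul 36)
  have e : (12 * 1 - 12 * 0 + 36 * 0 - 36 * 0 : ℝ) = 12 := by norm_num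
  rw [e] at h
  refine h.congr' ?_
  filter_upwards [eventually_gt_atTop (0 : ℝ)] with y hy
  rw [exp_eq, a2f_sq hy, a1f_sq hy]
  have := qn_ne y
  field_simp
  ring

theorem M_lim64 : Tendsto (fun y => Real.exp (-(2 * lx y)) * Real.exp (-(2 * Real.pi * y)))
    atTop (𝓝 (1 / 64)) := by
  obtain ⟨C, hC, h⟩ := lx_asymp
  have h0 : Tendsto (fun y : ℝ => lx y + Real.pi * y) atTop (𝓝 (Real.log 8)) := by
    have h1 : Tendsto (fun y : ℝ => C * Real.exp (-(2 * Real.pi * y))) atTop (𝓝 0) := by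
      have := tendsto_exp_neg.const_mul C
      simpa using this
    have h2 : Tendsto (fun y : ℝ => lx y - (Real.log 8 - Real.pi * y)) atTop (𝓝 0) := by
      refine squeeze_zero_norm' ?_ h1
      filter_upwards [eventually_ge_atTop (1 / 2 : ℝ)] with y hy
      exact h y hy
    have h3 := h2.add_const (Real.log 8)
    rw [zero_add] at h3
    refine h3.congr fun y => ?_
    ring
  have h4 := (Real.continuous_exp.tendsto _).comp (h0.const_mul (-2))
  have e : Real.exp (-2 * Real.log 8) = 1 / 64 := by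
    rw [show -2 * Real.log 8 = -(Real.log 8 + Real.log 8) by ring, Real.exp_neg, Real.exp_add,
      Real.exp_log (by norm_num)]
    norm_num
  rw [e] at h4
  refine h4.congr fun y => ?_
  rw [Function.comp_apply, ← Real.exp_add]
  congr 1
  ring

theorem M_Zf_tendsto : Tendsto Zf atTop (𝓝 1) := by
  have hS1 := S1_pow (k := 1) le_rfl
  have hS2 := S1_pow (k := 2) (by norm_num)
  have hS3 := S1_pow (k := 3) (by norm_num)
  have hS6 := S1_pow (k := 6) (by norm_num)
  simp only [pow_one] at hS1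
  have ha1 : Tendsto (fun y => 1 + 12 * S1 (qn y) - 36 * S1 (qn y ^ 3)) atTop (𝓝 1) := by
    have h := ((hS1.const_mul 12).const_add 1).sub (hS3.const_mul 36)
    simpa using h
  have ha2 : Tendsto (fun y => 1 + 12 * S1 (qn y ^ 2) - 36 * S1 (qn y ^ 6)) atTop (𝓝 1) := by
    have h := ((hS2.const_mul 12).const_add 1).sub (hS6.const_mul 36)
    simpa using h
  have h := ((ha2.const_mul 4).sub ha1).div_const 3
  have e : (4 * 1 - 1) / 3 = (1 : ℝ) := by norm_num
  rw [e] at h
  refine h.congr' ?_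
  filter_upwards [eventually_gt_atTop (0 : ℝ)] with y hy
  unfold Zf
  rw [a2f_sq hy, a1f_sq hy]

theorem M_xf_tendsto : Tendsto xf atTop (𝓝 0) := by
  obtain ⟨C, hC, h⟩ := lx_bound
  unfold xf
  refine Real.tendsto_exp_atBot.comp ?_
  have h1 : Tendsto (fun y : ℝ => C - Real.pi * y) atTop atBot := by
    have h2 : Tendsto (fun y : ℝ => Real.pi * y) atTop atTop :=
      tendsto_id.const_mul_atTop Real.pi_pos
    have h3 := tendsto_neg_atTop_atBot.comp h2
    have h4 := tendsto_atBot_add_const_left atTop C h3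
    refine h4.congr fun y => ?_
    simp only [Function.comp_apply]
    ring
  refine tendsto_atBot_mono' atTop ?_ h1
  filter_upwards [eventually_ge_atTop (1 / 2 : ℝ)] with y hy
  have := (abs_le.1 (h y hy)).2
  linarith

end Pool.Agent.Lib.BM
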