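import Pool.Agent.Lib.BM.MFin
import Pool.Agent.Lib.BM.MFricke
import Pool.Agent.Lib.BM.MCM
import Pool.Agent.Lib.BM.MId
import Pool.Agent.Lib.BM.MLim

set_option autoImplicit false

/-!
# BM.MEnd: the structure `ModX` from `BesX`
-/

namespace Pool.Agent.Lib.BM

open Filter Topology

theorem M_hA : 5 * a1f y0 ^ 2 = 4 * a2f y0 ^ 2 := M_cm1 (fun _ hq => aC_sq_PC hq)

theorem M_hfr : HasDerivAt (fun y => Zf y / wf y) (-(1 / y0) * (Zf y0 / wf y0)) y0 := by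
  refine M_fricke_of ?_ M_hA
  have h := M_cm2 (fun _ hq => aC_sq_PC hq) (fun q hq => by rw [PC_two hq]; ring)
  unfold P1f
  rw [h]; ring

/-- **Block (M)**: the modular parametrisation. -/
theorem modX {A A1 A2 A3 B B1 B2 B3 : ℝ → ℝ} (h : BesX A A1 A2 A3 B B1 B2 B3) : ModX A A1 :=
  modX_fin h M_lim12 M_lim64 M_Zf_tendsto M_xf_tendsto M_hA M_hfr

end Pool.Agent.Lib.BM
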