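import Pool.Agent.Lib.BM.BesX0
import Pool.Agent.Lib.BM.ValI
import Pool.Agent.Lib.BM.MEnd
import Pool.Agent.Lib.BM.Wr

set_option autoImplicit false

/-!
# BM.P1: block (P1)
-/

namespace Pool.Agent.Lib.BM

/-- The Bessel side. -/
theorem besX' : BesX Af Af1 Af2 Af3 Bf Bf1 Bf2 Bf3 := besX_of integral_I0_mul_K0_cubed

/-- Block (P1). -/
theorem p1 : StP1 := stP1 besX' (modX besX')

end Pool.Agent.Lib.BM
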