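import Pool.Agent.Lib.BM.LDer

/-!
# BM.LA: block (LA), the derivative of `y^3 T`
-/

set_option autoImplicit false

open Complex Filter Topology

namespace Pool.Agent.Lib.BM

namespace LDer

open LSum

/-! ### The weights -/

theorem chiR_neg (m : ℤ) : chiR (-m) = chiR m := by
  unfold chiR
  simp only [even_neg]

theorem uR_neg (m : ℤ) : uR (-m) = uR m := by
  unfold uR
  simp only [dvd_neg]

theorem abs_chiR (m : ℤ) : |chiR m| = 1 := by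
  unfold chiR
  split_ifs <;> simp

theorem uR_nonneg (m : ℤ) : 0 ≤ uR m := by
  unfold uR
  split_ifs <;> norm_num

theorem uR_le (m : ℤ) : uR m ≤ 1 := by
  unfold uR
  split_ifs <;> norm_num

/-- `u₁ u₃ = u₁ u₂` -/
theorem uR_mul_third (m n : ℤ) : uR m * uR (-m - n) = uR m * uR n := by
  unfold uR
  by_cases h : (3 : ℤ) ∣ m
  · have e : (3 : ℤ) ∣ -m - n ↔ (3 : ℤ) ∣ n := by
      constructor
      · intro h'
        have := (dvd_neg.2 (dvd_add h' h))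
        have e : -(-m - n + m) = n := by ring
        rwa [e] at this
      · intro h'
        exact dvd_sub (dvd_neg.2 h) h'
    rw [if_pos h]
    simp only [e]
  · rw [if_neg h, zero_mul, zero_mul]

theorem wA_third (m n : ℤ) : wA m (-m - n) = wA m n := by
  unfold wA
  rw [uR_mul_third]

theorem abs_wA_le (m n : ℤ) : |wA m n| ≤ 11 := by
  unfold wA
  rw [abs_mul, abs_chiR, one_mul]
  have h1 := uR_nonneg m
  have h2 := uR_le m
  have h3 := uR_nonneg n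
  have h4 := uR_le n
  have h5 : 0 ≤ uR m * uR n := mul_nonneg h1 h3
  have h6 : uR m * uR n ≤ 1 := mul_le_one₀ h2 h3 h4
  rw [abs_le]
  constructor <;> linarith

theorem abs_wB_le (m n : ℤ) : |wB m n| ≤ 3 := by
  unfold wB
  rw [abs_mul, abs_mul, abs_chiR, one_mul, abs_of_pos (by norm_num : (0 : ℝ) < 3), abs_of_nonneg (uR_nonneg n)]
  linarith [uR_le n]

theorem Wt_neg (m n : ℤ) : Wt (-m) (-n) = Wt m n := by
  unfold Wt wA
  have e : - -m - -n = -(-m - n) := by ring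
  rw [e, uR_neg, uR_neg, uR_neg, chiR_neg]

theorem abs_Wt_le (m n : ℤ) : |Wt m n| ≤ 13 := by
  unfold Wt
  have h0 := abs_wA_le m n
  have h1 := uR_nonneg n
  have h2 := uR_le n
  have h3 := uR_nonneg (-m - n)
  have h4 := uR_le (-m - n)
  have h5 : |3 / 2 * (chiR m * (uR n - uR (-m - n)))| ≤ 3 / 2 := by
    rw [abs_mul, abs_mul, abs_chiR, one_mul, abs_of_pos (by norm_num : (0 : ℝ) < 3 / 2)]
    have : |uR n - uR (-m - n)| ≤ 1 := by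
      rw [abs_le]
      constructor <;> linarith
    linarith
  have := abs_add_le (wA m n) (3 / 2 * (chiR m * (uR n - uR (-m - n))))
  linarith

theorem two_Wt (m n : ℤ) : wA m n + wB m n + (wA m (-m - n) - wB m (-m - n)) = 2 * Wt m n := by
  rw [wA_third]
  unfold Wt wB
  ring

/-! ### The exchange of the second and third point -/

/-- `(p, q) ↦ (p, -p - q)` -/
def ex : (ℤ × ℤ) × (ℤ × ℤ) ≃ (ℤ × ℤ) × (ℤ × ℤ) where
  toFun r := (r.1, -r.1 - r.2)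
  invFun r := (r.1, -r.1 - r.2)
  left_inv r := by
    refine Prod.ext rfl ?_
    show -r.1 - (-r.1 - r.2) = r.2
    abel
  right_inv r := by
    refine Prod.ext rfl ?_
    show -r.1 - (-r.1 - r.2) = r.2
    abel

theorem ex_apply (r : (ℤ × ℤ) × (ℤ × ℤ)) : ex r = (r.1, thd r) := rfl

theorem thd_ex (r : (ℤ × ℤ) × (ℤ × ℤ)) : thd (ex r) = r.2 := by
  show -r.1 - (-r.1 - r.2) = r.2
  abel

theorem Del_swap (a b c : ℂ) : Del a c b = -Del a b c := by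
  unfold Del
  ring

/-- `D_(0,0,1)` -/
noncomputable def DE (y : ℝ) (r : (ℤ × ℤ) × (ℤ × ℤ)) : ℂ := Del (av y (thd r)) (av y r.1) (av y r.2)

theorem DE_eq (y : ℝ) (r : (ℤ × ℤ) × (ℤ × ℤ)) : DE y r = -DD y (ex r) := by
  unfold DE DD
  rw [thd_ex, ex_apply, Del_swap]

theorem B3_ex (y : ℝ) (r : (ℤ × ℤ) × (ℤ × ℤ)) : B3 y (ex r) = B3 y r := by
  unfold B3
  rw [thd_ex, ex_apply]
  ring

theorem norm_DE_le {y : ℝ} (hy : 0 < y) (r : (ℤ × ℤ) × (ℤ × ℤ)) : ‖DE y r‖ ≤ 6 * B3 y r := by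
  rw [DE_eq, norm_neg, ← B3_ex]
  exact norm_DD_le hy _

theorem Tterm_eq (y : ℝ) (r : (ℤ × ℤ) × (ℤ × ℤ)) :
    Tterm y r = ((wA r.1.1 r.2.1 + wB r.1.1 r.2.1 : ℝ) : ℂ) * DD y r
      + ((wB r.1.1 r.2.1 - wA r.1.1 r.2.1 : ℝ) : ℂ) * DE y r := by
  unfold Tterm DD DE
  push_cast
  ring

theorem summable_weight {y : ℝ} (hy : 0 < y) (w : (ℤ × ℤ) × (ℤ × ℤ) → ℂ) (W : ℝ) (hw : ∀ r, ‖w r‖ ≤ W)
    {F : (ℤ × ℤ) × (ℤ × ℤ) → ℂ} (C : ℝ) (hF : ∀ r, ‖F r‖ ≤ C * B3 y r) : Summable fun r => w r * F r := by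
  have hW : 0 ≤ W := (norm_nonneg _).trans (hw 0)
  refine summable_double hy (W * C) fun r => ?_
  rw [norm_mul, mul_assoc]
  exact mul_le_mul (hw r) (hF r) (norm_nonneg _) hW

theorem norm_w1 (r : (ℤ × ℤ) × (ℤ × ℤ)) : ‖((wA r.1.1 r.2.1 + wB r.1.1 r.2.1 : ℝ) : ℂ)‖ ≤ 14 := by
  rw [norm_real, Real.norm_eq_abs]
  have := abs_add_le (wA r.1.1 r.2.1) (wB r.1.1 r.2.1)
  have := abs_wA_le r.1.1 r.2.1
  have := abs_wB_le r.1.1 r.2.1
  linarith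

theorem norm_w2 (r : (ℤ × ℤ) × (ℤ × ℤ)) : ‖((wB r.1.1 r.2.1 - wA r.1.1 r.2.1 : ℝ) : ℂ)‖ ≤ 14 := by
  rw [norm_real, Real.norm_eq_abs]
  have := abs_sub (wB r.1.1 r.2.1) (wA r.1.1 r.2.1)
  have := abs_wA_le r.1.1 r.2.1
  have := abs_wB_le r.1.1 r.2.1
  linarith

theorem summable_Tterm {y : ℝ} (hy : 0 < y) : Summable (Tterm y) := by
  have h1 := summable_weight hy _ 14 norm_w1 6 (norm_DD_le hy)
  have h2 := summable_weight hy _ 14 norm_w2 6 (norm_DE_le hy)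
  exact (h1.add h2).congr fun r => (Tterm_eq y r).symm

theorem norm_w3 (r : (ℤ × ℤ) × (ℤ × ℤ)) : ‖(2 * (Wt r.1.1 r.2.1 : ℂ))‖ ≤ 26 := by
  rw [norm_mul, norm_ofNat, norm_real, Real.norm_eq_abs]
  linarith [abs_Wt_le r.1.1 r.2.1]

/-- `T = 2 ∑ Wt D_(0,1,0)` -/
theorem TL_eq {y : ℝ} (hy : 0 < y) : TL y = ∑' r : (ℤ × ℤ) × (ℤ × ℤ), 2 * (Wt r.1.1 r.2.1 : ℂ) * DD y r := by
  have h1 := summable_weight hy _ 14 norm_w1 6 (norm_DD_le hy)
  have h2 := summable_weight hy _ 14 norm_w2 6 (norm_DE_le hy)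
  unfold TL
  have e2 : ∑' r : (ℤ × ℤ) × (ℤ × ℤ), ((wB r.1.1 r.2.1 - wA r.1.1 r.2.1 : ℝ) : ℂ) * DE y r
      = ∑' r : (ℤ × ℤ) × (ℤ × ℤ), ((wA r.1.1 (thd r).1 - wB r.1.1 (thd r).1 : ℝ) : ℂ) * DD y r := by
    rw [← ex.tsum_eq fun r : (ℤ × ℤ) × (ℤ × ℤ) => ((wA r.1.1 (thd r).1 - wB r.1.1 (thd r).1 : ℝ) : ℂ) * DD y r]
    refine tsum_congr fun r => ?_
    rw [DE_eq, thd_ex, ex_apply]
    push_cast
    ring
  have h3 : Summable fun r : (ℤ × ℤ) × (ℤ × ℤ) => ((wA r.1.1 (thd r).1 - wB r.1.1 (thd r).1 : ℝ) : ℂ) * DD y r := by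
    refine summable_weight hy _ 14 (fun r => ?_) 6 (norm_DD_le hy)
    rw [norm_real, Real.norm_eq_abs]
    have := abs_sub (wA r.1.1 (thd r).1) (wB r.1.1 (thd r).1)
    have := abs_wA_le r.1.1 (thd r).1
    have := abs_wB_le r.1.1 (thd r).1
    linarith
  rw [tsum_congr (Tterm_eq y), h1.tsum_add h2, e2, ← h1.tsum_add h3]
  refine tsum_congr fun r => ?_
  have h := two_Wt r.1.1 r.2.1
  have h' : (thd r).1 = -r.1.1 - r.2.1 := rfl
  rw [← add_mul, ← ofReal_add, h', h]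
  push_cast
  ring

end LDer

open LDer LSum in
/-- Block (LA), part 1. -/
theorem stLA : StLA := by
  intro y hy
  have h := hasDerivAt_main hy (fun r => 2 * (Wt r.1.1 r.2.1 : ℂ)) 26 norm_w3 (fun r => by
    show 2 * (Wt (-r.1.1) (-r.2.1) : ℂ) = 2 * (Wt r.1.1 r.2.1 : ℂ)
    rw [Wt_neg])
  have e : (fun t : ℝ => (t : ℂ) ^ 3 * TL t) =ᶠ[𝓝 y]
      fun t : ℝ => (t : ℂ) ^ 3 * ∑' r : (ℤ × ℤ) × (ℤ × ℤ), 2 * (Wt r.1.1 r.2.1 : ℂ) * DD t r := by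
    filter_upwards [lt_mem_nhds hy] with t ht
    rw [TL_eq ht]
  exact h.congr_of_eventuallyEq e

end Pool.Agent.Lib.BM
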