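import Pool.Agent.Lib.BM.LSum
import Pool.Agent.Lib.BM.LDefs

set_option autoImplicit false

/-!
# BM.LK: derivative of `y^3 K_42`
-/

open Complex Filter Topology

namespace Pool.Agent.Lib.BM

namespace LKAux

theorem av_bound {y : ℝ} (hy : 0 < y) : ∃ M : ℝ, 0 < M ∧ ∀ p : ℤ × ℤ, ‖av y p‖ ≤ M := by
  obtain ⟨c, hc, h⟩ := LSum.norm_lam_ge hy
  refine ⟨c⁻¹, inv_pos.2 hc, fun p => ?_⟩
  by_cases hp : p = 0
  · rw [hp, LSum.av_zero, norm_zero]
    exact (inv_pos.2 hc).le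
  · unfold av
    rw [norm_inv]
    refine inv_anti₀ hc ?_
    have h1 : (1 : ℝ) ≤ ‖p‖ := by
      rw [Prod.norm_def, Int.norm_eq_abs, Int.norm_eq_abs]
      by_cases h2 : p.1 = 0
      · have h3 : p.2 ≠ 0 := fun h3 => hp (Prod.ext h2 h3)
        refine le_trans ?_ (le_max_right _ _)
        have := Int.one_le_abs h3
        exact_mod_cast this
      · refine le_trans ?_ (le_max_left _ _)
        have := Int.one_le_abs h2
        exact_mod_cast this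
    nlinarith [h p]

theorem Wh_bound (m : ℤ) : |Wh m| ≤ 16 := by
  unfold Wh chiR uR
  split_ifs <;> norm_num

/-- relation between the derivative of a point and the point -/
theorem two_I_mul {y : ℝ} (p : ℤ × ℤ) :
    2 * (y : ℂ) * (I * (p.1 : ℂ)) = lam y p - (starRingEnd ℂ) (lam y p) := by
  unfold lam
  simp only [map_add, map_mul, map_intCast, map_div₀, map_one, conj_I, conj_ofReal, map_ofNat]
  ring

theorem conj_av_inv (y : ℝ) (p : ℤ × ℤ) : (starRingEnd ℂ) (av y p) = ((starRingEnd ℂ) (lam y p))⁻¹ := by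
  unfold av
  rw [map_inv₀]

theorem point_identity {y : ℝ} (hy : 0 < y) (p : ℤ × ℤ) :
    3 * (y : ℂ) ^ 2 * (av y p ^ 4 * (starRingEnd ℂ) (av y p) ^ 2) +
      (y : ℂ) ^ 3 * (-4 * (I * (p.1 : ℂ)) * av y p ^ 5 * (starRingEnd ℂ) (av y p) ^ 2 +
        2 * (I * (p.1 : ℂ)) * av y p ^ 4 * (starRingEnd ℂ) (av y p) ^ 3) =
      (y : ℂ) ^ 2 * (2 * (av y p ^ 5 * (starRingEnd ℂ) (av y p) ^ 1) +
        av y p ^ 3 * (starRingEnd ℂ) (av y p) ^ 3) := by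
  by_cases hp : p = 0
  · subst hp
    simp [LSum.av_zero]
  · have h0 : lam y p ≠ 0 := LSum.lam_ne_zero hy hp
    have h1 : (starRingEnd ℂ) (lam y p) ≠ 0 := by
      intro h
      exact h0 ((map_eq_zero _).1 h)
    have h2 : I * (p.1 : ℂ) = (lam y p - (starRingEnd ℂ) (lam y p)) / (2 * (y : ℂ)) := by
      have hyc : (y : ℂ) ≠ 0 := by exact_mod_cast hy.ne'
      rw [eq_div_iff (mul_ne_zero two_ne_zero hyc), ← two_I_mul p]
      ring
    rw [h2, conj_av_inv]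
    unfold av
    have hyc : (y : ℂ) ≠ 0 := by exact_mod_cast hy.ne'
    field_simp
    ring

theorem term_deriv {y : ℝ} (hy : 0 < y) (p : ℤ × ℤ) :
    HasDerivAt (fun t : ℝ => (Wh p.1 : ℂ) * (av t p ^ 4 * (starRingEnd ℂ) (av t p) ^ 2))
      ((Wh p.1 : ℂ) * (-4 * (I * (p.1 : ℂ)) * av y p ^ 5 * (starRingEnd ℂ) (av y p) ^ 2 +
        2 * (I * (p.1 : ℂ)) * av y p ^ 4 * (starRingEnd ℂ) (av y p) ^ 3)) y := by
  have h := (((LSum.hasDerivAt_av hy p).fun_pow 4).mul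
    ((LSum.hasDerivAt_conj_av hy p).fun_pow 2)).const_mul (Wh p.1 : ℂ)
  refine h.congr_deriv ?_
  simp only [show (4 : ℕ) - 1 = 3 from rfl, show (2 : ℕ) - 1 = 1 from rfl, pow_one]
  push_cast
  ring

theorem term_bound {x M : ℝ} (p : ℤ × ℤ) (hM : ‖av x p‖ ≤ M) :
    ‖(Wh p.1 : ℂ) * (av x p ^ 4 * (starRingEnd ℂ) (av x p) ^ 2)‖ ≤ 16 * M ^ 3 * ‖av x p‖ ^ 3 := by
  rw [norm_mul, norm_mul, norm_pow, norm_pow, RCLike.norm_conj, norm_real, Real.norm_eq_abs]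
  have h1 := Wh_bound p.1
  have h0 : 0 ≤ ‖av x p‖ := norm_nonneg _
  have h2 : ‖av x p‖ ^ 3 ≤ M ^ 3 := pow_le_pow_left₀ h0 hM 3
  calc |Wh p.1| * (‖av x p‖ ^ 4 * ‖av x p‖ ^ 2) = |Wh p.1| * (‖av x p‖ ^ 3 * ‖av x p‖ ^ 3) := by ring
    _ ≤ 16 * (M ^ 3 * ‖av x p‖ ^ 3) :=
      mul_le_mul h1 (mul_le_mul_of_nonneg_right h2 (by positivity)) (by positivity) (by norm_num)
    _ = _ := by ring

theorem term_bound' {x M : ℝ} (hx : 0 < x) (p : ℤ × ℤ) (hM : ‖av x p‖ ≤ M) :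
    ‖(Wh p.1 : ℂ) * (-4 * (I * (p.1 : ℂ)) * av x p ^ 5 * (starRingEnd ℂ) (av x p) ^ 2 +
        2 * (I * (p.1 : ℂ)) * av x p ^ 4 * (starRingEnd ℂ) (av x p) ^ 3)‖ ≤
      96 * M ^ 3 / x * ‖av x p‖ ^ 3 := by
  have h0 : 0 ≤ ‖av x p‖ := norm_nonneg _
  have h3 := LSum.abs_mul_norm_av hx p
  have h2 : ‖av x p‖ ^ 3 ≤ M ^ 3 := pow_le_pow_left₀ h0 hM 3
  have h1 := Wh_bound p.1
  have e : -4 * (I * (p.1 : ℂ)) * av x p ^ 5 * (starRingEnd ℂ) (av x p) ^ 2 +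
        2 * (I * (p.1 : ℂ)) * av x p ^ 4 * (starRingEnd ℂ) (av x p) ^ 3 =
      (I * (p.1 : ℂ)) * (-4 * (av x p ^ 5 * (starRingEnd ℂ) (av x p) ^ 2) +
        2 * (av x p ^ 4 * (starRingEnd ℂ) (av x p) ^ 3)) := by ring
  rw [e, norm_mul, norm_mul, norm_real, Real.norm_eq_abs]
  have h4 : ‖-4 * (av x p ^ 5 * (starRingEnd ℂ) (av x p) ^ 2) +
        2 * (av x p ^ 4 * (starRingEnd ℂ) (av x p) ^ 3)‖ ≤ 6 * ‖av x p‖ ^ 7 := by
    refine (norm_add_le _ _).trans ?_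
    rw [norm_mul, norm_mul, norm_mul, norm_mul, norm_pow, norm_pow, norm_pow, norm_pow, RCLike.norm_conj]
    norm_num
    apply le_of_eq
    ring
  calc |Wh p.1| * (‖I * (p.1 : ℂ)‖ * ‖-4 * (av x p ^ 5 * (starRingEnd ℂ) (av x p) ^ 2) +
        2 * (av x p ^ 4 * (starRingEnd ℂ) (av x p) ^ 3)‖)
      ≤ 16 * (‖I * (p.1 : ℂ)‖ * (6 * ‖av x p‖ ^ 7)) :=
        mul_le_mul h1 (mul_le_mul_of_nonneg_left h4 (norm_nonneg _)) (by positivity) (by norm_num)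
    _ = 96 * ((‖I * (p.1 : ℂ)‖ * ‖av x p‖) * (‖av x p‖ ^ 3 * ‖av x p‖ ^ 3)) := by ring
    _ ≤ 96 * (1 / x * (M ^ 3 * ‖av x p‖ ^ 3)) := by
        refine mul_le_mul_of_nonneg_left (mul_le_mul h3
          (mul_le_mul_of_nonneg_right h2 (by positivity)) (by positivity) (by positivity)) (by norm_num)
    _ = _ := by ring

end LKAux

open LKAux

/-- Block (LA), part 2: derivative of `y^3 K_42`. -/
theorem stLK : StLK := by
  intro y hy
  have hy2 : 0 < y / 2 := by positivity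
  obtain ⟨M, hM0, hM⟩ := av_bound hy2
  have hMx : ∀ x, y / 2 < x → ∀ p : ℤ × ℤ, ‖av x p‖ ≤ M := fun x hx p =>
    (LSum.norm_av_anti hy2 hx.le p).trans (hM p)
  have hK : HasDerivAt Kh42 (∑' p : ℤ × ℤ, ((Wh p.1 : ℂ) *
      (-4 * (I * (p.1 : ℂ)) * av y p ^ 5 * (starRingEnd ℂ) (av y p) ^ 2 +
        2 * (I * (p.1 : ℂ)) * av y p ^ 4 * (starRingEnd ℂ) (av y p) ^ 3))) y := by
    have hu : Summable fun p : ℤ × ℤ => 96 * M ^ 3 / (y / 2) * ‖av (y / 2) p‖ ^ 3 :=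
      (LSum.summable_av3 hy2).mul_left _
    refine hasDerivAt_tsum_of_isPreconnected (𝕜 := ℝ)
      (g := fun (p : ℤ × ℤ) (t : ℝ) => (Wh p.1 : ℂ) * (av t p ^ 4 * (starRingEnd ℂ) (av t p) ^ 2))
      hu (isOpen_Ioi (a := y / 2)) isPreconnected_Ioi
      (fun p x hx => term_deriv (hy2.trans hx) p) (fun p x hx => ?_)
      (show y ∈ Set.Ioi (y / 2) from half_lt_self hy)
      (LSum.summable_single hy (16 * M ^ 3) fun p => term_bound p (hMx y (half_lt_self hy) p))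
      (show y ∈ Set.Ioi (y / 2) from half_lt_self hy)
    have hx0 : 0 < x := hy2.trans hx
    refine (term_bound' hx0 p (hMx x hx p)).trans ?_
    have h1 := LSum.norm_av_anti hy2 (le_of_lt hx) p
    have h2 : 96 * M ^ 3 / x ≤ 96 * M ^ 3 / (y / 2) :=
      div_le_div_of_nonneg_left (by positivity) hy2 (le_of_lt hx)
    exact mul_le_mul h2 (pow_le_pow_left₀ (norm_nonneg _) h1 3) (by positivity) (by positivity)
  have hc : HasDerivAt (fun t : ℝ => (t : ℂ) ^ 3) (3 * (y : ℂ) ^ 2) y := by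
    have h1 : HasDerivAt (fun t : ℝ => (t : ℂ)) 1 y := Complex.ofRealCLM.hasDerivAt
    refine (h1.fun_pow 3).congr_deriv ?_
    norm_num
  refine (hc.mul hK).congr_deriv ?_
  have hMy := hMx y (half_lt_self hy)
  have s0 : Summable fun p : ℤ × ℤ => (Wh p.1 : ℂ) * (av y p ^ 4 * (starRingEnd ℂ) (av y p) ^ 2) :=
    LSum.summable_single hy (16 * M ^ 3) fun p => term_bound p (hMy p)
  have s1 : Summable fun p : ℤ × ℤ => (Wh p.1 : ℂ) *
      (-4 * (I * (p.1 : ℂ)) * av y p ^ 5 * (starRingEnd ℂ) (av y p) ^ 2 +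
        2 * (I * (p.1 : ℂ)) * av y p ^ 4 * (starRingEnd ℂ) (av y p) ^ 3) :=
    LSum.summable_single hy (96 * M ^ 3 / y) fun p => term_bound' hy p (hMy p)
  have b51 : ∀ a b : ℕ, a + b = 6 → Summable fun p : ℤ × ℤ =>
      (Wh p.1 : ℂ) * (av y p ^ a * (starRingEnd ℂ) (av y p) ^ b) := by
    intro a b hab
    refine LSum.summable_single hy (16 * M ^ 3) fun p => ?_
    rw [norm_mul, norm_mul, norm_pow, norm_pow, RCLike.norm_conj, norm_real, Real.norm_eq_abs,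
      ← pow_add, hab]
    have h2 : ‖av y p‖ ^ 3 ≤ M ^ 3 := pow_le_pow_left₀ (norm_nonneg _) (hMy p) 3
    calc |Wh p.1| * ‖av y p‖ ^ 6 = |Wh p.1| * (‖av y p‖ ^ 3 * ‖av y p‖ ^ 3) := by ring
      _ ≤ 16 * (M ^ 3 * ‖av y p‖ ^ 3) :=
        mul_le_mul (Wh_bound p.1) (mul_le_mul_of_nonneg_right h2 (by positivity)) (by positivity)
          (by norm_num)
      _ = _ := by ring
  have s51 := b51 5 1 rfl
  have s33 := b51 3 3 rfl
  show 3 * (y : ℂ) ^ 2 * Kh42 y + (y : ℂ) ^ 3 * _ = _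
  unfold Kh42 Kh51 Kh33 Kab
  rw [← tsum_mul_left, ← tsum_mul_left, ← (s0.mul_left _).tsum_add (s1.mul_left _), ← tsum_mul_left,
    ← (s51.mul_left _).tsum_add s33, ← tsum_mul_left]
  refine tsum_congr fun p => ?_
  have := point_identity hy p
  linear_combination (Wh p.1 : ℂ) * this

end Pool.Agent.Lib.BM
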