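import Pool.Agent.Lib.BM.LDefs
import Pool.Agent.Lib.BM.E2

set_option autoImplicit false

/-! # BM.StE2: Kronecker's limit formula in the names of BM.LDefs -/

namespace Pool.Agent.Lib.BM

open Filter Topology

theorem r11_eq (y : ℝ) (m : ℤ) : r11 y m = rr y m := by
  unfold r11 rr
  refine tsum_congr fun n => ?_
  unfold av lam
  rw [norm_inv, inv_pow, Complex.normSq_eq_norm_sq]

theorem stE2_full {y : ℝ} (hy : 0 < y) :
    Tendsto (LhPart y) atTop (𝓝 (-(4 * Real.pi / 3) * lx y / y)) := by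
  have h := (E2Aux.tendsto_a hy).add ((E2Aux.tendsto_b hy).const_mul 3)
  have e : aL y + 3 * bL y = -(4 * Real.pi / 3) * lx y / y := by
    rw [eq_div_iff hy.ne', mul_comm]
    exact aL_bL hy
  rw [e] at h
  refine h.congr fun M => ?_
  unfold LhPart
  rw [Finset.mul_sum, ← Finset.sum_add_distrib]
  refine Finset.sum_congr rfl fun m _ => ?_
  have e1 : chiR m = E2Aux.sg m := rfl
  have e2 : uR m = E2Aux.t3 m := rfl
  rw [r11_eq]
  unfold Wl
  rw [e1, e2]
  ring

/-- **Block (E2)**. -/
theorem stE2 : StE2 := fun y hy =>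
  stE2_full (lt_of_lt_of_le (by unfold y0; positivity) hy)

end Pool.Agent.Lib.BM
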