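import Pool.Agent.Lib.BM.LDefs

/-!
# BM.LSum: absolute convergence of the lattice sums and termwise derivatives
-/

set_option autoImplicit false

open Complex Filter Topology

namespace Pool.Agent.Lib.BM

namespace LSum

theorem lam_re (y : ℝ) (p : ℤ × ℤ) : (lam y p).re = (p.1 : ℝ) / 2 + p.2 := by
  simp [lam]
  ring

theorem lam_im (y : ℝ) (p : ℤ × ℤ) : (lam y p).im = (p.1 : ℝ) * y := by
  simp [lam]

theorem lam_zero (y : ℝ) : lam y 0 = 0 := by simp [lam]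

theorem av_zero (y : ℝ) : av y 0 = 0 := by simp [av, lam_zero]

theorem normSq_lam (y : ℝ) (p : ℤ × ℤ) : normSq (lam y p) = ((p.1 : ℝ) / 2 + p.2) ^ 2 + ((p.1 : ℝ) * y) ^ 2 := by
  rw [normSq_apply, lam_re, lam_im]
  ring

theorem sq_norm_lam (y : ℝ) (p : ℤ × ℤ) : ‖lam y p‖ ^ 2 = ((p.1 : ℝ) / 2 + p.2) ^ 2 + ((p.1 : ℝ) * y) ^ 2 := by
  rw [← normSq_eq_norm_sq, normSq_lam]

theorem lam_add (y : ℝ) (p q : ℤ × ℤ) : lam y (p + q) = lam y p + lam y q := by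
  simp only [lam, Prod.fst_add, Prod.snd_add]
  push_cast
  ring

theorem lam_neg (y : ℝ) (p : ℤ × ℤ) : lam y (-p) = -lam y p := by
  simp only [lam, Prod.fst_neg, Prod.snd_neg]
  push_cast
  ring

theorem lam_sub (y : ℝ) (p q : ℤ × ℤ) : lam y (p - q) = lam y p - lam y q := by
  rw [sub_eq_add_neg, lam_add, lam_neg, sub_eq_add_neg]

theorem lam_eq_zero {y : ℝ} (hy : 0 < y) {p : ℤ × ℤ} (h : lam y p = 0) : p = 0 := by
  have h1 := congrArg Complex.im h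
  rw [lam_im, zero_im] at h1
  have h2 : (p.1 : ℝ) = 0 := by
    rcases mul_eq_zero.1 h1 with h | h
    · exact h
    · exact absurd h hy.ne'
  have h3 := congrArg Complex.re h
  rw [lam_re, zero_re, h2] at h3
  have h4 : (p.2 : ℝ) = 0 := by linarith
  ext
  · exact_mod_cast h2
  · exact_mod_cast h4

theorem lam_ne_zero {y : ℝ} (hy : 0 < y) {p : ℤ × ℤ} (h : p ≠ 0) : lam y p ≠ 0 := fun h' => h (lam_eq_zero hy h')

theorem norm_lam_mono {y₁ y : ℝ} (h1 : 0 < y₁) (h : y₁ ≤ y) (p : ℤ × ℤ) : ‖lam y₁ p‖ ≤ ‖lam y p‖ := by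
  have h2 : ‖lam y₁ p‖ ^ 2 ≤ ‖lam y p‖ ^ 2 := by
    rw [sq_norm_lam, sq_norm_lam, mul_pow, mul_pow]
    have : y₁ ^ 2 ≤ y ^ 2 := pow_le_pow_left₀ h1.le h 2
    nlinarith [sq_nonneg (p.1 : ℝ)]
  exact le_of_sq_le_sq h2 (norm_nonneg _)

theorem norm_av_anti {y₁ y : ℝ} (h1 : 0 < y₁) (h : y₁ ≤ y) (p : ℤ × ℤ) : ‖av y p‖ ≤ ‖av y₁ p‖ := by
  unfold av
  rw [norm_inv, norm_inv]
  by_cases hp : p = 0
  · rw [hp, lam_zero, lam_zero]
  · exact inv_anti₀ (norm_pos_iff.2 (lam_ne_zero h1 hp)) (norm_lam_mono h1 h p)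

/-- The lower bound. -/
theorem norm_lam_ge {y : ℝ} (hy : 0 < y) : ∃ c : ℝ, 0 < c ∧ ∀ p : ℤ × ℤ, c * ‖p‖ ≤ ‖lam y p‖ := by
  refine ⟨min (1 / 2) (y / 2), by positivity, fun p => ?_⟩
  set c := min (1 / 2) (y / 2) with hc
  have hc0 : 0 < c := by positivity
  have hc1 : c ≤ 1 / 2 := min_le_left _ _
  have hc2 : c ≤ y / 2 := min_le_right _ _
  have hsq := sq_norm_lam y p
  have hm : c * |(p.1 : ℝ)| ≤ ‖lam y p‖ := by
    apply le_of_sq_le_sq _ (norm_nonneg _)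
    rw [hsq, mul_pow, sq_abs, mul_pow]
    have : c ^ 2 ≤ y ^ 2 := pow_le_pow_left₀ hc0.le (by linarith) 2
    nlinarith [sq_nonneg (p.1 : ℝ), sq_nonneg ((p.1 : ℝ) / 2 + p.2)]
  have hn : c * |(p.2 : ℝ)| ≤ ‖lam y p‖ := by
    apply le_of_sq_le_sq _ (norm_nonneg _)
    rw [hsq, mul_pow, sq_abs]
    have e1 : c ^ 2 ≤ (1 / 2) ^ 2 := pow_le_pow_left₀ hc0.le hc1 2
    have e2 : c ^ 2 ≤ (y / 2) ^ 2 := pow_le_pow_left₀ hc0.le hc2 2
    have e3 : (p.2 : ℝ) ^ 2 ≤ 2 * ((p.1 : ℝ) / 2 + p.2) ^ 2 + (p.1 : ℝ) ^ 2 / 2 := by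
      nlinarith [sq_nonneg ((p.1 : ℝ) / 2 + p.2 + (p.1 : ℝ) / 2)]
    have e4 : c ^ 2 * (p.2 : ℝ) ^ 2 ≤ c ^ 2 * (2 * ((p.1 : ℝ) / 2 + p.2) ^ 2 + (p.1 : ℝ) ^ 2 / 2) :=
      mul_le_mul_of_nonneg_left e3 (sq_nonneg _)
    nlinarith [sq_nonneg (p.1 : ℝ), sq_nonneg ((p.1 : ℝ) / 2 + p.2)]
  have hnorm : ‖p‖ = max |(p.1 : ℝ)| |(p.2 : ℝ)| := by
    rw [Prod.norm_def, Int.norm_eq_abs, Int.norm_eq_abs]
  rw [hnorm, mul_max_of_nonneg _ _ hc0.le]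
  exact max_le hm hn

theorem summable_norm_rpow : Summable fun p : ℤ × ℤ => ‖p‖ ^ (-(3 : ℝ)) := by
  have h := EisensteinSeries.summable_one_div_norm_rpow (k := 3) (by norm_num)
  rw [← (finTwoArrowEquiv ℤ).symm.summable_iff] at h
  refine h.congr fun p => ?_
  simp only [Function.comp]
  congr 1
  rw [Prod.norm_def]
  simp [Pi.norm_def, finTwoArrowEquiv, Fin.univ_succ, NNReal.coe_max]

theorem summable_av3 {y : ℝ} (hy : 0 < y) : Summable fun p : ℤ × ℤ => ‖av y p‖ ^ 3 := by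
  obtain ⟨c, hc, h⟩ := norm_lam_ge hy
  refine (summable_norm_rpow.mul_left (c ^ 3)⁻¹).of_nonneg_of_le (fun p => by positivity) fun p => ?_
  unfold av
  rw [norm_inv]
  by_cases hp : p = 0
  · rw [hp, lam_zero]
    simp
  · have h0 : 0 < ‖p‖ := norm_pos_iff.2 hp
    have h1 : 0 < c * ‖p‖ := by positivity
    have h2 := inv_anti₀ h1 (h p)
    calc (‖lam y p‖⁻¹) ^ 3 ≤ ((c * ‖p‖)⁻¹) ^ 3 := pow_le_pow_left₀ (by positivity) h2 3
      _ = (c ^ 3)⁻¹ * ‖p‖ ^ (-(3 : ℝ)) := by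
        rw [Real.rpow_neg h0.le, show (3 : ℝ) = ((3 : ℕ) : ℝ) by norm_num, Real.rpow_natCast, inv_pow, mul_pow, mul_inv]

/-! ### Derivatives -/

theorem hasDerivAt_lam (y : ℝ) (p : ℤ × ℤ) : HasDerivAt (fun y : ℝ => lam y p) (I * (p.1 : ℂ)) y := by
  unfold lam
  have h1 : HasDerivAt (fun y : ℝ => (y : ℂ)) 1 y := Complex.ofRealCLM.hasDerivAt
  have h2 := (((h1.const_mul I).const_add (1 / 2 : ℂ)).const_mul (p.1 : ℂ)).add_const (p.2 : ℂ)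
  exact h2.congr_deriv (by ring)

theorem hasDerivAt_av {y : ℝ} (hy : 0 < y) (p : ℤ × ℤ) :
    HasDerivAt (fun y : ℝ => av y p) (-(I * (p.1 : ℂ)) * av y p ^ 2) y := by
  by_cases hp : p = 0
  · subst hp
    simp only [av_zero]
    simpa using hasDerivAt_const y (0 : ℂ)
  · have h := (hasDerivAt_lam y p).fun_inv (lam_ne_zero hy hp)
    unfold av
    exact h.congr_deriv (by rw [inv_pow, div_eq_mul_inv])

theorem hasDerivAt_conj_av {y : ℝ} (hy : 0 < y) (p : ℤ × ℤ) :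
    HasDerivAt (fun y : ℝ => (starRingEnd ℂ) (av y p)) (I * (p.1 : ℂ) * (starRingEnd ℂ) (av y p) ^ 2) y := by
  have h := (hasDerivAt_av hy p).star
  refine h.congr_deriv ?_
  rw [← starRingEnd_apply, map_mul, map_neg, map_mul, conj_I, map_pow, map_intCast]
  ring

/-- `|m| |a| ≤ 1 / y` -/
theorem abs_mul_norm_av {y : ℝ} (hy : 0 < y) (p : ℤ × ℤ) : ‖I * (p.1 : ℂ)‖ * ‖av y p‖ ≤ 1 / y := by
  rw [norm_mul, norm_I, one_mul]
  by_cases hp : p = 0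
  · subst hp
    rw [av_zero]
    simp
    positivity
  · have h0 : 0 < ‖lam y p‖ := norm_pos_iff.2 (lam_ne_zero hy hp)
    have h1 : |(lam y p).im| ≤ ‖lam y p‖ := abs_im_le_norm _
    rw [lam_im, abs_mul, abs_of_pos hy] at h1
    unfold av
    rw [norm_inv, ← div_eq_mul_inv, div_le_div_iff₀ h0 hy, one_mul]
    simpa using h1

/-- The term of a single sum. -/
theorem summable_single {y : ℝ} (hy : 0 < y) {F : ℤ × ℤ → ℂ} (C : ℝ) (h : ∀ p, ‖F p‖ ≤ C * ‖av y p‖ ^ 3) :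
    Summable F :=
  Summable.of_norm_bounded ((summable_av3 hy).mul_left C) h

theorem hasDerivAt_tsum_single {y : ℝ} (hy : 0 < y) {F F' : ℝ → ℤ × ℤ → ℂ} (C : ℝ) (hC : 0 ≤ C)
    (hF : ∀ x, 0 < x → ∀ p, HasDerivAt (fun x => F x p) (F' x p) x)
    (hb : ∀ x, 0 < x → ∀ p, ‖F x p‖ ≤ C * ‖av x p‖ ^ 3)
    (hb' : ∀ x, 0 < x → ∀ p, ‖F' x p‖ ≤ C / x * ‖av x p‖ ^ 3) :
    HasDerivAt (fun x => ∑' p, F x p) (∑' p, F' y p) y := by
  have hy2 : 0 < y / 2 := by positivity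
  have hu : Summable fun p : ℤ × ℤ => C / (y / 2) * ‖av (y / 2) p‖ ^ 3 := (summable_av3 hy2).mul_left _
  refine hasDerivAt_tsum_of_isPreconnected hu (isOpen_Ioi (a := y / 2)) isPreconnected_Ioi
    (fun p x hx => hF x (hy2.trans hx) p) (fun p x hx => ?_) (show y ∈ Set.Ioi (y / 2) from half_lt_self hy)
    (summable_single hy C (hb y hy)) (show y ∈ Set.Ioi (y / 2) from half_lt_self hy)
  have hx0 : 0 < x := hy2.trans hx
  refine (hb' x hx0 p).trans ?_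
  have h1 := norm_av_anti hy2 (le_of_lt hx) p
  have h2 : C / x ≤ C / (y / 2) := div_le_div_of_nonneg_left hC hy2 (le_of_lt hx)
  exact mul_le_mul h2 (pow_le_pow_left₀ (norm_nonneg _) h1 3) (by positivity) (by positivity)

/-! ### Double sums -/

/-- The third point of a triple. -/
abbrev thd (r : (ℤ × ℤ) × (ℤ × ℤ)) : ℤ × ℤ := -r.1 - r.2

/-- The majorant of the double sums. -/
noncomputable def B3 (y : ℝ) (r : (ℤ × ℤ) × (ℤ × ℤ)) : ℝ :=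
  ‖av y r.1‖ ^ 3 * ‖av y r.2‖ ^ 3 + ‖av y r.2‖ ^ 3 * ‖av y (thd r)‖ ^ 3 + ‖av y (thd r)‖ ^ 3 * ‖av y r.1‖ ^ 3

theorem B3_nonneg (y : ℝ) (r : (ℤ × ℤ) × (ℤ × ℤ)) : 0 ≤ B3 y r := by
  unfold B3
  positivity

/-- The cyclic permutation `(1, 2, 3) → (2, 3, 1)` of the triples. -/
def cyc : (ℤ × ℤ) × (ℤ × ℤ) ≃ (ℤ × ℤ) × (ℤ × ℤ) where
  toFun r := (r.2, -r.1 - r.2)
  invFun r := (-r.1 - r.2, r.1)
  left_inv r := by
    refine Prod.ext ?_ rfl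
    show -r.2 - (-r.1 - r.2) = r.1
    abel
  right_inv r := by
    refine Prod.ext rfl ?_
    show -(-r.1 - r.2) - r.1 = r.2
    abel

theorem cyc_apply (r : (ℤ × ℤ) × (ℤ × ℤ)) : cyc r = (r.2, thd r) := rfl

theorem thd_cyc (r : (ℤ × ℤ) × (ℤ × ℤ)) : thd (cyc r) = r.1 := by
  show -r.2 - (-r.1 - r.2) = r.1
  abel

theorem summable_pair {y : ℝ} (hy : 0 < y) :
    Summable fun r : (ℤ × ℤ) × (ℤ × ℤ) => ‖av y r.1‖ ^ 3 * ‖av y r.2‖ ^ 3 :=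
  (summable_av3 hy).mul_of_nonneg (summable_av3 hy) (fun p => by positivity) (fun p => by positivity)

theorem summable_B3 {y : ℝ} (hy : 0 < y) : Summable (B3 y) := by
  have h1 := summable_pair hy
  have h2 : Summable fun r : (ℤ × ℤ) × (ℤ × ℤ) => ‖av y r.2‖ ^ 3 * ‖av y (thd r)‖ ^ 3 := by
    refine (cyc.summable_iff.2 h1).congr fun r => ?_
    simp only [Function.comp, cyc_apply]
  have h3 : Summable fun r : (ℤ × ℤ) × (ℤ × ℤ) => ‖av y (thd r)‖ ^ 3 * ‖av y r.1‖ ^ 3 := by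
    refine (cyc.summable_iff.2 h2).congr fun r => ?_
    show ‖av y (thd r)‖ ^ 3 * ‖av y (thd (cyc r))‖ ^ 3 = _
    rw [thd_cyc]
  exact (h1.add h2).add h3

theorem B3_anti {y₁ y : ℝ} (h1 : 0 < y₁) (h : y₁ ≤ y) (r : (ℤ × ℤ) × (ℤ × ℤ)) : B3 y r ≤ B3 y₁ r := by
  unfold B3
  have e : ∀ p, ‖av y p‖ ^ 3 ≤ ‖av y₁ p‖ ^ 3 := fun p => pow_le_pow_left₀ (norm_nonneg _) (norm_av_anti h1 h p) 3
  have e0 : ∀ p, 0 ≤ ‖av y p‖ ^ 3 := fun p => by positivity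
  have e1 : ∀ p, 0 ≤ ‖av y₁ p‖ ^ 3 := fun p => by positivity
  exact add_le_add (add_le_add (mul_le_mul (e _) (e _) (e0 _) (e1 _)) (mul_le_mul (e _) (e _) (e0 _) (e1 _)))
    (mul_le_mul (e _) (e _) (e0 _) (e1 _))

theorem summable_double {y : ℝ} (hy : 0 < y) {F : (ℤ × ℤ) × (ℤ × ℤ) → ℂ} (C : ℝ)
    (h : ∀ r, ‖F r‖ ≤ C * B3 y r) : Summable F :=
  Summable.of_norm_bounded ((summable_B3 hy).mul_left C) h

theorem hasDerivAt_tsum_double {y : ℝ} (hy : 0 < y) {F F' : ℝ → (ℤ × ℤ) × (ℤ × ℤ) → ℂ} (C : ℝ) (hC : 0 ≤ C)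
    (hF : ∀ x, 0 < x → ∀ r, HasDerivAt (fun x => F x r) (F' x r) x)
    (hb : ∀ x, 0 < x → ∀ r, ‖F x r‖ ≤ C * B3 x r)
    (hb' : ∀ x, 0 < x → ∀ r, ‖F' x r‖ ≤ C / x * B3 x r) :
    HasDerivAt (fun x => ∑' r, F x r) (∑' r, F' y r) y := by
  have hy2 : 0 < y / 2 := by positivity
  have hu : Summable fun r => C / (y / 2) * B3 (y / 2) r := (summable_B3 hy2).mul_left _
  refine hasDerivAt_tsum_of_isPreconnected hu (isOpen_Ioi (a := y / 2)) isPreconnected_Ioi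
    (fun p x hx => hF x (hy2.trans hx) p) (fun p x hx => ?_) (show y ∈ Set.Ioi (y / 2) from half_lt_self hy)
    (summable_double hy C (hb y hy)) (show y ∈ Set.Ioi (y / 2) from half_lt_self hy)
  have hx0 : 0 < x := hy2.trans hx
  refine (hb' x hx0 p).trans ?_
  have h1 := B3_anti hy2 (le_of_lt hx) p
  have h2 : C / x ≤ C / (y / 2) := div_le_div_of_nonneg_left hC hy2 (le_of_lt hx)
  exact mul_le_mul h2 h1 (B3_nonneg _ _) (by positivity)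

/-! ### Monomials -/

theorem sq_mul_le {a b : ℝ} (ha : 0 ≤ a) (hb : 0 ≤ b) : a ^ 2 * b ≤ a ^ 3 + b ^ 3 := by
  rcases le_total b a with h | h
  · nlinarith [pow_nonneg hb 3, mul_le_mul_of_nonneg_left h (sq_nonneg a)]
  · have : a ^ 2 * b ≤ b ^ 2 * b := mul_le_mul_of_nonneg_right (pow_le_pow_left₀ ha h 2) hb
    nlinarith [pow_nonneg ha 3]

end LSum

end Pool.Agent.Lib.BM
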