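import Pool.Agent.Lib.BM.LBrow
import Pool.Agent.Lib.BM.LSum

/-!
# BM.LBsum: the double sums of block LB by rows
-/

set_option autoImplicit false

open Filter Topology

namespace Pool.Agent.Lib.BM.LB

open LSum

lemma summable_one_add_sq : Summable fun x : ℤ => 1 / (1 + (x : ℝ) ^ 2) := by
  have h := (Real.summable_one_div_int_pow (p := 2)).2 (by norm_num)
  refine Summable.of_norm_bounded_eventually (g := fun x : ℤ => 1 / (x : ℝ) ^ 2) h ?_
  have : ∀ᶠ x : ℤ in cofinite, x ≠ 0 := by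
    simp only [ne_eq, eventually_cofinite, not_not]
    exact Set.finite_singleton 0
  filter_upwards [this] with x hx
  have hx' : (x : ℝ) ≠ 0 := by exact_mod_cast hx
  have hx2 : 0 < (x : ℝ) ^ 2 := by positivity
  rw [Real.norm_of_nonneg (by positivity)]
  exact one_div_le_one_div_of_le hx2 (by linarith)

lemma norm_av_sq_le {y : ℝ} (hy : 0 < y) : ∃ C : ℝ, 0 < C ∧
    (∀ m n : ℤ, ‖av y (m, n)‖ ^ 2 ≤ C * (1 / (1 + (n : ℝ) ^ 2))) ∧
    ∀ m n : ℤ, ‖av y (m, n)‖ ^ 2 ≤ C * (1 / (m : ℝ) ^ 2) ∨ m = 0 := by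
  obtain ⟨c, hc, h⟩ := norm_lam_ge hy
  have key : ∀ p : ℤ × ℤ, p ≠ 0 → ‖av y p‖ ^ 2 ≤ (c ^ 2)⁻¹ * (1 / ‖p‖ ^ 2) := by
    intro p hp
    have h0 : 0 < ‖p‖ := norm_pos_iff.2 hp
    have h1 : 0 < c * ‖p‖ := by positivity
    unfold av
    rw [norm_inv]
    calc (‖lam y p‖⁻¹) ^ 2 ≤ ((c * ‖p‖)⁻¹) ^ 2 :=
          pow_le_pow_left₀ (by positivity) (inv_anti₀ h1 (h p)) 2
      _ = (c ^ 2)⁻¹ * (1 / ‖p‖ ^ 2) := by
        rw [inv_pow, mul_pow, mul_inv, one_div]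
  refine ⟨2 * (c ^ 2)⁻¹, by positivity, fun m n => ?_, fun m n => ?_⟩
  · by_cases hp : ((m, n) : ℤ × ℤ) = 0
    · rw [hp, av_zero]
      calc ‖(0 : ℂ)‖ ^ 2 = 0 := by simp
        _ ≤ _ := by positivity
    · refine (key _ hp).trans ?_
      have h0 : 0 < ‖((m, n) : ℤ × ℤ)‖ := norm_pos_iff.2 hp
      have hn : |(n : ℝ)| ≤ ‖((m, n) : ℤ × ℤ)‖ := by
        rw [Prod.norm_def, Int.norm_eq_abs, Int.norm_eq_abs]
        exact le_max_right _ _
      have h1 : (1 : ℝ) ≤ ‖((m, n) : ℤ × ℤ)‖ := by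
        rw [Prod.norm_def, Int.norm_eq_abs, Int.norm_eq_abs]
        by_cases hm : m = 0
        · have hn0 : n ≠ 0 := fun hn => hp (by rw [hm, hn]; rfl)
          refine le_max_of_le_right ?_
          exact_mod_cast Int.one_le_abs hn0
        · refine le_max_of_le_left ?_
          exact_mod_cast Int.one_le_abs hm
      have h2 : 1 + (n : ℝ) ^ 2 ≤ 2 * ‖((m, n) : ℤ × ℤ)‖ ^ 2 := by
        have : (n : ℝ) ^ 2 ≤ ‖((m, n) : ℤ × ℤ)‖ ^ 2 := by
          rw [← sq_abs]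
          exact pow_le_pow_left₀ (abs_nonneg _) hn 2
        nlinarith
      have h3 : 1 / ‖((m, n) : ℤ × ℤ)‖ ^ 2 ≤ 2 * (1 / (1 + (n : ℝ) ^ 2)) := by
        rw [mul_one_div, div_le_div_iff₀ (by positivity) (by positivity)]
        linarith
      calc (c ^ 2)⁻¹ * (1 / ‖((m, n) : ℤ × ℤ)‖ ^ 2) ≤ (c ^ 2)⁻¹ * (2 * (1 / (1 + (n : ℝ) ^ 2))) :=
            mul_le_mul_of_nonneg_left h3 (by positivity)
        _ = 2 * (c ^ 2)⁻¹ * (1 / (1 + (n : ℝ) ^ 2)) := by ring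
  · by_cases hm : m = 0
    · exact Or.inr hm
    · left
      have hp : ((m, n) : ℤ × ℤ) ≠ 0 := fun h => hm (congrArg Prod.fst h)
      refine (key _ hp).trans ?_
      have h0 : 0 < ‖((m, n) : ℤ × ℤ)‖ := norm_pos_iff.2 hp
      have hm1 : |(m : ℝ)| ≤ ‖((m, n) : ℤ × ℤ)‖ := by
        rw [Prod.norm_def, Int.norm_eq_abs, Int.norm_eq_abs]
        exact le_max_left _ _
      have hm0 : (m : ℝ) ≠ 0 := by exact_mod_cast hm
      have h2 : (m : ℝ) ^ 2 ≤ ‖((m, n) : ℤ × ℤ)‖ ^ 2 := by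
        rw [← sq_abs]
        exact pow_le_pow_left₀ (abs_nonneg _) hm1 2
      have h3 : 1 / ‖((m, n) : ℤ × ℤ)‖ ^ 2 ≤ 1 / (m : ℝ) ^ 2 :=
        one_div_le_one_div_of_le (by positivity) h2
      have h4 : (0 : ℝ) ≤ 1 / (m : ℝ) ^ 2 := by positivity
      calc (c ^ 2)⁻¹ * (1 / ‖((m, n) : ℤ × ℤ)‖ ^ 2) ≤ (c ^ 2)⁻¹ * (1 / (m : ℝ) ^ 2) :=
            mul_le_mul_of_nonneg_left h3 (by positivity)
        _ ≤ 2 * (c ^ 2)⁻¹ * (1 / (m : ℝ) ^ 2) := by
          have : (0 : ℝ) ≤ (c ^ 2)⁻¹ * (1 / (m : ℝ) ^ 2) := by positivity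
          linarith

/-- The rows of functions bounded by `|a|²`. -/
lemma row_summable {y : ℝ} (hy : 0 < y) (F : ℤ × ℤ → ℂ) (hF : ∀ p, ‖F p‖ ≤ ‖av y p‖ ^ 2) (m : ℤ) :
    Summable fun n => F (m, n) := by
  obtain ⟨C, hC, h1, h2⟩ := norm_av_sq_le hy
  exact Summable.of_norm_bounded (summable_one_add_sq.mul_left C)
    (fun n => (hF (m, n)).trans (h1 m n))

lemma row_tendsto {y : ℝ} (hy : 0 < y) (F : ℤ × ℤ → ℂ) (hF : ∀ p, ‖F p‖ ≤ ‖av y p‖ ^ 2) :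
    Tendsto (fun m => ∑' n, F (m, n)) cofinite (𝓝 0) := by
  obtain ⟨C, hC, h1, h2⟩ := norm_av_sq_le hy
  have h := tendsto_tsum_of_dominated_convergence (𝓕 := (cofinite : Filter ℤ))
    (f := fun (m : ℤ) (n : ℤ) => F (m, n)) (g := fun _ => (0 : ℂ))
    (summable_one_add_sq.mul_left C) ?_ ?_
  · simpa using h
  · intro n
    rw [tendsto_zero_iff_norm_tendsto_zero]
    have h3 : Tendsto (fun m : ℤ => C * (1 / (m : ℝ) ^ 2)) cofinite (𝓝 0) := by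
      have hs := ((Real.summable_one_div_int_pow (p := 2)).2 (by norm_num)).mul_left C
      exact hs.tendsto_cofinite_zero
    refine squeeze_zero' (Eventually.of_forall fun m => norm_nonneg _) ?_ h3
    have : ∀ᶠ x : ℤ in cofinite, x ≠ 0 := by
      simp only [ne_eq, eventually_cofinite, not_not]
      exact Set.finite_singleton 0
    filter_upwards [this] with m hm
    rcases h2 m n with h | h
    · exact (hF _).trans h
    · exact absurd h hm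
  · exact Eventually.of_forall fun m n => (hF (m, n)).trans (h1 m n)

/-- The double sums by rows. -/
theorem double_row (f g : ℤ × ℤ → ℂ) (W : ℤ → ℤ → ℂ) (w c : ℤ → ℂ) (l : ℂ) (B : ℝ)
    (hf : ∀ p, f (-p) = f p) (hrow : ∀ m, Summable fun n => f (m, n))
    (hr : Tendsto (fun m => ∑' n, f (m, n)) cofinite (𝓝 0))
    (hW : ∀ m0 m, ‖W m0 m‖ ≤ B)
    (hWw : ∀ m0 m, W m0 m + W m0 (-m) - W m0 (m - m0) - W m0 (-m - m0) = 2 * c m0 * w m)
    (hl : Tendsto (fun M : ℕ => ∑ m ∈ sI M, w m * ∑' n, f (m, n)) atTop (𝓝 l))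
    (hs : Summable fun r : (ℤ × ℤ) × (ℤ × ℤ) => g r.1 * (W r.1.1 r.2.1 * (f r.2 - f (r.2 + r.1)))) :
    ∑' r : (ℤ × ℤ) × (ℤ × ℤ), g r.1 * (W r.1.1 r.2.1 * (f r.2 - f (r.2 + r.1))) =
      l * ∑' q : ℤ × ℤ, c q.1 * g q := by
  rw [hs.tsum_prod, ← tsum_mul_left]
  apply tsum_congr
  intro q
  by_cases hq : g q = 0
  · simp [hq]
  · have h1 := hs.prod_factor q
    have h2 : Summable fun p : ℤ × ℤ => W q.1 p.1 * (f p - f (p + q)) := by
      have h3 := h1.mul_left (g q)⁻¹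
      refine h3.congr fun p => ?_
      simp only
      rw [inv_mul_cancel_left₀ hq]
    have h4 := row_lemma f (W q.1) w (c q.1) q B hf hrow hr (hW q.1) (hWw q.1) h2
    have h5 := tendsto_nhds_unique h4 (hl.const_mul (c q.1))
    show ∑' p : ℤ × ℤ, g q * (W q.1 p.1 * (f p - f (p + q))) = _
    rw [tsum_mul_left, h5]
    ring

/-- Existence of the limit from one row. -/
theorem limit_exists (f g : ℤ × ℤ → ℂ) (W : ℤ → ℤ → ℂ) (w c : ℤ → ℂ) (B : ℝ) (q : ℤ × ℤ)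
    (hg : g q ≠ 0) (hc : c q.1 ≠ 0)
    (hf : ∀ p, f (-p) = f p) (hrow : ∀ m, Summable fun n => f (m, n))
    (hr : Tendsto (fun m => ∑' n, f (m, n)) cofinite (𝓝 0))
    (hW : ∀ m0 m, ‖W m0 m‖ ≤ B)
    (hWw : ∀ m0 m, W m0 m + W m0 (-m) - W m0 (m - m0) - W m0 (-m - m0) = 2 * c m0 * w m)
    (hs : Summable fun r : (ℤ × ℤ) × (ℤ × ℤ) => g r.1 * (W r.1.1 r.2.1 * (f r.2 - f (r.2 + r.1)))) :
    ∃ l, Tendsto (fun M : ℕ => ∑ m ∈ sI M, w m * ∑' n, f (m, n)) atTop (𝓝 l) := by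
  have h1 := hs.prod_factor q
  have h2 : Summable fun p : ℤ × ℤ => W q.1 p.1 * (f p - f (p + q)) := by
    have h3 := h1.mul_left (g q)⁻¹
    refine h3.congr fun p => ?_
    simp only
    rw [inv_mul_cancel_left₀ hg]
  have h4 := row_lemma f (W q.1) w (c q.1) q B hf hrow hr (hW q.1) (hWw q.1) h2
  refine ⟨_, (h4.const_mul (c q.1)⁻¹).congr fun M => ?_⟩
  rw [inv_mul_cancel_left₀ hc]

/-- Odd functions have sum zero. -/
lemma tsum_odd (F : ℤ × ℤ → ℂ) (h : ∀ p, F (-p) = -F p) : ∑' p, F p = 0 := by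
  have h1 : ∑' p, F p = -∑' p, F p := by
    conv_lhs => rw [← (Equiv.neg (ℤ × ℤ)).tsum_eq]
    rw [← tsum_neg]
    apply tsum_congr
    intro p
    simp only [Equiv.neg_apply]
    exact h p
  have h2 : (2 : ℂ) * ∑' p, F p = 0 := by linear_combination h1
  simpa using h2

/-- The line symmetry of the rows: the rows of `abar²` and of `a²` have the same sum. -/
lemma row_conj (y : ℝ) (m : ℤ) :
    ∑' n : ℤ, (starRingEnd ℂ) (av y (m, n)) ^ 2 = ∑' n : ℤ, av y (m, n) ^ 2 := by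
  have e1 : ∀ n : ℤ, (starRingEnd ℂ) (av y (m, n)) = -av y (m, -m - n) := by
    intro n
    unfold av
    rw [map_inv₀, ← inv_neg]
    congr 1
    simp only [lam, map_add, map_mul, map_intCast, map_div₀, map_one, Complex.conj_I,
      Complex.conj_ofReal, map_ofNat]
    push_cast
    ring
  simp_rw [e1]
  have : ∀ n : ℤ, (-av y (m, -m - n)) ^ 2 = av y (m, (Equiv.subLeft (-m)) n) ^ 2 := by
    intro n
    simp [Equiv.subLeft_apply]
  simp_rw [this]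
  exact (Equiv.subLeft (-m)).tsum_eq (fun n => av y (m, n) ^ 2)

end Pool.Agent.Lib.BM.LB
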