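import Pool.Agent.Lib.BM.LDefs
import Pool.Agent.Lib.BM.LBsum

/-!
# BM.LB: the double sums of block (LB)
-/

set_option autoImplicit false

open Filter Topology

namespace Pool.Agent.Lib.BM.LB

open LSum

lemma chi_neg (m : ℤ) : chiR (-m) = chiR m := by
  unfold chiR
  simp

lemma chi_add (m n : ℤ) : chiR (m + n) = chiR m * chiR n := by
  unfold chiR
  rcases Int.even_or_odd m with h | h <;> rcases Int.even_or_odd n with h' | h' <;>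
    simp [Int.even_add, h, h', Int.not_even_iff_odd.2]

lemma chi_sub (m n : ℤ) : chiR (m - n) = chiR m * chiR n := by
  rw [sub_eq_add_neg, chi_add, chi_neg]

lemma chi_sq (m : ℤ) : chiR m ^ 2 = 1 := by
  unfold chiR
  split_ifs <;> norm_num

lemma u_neg (m : ℤ) : uR (-m) = uR m := by
  unfold uR
  simp

lemma abs_chi (m : ℤ) : |chiR m| = 1 := by
  unfold chiR
  split_ifs <;> simp

lemma abs_u (m : ℤ) : |uR m| ≤ 1 := by
  unfold uR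
  split_ifs <;> simp

lemma Wt_rows (m0 m : ℤ) : Wt m m0 + Wt (-m) m0 - Wt (m - m0) m0 - Wt (-m - m0) m0 =
    2 * (-(1 / 4) * Wh m0) * Wl m := by
  have e1 : -(m - m0) - m0 = -m := by ring
  have e2 : -(-m - m0) - m0 = m := by ring
  have e3 : - -m - m0 = m - m0 := by ring
  unfold Wt wA Wh Wl
  simp only [e1, e2, e3, chi_neg, chi_sub, u_neg]
  have h1 := chi_sq m
  have h2 := chi_sq m0
  generalize chiR m = x at *
  generalize chiR m0 = z at *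
  have hm : m % 3 = 0 ∨ m % 3 = 1 ∨ m % 3 = 2 := by omega
  have hm0 : m0 % 3 = 0 ∨ m0 % 3 = 1 ∨ m0 % 3 = 2 := by omega
  unfold uR
  rcases hm with hm | hm | hm <;> rcases hm0 with hm0 | hm0 | hm0 <;> split_ifs <;>
    first
    | (exfalso; omega)
    | (ring1)

lemma WV_rows (m0 m : ℤ) : WV m0 m + WV m0 (-m) - WV m0 (m - m0) - WV m0 (-m - m0) =
    2 * (1 / 4 * Wh m0) * Wl m := by
  unfold WV Wh Wl
  simp only [chi_neg, chi_sub]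
  have h1 := chi_sq m
  have h2 := chi_sq m0
  generalize chiR m = x at *
  generalize chiR m0 = z at *
  have hm : m % 3 = 0 ∨ m % 3 = 1 ∨ m % 3 = 2 := by omega
  have hm0 : m0 % 3 = 0 ∨ m0 % 3 = 1 ∨ m0 % 3 = 2 := by omega
  unfold uR
  rcases hm with hm | hm | hm <;> rcases hm0 with hm0 | hm0 | hm0 <;> split_ifs <;>
    first
    | (exfalso; omega)
    | (ring1)
    | (linear_combination (-3 * x) * h2)
    | (linear_combination (3 / 2 * x) * h2)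

lemma WV_even (m0 m : ℤ) : WV m0 (-m) = WV m0 m := by
  unfold WV
  simp only [chi_neg, chi_sub, u_neg]


lemma abs_Wt (m1 m2 : ℤ) : |Wt m1 m2| ≤ 20 := by
  unfold Wt wA chiR uR
  split_ifs <;> norm_num [abs_le]

lemma abs_WV (m1 m2 : ℤ) : |WV m1 m2| ≤ 30 := by
  unfold WV chiR uR
  split_ifs <;> norm_num [abs_le]

lemma av_neg (y : ℝ) (p : ℤ × ℤ) : av y (-p) = -av y p := by
  unfold av
  rw [← inv_neg]
  congr 1
  simp only [lam, Prod.fst_neg, Prod.snd_neg]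
  push_cast
  ring

lemma av_thd (y : ℝ) (p q : ℤ × ℤ) : av y (-p - q) = -av y (p + q) := by
  rw [← av_neg]
  congr 1
  abel

/-- The basic inequality. -/
lemma key_bound {y : ℝ} (hy : 0 < y) (p q : ℤ × ℤ) :
    ‖av y q‖ ^ 4 * ‖av y p ^ 2 - av y (-p - q) ^ 2‖ ≤
      ‖av y q‖ ^ 3 * (‖av y p‖ ^ 3 + ‖av y (-p - q)‖ ^ 3) := by
  have main : q ≠ 0 → ‖av y q‖ * ‖av y p ^ 2 - av y (-p - q) ^ 2‖ ≤
      ‖av y p‖ ^ 3 + ‖av y (-p - q)‖ ^ 3 := by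
    intro hq
    by_cases hp : p = 0
    · subst hp
      rw [LSum.av_zero, neg_zero, zero_sub, av_neg]
      simp only [norm_zero, norm_neg, norm_pow, ne_eq, OfNat.ofNat_ne_zero, not_false_eq_true,
        zero_pow, zero_sub, neg_sq, zero_add]
      apply le_of_eq
      ring
    · by_cases hr : -p - q = 0
      · have hq' : q = -p := by rw [← sub_eq_zero]; rw [← neg_eq_zero, ← hr]; abel
        subst hq'
        rw [hr, LSum.av_zero, av_neg]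
        simp only [norm_zero, norm_neg, norm_pow, ne_eq, OfNat.ofNat_ne_zero, not_false_eq_true,
          zero_pow, sub_zero, add_zero]
        apply le_of_eq
        ring
      · have h1 := LSum.lam_ne_zero hy hp
        have h2 := LSum.lam_ne_zero hy hq
        have h3 := LSum.lam_ne_zero hy hr
        have e3 : lam y (-p - q) = -lam y p - lam y q := by
          rw [LSum.lam_sub, LSum.lam_neg]
        have e : av y q * (av y p ^ 2 - av y (-p - q) ^ 2) =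
            av y p * av y (-p - q) * (av y p - av y (-p - q)) * -1 := by
          unfold av
          rw [e3] at h3 ⊢
          have h4 : lam y p + lam y q ≠ 0 := by
            intro h
            apply h3
            linear_combination -h
          field_simp
          ring
        rw [← norm_mul, e]
        simp only [norm_mul, norm_neg, norm_one, mul_one]
        have h5 := norm_sub_le (av y p) (av y (-p - q))
        have a0 := norm_nonneg (av y p)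
        have b0 := norm_nonneg (av y (-p - q))
        set a := ‖av y p‖
        set b := ‖av y (-p - q)‖
        calc a * b * ‖av y p - av y (-p - q)‖ ≤ a * b * (a + b) :=
              mul_le_mul_of_nonneg_left h5 (by positivity)
          _ ≤ a ^ 3 + b ^ 3 := by nlinarith [mul_nonneg (add_nonneg a0 b0) (sq_nonneg (a - b))]
  by_cases hq : q = 0
  · subst hq
    rw [LSum.av_zero]
    simp
  · have h := mul_le_mul_of_nonneg_left (main hq) (pow_nonneg (norm_nonneg (av y q)) 3)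
    calc ‖av y q‖ ^ 4 * ‖av y p ^ 2 - av y (-p - q) ^ 2‖ =
        ‖av y q‖ ^ 3 * (‖av y q‖ * ‖av y p ^ 2 - av y (-p - q) ^ 2‖) := by ring
      _ ≤ _ := h


open scoped ComplexConjugate in
/-- `12 Wt a₂⁴ (|a₁|² - |a₃|²)` -/
noncomputable def Y1 (y : ℝ) (P : (ℤ × ℤ) × (ℤ × ℤ)) : ℂ :=
  12 * (Wt P.1.1 P.2.1 : ℂ) * av y P.2 ^ 4 *
    (av y P.1 * conj (av y P.1) - av y (-P.1 - P.2) * conj (av y (-P.1 - P.2)))

open scoped ComplexConjugate in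
/-- `-8 V |a₁|² a₁ a₂³` -/
noncomputable def Y2 (y : ℝ) (P : (ℤ × ℤ) × (ℤ × ℤ)) : ℂ :=
  -8 * (WV P.1.1 P.2.1 : ℂ) * (av y P.1 ^ 2 * conj (av y P.1)) * av y P.2 ^ 3

open scoped ComplexConjugate in
/-- `4 V |a₁|² a₁² (a₂² - a₃²)` -/
noncomputable def Y3 (y : ℝ) (P : (ℤ × ℤ) × (ℤ × ℤ)) : ℂ :=
  4 * (WV P.1.1 P.2.1 : ℂ) * (av y P.1 ^ 3 * conj (av y P.1)) *
    (av y P.2 ^ 2 - av y (-P.1 - P.2) ^ 2)

open scoped ComplexConjugate in
/-- `4 Wt a₂³ abar₂ (abar₁² - abar₃²)` -/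
noncomputable def Y4 (y : ℝ) (P : (ℤ × ℤ) × (ℤ × ℤ)) : ℂ :=
  4 * (Wt P.1.1 P.2.1 : ℂ) * (av y P.2 ^ 3 * conj (av y P.2)) *
    (conj (av y P.1) ^ 2 - conj (av y (-P.1 - P.2)) ^ 2)

lemma norm_ofReal_Wt (m1 m2 : ℤ) : ‖(Wt m1 m2 : ℂ)‖ ≤ 20 := by
  rw [Complex.norm_real]
  exact abs_Wt m1 m2

lemma norm_ofReal_WV (m1 m2 : ℤ) : ‖(WV m1 m2 : ℂ)‖ ≤ 30 := by
  rw [Complex.norm_real]
  exact abs_WV m1 m2

lemma norm_mul_conj_sub (a b : ℂ) :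
    ‖a * (starRingEnd ℂ) a - b * (starRingEnd ℂ) b‖ ≤ ‖a ^ 2 - b ^ 2‖ := by
  rw [Complex.mul_conj, Complex.mul_conj, ← Complex.ofReal_sub, Complex.norm_real,
    Complex.normSq_eq_norm_sq, Complex.normSq_eq_norm_sq, ← norm_pow, ← norm_pow]
  exact abs_norm_sub_norm_le _ _

lemma bound_Y1 {y : ℝ} (hy : 0 < y) (P : (ℤ × ℤ) × (ℤ × ℤ)) : ‖Y1 y P‖ ≤ 240 * B3 y P := by
  have h1 := key_bound hy P.1 P.2
  have h2 := norm_mul_conj_sub (av y P.1) (av y (-P.1 - P.2))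
  have h3 := norm_ofReal_Wt P.1.1 P.2.1
  unfold Y1 B3 thd
  simp only [norm_mul, norm_pow, Complex.norm_ofNat]
  have h4 : ‖av y P.2‖ ^ 4 * ‖av y P.1 * (starRingEnd ℂ) (av y P.1) -
      av y (-P.1 - P.2) * (starRingEnd ℂ) (av y (-P.1 - P.2))‖ ≤
      ‖av y P.2‖ ^ 3 * (‖av y P.1‖ ^ 3 + ‖av y (-P.1 - P.2)‖ ^ 3) :=
    (mul_le_mul_of_nonneg_left h2 (by positivity)).trans h1
  calc 12 * ‖(Wt P.1.1 P.2.1 : ℂ)‖ * ‖av y P.2‖ ^ 4 * ‖av y P.1 * (starRingEnd ℂ) (av y P.1) -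
      av y (-P.1 - P.2) * (starRingEnd ℂ) (av y (-P.1 - P.2))‖ =
      12 * ‖(Wt P.1.1 P.2.1 : ℂ)‖ * (‖av y P.2‖ ^ 4 * ‖av y P.1 * (starRingEnd ℂ) (av y P.1) -
      av y (-P.1 - P.2) * (starRingEnd ℂ) (av y (-P.1 - P.2))‖) := by ring
    _ ≤ 12 * 20 * (‖av y P.2‖ ^ 3 * (‖av y P.1‖ ^ 3 + ‖av y (-P.1 - P.2)‖ ^ 3)) := by
        apply mul_le_mul _ h4 (by positivity) (by positivity)
        linarith
    _ ≤ _ := by
        have : 0 ≤ ‖av y (-P.1 - P.2)‖ ^ 3 * ‖av y P.1‖ ^ 3 := by positivity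
        nlinarith

lemma bound_Y2 {y : ℝ} (P : (ℤ × ℤ) × (ℤ × ℤ)) : ‖Y2 y P‖ ≤ 240 * B3 y P := by
  have h3 := norm_ofReal_WV P.1.1 P.2.1
  unfold Y2 B3 thd
  simp only [norm_mul, norm_pow, norm_neg, Complex.norm_ofNat, RCLike.norm_conj]
  calc 8 * ‖(WV P.1.1 P.2.1 : ℂ)‖ * (‖av y P.1‖ ^ 2 * ‖av y P.1‖) * ‖av y P.2‖ ^ 3 =
      8 * ‖(WV P.1.1 P.2.1 : ℂ)‖ * (‖av y P.1‖ ^ 3 * ‖av y P.2‖ ^ 3) := by ring
    _ ≤ 240 * (‖av y P.1‖ ^ 3 * ‖av y P.2‖ ^ 3) := by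
        apply mul_le_mul_of_nonneg_right _ (by positivity)
        linarith
    _ ≤ _ := by
        have h1 : 0 ≤ ‖av y (-P.1 - P.2)‖ ^ 3 * ‖av y P.1‖ ^ 3 := by positivity
        have h2 : 0 ≤ ‖av y P.2‖ ^ 3 * ‖av y (-P.1 - P.2)‖ ^ 3 := by positivity
        nlinarith

lemma bound_Y3 {y : ℝ} (hy : 0 < y) (P : (ℤ × ℤ) × (ℤ × ℤ)) : ‖Y3 y P‖ ≤ 120 * B3 y P := by
  have h1 := key_bound hy P.2 P.1
  have h3 := norm_ofReal_WV P.1.1 P.2.1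
  have e : -P.2 - P.1 = -P.1 - P.2 := by abel
  rw [e] at h1
  unfold Y3 B3 thd
  simp only [norm_mul, norm_pow, Complex.norm_ofNat, RCLike.norm_conj]
  calc 4 * ‖(WV P.1.1 P.2.1 : ℂ)‖ * (‖av y P.1‖ ^ 3 * ‖av y P.1‖) *
        ‖av y P.2 ^ 2 - av y (-P.1 - P.2) ^ 2‖ =
      4 * ‖(WV P.1.1 P.2.1 : ℂ)‖ * (‖av y P.1‖ ^ 4 *
        ‖av y P.2 ^ 2 - av y (-P.1 - P.2) ^ 2‖) := by ring
    _ ≤ 4 * 30 * (‖av y P.1‖ ^ 3 * (‖av y P.2‖ ^ 3 + ‖av y (-P.1 - P.2)‖ ^ 3)) := by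
        apply mul_le_mul _ h1 (by positivity) (by positivity)
        linarith
    _ ≤ _ := by
        have h2 : 0 ≤ ‖av y P.2‖ ^ 3 * ‖av y (-P.1 - P.2)‖ ^ 3 := by positivity
        nlinarith

lemma bound_Y4 {y : ℝ} (hy : 0 < y) (P : (ℤ × ℤ) × (ℤ × ℤ)) : ‖Y4 y P‖ ≤ 80 * B3 y P := by
  have h1 := key_bound hy P.1 P.2
  have h3 := norm_ofReal_Wt P.1.1 P.2.1
  have e : ‖(starRingEnd ℂ) (av y P.1) ^ 2 - (starRingEnd ℂ) (av y (-P.1 - P.2)) ^ 2‖ =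
      ‖av y P.1 ^ 2 - av y (-P.1 - P.2) ^ 2‖ := by
    rw [← map_pow, ← map_pow, ← map_sub, RCLike.norm_conj]
  unfold Y4 B3 thd
  rw [norm_mul, e]
  simp only [norm_mul, norm_pow, Complex.norm_ofNat, RCLike.norm_conj]
  calc 4 * ‖(Wt P.1.1 P.2.1 : ℂ)‖ * (‖av y P.2‖ ^ 3 * ‖av y P.2‖) *
        ‖av y P.1 ^ 2 - av y (-P.1 - P.2) ^ 2‖ =
      4 * ‖(Wt P.1.1 P.2.1 : ℂ)‖ * (‖av y P.2‖ ^ 4 *
        ‖av y P.1 ^ 2 - av y (-P.1 - P.2) ^ 2‖) := by ring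
    _ ≤ 4 * 20 * (‖av y P.2‖ ^ 3 * (‖av y P.1‖ ^ 3 + ‖av y (-P.1 - P.2)‖ ^ 3)) := by
        apply mul_le_mul _ h1 (by positivity) (by positivity)
        linarith
    _ ≤ _ := by
        have h2 : 0 ≤ ‖av y (-P.1 - P.2)‖ ^ 3 * ‖av y P.1‖ ^ 3 := by positivity
        nlinarith

lemma summable_Y1 {y : ℝ} (hy : 0 < y) : Summable (Y1 y) := summable_double hy 240 (bound_Y1 hy)

lemma summable_Y2 {y : ℝ} (hy : 0 < y) : Summable (Y2 y) := summable_double hy 240 bound_Y2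

lemma summable_Y3 {y : ℝ} (hy : 0 < y) : Summable (Y3 y) := summable_double hy 120 (bound_Y3 hy)

lemma summable_Y4 {y : ℝ} (hy : 0 < y) : Summable (Y4 y) := summable_double hy 80 (bound_Y4 hy)

lemma rows_of {y : ℝ} (hy : 0 < y) {F : ℤ × ℤ → ℂ} (hF : ∀ p, ‖F p‖ = ‖av y p‖ ^ 2) :
    (∀ m, Summable fun n => F (m, n)) ∧ Tendsto (fun m => ∑' n, F (m, n)) cofinite (𝓝 0) :=
  ⟨row_summable hy F fun p => (hF p).le, row_tendsto hy F fun p => (hF p).le⟩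

theorem sum_Y1 {y l : ℝ} (hy : 0 < y) (hl : Tendsto (LhPart y) atTop (𝓝 l)) :
    ∑' P, Y1 y P = -3 * Gh y * (l : ℂ) := by
  have hF : ∀ p, ‖av y p * (starRingEnd ℂ) (av y p)‖ = ‖av y p‖ ^ 2 := by
    intro p
    rw [norm_mul, RCLike.norm_conj]
    ring
  obtain ⟨hr1, hr2⟩ := rows_of hy hF
  have hev : ∀ p, av y (-p) * (starRingEnd ℂ) (av y (-p)) = av y p * (starRingEnd ℂ) (av y p) := by
    intro p
    rw [av_neg, map_neg]
    ring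
  have hterm : ∀ r : (ℤ × ℤ) × (ℤ × ℤ), Y1 y (r.2, r.1) =
      (12 * av y r.1 ^ 4) * ((Wt r.2.1 r.1.1 : ℂ) * (av y r.2 * (starRingEnd ℂ) (av y r.2) -
        av y (r.2 + r.1) * (starRingEnd ℂ) (av y (r.2 + r.1)))) := by
    intro r
    unfold Y1
    simp only
    rw [av_thd, map_neg]
    ring
  have hs : Summable fun r : (ℤ × ℤ) × (ℤ × ℤ) => Y1 y (r.2, r.1) :=
    (Equiv.prodComm (ℤ × ℤ) (ℤ × ℤ)).summable_iff.2 (summable_Y1 hy)
  have hs2 := hs.congr hterm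
  have hl2 : Tendsto (fun M : ℕ => ∑ m ∈ sI M, (Wl m : ℂ) * ∑' n : ℤ, av y (m, n) *
      (starRingEnd ℂ) (av y (m, n))) atTop (𝓝 (l : ℂ)) := by
    have h1 := (Complex.continuous_ofReal.tendsto l).comp hl
    refine h1.congr fun M => ?_
    simp only [Function.comp_apply, LhPart, Complex.ofReal_sum, Complex.ofReal_mul]
    apply Finset.sum_congr rfl
    intro m _
    congr 1
    rw [r11, Complex.ofReal_tsum]
    apply tsum_congr
    intro n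
    rw [Complex.mul_conj, Complex.normSq_eq_norm_sq]
  have h := double_row (fun p => av y p * (starRingEnd ℂ) (av y p)) (fun q => 12 * av y q ^ 4)
    (fun m0 m => (Wt m m0 : ℂ)) (fun m => (Wl m : ℂ)) (fun m0 => ((-(1 / 4) * Wh m0 : ℝ) : ℂ))
    (l : ℂ) 20 hev hr1 hr2 (fun m0 m => norm_ofReal_Wt m m0)
    (fun m0 m => by exact_mod_cast Wt_rows m0 m) hl2 hs2
  rw [← (Equiv.prodComm (ℤ × ℤ) (ℤ × ℤ)).tsum_eq]
  have e1 : ∑' r : (ℤ × ℤ) × (ℤ × ℤ), Y1 y ((Equiv.prodComm (ℤ × ℤ) (ℤ × ℤ)) r) =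
      ∑' r : (ℤ × ℤ) × (ℤ × ℤ), (12 * av y r.1 ^ 4) * ((Wt r.2.1 r.1.1 : ℂ) *
        (av y r.2 * (starRingEnd ℂ) (av y r.2) -
        av y (r.2 + r.1) * (starRingEnd ℂ) (av y (r.2 + r.1)))) := tsum_congr hterm
  rw [e1, h]
  unfold Gh Kab
  rw [← tsum_mul_left, ← tsum_mul_left, ← tsum_mul_right]
  apply tsum_congr
  intro q
  push_cast
  ring

theorem sum_Y2 {y : ℝ} (hy : 0 < y) : ∑' P, Y2 y P = 0 := by
  rw [(summable_Y2 hy).tsum_prod]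
  have : ∀ p : ℤ × ℤ, ∑' q : ℤ × ℤ, Y2 y (p, q) = 0 := by
    intro p
    apply tsum_odd
    intro q
    unfold Y2
    simp only [Prod.fst_neg, WV_even, av_neg]
    ring
  simp only [this, tsum_zero]

theorem sum_Y34 {y : ℝ} (hy : 0 < y) : ∑' P, Y3 y P + ∑' P, Y4 y P = 0 := by
  have hF : ∀ p, ‖av y p ^ 2‖ = ‖av y p‖ ^ 2 := fun p => norm_pow _ _
  have hF' : ∀ p, ‖(starRingEnd ℂ) (av y p) ^ 2‖ = ‖av y p‖ ^ 2 := by
    intro p
    rw [norm_pow, RCLike.norm_conj]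
  obtain ⟨hr1, hr2⟩ := rows_of hy hF
  obtain ⟨hr1', hr2'⟩ := rows_of hy hF'
  have hev : ∀ p, av y (-p) ^ 2 = av y p ^ 2 := by
    intro p
    rw [av_neg]
    ring
  have hev' : ∀ p, (starRingEnd ℂ) (av y (-p)) ^ 2 = (starRingEnd ℂ) (av y p) ^ 2 := by
    intro p
    rw [av_neg, map_neg]
    ring
  -- the third sum
  have hterm : ∀ r : (ℤ × ℤ) × (ℤ × ℤ), Y3 y r =
      (4 * (av y r.1 ^ 3 * (starRingEnd ℂ) (av y r.1))) * ((WV r.1.1 r.2.1 : ℂ) *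
        (av y r.2 ^ 2 - av y (r.2 + r.1) ^ 2)) := by
    intro r
    unfold Y3
    rw [av_thd, add_comm r.1 r.2]
    ring
  have hs := (summable_Y3 hy).congr hterm
  have hWw : ∀ m0 m : ℤ, (WV m0 m : ℂ) + (WV m0 (-m) : ℂ) - (WV m0 (m - m0) : ℂ) -
      (WV m0 (-m - m0) : ℂ) = 2 * ((1 / 4 * Wh m0 : ℝ) : ℂ) * (Wl m : ℂ) := by
    intro m0 m
    exact_mod_cast WV_rows m0 m
  have hg : (4 * (av y (1, 0) ^ 3 * (starRingEnd ℂ) (av y (1, 0))) : ℂ) ≠ 0 := by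
    have h1 : av y (1, 0) ≠ 0 := inv_ne_zero (LSum.lam_ne_zero hy (by simp))
    have h2 : (starRingEnd ℂ) (av y (1, 0)) ≠ 0 := by simpa using h1
    simp [h1]
  have hc : ((1 / 4 * Wh (1 : ℤ) : ℝ) : ℂ) ≠ 0 := by
    norm_num [Wh, chiR, uR]
  obtain ⟨κ, hκ⟩ := limit_exists (fun p => av y p ^ 2)
    (fun p => 4 * (av y p ^ 3 * (starRingEnd ℂ) (av y p))) (fun m0 m => (WV m0 m : ℂ))
    (fun m => (Wl m : ℂ)) (fun m0 => ((1 / 4 * Wh m0 : ℝ) : ℂ)) 30 (1, 0) hg hc hev hr1 hr2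
    (fun m0 m => norm_ofReal_WV m0 m) hWw hs
  have h3 := double_row (fun p => av y p ^ 2)
    (fun p => 4 * (av y p ^ 3 * (starRingEnd ℂ) (av y p))) (fun m0 m => (WV m0 m : ℂ))
    (fun m => (Wl m : ℂ)) (fun m0 => ((1 / 4 * Wh m0 : ℝ) : ℂ)) κ 30 hev hr1 hr2
    (fun m0 m => norm_ofReal_WV m0 m) hWw hκ hs
  -- the fourth sum
  have hterm4 : ∀ r : (ℤ × ℤ) × (ℤ × ℤ), Y4 y (r.2, r.1) =
      (4 * (av y r.1 ^ 3 * (starRingEnd ℂ) (av y r.1))) * ((Wt r.2.1 r.1.1 : ℂ) *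
        ((starRingEnd ℂ) (av y r.2) ^ 2 - (starRingEnd ℂ) (av y (r.2 + r.1)) ^ 2)) := by
    intro r
    unfold Y4
    simp only
    rw [av_thd, map_neg]
    ring
  have hs4 : Summable fun r : (ℤ × ℤ) × (ℤ × ℤ) => Y4 y (r.2, r.1) :=
    (Equiv.prodComm (ℤ × ℤ) (ℤ × ℤ)).summable_iff.2 (summable_Y4 hy)
  have hs5 := hs4.congr hterm4
  have hκ' : Tendsto (fun M : ℕ => ∑ m ∈ sI M, (Wl m : ℂ) *
      ∑' n : ℤ, (starRingEnd ℂ) (av y (m, n)) ^ 2) atTop (𝓝 κ) := by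
    refine hκ.congr fun M => ?_
    apply Finset.sum_congr rfl
    intro m _
    rw [row_conj]
  have h4 := double_row (fun p => (starRingEnd ℂ) (av y p) ^ 2)
    (fun q => 4 * (av y q ^ 3 * (starRingEnd ℂ) (av y q)))
    (fun m0 m => (Wt m m0 : ℂ)) (fun m => (Wl m : ℂ)) (fun m0 => ((-(1 / 4) * Wh m0 : ℝ) : ℂ))
    κ 20 hev' hr1' hr2' (fun m0 m => norm_ofReal_Wt m m0)
    (fun m0 m => by exact_mod_cast Wt_rows m0 m) hκ' hs5
  have e3 : ∑' P, Y3 y P = κ * ∑' q : ℤ × ℤ, ((1 / 4 * Wh q.1 : ℝ) : ℂ) *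
      (4 * (av y q ^ 3 * (starRingEnd ℂ) (av y q))) := (tsum_congr hterm).trans h3
  have e4 : ∑' P, Y4 y P = κ * ∑' q : ℤ × ℤ, ((-(1 / 4) * Wh q.1 : ℝ) : ℂ) *
      (4 * (av y q ^ 3 * (starRingEnd ℂ) (av y q))) := by
    rw [← (Equiv.prodComm (ℤ × ℤ) (ℤ × ℤ)).tsum_eq]
    exact (tsum_congr hterm4).trans h4
  have e5 : ∑' q : ℤ × ℤ, ((-(1 / 4) * Wh q.1 : ℝ) : ℂ) *
      (4 * (av y q ^ 3 * (starRingEnd ℂ) (av y q))) =
      -∑' q : ℤ × ℤ, ((1 / 4 * Wh q.1 : ℝ) : ℂ) *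
      (4 * (av y q ^ 3 * (starRingEnd ℂ) (av y q))) := by
    rw [← tsum_neg]
    apply tsum_congr
    intro q
    push_cast
    ring
  rw [e3, e4, e5]
  ring

/-- **The four double sums.** -/
theorem lb_sum {y l : ℝ} (hy : 0 < y) (hl : Tendsto (LhPart y) atTop (𝓝 l)) :
    ∑' P, (Y1 y P + Y2 y P + Y3 y P + Y4 y P) = -3 * Gh y * (l : ℂ) := by
  rw [(((summable_Y1 hy).add (summable_Y2 hy)).add (summable_Y3 hy)).tsum_add (summable_Y4 hy),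
    ((summable_Y1 hy).add (summable_Y2 hy)).tsum_add (summable_Y3 hy),
    (summable_Y1 hy).tsum_add (summable_Y2 hy), sum_Y1 hy hl, sum_Y2 hy]
  linear_combination sum_Y34 hy

end Pool.Agent.Lib.BM.LB
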