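import Pool.Agent.Lib.BM.LBid
import Pool.Agent.Lib.BM.LB

/-!
# BM.StLB: block (LB)
-/

set_option autoImplicit false

open Filter Topology

namespace Pool.Agent.Lib.BM

theorem stLB : StLB := by
  intro y l hy hl
  rw [LBid.hterm_sum hy]
  have e1 : ∑' P, LBid.X1t y P = ∑' P, LB.Y1 y P := by
    apply tsum_congr
    intro P
    simp only [LBid.X1t, LB.Y1, LBid.bv]
    ring
  have e2 : ∑' P, LBid.X2t y P = ∑' P, LB.Y2 y P := by
    apply tsum_congr
    intro P
    simp only [LBid.X2t, LB.Y2, LBid.bv]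
    ring
  have e3 : ∑' P, LBid.X3t y P = ∑' P, LB.Y3 y P := by
    apply tsum_congr
    intro P
    simp only [LBid.X3t, LB.Y3, LBid.bv]
    ring
  have e4 : ∑' P, LBid.X4t y P = ∑' P, LB.Y4 y P := by
    apply tsum_congr
    intro P
    simp only [LBid.X4t, LB.Y4, LBid.bv]
    ring
  rw [e1, e2, e3, e4, LB.sum_Y1 hy hl, LB.sum_Y2 hy]
  linear_combination LB.sum_Y34 hy

end Pool.Agent.Lib.BM
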