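import Pool.Agent.Lib.BM.L1
import Pool.Agent.Lib.BM.LA
import Pool.Agent.Lib.BM.LK
import Pool.Agent.Lib.BM.StLB
import Pool.Agent.Lib.BM.E1
import Pool.Agent.Lib.BM.StE2

set_option autoImplicit false

/-!
# BM.L1Fin: (L1) is proved
-/

namespace Pool.Agent.Lib.BM

/-- **(L1)**: the derivative of `Ψ`. -/
theorem l1 : StL1 := stL1 stLA stLK stLB stE1 stE2

end Pool.Agent.Lib.BM
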