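import Pool.Agent.Lib.BM.StripC

set_option autoImplicit false

/-!
# BM.LimC: the limit of the main part
-/

open Filter Topology Complex

namespace Pool.Agent.Lib.BM

namespace StripC

/-! ### the values of the zeta sums -/

lemma summable_z3 : Summable fun n : ℕ => 1 / ((n : ℝ) + 1) ^ 3 := by
  have h := (Real.summable_nat_pow_inv (p := 3)).2 (by norm_num)
  have h' := (summable_nat_add_iff 1).2 h
  refine h'.congr fun n => ?_
  push_cast
  rw [one_div]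

/-- `∑_{d ∣ n} 1/n^3 = ζ(3)/d^3` -/
lemma tsum_dvd3 (d : ℕ) (hd : 0 < d) :
    HasSum (fun n : ℕ => (if d ∣ n + 1 then (1 : ℝ) else 0) * (1 / ((n : ℝ) + 1) ^ 3)) (zeta3 / (d : ℝ) ^ 3) := by
  set φ : ℕ → ℕ := fun k => d * (k + 1) - 1 with hφ
  have hpos : ∀ k, 1 ≤ d * (k + 1) := fun k => Nat.one_le_iff_ne_zero.2 (by positivity)
  have hφ1 : ∀ k, φ k + 1 = d * (k + 1) := fun k => by have := hpos k; simp only [hφ]; omega
  have hinj : Function.Injective φ := by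
    intro a b h
    have h1 := hφ1 a
    have h2 := hφ1 b
    rw [h] at h1
    have := Nat.eq_of_mul_eq_mul_left hd (h1.symm.trans h2)
    omega
  rw [← hinj.hasSum_iff]
  · have h := (summable_z3.hasSum).mul_right (1 / (d : ℝ) ^ 3)
    have e : (∑' n : ℕ, 1 / ((n : ℝ) + 1) ^ 3) * (1 / (d : ℝ) ^ 3) = zeta3 / (d : ℝ) ^ 3 := by
      unfold zeta3; ring
    rw [e] at h
    refine h.congr_fun fun k => ?_
    simp only [Function.comp]
    have hc : ((φ k : ℝ) + 1) = (d : ℝ) * ((k : ℝ) + 1) := by exact_mod_cast hφ1 k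
    rw [hc, if_pos (by rw [hφ1]; exact dvd_mul_right _ _)]
    rw [mul_pow]
    have : (d : ℝ) ≠ 0 := by positivity
    field_simp
  · intro n hn
    rw [if_neg, zero_mul]
    intro h
    obtain ⟨k, hk⟩ := h
    apply hn
    have hk0 : k ≠ 0 := by rintro rfl; simp at hk
    refine ⟨k - 1, ?_⟩
    simp only [hφ]
    have : k - 1 + 1 = k := by omega
    rw [this]
    omega

lemma Wh_eq (n : ℕ) : Wh ((n : ℤ) + 1) = 2 - 2 * (if 2 ∣ n + 1 then (1 : ℝ) else 0)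
    - 18 * (if 3 ∣ n + 1 then (1 : ℝ) else 0) + 18 * (if 6 ∣ n + 1 then (1 : ℝ) else 0) := by
  have h2 : Even ((n : ℤ) + 1) ↔ 2 ∣ n + 1 := by
    rw [even_iff_two_dvd]; omega
  have h3 : (3 : ℤ) ∣ ((n : ℤ) + 1) ↔ 3 ∣ n + 1 := by omega
  have h6 : 6 ∣ n + 1 ↔ (2 ∣ n + 1 ∧ 3 ∣ n + 1) := by omega
  unfold Wh chiR uR
  rw [if_congr h2 rfl rfl, if_congr h3 rfl rfl, if_congr h6 rfl rfl]
  by_cases a : 2 ∣ n + 1 <;> by_cases b : 3 ∣ n + 1 <;> simp [a, b] <;> norm_num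

lemma Wh_zero : Wh 0 = 0 := by simp [Wh, chiR]

lemma Wh_neg (m : ℤ) : Wh (-m) = Wh m := by
  unfold Wh chiR uR
  simp only [even_neg, dvd_neg]

lemma abs_Wh_le (m : ℤ) : |Wh m| ≤ 16 := by
  unfold Wh chiR uR
  split_ifs <;> norm_num

/-- `∑ Wh(m)/m^3 = 7 ζ(3)/6` over positive `m` -/
lemma hasSum_Wh_nat : HasSum (fun n : ℕ => Wh ((n : ℤ) + 1) * (1 / ((n : ℝ) + 1) ^ 3)) (7 / 6 * zeta3) := by
  have h1 : HasSum (fun n : ℕ => 1 / ((n : ℝ) + 1) ^ 3) zeta3 := summable_z3.hasSum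
  have h2 := tsum_dvd3 2 (by norm_num)
  have h3 := tsum_dvd3 3 (by norm_num)
  have h6 := tsum_dvd3 6 (by norm_num)
  have h := ((h1.mul_left 2).sub (h2.mul_left 2)).sub (h3.mul_left 18)
  have h' := h.add (h6.mul_left 18)
  have e : 2 * zeta3 - 2 * (zeta3 / ((2 : ℕ) : ℝ) ^ 3) - 18 * (zeta3 / ((3 : ℕ) : ℝ) ^ 3)
      + 18 * (zeta3 / ((6 : ℕ) : ℝ) ^ 3) = 7 / 6 * zeta3 := by push_cast; ring
  rw [e] at h'
  refine h'.congr_fun fun n => ?_
  rw [Wh_eq]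
  ring

/-- `∑ Wh(m)/|m|^3 = 7 ζ(3)/3` over all `m` -/
lemma hasSum_Wh_int : HasSum (fun m : ℤ => Wh m * (1 / |(m : ℝ)| ^ 3)) (7 / 3 * zeta3) := by
  have hf0 : Wh (0 : ℤ) * (1 / |((0 : ℤ) : ℝ)| ^ 3) = 0 := by rw [Wh_zero, zero_mul]
  have h1 : HasSum (fun n : ℕ => Wh ((n : ℤ) + 1) * (1 / |(((n : ℤ) + 1 : ℤ) : ℝ)| ^ 3)) (7 / 6 * zeta3) := by
    refine hasSum_Wh_nat.congr_fun fun n => ?_
    push_cast
    rw [abs_of_nonneg (by positivity)]
  have h2 : HasSum (fun n : ℕ => Wh (n : ℤ) * (1 / |((n : ℤ) : ℝ)| ^ 3)) (7 / 6 * zeta3) := by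
    rw [← hasSum_nat_add_iff' 1]
    have e0 : ∑ i ∈ Finset.range 1, Wh (i : ℤ) * (1 / |((i : ℤ) : ℝ)| ^ 3) = 0 := by
      rw [Finset.sum_range_one]
      exact hf0
    rw [e0, sub_zero]
    exact h1
  have h3 : HasSum (fun n : ℕ => Wh (-((n : ℤ) + 1)) * (1 / |((-((n : ℤ) + 1) : ℤ) : ℝ)| ^ 3))
      (7 / 6 * zeta3) := by
    refine h1.congr_fun fun n => ?_
    rw [Wh_neg, Int.cast_neg, abs_neg]
  have := HasSum.of_nat_of_neg_add_one (f := fun m : ℤ => Wh m * (1 / |(m : ℝ)| ^ 3)) h2 h3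
  rwa [show 7 / 6 * zeta3 + 7 / 6 * zeta3 = 7 / 3 * zeta3 by ring] at this

lemma hasSum_inv_sq_int : HasSum (fun n : ℤ => 1 / (n : ℝ) ^ 2) (Real.pi ^ 2 / 3) := by
  have h1 := hasSum_zeta_two
  have h2 : HasSum (fun n : ℕ => 1 / ((n : ℤ) : ℝ) ^ 2) (Real.pi ^ 2 / 6) := by
    simpa using h1
  have h3 : HasSum (fun n : ℕ => 1 / ((-((n : ℤ) + 1) : ℤ) : ℝ) ^ 2) (Real.pi ^ 2 / 6) := by
    rw [← hasSum_nat_add_iff' 1] at h2
    have e0 : ∑ i ∈ Finset.range 1, 1 / ((i : ℤ) : ℝ) ^ 2 = 0 := by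
      rw [Finset.sum_range_one]
      norm_num
    rw [e0, sub_zero] at h2
    refine h2.congr_fun fun n => ?_
    push_cast
    congr 1
    ring
  have := HasSum.of_nat_of_neg_add_one (f := fun n : ℤ => 1 / (n : ℝ) ^ 2) h2 h3
  rwa [show Real.pi ^ 2 / 6 + Real.pi ^ 2 / 6 = Real.pi ^ 2 / 3 by ring] at this

/-! ### the limit -/

variable (H : PhiFacts)

include H in
/-- the limit of the main part -/
theorem main_tendsto :
    Tendsto (fun y : ℝ => y ^ 3 * ∑' p : ℤ × ℤ, -2 * Wh p.1 * beta y p.1 p.2) atTop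
      (𝓝 (-(7 * Real.pi ^ 3 * zeta3 / 9))) := by
  obtain ⟨C, hC, hb⟩ := beta_bound H
  have hprod : HasSum (fun p : ℤ × ℤ => Wh p.1 * (1 / |(p.1 : ℝ)| ^ 3) * (1 / (p.2 : ℝ) ^ 2))
      (7 / 3 * zeta3 * (Real.pi ^ 2 / 3)) := by
    have s1 := hasSum_Wh_int
    have s2 := hasSum_inv_sq_int
    have hs := summable_mul_of_summable_norm (f := fun m : ℤ => Wh m * (1 / |(m : ℝ)| ^ 3))
        (g := fun n : ℤ => 1 / (n : ℝ) ^ 2) s1.summable.norm s2.summable.norm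
    exact HasSum.mul (f := fun m : ℤ => Wh m * (1 / |(m : ℝ)| ^ 3))
        (g := fun n : ℤ => 1 / (n : ℝ) ^ 2) s1 s2 hs
  have hlim : ∑' p : ℤ × ℤ, -2 * Wh p.1 * (1 / (p.2 : ℝ) ^ 2 * (Real.pi / (2 * |(p.1 : ℝ)| ^ 3)))
      = -(7 * Real.pi ^ 3 * zeta3 / 9) := by
    have h := (hprod.mul_left (-Real.pi)).tsum_eq
    have e : -Real.pi * (7 / 3 * zeta3 * (Real.pi ^ 2 / 3)) = -(7 * Real.pi ^ 3 * zeta3 / 9) := by ring
    rw [e] at h
    rw [← h]
    apply tsum_congr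
    intro p
    rw [show Real.pi / (2 * |(p.1 : ℝ)| ^ 3) = Real.pi / 2 * (1 / |(p.1 : ℝ)| ^ 3) by
      rw [div_mul_div_comm, mul_one]]
    ring
  rw [← hlim]
  have hsumm : Summable fun p : ℤ × ℤ => 32 * C * (1 / |(p.1 : ℝ)| ^ 3 * (1 / (p.2 : ℝ) ^ 2)) := by
    have s1 : Summable fun m : ℤ => 1 / |(m : ℝ)| ^ 3 := by
      have := (Real.summable_one_div_int_pow (p := 3)).2 (by norm_num)
      refine this.norm.congr fun m => ?_
      rw [Real.norm_eq_abs, abs_div, abs_one, abs_pow]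
    have s2 := hasSum_inv_sq_int.summable
    exact (summable_mul_of_summable_norm (f := fun m : ℤ => 1 / |(m : ℝ)| ^ 3)
      (g := fun n : ℤ => 1 / (n : ℝ) ^ 2) s1.norm s2.norm).mul_left _
  simp only [← tsum_mul_left]
  refine tendsto_tsum_of_dominated_convergence hsumm ?_ ?_
  · rintro ⟨m, n⟩
    simp only
    rcases eq_or_ne m 0 with rfl | hm
    · simp only [Wh_zero, mul_zero, zero_mul]
      exact tendsto_const_nhds
    · have := (beta_tendsto H hm n).const_mul (-2 * Wh m)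
      refine this.congr fun y => ?_
      ring
  · filter_upwards [eventually_ge_atTop 1] with y hy
    rintro ⟨m, n⟩
    simp only
    rcases eq_or_ne m 0 with rfl | hm
    · simp only [Wh_zero, mul_zero, zero_mul, norm_zero]
      positivity
    · have h1 := hb y m n hy hm
      have h2 := abs_Wh_le m
      rw [Real.norm_eq_abs, show y ^ 3 * (-2 * Wh m * beta y m n) = (-2 * Wh m) * (y ^ 3 * beta y m n) by ring,
        abs_mul]
      have h3 : |(-2 : ℝ) * Wh m| ≤ 32 := by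
        rw [abs_mul, abs_neg, abs_two]; linarith
      calc |(-2 : ℝ) * Wh m| * |y ^ 3 * beta y m n|
          ≤ 32 * (C * (1 / |(m : ℝ)| ^ 3 * (1 / (n : ℝ) ^ 2))) :=
            mul_le_mul h3 h1 (abs_nonneg _) (by norm_num)
        _ = _ := by ring

end StripC

end Pool.Agent.Lib.BM
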