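import Pool.Agent.Lib.BM.StripC
import Pool.Agent.Lib.BM.E2
import Pool.Agent.Lib.BM.QBounds
import Pool.Agent.Lib.BM.Omega

set_option autoImplicit false

/-! # BM.PhiC: the facts on the row sums needed for the limit -/

open Filter Topology Complex

namespace Pool.Agent.Lib.BM

namespace StripC

lemma r11_eq_rr (y : ℝ) (m : ℤ) : r11 y m = rr y m := by
  unfold r11 rr av lam
  apply tsum_congr
  intro n
  rw [norm_inv, inv_pow, Complex.normSq_eq_norm_sq]

lemma rr_abs {y : ℝ} (hy : 0 < y) {m : ℤ} (hm : m ≠ 0) :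
    ∃ k : ℕ, |(m : ℝ)| = (k : ℝ) + 1 ∧ r11 y m = Real.pi / (((k : ℝ) + 1) * y) *
      (1 + 2 * (qn y ^ (k + 1) / (1 - qn y ^ (k + 1)))) := by
  rcases lt_or_gt_of_ne hm with h | h
  · obtain ⟨k, rfl⟩ : ∃ k : ℕ, m = -((k : ℤ) + 1) := ⟨(-m - 1).toNat, by omega⟩
    refine ⟨k, ?_, ?_⟩
    · push_cast
      rw [abs_of_nonpos (by have : (0 : ℝ) ≤ k := k.cast_nonneg
                            linarith)]
      ring
    · rw [r11_eq_rr, E2Aux.rr_neg, E2Aux.rr_nat hy]
  · obtain ⟨k, rfl⟩ : ∃ k : ℕ, m = (k : ℤ) + 1 := ⟨(m - 1).toNat, by omega⟩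
    refine ⟨k, ?_, ?_⟩
    · push_cast
      rw [abs_of_nonneg (by positivity)]
    · rw [r11_eq_rr, E2Aux.rr_nat hy]

lemma frac_bound {y : ℝ} (hy : 1 / 2 ≤ y) (k : ℕ) :
    |qn y ^ (k + 1) / (1 - qn y ^ (k + 1))| ≤ 2 * |qn y| := by
  have h1 := abs_qn_pow_le hy (k := k + 1) (by omega)
  have h2 := abs_qn_pow_le' hy (k := k + 1) (by omega)
  have h3 : 1 / 2 ≤ 1 - qn y ^ (k + 1) := by
    have := le_abs_self (qn y ^ (k + 1))
    linarith
  rw [abs_div, abs_of_pos (by linarith : 0 < 1 - qn y ^ (k + 1)), div_le_iff₀ (by linarith)]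
  nlinarith [abs_nonneg (qn y)]

/-- The facts on the row sums. -/
theorem phiFacts : PhiFacts where
  summable y m hy hm := by
    have := E2Aux.row_summable ((m : ℂ) * (1 / 2 + I * (y : ℂ)))
    exact this
  bound := by
    refine ⟨3 * Real.pi, by positivity, fun y m hy hm => ?_⟩
    have hy0 : 0 < y := by linarith
    obtain ⟨k, hk, he⟩ := rr_abs hy0 hm
    rw [he, hk]
    have h1 := frac_bound (by linarith : 1 / 2 ≤ y) k
    have h2 := abs_qn_le (by linarith : 1 / 2 ≤ y)
    have h3 := (abs_le.1 h1).2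
    have hpos : 0 < ((k : ℝ) + 1) * y := by positivity
    rw [div_mul_eq_mul_div]
    apply div_le_div_of_nonneg_right _ hpos.le
    have hpi := Real.pi_pos
    nlinarith
  lim m hm := by
    have hq : Tendsto (fun y : ℝ => |qn y|) atTop (𝓝 0) := by
      simp only [abs_qn]
      exact Omega.tendsto_exp_neg_mul (by positivity : 0 < 2 * Real.pi)
    obtain ⟨k, hk, -⟩ := rr_abs one_pos hm
    have hf : Tendsto (fun y : ℝ => qn y ^ (k + 1) / (1 - qn y ^ (k + 1))) atTop (𝓝 0) := by
      have h2 : Tendsto (fun y : ℝ => 2 * |qn y|) atTop (𝓝 0) := by simpa using hq.const_mul 2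
      apply squeeze_zero_norm' _ h2
      filter_upwards [eventually_ge_atTop (1 / 2)] with y hy
      exact frac_bound hy k
    have h3 := ((hf.const_mul 2).const_add 1).const_mul (Real.pi / |(m : ℝ)|)
    rw [mul_zero, add_zero, mul_one] at h3
    refine h3.congr' ?_
    filter_upwards [eventually_gt_atTop 0] with y hy
    obtain ⟨k', hk', he⟩ := rr_abs hy hm
    have : k' = k := by
      have := hk'.symm.trans hk
      have h5 : (k' : ℝ) = k := by linarith
      exact_mod_cast h5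
    subst this
    rw [he, hk]
    field_simp

end StripC

end Pool.Agent.Lib.BM
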