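import Pool.Agent.Lib.BM.TDec
import Pool.Agent.Lib.BM.LimC
import Pool.Agent.Lib.BM.PhiC

set_option autoImplicit false

/-!
# BM.L2: the limit of `Ψ` at the cusp, `StL2`
-/

open Filter Topology Complex
open scoped ComplexConjugate

namespace Pool.Agent.Lib.BM

namespace StripC

/-! ### the part `m₁ = 0` -/

/-- complex conjugation on the lattice -/
def cc (p : ℤ × ℤ) : ℤ × ℤ := (-p.1, p.1 + p.2)

lemma cc_cc (p : ℤ × ℤ) : cc (cc p) = p := by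
  unfold cc; ext <;> simp

lemma av_cc (y : ℝ) (p : ℤ × ℤ) : av y (cc p) = conj (av y p) := by
  unfold av cc lam
  rw [map_inv₀]
  congr 1
  simp only [map_add, map_mul, map_intCast, map_div₀, map_one, map_ofNat, Complex.conj_I,
    Complex.conj_ofReal]
  push_cast
  ring

/-- conjugation combined with the exchange of the second and the third point -/
def EE' : (ℤ × ℤ) × (ℤ × ℤ) ≃ (ℤ × ℤ) × (ℤ × ℤ) where
  toFun P := (cc P.1, cc (LSum.thd P))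
  invFun P := (cc P.1, cc (LSum.thd P))
  left_inv P := by
    obtain ⟨⟨a, b⟩, ⟨c, d⟩⟩ := P
    simp only [cc, LSum.thd, Prod.mk.injEq, Prod.fst_sub, Prod.fst_neg, Prod.snd_sub, Prod.snd_neg]
    refine ⟨⟨by ring, by ring⟩, ⟨by ring, by ring⟩⟩
  right_inv P := by
    obtain ⟨⟨a, b⟩, ⟨c, d⟩⟩ := P
    simp only [cc, LSum.thd, Prod.mk.injEq, Prod.fst_sub, Prod.fst_neg, Prod.snd_sub, Prod.snd_neg]
    refine ⟨⟨by ring, by ring⟩, ⟨by ring, by ring⟩⟩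

lemma thd_EE' (P : (ℤ × ℤ) × (ℤ × ℤ)) : LSum.thd (EE' P) = cc P.2 := by
  obtain ⟨⟨a, b⟩, ⟨c, d⟩⟩ := P
  simp only [EE', Equiv.coe_fn_mk, cc, LSum.thd, Prod.fst_sub, Prod.fst_neg, Prod.snd_sub, Prod.snd_neg]
  ext
  · simp only [Prod.fst_sub, Prod.fst_neg]; ring
  · simp only [Prod.snd_sub, Prod.snd_neg]; ring

lemma DK_EE' (y : ℝ) (P : (ℤ × ℤ) × (ℤ × ℤ)) : (DK y (EE' P)).re = -(DK y P).re := by
  have h : DK y (EE' P) = Del (av y (cc P.1)) (av y (cc (LSum.thd P))) (av y (LSum.thd (EE' P))) := rfl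
  rw [h, thd_EE', av_cc, av_cc, av_cc, Dl_conj', Complex.conj_re, Dl_swap, Complex.neg_re]
  rfl

/-- the weighted kernel -/
noncomputable def gW (y : ℝ) (P : (ℤ × ℤ) × (ℤ × ℤ)) : ℝ := UW P.1.1 P.2.1 * (DK y P).re

lemma summable_gW {y : ℝ} (hy : 0 < y) : Summable (gW y) :=
  summable_DK hy (fun P => UW P.1.1 P.2.1) 28 fun P => abs_UW_le _ _

lemma summable_ite {y : ℝ} (hy : 0 < y) (S : (ℤ × ℤ) × (ℤ × ℤ) → Prop) [DecidablePred S] :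
    Summable fun P => if S P then gW y P else 0 := by
  refine Summable.of_norm_bounded (summable_gW hy).norm fun P => ?_
  split_ifs
  · exact le_rfl
  · rw [norm_zero]; exact norm_nonneg _

lemma tsum_f1 (y : ℝ) :
    ∑' P : (ℤ × ℤ) × (ℤ × ℤ), (if P.1.1 = 0 then gW y P else 0) = 0 := by
  have h : ∑' P : (ℤ × ℤ) × (ℤ × ℤ), (if P.1.1 = 0 then gW y P else 0)
      = -∑' P : (ℤ × ℤ) × (ℤ × ℤ), (if P.1.1 = 0 then gW y P else 0) := by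
    conv_lhs => rw [← EE'.tsum_eq]
    rw [← tsum_neg]
    apply tsum_congr
    intro P
    have h1 : (EE' P).1.1 = -P.1.1 := rfl
    have h2 : (EE' P).2.1 = -(-P.1.1 - P.2.1) := rfl
    by_cases hP : P.1.1 = 0
    · rw [if_pos (by rw [h1, hP]; rfl), if_pos hP]
      unfold gW
      rw [DK_EE', h1, h2, hP]
      have : -(-(0 : ℤ) - P.2.1) = P.2.1 := by ring
      rw [this, neg_zero]
      ring
    · rw [if_neg (by rw [h1]; simpa using hP), if_neg hP, neg_zero]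
  linarith

/-! ### the parts `m₂ = 0` and `m₃ = 0` -/

lemma av_zero_int (y : ℝ) (n : ℤ) : av y (0, n) = (n : ℂ)⁻¹ := by
  unfold av lam
  simp

lemma av_neg_mk (y : ℝ) (m n : ℤ) : av y (-m, -n) = -iv y m n := by
  unfold iv av
  rw [show ((-m, -n) : ℤ × ℤ) = -(m, n) from rfl, LSum.lam_neg, inv_neg]

/-- parametrisation of `m₃ = 0` -/
def φ3 (q : (ℤ × ℤ) × ℤ) : (ℤ × ℤ) × (ℤ × ℤ) := ((q.1.1, q.2), (-q.1.1, -(q.1.2 + q.2)))

/-- parametrisation of `m₂ = 0` -/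
def φ2 (q : (ℤ × ℤ) × ℤ) : (ℤ × ℤ) × (ℤ × ℤ) := ((q.1.1, q.2), (0, q.1.2))

lemma φ3_inj : Function.Injective φ3 := by
  rintro ⟨⟨a, b⟩, c⟩ ⟨⟨a', b'⟩, c'⟩ h
  simp only [φ3, Prod.mk.injEq] at h
  obtain ⟨⟨h1, h2⟩, -, h3⟩ := h
  subst h1 h2
  have : b = b' := by omega
  rw [this]

lemma φ2_inj : Function.Injective φ2 := by
  rintro ⟨⟨a, b⟩, c⟩ ⟨⟨a', b'⟩, c'⟩ h
  simp only [φ2, Prod.mk.injEq] at h
  obtain ⟨⟨h1, h2⟩, -, h3⟩ := h
  subst h1 h2 h3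
  rfl

lemma thd_φ3 (q : (ℤ × ℤ) × ℤ) : LSum.thd (φ3 q) = (0, q.1.2) := by
  obtain ⟨⟨a, b⟩, c⟩ := q
  simp only [φ3, LSum.thd]
  ext
  · simp
  · simp only [Prod.snd_sub, Prod.snd_neg]; ring

lemma thd_φ2 (q : (ℤ × ℤ) × ℤ) : LSum.thd (φ2 q) = (-q.1.1, -(q.1.2 + q.2)) := by
  obtain ⟨⟨a, b⟩, c⟩ := q
  simp only [φ2, LSum.thd]
  ext
  · simp
  · simp only [Prod.snd_sub, Prod.snd_neg]; ring

lemma DK_φ3 (y : ℝ) (q : (ℤ × ℤ) × ℤ) :
    DK y (φ3 q) = Del (iv y q.1.1 q.2) (-iv y q.1.1 (q.1.2 + q.2)) (q.1.2 : ℂ)⁻¹ := by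
  have h : DK y (φ3 q) = Del (av y (q.1.1, q.2)) (av y (-q.1.1, -(q.1.2 + q.2))) (av y (LSum.thd (φ3 q))) := rfl
  rw [h, thd_φ3, av_zero_int, av_neg_mk]
  rfl

lemma DK_φ2 (y : ℝ) (q : (ℤ × ℤ) × ℤ) :
    DK y (φ2 q) = -Del (iv y q.1.1 q.2) (-iv y q.1.1 (q.1.2 + q.2)) (q.1.2 : ℂ)⁻¹ := by
  have h : DK y (φ2 q) = Del (av y (q.1.1, q.2)) (av y (0, q.1.2)) (av y (LSum.thd (φ2 q))) := rfl
  rw [h, thd_φ2, av_zero_int, av_neg_mk, Dl_swap]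
  rfl

/-- the part `m₃ = 0` -/
lemma tsum_f3 {y : ℝ} (hy : 0 < y) :
    Summable (fun p : ℤ × ℤ => if p.1 ≠ 0 then UW p.1 (-p.1) * beta y p.1 p.2 else 0) ∧
    ∑' P : (ℤ × ℤ) × (ℤ × ℤ), (if P.1.1 ≠ 0 ∧ P.1.1 + P.2.1 = 0 then gW y P else 0)
      = ∑' p : ℤ × ℤ, if p.1 ≠ 0 then UW p.1 (-p.1) * beta y p.1 p.2 else 0 := by
  have hs := summable_ite hy (fun P => P.1.1 ≠ 0 ∧ P.1.1 + P.2.1 = 0)
  have h1 : ∑' P : (ℤ × ℤ) × (ℤ × ℤ), (if P.1.1 ≠ 0 ∧ P.1.1 + P.2.1 = 0 then gW y P else 0)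
      = ∑' q : (ℤ × ℤ) × ℤ, (if (φ3 q).1.1 ≠ 0 ∧ (φ3 q).1.1 + (φ3 q).2.1 = 0 then gW y (φ3 q) else 0) := by
    rw [← φ3_inj.tsum_eq (f := fun P : (ℤ × ℤ) × (ℤ × ℤ) =>
      if P.1.1 ≠ 0 ∧ P.1.1 + P.2.1 = 0 then gW y P else 0)]
    rintro ⟨⟨a, b⟩, ⟨c, d⟩⟩ hP
    rw [Function.mem_support] at hP
    simp only [ne_eq, ite_eq_right_iff, Classical.not_imp] at hP
    obtain ⟨⟨-, h2⟩, -⟩ := hP
    refine ⟨((a, -b - d), b), ?_⟩
    simp only [φ3, Prod.mk.injEq]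
    refine ⟨trivial, by omega, by ring⟩
  have hs1 : Summable fun q : (ℤ × ℤ) × ℤ =>
      (if (φ3 q).1.1 ≠ 0 ∧ (φ3 q).1.1 + (φ3 q).2.1 = 0 then gW y (φ3 q) else 0) :=
    hs.comp_injective φ3_inj
  have hval : ∀ q : (ℤ × ℤ) × ℤ,
      (if (φ3 q).1.1 ≠ 0 ∧ (φ3 q).1.1 + (φ3 q).2.1 = 0 then gW y (φ3 q) else 0)
      = if q.1.1 ≠ 0 then UW q.1.1 (-q.1.1) *
        (Del (iv y q.1.1 q.2) (-iv y q.1.1 (q.1.2 + q.2)) (q.1.2 : ℂ)⁻¹).re else 0 := by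
    intro q
    have e : ((φ3 q).1.1 ≠ 0 ∧ (φ3 q).1.1 + (φ3 q).2.1 = 0) ↔ q.1.1 ≠ 0 := by
      simp [φ3]
    rw [if_congr e rfl rfl]
    unfold gW
    rw [DK_φ3]
    rfl
  have hin : ∀ p : ℤ × ℤ, ∑' k : ℤ, (if p.1 ≠ 0 then UW p.1 (-p.1) *
        (Del (iv y p.1 k) (-iv y p.1 (p.2 + k)) (p.2 : ℂ)⁻¹).re else 0)
      = if p.1 ≠ 0 then UW p.1 (-p.1) * beta y p.1 p.2 else 0 := by
    intro p
    split_ifs
    · unfold beta; rw [tsum_mul_left]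
    · exact tsum_zero
  have hs2 := hs1.congr hval
  constructor
  · exact hs2.prod.congr hin
  · rw [h1, tsum_congr hval, hs2.tsum_prod]
    exact tsum_congr hin

/-- the part `m₂ = 0` -/
lemma tsum_f2 {y : ℝ} (hy : 0 < y) :
    Summable (fun p : ℤ × ℤ => if p.1 ≠ 0 then -(UW p.1 0 * beta y p.1 p.2) else 0) ∧
    ∑' P : (ℤ × ℤ) × (ℤ × ℤ), (if P.1.1 ≠ 0 ∧ P.2.1 = 0 then gW y P else 0)
      = ∑' p : ℤ × ℤ, if p.1 ≠ 0 then -(UW p.1 0 * beta y p.1 p.2) else 0 := by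
  have hs := summable_ite hy (fun P => P.1.1 ≠ 0 ∧ P.2.1 = 0)
  have h1 : ∑' P : (ℤ × ℤ) × (ℤ × ℤ), (if P.1.1 ≠ 0 ∧ P.2.1 = 0 then gW y P else 0)
      = ∑' q : (ℤ × ℤ) × ℤ, (if (φ2 q).1.1 ≠ 0 ∧ (φ2 q).2.1 = 0 then gW y (φ2 q) else 0) := by
    rw [← φ2_inj.tsum_eq (f := fun P : (ℤ × ℤ) × (ℤ × ℤ) =>
      if P.1.1 ≠ 0 ∧ P.2.1 = 0 then gW y P else 0)]
    rintro ⟨⟨a, b⟩, ⟨c, d⟩⟩ hP
    rw [Function.mem_support] at hP
    simp only [ne_eq, ite_eq_right_iff, Classical.not_imp] at hP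
    obtain ⟨⟨-, h2⟩, -⟩ := hP
    refine ⟨((a, d), b), ?_⟩
    simp only [φ2, Prod.mk.injEq]
    exact ⟨trivial, h2.symm, trivial⟩
  have hs1 : Summable fun q : (ℤ × ℤ) × ℤ =>
      (if (φ2 q).1.1 ≠ 0 ∧ (φ2 q).2.1 = 0 then gW y (φ2 q) else 0) :=
    hs.comp_injective φ2_inj
  have hval : ∀ q : (ℤ × ℤ) × ℤ,
      (if (φ2 q).1.1 ≠ 0 ∧ (φ2 q).2.1 = 0 then gW y (φ2 q) else 0)
      = if q.1.1 ≠ 0 then -(UW q.1.1 0 *
        (Del (iv y q.1.1 q.2) (-iv y q.1.1 (q.1.2 + q.2)) (q.1.2 : ℂ)⁻¹).re) else 0 := by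
    intro q
    have e : ((φ2 q).1.1 ≠ 0 ∧ (φ2 q).2.1 = 0) ↔ q.1.1 ≠ 0 := by
      simp [φ2]
    rw [if_congr e rfl rfl]
    unfold gW
    rw [DK_φ2, Complex.neg_re, mul_neg]
    rfl
  have hin : ∀ p : ℤ × ℤ, ∑' k : ℤ, (if p.1 ≠ 0 then -(UW p.1 0 *
        (Del (iv y p.1 k) (-iv y p.1 (p.2 + k)) (p.2 : ℂ)⁻¹).re) else 0)
      = if p.1 ≠ 0 then -(UW p.1 0 * beta y p.1 p.2) else 0 := by
    intro p
    split_ifs
    · unfold beta; rw [tsum_neg, tsum_mul_left]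
    · exact tsum_zero
  have hs2 := hs1.congr hval
  constructor
  · exact hs2.prod.congr hin
  · rw [h1, tsum_congr hval, hs2.tsum_prod]
    exact tsum_congr hin

/-! ### the generic part -/

/-- `|λ|^-3` for `m ≠ 0` -/
noncomputable def hh (y : ℝ) (p : ℤ × ℤ) : ℝ := if p.1 ≠ 0 then ‖av y p‖ ^ 3 else 0

lemma hh_nonneg (y : ℝ) (p : ℤ × ℤ) : 0 ≤ hh y p := by unfold hh; split_ifs <;> positivity

lemma hh_le (y : ℝ) (p : ℤ × ℤ) : hh y p ≤ ‖av y p‖ ^ 3 := by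
  unfold hh; split_ifs
  · exact le_rfl
  · positivity

lemma summable_hh {y : ℝ} (hy : 0 < y) : Summable (hh y) :=
  Summable.of_nonneg_of_le (hh_nonneg y) (hh_le y) (LSum.summable_av3 hy)

lemma hh_sum : ∃ C : ℝ, 0 ≤ C ∧ ∀ y : ℝ, 1 ≤ y → ∑' p, hh y p ≤ C / y ^ 2 := by
  obtain ⟨C, hC, hb⟩ := phiFacts.bound
  refine ⟨C * (Real.pi ^ 2 / 3), by positivity, fun y hy => ?_⟩
  have hy0 : 0 < y := by linarith
  have hs := summable_hh hy0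
  rw [hs.tsum_prod]
  have hin : ∀ m : ℤ, ∑' n : ℤ, hh y (m, n) ≤ C / y ^ 2 * (1 / (m : ℝ) ^ 2) := by
    intro m
    by_cases hm : m = 0
    · subst hm
      simp [hh]
    · have h1 : ∑' n : ℤ, hh y (m, n) = ∑' n : ℤ, ‖iv y m n‖ ^ (1 + 2) := by
        apply tsum_congr
        intro n
        unfold hh
        rw [if_pos (by simpa using hm)]
        rfl
      have h2 := tsum_pow_le phiFacts hy0 hm 1
      have h3 := hb y m hy hm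
      have hm0 := absm_pos hm
      have hm2 : (m : ℝ) ^ 2 = |(m : ℝ)| ^ 2 := (sq_abs _).symm
      rw [h1]
      calc ∑' n : ℤ, ‖iv y m n‖ ^ (1 + 2) ≤ (1 / (|(m : ℝ)| * y)) ^ 1 * r11 y m := h2
        _ ≤ (1 / (|(m : ℝ)| * y)) ^ 1 * (C / (|(m : ℝ)| * y)) :=
            mul_le_mul_of_nonneg_left h3 (by positivity)
        _ = C / y ^ 2 * (1 / (m : ℝ) ^ 2) := by rw [hm2]; field_simp
  have hsum := hasSum_inv_sq_int
  have hs' := hs.prod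
  calc ∑' m : ℤ, ∑' n : ℤ, hh y (m, n) ≤ ∑' m : ℤ, C / y ^ 2 * (1 / (m : ℝ) ^ 2) :=
        hs'.tsum_le_tsum hin (hsum.summable.mul_left _)
    _ = C / y ^ 2 * (Real.pi ^ 2 / 3) := by rw [tsum_mul_left, hsum.tsum_eq]
    _ = _ := by ring

/-- product majorant -/
noncomputable def GG (y : ℝ) (P : (ℤ × ℤ) × (ℤ × ℤ)) : ℝ := hh y P.1 * hh y P.2

lemma hasSum_GG {y : ℝ} (hy : 0 < y) : HasSum (GG y) ((∑' p, hh y p) * ∑' p, hh y p) := by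
  have s := summable_hh hy
  exact HasSum.mul s.hasSum s.hasSum (s.mul_of_nonneg s (hh_nonneg y) (hh_nonneg y))

/-- the part with all three `mᵢ ≠ 0` -/
lemma tsum_f4 {y : ℝ} (hy : 0 < y) :
    |∑' P : (ℤ × ℤ) × (ℤ × ℤ), (if P.1.1 ≠ 0 ∧ P.2.1 ≠ 0 ∧ P.1.1 + P.2.1 ≠ 0 then gW y P else 0)|
      ≤ 504 * ((∑' p, hh y p) * ∑' p, hh y p) := by
  have g1 := hasSum_GG hy
  set S : ℝ := (∑' p, hh y p) * ∑' p, hh y p with hS
  have g2 : HasSum (fun P => GG y (LSum.cyc P)) S := (LSum.cyc.hasSum_iff (f := GG y)).2 g1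
  have g3 : HasSum (fun P => GG y (LSum.cyc (LSum.cyc P))) S :=
    (LSum.cyc.hasSum_iff (f := fun P => GG y (LSum.cyc P))).2 g2
  have g : HasSum (fun P => 168 * (GG y P + GG y (LSum.cyc P) + GG y (LSum.cyc (LSum.cyc P))))
      (168 * (S + S + S)) := ((g1.add g2).add g3).mul_left 168
  have hb : ∀ P : (ℤ × ℤ) × (ℤ × ℤ),
      ‖(if P.1.1 ≠ 0 ∧ P.2.1 ≠ 0 ∧ P.1.1 + P.2.1 ≠ 0 then gW y P else 0)‖
      ≤ 168 * (GG y P + GG y (LSum.cyc P) + GG y (LSum.cyc (LSum.cyc P))) := by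
    intro P
    have hGn : ∀ Q, 0 ≤ GG y Q := fun Q => mul_nonneg (hh_nonneg _ _) (hh_nonneg _ _)
    split_ifs with h
    · obtain ⟨h1, h2, h3⟩ := h
      have h3' : (LSum.thd P).1 ≠ 0 := by
        intro h0
        apply h3
        have : (LSum.thd P).1 = -P.1.1 - P.2.1 := rfl
        omega
      have e1 : hh y P.1 = ‖av y P.1‖ ^ 3 := if_pos h1
      have e2 : hh y P.2 = ‖av y P.2‖ ^ 3 := if_pos h2
      have e3 : hh y (LSum.thd P) = ‖av y (LSum.thd P)‖ ^ 3 := if_pos h3'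
      have hB : LSum.B3 y P = GG y P + GG y (LSum.cyc P) + GG y (LSum.cyc (LSum.cyc P)) := by
        rw [cyc_cyc P]
        unfold LSum.B3 GG
        rw [LSum.cyc_apply]
        simp only
        rw [e1, e2, e3]
      rw [← hB]
      unfold gW
      rw [norm_mul, Real.norm_eq_abs, Real.norm_eq_abs]
      calc |UW P.1.1 P.2.1| * |(DK y P).re| ≤ 28 * (6 * LSum.B3 y P) :=
            mul_le_mul (abs_UW_le _ _) ((Complex.abs_re_le_norm _).trans (norm_DK_le_B3 hy P))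
              (abs_nonneg _) (by norm_num)
        _ = _ := by ring
    · rw [norm_zero]
      have a1 := hGn P
      have a2 := hGn (LSum.cyc P)
      have a3 := hGn (LSum.cyc (LSum.cyc P))
      linarith
  have := tsum_of_norm_bounded (f := fun P : (ℤ × ℤ) × (ℤ × ℤ) =>
    (if P.1.1 ≠ 0 ∧ P.2.1 ≠ 0 ∧ P.1.1 + P.2.1 ≠ 0 then gW y P else 0)) g hb
  rw [Real.norm_eq_abs] at this
  linarith

/-- The decomposition. -/
theorem TL_decomp {y : ℝ} (hy : 0 < y) :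
    (TL y).re = (∑' p : ℤ × ℤ, -2 * Wh p.1 * beta y p.1 p.2) +
      ∑' P : (ℤ × ℤ) × (ℤ × ℤ), (if P.1.1 ≠ 0 ∧ P.2.1 ≠ 0 ∧ P.1.1 + P.2.1 ≠ 0 then gW y P else 0) := by
  have hs1 := summable_ite hy (fun P => P.1.1 = 0)
  have hs2 := summable_ite hy (fun P => P.1.1 ≠ 0 ∧ P.2.1 = 0)
  have hs3 := summable_ite hy (fun P => P.1.1 ≠ 0 ∧ P.1.1 + P.2.1 = 0)
  have hs4 := summable_ite hy (fun P => P.1.1 ≠ 0 ∧ P.2.1 ≠ 0 ∧ P.1.1 + P.2.1 ≠ 0)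
  have hpt : ∀ P : (ℤ × ℤ) × (ℤ × ℤ), UW P.1.1 P.2.1 * (DK y P).re
      = (if P.1.1 = 0 then gW y P else 0) + (if P.1.1 ≠ 0 ∧ P.2.1 = 0 then gW y P else 0)
        + (if P.1.1 ≠ 0 ∧ P.1.1 + P.2.1 = 0 then gW y P else 0)
        + (if P.1.1 ≠ 0 ∧ P.2.1 ≠ 0 ∧ P.1.1 + P.2.1 ≠ 0 then gW y P else 0) := by
    intro P
    change gW y P = _
    by_cases h1 : P.1.1 = 0
    · simp [h1]
    · by_cases h2 : P.2.1 = 0
      · simp [h1, h2]
      · by_cases h3 : P.1.1 + P.2.1 = 0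
        · simp [h1, h2, h3]
        · simp [h1, h2, h3]
  rw [TL_re hy, tsum_congr hpt, ((hs1.add hs2).add hs3).tsum_add hs4, (hs1.add hs2).tsum_add hs3,
    hs1.tsum_add hs2, tsum_f1, (tsum_f2 hy).2, (tsum_f3 hy).2, zero_add,
    ← (tsum_f2 hy).1.tsum_add (tsum_f3 hy).1]
  congr 1
  apply tsum_congr
  rintro ⟨m, n⟩
  simp only
  by_cases hm : m = 0
  · subst hm
    simp [Wh_zero]
  · rw [if_pos hm, if_pos hm]
    have := UW_diff m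
    linear_combination (beta y m n) * this

lemma norm_Kh42_le {y : ℝ} (hy : 1 ≤ y) : ‖Kh42 y‖ ≤ 16 / y ^ 3 * ∑' p, hh y p := by
  have hy0 : 0 < y := by linarith
  unfold Kh42 Kab
  have hs := (summable_hh hy0).mul_left (16 / y ^ 3)
  have := tsum_of_norm_bounded (f := fun p : ℤ × ℤ => (Wh p.1 : ℂ) * (av y p ^ 4 * conj (av y p) ^ 2))
    hs.hasSum (fun p => by
      by_cases hp : p.1 = 0
      · rw [hp, Wh_zero]
        simp only [Complex.ofReal_zero, zero_mul, norm_zero]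
        have := hh_nonneg y p
        positivity
      · have e1 : hh y p = ‖av y p‖ ^ 3 := if_pos hp
        rw [e1, norm_mul, norm_mul, norm_pow, norm_pow, Complex.norm_conj, Complex.norm_real,
          Real.norm_eq_abs]
        have h1 : ‖av y p‖ ≤ 1 / y := by
          have := norm_iv_le hy0 hp p.2
          have hm1 : (1 : ℝ) ≤ |(p.1 : ℝ)| := by exact_mod_cast Int.one_le_abs hp
          refine (show ‖av y p‖ ≤ 1 / (|(p.1 : ℝ)| * y) from this).trans ?_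
          apply one_div_le_one_div_of_le hy0
          nlinarith
        have h2 : ‖av y p‖ ^ 4 * ‖av y p‖ ^ 2 ≤ 1 / y ^ 3 * ‖av y p‖ ^ 3 := by
          calc ‖av y p‖ ^ 4 * ‖av y p‖ ^ 2 = ‖av y p‖ ^ 3 * ‖av y p‖ ^ 3 := by ring
            _ ≤ (1 / y) ^ 3 * ‖av y p‖ ^ 3 :=
                mul_le_mul_of_nonneg_right (pow_le_pow_left₀ (norm_nonneg _) h1 3) (by positivity)
            _ = _ := by rw [div_pow, one_pow]
        calc |Wh p.1| * (‖av y p‖ ^ 4 * ‖av y p‖ ^ 2) ≤ 16 * (1 / y ^ 3 * ‖av y p‖ ^ 3) :=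
              mul_le_mul (abs_Wh_le _) h2 (by positivity) (by norm_num)
          _ = _ := by ring)
  rw [tsum_mul_left] at this
  exact this

end StripC

/-- **(L2)** -/
theorem stL2 : StL2 := by
  unfold StL2
  obtain ⟨C, hC, hb⟩ := StripC.hh_sum
  have hmain := StripC.main_tendsto StripC.phiFacts
  have hinv : Tendsto (fun y : ℝ => y⁻¹) atTop (𝓝 0) := tendsto_inv_atTop_zero
  set R : ℝ → ℝ := fun y => ∑' P : (ℤ × ℤ) × (ℤ × ℤ),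
    (if P.1.1 ≠ 0 ∧ P.2.1 ≠ 0 ∧ P.1.1 + P.2.1 ≠ 0 then StripC.gW y P else 0) with hR
  have hR0 : Tendsto (fun y : ℝ => y ^ 3 * R y) atTop (𝓝 0) := by
    have hb0 : Tendsto (fun y : ℝ => 504 * C ^ 2 * y⁻¹) atTop (𝓝 0) := by
      simpa using hinv.const_mul (504 * C ^ 2)
    apply squeeze_zero_norm' _ hb0
    filter_upwards [eventually_ge_atTop 1] with y hy
    have hy0 : 0 < y := by linarith
    have h1 := StripC.tsum_f4 hy0
    have h2 := hb y hy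
    have h3 : 0 ≤ ∑' p, StripC.hh y p := tsum_nonneg (StripC.hh_nonneg y)
    rw [Real.norm_eq_abs, abs_mul, abs_of_pos (by positivity : 0 < y ^ 3)]
    calc y ^ 3 * |R y| ≤ y ^ 3 * (504 * ((∑' p, StripC.hh y p) * ∑' p, StripC.hh y p)) :=
          mul_le_mul_of_nonneg_left h1 (by positivity)
      _ ≤ y ^ 3 * (504 * ((C / y ^ 2) * (C / y ^ 2))) := by gcongr
      _ = 504 * C ^ 2 * y⁻¹ := by field_simp
  have hK0 : Tendsto (fun y : ℝ => y ^ 3 * (2 * (Kh42 y).re)) atTop (𝓝 0) := by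
    have hb0 : Tendsto (fun y : ℝ => 32 * C * (y⁻¹ * y⁻¹)) atTop (𝓝 0) := by
      simpa using (hinv.mul hinv).const_mul (32 * C)
    apply squeeze_zero_norm' _ hb0
    filter_upwards [eventually_ge_atTop 1] with y hy
    have hy0 : 0 < y := by linarith
    have h1 := StripC.norm_Kh42_le hy
    have h2 := hb y hy
    have h3 : 0 ≤ ∑' p, StripC.hh y p := tsum_nonneg (StripC.hh_nonneg y)
    rw [Real.norm_eq_abs, abs_mul, abs_mul, abs_two, abs_of_pos (by positivity : 0 < y ^ 3)]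
    calc y ^ 3 * (2 * |(Kh42 y).re|) ≤ y ^ 3 * (2 * (16 / y ^ 3 * ∑' p, StripC.hh y p)) := by
          gcongr
          exact (Complex.abs_re_le_norm _).trans h1
      _ ≤ y ^ 3 * (2 * (16 / y ^ 3 * (C / y ^ 2))) := by gcongr
      _ = 32 * C * (y⁻¹ * y⁻¹) := by field_simp; ring
  have := (hmain.add hR0).add hK0
  rw [add_zero, add_zero] at this
  refine this.congr' ?_
  filter_upwards [eventually_gt_atTop 0] with y hy
  unfold PsiR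
  have e : (TL y + 2 * Kh42 y).re = (TL y).re + 2 * (Kh42 y).re := by simp
  rw [e, StripC.TL_decomp hy]
  simp only [hR]
  ring

end Pool.Agent.Lib.BM
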