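import Pool.Agent.Lib.BM.P2
import Pool.Agent.Lib.BM.L1Fin
import Pool.Agent.Lib.BM.L2

set_option autoImplicit false

/-!
# BM.P2F: block (P2) from the CM evaluation
-/

namespace Pool.Agent.Lib.BM

/-- Block (P2) from the value of the lattice sum at the CM point. -/
theorem p2_of_cm (h : StCM) : StP2 := p2 l1 stL2 h

end Pool.Agent.Lib.BM
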