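import Pool.Agent.Lib.BM.Defs
import Pool.Agent.Lib.BM.EtaLattice

set_option autoImplicit false

/-! # BM.P3: block (P3) in the shared definitions -/

namespace Pool.Agent.Lib.BM

/-- **Block (P3)**: `L(f, 4) = lat0 / 2 - lat1 / 54`. -/
theorem p3 : StP3 := by
  unfold StP3
  exact Eta.blockT etaR fR (fun _ => rfl) (fun _ => rfl)

end Pool.Agent.Lib.BM
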