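import Pool.Agent.Lib.BM.Asm
import Pool.Agent.Lib.BM.P1
import Pool.Agent.Lib.BM.P2F
import Pool.Agent.Lib.BM.P3
import Pool.Agent.Lib.BM.CmEnd
import Pool.Agent.Lib.BM.CmDataChk
import Pool.Agent.Lib.BM.CmOne
import Pool.Agent.Lib.BM.CmWchk

set_option autoImplicit false

/-!
# BM.FinOf: the complete chain
-/

namespace Pool.Agent.Lib.BM

open Cm in
/-- Block (CM). -/
theorem stCM_final : StCM :=
  stCM_of stF3 (by
    rw [cm_weights stF3, insts_value stF3, moves_value, add_zero, One.KS_OO, One.KS_Lam0]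
    ring)

/-- Block (P2). -/
theorem p2_final : StP2 := p2_of_cm stCM_final

end Pool.Agent.Lib.BM
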