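import Pool.Agent.Lib.BM.Ram2

set_option autoImplicit false

/-!
# BM.Id: the weight 2 and weight 4 identities between Lambert series
-/

namespace Pool.Agent.Lib.BM

open Finset LamAux RamAux Ram2Aux

noncomputable section

namespace IdAux

variable {q : ℂ}

theorem sqrt3_sq : (Real.sqrt 3 : ℂ) ^ 2 = 3 := by
  have : Real.sqrt 3 ^ 2 = 3 := Real.sq_sqrt (by norm_num)
  exact_mod_cast this

theorem sqrt3_ne : (Real.sqrt 3 : ℂ) ≠ 0 := by
  intro h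
  have := sqrt3_sq
  rw [h] at this
  norm_num at this

theorem summable_pow (hq : ‖q‖ < 1) (k : ℕ) {w : ℕ → ℂ} (hw : PG w) :
    Summable fun n : ℕ => (w n * ((n : ℂ) + 1) ^ k) * u q (n + 1) := by
  have hk : PG fun n : ℕ => ((n : ℂ) + 1) ^ k := by
    induction k with
    | zero => simpa using PG.const 1
    | succ k ih => simpa [pow_succ] using ih.mul pg_a
  exact (hw.mul hk).summable hq

theorem SC_eq (k : ℕ) : SC k q = ∑' n : ℕ, ((1:ℂ) * ((n : ℂ) + 1) ^ k) * u q (n + 1) := by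
  rw [SC]; exact tsum_congr fun n => by ring

theorem tsum_c_pi (hq : ‖q‖ < 1) (k : ℕ) :
    ∑' n : ℕ, (c Real.pi (n + 1) * ((n : ℂ) + 1) ^ k) * u q (n + 1)
      = -SC k q + 2 * (2 ^ k * SC k (q ^ 2)) := by
  have h1 := summable_pow hq k (PG.const 1)
  have h2 := summable_pow hq k (pg_ind 2)
  have e2 := tsum_ind_pow (q := q) (d := 2) (by norm_num) k
  rw [Nat.cast_ofNat] at e2
  rw [← e2, SC_eq, ← tsum_neg, ← tsum_mul_left, ← h1.neg.tsum_add (h2.mul_left 2)]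
  refine tsum_congr fun n => ?_
  rw [cos_nat_mul_pi]
  ring

theorem tsum_c_2pi3 (hq : ‖q‖ < 1) (k : ℕ) :
    ∑' n : ℕ, (c (2 * Real.pi / 3) (n + 1) * ((n : ℂ) + 1) ^ k) * u q (n + 1)
      = -1 / 2 * SC k q + 3 / 2 * (3 ^ k * SC k (q ^ 3)) := by
  have h1 := summable_pow hq k (PG.const 1)
  have h2 := summable_pow hq k (pg_ind 3)
  have e2 := tsum_ind_pow (q := q) (d := 3) (by norm_num) k
  rw [Nat.cast_ofNat] at e2
  rw [← e2, SC_eq, ← tsum_mul_left, ← tsum_mul_left,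
    ← (h1.mul_left (-1 / 2)).tsum_add (h2.mul_left (3 / 2))]
  refine tsum_congr fun n => ?_
  rw [c_2pi3]
  ring

theorem tsum_c_pi3 (hq : ‖q‖ < 1) (k : ℕ) :
    ∑' n : ℕ, (c (Real.pi / 3) (n + 1) * ((n : ℂ) + 1) ^ k) * u q (n + 1)
      = 1 / 2 * SC k q - 2 ^ k * SC k (q ^ 2) - 3 / 2 * (3 ^ k * SC k (q ^ 3)) +
        3 * (6 ^ k * SC k (q ^ 6)) := by
  have h1 := summable_pow hq k (PG.const 1)
  have h2 := summable_pow hq k (pg_ind 2)
  have h3 := summable_pow hq k (pg_ind 3)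
  have h6 := summable_pow hq k (pg_ind 6)
  have e2 := tsum_ind_pow (q := q) (d := 2) (by norm_num) k
  have e3 := tsum_ind_pow (q := q) (d := 3) (by norm_num) k
  have e6 := tsum_ind_pow (q := q) (d := 6) (by norm_num) k
  rw [Nat.cast_ofNat] at e2 e3 e6
  rw [← e2, ← e3, ← e6, SC_eq, ← tsum_mul_left, ← tsum_mul_left, ← tsum_mul_left,
    ← (h1.mul_left (1 / 2)).tsum_sub h2,
    ← ((h1.mul_left (1 / 2)).sub h2).tsum_sub (h3.mul_left (3 / 2)),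
    ← (((h1.mul_left (1 / 2)).sub h2).sub (h3.mul_left (3 / 2))).tsum_add (h6.mul_left 3)]
  refine tsum_congr fun n => ?_
  rw [c_pi3]
  ring

theorem tsum_ind_uu' (hq : ‖q‖ < 1) {d : ℕ} (hd : d ≠ 0) :
    ∑' n : ℕ, (ind d (n + 1) * (1 + u q (n + 1))) * u q (n + 1) = SC 1 (q ^ d) := by
  rw [tsum_ind_uu hd, tsum_uu (norm_pow_lt hq hd)]

theorem summable_uu (hq : ‖q‖ < 1) {w : ℕ → ℂ} (hw : PG w) :
    Summable fun n : ℕ => (w n * (1 + u q (n + 1))) * u q (n + 1) :=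
  (hw.mul ((PG.const 1).add (PG.u hq))).summable hq

theorem tsum_uu_one (hq : ‖q‖ < 1) :
    ∑' n : ℕ, ((1:ℂ) * (1 + u q (n + 1))) * u q (n + 1) = SC 1 q := by
  rw [← tsum_uu hq]; exact tsum_congr fun n => by ring

theorem tsum_cu_2pi3 (hq : ‖q‖ < 1) :
    ∑' n : ℕ, (c (2 * Real.pi / 3) (n + 1) * (1 + u q (n + 1))) * u q (n + 1)
      = -1 / 2 * SC 1 q + 3 / 2 * SC 1 (q ^ 3) := by
  have h1 := summable_uu hq (PG.const 1)
  have h2 := summable_uu hq (pg_ind 3)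
  rw [← tsum_ind_uu' hq (d := 3) (by norm_num), ← tsum_uu_one hq, ← tsum_mul_left, ← tsum_mul_left,
    ← (h1.mul_left (-1 / 2)).tsum_add (h2.mul_left (3 / 2))]
  refine tsum_congr fun n => ?_
  rw [c_2pi3]
  ring

theorem tsum_cu_pi3 (hq : ‖q‖ < 1) :
    ∑' n : ℕ, (c (Real.pi / 3) (n + 1) * (1 + u q (n + 1))) * u q (n + 1)
      = 1 / 2 * SC 1 q - SC 1 (q ^ 2) - 3 / 2 * SC 1 (q ^ 3) + 3 * SC 1 (q ^ 6) := by
  have h1 := summable_uu hq (PG.const 1)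
  have h2 := summable_uu hq (pg_ind 2)
  have h3 := summable_uu hq (pg_ind 3)
  have h6 := summable_uu hq (pg_ind 6)
  rw [← tsum_ind_uu' hq (d := 2) (by norm_num), ← tsum_ind_uu' hq (d := 3) (by norm_num),
    ← tsum_ind_uu' hq (d := 6) (by norm_num), ← tsum_uu_one hq, ← tsum_mul_left, ← tsum_mul_left,
    ← tsum_mul_left,
    ← (h1.mul_left (1 / 2)).tsum_sub h2,
    ← ((h1.mul_left (1 / 2)).sub h2).tsum_sub (h3.mul_left (3 / 2)),
    ← (((h1.mul_left (1 / 2)).sub h2).sub (h3.mul_left (3 / 2))).tsum_add (h6.mul_left 3)]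
  refine tsum_congr fun n => ?_
  rw [c_pi3]
  ring

theorem norm_chi3_le (n : ℕ) : ‖((chi3 n : ℝ) : ℂ)‖ ≤ 1 := by
  rw [Complex.norm_real]
  unfold chi3
  split_ifs <;> simp

theorem pg_chi : PG fun n => ((chi3 (n + 1) : ℝ) : ℂ) := PG.of_bound fun n => norm_chi3_le _

theorem tsum_s_2pi3 (q : ℂ) :
    ∑' n : ℕ, s (2 * Real.pi / 3) (n + 1) * u q (n + 1)
      = (Real.sqrt 3 : ℂ) / 12 * (aC q - 1) := by
  have h : aC q - 1 = 6 * ∑' n : ℕ, (chi3 (n + 1) : ℂ) * u q (n + 1) := by unfold aC; ring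
  rw [h, ← mul_assoc, ← tsum_mul_left]
  refine tsum_congr fun n => ?_
  rw [s_2pi3]
  ring

theorem tsum_s_pi3 (hq : ‖q‖ < 1) :
    ∑' n : ℕ, s (Real.pi / 3) (n + 1) * u q (n + 1)
      = (Real.sqrt 3 : ℂ) / 12 * ((aC q - 1) + 2 * (aC (q ^ 2) - 1)) := by
  have h1 : aC q - 1 = 6 * ∑' n : ℕ, (chi3 (n + 1) : ℂ) * u q (n + 1) := by unfold aC; ring
  have h2 : aC (q ^ 2) - 1 = 6 * ∑' n : ℕ, (chi3 (n + 1) : ℂ) * u (q ^ 2) (n + 1) := by
    unfold aC; ring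
  have h3 : ∑' n : ℕ, ind 2 (n + 1) * ((chi3 (n + 1) : ℂ) * u q (n + 1))
      = - ∑' n : ℕ, (chi3 (n + 1) : ℂ) * u (q ^ 2) (n + 1) := by
    rw [tsum_ind (by norm_num) (fun N => (chi3 N : ℂ) * u q N), ← tsum_neg]
    refine tsum_congr fun n => ?_
    rw [u_pow]
    have h4 : chi3 (2 * (n + 1)) = - chi3 (n + 1) := by
      unfold chi3
      have h5 : (n + 1) % 3 = 0 ∨ (n + 1) % 3 = 1 ∨ (n + 1) % 3 = 2 := by omega
      rcases h5 with h5 | h5 | h5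
      · have h6 : (2 * (n + 1)) % 3 = 0 := by omega
        simp [h5, h6]
      · have h6 : (2 * (n + 1)) % 3 = 2 := by omega
        simp [h5, h6]
      · have h6 : (2 * (n + 1)) % 3 = 1 := by omega
        simp [h5, h6]
    rw [h4]
    push_cast
    ring
  have g1 : Summable fun n : ℕ => (chi3 (n + 1) : ℂ) * u q (n + 1) := pg_chi.summable hq
  have g2 : Summable fun n : ℕ => ind 2 (n + 1) * ((chi3 (n + 1) : ℂ) * u q (n + 1)) := by
    have := ((pg_ind 2).mul pg_chi).summable hq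
    exact this.congr fun n => by ring
  have h5 : ∑' n : ℕ, s (Real.pi / 3) (n + 1) * u q (n + 1)
      = (Real.sqrt 3 : ℂ) / 2 * (∑' n : ℕ, (chi3 (n + 1) : ℂ) * u q (n + 1) -
        2 * ∑' n : ℕ, ind 2 (n + 1) * ((chi3 (n + 1) : ℂ) * u q (n + 1))) := by
    rw [← tsum_mul_left (a := (2:ℂ)), ← g1.tsum_sub (g2.mul_left 2), ← tsum_mul_left]
    refine tsum_congr fun n => ?_
    rw [s_pi3]
    ring
  rw [h5, h3, h1, h2]
  ring

theorem sin_pi3_half : Real.sin (2 * Real.pi / 3 / 2) = Real.sqrt 3 / 2 := by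
  rw [show 2 * Real.pi / 3 / 2 = Real.pi / 3 by ring, Real.sin_pi_div_three]

theorem cos_pi3_half : Real.cos (2 * Real.pi / 3 / 2) = 1 / 2 := by
  rw [show 2 * Real.pi / 3 / 2 = Real.pi / 3 by ring, Real.cos_pi_div_three]

theorem sin_pi6 : Real.sin (Real.pi / 3 / 2) = 1 / 2 := by
  rw [show Real.pi / 3 / 2 = Real.pi / 6 by ring, Real.sin_pi_div_six]

theorem cos_pi6 : Real.cos (Real.pi / 3 / 2) = Real.sqrt 3 / 2 := by
  rw [show Real.pi / 3 / 2 = Real.pi / 6 by ring, Real.cos_pi_div_six]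

end IdAux

open IdAux

variable {q : ℂ}

/-- `a(q)^2 = 1 + 12 S(q) - 36 S(q^3)` -/
theorem aC_sq (hq : ‖q‖ < 1) : aC q ^ 2 = 1 + 12 * SC 1 q - 36 * SC 1 (q ^ 3) := by
  have h := ram1 hq (2 * Real.pi / 3) ((Real.sqrt 3 : ℂ) / 3) (by
    intro n
    have h1 := cot1 (2 * Real.pi / 3) n
    rw [sin_pi3_half, cos_pi3_half] at h1
    have h2 := sqrt3_ne
    push_cast at h1
    have h3 : (Real.sqrt 3 : ℂ) * (1 + 2 * ∑ k ∈ range n, c (2 * Real.pi / 3) (k + 1) +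
        c (2 * Real.pi / 3) (n + 1)) = s (2 * Real.pi / 3) (n + 1) := by
      linear_combination 2 * h1
    have h4 := sqrt3_sq
    rw [← h3]
    linear_combination (-(1 + 2 * ∑ k ∈ range n, c (2 * Real.pi / 3) (k + 1) +
        c (2 * Real.pi / 3) (n + 1)) / 3) * h4)
  rw [tsum_s_2pi3, tsum_cu_2pi3 hq, tsum_c_2pi3 hq] at h
  have h4 := sqrt3_sq
  linear_combination 48 * h + (-1 / 3 * (aC q - 1) ^ 2 - 2 / 3 * (aC q - 1)) * h4

/-- the mixed weight 2 identity -/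
theorem aC_mix (hq : ‖q‖ < 1) : (aC q + 2 * aC (q ^ 2)) ^ 2
    = 9 + 36 * SC 1 q + 36 * SC 1 (q ^ 3) - 288 * SC 1 (q ^ 6) := by
  have h := ram1 hq (Real.pi / 3) ((Real.sqrt 3 : ℂ)) (by
    intro n
    have h1 := cot1 (Real.pi / 3) n
    rw [sin_pi6, cos_pi6] at h1
    push_cast at h1
    linear_combination 2 * h1)
  rw [tsum_s_pi3 hq, tsum_cu_pi3 hq, tsum_c_pi3 hq] at h
  have h4 := sqrt3_sq
  linear_combination 48 * h + (-1 / 3 * ((aC q - 1) + 2 * (aC (q ^ 2) - 1)) ^ 2 -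
    2 * ((aC q - 1) + 2 * (aC (q ^ 2) - 1))) * h4

/-- weight 4 identity at `π` -/
theorem w4_pi (hq : ‖q‖ < 1) :
    1 / 6 * (2 * SC 1 q - 4 * SC 1 (q ^ 2)) + (2 * SC 1 q - 4 * SC 1 (q ^ 2)) ^ 2
      = 5 / 12 * SC 3 q + (-SC 3 q + 16 * SC 3 (q ^ 2)) / 12 := by
  have h := ram2 hq Real.pi 0 (by
    intro n
    have h1 := cot2 Real.pi n
    rw [Real.sin_pi_div_two, Real.cos_pi_div_two] at h1
    simpa using h1)
  rw [tsum_c_pi hq, tsum_c_pi hq] at h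
  linear_combination h

/-- weight 4 identity at `2π/3` -/
theorem w4_2pi3 (hq : ‖q‖ < 1) :
    1 / 4 * (3 / 2 * SC 1 q - 9 / 2 * SC 1 (q ^ 3)) + (3 / 2 * SC 1 q - 9 / 2 * SC 1 (q ^ 3)) ^ 2
      = 5 / 12 * SC 3 q + (-1 / 2 * SC 3 q + 81 / 2 * SC 3 (q ^ 3)) / 12 := by
  have h := ram2 hq (2 * Real.pi / 3) (1 / 3) (by
    intro n
    have h1 := cot2 (2 * Real.pi / 3) n
    rw [sin_pi3_half, cos_pi3_half] at h1
    push_cast at h1
    have h4 := sqrt3_sq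
    linear_combination (4 / 3 : ℂ) * h1 - ((2 * (n : ℂ) + 1) +
      4 * ∑ k ∈ range n, ((n : ℂ) - k) * c (2 * Real.pi / 3) (k + 1) +
      c (2 * Real.pi / 3) (n + 1)) / 3 * h4)
  rw [tsum_c_2pi3 hq, tsum_c_2pi3 hq] at h
  linear_combination h

/-- weight 4 identity at `π/3` -/
theorem w4_pi3 (hq : ‖q‖ < 1) :
    11 / 12 * (1 / 2 * SC 1 q + 2 * SC 1 (q ^ 2) + 9 / 2 * SC 1 (q ^ 3) - 18 * SC 1 (q ^ 6)) +
    (1 / 2 * SC 1 q + 2 * SC 1 (q ^ 2) + 9 / 2 * SC 1 (q ^ 3) - 18 * SC 1 (q ^ 6)) ^ 2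
      = 5 / 12 * SC 3 q + (1 / 2 * SC 3 q - 8 * SC 3 (q ^ 2) - 81 / 2 * SC 3 (q ^ 3) +
        648 * SC 3 (q ^ 6)) / 12 := by
  have h := ram2 hq (Real.pi / 3) 3 (by
    intro n
    have h1 := cot2 (Real.pi / 3) n
    rw [sin_pi6, cos_pi6] at h1
    push_cast at h1
    have h4 := sqrt3_sq
    linear_combination (4 : ℂ) * h1 + (1 - c (Real.pi / 3) (n + 1)) * h4)
  rw [tsum_c_pi3 hq, tsum_c_pi3 hq] at h
  linear_combination h

/-- the differential equation of `P` (Ramanujan), `DSC q = q dS/dq` -/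
theorem rde (hq : ‖q‖ < 1) : 12 * SC 1 q ^ 2 = 5 * SC 3 q + SC 1 q - 6 * DSC q := by
  have h := const2 hq
  have g1 := summable_pow hq 2 (PG.const 1)
  have g2 := summable_pow hq 1 (PG.const 1)
  have g3 : Summable fun n : ℕ => (((n : ℂ) + 1) ^ 2 * u q (n + 1)) * u q (n + 1) := by
    have := ((pg_a.mul pg_a).mul (PG.u hq)).summable hq
    exact this.congr fun n => by ring
  have e1 : ∑' n : ℕ, ((2 * (n : ℂ) + 1) * ((n : ℂ) + 1)) * u q (n + 1)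
      = 2 * SC 2 q - SC 1 q := by
    rw [SC_eq, SC_eq, ← tsum_mul_left, ← (g1.mul_left 2).tsum_sub g2]
    exact tsum_congr fun n => by ring
  have e2 : DSC q = SC 2 q + ∑' n : ℕ, (((n : ℂ) + 1) ^ 2 * u q (n + 1)) * u q (n + 1) := by
    rw [DSC, SC_eq, ← g1.tsum_add g3]
    exact tsum_congr fun n => by ring
  rw [e1, ← SC_one] at h
  rw [e2]
  linear_combination 12 * h

end

end Pool.Agent.Lib.BM
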