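import Pool.Agent.Lib.BM.LDefs

set_option autoImplicit false

/-!
# BM.L1: (L1) from the blocks (LA), (LB), (E1), (E2)
-/

namespace Pool.Agent.Lib.BM

namespace L1Aux

theorem y0_pos : 0 < y0 := by
  unfold y0
  positivity

end L1Aux

/-- **(L1)**: the derivative of `Ψ`. -/
theorem stL1 (hA : StLA) (hK : StLK) (hB : StLB) (h1 : StE1) (h2 : StE2) : StL1 := by
  intro y hy
  have hy0 : 0 < y := lt_of_lt_of_le L1Aux.y0_pos hy
  have a := hA y hy0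
  rw [hB y _ hy0 (h2 y hy), h1 y hy] at a
  have b := a.add ((hK y hy0).const_mul (2 : ℂ))
  have c := Complex.reCLM.hasFDerivAt.comp_hasDerivAt y b
  have e1 : PsiR = (Complex.reCLM ∘ ((fun t : ℝ => (t : ℂ) ^ 3 * TL t) +
      fun t : ℝ => (2 : ℂ) * ((t : ℂ) ^ 3 * Kh42 t))) := by
    funext t
    simp only [Function.comp, Pi.add_apply, Complex.reCLM_apply]
    have : (t : ℂ) ^ 3 * TL t + 2 * ((t : ℂ) ^ 3 * Kh42 t) =
        ((t ^ 3 : ℝ) : ℂ) * (TL t + 2 * Kh42 t) := by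
      push_cast; ring
    rw [this, Complex.re_ofReal_mul]
    rfl
  have hyc : (y : ℂ) ≠ 0 := by exact_mod_cast hy0.ne'
  have hval : (y : ℂ) ^ 2 / 2 * (-3 * ((-(32 * Real.pi ^ 4 / 3) * F4 y : ℝ) : ℂ) *
      ((-(4 * Real.pi / 3) * lx y / y : ℝ) : ℂ) - 8 * Kh51 y - 4 * Kh33 y) +
      2 * ((y : ℂ) ^ 2 * (2 * Kh51 y + Kh33 y)) =
      ((-(64 * Real.pi ^ 5 / 3) * (y * (F4 y * lx y)) : ℝ) : ℂ) := by
    push_cast
    field_simp
    ring
  rw [hval, Complex.reCLM_apply, Complex.ofReal_re] at c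
  rw [e1]
  exact c

end Pool.Agent.Lib.BM
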