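import Mathlib

/-!
# BM.LBalg: the rational identity of block (L)

`H2` is the derivative of the summand of the depth two lattice sum (up to the symmetry of complex
conjugation); on nondegenerate triples (`1/a1 + 1/a2 + 1/a3 = 0`) it is a sum of products of functions of two
variables.
-/

set_option autoImplicit false

namespace Pool.Agent.Lib.BM.LBid

noncomputable section

/-- The derivative term; `a_i = 1/λ_i`, `b_i = 1/conj λ_i`. -/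
def H2 (a1 a2 a3 b1 b2 b3 : ℂ) : ℂ :=
  b1 * (-6 * a2 ^ 4 * a3 + 4 * a2 ^ 3 * a3 ^ 2 - 2 * a2 ^ 2 * a3 ^ 3)
    + b2 * (-2 * a3 ^ 3 * a1 ^ 2 + 2 * a3 ^ 2 * a1 ^ 3)
    + b3 * (2 * a1 ^ 3 * a2 ^ 2 - 4 * a1 ^ 2 * a2 ^ 3 + 6 * a1 * a2 ^ 4)
    + 2 * b2 ^ 3 * (a3 ^ 2 * a1 - a3 * a1 ^ 2)

/-- The identity on nondegenerate triples. -/
theorem H2_eq {a1 a2 a3 : ℂ} (b1 b2 b3 : ℂ) (h : a1 * a2 + a2 * a3 + a3 * a1 = 0) :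
    H2 a1 a2 a3 b1 b2 b3 = 6 * a2 ^ 4 * (a1 * b1 - a3 * b3)
      + (a1 ^ 2 * b1 * (-2 * a2 ^ 3 - 2 * a3 ^ 3) + a2 ^ 2 * b2 * (2 * a1 ^ 3 - 2 * a3 ^ 3)
        + a3 ^ 2 * b3 * (2 * a1 ^ 3 + 2 * a2 ^ 3))
      + 2 * (a2 ^ 3 * b2 - a2 * b2 ^ 3) * (a3 ^ 2 - a1 ^ 2) := by
  unfold H2
  linear_combination (-2 * a1 ^ 2 * a2 * b2 + 2 * a1 ^ 2 * a2 * b3 + 2 * a1 ^ 2 * a3 * b2
    - 2 * a1 ^ 2 * a3 * b3 + 2 * a1 * a2 ^ 2 * b1 + 2 * a1 * a2 ^ 2 * b2 - 4 * a1 * a2 ^ 2 * b3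
    - 2 * a1 * a2 * a3 * b1 + 2 * a1 * a2 * a3 * b3 + 2 * a1 * a3 ^ 2 * b1
    - 2 * a1 * a3 ^ 2 * b2 - 2 * a1 * b2 ^ 3 - 6 * a2 ^ 3 * b1 + 6 * a2 ^ 3 * b3
    + 4 * a2 ^ 2 * a3 * b1 - 2 * a2 ^ 2 * a3 * b2 - 2 * a2 ^ 2 * a3 * b3
    - 2 * a2 * a3 ^ 2 * b1 + 2 * a2 * a3 ^ 2 * b2 + 2 * a3 * b2 ^ 3) * h

theorem H2_deg {a1 a2 a3 : ℂ} (b1 b2 b3 : ℂ) (h1 : a1 = 0 → b1 = 0) (h2 : a2 = 0 → b2 = 0)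
    (h3 : a3 = 0 → b3 = 0) (h : a1 = 0 ∨ a2 = 0 ∨ a3 = 0) : H2 a1 a2 a3 b1 b2 b3 = 0 := by
  unfold H2
  rcases h with h | h | h
  · rw [h, h1 h]
    ring
  · rw [h, h2 h]
    ring
  · rw [h, h3 h]
    ring

/-- The relation of the inverses. -/
theorem rel_inv {x y z : ℂ} (hx : x ≠ 0) (hy : y ≠ 0) (hz : z ≠ 0) (h : x + y + z = 0) :
    x⁻¹ * y⁻¹ + y⁻¹ * z⁻¹ + z⁻¹ * x⁻¹ = 0 := by
  field_simp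
  linear_combination h

end

end Pool.Agent.Lib.BM.LBid
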