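import Pool.Agent.Lib.BM.LBrel

/-!
# BM.LBdeg: degenerate triples, and the sum of `H2` over all triples
-/

set_option autoImplicit false

namespace Pool.Agent.Lib.BM.LBid

noncomputable section

open scoped Classical in
/-- The indicator of the nondegenerate triples. -/
def nd (a b c : L) : ℂ := if a = 0 ∨ b = 0 ∨ c = 0 then 0 else 1

theorem nd_swap12 (a b c : L) : nd b a c = nd a b c := by
  unfold nd
  by_cases h1 : a = 0 <;> by_cases h2 : b = 0 <;> by_cases h3 : c = 0 <;> simp [h1, h2, h3]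

theorem nd_swap23 (a b c : L) : nd a c b = nd a b c := by
  unfold nd
  by_cases h1 : a = 0 <;> by_cases h2 : b = 0 <;> by_cases h3 : c = 0 <;> simp [h1, h2, h3]

theorem nd_deg {a b c : L} (h : a = 0 ∨ b = 0 ∨ c = 0) : nd a b c = 0 := by
  unfold nd
  rw [if_pos h]

theorem nd_one {a b c : L} (ha : a ≠ 0) (hb : b ≠ 0) (hc : c ≠ 0) : nd a b c = 1 := by
  unfold nd
  rw [if_neg]
  rintro (h | h | h)
  · exact ha h
  · exact hb h
  · exact hc h

theorem nd_norm (a b c : L) : ‖nd a b c‖ ≤ 1 := by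
  unfold nd
  split_ifs <;> simp

/-- Sum over the triples with `a = 0`. -/
theorem tsum_a0 {X : L → L → L → ℂ} (hX : TSm X) :
    Summable (fun P : L × L => if P.1 = 0 then X P.1 P.2 (-P.1 - P.2) else 0) ∧
    (∑' P : L × L, if P.1 = 0 then X P.1 P.2 (-P.1 - P.2) else 0) = ∑' q : L, X 0 q (-q) := by
  constructor
  · refine Summable.of_norm_bounded (Summable.norm hX) fun P => ?_
    split_ifs
    · exact le_rfl
    · rw [norm_zero]
      exact norm_nonneg _
  · have hg : Function.Injective fun q : L => ((0, q) : L × L) := fun q q' h => by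
      simpa using h
    have := hg.tsum_eq (f := fun P : L × L => if P.1 = 0 then X P.1 P.2 (-P.1 - P.2) else 0)
      (fun P hP => by
        by_cases h : P.1 = 0
        · exact ⟨P.2, by ext1 <;> simp [h]⟩
        · simp [h] at hP)
    rw [← this]
    refine tsum_congr fun q => ?_
    simp

/-- Sum over the triples with `b = 0`. -/
theorem tsum_b0 {X : L → L → L → ℂ} (hX : TSm X) :
    Summable (fun P : L × L => if P.2 = 0 then X P.1 P.2 (-P.1 - P.2) else 0) ∧
    (∑' P : L × L, if P.2 = 0 then X P.1 P.2 (-P.1 - P.2) else 0) = ∑' p : L, X p 0 (-p) := by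
  constructor
  · refine Summable.of_norm_bounded (Summable.norm hX) fun P => ?_
    split_ifs
    · exact le_rfl
    · rw [norm_zero]
      exact norm_nonneg _
  · have hg : Function.Injective fun q : L => ((q, 0) : L × L) := fun q q' h => by
      simpa using h
    have := hg.tsum_eq (f := fun P : L × L => if P.2 = 0 then X P.1 P.2 (-P.1 - P.2) else 0)
      (fun P hP => by
        by_cases h : P.2 = 0
        · exact ⟨P.1, by ext1 <;> simp [h]⟩
        · simp [h] at hP)
    rw [← this]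
    refine tsum_congr fun q => ?_
    simp

/-- Sum over the triples with `c = 0`. -/
theorem tsum_c0 {X : L → L → L → ℂ} (hX : TSm X) :
    Summable (fun P : L × L => if P.1 + P.2 = 0 then X P.1 P.2 (-P.1 - P.2) else 0) ∧
    (∑' P : L × L, if P.1 + P.2 = 0 then X P.1 P.2 (-P.1 - P.2) else 0) =
      ∑' p : L, X p (-p) 0 := by
  constructor
  · refine Summable.of_norm_bounded (Summable.norm hX) fun P => ?_
    split_ifs
    · exact le_rfl
    · rw [norm_zero]
      exact norm_nonneg _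
  · have hg : Function.Injective fun q : L => ((q, -q) : L × L) := fun q q' h => by
      have := congrArg Prod.fst h
      simpa using this
    have := hg.tsum_eq
      (f := fun P : L × L => if P.1 + P.2 = 0 then X P.1 P.2 (-P.1 - P.2) else 0)
      (fun P hP => by
        by_cases h : P.1 + P.2 = 0
        · exact ⟨P.1, by
            have : P.2 = -P.1 := (neg_eq_of_add_eq_zero_right h).symm
            show (P.1, -P.1) = P
            rw [← this]⟩
        · simp [h] at hP)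
    rw [← this]
    refine tsum_congr fun q => ?_
    simp

/-- The sum over the nondegenerate triples. -/
theorem TS_nd {X : L → L → L → ℂ} (hX : TSm X) (h0 : X 0 0 0 = 0) :
    TS (fun a b c => nd a b c * X a b c) =
      TS X - (∑' q : L, X 0 q (-q)) - (∑' p : L, X p 0 (-p)) - ∑' p : L, X p (-p) 0 := by
  obtain ⟨s1, e1⟩ := tsum_a0 hX
  obtain ⟨s2, e2⟩ := tsum_b0 hX
  obtain ⟨s3, e3⟩ := tsum_c0 hX
  rw [← e1, ← e2, ← e3]
  unfold TS
  rw [← Summable.tsum_sub hX s1, ← Summable.tsum_sub (Summable.sub hX s1) s2,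
    ← Summable.tsum_sub (Summable.sub (Summable.sub hX s1) s2) s3]
  refine tsum_congr fun P => ?_
  have hc : (-P.1 - P.2 = 0) ↔ P.1 + P.2 = 0 := by
    rw [← neg_add', neg_eq_zero]
  show nd P.1 P.2 (-P.1 - P.2) * X P.1 P.2 (-P.1 - P.2) = _
  by_cases h1 : P.1 = 0
  · by_cases h2 : P.2 = 0
    · have h3 : X P.1 P.2 (-P.1 - P.2) = 0 := by
        rw [h1, h2]
        simpa using h0
      rw [h3]
      simp
    · have h3 : ¬ (P.1 + P.2 = 0) := by rw [h1, zero_add]; exact h2
      rw [nd_deg (Or.inl h1), if_pos h1, if_neg h2, if_neg h3]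
      ring
  · by_cases h2 : P.2 = 0
    · have h3 : ¬ (P.1 + P.2 = 0) := by rw [h2, add_zero]; exact h1
      rw [nd_deg (Or.inr (Or.inl h2)), if_neg h1, if_pos h2, if_neg h3]
      ring
    · by_cases h3 : P.1 + P.2 = 0
      · rw [nd_deg (Or.inr (Or.inr (hc.2 h3))), if_neg h1, if_neg h2, if_pos h3]
        ring
      · rw [nd_one h1 h2 (fun h => h3 (hc.1 h)), if_neg h1, if_neg h2, if_neg h3]
        ring

variable {A B : L → ℂ} {σ : L ≃+ L}

theorem nd_sigma (σ : L ≃+ L) (a b c : L) : nd (σ a) (σ b) (σ c) = nd a b c := by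
  unfold nd
  simp

theorem VV_nd (W : L → L → L → ℂ) (a b c : L) :
    VV (fun a b c => nd a b c * W a b c) a b c = nd a b c * VV W a b c := by
  unfold VV
  have h1 := nd_swap23 a b c
  have h2 := nd_swap12 a b c
  have h3 : nd c a b = nd a b c := by rw [nd_swap12, nd_swap23]
  have h4 : nd b c a = nd a b c := by rw [nd_swap23, nd_swap12]
  have h5 : nd c b a = nd a b c := by rw [nd_swap12, h4]
  simp only [h1, h2, h3, h4, h5]
  ring

/-- The four summands. -/
def X1 (W : L → L → L → ℂ) (A B : L → ℂ) (a b c : L) : ℂ := 12 * (W a b c * g1 A B a b c)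
def X2 (W : L → L → L → ℂ) (A B : L → ℂ) (a b c : L) : ℂ := -8 * (VV W a b c * F A B a b)
def X3 (W : L → L → L → ℂ) (A B : L → ℂ) (a b c : L) : ℂ := 4 * (VV W a b c * g3 A B a b c)
def X4 (W : L → L → L → ℂ) (A B : L → ℂ) (a b c : L) : ℂ := 4 * (W a b c * g4 A B a b c)

theorem Dat.s1 (h : Dat A B σ) {W : L → L → L → ℂ} (hW : Bd W) : TSm (X1 W A B) :=
  (h.sumW hW 1 fun _ _ _ hs => h.bdg1 hs).mul 12

theorem Dat.s2 (h : Dat A B σ) {W : L → L → L → ℂ} (hW : Bd W) : TSm (X2 W A B) :=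
  (h.sumW hW.VV 1 fun _ _ _ _ => h.bdF).mul (-8)

theorem Dat.s3 (h : Dat A B σ) {W : L → L → L → ℂ} (hW : Bd W) : TSm (X3 W A B) :=
  (h.sumW hW.VV 1 fun _ _ _ hs => h.bdg3 hs).mul 4

theorem Dat.s4 (h : Dat A B σ) {W : L → L → L → ℂ} (hW : Bd W) : TSm (X4 W A B) :=
  (h.sumW hW 1 fun _ _ _ hs => h.bdg4 hs).mul 4

theorem Bd.nd {W : L → L → L → ℂ} (h : Bd W) : Bd fun a b c => LBid.nd a b c * W a b c := by
  obtain ⟨M, h0, hM⟩ := h
  refine ⟨M, h0, fun a b c => ?_⟩
  rw [norm_mul]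
  calc ‖LBid.nd a b c‖ * ‖W a b c‖ ≤ 1 * M :=
        mul_le_mul (nd_norm _ _ _) (hM _ _ _) (norm_nonneg _) zero_le_one
    _ = M := one_mul M

/-- The sum of `2 W H2` over all triples, as four sums over the nondegenerate triples. -/
theorem Dat.sum_nd (h : Dat A B σ) {W : L → L → L → ℂ} (hW : Bd W)
    (hWs : ∀ a b c, W (σ a) (σ b) (σ c) = W a b c) :
    TS (fun a b c => 2 * (W a b c * H2 (A a) (A b) (A c) (B a) (B b) (B c))) =
      TS (fun a b c => nd a b c * X1 W A B a b c) + TS (fun a b c => nd a b c * X2 W A B a b c)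
      + TS (fun a b c => nd a b c * X3 W A B a b c)
      + TS (fun a b c => nd a b c * X4 W A B a b c) := by
  set U : L → L → L → ℂ := fun a b c => nd a b c * W a b c with hU
  have hUb : Bd U := hW.nd
  have hUs : ∀ a b c, U (σ a) (σ b) (σ c) = U a b c := fun a b c => by
    rw [hU]
    simp only [nd_sigma, hWs]
  -- summability of the pieces
  have t1 : TSm fun a b c => U a b c * g1 A B a b c := h.sumW hUb 1 fun _ _ _ hs => h.bdg1 hs
  have t2 : TSm fun a b c => U a b c * (A a ^ 2 * B a * (-2 * A b ^ 3 - 2 * A c ^ 3)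
        + A b ^ 2 * B b * (2 * A a ^ 3 - 2 * A c ^ 3)
        + A c ^ 2 * B c * (2 * A a ^ 3 + 2 * A b ^ 3)) := by
    refine h.sumW hUb 12 fun a b c _ => ?_
    have k : ∀ x y z : L, ‖F A B x y‖ ≤ (‖A x‖ * ‖A y‖) ^ 3 := fun x y z => by
      unfold F
      simp only [norm_mul, norm_pow, h.nm]
      exact le_of_eq (by ring)
    have e : A a ^ 2 * B a * (-2 * A b ^ 3 - 2 * A c ^ 3)
        + A b ^ 2 * B b * (2 * A a ^ 3 - 2 * A c ^ 3)
        + A c ^ 2 * B c * (2 * A a ^ 3 + 2 * A b ^ 3) =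
        -2 * F A B a b + -2 * F A B a c + 2 * F A B b a + -2 * F A B b c + 2 * F A B c a
          + 2 * F A B c b := by
      unfold F
      ring
    rw [e]
    have n2 : ‖(2 : ℂ)‖ = 2 := by norm_num
    have n2' : ‖(-2 : ℂ)‖ = 2 := by norm_num
    have h1 := norm_add_le (-2 * F A B a b + -2 * F A B a c + 2 * F A B b a + -2 * F A B b c
      + 2 * F A B c a) (2 * F A B c b)
    have h2 := norm_add_le (-2 * F A B a b + -2 * F A B a c + 2 * F A B b a + -2 * F A B b c)
      (2 * F A B c a)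
    have h3 := norm_add_le (-2 * F A B a b + -2 * F A B a c + 2 * F A B b a) (-2 * F A B b c)
    have h4 := norm_add_le (-2 * F A B a b + -2 * F A B a c) (2 * F A B b a)
    have h5 := norm_add_le (-2 * F A B a b) (-2 * F A B a c)
    simp only [norm_mul, n2, n2'] at h1 h2 h3 h4 h5
    have k1 := k a b c
    have k2 := k a c b
    have k3 := k b a c
    have k4 := k b c a
    have k5 := k c a b
    have k6 := k c b a
    have p1 : (0:ℝ) ≤ (‖A a‖ * ‖A b‖) ^ 3 := by positivity
    have p2 : (0:ℝ) ≤ (‖A b‖ * ‖A c‖) ^ 3 := by positivity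
    have p3 : (0:ℝ) ≤ (‖A c‖ * ‖A a‖) ^ 3 := by positivity
    have q1 : (‖A b‖ * ‖A a‖) ^ 3 = (‖A a‖ * ‖A b‖) ^ 3 := by ring
    have q2 : (‖A c‖ * ‖A b‖) ^ 3 = (‖A b‖ * ‖A c‖) ^ 3 := by ring
    have q3 : (‖A a‖ * ‖A c‖) ^ 3 = (‖A c‖ * ‖A a‖) ^ 3 := by ring
    rw [q1] at k3
    rw [q2] at k6
    rw [q3] at k2
    unfold N3
    linarith
  have t3 : TSm fun a b c => U a b c * (A b ^ 3 * B b * (A c ^ 2 - A a ^ 2)) := by
    refine h.sumW hUb 1 fun a b c hs => ?_
    have hs' : b + c + a = 0 := by rw [← hs]; abel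
    have := h.bdg3 hs'
    have e : A b ^ 3 * B b * (A c ^ 2 - A a ^ 2) = g3 A B b c a := rfl
    rw [e]
    refine this.trans (le_of_eq ?_)
    unfold N3
    ring
  have t4 : TSm fun a b c => U a b c * (A b * B b ^ 3 * (A a ^ 2 - A c ^ 2)) := by
    refine h.sumW hUb 1 fun a b c hs => ?_
    have hs' : b + a + c = 0 := by rw [add_comm b a]; exact hs
    have := bd_sq h.A0 h.Aneg h.rel hs'
    rw [norm_mul, norm_mul, norm_pow, h.nm, one_mul]
    refine le_trans (le_of_eq ?_) (this.trans (le_of_eq ?_))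
    · ring
    · unfold N3
      ring
  have e1 : TS (fun a b c => 2 * (W a b c * H2 (A a) (A b) (A c) (B a) (B b) (B c))) =
      12 * TS (fun a b c => U a b c * g1 A B a b c)
      + 2 * TS (fun a b c => U a b c * (A a ^ 2 * B a * (-2 * A b ^ 3 - 2 * A c ^ 3)
        + A b ^ 2 * B b * (2 * A a ^ 3 - 2 * A c ^ 3)
        + A c ^ 2 * B c * (2 * A a ^ 3 + 2 * A b ^ 3)))
      + 4 * TS (fun a b c => U a b c * (A b ^ 3 * B b * (A c ^ 2 - A a ^ 2)))
      + 4 * TS (fun a b c => U a b c * (A b * B b ^ 3 * (A a ^ 2 - A c ^ 2))) := by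
    rw [← TS_mul, ← TS_mul, ← TS_mul, ← TS_mul,
      ← TS_add (t1.mul _) (t2.mul _), ← TS_add ((t1.mul _).add (t2.mul _)) (t3.mul _),
      ← TS_add (((t1.mul _).add (t2.mul _)).add (t3.mul _)) (t4.mul _)]
    refine TS_congr fun a b c hs => ?_
    by_cases hd : a = 0 ∨ b = 0 ∨ c = 0
    · have e0 : U a b c = 0 := by
        show nd a b c * W a b c = 0
        rw [nd_deg hd, zero_mul]
      rw [e0, H2_deg]
      · ring
      · intro h1
        rw [← norm_eq_zero, h.nm, h1, norm_zero]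
      · intro h1
        rw [← norm_eq_zero, h.nm, h1, norm_zero]
      · intro h1
        rw [← norm_eq_zero, h.nm, h1, norm_zero]
      · rcases hd with hd | hd | hd
        · left
          rw [hd, h.A0]
        · right
          left
          rw [hd, h.A0]
        · right
          right
          rw [hd, h.A0]
    · have h1 : a ≠ 0 := fun k => hd (Or.inl k)
      have h2 : b ≠ 0 := fun k => hd (Or.inr (Or.inl k))
      have h3 : c ≠ 0 := fun k => hd (Or.inr (Or.inr k))
      have e0 : U a b c = W a b c := by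
        show nd a b c * W a b c = W a b c
        rw [nd_one h1 h2 h3, one_mul]
      rw [e0, H2_eq _ _ _ (h.rel a b c h1 h2 h3 hs)]
      unfold g1
      ring
  rw [e1, h.HB hUb, h.HC1 hUb, h.HC2 hUs]
  have f1 : TS (fun a b c => nd a b c * X1 W A B a b c) =
      12 * TS (fun a b c => U a b c * g1 A B a b c) := by
    rw [← TS_mul]
    refine TS_congr fun a b c _ => ?_
    unfold X1
    ring
  have f2 : TS (fun a b c => nd a b c * X2 W A B a b c) =
      2 * TS (fun a b c => VV U a b c * (-4 * F A B a b)) := by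
    rw [← TS_mul]
    refine TS_congr fun a b c _ => ?_
    rw [hU, VV_nd]
    unfold X2
    ring
  have f3 : TS (fun a b c => nd a b c * X3 W A B a b c) =
      4 * TS (fun a b c => VV U a b c * g3 A B a b c) := by
    rw [← TS_mul]
    refine TS_congr fun a b c _ => ?_
    rw [hU, VV_nd]
    unfold X3
    ring
  have f4 : TS (fun a b c => nd a b c * X4 W A B a b c) =
      4 * TS (fun a b c => U a b c * g4 A B a b c) := by
    rw [← TS_mul]
    refine TS_congr fun a b c _ => ?_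
    unfold X4
    ring
  rw [f1, f2, f3, f4]

/-- **The sum of `2 W H2`** over all triples. -/
theorem Dat.sum_H2 (h : Dat A B σ) {W : L → L → L → ℂ} (hW : Bd W)
    (hWs : ∀ a b c, W (σ a) (σ b) (σ c) = W a b c) {w : L → ℂ}
    (hV0 : ∀ p, VV W p (-p) 0 = 0) (hV : ∀ p, VV W p 0 (-p) = w p)
    (hw : ∀ p, W p (-p) 0 - W 0 p (-p) = w p)
    (hs51 : Summable fun p => w p * (A p ^ 5 * B p))
    (hs33 : Summable fun p => w p * (A p ^ 3 * B p ^ 3))
    (hW0 : Summable fun p => W 0 p (-p) * (A p ^ 5 * B p))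
    (hW0' : Summable fun p => W 0 p (-p) * (A p ^ 3 * B p ^ 3)) :
    TS (fun a b c => 2 * (W a b c * H2 (A a) (A b) (A c) (B a) (B b) (B c))) =
      TS (X1 W A B) + TS (X2 W A B) + TS (X3 W A B) + TS (X4 W A B)
        - (8 * ∑' p, w p * (A p ^ 5 * B p)) - 4 * ∑' p, w p * (A p ^ 3 * B p ^ 3) := by
  rw [h.sum_nd hW hWs, TS_nd (h.s1 hW), TS_nd (h.s2 hW), TS_nd (h.s3 hW), TS_nd (h.s4 hW)]
  rotate_left
  · simp [X4, g4, h.A0, h.B0]
  · simp [X3, g3, h.A0, h.B0]
  · simp [X2, F, h.A0, h.B0]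
  · simp [X1, g1, h.A0, h.B0]
  -- the values at the degenerate triples
  have a1 : ∀ q, X1 W A B 0 q (-q) = -12 * (W 0 q (-q) * (A q ^ 5 * B q)) := fun q => by
    unfold X1 g1
    rw [h.A0, h.Aneg, h.Bneg]
    ring
  have a2 : ∀ p, X1 W A B p 0 (-p) = 0 := fun p => by
    unfold X1 g1
    rw [h.A0]
    ring
  have a3 : ∀ p, X1 W A B p (-p) 0 = 12 * (W p (-p) 0 * (A p ^ 5 * B p)) := fun p => by
    unfold X1 g1
    rw [h.A0, h.Aneg]
    ring
  have b1 : ∀ q, X2 W A B 0 q (-q) = 0 := fun q => by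
    unfold X2 F
    rw [h.A0]
    ring
  have b2 : ∀ p, X2 W A B p 0 (-p) = 0 := fun p => by
    unfold X2 F
    rw [h.A0]
    ring
  have b3 : ∀ p, X2 W A B p (-p) 0 = 0 := fun p => by
    unfold X2
    rw [hV0]
    ring
  have c1 : ∀ q, X3 W A B 0 q (-q) = 0 := fun q => by
    unfold X3 g3
    rw [h.A0]
    ring
  have c2 : ∀ p, X3 W A B p 0 (-p) = -4 * (w p * (A p ^ 5 * B p)) := fun p => by
    unfold X3 g3
    rw [hV, h.A0, h.Aneg]
    ring
  have c3 : ∀ p, X3 W A B p (-p) 0 = 0 := fun p => by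
    unfold X3
    rw [hV0]
    ring
  have d1 : ∀ q, X4 W A B 0 q (-q) = -4 * (W 0 q (-q) * (A q ^ 3 * B q ^ 3)) := fun q => by
    unfold X4 g4
    rw [h.B0, h.Bneg]
    ring
  have d2 : ∀ p, X4 W A B p 0 (-p) = 0 := fun p => by
    unfold X4 g4
    rw [h.A0]
    ring
  have d3 : ∀ p, X4 W A B p (-p) 0 = 4 * (W p (-p) 0 * (A p ^ 3 * B p ^ 3)) := fun p => by
    unfold X4 g4
    rw [h.B0, h.Aneg, h.Bneg]
    ring
  simp only [a1, a2, a3, b1, b2, b3, c1, c2, c3, d1, d2, d3, tsum_zero, tsum_mul_left]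
  have w1 : (∑' p, W p (-p) 0 * (A p ^ 5 * B p)) =
      (∑' p, w p * (A p ^ 5 * B p)) + ∑' p, W 0 p (-p) * (A p ^ 5 * B p) := by
    rw [← hs51.tsum_add hW0]
    refine tsum_congr fun p => ?_
    rw [← hw]
    ring
  have w2 : (∑' p, W p (-p) 0 * (A p ^ 3 * B p ^ 3)) =
      (∑' p, w p * (A p ^ 3 * B p ^ 3)) + ∑' p, W 0 p (-p) * (A p ^ 3 * B p ^ 3) := by
    rw [← hs33.tsum_add hW0']
    refine tsum_congr fun p => ?_
    rw [← hw]
    ring
  rw [w1, w2]
  ring

end

end Pool.Agent.Lib.BM.LBid
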