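import Pool.Agent.Lib.BM.LBdeg
import Pool.Agent.Lib.BM.LSum

/-!
# BM.LBid: block (LB), the four sums

`hterm_sum`: the sum of `Hterm` is the sum of four sums over all triples minus `8 K_51 + 4 K_33`. The finite
identities of the weights.
-/

set_option autoImplicit false

namespace Pool.Agent.Lib.BM.LBid

open Complex

noncomputable section

/-- The symmetry of the line `Re τ = 1/2`. -/
def sig : L ≃+ L where
  toFun p := (-p.1, p.1 + p.2)
  invFun p := (-p.1, p.1 + p.2)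
  left_inv p := by
    ext <;> simp
  right_inv p := by
    ext <;> simp
  map_add' p q := by
    ext
    · simp
      ring
    · simp
      ring

theorem lam_sig (y : ℝ) (p : L) : lam y (sig p) = (starRingEnd ℂ) (lam y p) := by
  unfold lam sig
  simp only [AddEquiv.coe_mk, Equiv.coe_fn_mk, map_add, map_mul, map_div₀, map_one, Complex.conj_I,
    Complex.conj_ofReal, map_intCast, map_ofNat]
  push_cast
  ring

/-- The conjugate of `av`. -/
def bv (y : ℝ) (p : L) : ℂ := (starRingEnd ℂ) (av y p)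

theorem dat {y : ℝ} (hy : 0 < y) : Dat (av y) (bv y) sig where
  A0 := LSum.av_zero y
  B0 := by
    unfold bv
    rw [LSum.av_zero, map_zero]
  Aneg p := by
    unfold av
    rw [LSum.lam_neg, inv_neg]
  Bneg p := by
    unfold bv av
    rw [LSum.lam_neg, inv_neg, map_neg]
  rel a b c ha hb hc hs := by
    refine rel_inv (LSum.lam_ne_zero hy ha) (LSum.lam_ne_zero hy hb) (LSum.lam_ne_zero hy hc) ?_
    rw [← LSum.lam_add, ← LSum.lam_add, hs, LSum.lam_zero]
  relB a b c ha hb hc hs := by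
    have h := rel_inv (LSum.lam_ne_zero hy ha) (LSum.lam_ne_zero hy hb) (LSum.lam_ne_zero hy hc)
      (by rw [← LSum.lam_add, ← LSum.lam_add, hs, LSum.lam_zero])
    have := congrArg (starRingEnd ℂ) h
    simpa [bv, av] using this
  As p := by
    unfold bv av
    rw [lam_sig, map_inv₀]
  Bs p := by
    unfold bv av
    rw [lam_sig, map_inv₀, Complex.conj_conj]
  nm p := by
    unfold bv
    exact Complex.norm_conj _
  sum G hG := by
    obtain ⟨C, hC⟩ := hG
    refine LSum.summable_double hy C fun r => ?_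
    refine (hC r.1 r.2 (-r.1 - r.2) (third r)).trans (le_of_eq ?_)
    unfold N3 LSum.B3
    simp only [mul_pow]

/-! ### The weights -/

theorem chiR_cases (m : ℤ) : chiR m = 1 ∨ chiR m = -1 := by
  unfold chiR
  split_ifs
  · exact Or.inl rfl
  · exact Or.inr rfl

theorem uR_cases (m : ℤ) : uR m = 1 ∨ uR m = 0 := by
  unfold uR
  split_ifs
  · exact Or.inl rfl
  · exact Or.inr rfl

theorem chiR_neg (m : ℤ) : chiR (-m) = chiR m := by
  unfold chiR
  simp only [even_neg]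

theorem uR_neg (m : ℤ) : uR (-m) = uR m := by
  unfold uR
  simp only [dvd_neg]

theorem chiR_add (m n : ℤ) : chiR (m + n) = chiR m * chiR n := by
  unfold chiR
  by_cases h1 : Even m <;> by_cases h2 : Even n <;> simp [h1, h2, Int.even_add]

theorem chiR_sub (m n : ℤ) : chiR (m - n) = chiR m * chiR n := by
  rw [sub_eq_add_neg, chiR_add, chiR_neg]

theorem chiR_zero : chiR 0 = 1 := by
  unfold chiR
  simp

theorem uR_zero : uR 0 = 1 := by
  unfold uR
  simp

theorem chiR_sq (m : ℤ) : chiR m * chiR m = 1 := by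
  rcases chiR_cases m with h | h <;> rw [h] <;> norm_num

/-- The residues mod `3`: the possible values of `u`. -/
theorem uR_tri (m n : ℤ) :
    (uR m = 1 ∧ uR n = 1 ∧ uR (m + n) = 1 ∧ uR (m - n) = 1) ∨
    (uR m = 1 ∧ uR n = 0 ∧ uR (m + n) = 0 ∧ uR (m - n) = 0) ∨
    (uR m = 0 ∧ uR n = 1 ∧ uR (m + n) = 0 ∧ uR (m - n) = 0) ∨
    (uR m = 0 ∧ uR n = 0 ∧ uR (m + n) = 1 ∧ uR (m - n) = 0) ∨
    (uR m = 0 ∧ uR n = 0 ∧ uR (m + n) = 0 ∧ uR (m - n) = 1) := by
  unfold uR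
  by_cases h1 : (3 : ℤ) ∣ m
  · by_cases h2 : (3 : ℤ) ∣ n
    · left
      rw [if_pos h1, if_pos h2, if_pos (dvd_add h1 h2), if_pos (dvd_sub h1 h2)]
      exact ⟨rfl, rfl, rfl, rfl⟩
    · right
      left
      rw [if_pos h1, if_neg h2, if_neg (by omega), if_neg (by omega)]
      exact ⟨rfl, rfl, rfl, rfl⟩
  · by_cases h2 : (3 : ℤ) ∣ n
    · right
      right
      left
      rw [if_neg h1, if_pos h2, if_neg (by omega), if_neg (by omega)]
      exact ⟨rfl, rfl, rfl, rfl⟩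
    · by_cases h3 : (3 : ℤ) ∣ m + n
      · right
        right
        right
        left
        rw [if_neg h1, if_neg h2, if_pos h3, if_neg (by omega)]
        exact ⟨rfl, rfl, rfl, rfl⟩
      · right
        right
        right
        right
        have h4 : (3 : ℤ) ∣ m - n := by
          have k1 : m % 3 = 1 ∨ m % 3 = 2 := by omega
          have k2 : n % 3 = 1 ∨ n % 3 = 2 := by omega
          rcases k1 with k1 | k1 <;> rcases k2 with k2 | k2 <;> omega
        rw [if_neg h1, if_neg h2, if_neg h3, if_pos h4]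
        exact ⟨rfl, rfl, rfl, rfl⟩

/-- The weight of the triples. -/
def W3 (a b _c : L) : ℂ := (Wt a.1 b.1 : ℂ)

theorem chiR_le (m : ℤ) : |chiR m| ≤ 1 := by
  rcases chiR_cases m with h | h <;> rw [h] <;> simp

theorem uR_le (m : ℤ) : |uR m| ≤ 1 := by
  rcases uR_cases m with h | h <;> rw [h] <;> simp

theorem Wt_le (m n : ℤ) : |Wt m n| ≤ 20 := by
  unfold Wt wA
  rcases chiR_cases m with h1 | h1 <;> rcases uR_cases m with h2 | h2 <;>
    rcases uR_cases n with h3 | h3 <;> rcases uR_cases (-m - n) with h4 | h4 <;>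
    rw [h1, h2, h3, h4] <;> norm_num [abs_le]

theorem W3_bd : Bd W3 := by
  refine ⟨20, by norm_num, fun a b c => ?_⟩
  unfold W3
  rw [Complex.norm_real, Real.norm_eq_abs]
  exact Wt_le _ _

theorem Wt_neg (m n : ℤ) : Wt (-m) (-n) = Wt m n := by
  unfold Wt wA
  have e : -(-m) - -n = -(-m - n) := by ring
  rw [e, chiR_neg, uR_neg, uR_neg, uR_neg]

theorem W3_sig (a b c : L) : W3 (sig a) (sig b) (sig c) = W3 a b c := by
  unfold W3
  show ((Wt (-a.1) (-b.1) : ℝ) : ℂ) = _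
  rw [Wt_neg]

/-- The antisymmetrized weight is `WV`. -/
theorem VV_W3 {a b c : L} (hs : a + b + c = 0) : VV W3 a b c = (WV a.1 b.1 : ℂ) := by
  have hc : c.1 = -(a.1 + b.1) := by
    have := congrArg Prod.fst hs
    simp only [Prod.fst_add, Prod.fst_zero] at this
    linarith
  have key : (Wt a.1 b.1 + Wt a.1 c.1 - Wt b.1 a.1 + Wt c.1 a.1 - Wt b.1 c.1 - Wt c.1 b.1) / 2 =
      WV a.1 b.1 := by
    generalize a.1 = m at hc ⊢
    generalize b.1 = n at hc ⊢
    rw [hc]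
    unfold Wt WV wA
    have e1 : -m - -(m + n) = n := by ring
    have e2 : -n - m = -(m + n) := by ring
    have e3 : -(-(m + n)) - m = n := by ring
    have e4 : -n - -(m + n) = m := by ring
    have e5 : -(-(m + n)) - n = m := by ring
    have e6 : -m - n = -(m + n) := by ring
    rw [e1, e2, e3, e4, e5, e6, chiR_neg, uR_neg, chiR_add]
    rcases uR_tri m n with ⟨h1, h2, h3, -⟩ | ⟨h1, h2, h3, -⟩ | ⟨h1, h2, h3, -⟩ |
      ⟨h1, h2, h3, -⟩ | ⟨h1, h2, h3, -⟩ <;> rw [h1, h2, h3] <;> ring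
  unfold VV W3
  rw [← key]
  push_cast
  ring

theorem WV_diag (m : ℤ) : WV m (-m) = 0 := by
  unfold WV
  rw [show -m - -m = 0 by ring, chiR_neg, uR_neg]
  ring

theorem WV_zero (m : ℤ) : WV m 0 = Wh m := by
  unfold WV Wh
  rw [sub_zero, chiR_neg, chiR_zero, uR_zero]
  ring

theorem Wt_diag (m : ℤ) : Wt m (-m) - Wt 0 m = Wh m := by
  unfold Wt wA Wh
  rw [show -m - -m = 0 by ring, show -0 - m = -m by ring, chiR_zero, uR_zero, uR_neg]
  rcases uR_cases m with h | h <;> rw [h] <;> ring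

/-- The symmetrization of the first weight. -/
theorem Wt_sym (m n : ℤ) :
    (Wt m n - Wt (-m - n) n) + (Wt (-m) n - Wt (m - n) n) = -(1 / 2) * (Wh n * Wl m) := by
  unfold Wt wA Wh Wl
  have e1 : -(-m - n) - n = m := by ring
  have e2 : -m - n = -(m + n) := by ring
  have e3 : -(-m) - n = m - n := by ring
  have e4 : -(m - n) - n = -m := by ring
  rw [e1, e3, e4, e2, chiR_neg, chiR_neg, uR_neg, uR_neg, chiR_add, chiR_sub]
  rcases uR_tri m n with ⟨h1, h2, h3, h4⟩ | ⟨h1, h2, h3, h4⟩ | ⟨h1, h2, h3, h4⟩ |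
    ⟨h1, h2, h3, h4⟩ | ⟨h1, h2, h3, h4⟩ <;> rw [h1, h2, h3, h4] <;> ring

/-- The symmetrization of the second weight. -/
theorem WV_sym (m n : ℤ) :
    (WV n m - WV n (-n - m)) + (WV n (-m) - WV n (-n + m)) = 1 / 2 * (Wh n * Wl m) := by
  unfold WV Wh Wl
  have e1 : -n - (-n - m) = m := by ring
  have e2 : -n - m = -(m + n) := by ring
  have e3 : -n - (-n + m) = -m := by ring
  have e4 : -n - -m = m - n := by ring
  have e5 : -n + m = m - n := by ring
  rw [e1, e3, e4, e2, e5, chiR_neg, chiR_neg, uR_neg, uR_neg, chiR_add, chiR_sub]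
  rcases uR_tri m n with ⟨h1, h2, h3, h4⟩ | ⟨h1, h2, h3, h4⟩ | ⟨h1, h2, h3, h4⟩ |
    ⟨h1, h2, h3, h4⟩ | ⟨h1, h2, h3, h4⟩ <;> rw [h1, h2, h3, h4] <;> ring

/-- `WV` is even in each variable. -/
theorem WV_neg1 (m n : ℤ) : WV (-m) n = WV m n := by
  unfold WV
  rw [show -(-m) - n = m - n by ring, show -m - n = -(m + n) by ring, chiR_neg, uR_neg, chiR_neg,
    chiR_add, chiR_sub]

theorem WV_neg2 (m n : ℤ) : WV m (-n) = WV m n := by
  unfold WV
  rw [show -m - -n = -(m - n) by ring, show -m - n = -(m + n) by ring, chiR_neg, uR_neg, chiR_neg,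
    chiR_neg, chiR_add, chiR_sub]

/-! ### The four sums -/

/-- `12 Wt a₂⁴ (|a₁|² - |a₃|²)` -/
def X1t (y : ℝ) (P : L × L) : ℂ :=
  12 * ((Wt P.1.1 P.2.1 : ℂ) * (av y P.2 ^ 4 *
    (av y P.1 * bv y P.1 - av y (-P.1 - P.2) * bv y (-P.1 - P.2))))

/-- `-8 WV |a₁|² a₁ a₂³` -/
def X2t (y : ℝ) (P : L × L) : ℂ :=
  -8 * ((WV P.1.1 P.2.1 : ℂ) * (av y P.1 ^ 2 * bv y P.1 * av y P.2 ^ 3))

/-- `4 WV |a₁|² a₁² (a₂² - a₃²)` -/
def X3t (y : ℝ) (P : L × L) : ℂ :=
  4 * ((WV P.1.1 P.2.1 : ℂ) * (av y P.1 ^ 3 * bv y P.1 *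
    (av y P.2 ^ 2 - av y (-P.1 - P.2) ^ 2)))

/-- `4 Wt |a₂|² a₂² (conj a₁² - conj a₃²)` -/
def X4t (y : ℝ) (P : L × L) : ℂ :=
  4 * ((Wt P.1.1 P.2.1 : ℂ) * (av y P.2 ^ 3 * bv y P.2 *
    (bv y P.1 ^ 2 - bv y (-P.1 - P.2) ^ 2)))

theorem bound_single {y : ℝ} (hy : 0 < y) {w : L → ℂ} {C : ℝ} (hw : ∀ p, ‖w p‖ ≤ C) (i j : ℕ)
    (hij : 3 ≤ i + j) : Summable fun p => w p * (av y p ^ i * bv y p ^ j) := by
  -- the points are bounded away from zero
  obtain ⟨c, hc, hlam⟩ := LSum.norm_lam_ge hy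
  have h1 : ∀ p, ‖av y p‖ ≤ 1 + 1 / c := by
    intro p
    by_cases hp : p = 0
    · rw [hp, LSum.av_zero, norm_zero]
      positivity
    · have h2 : (1 : ℝ) ≤ ‖p‖ := by
        have h3 : (1 : ℝ) ≤ max ‖p.1‖ ‖p.2‖ := by
          by_cases h4 : p.1 = 0
          · have h5 : p.2 ≠ 0 := fun h6 => hp (Prod.ext h4 h6)
            refine le_max_of_le_right ?_
            rw [Int.norm_eq_abs]
            exact_mod_cast Int.one_le_abs h5
          · refine le_max_of_le_left ?_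
            rw [Int.norm_eq_abs]
            exact_mod_cast Int.one_le_abs h4
        exact h3
      have h3 := hlam p
      have h4 : c ≤ ‖lam y p‖ := by nlinarith
      unfold av
      rw [norm_inv]
      have h5 : ‖lam y p‖⁻¹ ≤ c⁻¹ := inv_anti₀ hc h4
      rw [one_div]
      linarith
  have hC : 0 ≤ C := (norm_nonneg _).trans (hw 0)
  refine LSum.summable_single hy (C * (1 + 1 / c) ^ (i + j - 3)) fun p => ?_
  have hb : ‖bv y p‖ = ‖av y p‖ := (dat hy).nm p
  rw [norm_mul, norm_mul, norm_pow, norm_pow, hb, ← pow_add]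
  have e : ‖av y p‖ ^ (i + j) = ‖av y p‖ ^ (i + j - 3) * ‖av y p‖ ^ 3 := by
    rw [← pow_add]
    congr 1
    omega
  rw [e, mul_assoc C]
  refine mul_le_mul (hw p) ?_ (by positivity) hC
  exact mul_le_mul_of_nonneg_right (pow_le_pow_left₀ (norm_nonneg _) (h1 p) _) (by positivity)

theorem Wh_le (m : ℤ) : |Wh m| ≤ 16 := by
  unfold Wh
  rcases chiR_cases m with h1 | h1 <;> rcases uR_cases m with h2 | h2 <;> rw [h1, h2] <;>
    norm_num [abs_le]

theorem TSm.to {G : L → L → L → ℂ} {f : L × L → ℂ} (h : TSm G)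
    (hf : ∀ P : L × L, G P.1 P.2 (-P.1 - P.2) = f P) : Summable f :=
  (summable_congr hf).1 h

theorem TS.to {G : L → L → L → ℂ} {f : L × L → ℂ}
    (hf : ∀ P : L × L, G P.1 P.2 (-P.1 - P.2) = f P) : TS G = ∑' P, f P :=
  tsum_congr hf

theorem X1_eq (y : ℝ) (P : L × L) : X1 W3 (av y) (bv y) P.1 P.2 (-P.1 - P.2) = X1t y P := by
  unfold X1t X1 g1 W3
  ring

theorem X2_eq (y : ℝ) (P : L × L) : X2 W3 (av y) (bv y) P.1 P.2 (-P.1 - P.2) = X2t y P := by
  unfold X2
  rw [VV_W3 (third P)]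
  unfold X2t F
  ring

theorem X3_eq (y : ℝ) (P : L × L) : X3 W3 (av y) (bv y) P.1 P.2 (-P.1 - P.2) = X3t y P := by
  unfold X3
  rw [VV_W3 (third P)]
  unfold X3t g3
  ring

theorem X4_eq (y : ℝ) (P : L × L) : X4 W3 (av y) (bv y) P.1 P.2 (-P.1 - P.2) = X4t y P := by
  unfold X4t X4 g4 W3
  ring

theorem sum_X1 {y : ℝ} (hy : 0 < y) : Summable (X1t y) := TSm.to ((dat hy).s1 W3_bd) (X1_eq y)

theorem sum_X2 {y : ℝ} (hy : 0 < y) : Summable (X2t y) := TSm.to ((dat hy).s2 W3_bd) (X2_eq y)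

theorem sum_X3 {y : ℝ} (hy : 0 < y) : Summable (X3t y) := TSm.to ((dat hy).s3 W3_bd) (X3_eq y)

theorem sum_X4 {y : ℝ} (hy : 0 < y) : Summable (X4t y) := TSm.to ((dat hy).s4 W3_bd) (X4_eq y)

theorem H_eq (y : ℝ) (P : L × L) : 2 * (W3 P.1 P.2 (-P.1 - P.2) *
    H2 (av y P.1) (av y P.2) (av y (-P.1 - P.2)) (bv y P.1) (bv y P.2) (bv y (-P.1 - P.2))) =
      Hterm y P := by
  unfold Hterm W3 H2 BM.H2 bv
  ring

/-- **The sum of `Hterm`.** -/
theorem hterm_sum {y : ℝ} (hy : 0 < y) :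
    ∑' P : (ℤ × ℤ) × (ℤ × ℤ), Hterm y P =
      (∑' P, X1t y P) + (∑' P, X2t y P) + (∑' P, X3t y P) + (∑' P, X4t y P)
        - 8 * Kh51 y - 4 * Kh33 y := by
  have hw : ∀ p : L, ‖((Wh p.1 : ℝ) : ℂ)‖ ≤ 16 := fun p => by
    rw [Complex.norm_real, Real.norm_eq_abs]
    exact Wh_le _
  have hw0 : ∀ p : L, ‖W3 0 p (-p)‖ ≤ 20 := fun p => by
    unfold W3
    rw [Complex.norm_real, Real.norm_eq_abs]
    exact Wt_le _ _
  have h := (dat hy).sum_H2 W3_bd W3_sig (w := fun p => ((Wh p.1 : ℝ) : ℂ))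
    (fun p => by
      rw [VV_W3 (by simp)]
      have := WV_diag p.1
      exact_mod_cast this)
    (fun p => by
      rw [VV_W3 (by simp)]
      have := WV_zero p.1
      exact_mod_cast this)
    (fun p => by
      have := Wt_diag p.1
      unfold W3
      exact_mod_cast this)
    ((bound_single hy hw 5 1 (by norm_num)).congr fun p => by rw [pow_one])
    (bound_single hy hw 3 3 (by norm_num))
    ((bound_single hy hw0 5 1 (by norm_num)).congr fun p => by rw [pow_one])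
    (bound_single hy hw0 3 3 (by norm_num))
  rw [TS.to (H_eq y), TS.to (X1_eq y), TS.to (X2_eq y), TS.to (X3_eq y), TS.to (X4_eq y)] at h
  rw [h]
  unfold Kh51 Kh33 Kab bv
  simp only [pow_one]

end

end Pool.Agent.Lib.BM.LBid
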