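import Pool.Agent.Lib.BM.LBsym

/-!
# BM.LBrel: the sum of `H2` as a sum of four sums over all triples
-/

set_option autoImplicit false

namespace Pool.Agent.Lib.BM.LBid

noncomputable section

/-- The majorant. -/
def N3 (A : L → ℂ) (a b c : L) : ℝ :=
  (‖A a‖ * ‖A b‖) ^ 3 + (‖A b‖ * ‖A c‖) ^ 3 + (‖A c‖ * ‖A a‖) ^ 3

/-- `A` is the inverse of the lattice point, `B` its conjugate, `σ` the symmetry of the line. -/
structure Dat (A B : L → ℂ) (σ : L ≃+ L) : Prop where
  A0 : A 0 = 0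
  B0 : B 0 = 0
  Aneg : ∀ p, A (-p) = -A p
  Bneg : ∀ p, B (-p) = -B p
  rel : ∀ a b c : L, a ≠ 0 → b ≠ 0 → c ≠ 0 → a + b + c = 0 → A a * A b + A b * A c + A c * A a = 0
  relB : ∀ a b c : L, a ≠ 0 → b ≠ 0 → c ≠ 0 → a + b + c = 0 →
    B a * B b + B b * B c + B c * B a = 0
  As : ∀ p, A (σ p) = B p
  Bs : ∀ p, B (σ p) = A p
  nm : ∀ p, ‖B p‖ = ‖A p‖
  sum : ∀ G : L → L → L → ℂ, (∃ C : ℝ, ∀ a b c : L, a + b + c = 0 → ‖G a b c‖ ≤ C * N3 A a b c) →
    TSm G

theorem third (P : L × L) : P.1 + P.2 + (-P.1 - P.2) = 0 := by abel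

theorem TS_congr {G G' : L → L → L → ℂ} (h : ∀ a b c : L, a + b + c = 0 → G a b c = G' a b c) :
    TS G = TS G' := tsum_congr fun P => h _ _ _ (third P)

theorem TSm.congr {G G' : L → L → L → ℂ} (hG : TSm G)
    (h : ∀ a b c : L, a + b + c = 0 → G a b c = G' a b c) : TSm G' :=
  (summable_congr fun P : L × L => h _ _ _ (third P)).1 hG

theorem TS_add {G G' : L → L → L → ℂ} (h : TSm G) (h' : TSm G') :
    TS (fun a b c => G a b c + G' a b c) = TS G + TS G' := h.tsum_add h'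

theorem TS_mul (G : L → L → L → ℂ) (k : ℂ) : TS (fun a b c => k * G a b c) = k * TS G :=
  tsum_mul_left

theorem TSm.add {G G' : L → L → L → ℂ} (h : TSm G) (h' : TSm G') :
    TSm fun a b c => G a b c + G' a b c := Summable.add h h'

theorem TSm.mul {G : L → L → L → ℂ} (h : TSm G) (k : ℂ) : TSm fun a b c => k * G a b c :=
  Summable.mul_left k h

theorem TSs (σ : L ≃+ L) (G : L → L → L → ℂ) : TS (fun a b c => G (σ a) (σ b) (σ c)) = TS G := by
  unfold TS
  rw [← (Equiv.prodCongr σ.toEquiv σ.toEquiv).tsum_eq fun P : L × L => G P.1 P.2 (-P.1 - P.2)]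
  refine tsum_congr fun P => ?_
  show G (σ P.1) (σ P.2) (σ (-P.1 - P.2)) = G (σ P.1) (σ P.2) (-σ P.1 - σ P.2)
  rw [map_sub, map_neg]

theorem amgm {x y : ℝ} (hx : 0 ≤ x) (hy : 0 ≤ y) : x ^ 2 * y + x * y ^ 2 ≤ x ^ 3 + y ^ 3 := by
  nlinarith [mul_nonneg (add_nonneg hx hy) (sq_nonneg (x - y))]

variable {A B : L → ℂ} {σ : L ≃+ L}

theorem N3_nonneg (A : L → ℂ) (a b c : L) : 0 ≤ N3 A a b c := by
  unfold N3
  positivity

/-- The first shape. -/
theorem Dat.bd1 (h : Dat A B σ) {a b c : L} (hs : a + b + c = 0) :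
    ‖A b ^ 4 * (A a * B a - A c * B c)‖ ≤ N3 A a b c := by
  have hA := norm_nonneg (A a)
  have hB := norm_nonneg (A b)
  have hC := norm_nonneg (A c)
  by_cases ha : a = 0
  · have hc : c = -b := by
      rw [ha, zero_add] at hs
      exact (neg_eq_of_add_eq_zero_right hs).symm
    rw [ha, hc, h.A0, h.Aneg, h.Bneg]
    unfold N3
    rw [h.Aneg, norm_neg, h.A0]
    simp only [norm_mul, norm_pow, zero_mul, zero_sub, norm_neg, neg_mul_neg, h.nm, norm_zero]
    nlinarith [pow_nonneg hB 6]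
  by_cases hb : b = 0
  · rw [hb, h.A0]
    simpa using N3_nonneg A a 0 c
  by_cases hc : c = 0
  · have hb' : b = -a := by
      rw [hc, add_zero] at hs
      exact (neg_eq_of_add_eq_zero_right hs).symm
    rw [hc, hb', h.A0, h.Aneg]
    unfold N3
    rw [h.Aneg, norm_neg, h.A0]
    simp only [norm_mul, norm_pow, zero_mul, sub_zero, norm_neg, h.nm, norm_zero]
    nlinarith [pow_nonneg hA 6]
  have h1 := h.rel a b c ha hb hc hs
  have h2 := h.relB a b c ha hb hc hs
  have e1 : A b ^ 4 * (A a * B a - A c * B c) =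
      A b ^ 3 * ((-(A a * A c)) * B a) - A b ^ 4 * (A c * (B a + B c)) := by
    linear_combination (A b ^ 3 * B a) * h1
  have e2 : ‖A b ^ 4 * (A c * (B a + B c))‖ = ‖A b‖ ^ 3 * (‖A c‖ * (‖A a‖ * ‖A c‖)) := by
    have e3 : B b * (B a + B c) = -(B a * B c) := by linear_combination h2
    have e4 : ‖A b‖ * ‖B a + B c‖ = ‖A a‖ * ‖A c‖ := by
      rw [← h.nm b, ← norm_mul, e3, norm_neg, norm_mul, h.nm, h.nm]
    rw [norm_mul, norm_mul, norm_pow, ← e4]
    ring
  rw [e1]
  refine (norm_sub_le _ _).trans ?_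
  rw [e2]
  simp only [norm_mul, norm_pow, norm_neg, h.nm]
  unfold N3
  have h3 := amgm hA hC
  have h4 := pow_nonneg hB 3
  nlinarith [mul_le_mul_of_nonneg_left h3 h4, mul_nonneg (pow_nonneg hA 3) (pow_nonneg hC 3)]

/-- The shape of a difference of squares, for a function `K` with the relation. -/
theorem bd_sq {K : L → ℂ} (hK0 : K 0 = 0) (hneg : ∀ p, K (-p) = -K p)
    (hrel : ∀ a b c : L, a ≠ 0 → b ≠ 0 → c ≠ 0 → a + b + c = 0 →
      K a * K b + K b * K c + K c * K a = 0) {a b c : L} (hs : a + b + c = 0) :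
    ‖K a‖ ^ 4 * ‖K b ^ 2 - K c ^ 2‖ ≤ N3 K a b c := by
  have hA := norm_nonneg (K a)
  have hB := norm_nonneg (K b)
  have hC := norm_nonneg (K c)
  by_cases ha : a = 0
  · rw [ha, hK0]
    simpa using N3_nonneg K 0 b c
  by_cases hb : b = 0
  · have hc : c = -a := by
      rw [hb, add_zero] at hs
      exact (neg_eq_of_add_eq_zero_right hs).symm
    rw [hb, hc, hK0, hneg]
    unfold N3
    rw [hneg, norm_neg, hK0]
    simp only [norm_pow, norm_neg, norm_zero, neg_sq, zero_pow two_ne_zero, zero_sub]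
    nlinarith [pow_nonneg hA 6]
  by_cases hc : c = 0
  · have hb' : b = -a := by
      rw [hc, add_zero] at hs
      exact (neg_eq_of_add_eq_zero_right hs).symm
    rw [hc, hb', hK0, hneg]
    unfold N3
    rw [hneg, norm_neg, hK0]
    simp only [norm_pow, norm_zero, neg_sq, zero_pow two_ne_zero, sub_zero]
    nlinarith [pow_nonneg hA 6]
  have h1 := hrel a b c ha hb hc hs
  have e1 : K a * (K b + K c) = -(K b * K c) := by linear_combination h1
  have e2 : ‖K a‖ * ‖K b + K c‖ = ‖K b‖ * ‖K c‖ := by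
    rw [← norm_mul, e1, norm_neg, norm_mul]
  have e3 : ‖K b ^ 2 - K c ^ 2‖ = ‖K b + K c‖ * ‖K b - K c‖ := by
    rw [← norm_mul]
    congr 1
    ring
  have e4 : ‖K b - K c‖ ≤ ‖K b‖ + ‖K c‖ := norm_sub_le _ _
  rw [e3]
  have e5 : ‖K a‖ ^ 4 * (‖K b + K c‖ * ‖K b - K c‖) =
      ‖K a‖ ^ 3 * (‖K b‖ * ‖K c‖) * ‖K b - K c‖ := by
    rw [← e2]
    ring
  rw [e5]
  refine (mul_le_mul_of_nonneg_left e4 (by positivity)).trans ?_
  unfold N3
  have h3 := amgm hB hC
  have h4 := pow_nonneg hA 3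
  nlinarith [mul_le_mul_of_nonneg_left h3 h4, mul_nonneg (pow_nonneg hB 3) (pow_nonneg hC 3)]

theorem Dat.N3B (h : Dat A B σ) (a b c : L) : N3 B a b c = N3 A a b c := by
  unfold N3
  rw [h.nm, h.nm, h.nm]

/-- Bounded weights. -/
def Bd (W : L → L → L → ℂ) : Prop := ∃ M : ℝ, 0 ≤ M ∧ ∀ a b c, ‖W a b c‖ ≤ M

theorem Bd.perm {W : L → L → L → ℂ} (h : Bd W) (f : L → L → L → L × L × L) :
    Bd fun a b c => W (f a b c).1 (f a b c).2.1 (f a b c).2.2 := by
  obtain ⟨M, h0, hM⟩ := h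
  exact ⟨M, h0, fun a b c => hM _ _ _⟩

theorem Dat.sumW (h : Dat A B σ) {U G : L → L → L → ℂ} (hU : Bd U) (C : ℝ)
    (hG : ∀ a b c : L, a + b + c = 0 → ‖G a b c‖ ≤ C * N3 A a b c) :
    TSm fun a b c => U a b c * G a b c := by
  obtain ⟨M, h0, hM⟩ := hU
  refine h.sum _ ⟨M * C, fun a b c hs => ?_⟩
  rw [norm_mul, mul_assoc]
  exact mul_le_mul (hM a b c) (hG a b c hs) (norm_nonneg _) h0

/-- `|1/λ_a|^2 λ_a^-1 λ_b^-3` -/
def F (A B : L → ℂ) (a b : L) : ℂ := A a ^ 2 * B a * A b ^ 3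

/-- `a_1^3 b_1 (a_2^2 - a_3^2)` -/
def g3 (A B : L → ℂ) (a b c : L) : ℂ := A a ^ 3 * B a * (A b ^ 2 - A c ^ 2)

/-- `a_2^3 b_2 (b_1^2 - b_3^2)` -/
def g4 (A B : L → ℂ) (a b c : L) : ℂ := A b ^ 3 * B b * (B a ^ 2 - B c ^ 2)

/-- `a_2^4 (a_1 b_1 - a_3 b_3)` -/
def g1 (A B : L → ℂ) (a b c : L) : ℂ := A b ^ 4 * (A a * B a - A c * B c)

theorem Dat.bdF (h : Dat A B σ) {a b c : L} : ‖F A B a b‖ ≤ 1 * N3 A a b c := by
  unfold F N3
  simp only [norm_mul, norm_pow, h.nm]
  have hA := norm_nonneg (A a)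
  have hB := norm_nonneg (A b)
  have hC := norm_nonneg (A c)
  have h1 : 0 ≤ (‖A b‖ * ‖A c‖) ^ 3 := by positivity
  have h2 : 0 ≤ (‖A c‖ * ‖A a‖) ^ 3 := by positivity
  nlinarith

theorem Dat.bdg3 (h : Dat A B σ) {a b c : L} (hs : a + b + c = 0) :
    ‖g3 A B a b c‖ ≤ 1 * N3 A a b c := by
  have := bd_sq h.A0 h.Aneg h.rel hs
  unfold g3
  rw [norm_mul, norm_mul, norm_pow, h.nm, one_mul]
  refine le_trans (le_of_eq ?_) this
  ring

theorem Dat.bdg4 (h : Dat A B σ) {a b c : L} (hs : a + b + c = 0) :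
    ‖g4 A B a b c‖ ≤ 1 * N3 A a b c := by
  have hs' : b + a + c = 0 := by rw [add_comm b a]; exact hs
  have := bd_sq h.B0 h.Bneg h.relB hs'
  rw [h.N3B] at this
  unfold g4
  rw [norm_mul, norm_mul, norm_pow, h.nm, one_mul]
  refine le_trans (le_of_eq ?_) (this.trans (le_of_eq ?_))
  · rw [h.nm]
    ring
  · unfold N3
    ring

theorem Dat.bdg1 (h : Dat A B σ) {a b c : L} (hs : a + b + c = 0) :
    ‖g1 A B a b c‖ ≤ 1 * N3 A a b c := by
  rw [one_mul]
  exact h.bd1 hs

/-- The antisymmetrized weight. -/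
def VV (W : L → L → L → ℂ) (a b c : L) : ℂ :=
  (W a b c + W a c b - W b a c + W c a b - W b c a - W c b a) / 2

theorem Bd.VV {W : L → L → L → ℂ} (h : Bd W) : Bd (VV W) := by
  obtain ⟨M, h0, hM⟩ := h
  refine ⟨3 * M, by positivity, fun a b c => ?_⟩
  unfold LBid.VV
  rw [norm_div]
  have e : ‖(2 : ℂ)‖ = 2 := by norm_num
  rw [e, div_le_iff₀ (by norm_num : (0:ℝ) < 2)]
  have h1 := norm_add_le (W a b c) (W a c b)
  have h2 := norm_sub_le (W a b c + W a c b) (W b a c)
  have h3 := norm_add_le (W a b c + W a c b - W b a c) (W c a b)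
  have h4 := norm_sub_le (W a b c + W a c b - W b a c + W c a b) (W b c a)
  have h5 := norm_sub_le (W a b c + W a c b - W b a c + W c a b - W b c a) (W c b a)
  linarith [hM a b c, hM a c b, hM b a c, hM c a b, hM b c a, hM c b a]

/-- The relabelling of the products. -/
theorem Dat.HB (h : Dat A B σ) {U : L → L → L → ℂ} (hU : Bd U) :
    TS (fun a b c => U a b c * (A a ^ 2 * B a * (-2 * A b ^ 3 - 2 * A c ^ 3)
        + A b ^ 2 * B b * (2 * A a ^ 3 - 2 * A c ^ 3)
        + A c ^ 2 * B c * (2 * A a ^ 3 + 2 * A b ^ 3))) =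
      TS (fun a b c => VV U a b c * (-4 * F A B a b)) := by
  have s : ∀ f : L → L → L → L × L × L,
      TSm fun a b c => U (f a b c).1 (f a b c).2.1 (f a b c).2.2 * F A B a b := fun f =>
    h.sumW (hU.perm f) 1 fun a b c _ => h.bdF
  -- the six sums over the relabelled triples
  have s1 : TSm fun a b c => U a b c * F A B a b := s fun a b c => (a, b, c)
  have s2 : TSm fun a b c => U a c b * F A B a b := s fun a b c => (a, c, b)
  have s3 : TSm fun a b c => U b a c * F A B a b := s fun a b c => (b, a, c)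
  have s4 : TSm fun a b c => U c a b * F A B a b := s fun a b c => (c, a, b)
  have s5 : TSm fun a b c => U b c a * F A B a b := s fun a b c => (b, c, a)
  have s6 : TSm fun a b c => U c b a * F A B a b := s fun a b c => (c, b, a)
  have r2 := TS23 fun a b c => U a c b * F A B a b
  have r3 := TS12 fun a b c => U b a c * F A B a b
  have r4 := TSc fun a b c => U c a b * F A B a b
  have r5 := TSc' fun a b c => U b c a * F A B a b
  have r6 := TS13 fun a b c => U c b a * F A B a b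
  -- the original ones
  have t : ∀ f : L → L → L → L × L, ∀ C : ℝ, (∀ a b c : L, a + b + c = 0 →
      ‖F A B (f a b c).1 (f a b c).2‖ ≤ C * N3 A a b c) →
      TSm fun a b c => U a b c * F A B (f a b c).1 (f a b c).2 := fun f C hf => h.sumW hU C hf
  have hN : ∀ a b c : L, N3 A a c b = N3 A a b c := fun a b c => by unfold N3; ring
  have hN2 : ∀ a b c : L, N3 A b a c = N3 A a b c := fun a b c => by unfold N3; ring
  have hN3 : ∀ a b c : L, N3 A b c a = N3 A a b c := fun a b c => by unfold N3; ring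
  have hN4 : ∀ a b c : L, N3 A c a b = N3 A a b c := fun a b c => by unfold N3; ring
  have hN5 : ∀ a b c : L, N3 A c b a = N3 A a b c := fun a b c => by unfold N3; ring
  have t2 : TSm fun a b c => U a b c * F A B a c :=
    t (fun a b c => (a, c)) 1 fun a b c _ => by rw [← hN a b c]; exact h.bdF
  have t3 : TSm fun a b c => U a b c * F A B b a :=
    t (fun a b c => (b, a)) 1 fun a b c _ => by rw [← hN2 a b c]; exact h.bdF
  have t4 : TSm fun a b c => U a b c * F A B b c :=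
    t (fun a b c => (b, c)) 1 fun a b c _ => by rw [← hN3 a b c]; exact h.bdF
  have t5 : TSm fun a b c => U a b c * F A B c a :=
    t (fun a b c => (c, a)) 1 fun a b c _ => by rw [← hN4 a b c]; exact h.bdF
  have t6 : TSm fun a b c => U a b c * F A B c b :=
    t (fun a b c => (c, b)) 1 fun a b c _ => by rw [← hN5 a b c]; exact h.bdF
  have e1 : TS (fun a b c => U a b c * (A a ^ 2 * B a * (-2 * A b ^ 3 - 2 * A c ^ 3)
        + A b ^ 2 * B b * (2 * A a ^ 3 - 2 * A c ^ 3)
        + A c ^ 2 * B c * (2 * A a ^ 3 + 2 * A b ^ 3))) =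
      -2 * TS (fun a b c => U a b c * F A B a b) + -2 * TS (fun a b c => U a b c * F A B a c)
      + 2 * TS (fun a b c => U a b c * F A B b a) + -2 * TS (fun a b c => U a b c * F A B b c)
      + 2 * TS (fun a b c => U a b c * F A B c a) + 2 * TS (fun a b c => U a b c * F A B c b) := by
    rw [← TS_mul, ← TS_mul, ← TS_mul, ← TS_mul, ← TS_mul, ← TS_mul,
      ← TS_add (s1.mul _) (t2.mul _), ← TS_add ((s1.mul _).add (t2.mul _)) (t3.mul _),
      ← TS_add (((s1.mul _).add (t2.mul _)).add (t3.mul _)) (t4.mul _),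
      ← TS_add ((((s1.mul _).add (t2.mul _)).add (t3.mul _)).add (t4.mul _)) (t5.mul _),
      ← TS_add (((((s1.mul _).add (t2.mul _)).add (t3.mul _)).add (t4.mul _)).add (t5.mul _))
        (t6.mul _)]
    refine TS_congr fun a b c _ => ?_
    unfold F
    ring
  have e2 : TS (fun a b c => VV U a b c * (-4 * F A B a b)) =
      -2 * TS (fun a b c => U a b c * F A B a b) + -2 * TS (fun a b c => U a c b * F A B a b)
      + 2 * TS (fun a b c => U b a c * F A B a b) + -2 * TS (fun a b c => U c a b * F A B a b)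
      + 2 * TS (fun a b c => U b c a * F A B a b) + 2 * TS (fun a b c => U c b a * F A B a b) := by
    rw [← TS_mul, ← TS_mul, ← TS_mul, ← TS_mul, ← TS_mul, ← TS_mul,
      ← TS_add (s1.mul _) (s2.mul _), ← TS_add ((s1.mul _).add (s2.mul _)) (s3.mul _),
      ← TS_add (((s1.mul _).add (s2.mul _)).add (s3.mul _)) (s4.mul _),
      ← TS_add ((((s1.mul _).add (s2.mul _)).add (s3.mul _)).add (s4.mul _)) (s5.mul _),
      ← TS_add (((((s1.mul _).add (s2.mul _)).add (s3.mul _)).add (s4.mul _)).add (s5.mul _))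
        (s6.mul _)]
    refine TS_congr fun a b c _ => ?_
    unfold VV
    ring
  rw [e1, e2]
  rw [← r2, ← r3, ← r4, ← r5, ← r6]

/-- The relabelling of the sum with a difference of squares. -/
theorem Dat.HC1 (h : Dat A B σ) {U : L → L → L → ℂ} (hU : Bd U) :
    TS (fun a b c => U a b c * (A b ^ 3 * B b * (A c ^ 2 - A a ^ 2))) =
      TS (fun a b c => VV U a b c * g3 A B a b c) := by
  have s : ∀ f : L → L → L → L × L × L,
      TSm fun a b c => U (f a b c).1 (f a b c).2.1 (f a b c).2.2 * g3 A B a b c := fun f =>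
    h.sumW (hU.perm f) 1 fun a b c hs => h.bdg3 hs
  have s1 : TSm fun a b c => U a b c * g3 A B a b c := s fun a b c => (a, b, c)
  have s2 : TSm fun a b c => U a c b * g3 A B a b c := s fun a b c => (a, c, b)
  have s3 : TSm fun a b c => U b a c * g3 A B a b c := s fun a b c => (b, a, c)
  have s4 : TSm fun a b c => U c a b * g3 A B a b c := s fun a b c => (c, a, b)
  have s5 : TSm fun a b c => U b c a * g3 A B a b c := s fun a b c => (b, c, a)
  have s6 : TSm fun a b c => U c b a * g3 A B a b c := s fun a b c => (c, b, a)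
  have r1 := TSc fun a b c => U c a b * g3 A B a b c
  have q : ∀ W : L → L → L → ℂ, TS (fun a b c => W a c b * g3 A B a b c) =
      -TS (fun a b c => W a b c * g3 A B a b c) := by
    intro W
    rw [← TS23 fun a b c => W a b c * g3 A B a b c, ← neg_one_mul, ← TS_mul]
    refine TS_congr fun a b c _ => ?_
    unfold g3
    ring
  have q1 := q U
  have q2 := q fun a b c => U b a c
  have q3 := q fun a b c => U b c a
  have e2 : TS (fun a b c => VV U a b c * g3 A B a b c) =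
      1 / 2 * TS (fun a b c => U a b c * g3 A B a b c)
      + 1 / 2 * TS (fun a b c => U a c b * g3 A B a b c)
      + -(1 / 2) * TS (fun a b c => U b a c * g3 A B a b c)
      + 1 / 2 * TS (fun a b c => U c a b * g3 A B a b c)
      + -(1 / 2) * TS (fun a b c => U b c a * g3 A B a b c)
      + -(1 / 2) * TS (fun a b c => U c b a * g3 A B a b c) := by
    rw [← TS_mul, ← TS_mul, ← TS_mul, ← TS_mul, ← TS_mul, ← TS_mul,
      ← TS_add (s1.mul _) (s2.mul _), ← TS_add ((s1.mul _).add (s2.mul _)) (s3.mul _),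
      ← TS_add (((s1.mul _).add (s2.mul _)).add (s3.mul _)) (s4.mul _),
      ← TS_add ((((s1.mul _).add (s2.mul _)).add (s3.mul _)).add (s4.mul _)) (s5.mul _),
      ← TS_add (((((s1.mul _).add (s2.mul _)).add (s3.mul _)).add (s4.mul _)).add (s5.mul _))
        (s6.mul _)]
    refine TS_congr fun a b c _ => ?_
    unfold VV
    ring
  have e1 : TS (fun a b c => U a b c * (A b ^ 3 * B b * (A c ^ 2 - A a ^ 2))) =
      TS (fun a b c => U c a b * g3 A B a b c) := by
    rw [← r1]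
    refine TS_congr fun a b c _ => ?_
    unfold g3
    ring
  rw [e1, e2]
  linear_combination (-(1 / 2 : ℂ)) * q1 + (1 / 2 : ℂ) * q2 + (1 / 2 : ℂ) * q3

/-- The second part, by the symmetry of the line. -/
theorem Dat.HC2 (h : Dat A B σ) {U : L → L → L → ℂ}
    (hUs : ∀ a b c, U (σ a) (σ b) (σ c) = U a b c) :
    TS (fun a b c => U a b c * (A b * B b ^ 3 * (A a ^ 2 - A c ^ 2))) =
      TS (fun a b c => U a b c * g4 A B a b c) := by
  rw [← TSs σ fun a b c => U a b c * g4 A B a b c]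
  refine TS_congr fun a b c _ => ?_
  rw [hUs]
  unfold g4
  rw [h.As, h.Bs, h.Bs, h.Bs]
  ring

end

end Pool.Agent.Lib.BM.LBid
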