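import Mathlib

/-!
# BM.LBrow: the row lemma

Sums of `W(m) (f(p) - f(p+μ))` over the lattice, strip by strip.
-/

set_option autoImplicit false

open Filter Topology

namespace Pool.Agent.Lib.BM.LB

/-- The symmetric interval. -/
noncomputable abbrev sI (M : ℕ) : Finset ℤ := Finset.Icc (-(M : ℤ)) M

lemma sI_succ (M : ℕ) : sI (M + 1) = insert ((M : ℤ) + 1) (insert (-(M : ℤ) - 1) (sI M)) := by
  ext x
  simp only [sI, Finset.mem_Icc, Finset.mem_insert]
  push_cast
  omega

lemma sum_sI_succ (F : ℤ → ℂ) (M : ℕ) :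
    ∑ m ∈ sI (M + 1), F m = F ((M : ℤ) + 1) + (F (-(M : ℤ) - 1) + ∑ m ∈ sI M, F m) := by
  rw [sI_succ, Finset.sum_insert, Finset.sum_insert]
  · simp [sI]
  · simp only [sI, Finset.mem_Icc, Finset.mem_insert]
    omega

lemma tendsto_sI : Tendsto sI atTop atTop := by
  apply tendsto_atTop_finset_of_monotone
  · intro a b hab
    apply Finset.Icc_subset_Icc
    · simpa using hab
    · exact_mod_cast hab
  · intro x
    refine ⟨x.natAbs, ?_⟩
    simp only [sI, Finset.mem_Icc]
    omega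

lemma sum_sI_neg (F : ℤ → ℂ) (M : ℕ) : ∑ m ∈ sI M, F (-m) = ∑ m ∈ sI M, F m := by
  apply Finset.sum_nbij' (fun m => -m) (fun m => -m)
  · intro m hm
    simp only [sI, Finset.mem_Icc] at hm ⊢
    omega
  · intro m hm
    simp only [sI, Finset.mem_Icc] at hm ⊢
    omega
  · intro m _
    simp
  · intro m _
    simp
  · intro m _
    rfl

lemma sum_sI_shift_one (F : ℤ → ℂ) (M : ℕ) :
    ∑ m ∈ sI M, F (m + 1) - ∑ m ∈ sI M, F m = F ((M : ℤ) + 1) - F (-(M : ℤ)) := by
  induction M with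
  | zero => simp [sI]
  | succ M ih =>
    rw [sum_sI_succ, sum_sI_succ]
    have e1 : (-(M : ℤ) - 1 + 1) = -(M : ℤ) := by ring
    have e2 : (-((M + 1 : ℕ) : ℤ)) = -(M : ℤ) - 1 := by push_cast; ring
    have e3 : (((M + 1 : ℕ) : ℤ)) = (M : ℤ) + 1 := by push_cast; ring
    rw [e1, e2, e3]
    linear_combination ih

lemma tendsto_shift (F : ℤ → ℂ) (hF : Tendsto F cofinite (𝓝 0)) (k : ℤ) :
    Tendsto (fun M : ℕ => ∑ m ∈ sI M, F (m + k) - ∑ m ∈ sI M, F m) atTop (𝓝 0) := by
  have key : ∀ k : ℤ, Tendsto (fun M : ℕ => ∑ m ∈ sI M, F (m + (k + 1)) - ∑ m ∈ sI M, F (m + k))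
      atTop (𝓝 0) := by
    intro k
    have h : ∀ M : ℕ, ∑ m ∈ sI M, F (m + (k + 1)) - ∑ m ∈ sI M, F (m + k) =
        F ((M : ℤ) + 1 + k) - F (-(M : ℤ) + k) := by
      intro M
      have := sum_sI_shift_one (fun m => F (m + k)) M
      rw [← this]
      congr 1
      apply Finset.sum_congr rfl
      intro m _
      congr 1
      ring
    simp_rw [h]
    rw [← sub_zero (0 : ℂ)]
    apply Tendsto.sub
    · apply hF.comp
      apply Function.Injective.tendsto_cofinite (f := fun M : ℕ => (M : ℤ) + 1 + k) ?_ |>.mono_left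
      · rw [Nat.cofinite_eq_atTop]
      · intro a b hab
        simpa using hab
    · apply hF.comp
      apply Function.Injective.tendsto_cofinite (f := fun M : ℕ => -(M : ℤ) + k) ?_ |>.mono_left
      · rw [Nat.cofinite_eq_atTop]
      · intro a b hab
        simpa using hab
  induction k using Int.induction_on with
  | zero => simp
  | succ k ih =>
    have := (key k).add ih
    simp only [add_zero, sub_add_sub_cancel] at this
    exact this
  | pred k ih =>
    have h2 := ih.sub (key (-(k : ℤ) - 1))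
    simp only [sub_add_cancel, sub_zero] at h2
    refine h2.congr fun M => ?_
    ring

/-- **Row lemma.** -/
theorem row_lemma (f : ℤ × ℤ → ℂ) (W w : ℤ → ℂ) (c : ℂ) (μ : ℤ × ℤ) (B : ℝ)
    (hf : ∀ p, f (-p) = f p) (hrow : ∀ m, Summable fun n => f (m, n))
    (hr : Tendsto (fun m => ∑' n, f (m, n)) cofinite (𝓝 0))
    (hW : ∀ m, ‖W m‖ ≤ B)
    (hWw : ∀ m, W m + W (-m) - W (m - μ.1) - W (-m - μ.1) = 2 * c * w m)
    (hs : Summable fun p : ℤ × ℤ => W p.1 * (f p - f (p + μ))) :
    Tendsto (fun M : ℕ => c * ∑ m ∈ sI M, w m * ∑' n, f (m, n)) atTop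
      (𝓝 (∑' p : ℤ × ℤ, W p.1 * (f p - f (p + μ)))) := by
  set r : ℤ → ℂ := fun m => ∑' n, f (m, n) with hrdef
  have hreven : ∀ m, r (-m) = r m := by
    intro m
    simp only [hrdef]
    rw [← (Equiv.neg ℤ).tsum_eq]
    apply tsum_congr
    intro n
    have := hf (m, n)
    simpa using this
  have hrowsum : ∀ m, ∑' n, W m * (f (m, n) - f ((m, n) + μ)) = W m * (r m - r (m + μ.1)) := by
    intro m
    rw [tsum_mul_left]
    congr 1
    have h2 : Summable fun n => f ((m, n) + μ) := by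
      have := (Equiv.addRight μ.2).summable_iff.2 (hrow (m + μ.1))
      exact this
    rw [(hrow m).tsum_sub h2]
    congr 1
    exact (Equiv.addRight μ.2).tsum_eq (fun n => f (m + μ.1, n))
  have h1 : ∑' p : ℤ × ℤ, W p.1 * (f p - f (p + μ)) = ∑' m, W m * (r m - r (m + μ.1)) := by
    rw [hs.tsum_prod]
    exact tsum_congr hrowsum
  have hsm : Summable fun m => W m * (r m - r (m + μ.1)) := by
    have := hs.prod
    refine this.congr fun m => ?_
    exact hrowsum m
  have ht := hsm.hasSum.comp tendsto_sI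
  rw [← h1] at ht
  -- the second part
  have hG : Tendsto (fun m => W (m - μ.1) * r m) cofinite (𝓝 0) := by
    rw [tendsto_zero_iff_norm_tendsto_zero] at hr ⊢
    have h3 : Tendsto (fun m => B * ‖r m‖) cofinite (𝓝 0) := by
      simpa using hr.const_mul B
    refine squeeze_zero (fun m => norm_nonneg _) (fun m => ?_) h3
    rw [norm_mul]
    exact mul_le_mul_of_nonneg_right (hW _) (norm_nonneg _)
  have hsh := tendsto_shift (fun m => W (m - μ.1) * r m) hG μ.1
  have hfin := ht.add hsh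
  rw [add_zero] at hfin
  refine hfin.congr fun M => ?_
  simp only [Function.comp_def]
  have e1 : ∑ m ∈ sI M, W (m + μ.1 - μ.1) * r (m + μ.1) = ∑ m ∈ sI M, W m * r (m + μ.1) := by
    apply Finset.sum_congr rfl
    intro m _
    rw [add_sub_cancel_right]
  have e2 : ∑ m ∈ sI M, W m * (r m - r (m + μ.1)) =
      ∑ m ∈ sI M, W m * r m - ∑ m ∈ sI M, W m * r (m + μ.1) := by
    rw [← Finset.sum_sub_distrib]
    apply Finset.sum_congr rfl
    intro m _
    ring
  rw [e1, e2]
  have e3 : ∑ m ∈ sI M, W m * r m = ∑ m ∈ sI M, W (-m) * r m := by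
    rw [← sum_sI_neg]
    apply Finset.sum_congr rfl
    intro m _
    rw [hreven]
  have e4 : ∑ m ∈ sI M, W (m - μ.1) * r m = ∑ m ∈ sI M, W (-m - μ.1) * r m := by
    rw [← sum_sI_neg]
    apply Finset.sum_congr rfl
    intro m _
    rw [hreven]
  have e5 : 2 * (c * ∑ m ∈ sI M, w m * r m) = ∑ m ∈ sI M, W m * r m + ∑ m ∈ sI M, W (-m) * r m -
      ∑ m ∈ sI M, W (m - μ.1) * r m - ∑ m ∈ sI M, W (-m - μ.1) * r m := by
    rw [Finset.mul_sum, Finset.mul_sum, ← Finset.sum_add_distrib, ← Finset.sum_sub_distrib,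
      ← Finset.sum_sub_distrib]
    apply Finset.sum_congr rfl
    intro m _
    linear_combination -(r m) * hWw m
  linear_combination (-1 / 2 : ℂ) * e5 + (1 / 2 : ℂ) * e3 - (1 / 2 : ℂ) * e4

end Pool.Agent.Lib.BM.LB
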