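import Pool.Agent.Lib.BM.LBalg

/-!
# BM.LBsym: relabelling of the sums over triples, degenerate triples

`TS G` is the sum of `G a b c` over `a + b + c = 0`.
-/

set_option autoImplicit false

namespace Pool.Agent.Lib.BM.LBid

noncomputable section

/-- The index set of one variable. -/
abbrev L := ℤ × ℤ

/-- The sum over the triples `a + b + c = 0`. -/
def TS (G : L → L → L → ℂ) : ℂ := ∑' P : L × L, G P.1 P.2 (-P.1 - P.2)

/-- Summability over the triples. -/
def TSm (G : L → L → L → ℂ) : Prop := Summable fun P : L × L => G P.1 P.2 (-P.1 - P.2)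

/-- `(a, b, c) -> (b, a, c)` -/
def e12 : L × L ≃ L × L := Equiv.prodComm L L

/-- `(a, b, c) -> (a, c, b)` -/
def e23 : L × L ≃ L × L where
  toFun P := (P.1, -P.1 - P.2)
  invFun P := (P.1, -P.1 - P.2)
  left_inv P := by
    ext <;> simp
  right_inv P := by
    ext <;> simp

theorem TS12 (G : L → L → L → ℂ) : TS (fun a b c => G b a c) = TS G := by
  unfold TS
  rw [← e12.tsum_eq fun P : L × L => G P.1 P.2 (-P.1 - P.2)]
  refine tsum_congr fun P => ?_
  show G P.2 P.1 (-P.1 - P.2) = G P.2 P.1 (-P.2 - P.1)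
  rw [neg_sub_comm]

theorem TS23 (G : L → L → L → ℂ) : TS (fun a b c => G a c b) = TS G := by
  unfold TS
  rw [← e23.tsum_eq fun P : L × L => G P.1 P.2 (-P.1 - P.2)]
  refine tsum_congr fun P => ?_
  show G P.1 (-P.1 - P.2) P.2 = G P.1 (-P.1 - P.2) (-P.1 - (-P.1 - P.2))
  rw [sub_sub_cancel]

theorem TS13 (G : L → L → L → ℂ) : TS (fun a b c => G c b a) = TS G := by
  rw [← TS12 G, ← TS23 (fun a b c => G b a c), ← TS12 (fun a b c => G c a b)]

theorem TSc (G : L → L → L → ℂ) : TS (fun a b c => G b c a) = TS G := by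
  rw [← TS12 G, ← TS13 (fun a b c => G b a c)]

theorem TSc' (G : L → L → L → ℂ) : TS (fun a b c => G c a b) = TS G := by
  rw [← TS12 G, ← TS23 (fun a b c => G b a c)]

end

end Pool.Agent.Lib.BM.LBid
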