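import Pool.Agent.Lib.BM.LSum

/-!
# BM.LDer: the derivative of `y^3 ∑ w D` along the line

`a, b, c` are the inverses of three lattice points with sum zero, `a', b', c'` their conjugates.
`DelP = 2 a^3 a' (c b' - b c') - a^2 a' (c^2 b' - b^2 c')`.
-/

set_option autoImplicit false

open Complex Filter Topology

namespace Pool.Agent.Lib.BM

namespace LDer

open LSum

/-- `Del` as a polynomial in six variables. -/
def DelP (a b c a' b' c' : ℂ) : ℂ := 2 * a ^ 3 * a' * (c * b' - b * c') - a ^ 2 * a' * (c ^ 2 * b' - b ^ 2 * c')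

/-- `δ Del` -/
def PP (a b c a' b' c' : ℂ) : ℂ :=
  c' * (-6 * a ^ 4 * b + 4 * a ^ 3 * b ^ 2 - 2 * a ^ 2 * b ^ 3) + a' * (-2 * b ^ 3 * c ^ 2 + 2 * b ^ 2 * c ^ 3)
    + b' * (2 * c ^ 3 * a ^ 2 - 4 * c ^ 2 * a ^ 3 + 6 * c * a ^ 4)

/-- The antisymmetric part of the conjugate derivative. -/
def MP (a b c a' b' c' : ℂ) : ℂ :=
  c * a * a' ^ 2 * b' * (2 * a - c) + c * a * a' * b' ^ 2 * (c - a) + a * b * c' ^ 2 * a' * (a - b)
    - a * b * c' * a' ^ 2 * (2 * a - b)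

/-- The rest of the conjugate derivative. -/
def NP (a b' c' : ℂ) : ℂ := 2 * a ^ 3 * (b' ^ 2 * c' - b' * c' ^ 2)

/-- The derivative identity for the inverses of `x`, `z`, `-x - z`. -/
theorem alg_deriv (x z x' z' : ℂ) (hx : x ≠ 0) (hz : z ≠ 0) (hxz : x + z ≠ 0) (hx' : x' ≠ 0) (hz' : z' ≠ 0)
    (hxz' : x' + z' ≠ 0) (a b c a' b' c' : ℂ) (ha : a = x⁻¹) (hb : b = z⁻¹) (hc : c = (-x - z)⁻¹) (ha' : a' = x'⁻¹)
    (hb' : b' = z'⁻¹) (hc' : c' = (-x' - z')⁻¹) :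
    (6 * a ^ 2 * a' * (c * b' - b * c') - 2 * a * a' * (c ^ 2 * b' - b ^ 2 * c')) * (-(x - x') * a ^ 2)
      + (2 * a ^ 3 * (c * b' - b * c') - a ^ 2 * (c ^ 2 * b' - b ^ 2 * c')) * ((x - x') * a' ^ 2)
      + (2 * a ^ 3 * a' * (-c') + a ^ 2 * a' * (2 * b * c')) * (-(z - z') * b ^ 2)
      + (2 * a ^ 3 * a' * c - a ^ 2 * a' * c ^ 2) * ((z - z') * b' ^ 2)
      + (2 * a ^ 3 * a' * b' - a ^ 2 * a' * (2 * c * b')) * (-(-x - z - (-x' - z')) * c ^ 2)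
      + (2 * a ^ 3 * a' * (-b) + a ^ 2 * a' * b ^ 2) * ((-x - z - (-x' - z')) * c' ^ 2)
      + 6 * DelP a b c a' b' c' = PP a b c a' b' c' + MP a b c a' b' c' + NP a b' c' := by
  have h1 : -x - z ≠ 0 := by
    intro h
    apply hxz
    linear_combination -h
  have h2 : -x' - z' ≠ 0 := by
    intro h
    apply hxz'
    linear_combination -h
  subst ha hb hc ha' hb' hc'
  unfold DelP PP MP NP
  field_simp
  ring

/-- The middle part is antisymmetric under conjugation. -/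
theorem alg_anti (x z x' z' : ℂ) (hx : x ≠ 0) (hz : z ≠ 0) (hxz : x + z ≠ 0) (hx' : x' ≠ 0) (hz' : z' ≠ 0)
    (hxz' : x' + z' ≠ 0) (a b c a' b' c' : ℂ) (ha : a = x⁻¹) (hb : b = z⁻¹) (hc : c = (-x - z)⁻¹) (ha' : a' = x'⁻¹)
    (hb' : b' = z'⁻¹) (hc' : c' = (-x' - z')⁻¹) : MP a b c a' b' c' + MP a' b' c' a b c = 0 := by
  have h1 : -x - z ≠ 0 := by
    intro h
    apply hxz
    linear_combination -h
  have h2 : -x' - z' ≠ 0 := by
    intro h
    apply hxz'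
    linear_combination -h
  subst ha hb hc ha' hb' hc'
  unfold MP
  field_simp
  ring

/-! ### Bounds -/

/-- `|a| |c b' - b c'| ≤ 2 |b|^2 |c|` -/
theorem norm_key (a b c : ℂ) (h : a * b + b * c + c * a = 0) :
    ‖a‖ * ‖c * (starRingEnd ℂ) b - b * (starRingEnd ℂ) c‖ ≤ 2 * (‖b‖ ^ 2 * ‖c‖) := by
  have h1 : a * (b + c) = -(b * c) := by linear_combination h
  have h2 : ‖a‖ * ‖b + c‖ = ‖b‖ * ‖c‖ := by
    rw [← norm_mul, h1, norm_neg, norm_mul]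
  have h3 : c * (starRingEnd ℂ) b - b * (starRingEnd ℂ) c = (b + c) * (starRingEnd ℂ) b - b * (starRingEnd ℂ) (b + c) := by
    rw [map_add]
    ring
  rw [h3]
  calc ‖a‖ * ‖(b + c) * (starRingEnd ℂ) b - b * (starRingEnd ℂ) (b + c)‖
      ≤ ‖a‖ * (‖b + c‖ * ‖b‖ + ‖b‖ * ‖b + c‖) := by
        apply mul_le_mul_of_nonneg_left _ (norm_nonneg _)
        refine (norm_sub_le _ _).trans ?_
        rw [norm_mul, norm_mul, RCLike.norm_conj, RCLike.norm_conj]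
    _ = 2 * ((‖a‖ * ‖b + c‖) * ‖b‖) := by ring
    _ = 2 * (‖b‖ ^ 2 * ‖c‖) := by rw [h2]; ring

/-- the majorant -/
def BB (A B C : ℝ) : ℝ := A ^ 3 * B ^ 3 + B ^ 3 * C ^ 3 + C ^ 3 * A ^ 3

theorem mono321 {A B C : ℝ} (hA : 0 ≤ A) (hB : 0 ≤ B) (hC : 0 ≤ C) : A ^ 3 * (B ^ 2 * C) ≤ BB A B C := by
  have h1 := sq_mul_le hB hC
  have h2 : A ^ 3 * (B ^ 2 * C) ≤ A ^ 3 * (B ^ 3 + C ^ 3) := mul_le_mul_of_nonneg_left h1 (by positivity)
  unfold BB
  nlinarith [mul_nonneg (pow_nonneg hB 3) (pow_nonneg hC 3)]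

theorem BB_rot (A B C : ℝ) : BB B C A = BB A B C := by
  unfold BB
  ring

theorem BB_swap (A B C : ℝ) : BB A C B = BB A B C := by
  unfold BB
  ring

theorem mono222 {A B C : ℝ} (hA : 0 ≤ A) (hB : 0 ≤ B) (hC : 0 ≤ C) : A ^ 2 * (B ^ 2 * C ^ 2) ≤ BB A B C := by
  have e : A ^ 2 * (B ^ 2 * C ^ 2) = (A * B) * (B * C) * (C * A) := by ring
  have e2 : BB A B C = (A * B) ^ 3 + (B * C) ^ 3 + (C * A) ^ 3 := by
    unfold BB
    ring
  rw [e, e2]
  have p1 : 0 ≤ A * B := by positivity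
  have p2 : 0 ≤ B * C := by positivity
  have p3 : 0 ≤ C * A := by positivity
  nlinarith [mul_nonneg (add_nonneg (add_nonneg p1 p2) p3) (add_nonneg (add_nonneg (sq_nonneg (A * B - B * C))
    (sq_nonneg (B * C - C * A))) (sq_nonneg (C * A - A * B))), mul_nonneg (mul_nonneg p1 p2) p3]

/-- The triples: one of the entries vanishes, or the three points have sum zero. -/
def Good (a b c : ℂ) : Prop := (a = 0 ∨ b = 0 ∨ c = 0) ∨ a * b + b * c + c * a = 0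

theorem DelP_zero {a b c : ℂ} (h : a = 0 ∨ b = 0 ∨ c = 0) :
    DelP a b c ((starRingEnd ℂ) a) ((starRingEnd ℂ) b) ((starRingEnd ℂ) c) = 0 := by
  rcases h with h | h | h <;> simp [DelP, h]

theorem PP_zero {a b c : ℂ} (h : a = 0 ∨ b = 0 ∨ c = 0) :
    PP a b c ((starRingEnd ℂ) a) ((starRingEnd ℂ) b) ((starRingEnd ℂ) c) = 0 := by
  rcases h with h | h | h <;> simp [PP, h]

theorem MP_zero {a b c : ℂ} (h : a = 0 ∨ b = 0 ∨ c = 0) :
    MP a b c ((starRingEnd ℂ) a) ((starRingEnd ℂ) b) ((starRingEnd ℂ) c) = 0 := by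
  rcases h with h | h | h <;> simp [MP, h]

theorem NP_zero {a b c : ℂ} (h : a = 0 ∨ b = 0 ∨ c = 0) :
    NP a ((starRingEnd ℂ) b) ((starRingEnd ℂ) c) = 0 := by
  rcases h with h | h | h <;> simp [NP, h]

theorem NP_zero' {a b c : ℂ} (h : a = 0 ∨ b = 0 ∨ c = 0) :
    NP ((starRingEnd ℂ) a) b c = 0 := by
  rcases h with h | h | h <;> simp [NP, h]

theorem BB_nonneg {A B C : ℝ} (hA : 0 ≤ A) (hB : 0 ≤ B) (hC : 0 ≤ C) : 0 ≤ BB A B C := by
  unfold BB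
  positivity

/-- The monomials of type `(3, 2, 1)`, all six. -/
theorem mono_all {A B C : ℝ} (hA : 0 ≤ A) (hB : 0 ≤ B) (hC : 0 ≤ C) :
    A ^ 3 * (B ^ 2 * C) ≤ BB A B C ∧ A ^ 3 * (C ^ 2 * B) ≤ BB A B C ∧ B ^ 3 * (A ^ 2 * C) ≤ BB A B C ∧
      B ^ 3 * (C ^ 2 * A) ≤ BB A B C ∧ C ^ 3 * (A ^ 2 * B) ≤ BB A B C ∧ C ^ 3 * (B ^ 2 * A) ≤ BB A B C := by
  have e1 : BB A C B = BB A B C := by
    unfold BB
    ring
  have e2 : BB B A C = BB A B C := by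
    unfold BB
    ring
  have e3 : BB B C A = BB A B C := by
    unfold BB
    ring
  have e4 : BB C A B = BB A B C := by
    unfold BB
    ring
  have e5 : BB C B A = BB A B C := by
    unfold BB
    ring
  exact ⟨mono321 hA hB hC, e1 ▸ mono321 hA hC hB, e2 ▸ mono321 hB hA hC, e3 ▸ mono321 hB hC hA,
    e4 ▸ mono321 hC hA hB, e5 ▸ mono321 hC hB hA⟩

theorem norm_DelP_le {a b c : ℂ} (h : Good a b c) :
    ‖DelP a b c ((starRingEnd ℂ) a) ((starRingEnd ℂ) b) ((starRingEnd ℂ) c)‖ ≤ 6 * BB ‖a‖ ‖b‖ ‖c‖ := by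
  have hA := norm_nonneg a
  have hB := norm_nonneg b
  have hC := norm_nonneg c
  have h0 := BB_nonneg hA hB hC
  rcases h with h | h
  · rw [DelP_zero h, norm_zero]
    positivity
  obtain ⟨m1, m2, -, -, -, -⟩ := mono_all hA hB hC
  have hk := norm_key a b c h
  have e : DelP a b c ((starRingEnd ℂ) a) ((starRingEnd ℂ) b) ((starRingEnd ℂ) c)
      = 2 * (a ^ 2 * (starRingEnd ℂ) a) * (a * (c * (starRingEnd ℂ) b - b * (starRingEnd ℂ) c))
        - a ^ 2 * (starRingEnd ℂ) a * (c ^ 2 * (starRingEnd ℂ) b) + a ^ 2 * (starRingEnd ℂ) a * (b ^ 2 * (starRingEnd ℂ) c) := by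
    unfold DelP
    ring
  rw [e]
  have t1 : ‖2 * (a ^ 2 * (starRingEnd ℂ) a) * (a * (c * (starRingEnd ℂ) b - b * (starRingEnd ℂ) c))‖
      ≤ 2 * ‖a‖ ^ 3 * (2 * (‖b‖ ^ 2 * ‖c‖)) := by
    rw [norm_mul, norm_mul, norm_mul, norm_mul a, norm_pow, RCLike.norm_conj, norm_ofNat]
    have : 2 * (‖a‖ ^ 2 * ‖a‖) = 2 * ‖a‖ ^ 3 := by ring
    rw [this]
    exact mul_le_mul_of_nonneg_left hk (by positivity)
  have t2 : ‖a ^ 2 * (starRingEnd ℂ) a * (c ^ 2 * (starRingEnd ℂ) b)‖ = ‖a‖ ^ 3 * (‖c‖ ^ 2 * ‖b‖) := by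
    simp only [norm_mul, norm_pow, RCLike.norm_conj]
    ring
  have t3 : ‖a ^ 2 * (starRingEnd ℂ) a * (b ^ 2 * (starRingEnd ℂ) c)‖ = ‖a‖ ^ 3 * (‖b‖ ^ 2 * ‖c‖) := by
    simp only [norm_mul, norm_pow, RCLike.norm_conj]
    ring
  refine (norm_add_le _ _).trans ?_
  refine (add_le_add_left (norm_sub_le _ _) _).trans ?_
  rw [t2, t3]
  linarith

theorem norm_PP_le {a b c : ℂ} (h : Good a b c) :
    ‖PP a b c ((starRingEnd ℂ) a) ((starRingEnd ℂ) b) ((starRingEnd ℂ) c)‖ ≤ 28 * BB ‖a‖ ‖b‖ ‖c‖ := by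
  have hA := norm_nonneg a
  have hB := norm_nonneg b
  have hC := norm_nonneg c
  have h0 := BB_nonneg hA hB hC
  rcases h with h | h
  · rw [PP_zero h, norm_zero]
    positivity
  obtain ⟨m1, m2, m3, m4, m5, m6⟩ := mono_all hA hB hC
  have hk := norm_key a b c h
  have e : PP a b c ((starRingEnd ℂ) a) ((starRingEnd ℂ) b) ((starRingEnd ℂ) c)
      = 6 * a ^ 3 * (a * (c * (starRingEnd ℂ) b - b * (starRingEnd ℂ) c))
        + 4 * (a ^ 3 * (b ^ 2 * (starRingEnd ℂ) c)) - 2 * (b ^ 3 * (a ^ 2 * (starRingEnd ℂ) c))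
        - 2 * (b ^ 3 * (c ^ 2 * (starRingEnd ℂ) a)) + 2 * (c ^ 3 * (b ^ 2 * (starRingEnd ℂ) a))
        + 2 * (c ^ 3 * (a ^ 2 * (starRingEnd ℂ) b)) - 4 * (a ^ 3 * (c ^ 2 * (starRingEnd ℂ) b)) := by
    unfold PP
    ring
  rw [e]
  have t1 : ‖6 * a ^ 3 * (a * (c * (starRingEnd ℂ) b - b * (starRingEnd ℂ) c))‖
      ≤ 6 * ‖a‖ ^ 3 * (2 * (‖b‖ ^ 2 * ‖c‖)) := by
    rw [norm_mul, norm_mul, norm_mul a, norm_pow, norm_ofNat]
    exact mul_le_mul_of_nonneg_left hk (by positivity)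
  have t2 : ∀ x y z : ℂ, ‖4 * (x ^ 3 * (y ^ 2 * (starRingEnd ℂ) z))‖ = 4 * (‖x‖ ^ 3 * (‖y‖ ^ 2 * ‖z‖)) := by
    intro x y z
    simp only [norm_mul, norm_pow, RCLike.norm_conj, norm_ofNat]
  have t3 : ∀ x y z : ℂ, ‖2 * (x ^ 3 * (y ^ 2 * (starRingEnd ℂ) z))‖ = 2 * (‖x‖ ^ 3 * (‖y‖ ^ 2 * ‖z‖)) := by
    intro x y z
    simp only [norm_mul, norm_pow, RCLike.norm_conj, norm_ofNat]
  refine (norm_sub_le _ _).trans ?_
  refine (add_le_add_left (norm_add_le _ _) _).trans ?_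
  refine (add_le_add_left (add_le_add_left (norm_add_le _ _) _) _).trans ?_
  refine (add_le_add_left (add_le_add_left (add_le_add_left (norm_sub_le _ _) _) _) _).trans ?_
  refine (add_le_add_left (add_le_add_left (add_le_add_left (add_le_add_left (norm_sub_le _ _) _) _) _) _).trans ?_
  refine (add_le_add_left (add_le_add_left (add_le_add_left (add_le_add_left (add_le_add_left (norm_add_le _ _) _) _) _) _) _).trans ?_
  rw [t2, t2, t3, t3, t3, t3]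
  linarith

theorem norm_MP_le {a b c : ℂ} (h : Good a b c) :
    ‖MP a b c ((starRingEnd ℂ) a) ((starRingEnd ℂ) b) ((starRingEnd ℂ) c)‖ ≤ 10 * BB ‖a‖ ‖b‖ ‖c‖ := by
  have hA := norm_nonneg a
  have hB := norm_nonneg b
  have hC := norm_nonneg c
  have h0 := BB_nonneg hA hB hC
  rcases h with h | h
  · rw [MP_zero h, norm_zero]
    positivity
  obtain ⟨m1, m2, m3, m4, m5, m6⟩ := mono_all hA hB hC
  have m7 := mono222 hA hB hC
  have hk := norm_key a b c h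
  set a' := (starRingEnd ℂ) a with ha'
  set b' := (starRingEnd ℂ) b with hb'
  set c' := (starRingEnd ℂ) c with hc'
  have na : ‖a'‖ = ‖a‖ := RCLike.norm_conj _
  have nb : ‖b'‖ = ‖b‖ := RCLike.norm_conj _
  have nc : ‖c'‖ = ‖c‖ := RCLike.norm_conj _
  have e : MP a b c a' b' c'
      = 2 * a * a' ^ 2 * (a * (c * b' - b * c')) - a * a' ^ 2 * c ^ 2 * b' + a * a' ^ 2 * b ^ 2 * c'
        - a ^ 2 * a' * c * b' ^ 2 + a ^ 2 * a' * b * c' ^ 2 + a * a' * c ^ 2 * b' ^ 2 - a * a' * b ^ 2 * c' ^ 2 := by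
    unfold MP
    ring
  rw [e]
  have t1 : ‖2 * a * a' ^ 2 * (a * (c * b' - b * c'))‖ ≤ 2 * ‖a‖ ^ 3 * (2 * (‖b‖ ^ 2 * ‖c‖)) := by
    rw [norm_mul, norm_mul, norm_mul, norm_mul a, norm_pow, na, norm_ofNat]
    have : 2 * ‖a‖ * ‖a‖ ^ 2 = 2 * ‖a‖ ^ 3 := by ring
    rw [this]
    exact mul_le_mul_of_nonneg_left hk (by positivity)
  have t2 : ‖a * a' ^ 2 * c ^ 2 * b'‖ = ‖a‖ ^ 3 * (‖c‖ ^ 2 * ‖b‖) := by
    simp only [norm_mul, norm_pow, na, nb]
    ring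
  have t3 : ‖a * a' ^ 2 * b ^ 2 * c'‖ = ‖a‖ ^ 3 * (‖b‖ ^ 2 * ‖c‖) := by
    simp only [norm_mul, norm_pow, na, nc]
    ring
  have t4 : ‖a ^ 2 * a' * c * b' ^ 2‖ = ‖a‖ ^ 3 * (‖b‖ ^ 2 * ‖c‖) := by
    simp only [norm_mul, norm_pow, na, nb]
    ring
  have t5 : ‖a ^ 2 * a' * b * c' ^ 2‖ = ‖a‖ ^ 3 * (‖c‖ ^ 2 * ‖b‖) := by
    simp only [norm_mul, norm_pow, na, nc]
    ring
  have t6 : ‖a * a' * c ^ 2 * b' ^ 2‖ = ‖a‖ ^ 2 * (‖b‖ ^ 2 * ‖c‖ ^ 2) := by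
    simp only [norm_mul, norm_pow, na, nb]
    ring
  have t7 : ‖a * a' * b ^ 2 * c' ^ 2‖ = ‖a‖ ^ 2 * (‖b‖ ^ 2 * ‖c‖ ^ 2) := by
    simp only [norm_mul, norm_pow, na, nc]
    ring
  refine (norm_sub_le _ _).trans ?_
  refine (add_le_add_left (norm_add_le _ _) _).trans ?_
  refine (add_le_add_left (add_le_add_left (norm_add_le _ _) _) _).trans ?_
  refine (add_le_add_left (add_le_add_left (add_le_add_left (norm_sub_le _ _) _) _) _).trans ?_
  refine (add_le_add_left (add_le_add_left (add_le_add_left (add_le_add_left (norm_add_le _ _) _) _) _) _).trans ?_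
  refine (add_le_add_left (add_le_add_left (add_le_add_left (add_le_add_left (add_le_add_left (norm_sub_le _ _) _) _) _) _) _).trans ?_
  rw [t2, t3, t4, t5, t6, t7]
  linarith

theorem norm_NP_le {a b c : ℂ} :
    ‖NP a ((starRingEnd ℂ) b) ((starRingEnd ℂ) c)‖ ≤ 4 * BB ‖a‖ ‖b‖ ‖c‖ := by
  have hA := norm_nonneg a
  have hB := norm_nonneg b
  have hC := norm_nonneg c
  obtain ⟨m1, m2, -, -, -, -⟩ := mono_all hA hB hC
  have e : NP a ((starRingEnd ℂ) b) ((starRingEnd ℂ) c)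
      = 2 * (a ^ 3 * ((starRingEnd ℂ) b ^ 2 * (starRingEnd ℂ) c)) - 2 * (a ^ 3 * ((starRingEnd ℂ) c ^ 2 * (starRingEnd ℂ) b)) := by
    unfold NP
    ring
  rw [e]
  refine (norm_sub_le _ _).trans ?_
  have t3 : ∀ x y z : ℂ, ‖2 * (x ^ 3 * ((starRingEnd ℂ) y ^ 2 * (starRingEnd ℂ) z))‖ = 2 * (‖x‖ ^ 3 * (‖y‖ ^ 2 * ‖z‖)) := by
    intro x y z
    simp only [norm_mul, norm_pow, RCLike.norm_conj, norm_ofNat]
  rw [t3, t3]
  linarith

/-! ### The derivative of the summand -/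

theorem Del_eq (a b c : ℂ) : Del a b c = DelP a b c ((starRingEnd ℂ) a) ((starRingEnd ℂ) b) ((starRingEnd ℂ) c) := rfl

theorem good_av {y : ℝ} (hy : 0 < y) (r : (ℤ × ℤ) × (ℤ × ℤ)) : Good (av y r.2) (av y (thd r)) (av y r.1) := by
  by_cases h2 : r.2 = 0
  · exact Or.inl (Or.inl (by rw [h2, av_zero]))
  by_cases h3 : thd r = 0
  · exact Or.inl (Or.inr (Or.inl (by rw [h3, av_zero])))
  by_cases h1 : r.1 = 0
  · exact Or.inl (Or.inr (Or.inr (by rw [h1, av_zero])))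
  right
  have e1 := lam_ne_zero hy h1
  have e2 := lam_ne_zero hy h2
  have e3 := lam_ne_zero hy h3
  have e : lam y (thd r) = -lam y r.1 - lam y r.2 := by
    show lam y (-r.1 - r.2) = _
    rw [lam_sub, lam_neg]
  unfold av
  rw [e] at e3 ⊢
  field_simp
  ring

/-- `D` along the line -/
noncomputable def DD (y : ℝ) (r : (ℤ × ℤ) × (ℤ × ℤ)) : ℂ := Del (av y r.2) (av y (thd r)) (av y r.1)

noncomputable def P1 (y : ℝ) (r : (ℤ × ℤ) × (ℤ × ℤ)) : ℂ :=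
  PP (av y r.2) (av y (thd r)) (av y r.1) ((starRingEnd ℂ) (av y r.2)) ((starRingEnd ℂ) (av y (thd r)))
    ((starRingEnd ℂ) (av y r.1))

noncomputable def M1 (y : ℝ) (r : (ℤ × ℤ) × (ℤ × ℤ)) : ℂ :=
  MP (av y r.2) (av y (thd r)) (av y r.1) ((starRingEnd ℂ) (av y r.2)) ((starRingEnd ℂ) (av y (thd r)))
    ((starRingEnd ℂ) (av y r.1))

noncomputable def N1 (y : ℝ) (r : (ℤ × ℤ) × (ℤ × ℤ)) : ℂ :=
  NP (av y r.2) ((starRingEnd ℂ) (av y (thd r))) ((starRingEnd ℂ) (av y r.1))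

theorem BB_eq (y : ℝ) (r : (ℤ × ℤ) × (ℤ × ℤ)) : BB ‖av y r.2‖ ‖av y (thd r)‖ ‖av y r.1‖ = B3 y r := by
  unfold BB B3
  ring

theorem norm_DD_le {y : ℝ} (hy : 0 < y) (r : (ℤ × ℤ) × (ℤ × ℤ)) : ‖DD y r‖ ≤ 6 * B3 y r := by
  rw [← BB_eq]
  exact norm_DelP_le (good_av hy r)

theorem norm_P1_le {y : ℝ} (hy : 0 < y) (r : (ℤ × ℤ) × (ℤ × ℤ)) : ‖P1 y r‖ ≤ 28 * B3 y r := by
  rw [← BB_eq]
  exact norm_PP_le (good_av hy r)

theorem norm_M1_le {y : ℝ} (hy : 0 < y) (r : (ℤ × ℤ) × (ℤ × ℤ)) : ‖M1 y r‖ ≤ 10 * B3 y r := by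
  rw [← BB_eq]
  exact norm_MP_le (good_av hy r)

theorem norm_N1_le (y : ℝ) (r : (ℤ × ℤ) × (ℤ × ℤ)) : ‖N1 y r‖ ≤ 4 * B3 y r := by
  rw [← BB_eq]
  exact norm_NP_le

theorem lam_sub_conj (y : ℝ) (p : ℤ × ℤ) :
    lam y p - (starRingEnd ℂ) (lam y p) = 2 * (y : ℂ) * (I * (p.1 : ℂ)) := by
  rw [sub_conj, lam_im]
  push_cast
  ring

theorem hasDerivAt_DD {y : ℝ} (hy : 0 < y) (r : (ℤ × ℤ) × (ℤ × ℤ)) :
    HasDerivAt (fun x => DD x r) ((P1 y r + M1 y r + N1 y r - 6 * DD y r) / (2 * y)) y := by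
  by_cases hd : r.2 = 0 ∨ thd r = 0 ∨ r.1 = 0
  · have h0 : ∀ x : ℝ, av x r.2 = 0 ∨ av x (thd r) = 0 ∨ av x r.1 = 0 := by
      intro x
      rcases hd with h | h | h
      · exact Or.inl (by rw [h, av_zero])
      · exact Or.inr (Or.inl (by rw [h, av_zero]))
      · exact Or.inr (Or.inr (by rw [h, av_zero]))
    have e1 : (fun x => DD x r) = fun _ => (0 : ℂ) := by
      funext x
      exact DelP_zero (h0 x)
    have e2 : DD y r = 0 := DelP_zero (h0 y)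
    have e3 : P1 y r = 0 := PP_zero (h0 y)
    have e4 : M1 y r = 0 := MP_zero (h0 y)
    have e5 : N1 y r = 0 := NP_zero (h0 y)
    rw [e1, e2, e3, e4, e5]
    simpa using hasDerivAt_const y (0 : ℂ)
  push Not at hd
  obtain ⟨h2, h3, h1⟩ := hd
  have n1 := lam_ne_zero hy h1
  have n2 := lam_ne_zero hy h2
  have n3 := lam_ne_zero hy h3
  have ha := hasDerivAt_av hy r.2
  have hb := hasDerivAt_av hy (thd r)
  have hc := hasDerivAt_av hy r.1
  have ha' := hasDerivAt_conj_av hy r.2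
  have hb' := hasDerivAt_conj_av hy (thd r)
  have hc' := hasDerivAt_conj_av hy r.1
  have hder := ((((ha.pow 3).const_mul 2).mul ha').mul ((hc.mul hb').sub (hb.mul hc'))).sub
    (((ha.pow 2).mul ha').mul (((hc.pow 2).mul hb').sub ((hb.pow 2).mul hc')))
  have el : lam y r.1 = -lam y r.2 - lam y (thd r) := by
    show _ = -lam y r.2 - lam y (-r.1 - r.2)
    rw [lam_sub, lam_neg]
    ring
  have key := alg_deriv (lam y r.2) (lam y (thd r)) ((starRingEnd ℂ) (lam y r.2)) ((starRingEnd ℂ) (lam y (thd r)))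
    n2 n3 (by intro h; apply n1; rw [el]; linear_combination -h)
    (by rwa [Ne, map_eq_zero]) (by rwa [Ne, map_eq_zero])
    (by intro h; rw [← map_add, map_eq_zero] at h; apply n1; rw [el]; linear_combination -h)
    (av y r.2) (av y (thd r)) (av y r.1) ((starRingEnd ℂ) (av y r.2)) ((starRingEnd ℂ) (av y (thd r)))
    ((starRingEnd ℂ) (av y r.1)) rfl rfl (by rw [← el]; rfl) (by rw [← map_inv₀]; rfl) (by rw [← map_inv₀]; rfl)
    (by rw [← map_neg, ← map_sub, ← el, ← map_inv₀]; rfl)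
  have k1 := lam_sub_conj y r.2
  have k2 := lam_sub_conj y (thd r)
  have k3 := lam_sub_conj y r.1
  have k3' : -lam y r.2 - lam y (thd r) - (-(starRingEnd ℂ) (lam y r.2) - (starRingEnd ℂ) (lam y (thd r)))
      = 2 * (y : ℂ) * (I * (r.1.1 : ℂ)) := by
    rw [← k3, el, map_sub, map_neg]
  rw [k1, k2, k3'] at key
  have hy0 : (2 * (y : ℂ)) ≠ 0 := by
    have : (y : ℂ) ≠ 0 := by exact_mod_cast hy.ne'
    exact mul_ne_zero two_ne_zero this
  refine (hder.congr_deriv ?_)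
  rw [eq_div_iff hy0]
  unfold P1 M1 N1 DD
  rw [Del_eq, ← key]
  simp only [Pi.mul_apply, Pi.sub_apply, Pi.pow_apply]
  ring

/-! ### The derivative of the weighted sum -/

theorem hasDerivAt_sum_DD {y : ℝ} (hy : 0 < y) (w : (ℤ × ℤ) × (ℤ × ℤ) → ℂ) (W : ℝ) (hw : ∀ r, ‖w r‖ ≤ W) :
    HasDerivAt (fun x => ∑' r, w r * DD x r)
      (∑' r, w r * ((P1 y r + M1 y r + N1 y r - 6 * DD y r) / (2 * y))) y := by
  have hW : 0 ≤ W := (norm_nonneg _).trans (hw 0)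
  refine hasDerivAt_tsum_double hy (39 * W) (by positivity) (fun x hx r => (hasDerivAt_DD hx r).const_mul _)
    (fun x hx r => ?_) (fun x hx r => ?_)
  · rw [norm_mul]
    have h0 := B3_nonneg x r
    calc ‖w r‖ * ‖DD x r‖ ≤ W * (6 * B3 x r) := mul_le_mul (hw r) (norm_DD_le hx r) (norm_nonneg _) hW
      _ ≤ 39 * W * B3 x r := by nlinarith [mul_nonneg hW h0]
  · rw [norm_mul, norm_div]
    have h0 := B3_nonneg x r
    have h1 : ‖P1 x r + M1 x r + N1 x r - 6 * DD x r‖ ≤ 78 * B3 x r := by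
      refine (norm_sub_le _ _).trans ?_
      have e1 : ‖P1 x r + M1 x r + N1 x r‖ ≤ 42 * B3 x r := by
        refine (norm_add_le _ _).trans ?_
        refine (add_le_add_left (norm_add_le _ _) _).trans ?_
        have := norm_P1_le hx r
        have := norm_M1_le hx r
        have := norm_N1_le x r
        linarith
      have e2 : ‖6 * DD x r‖ ≤ 36 * B3 x r := by
        rw [norm_mul, norm_ofNat]
        have := norm_DD_le hx r
        linarith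
      linarith
    have h2 : ‖(2 * (x : ℂ))‖ = 2 * x := by
      rw [norm_mul, norm_ofNat, norm_real, Real.norm_of_nonneg hx.le]
    rw [h2]
    calc ‖w r‖ * (‖P1 x r + M1 x r + N1 x r - 6 * DD x r‖ / (2 * x)) ≤ W * (78 * B3 x r / (2 * x)) :=
          mul_le_mul (hw r) (by gcongr) (by positivity) hW
      _ = 39 * W / x * B3 x r := by
          field_simp
          ring

/-- The line symmetry. -/
def sg : ℤ × ℤ ≃ ℤ × ℤ where
  toFun p := (-p.1, p.1 + p.2)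
  invFun p := (-p.1, p.1 + p.2)
  left_inv p := by
    refine Prod.ext ?_ ?_
    · show - -p.1 = p.1
      ring
    · show -p.1 + (p.1 + p.2) = p.2
      ring
  right_inv p := by
    refine Prod.ext ?_ ?_
    · show - -p.1 = p.1
      ring
    · show -p.1 + (p.1 + p.2) = p.2
      ring

theorem sg_apply (p : ℤ × ℤ) : sg p = (-p.1, p.1 + p.2) := rfl

theorem lam_sg (y : ℝ) (p : ℤ × ℤ) : lam y (sg p) = (starRingEnd ℂ) (lam y p) := by
  apply Complex.ext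
  · rw [conj_re, lam_re, lam_re, sg_apply]
    push_cast
    ring
  · rw [conj_im, lam_im, lam_im, sg_apply]
    push_cast
    ring

theorem av_sg (y : ℝ) (p : ℤ × ℤ) : av y (sg p) = (starRingEnd ℂ) (av y p) := by
  unfold av
  rw [lam_sg, map_inv₀]

/-- The line symmetry on pairs. -/
def sg2 : (ℤ × ℤ) × (ℤ × ℤ) ≃ (ℤ × ℤ) × (ℤ × ℤ) := Equiv.prodCongr sg sg

theorem sg2_fst (r : (ℤ × ℤ) × (ℤ × ℤ)) : (sg2 r).1 = sg r.1 := rfl

theorem sg2_snd (r : (ℤ × ℤ) × (ℤ × ℤ)) : (sg2 r).2 = sg r.2 := rfl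

theorem thd_sg2 (r : (ℤ × ℤ) × (ℤ × ℤ)) : thd (sg2 r) = sg (thd r) := by
  show -sg r.1 - sg r.2 = sg (-r.1 - r.2)
  simp only [sg_apply]
  refine Prod.ext ?_ ?_
  · show - -r.1.1 - -r.2.1 = -(-r.1.1 - r.2.1)
    ring
  · show -(r.1.1 + r.1.2) - (r.2.1 + r.2.2) = (-r.1.1 - r.2.1) + (-r.1.2 - r.2.2)
    ring

/-- The conjugate of the rest. -/
noncomputable def N2 (y : ℝ) (r : (ℤ × ℤ) × (ℤ × ℤ)) : ℂ :=
  NP ((starRingEnd ℂ) (av y r.2)) (av y (thd r)) (av y r.1)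

theorem N1_sg (y : ℝ) (r : (ℤ × ℤ) × (ℤ × ℤ)) : N1 y (sg2 r) = N2 y r := by
  unfold N1 N2
  rw [sg2_fst, sg2_snd, thd_sg2, av_sg, av_sg, av_sg, conj_conj, conj_conj]

theorem M1_sg {y : ℝ} (hy : 0 < y) (r : (ℤ × ℤ) × (ℤ × ℤ)) : M1 y (sg2 r) = -M1 y r := by
  by_cases hd : r.2 = 0 ∨ thd r = 0 ∨ r.1 = 0
  · have h0 : av y r.2 = 0 ∨ av y (thd r) = 0 ∨ av y r.1 = 0 := by
      rcases hd with h | h | h
      · exact Or.inl (by rw [h, av_zero])
      · exact Or.inr (Or.inl (by rw [h, av_zero]))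
      · exact Or.inr (Or.inr (by rw [h, av_zero]))
    have h0' : av y (sg2 r).2 = 0 ∨ av y (thd (sg2 r)) = 0 ∨ av y (sg2 r).1 = 0 := by
      rw [sg2_fst, sg2_snd, thd_sg2, av_sg, av_sg, av_sg, map_eq_zero, map_eq_zero, map_eq_zero]
      exact h0
    have e4 : M1 y r = 0 := MP_zero h0
    have e5 : M1 y (sg2 r) = 0 := MP_zero h0'
    rw [e4, e5, neg_zero]
  push Not at hd
  obtain ⟨h2, h3, h1⟩ := hd
  have n1 := lam_ne_zero hy h1
  have n2 := lam_ne_zero hy h2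
  have n3 := lam_ne_zero hy h3
  have el : lam y r.1 = -lam y r.2 - lam y (thd r) := by
    show _ = -lam y r.2 - lam y (-r.1 - r.2)
    rw [lam_sub, lam_neg]
    ring
  have key := alg_anti (lam y r.2) (lam y (thd r)) ((starRingEnd ℂ) (lam y r.2)) ((starRingEnd ℂ) (lam y (thd r)))
    n2 n3 (by intro h; apply n1; rw [el]; linear_combination -h)
    (by rwa [Ne, map_eq_zero]) (by rwa [Ne, map_eq_zero])
    (by intro h; rw [← map_add, map_eq_zero] at h; apply n1; rw [el]; linear_combination -h)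
    (av y r.2) (av y (thd r)) (av y r.1) ((starRingEnd ℂ) (av y r.2)) ((starRingEnd ℂ) (av y (thd r)))
    ((starRingEnd ℂ) (av y r.1)) rfl rfl (by rw [← el]; rfl) (by rw [← map_inv₀]; rfl) (by rw [← map_inv₀]; rfl)
    (by rw [← map_neg, ← map_sub, ← el, ← map_inv₀]; rfl)
  unfold M1
  rw [sg2_fst, sg2_snd, thd_sg2, av_sg, av_sg, av_sg, conj_conj, conj_conj, conj_conj]
  linear_combination key

theorem norm_N2_le (y : ℝ) (r : (ℤ × ℤ) × (ℤ × ℤ)) : ‖N2 y r‖ ≤ 4 * B3 y r := by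
  have h := @norm_NP_le ((starRingEnd ℂ) (av y r.2)) ((starRingEnd ℂ) (av y (thd r))) ((starRingEnd ℂ) (av y r.1))
  rw [conj_conj, conj_conj, RCLike.norm_conj, RCLike.norm_conj, RCLike.norm_conj, BB_eq] at h
  exact h

theorem H2_eq (y : ℝ) (r : (ℤ × ℤ) × (ℤ × ℤ)) : H2 (av y r.1) (av y r.2) (av y (thd r)) = P1 y r + N2 y r := by
  unfold H2 P1 N2 PP NP
  ring

/-- The derivative of `y^3 ∑ w D` along the line for weights invariant under the line symmetry. -/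
theorem hasDerivAt_main {y : ℝ} (hy : 0 < y) (w : (ℤ × ℤ) × (ℤ × ℤ) → ℂ) (W : ℝ) (hw : ∀ r, ‖w r‖ ≤ W)
    (hs : ∀ r, w (sg2 r) = w r) :
    HasDerivAt (fun x : ℝ => (x : ℂ) ^ 3 * ∑' r, w r * DD x r)
      ((y : ℂ) ^ 2 / 2 * ∑' r, w r * H2 (av y r.1) (av y r.2) (av y (thd r))) y := by
  have hW : 0 ≤ W := (norm_nonneg _).trans (hw 0)
  have hb : ∀ (F : (ℤ × ℤ) × (ℤ × ℤ) → ℂ) (C : ℝ), (∀ r, ‖F r‖ ≤ C * B3 y r) → Summable fun r => w r * F r := by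
    intro F C hF
    refine summable_double hy (W * C) fun r => ?_
    rw [norm_mul, mul_assoc]
    exact mul_le_mul (hw r) (hF r) (norm_nonneg _) hW
  have sD := hb _ _ (norm_DD_le hy)
  have sP := hb _ _ (norm_P1_le hy)
  have sM := hb _ _ (norm_M1_le hy)
  have sN := hb _ _ (norm_N1_le y)
  have sN2 := hb _ _ (norm_N2_le y)
  have hM : ∑' r, w r * M1 y r = 0 := by
    have h1 : ∑' r, w r * M1 y r = ∑' r, w (sg2 r) * M1 y (sg2 r) :=
      (sg2.tsum_eq fun r => w r * M1 y r).symm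
    have h2 : ∑' r, w (sg2 r) * M1 y (sg2 r) = -∑' r, w r * M1 y r := by
      rw [← tsum_neg]
      refine tsum_congr fun r => ?_
      rw [hs, M1_sg hy]
      ring
    rw [h2] at h1
    have h3 : (2 : ℂ) * ∑' r, w r * M1 y r = 0 := by linear_combination h1
    simpa using h3
  have hN : ∑' r, w r * N1 y r = ∑' r, w r * N2 y r := by
    have h1 : ∑' r, w r * N1 y r = ∑' r, w (sg2 r) * N1 y (sg2 r) :=
      (sg2.tsum_eq fun r => w r * N1 y r).symm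
    rw [h1]
    refine tsum_congr fun r => ?_
    rw [hs, N1_sg]
  have hy0 : (y : ℂ) ≠ 0 := by exact_mod_cast hy.ne'
  have e1 : ∑' r, w r * ((P1 y r + M1 y r + N1 y r - 6 * DD y r) / (2 * y))
      = (∑' r, w r * P1 y r + ∑' r, w r * N2 y r - 6 * ∑' r, w r * DD y r) / (2 * y) := by
    have e : ∀ r, w r * ((P1 y r + M1 y r + N1 y r - 6 * DD y r) / (2 * y))
        = (w r * P1 y r + w r * M1 y r + w r * N1 y r - 6 * (w r * DD y r)) * (2 * (y : ℂ))⁻¹ := by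
      intro r
      rw [div_eq_mul_inv]
      ring
    rw [tsum_congr e, tsum_mul_right, ((sP.add sM).add sN).tsum_sub (sD.mul_left 6), (sP.add sM).tsum_add sN,
      sP.tsum_add sM, tsum_mul_left, hM, hN, add_zero, div_eq_mul_inv]
  have e2 : ∑' r, w r * H2 (av y r.1) (av y r.2) (av y (thd r)) = ∑' r, w r * P1 y r + ∑' r, w r * N2 y r := by
    rw [← sP.tsum_add sN2]
    refine tsum_congr fun r => ?_
    rw [H2_eq]
    ring
  have hd := hasDerivAt_sum_DD hy w W hw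
  have hp : HasDerivAt (fun x : ℝ => (x : ℂ) ^ 3) (3 * (y : ℂ) ^ 2) y := by
    have h1 : HasDerivAt (fun x : ℝ => (x : ℂ)) 1 y := Complex.ofRealCLM.hasDerivAt
    have h2 := h1.pow 3
    exact h2.congr_deriv (by norm_num)
  refine (hp.mul hd).congr_deriv ?_
  rw [e1, e2]
  field_simp
  ring

end LDer

end Pool.Agent.Lib.BM
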