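import Mathlib

set_option autoImplicit false

/-! Project BM, block (M): Lambert series, basic facts. -/

namespace Pool.Agent.Lib.BM

open Finset

noncomputable section

/-- The Lambert weights `u n = q ^ n / (1 - q ^ n)`. -/
def u (q : ℂ) (n : ℕ) : ℂ := q ^ n / (1 - q ^ n)

namespace LamAux

theorem one_sub_ne {q : ℂ} (hq : ‖q‖ < 1) {n : ℕ} (hn : n ≠ 0) : 1 - q ^ n ≠ 0 := by
  intro h
  have h1 : q ^ n = 1 := (sub_eq_zero.mp h).symm
  have h2 : ‖q ^ n‖ < 1 := by rw [norm_pow]; exact pow_lt_one₀ (norm_nonneg _) hq hn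
  rw [h1] at h2; simp at h2

theorem u_mul {q : ℂ} (hq : ‖q‖ < 1) {m n : ℕ} (hm : m ≠ 0) (hn : n ≠ 0) :
    u q m * u q n = u q (m + n) * (1 + u q m + u q n) := by
  have h1 := one_sub_ne hq hm
  have h2 := one_sub_ne hq hn
  have h3 := one_sub_ne hq (n := m + n) (by omega)
  unfold u
  rw [pow_add] at h3 ⊢
  field_simp
  ring

theorem u_sub {q : ℂ} (hq : ‖q‖ < 1) {k n : ℕ} (hk : k ≠ 0) (hn : n ≠ 0) :
    u q n * u q (n + k) = u q k * (u q n - u q (n + k)) - u q (n + k) := by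
  have h := u_mul hq hn hk
  linear_combination (-1 : ℂ) * h

theorem norm_one_sub_ge {q : ℂ} (hq : ‖q‖ < 1) {n : ℕ} (hn : n ≠ 0) : 1 - ‖q‖ ≤ ‖1 - q ^ n‖ := by
  have h1 : ‖q ^ n‖ ≤ ‖q‖ := by
    rw [norm_pow]
    exact pow_le_of_le_one (norm_nonneg _) hq.le hn
  have h2 : ‖(1:ℂ)‖ - ‖q ^ n‖ ≤ ‖1 - q ^ n‖ := norm_sub_norm_le _ _
  rw [norm_one] at h2
  linarith

theorem norm_u_le {q : ℂ} (hq : ‖q‖ < 1) (n : ℕ) : ‖u q n‖ ≤ (1 - ‖q‖)⁻¹ * ‖q‖ ^ n := by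
  have h0 : 0 < 1 - ‖q‖ := by linarith
  rcases eq_or_ne n 0 with rfl | hn
  · have h1 : u q 0 = 0 := by simp [u]
    rw [h1, norm_zero]; positivity
  · unfold u
    rw [norm_div, norm_pow, div_eq_inv_mul]
    gcongr
    exact norm_one_sub_ge hq hn

/-- polynomial growth times a geometric bound is summable -/
theorem summable_poly {r : ℝ} (h0 : 0 ≤ r) (h1 : r < 1) (k : ℕ) :
    Summable fun n : ℕ => ((n : ℝ) + 1) ^ k * r ^ n := by
  have h2 : ‖r‖ < 1 := by rwa [Real.norm_of_nonneg h0]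
  have h := summable_norm_pow_mul_geometric_of_norm_lt_one k h2
  rcases eq_or_lt_of_le h0 with h3 | h3
  · subst h3
    apply summable_of_ne_finset_zero (s := {0})
    intro b hb
    simp at hb
    simp [hb]
  · have h4 := (summable_nat_add_iff 1).mpr h
    have h5 := h4.mul_left (r⁻¹)
    refine h5.congr ?_
    intro n
    rw [norm_mul, norm_pow, norm_pow, Real.norm_of_nonneg h0]
    push_cast
    rw [Real.norm_of_nonneg (by positivity), pow_succ]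
    field_simp

/-- polynomial growth of a sequence -/
def PG (w : ℕ → ℂ) : Prop := ∃ (C : ℝ) (m : ℕ), 0 ≤ C ∧ ∀ n, ‖w n‖ ≤ C * ((n : ℝ) + 1) ^ m

/-- polynomial growth of a double sequence -/
def PG2 (w : ℕ → ℕ → ℂ) : Prop :=
  ∃ (C : ℝ) (m : ℕ), 0 ≤ C ∧ ∀ i j, ‖w i j‖ ≤ C * (((i : ℝ) + 1) * ((j : ℝ) + 1)) ^ m

theorem PG.add {v w : ℕ → ℂ} (hv : PG v) (hw : PG w) : PG fun n => v n + w n := by
  obtain ⟨C, m, hC, h⟩ := hv
  obtain ⟨D, l, hD, h'⟩ := hw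
  refine ⟨C + D, m + l, by positivity, fun n => ?_⟩
  have h1 : (1:ℝ) ≤ (n : ℝ) + 1 := by linarith [Nat.cast_nonneg (α := ℝ) n]
  have h2 : ((n : ℝ) + 1) ^ m ≤ ((n : ℝ) + 1) ^ (m + l) := pow_le_pow_right₀ h1 (by omega)
  have h3 : ((n : ℝ) + 1) ^ l ≤ ((n : ℝ) + 1) ^ (m + l) := pow_le_pow_right₀ h1 (by omega)
  calc ‖v n + w n‖ ≤ ‖v n‖ + ‖w n‖ := norm_add_le _ _
    _ ≤ C * ((n : ℝ) + 1) ^ m + D * ((n : ℝ) + 1) ^ l := add_le_add (h n) (h' n)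
    _ ≤ C * ((n : ℝ) + 1) ^ (m + l) + D * ((n : ℝ) + 1) ^ (m + l) := by gcongr
    _ = _ := by ring

theorem PG.mul {v w : ℕ → ℂ} (hv : PG v) (hw : PG w) : PG fun n => v n * w n := by
  obtain ⟨C, m, hC, h⟩ := hv
  obtain ⟨D, l, hD, h'⟩ := hw
  refine ⟨C * D, m + l, by positivity, fun n => ?_⟩
  calc ‖v n * w n‖ = ‖v n‖ * ‖w n‖ := norm_mul _ _
    _ ≤ (C * ((n : ℝ) + 1) ^ m) * (D * ((n : ℝ) + 1) ^ l) := by
        gcongr
        · exact h n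
        · exact h' n
    _ = _ := by rw [pow_add]; ring

theorem PG.const (c : ℂ) : PG fun _ => c :=
  ⟨‖c‖, 0, norm_nonneg _, fun n => by simp⟩

theorem PG.natCast : PG fun n => (n : ℂ) :=
  ⟨1, 1, zero_le_one, fun n => by simp⟩

theorem PG.of_bound {w : ℕ → ℂ} {C : ℝ} (h : ∀ n, ‖w n‖ ≤ C) : PG w :=
  ⟨C, 0, (norm_nonneg _).trans (h 0), fun n => by simpa using h n⟩

theorem PG.neg {v : ℕ → ℂ} (hv : PG v) : PG fun n => - v n := by
  obtain ⟨C, m, hC, h⟩ := hv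
  exact ⟨C, m, hC, fun n => by rw [norm_neg]; exact h n⟩

theorem PG.sub {v w : ℕ → ℂ} (hv : PG v) (hw : PG w) : PG fun n => v n - w n := by
  simpa [sub_eq_add_neg] using hv.add hw.neg

theorem PG2.add {v w : ℕ → ℕ → ℂ} (hv : PG2 v) (hw : PG2 w) : PG2 fun i j => v i j + w i j := by
  obtain ⟨C, m, hC, h⟩ := hv
  obtain ⟨D, l, hD, h'⟩ := hw
  refine ⟨C + D, m + l, by positivity, fun i j => ?_⟩
  have h1 : (1:ℝ) ≤ ((i : ℝ) + 1) * ((j : ℝ) + 1) := by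
    have h2 : (1:ℝ) ≤ (i : ℝ) + 1 := by linarith [Nat.cast_nonneg (α := ℝ) i]
    have h3 : (1:ℝ) ≤ (j : ℝ) + 1 := by linarith [Nat.cast_nonneg (α := ℝ) j]
    nlinarith
  have h2 := pow_le_pow_right₀ h1 (show m ≤ m + l by omega)
  have h3 := pow_le_pow_right₀ h1 (show l ≤ m + l by omega)
  calc ‖v i j + w i j‖ ≤ ‖v i j‖ + ‖w i j‖ := norm_add_le _ _
    _ ≤ _ := add_le_add (h i j) (h' i j)
    _ ≤ C * (((i : ℝ) + 1) * ((j : ℝ) + 1)) ^ (m + l)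
        + D * (((i : ℝ) + 1) * ((j : ℝ) + 1)) ^ (m + l) := by gcongr
    _ = _ := by ring

theorem PG2.mul {v w : ℕ → ℕ → ℂ} (hv : PG2 v) (hw : PG2 w) : PG2 fun i j => v i j * w i j := by
  obtain ⟨C, m, hC, h⟩ := hv
  obtain ⟨D, l, hD, h'⟩ := hw
  refine ⟨C * D, m + l, by positivity, fun i j => ?_⟩
  calc ‖v i j * w i j‖ = ‖v i j‖ * ‖w i j‖ := norm_mul _ _
    _ ≤ (C * (((i : ℝ) + 1) * ((j : ℝ) + 1)) ^ m) * (D * (((i : ℝ) + 1) * ((j : ℝ) + 1)) ^ l) := by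
        gcongr
        · exact h i j
        · exact h' i j
    _ = _ := by rw [pow_add]; ring

theorem PG2.fst {v : ℕ → ℂ} (hv : PG v) : PG2 fun i _ => v i := by
  obtain ⟨C, m, hC, h⟩ := hv
  refine ⟨C, m, hC, fun i j => (h i).trans ?_⟩
  gcongr
  have h3 : (0:ℝ) ≤ (j : ℝ) := Nat.cast_nonneg j
  nlinarith [Nat.cast_nonneg (α := ℝ) i]

theorem PG2.snd {v : ℕ → ℂ} (hv : PG v) : PG2 fun _ j => v j := by
  obtain ⟨C, m, hC, h⟩ := hv
  refine ⟨C, m, hC, fun i j => (h j).trans ?_⟩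
  gcongr
  have h3 : (0:ℝ) ≤ (i : ℝ) := Nat.cast_nonneg i
  nlinarith [Nat.cast_nonneg (α := ℝ) j]

theorem PG2.shift {v : ℕ → ℂ} (hv : PG v) : PG2 fun i j => v (i + j + 1) := by
  obtain ⟨C, m, hC, h⟩ := hv
  refine ⟨C * 2 ^ m, m, by positivity, fun i j => (h (i + j + 1)).trans ?_⟩
  rw [mul_assoc, ← mul_pow]
  gcongr
  push_cast
  nlinarith [Nat.cast_nonneg (α := ℝ) i, Nat.cast_nonneg (α := ℝ) j,
    mul_nonneg (Nat.cast_nonneg (α := ℝ) i) (Nat.cast_nonneg (α := ℝ) j)]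

theorem PG2.sub {v w : ℕ → ℕ → ℂ} (hv : PG2 v) (hw : PG2 w) : PG2 fun i j => v i j - w i j := by
  have h : PG2 fun i j => - w i j := by
    obtain ⟨C, m, hC, h⟩ := hw
    exact ⟨C, m, hC, fun i j => by rw [norm_neg]; exact h i j⟩
  simpa [sub_eq_add_neg] using hv.add h

theorem PG2.sum_range_succ {w : ℕ → ℕ → ℂ} (hw : PG2 w) :
    PG fun k => ∑ i ∈ range (k + 1), w k i := by
  obtain ⟨C, m, hC, h⟩ := hw
  refine ⟨C, 2 * m + 1, hC, fun k => ?_⟩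
  calc ‖∑ i ∈ range (k + 1), w k i‖ ≤ ∑ i ∈ range (k + 1), ‖w k i‖ := norm_sum_le _ _
    _ ≤ ∑ i ∈ range (k + 1), C * (((k : ℝ) + 1) * ((k : ℝ) + 1)) ^ m := by
        apply Finset.sum_le_sum
        intro i hi
        refine (h k i).trans ?_
        have h1 : (i : ℝ) ≤ k := by exact_mod_cast (Nat.lt_succ_iff.mp (Finset.mem_range.mp hi))
        gcongr
    _ = C * ((k : ℝ) + 1) ^ (2 * m + 1) := by
        rw [Finset.sum_const, card_range, nsmul_eq_mul, pow_succ, pow_mul, ← sq]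
        push_cast
        ring

theorem PG2.sum_range {w : ℕ → ℕ → ℂ} (hw : PG2 w) :
    PG fun k => ∑ i ∈ range k, w k i := by
  obtain ⟨C, m, hC, h⟩ := hw
  refine ⟨C, 2 * m + 1, hC, fun k => ?_⟩
  calc ‖∑ i ∈ range k, w k i‖ ≤ ∑ i ∈ range k, ‖w k i‖ := norm_sum_le _ _
    _ ≤ ∑ i ∈ range k, C * (((k : ℝ) + 1) * ((k : ℝ) + 1)) ^ m := by
        apply Finset.sum_le_sum
        intro i hi
        refine (h k i).trans ?_
        have h1 : (i : ℝ) ≤ k := by exact_mod_cast (Finset.mem_range.mp hi).le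
        gcongr
    _ ≤ C * ((k : ℝ) + 1) ^ (2 * m + 1) := by
        rw [Finset.sum_const, card_range, nsmul_eq_mul, pow_succ, pow_mul, ← sq]
        have h2 : (0:ℝ) ≤ C * (((k : ℝ) + 1) ^ 2) ^ m := by positivity
        nlinarith

theorem PG.summable {q : ℂ} (hq : ‖q‖ < 1) {w : ℕ → ℂ} (hw : PG w) :
    Summable fun n : ℕ => w n * u q (n + 1) := by
  obtain ⟨C, k, hC, hw⟩ := hw
  have h := summable_poly (norm_nonneg q) hq k
  refine Summable.of_norm (Summable.of_nonneg_of_le (fun _ => norm_nonneg _) (fun n => ?_)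
    (h.mul_left (C * ((1 - ‖q‖)⁻¹ * ‖q‖))))
  have h0 : 0 < 1 - ‖q‖ := by linarith
  rw [norm_mul]
  calc ‖w n‖ * ‖u q (n + 1)‖ ≤ (C * ((n : ℝ) + 1) ^ k) * ((1 - ‖q‖)⁻¹ * ‖q‖ ^ (n + 1)) := by
        gcongr
        · exact hw n
        · exact norm_u_le hq _
    _ = C * ((1 - ‖q‖)⁻¹ * ‖q‖) * (((n : ℝ) + 1) ^ k * ‖q‖ ^ n) := by rw [pow_succ]; ring

/-- double sums against `u (i + j + 2)` -/
theorem PG2.summable {q : ℂ} (hq : ‖q‖ < 1) {w : ℕ → ℕ → ℂ} (hw : PG2 w) :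
    Summable fun p : ℕ × ℕ => w p.1 p.2 * u q (p.1 + p.2 + 2) := by
  obtain ⟨C, a, hC, hw⟩ := hw
  have h1 := summable_poly (norm_nonneg q) hq a
  have h3 : Summable fun p : ℕ × ℕ =>
      (((p.1 : ℝ) + 1) ^ a * ‖q‖ ^ p.1) * (((p.2 : ℝ) + 1) ^ a * ‖q‖ ^ p.2) := by
    apply Summable.mul_of_nonneg h1 h1
    · intro n; positivity
    · intro n; positivity
  have h0 : 0 < 1 - ‖q‖ := by linarith
  refine Summable.of_norm (Summable.of_nonneg_of_le (fun _ => norm_nonneg _) (fun p => ?_)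
    (h3.mul_left (C * ((1 - ‖q‖)⁻¹ * ‖q‖ ^ 2))))
  rw [norm_mul]
  calc ‖w p.1 p.2‖ * ‖u q (p.1 + p.2 + 2)‖
      ≤ (C * (((p.1 : ℝ) + 1) * ((p.2 : ℝ) + 1)) ^ a) *
        ((1 - ‖q‖)⁻¹ * ‖q‖ ^ (p.1 + p.2 + 2)) := by
        gcongr
        · exact hw p.1 p.2
        · exact norm_u_le hq _
    _ = _ := by rw [pow_add, pow_add, mul_pow]; ring

/-- double sums against `u (i + 1) * u (j + 1)` -/
theorem PG2.summable_mul {q : ℂ} (hq : ‖q‖ < 1) {w : ℕ → ℕ → ℂ} (hw : PG2 w) :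
    Summable fun p : ℕ × ℕ => w p.1 p.2 * (u q (p.1 + 1) * u q (p.2 + 1)) := by
  obtain ⟨C, a, hC, hw⟩ := hw
  have h1 := summable_poly (norm_nonneg q) hq a
  have h3 : Summable fun p : ℕ × ℕ =>
      (((p.1 : ℝ) + 1) ^ a * ‖q‖ ^ p.1) * (((p.2 : ℝ) + 1) ^ a * ‖q‖ ^ p.2) := by
    apply Summable.mul_of_nonneg h1 h1
    · intro n; positivity
    · intro n; positivity
  have h0 : 0 < 1 - ‖q‖ := by linarith
  refine Summable.of_norm (Summable.of_nonneg_of_le (fun _ => norm_nonneg _) (fun p => ?_)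
    (h3.mul_left (C * ((1 - ‖q‖)⁻¹ ^ 2 * ‖q‖ ^ 2))))
  rw [norm_mul, norm_mul]
  calc ‖w p.1 p.2‖ * (‖u q (p.1 + 1)‖ * ‖u q (p.2 + 1)‖)
      ≤ (C * (((p.1 : ℝ) + 1) * ((p.2 : ℝ) + 1)) ^ a) *
        (((1 - ‖q‖)⁻¹ * ‖q‖ ^ (p.1 + 1)) * ((1 - ‖q‖)⁻¹ * ‖q‖ ^ (p.2 + 1))) := by
        gcongr
        · exact hw p.1 p.2
        · exact norm_u_le hq _
        · exact norm_u_le hq _
    _ = _ := by rw [pow_succ, pow_succ, mul_pow]; ring

theorem PG.u {q : ℂ} (hq : ‖q‖ < 1) : PG fun n => u q (n + 1) := by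
  have h0 : 0 < 1 - ‖q‖ := by linarith
  refine PG.of_bound (C := (1 - ‖q‖)⁻¹) fun n => (norm_u_le hq _).trans ?_
  have h1 : ‖q‖ ^ (n + 1) ≤ 1 := pow_le_one₀ (norm_nonneg _) hq.le
  have h2 : 0 ≤ (1 - ‖q‖)⁻¹ := by positivity
  nlinarith

/-- sum over pairs = sum over antidiagonals -/
theorem tsum_antidiag {F : ℕ × ℕ → ℂ} (hF : Summable F) :
    ∑' p, F p = ∑' n, ∑ p ∈ antidiagonal n, F p := by
  rw [← (Finset.HasAntidiagonal.sigmaAntidiagonalEquivProd (A := ℕ)).tsum_eq F]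
  have h1 : Summable (F ∘ (Finset.HasAntidiagonal.sigmaAntidiagonalEquivProd (A := ℕ))) :=
    (Equiv.summable_iff _).mpr hF
  conv_rhs => congr; ext; rw [← Finset.sum_finset_coe, ← tsum_fintype (L := .unconditional _)]
  exact h1.tsum_sigma' (fun b => (hasSum_fintype _).summable)

/-- the splitting of the pairs into the diagonal and the two triangles -/
def triEquiv : ℕ ⊕ ((ℕ × ℕ) ⊕ (ℕ × ℕ)) ≃ ℕ × ℕ where
  toFun := fun x => match x with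
    | Sum.inl i => (i, i)
    | Sum.inr (Sum.inl p) => (p.2, p.1 + p.2 + 1)
    | Sum.inr (Sum.inr p) => (p.1 + p.2 + 1, p.2)
  invFun := fun p => if p.1 = p.2 then Sum.inl p.1
    else if p.1 < p.2 then Sum.inr (Sum.inl (p.2 - p.1 - 1, p.1))
    else Sum.inr (Sum.inr (p.1 - p.2 - 1, p.2))
  left_inv := by
    rintro (i | ⟨a, b⟩ | ⟨a, b⟩)
    · simp
    · have h1 : b ≠ a + b + 1 := by omega
      have h2 : b < a + b + 1 := by omega
      simp [h1, h2]; omega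
    · have h1 : a + b + 1 ≠ b := by omega
      have h2 : ¬ a + b + 1 < b := by omega
      simp [h1, h2]; omega
  right_inv := by
    rintro ⟨a, b⟩
    by_cases h1 : a = b
    · simp [h1]
    · by_cases h2 : a < b
      · simp [h1, h2]; omega
      · simp [h1, h2]; omega

theorem tsum_tri {F : ℕ × ℕ → ℂ} (hF : Summable F) :
    ∑' p, F p = ∑' i, F (i, i) + (∑' p : ℕ × ℕ, F (p.2, p.1 + p.2 + 1) +
      ∑' p : ℕ × ℕ, F (p.1 + p.2 + 1, p.2)) := by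
  have h1 : Summable (F ∘ triEquiv) := (Equiv.summable_iff _).mpr hF
  have h2 : ∑' p, F p = ∑' x, (F ∘ triEquiv) x := (triEquiv.tsum_eq F).symm
  rw [h2]
  have h3 : Summable fun i => (F ∘ triEquiv) (Sum.inl i) :=
    h1.comp_injective Sum.inl_injective
  have h4 : Summable fun x => (F ∘ triEquiv) (Sum.inr x) :=
    h1.comp_injective Sum.inr_injective
  have h5 : Summable fun i => (F ∘ triEquiv) (Sum.inr (Sum.inl i)) :=
    h4.comp_injective Sum.inl_injective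
  have h6 : Summable fun i => (F ∘ triEquiv) (Sum.inr (Sum.inr i)) :=
    h4.comp_injective Sum.inr_injective
  have h8 : HasSum (fun x => (F ∘ triEquiv) (Sum.inr x))
      (∑' i, (F ∘ triEquiv) (Sum.inr (Sum.inl i)) + ∑' i, (F ∘ triEquiv) (Sum.inr (Sum.inr i))) :=
    HasSum.sum h5.hasSum h6.hasSum
  have h9 : HasSum (F ∘ triEquiv) (∑' i, (F ∘ triEquiv) (Sum.inl i) +
      (∑' i, (F ∘ triEquiv) (Sum.inr (Sum.inl i)) + ∑' i, (F ∘ triEquiv) (Sum.inr (Sum.inr i)))) :=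
    HasSum.sum h3.hasSum h8
  rw [h9.tsum_eq]
  rfl

end LamAux

end

end Pool.Agent.Lib.BM
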