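import Pool.Agent.Lib.BM.AB

set_option autoImplicit false

/-! Project BM, block B1: the boundary terms of the telescoping identity. -/

open MeasureTheory Set Filter Topology

namespace Pool.Agent.Lib.BM

/-! Generic growth of `telQ`. -/

theorem EB_telQ {g0 g1 m0 m1 m2 m3 m4 : ℝ → ℝ} {r c : ℝ}
    (h00 : EB c (fun t => m0 t * g0 (r * t))) (h01 : EB c (fun t => m0 t * g1 (r * t)))
    (h10 : EB c (fun t => m1 t * g0 (r * t))) (h11 : EB c (fun t => m1 t * g1 (r * t)))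
    (h20 : EB c (fun t => m2 t * g0 (r * t))) (h31 : EB c (fun t => m3 t * g1 (r * t)))
    (h40 : EB c (fun t => m4 t * g0 (r * t))) :
    EB c (telQ g0 g1 m0 m1 m2 m3 m4 r) := by
  have p0 : EB 0 (fun t : ℝ => -16 * t ^ 2 + 24 * t ^ 4 + 4 * r ^ 2 * t ^ 2
      - 16 * r ^ 2 * t ^ 4 + r ^ 4 * t ^ 4) :=
    (((((EB.pow_id 2).const_mul (-16)).add ((EB.pow_id 4).const_mul 24)).add
      ((EB.pow_id 2).const_mul (4 * r ^ 2))).sub ((EB.pow_id 4).const_mul (16 * r ^ 2))).add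
      ((EB.pow_id 4).const_mul (r ^ 4))
  have p1 : EB 0 (fun t : ℝ => -28 * t ^ 2 + 4 * r ^ 2 * t ^ 2) :=
    ((EB.pow_id 2).const_mul (-28)).add ((EB.pow_id 2).const_mul (4 * r ^ 2))
  have p2 : EB 0 (fun t : ℝ => 32 * t ^ 2 - 8 * r ^ 2 * t ^ 2) :=
    ((EB.pow_id 2).const_mul 32).sub ((EB.pow_id 2).const_mul (8 * r ^ 2))
  have p3 : EB 0 (fun t : ℝ => 40 * t ^ 2 - 4 * r ^ 2 * t ^ 2) :=
    ((EB.pow_id 2).const_mul 40).sub ((EB.pow_id 2).const_mul (4 * r ^ 2))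
  have p4 : EB 0 (fun t : ℝ => 12 * r ^ 2 * t ^ 2 - 48 * t ^ 2) :=
    ((EB.pow_id 2).const_mul (12 * r ^ 2)).sub ((EB.pow_id 2).const_mul 48)
  have q0 := (h00.mul p0).mono (le_of_eq (add_zero c).symm)
  have q1 := (h01.mul p1).mono (le_of_eq (add_zero c).symm)
  have q2 := (h10.mul p2).mono (le_of_eq (add_zero c).symm)
  have q3 := (h11.mul p3).mono (le_of_eq (add_zero c).symm)
  have q4 := (h20.mul p4).mono (le_of_eq (add_zero c).symm)
  exact (((((q0.add q1).add q2).add q3).add q4).sub (h31.const_mul 24)).add (h40.const_mul 24)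

/-- The part of `telQ` that vanishes at `0`. -/
noncomputable def telR (g0 g1 m0 m1 m2 : ℝ → ℝ) (r t : ℝ) : ℝ :=
  m0 t * g0 (r * t) * (-16 * t ^ 2 + 24 * t ^ 4 + 4 * r ^ 2 * t ^ 2 - 16 * r ^ 2 * t ^ 4
    + r ^ 4 * t ^ 4)
  + m0 t * g1 (r * t) * (-28 * t ^ 2 + 4 * r ^ 2 * t ^ 2)
  + m1 t * g0 (r * t) * (32 * t ^ 2 - 8 * r ^ 2 * t ^ 2)
  + m1 t * g1 (r * t) * (40 * t ^ 2 - 4 * r ^ 2 * t ^ 2)
  + m2 t * g0 (r * t) * (12 * r ^ 2 * t ^ 2 - 48 * t ^ 2)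

theorem telQ_eq (g0 g1 m0 m1 m2 m3 m4 : ℝ → ℝ) (r t : ℝ) :
    telQ g0 g1 m0 m1 m2 m3 m4 r t = telR g0 g1 m0 m1 m2 r t
      + 24 * (m4 t * g0 (r * t) - m3 t * g1 (r * t)) := by
  unfold telQ telR
  ring

theorem ZB_telR {g0 g1 m0 m1 m2 : ℝ → ℝ} {r c : ℝ}
    (h00 : ZB c (fun t => m0 t * g0 (r * t))) (h01 : ZB c (fun t => m0 t * g1 (r * t)))
    (h10 : ZB c (fun t => m1 t * g0 (r * t))) (h11 : ZB c (fun t => m1 t * g1 (r * t)))
    (h20 : ZB c (fun t => m2 t * g0 (r * t))) :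
    ZB (c + 2) (telR g0 g1 m0 m1 m2 r) := by
  have z2 : ZB 2 (fun t : ℝ => t ^ 2) := by simpa using ZB.pow_id 2
  have z4 : ZB 2 (fun t : ℝ => t ^ 4) := (ZB.pow_id 4).mono (by norm_num)
  have p0 : ZB 2 (fun t : ℝ => -16 * t ^ 2 + 24 * t ^ 4 + 4 * r ^ 2 * t ^ 2
      - 16 * r ^ 2 * t ^ 4 + r ^ 4 * t ^ 4) :=
    ((((z2.const_mul (-16)).add (z4.const_mul 24)).add
      (z2.const_mul (4 * r ^ 2))).sub (z4.const_mul (16 * r ^ 2))).add
      (z4.const_mul (r ^ 4))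
  have p1 : ZB 2 (fun t : ℝ => -28 * t ^ 2 + 4 * r ^ 2 * t ^ 2) :=
    (z2.const_mul (-28)).add (z2.const_mul (4 * r ^ 2))
  have p2 : ZB 2 (fun t : ℝ => 32 * t ^ 2 - 8 * r ^ 2 * t ^ 2) :=
    (z2.const_mul 32).sub (z2.const_mul (8 * r ^ 2))
  have p3 : ZB 2 (fun t : ℝ => 40 * t ^ 2 - 4 * r ^ 2 * t ^ 2) :=
    (z2.const_mul 40).sub (z2.const_mul (4 * r ^ 2))
  have p4 : ZB 2 (fun t : ℝ => 12 * r ^ 2 * t ^ 2 - 48 * t ^ 2) :=
    (z2.const_mul (12 * r ^ 2)).sub (z2.const_mul 48)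
  exact ((((h00.mul p0).add (h01.mul p1)).add (h10.mul p2)).add (h11.mul p3)).add (h20.mul p4)

/-! The `K` case. -/

theorem ZB_one_add_thK {r : ℝ} (hr : 0 < r) : ZB 1 (fun t => thK (r * t) + 1) := by
  refine ⟨r, hr.le, fun t ht _ => ?_⟩
  have hrt := mul_pos hr ht
  have h1 := tK1_le_one hrt
  have h2 := exp_neg_le_tK1 hrt
  have h3 := Real.add_one_le_exp (-(r * t))
  unfold thK
  rw [abs_of_nonneg (by linarith), Real.rpow_one]
  linarith

theorem abs_K0_sub_K0_add_log {r t : ℝ} (hr : 0 < r) (ht : 0 < t) :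
    |K0 (r * t) - K0 t + Real.log r| ≤ |r - 1| * t := by
  have key := (convex_Ioi (0:ℝ)).norm_image_sub_le_of_norm_hasDerivWithin_le
    (f := fun t => K0 t + Real.log t) (f' := fun t => (1 - t * K1 t) / t) (C := 1)
    (fun s hs => (hasDerivAt_K0_add_log hs).hasDerivWithinAt) (fun s hs => by
      have hs0 : 0 < s := hs
      have h1 := tK1_le_one hs0
      have h2 := exp_neg_le_tK1 hs0
      have h3 := Real.add_one_le_exp (-s)
      rw [Real.norm_eq_abs, abs_of_nonneg (div_nonneg (by linarith) hs0.le), div_le_one hs0]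
      linarith)
    (show t ∈ Ioi (0:ℝ) from ht) (show r * t ∈ Ioi (0:ℝ) from mul_pos hr ht)
  simp only [Real.norm_eq_abs] at key
  rw [Real.log_mul hr.ne' ht.ne'] at key
  have e : K0 (r * t) + (Real.log r + Real.log t) - (K0 t + Real.log t) =
      K0 (r * t) - K0 t + Real.log r := by ring
  have e2 : r * t - t = (r - 1) * t := by ring
  rw [e, e2, abs_mul, abs_of_pos ht, one_mul] at key
  exact key

theorem ZB_K0_sub {r : ℝ} (hr : 0 < r) :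
    ZB 1 (fun t => K0 (r * t) - K0 t + Real.log r) :=
  ⟨|r - 1|, abs_nonneg _, fun t ht _ => by
    rw [Real.rpow_one]; exact abs_K0_sub_K0_add_log hr ht⟩

theorem tendsto_main_K {r : ℝ} (hr : 0 < r) :
    Tendsto (fun t => mK4 t * K0 (r * t) - mK3 t * thK (r * t)) (𝓝[>] 0)
      (𝓝 (-Real.log r)) := by
  have z1 : ZB (1 + -(1/8)) (fun t => (thK t + 1) * K0 (r * t)) := by
    have := (ZB_one_add_thK one_pos).mul (ZB_K0 hr)
    simpa using this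
  have z2 : ZB (1 + -(1/8)) (fun t => K0 t * (thK (r * t) + 1)) := by
    have := ZB_K0_one.mul (ZB_one_add_thK hr)
    rw [add_comm] at this
    exact this
  have z3 : ZB (1 + -(1/8)) (fun t => K0 (r * t) - K0 t + Real.log r) :=
    (ZB_K0_sub hr).mono (by norm_num)
  have z4 : ZB (1 + -(1/8)) (fun t => thK t * K0 (r * t) - K0 t * thK (r * t) - Real.log r) := by
    refine ((z1.sub z3).sub z2).congr' fun t _ _ => ?_
    ring
  have t4 := z4.tendsto (by norm_num)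
  have t5 : Tendsto (fun t => thK t * K0 (r * t) - K0 t * thK (r * t)) (𝓝[>] 0)
      (𝓝 (Real.log r)) := by
    have := t4.add_const (Real.log r)
    rw [zero_add] at this
    refine this.congr fun t => ?_
    ring
  have t6 : Tendsto thK (𝓝[>] 0) (𝓝 (-1)) := by
    have := tK1_tendsto.neg
    exact this
  have t7 := (t6.pow 3).mul t5
  have e : (-1 : ℝ) ^ 3 * Real.log r = -Real.log r := by ring
  rw [e] at t7
  refine t7.congr fun t => ?_
  unfold mK4 mK3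
  ring

theorem tendsto_telQ_K_zero {r : ℝ} (hr : 0 < r) :
    Tendsto (telQ K0 thK mK0 mK1 mK2 mK3 mK4 r) (𝓝[>] 0) (𝓝 (-(24 * Real.log r))) := by
  have a0 : ZB (-(1/2)) mK0 := ZB_mK0
  have a1 : ZB (-(1/2)) mK1 :=
    ((ZB_K0_one.pow 3).mul ZB_thK_one).mono (by norm_num)
  have a2 : ZB (-(1/2)) mK2 :=
    ((ZB_K0_one.pow 2).mul (ZB_thK_one.pow 2)).mono (by norm_num)
  have b0 := ZB_K0 hr
  have b1 : ZB (-(1/8)) (fun t => thK (r * t)) := (ZB_thK hr).mono (by norm_num)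
  have hR : ZB (-(1/2) + -(1/8) + 2) (telR K0 thK mK0 mK1 mK2 r) :=
    ZB_telR (a0.mul b0) (a0.mul b1) (a1.mul b0) (a1.mul b1) (a2.mul b0)
  have t1 := hR.tendsto (by norm_num)
  have t2 := t1.add ((tendsto_main_K hr).const_mul 24)
  have e : (0:ℝ) + 24 * -Real.log r = -(24 * Real.log r) := by ring
  rw [e] at t2
  refine t2.congr fun t => ?_
  rw [telQ_eq]

theorem tendsto_telQ_K_top {r : ℝ} (hr : 0 < r) :
    Tendsto (telQ K0 thK mK0 mK1 mK2 mK3 mK4 r) atTop (𝓝 0) := by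
  have a0 : EB 4 mK0 := EB_mK0
  have a1 : EB 4 mK1 := ((EB_K0_one.pow 3).mul EB_thK_one).mono (by norm_num)
  have a2 : EB 4 mK2 := ((EB_K0_one.pow 2).mul (EB_thK_one.pow 2)).mono (by norm_num)
  have a3 : EB 4 mK3 := (EB_K0_one.mul (EB_thK_one.pow 3)).mono (by norm_num)
  have a4 : EB 4 mK4 := (EB_thK_one.pow 4).mono (by norm_num)
  have b0 := EB_K0 hr
  have b1 := EB_thK hr
  exact (EB_telQ (a0.mul b0) (a0.mul b1) (a1.mul b0) (a1.mul b1) (a2.mul b0) (a3.mul b1)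
    (a4.mul b0)).tendsto (by linarith)

/-! The `I` case. -/

theorem ZB_mI1 : ZB (-(1/4)) mI1 :=
  (((ZB_thI_one.mul (ZB_K0_one.pow 3)).mono (by norm_num)).add
    (((ZB_I0_one.mul ((ZB_K0_one.pow 2).mul ZB_thK_one)).mono (by norm_num)).const_mul
      3)).div_const 4

theorem ZB_mI2 : ZB (-(1/8)) mI2 :=
  (((ZB_thI_one.mul ((ZB_K0_one.pow 2).mul ZB_thK_one)).mono (by norm_num)).add
    ((ZB_I0_one.mul (ZB_K0_one.mul (ZB_thK_one.pow 2))).mono (by norm_num))).div_const 2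

theorem ZB_mI3 : ZB 0 mI3 :=
  ((((ZB_thI_one.mul (ZB_K0_one.mul (ZB_thK_one.pow 2))).mono (by norm_num)).const_mul
    3).add ((ZB_I0_one.mul (ZB_thK_one.pow 3)).mono (by norm_num))).div_const 4

theorem ZB_mI4 : ZB 1 mI4 := (ZB_thI_one.mul (ZB_thK_one.pow 3)).mono (by norm_num)

theorem EB_mI1 : EB 2 mI1 :=
  (((EB_thI_one.mul (EB_K0_one.pow 3)).mono (by norm_num)).add
    (((EB_I0_one.mul ((EB_K0_one.pow 2).mul EB_thK_one)).mono (by norm_num)).const_mul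
      3)).div_const 4

theorem EB_mI2 : EB 2 mI2 :=
  (((EB_thI_one.mul ((EB_K0_one.pow 2).mul EB_thK_one)).mono (by norm_num)).add
    ((EB_I0_one.mul (EB_K0_one.mul (EB_thK_one.pow 2))).mono (by norm_num))).div_const 2

theorem EB_mI3 : EB 2 mI3 :=
  ((((EB_thI_one.mul (EB_K0_one.mul (EB_thK_one.pow 2))).mono (by norm_num)).const_mul
    3).add ((EB_I0_one.mul (EB_thK_one.pow 3)).mono (by norm_num))).div_const 4

theorem EB_mI4 : EB 2 mI4 := (EB_thI_one.mul (EB_thK_one.pow 3)).mono (by norm_num)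

theorem tendsto_telQ_I_zero {r : ℝ} (hr : 0 ≤ r) :
    Tendsto (telQ I0 thI mI0 mI1 mI2 mI3 mI4 r) (𝓝[>] 0) (𝓝 0) := by
  have a0 : ZB (-(3/8)) mI0 := ZB_mI0
  have a1 : ZB (-(3/8)) mI1 := ZB_mI1.mono (by norm_num)
  have a2 : ZB (-(3/8)) mI2 := ZB_mI2.mono (by norm_num)
  have b0 := ZB_I0 hr
  have b1 : ZB 0 (fun t => thI (r * t)) := (ZB_thI hr).mono (by norm_num)
  have hR : ZB (-(3/8) + 0 + 2) (telR I0 thI mI0 mI1 mI2 r) :=
    ZB_telR (a0.mul b0) (a0.mul b1) (a1.mul b0) (a1.mul b1) (a2.mul b0)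
  have t1 := hR.tendsto (by norm_num)
  have c0 : ZB 1 (fun t => mI4 t * I0 (r * t)) := (ZB_mI4.mul b0).mono (by norm_num)
  have c1 : ZB 1 (fun t => mI3 t * thI (r * t)) := (ZB_mI3.mul (ZB_thI hr)).mono (by norm_num)
  have t2 := t1.add (((c0.sub c1).tendsto one_pos).const_mul 24)
  have e : (0:ℝ) + 24 * 0 = 0 := by ring
  rw [e] at t2
  refine t2.congr fun t => ?_
  rw [telQ_eq]

theorem tendsto_telQ_I_top {r : ℝ} (hr : 0 ≤ r) (hr2 : r < 2) :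
    Tendsto (telQ I0 thI mI0 mI1 mI2 mI3 mI4 r) atTop (𝓝 0) := by
  have b0 := EB_I0 hr
  have b1 := EB_thI hr
  exact (EB_telQ (EB_mI0.mul b0) (EB_mI0.mul b1) (EB_mI1.mul b0) (EB_mI1.mul b1)
    (EB_mI2.mul b0) (EB_mI3.mul b1) (EB_mI4.mul b0)).tendsto (by linarith)

end Pool.Agent.Lib.BM
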