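import Pool.Agent.Lib.BM.Wr

set_option autoImplicit false

/-!
# BM.MAf: identification of the Bessel moment `A` with the modular form `Z`

`h = √(A(x(y))/Z(y))` satisfies `h'' = 0` and has a limit, hence is constant.
-/

namespace Pool.Agent.Lib.BM

open Filter Topology Set

namespace MAfAux

/-- a function with derivative zero on `[a, ∞)` is constant there -/
theorem const_of_deriv {f : ℝ → ℝ} {a : ℝ} (h : ∀ y, a ≤ y → HasDerivAt f 0 y) {y : ℝ}
    (hy : a ≤ y) : f y = f a := by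
  have hb := Convex.norm_image_sub_le_of_norm_hasDerivWithin_le (f := f)
    (f' := fun _ => 0) (C := 0) (s := Icc a y) (x := a) (y := y)
    (fun t ht => (h t ht.1).hasDerivWithinAt)
    (fun t _ => by simp)
    (convex_Icc a y) (left_mem_Icc.mpr hy) (right_mem_Icc.mpr hy)
  rw [zero_mul] at hb
  exact sub_eq_zero.mp (norm_le_zero_iff.mp hb)

/-- if `h' = c/2` on `[a, ∞)` and `h` has a limit then `c = 0` -/
theorem slope_zero {f : ℝ → ℝ} {a c l : ℝ} (h : ∀ y, a ≤ y → HasDerivAt f (c / 2) y)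
    (hl : Tendsto f atTop (𝓝 l)) : c = 0 := by
  have h1 : ∀ y, a ≤ y → f y = f a - c / 2 * a + c / 2 * y := by
    intro y hy
    have h2 := const_of_deriv (f := fun y => f y - c / 2 * y) (a := a) (fun t ht => by
      have := (h t ht).sub ((hasDerivAt_id t).const_mul (c / 2))
      refine this.congr_deriv (by simp)) hy
    linarith
  have h3 : Tendsto (fun y => f y / y) atTop (𝓝 0) := hl.div_atTop tendsto_id
  have h4 : Tendsto (fun y => f y / y) atTop (𝓝 (0 + c / 2)) := by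
    have h5 : Tendsto (fun y : ℝ => (f a - c / 2 * a) / y + c / 2) atTop (𝓝 (0 + c / 2)) :=
      (tendsto_const_nhds.div_atTop tendsto_id).add tendsto_const_nhds
    refine h5.congr' ?_
    filter_upwards [eventually_ge_atTop a, eventually_gt_atTop 0] with y hy hy0
    rw [h1 y hy]
    field_simp
  have := tendsto_nhds_unique h3 h4
  linarith

end MAfAux

open MAfAux in
/-- `A(x(y)) = (π²/16) Z(y)` -/
theorem m_af {A A1 A2 A3 B B1 B2 B3 : ℝ → ℝ} (h : BesX A A1 A2 A3 B B1 B2 B3)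
    {x Z w l : ℝ → ℝ} {a : ℝ}
    (hx0 : ∀ y, a ≤ y → 0 < x y) (hx1 : ∀ y, a ≤ y → x y ≤ 1)
    (hZ0 : ∀ y, a ≤ y → 0 < Z y) (hw0 : ∀ y, a ≤ y → 0 < w y)
    (hw : ∀ y, a ≤ y → w y ^ 2 = (1 - x y ^ 2 / 16) * (1 - x y ^ 2 / 4))
    (dx : ∀ y, a ≤ y → HasDerivAt x (-(Real.pi * x y * (Z y * w y))) y)
    (dZ : ∀ y, a ≤ y → HasDerivAt Z (-(2 * Real.pi) * (Z y * l y)) y)
    (dl : ∀ y, a ≤ y → HasDerivAt l
      (-Real.pi * (l y ^ 2 + x y ^ 2 * (8 - x y ^ 2) / 64 * Z y ^ 2)) y)
    (hxl : Tendsto x atTop (𝓝 0)) (hZl : Tendsto Z atTop (𝓝 1)) {y : ℝ} (hy : a ≤ y) :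
    A (x y) = Real.pi ^ 2 / 16 * Z y := by
  have hx2 : ∀ y, a ≤ y → x y < 2 := fun y hy => by linarith [hx1 y hy]
  have hAp : ∀ y, a ≤ y → 0 < A (x y) := fun y hy => WrAux.A_pos h (hx0 y hy) (hx2 y hy)
  have ew : ∀ y, a ≤ y → wr (x y) = w y := fun y hy => by
    unfold wr
    rw [← hw y hy]
    exact Real.sqrt_sq (hw0 y hy).le
  -- composition with `x`
  have comp : ∀ {f f1 : ℝ → ℝ} {y : ℝ}, a ≤ y → HasDerivAt f (f1 (x y) / x y) (x y) →
      HasDerivAt (fun y => f (x y)) (f1 (x y) * (-(Real.pi * (Z y * wr (x y))))) y := by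
    intro f f1 y hy hf
    have := hf.comp y (dx y hy)
    refine this.congr_deriv ?_
    have h1 := (hx0 y hy).ne'
    rw [ew y hy]
    field_simp
  set s : ℝ → ℝ := fun y => -(Real.pi * (A1 (x y) / A (x y) * (Z y * wr (x y)))) +
    2 * Real.pi * l y with hs
  set f : ℝ → ℝ := fun y => A (x y) / Z y with hf
  have df : ∀ y, a ≤ y → HasDerivAt f (f y * s y) y := by
    intro y hy
    have h1 := comp hy (h.dA (x y) (hx0 y hy) (hx2 y hy))
    have h2 := h1.div (dZ y hy) (hZ0 y hy).ne'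
    refine h2.congr_deriv ?_
    have hz := (hZ0 y hy).ne'
    have ha := (hAp y hy).ne'
    simp only [hf, hs]
    field_simp
    ring
  have ds : ∀ y, a ≤ y → HasDerivAt s (-(s y ^ 2 / 2)) y := by
    intro y hy
    have h1 := comp hy (h.dA (x y) (hx0 y hy) (hx2 y hy))
    have h2 := comp hy (h.dA1 (x y) (hx0 y hy) (hx2 y hy))
    have h3 := comp (f1 := fun r => (4 * r ^ 4 - 40 * r ^ 2) / (128 * wr r)) hy
      (WrAux.d_wr (hx0 y hy) (hx2 y hy))
    have h4 := ((((h2.div h1 (hAp y hy).ne').mul ((dZ y hy).mul h3)).const_mul Real.pi).neg).add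
      ((dl y hy).const_mul (2 * Real.pi))
    refine h4.congr_deriv ?_
    have hz := (hZ0 y hy).ne'
    have ha := (hAp y hy).ne'
    have hwne := (WrAux.wr_pos (hx0 y hy) (hx2 y hy)).ne'
    have hw2 := WrAux.wr_sq (hx0 y hy) (hx2 y hy)
    have hq := WrAux.Q_zero h (hx0 y hy) (hx2 y hy)
    unfold WrAux.Qf at hq
    have hpi := Real.pi_ne_zero
    simp only [hs, Pi.div_apply, Pi.mul_apply]
    clear h1 h2 h3 h4 comp df
    generalize x y = r at *
    generalize wr r = W at *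
    generalize A r = b at *
    generalize A1 r = b1 at *
    generalize A2 r = b2 at *
    generalize Z y = z at *
    generalize l y = L at *
    generalize Real.pi = p at *
    field_simp at hw2 ⊢
    linear_combination 128 * z ^ 2 * hq + 128 * z ^ 2 * (2 * b * b2 - b1 ^ 2) * hw2
  set g : ℝ → ℝ := fun y => Real.sqrt (f y) with hg
  have hfp : ∀ y, a ≤ y → 0 < f y := fun y hy => div_pos (hAp y hy) (hZ0 y hy)
  have dg : ∀ y, a ≤ y → HasDerivAt g (g y * s y / 2) y := by
    intro y hy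
    have h1 := (df y hy).sqrt (hfp y hy).ne'
    refine h1.congr_deriv ?_
    simp only [hg]
    have h2 : Real.sqrt (f y) ≠ 0 := (Real.sqrt_pos.mpr (hfp y hy)).ne'
    have h3 : Real.sqrt (f y) ^ 2 = f y := Real.sq_sqrt (hfp y hy).le
    field_simp
    rw [h3]
    ring
  have dgs : ∀ y, a ≤ y → HasDerivAt (fun y => g y * s y) 0 y := by
    intro y hy
    refine ((dg y hy).mul (ds y hy)).congr_deriv ?_
    ring
  have hc : ∀ y, a ≤ y → g y * s y = g a * s a := fun y hy => const_of_deriv dgs hy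
  have hfl : Tendsto f atTop (𝓝 (Real.pi ^ 2 / 16 / 1)) := by
    refine Tendsto.div ?_ hZl one_ne_zero
    refine h.A_lim.comp ?_
    refine tendsto_nhdsWithin_iff.mpr ⟨hxl, ?_⟩
    filter_upwards [eventually_ge_atTop a] with y hy
    exact hx0 y hy
  have hgl : Tendsto g atTop (𝓝 (Real.pi / 4)) := by
    have h1 := hfl.sqrt
    have h2 : Real.sqrt (Real.pi ^ 2 / 16 / 1) = Real.pi / 4 := by
      rw [show Real.pi ^ 2 / 16 / 1 = (Real.pi / 4) ^ 2 by ring]
      exact Real.sqrt_sq (by positivity)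
    rw [h2] at h1
    exact h1
  have hc0 : g a * s a = 0 := slope_zero (f := g) (a := a) (fun y hy => by
    refine (dg y hy).congr_deriv ?_
    rw [hc y hy]) hgl
  have dg0 : ∀ y, a ≤ y → HasDerivAt g 0 y := fun y hy => by
    refine (dg y hy).congr_deriv ?_
    rw [hc y hy, hc0, zero_div]
  have hga : ∀ y, a ≤ y → g y = g a := fun y hy => const_of_deriv dg0 hy
  have hga2 : g a = Real.pi / 4 := by
    refine tendsto_nhds_unique ?_ hgl
    refine tendsto_const_nhds.congr' ?_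
    filter_upwards [eventually_ge_atTop a] with y hy
    exact (hga y hy).symm
  have hgy : g y = Real.pi / 4 := by rw [hga y hy, hga2]
  have hfy : f y = (Real.pi / 4) ^ 2 := by
    rw [← hgy]; exact (Real.sq_sqrt (hfp y hy).le).symm
  have hz := (hZ0 y hy).ne'
  simp only [hf] at hfy
  rw [div_eq_iff hz] at hfy
  rw [hfy]; ring

end Pool.Agent.Lib.BM
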