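import Pool.Agent.Lib.BM.Defs
import Pool.Agent.Lib.BM.Lam

set_option autoImplicit false

/-!
# BM.MDefs: definitions of block (M), the modular parametrisation

`aC` is the cubic theta function `a(q) = 1 + 6 ∑ χ(n) q^n/(1-q^n)`, `PC`, `QC` are the Eisenstein series of
weight 2 and 4 as functions of the complex nome; `aR` is `a(q)` for real `q`; `a1f`, `a2f`, `Zf`, `wf`, `xf` are
real functions on the line `Re τ = 1/2`.
-/

namespace Pool.Agent.Lib.BM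

noncomputable section

/-- The character modulo 3. -/
def chi3 (n : ℕ) : ℝ := if n % 3 = 1 then 1 else if n % 3 = 2 then -1 else 0

/-- `∑ n^k q^n/(1-q^n)` for complex `q` -/
def SC (k : ℕ) (q : ℂ) : ℂ := ∑' n : ℕ, ((n : ℂ) + 1) ^ k * u q (n + 1)

/-- `a(q)` for complex `q` -/
def aC (q : ℂ) : ℂ := 1 + 6 * ∑' n : ℕ, (chi3 (n + 1) : ℂ) * u q (n + 1)

/-- Eisenstein series of weight 2 -/
def PC (q : ℂ) : ℂ := 1 - 24 * SC 1 q

/-- Eisenstein series of weight 4 -/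
def QC (q : ℂ) : ℂ := 1 + 240 * SC 3 q

/-- `a(q)` for real `q` -/
def aR (q : ℝ) : ℝ := 1 + 6 * ∑' n : ℕ, chi3 (n + 1) * (q ^ (n + 1) / (1 - q ^ (n + 1)))

/-- `a(q)` on the line -/
def a1f (y : ℝ) : ℝ := aR (qn y)

/-- `a(q^2)` on the line -/
def a2f (y : ℝ) : ℝ := aR (qn y ^ 2)

/-- `Z = (η₁η₃)^4/(η₂η₆)^2` on the line -/
def Zf (y : ℝ) : ℝ := (4 * a2f y ^ 2 - a1f y ^ 2) / 3

/-- `w = sqrt((1-x²/16)(1-x²/4))` -/
def wf (y : ℝ) : ℝ := a1f y * a2f y / Zf y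

/-- the mass `x` on the line -/
def xf (y : ℝ) : ℝ := Real.exp (lx y)

end

end Pool.Agent.Lib.BM
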