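import Pool.Agent.Lib.BM.MId

set_option autoImplicit false

/-!
# BM.MDer: derivatives of the Lambert series, in the real nome and along the line
-/

namespace Pool.Agent.Lib.BM

open Finset LamAux Filter Topology

noncomputable section

namespace MDerAux

theorem abs_pow_le {q r : ℝ} (hq : |q| ≤ r) (n : ℕ) : |q ^ n| ≤ r ^ n := by
  rw [abs_pow]
  exact pow_le_pow_left₀ (abs_nonneg _) hq n

theorem one_sub_ge {q r : ℝ} (hq : |q| ≤ r) (hr : r < 1) (n : ℕ) : 1 - r ≤ 1 - q ^ (n + 1) := by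
  have h1 : |q ^ (n + 1)| ≤ r := by
    rw [abs_pow]
    exact (pow_le_of_le_one (abs_nonneg _) (hq.trans hr.le) (by omega)).trans hq
  have h2 := le_abs_self (q ^ (n + 1))
  linarith

theorem deriv_pow (q : ℝ) (n : ℕ) : HasDerivAt (fun x : ℝ => x ^ (n + 1)) (((n : ℝ) + 1) * q ^ n) q := by
  have h := hasDerivAt_pow (n + 1) q
  simpa using h

theorem hasDerivAt_S1 {q : ℝ} (hq : |q| < 1) :
    HasDerivAt S1 (∑' n : ℕ, ((n : ℝ) + 1) ^ 2 * q ^ n / (1 - q ^ (n + 1)) ^ 2) q := by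
  set r : ℝ := (1 + |q|) / 2 with hr
  have hr1 : r < 1 := by rw [hr]; linarith
  have hqr : |q| < r := by rw [hr]; linarith
  have hr0 : 0 < r := (abs_nonneg q).trans_lt hqr
  have h1r : 0 < 1 - r := by linarith
  have hs := (summable_poly hr0.le hr1 2).mul_left ((1 - r)⁻¹ ^ 2)
  have key := hasDerivAt_tsum_of_isPreconnected (𝕜 := ℝ)
    (g := fun (n : ℕ) (x : ℝ) => ((n : ℝ) + 1) * x ^ (n + 1) / (1 - x ^ (n + 1)))
    (g' := fun (n : ℕ) (x : ℝ) => ((n : ℝ) + 1) ^ 2 * x ^ n / (1 - x ^ (n + 1)) ^ 2)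
    (t := Metric.ball (0:ℝ) r) (y₀ := 0) (y := q) hs Metric.isOpen_ball
    (convex_ball (0:ℝ) r).isPreconnected ?_ ?_ (Metric.mem_ball_self hr0) ?_ ?_
  · exact key
  · intro n y hy
    have hy' : |y| ≤ r := by simpa using (Metric.mem_ball.mp hy).le
    have h1 := one_sub_ge hy' hr1 n
    have h2 : (1 - y ^ (n + 1)) ≠ 0 := by linarith
    have h3 := ((deriv_pow y n).const_mul ((n : ℝ) + 1)).div ((deriv_pow y n).const_sub 1) h2
    refine h3.congr_deriv ?_
    field_simp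
    ring
  · intro n y hy
    have hy' : |y| ≤ r := by simpa using (Metric.mem_ball.mp hy).le
    have h1 := one_sub_ge hy' hr1 n
    have h2 : 0 < 1 - y ^ (n + 1) := by linarith
    rw [norm_div, norm_mul, norm_pow, norm_pow, norm_pow (1 - y ^ (n + 1)),
      Real.norm_of_nonneg h2.le,
      Real.norm_of_nonneg (by positivity : (0:ℝ) ≤ (n : ℝ) + 1), div_eq_inv_mul, ← inv_pow]
    have h3 : (1 - y ^ (n + 1))⁻¹ ≤ (1 - r)⁻¹ := inv_anti₀ h1r h1
    have h4 : ‖y‖ ^ n ≤ r ^ n := pow_le_pow_left₀ (norm_nonneg _) hy' n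
    have h5 : 0 ≤ (1 - y ^ (n + 1))⁻¹ := by positivity
    gcongr
  · simp only [ne_eq, Nat.add_eq_zero_iff, one_ne_zero, and_false, not_false_eq_true, zero_pow,
      mul_zero, sub_zero, div_one]
    exact summable_zero
  · simpa using hqr

theorem hasDerivAt_LP {q : ℝ} (hq : |q| < 1) :
    HasDerivAt LP (-∑' n : ℕ, ((n : ℝ) + 1) * q ^ n / (1 - q ^ (n + 1))) q := by
  set r : ℝ := (1 + |q|) / 2 with hr
  have hr1 : r < 1 := by rw [hr]; linarith
  have hqr : |q| < r := by rw [hr]; linarith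
  have hr0 : 0 < r := (abs_nonneg q).trans_lt hqr
  have h1r : 0 < 1 - r := by linarith
  have hs := (summable_poly hr0.le hr1 1).mul_left ((1 - r)⁻¹)
  rw [← tsum_neg]
  have key := hasDerivAt_tsum_of_isPreconnected (𝕜 := ℝ)
    (g := fun (n : ℕ) (x : ℝ) => Real.log (1 - x ^ (n + 1)))
    (g' := fun (n : ℕ) (x : ℝ) => -(((n : ℝ) + 1) * x ^ n / (1 - x ^ (n + 1))))
    (t := Metric.ball (0:ℝ) r) (y₀ := 0) (y := q) hs Metric.isOpen_ball
    (convex_ball (0:ℝ) r).isPreconnected ?_ ?_ (Metric.mem_ball_self hr0) ?_ ?_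
  · exact key
  · intro n y hy
    have hy' : |y| ≤ r := by simpa using (Metric.mem_ball.mp hy).le
    have h1 := one_sub_ge hy' hr1 n
    have h2 : (1 - y ^ (n + 1)) ≠ 0 := by linarith
    have h3 := ((deriv_pow y n).const_sub 1).log h2
    refine h3.congr_deriv ?_
    ring
  · intro n y hy
    have hy' : |y| ≤ r := by simpa using (Metric.mem_ball.mp hy).le
    have h1 := one_sub_ge hy' hr1 n
    have h2 : 0 < 1 - y ^ (n + 1) := by linarith
    rw [norm_neg, norm_div, norm_mul, norm_pow, Real.norm_of_nonneg h2.le,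
      Real.norm_of_nonneg (by positivity : (0:ℝ) ≤ (n : ℝ) + 1), div_eq_inv_mul, pow_one]
    have h3 : (1 - y ^ (n + 1))⁻¹ ≤ (1 - r)⁻¹ := inv_anti₀ h1r h1
    have h4 : ‖y‖ ^ n ≤ r ^ n := pow_le_pow_left₀ (norm_nonneg _) hy' n
    have h5 : 0 ≤ (1 - y ^ (n + 1))⁻¹ := by positivity
    gcongr
  · simp only [ne_eq, Nat.add_eq_zero_iff, one_ne_zero, and_false, not_false_eq_true, zero_pow,
      sub_zero, Real.log_one]
    exact summable_zero
  · simpa using hqr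

theorem qn_abs_lt {y : ℝ} (hy : 0 < y) : |qn y| < 1 := by
  unfold qn
  rw [abs_neg, abs_of_pos (Real.exp_pos _), Real.exp_lt_one_iff]
  have := Real.pi_pos
  nlinarith [mul_pos this hy]

theorem qn_pow_abs_lt {y : ℝ} (hy : 0 < y) {d : ℕ} (hd : d ≠ 0) : |qn y ^ d| < 1 := by
  rw [abs_pow]
  exact pow_lt_one₀ (abs_nonneg _) (qn_abs_lt hy) hd

theorem hasDerivAt_qn (y : ℝ) : HasDerivAt qn (-(2 * Real.pi) * qn y) y := by
  unfold qn
  have h : HasDerivAt (fun y : ℝ => -(2 * Real.pi * y)) (-(2 * Real.pi)) y :=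
    ((hasDerivAt_id y).const_mul (2 * Real.pi)).neg.congr_deriv (by simp)
  refine h.exp.neg.congr_deriv ?_
  ring

theorem hasDerivAt_qn_pow (y : ℝ) (d : ℕ) :
    HasDerivAt (fun y => qn y ^ d) (-(2 * Real.pi * d) * qn y ^ d) y := by
  rcases Nat.eq_zero_or_pos d with rfl | hd
  · simpa using hasDerivAt_const y (1:ℝ)
  · have h := (hasDerivAt_qn y).pow d
    refine h.congr_deriv ?_
    have h2 : qn y ^ d = qn y ^ (d - 1) * qn y := by
      rw [← pow_succ]; congr 1; omega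
    rw [h2]
    ring

end MDerAux

open MDerAux

theorem hasDerivAt_S1q {y : ℝ} (hy : 0 < y) {d : ℕ} (hd : d ≠ 0) :
    HasDerivAt (fun y => S1 (qn y ^ d)) (-(2 * Real.pi * d) * DS1 (qn y ^ d)) y := by
  have h := (hasDerivAt_S1 (qn_pow_abs_lt hy hd)).comp y (hasDerivAt_qn_pow y d)
  refine h.congr_deriv ?_
  have h2 : DS1 (qn y ^ d) = (∑' n : ℕ, ((n : ℝ) + 1) ^ 2 * (qn y ^ d) ^ n /
      (1 - (qn y ^ d) ^ (n + 1)) ^ 2) * qn y ^ d := by
    rw [DS1, ← tsum_mul_right]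
    exact tsum_congr fun n => by rw [pow_succ (qn y ^ d) n]; ring
  rw [h2]
  ring

theorem hasDerivAt_LPq {y : ℝ} (hy : 0 < y) {d : ℕ} (hd : d ≠ 0) :
    HasDerivAt (fun y => LP (qn y ^ d)) (2 * Real.pi * d * S1 (qn y ^ d)) y := by
  have h := (hasDerivAt_LP (qn_pow_abs_lt hy hd)).comp y (hasDerivAt_qn_pow y d)
  refine h.congr_deriv ?_
  have h2 : S1 (qn y ^ d) = (∑' n : ℕ, ((n : ℝ) + 1) * (qn y ^ d) ^ n /
      (1 - (qn y ^ d) ^ (n + 1))) * qn y ^ d := by
    rw [S1, ← tsum_mul_right]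
    exact tsum_congr fun n => by rw [pow_succ (qn y ^ d) n]; ring
  rw [h2]
  ring

/-- `P(q)` on the line -/
def P1f (y : ℝ) : ℝ := 1 - 24 * S1 (qn y)

theorem a1f_mul_a2f {y : ℝ} (hy : 0 < y) : a1f y * a2f y
    = 1 + 6 * S1 (qn y) - 12 * S1 (qn y ^ 2) + 18 * S1 (qn y ^ 3) - 36 * S1 (qn y ^ 6) :=
  aR_mul (qn_abs_lt hy)

/-- the derivative of `log x` -/
theorem hasDerivAt_lx {y : ℝ} (hy : 0 < y) :
    HasDerivAt lx (-(Real.pi * (a1f y * a2f y))) y := by
  have h1 := hasDerivAt_LPq hy (d := 1) (by norm_num)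
  have h2 := hasDerivAt_LPq hy (d := 2) (by norm_num)
  have h3 := hasDerivAt_LPq hy (d := 3) (by norm_num)
  have h6 := hasDerivAt_LPq hy (d := 6) (by norm_num)
  simp only [pow_one] at h1
  have h0 : HasDerivAt (fun y : ℝ => Real.log 8 - Real.pi * y) (-Real.pi) y := by
    simpa using ((hasDerivAt_id y).const_mul Real.pi).const_sub (Real.log 8)
  have h := (((h0.sub (h1.const_mul 3)).add (h2.const_mul 3)).sub (h3.const_mul 3)).add
    (h6.const_mul 3)
  refine (h.congr_of_eventuallyEq ?_).congr_deriv ?_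
  · filter_upwards with z
    simp only [lx, Pi.add_apply, Pi.sub_apply]
  · rw [a1f_mul_a2f hy]
    push_cast
    ring

theorem M_hasDerivAt_xf {y : ℝ} (hy : 0 < y) :
    HasDerivAt xf (-(Real.pi * xf y * (a1f y * a2f y))) y := by
  refine (hasDerivAt_lx hy).exp.congr_deriv ?_
  unfold xf
  ring

/-- `DS1` through the differential equation -/
theorem DS1_eq {q : ℝ} (hq : |q| < 1) : DS1 q = (5 * S3 q + S1 q - 12 * S1 q ^ 2) / 6 := by
  have h := rdeR hq
  linarith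

theorem hasDerivAt_P1f {y : ℝ} (hy : 0 < y) :
    HasDerivAt P1f (-(2 * Real.pi) * ((P1f y ^ 2 - (5 * a1f y ^ 4 + 12 * a1f y ^ 3 * a2f y -
      16 * a1f y * a2f y ^ 3)) / 12)) y := by
  have h1 := hasDerivAt_S1q hy (d := 1) (by norm_num)
  simp only [pow_one] at h1
  have h := (h1.const_mul 24).const_sub 1
  refine h.congr_deriv ?_
  have hq := qn_abs_lt hy
  obtain ⟨e1, -, -, -⟩ := QR_all hq
  rw [DS1_eq hq]
  unfold P1f a1f a2f
  push_cast
  linear_combination (Real.pi / 6) * e1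

end

end Pool.Agent.Lib.BM
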