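import Pool.Agent.Lib.BM.Wr
import Pool.Agent.Lib.BM.MDefs
import Pool.Agent.Lib.BM.QBounds

set_option autoImplicit false

/-!
# BM.ModY: the structure `ModX` from the facts of block (M)
-/

namespace Pool.Agent.Lib.BM

open Filter Topology Set

open WrAux in
/-- `ModX` from the facts of block (M) in their natural form. -/
theorem modX_of {A A1 A2 A3 B B1 B2 B3 : ℝ → ℝ} (h : BesX A A1 A2 A3 B B1 B2 B3)
    (hw0 : ∀ y, y0 ≤ y → 0 < wf y)
    (hw : ∀ y, y0 ≤ y → wf y ^ 2 = (1 - xf y ^ 2 / 16) * (1 - xf y ^ 2 / 4))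
    (haa : ∀ y, y0 ≤ y → a1f y * a2f y = Zf y * wf y)
    (hx : ∀ y, y0 ≤ y → HasDerivAt xf (-(Real.pi * xf y * (a1f y * a2f y))) y)
    (hx0 : xf y0 = 1) (hxle : ∀ y, y0 ≤ y → xf y ≤ 1)
    (hF : ∀ y, y0 ≤ y → F4 y = Zf y ^ 2 * wf y * xf y ^ 2 / 64)
    (hfr : HasDerivAt (fun y => Zf y / wf y) (-(1 / y0) * (Zf y0 / wf y0)) y0)
    (hA : ∀ y, y0 ≤ y → A (xf y) = Real.pi ^ 2 / 16 * Zf y) : ModX A A1 := by
  have hpi := Real.pi_ne_zero
  have ew : ∀ y, y0 ≤ y → wr (xf y) = wf y := fun y hy => by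
    unfold wr
    rw [← hw y hy]
    exact Real.sqrt_sq (hw0 y hy).le
  have eZ : ∀ y, y0 ≤ y → 16 / Real.pi ^ 2 * A (xf y) = Zf y := fun y hy => by
    rw [hA y hy]; field_simp
  have hl : ∀ y, lx y = Real.log (xf y) := fun y => (Real.log_exp _).symm
  have hxp : ∀ y, 0 < xf y := fun y => Real.exp_pos _
  have dl : ∀ y, y0 ≤ y → HasDerivAt lx
      (-(Real.pi * (16 / Real.pi ^ 2 * A (xf y)) * wr (xf y))) y := fun y hy => by
    have h1 := (hx y hy).log (hxp y).ne'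
    have h2 : (fun y => Real.log (xf y)) = lx := funext fun y => (hl y).symm
    rw [h2] at h1
    refine h1.congr_deriv ?_
    rw [haa y hy, eZ y hy, ew y hy]
    have := (hxp y).ne'
    field_simp
  have l0 : lx y0 = 0 := by rw [hl, hx0, Real.log_one]
  refine ⟨dl, fun y hy => ?_, l0, fun y hy => ?_, ?_, ?_⟩
  · change F4 y = (16 / Real.pi ^ 2 * A (xf y)) ^ 2 * wr (xf y) * xf y ^ 2 / 64
    rw [eZ y hy, ew y hy]
    exact hF y hy
  · rw [hl]
    exact Real.log_nonpos (hxp y).le (hxle y hy)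
  · obtain ⟨C, _, hC⟩ := lx_bound
    exact ⟨C, fun y hy => hC y (y0_gt.le.trans hy)⟩
  · -- Fricke
    have hxx : xx y0 = 1 := hx0
    have hd1 : HasDerivAt lx (-(16 / Real.pi * A 1 * wr 1)) y0 := by
      refine (dl y0 le_rfl).congr_deriv ?_
      rw [hx0]; field_simp
    have ha := d_comp (f := A) (f1 := A1) hd1 (h.dA (xx y0) (by rw [hxx]; exact one_pos)
      (by rw [hxx]; exact one_lt_two))
    have hwd := d_comp (f := wr) (f1 := fun r => (4 * r ^ 4 - 40 * r ^ 2) / (128 * wr r)) hd1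
      (d_wr (by rw [hxx]; exact one_pos) (by rw [hxx]; exact one_lt_two))
    have hwne : wr (xx y0) ≠ 0 := by
      rw [hxx]; exact (wr_pos one_pos one_lt_two).ne'
    have hq := ((ha.div hwd hwne).const_mul (16 / Real.pi ^ 2)).hasDerivWithinAt (s := Ici y0)
    have hq2 := hfr.hasDerivWithinAt (s := Ici y0)
    have hcongr : HasDerivWithinAt (fun y => 16 / Real.pi ^ 2 * (A (xx y) / wr (xx y)))
        (-(1 / y0) * (Zf y0 / wf y0)) (Ici y0) y0 := by
      refine hq2.congr (fun y hy => ?_) ?_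
      · change 16 / Real.pi ^ 2 * (A (xf y) / wr (xf y)) = Zf y / wf y
        rw [← mul_div_assoc, eZ y hy, ew y hy]
      · change 16 / Real.pi ^ 2 * (A (xf y0) / wr (xf y0)) = Zf y0 / wf y0
        rw [← mul_div_assoc, eZ y0 le_rfl, ew y0 le_rfl]
    have huniq := (uniqueDiffWithinAt_Ici y0).eq_deriv _ hq hcongr
    have hZ0 : Zf y0 = 16 / Real.pi ^ 2 * A 1 := by rw [← eZ y0 le_rfl, hx0]
    have hW0 : wf y0 = wr 1 := by rw [← ew y0 le_rfl, hx0]
    rw [hZ0, hW0, hxx] at huniq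
    have hA0 := (A_pos h one_pos one_lt_two).ne'
    have h3 : Real.sqrt 3 ≠ 0 := by positivity
    have e0 : y0 = Real.sqrt 3 * Real.sqrt 5 / 6 := by
      unfold y0
      rw [← Real.sqrt_mul (by norm_num)]
      norm_num
    rw [w_one, e0] at huniq
    have s5 : Real.sqrt 5 ^ 2 = 5 := Real.sq_sqrt (by norm_num)
    have h5 : Real.sqrt 5 ≠ 0 := by positivity
    generalize Real.sqrt 3 = s3 at *
    generalize Real.sqrt 5 = t at *
    generalize Real.pi = p at *
    field_simp at huniq ⊢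
    linear_combination (-1 / 18432) * huniq - A1 1 * s3 * s5

end Pool.Agent.Lib.BM
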