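import Pool.Agent.Lib.BM.MX
import Pool.Agent.Lib.BM.MAf
import Pool.Agent.Lib.BM.ModY

set_option autoImplicit false

/-!
# BM.MFin: assembly of block (M)
-/

namespace Pool.Agent.Lib.BM

open Finset LamAux Filter Topology MDerAux MLineAux

theorem xf_pos (y : ℝ) : 0 < xf y := Real.exp_pos _

theorem xf_antitone : AntitoneOn xf (Set.Ioi (1/2 : ℝ)) := by
  apply antitoneOn_of_deriv_nonpos (convex_Ioi _)
  · intro y hy
    exact (M_hasDerivAt_xf (by have : (1/2:ℝ) < y := hy; linarith)).continuousAt.continuousWithinAt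
  · intro y hy
    rw [interior_Ioi] at hy
    exact (M_hasDerivAt_xf (by have : (1/2:ℝ) < y := hy; linarith)).differentiableAt.differentiableWithinAt
  · intro y hy
    rw [interior_Ioi] at hy
    have hy' : (1/2:ℝ) < y := hy
    rw [(M_hasDerivAt_xf (by linarith)).deriv]
    have := mul_pos (mul_pos Real.pi_pos (xf_pos y)) (mul_pos (M_a1_pos hy') (M_a2_pos hy'))
    linarith

/-- block (M): the structure `ModX` -/
theorem modX_fin {A A1 A2 A3 B B1 B2 B3 : ℝ → ℝ} (h : BesX A A1 A2 A3 B B1 B2 B3)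
    (h12 : Tendsto (fun y => (a2f y ^ 2 - a1f y ^ 2) * Real.exp (2 * Real.pi * y)) atTop (𝓝 12))
    (h64 : Tendsto (fun y => Real.exp (-(2 * lx y)) * Real.exp (-(2 * Real.pi * y))) atTop
      (𝓝 (1 / 64)))
    (hZl : Tendsto Zf atTop (𝓝 1)) (hxl : Tendsto xf atTop (𝓝 0))
    (hA : 5 * a1f y0 ^ 2 = 4 * a2f y0 ^ 2)
    (hfr : HasDerivAt (fun y => Zf y / wf y) (-(1 / y0) * (Zf y0 / wf y0)) y0) : ModX A A1 := by
  have hh : ∀ {y : ℝ}, y0 ≤ y → 1 / 2 < y := fun hy => lt_of_lt_of_le y0_gt hy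
  have hrel : ∀ {y : ℝ}, 1 / 2 < y → 3 * (Zf y * xf y ^ 2) = 16 * (a2f y ^ 2 - a1f y ^ 2) :=
    fun hy => M_rel_of h12 h64 hZl hy
  have hx0 : xf y0 = 1 := by
    have h1 := hrel y0_gt
    have h2 : 3 * Zf y0 = 4 * a2f y0 ^ 2 - a1f y0 ^ 2 := by unfold Zf; ring
    have h3 := M_a1_pos y0_gt
    have h4 : a1f y0 ^ 2 * (xf y0 ^ 2 - 1) = 0 := by
      linear_combination (1 / 4) * h1 - (xf y0 ^ 2 / 4) * h2 + (xf y0 ^ 2 / 4 - 1) * hA
    have h5 : xf y0 ^ 2 - 1 = 0 := by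
      rcases mul_eq_zero.mp h4 with h6 | h6
      · exact absurd h6 (by positivity)
      · exact h6
    have h6 := xf_pos y0
    nlinarith
  have hxle : ∀ y, y0 ≤ y → xf y ≤ 1 := fun y hy => by
    rw [← hx0]
    exact xf_antitone y0_gt (hh hy) hy
  have hx : ∀ y, y0 ≤ y → HasDerivAt xf (-(Real.pi * xf y * (a1f y * a2f y))) y := fun y hy =>
    M_hasDerivAt_xf (by linarith [hh hy])
  have hw : ∀ y, y0 ≤ y → wf y ^ 2 = (1 - xf y ^ 2 / 16) * (1 - xf y ^ 2 / 4) := fun y hy =>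
    M_w_sq_of (hh hy) (hrel (hh hy))
  refine modX_of h (fun y hy => M_w_pos (hh hy)) hw (fun y hy => M_aa (hh hy)) hx hx0 hxle
    (fun y hy => M_F4_of (hh hy) (hrel (hh hy))) hfr ?_
  intro y hy
  refine m_af h (x := xf) (Z := Zf) (w := wf) (l := ellf) (a := y0) (fun y _ => xf_pos y) hxle
    (fun y hy => M_Z_pos (hh hy)) (fun y hy => M_w_pos (hh hy)) hw ?_ ?_ ?_ hxl hZl hy
  · intro y hy
    rw [← M_aa (hh hy)]
    exact hx y hy
  · intro y hy
    exact (hasDerivAt_Zf (by linarith [hh hy])).congr_deriv (by ring)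
  · intro y hy
    exact M_hasDerivAt_ellf_of (hh hy) (hrel (hh hy))

end Pool.Agent.Lib.BM
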