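import Pool.Agent.Lib.BM.MDer

set_option autoImplicit false

/-!
# BM.MLine: the functions of block (M) on the line, `y > 1/2`
-/

namespace Pool.Agent.Lib.BM

open Finset LamAux Filter Topology MDerAux

noncomputable section

namespace MLineAux

/-- bound for `a(q) - 1` -/
theorem aR_bound {q : ℝ} (hq : |q| < 1) : |aR q - 1| ≤ 6 * (|q| / (1 - |q|) ^ 2) := by
  have h0 : 0 < 1 - |q| := by linarith
  have h1 : aR q - 1 = 6 * ∑' n : ℕ, chi3 (n + 1) * (q ^ (n + 1) / (1 - q ^ (n + 1))) := by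
    unfold aR; ring
  have hg : HasSum (fun n : ℕ => (1 - |q|)⁻¹ * (|q| * |q| ^ n)) ((1 - |q|)⁻¹ * (|q| * (1 - |q|)⁻¹)) :=
    ((hasSum_geometric_of_lt_one (abs_nonneg q) hq).mul_left |q|).mul_left _
  have h2 := tsum_of_norm_bounded (f := fun n : ℕ => chi3 (n + 1) * (q ^ (n + 1) / (1 - q ^ (n + 1))))
    hg (by
      intro n
      have h3 := one_sub_ge (le_refl |q|) hq n
      have h4 : 0 < 1 - q ^ (n + 1) := by linarith
      rw [norm_mul, norm_div, Real.norm_of_nonneg h4.le, norm_pow]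
      have h5 : ‖chi3 (n + 1)‖ ≤ 1 := by
        unfold chi3
        split_ifs <;> simp
      have h6 : ‖q‖ ^ (n + 1) / (1 - q ^ (n + 1)) ≤ (1 - |q|)⁻¹ * (|q| * |q| ^ n) := by
        rw [div_eq_inv_mul, pow_succ' ‖q‖ n]
        have h7 : (1 - q ^ (n + 1))⁻¹ ≤ (1 - |q|)⁻¹ := inv_anti₀ h0 h3
        have h8 : 0 ≤ ‖q‖ * ‖q‖ ^ n := by positivity
        exact mul_le_mul_of_nonneg_right h7 h8
      have h9 : 0 ≤ ‖q‖ ^ (n + 1) / (1 - q ^ (n + 1)) := by positivity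
      calc _ ≤ 1 * (‖q‖ ^ (n + 1) / (1 - q ^ (n + 1))) := by gcongr
        _ ≤ _ := by rw [one_mul]; exact h6)
  rw [h1, abs_mul, abs_of_pos (by norm_num : (0:ℝ) < 6)]
  have h10 : (1 - |q|)⁻¹ * (|q| * (1 - |q|)⁻¹) = |q| / (1 - |q|) ^ 2 := by
    field_simp
  rw [h10] at h2
  exact mul_le_mul_of_nonneg_left h2 (by norm_num)

theorem exp_neg_pi_lt : Real.exp (-Real.pi) < 1 / 20 := by
  have h1 : Real.exp (-Real.pi) ≤ Real.exp (-3) := Real.exp_le_exp.mpr (by linarith [Real.pi_gt_three])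
  have h2 : Real.exp (-3) = (Real.exp (-1)) ^ 3 := by rw [← Real.exp_nat_mul]; norm_num
  have h3 : Real.exp (-1) < 0.3678794412 := Real.exp_neg_one_lt_d9
  have h4 : (Real.exp (-1)) ^ 3 < 0.3678794412 ^ 3 :=
    pow_lt_pow_left₀ h3 (Real.exp_pos _).le (by norm_num)
  have h5 : (0.3678794412 : ℝ) ^ 3 < 1 / 20 := by norm_num
  linarith

theorem qn_abs_half {y : ℝ} (hy : 1 / 2 < y) : |qn y| < 1 / 20 := by
  unfold qn
  rw [abs_neg, abs_of_pos (Real.exp_pos _)]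
  refine lt_of_le_of_lt (Real.exp_le_exp.mpr ?_) exp_neg_pi_lt
  nlinarith [Real.pi_pos]

theorem a1_near {y : ℝ} (hy : 1 / 2 < y) : |a1f y - 1| < 1 / 3 := by
  have h := qn_abs_half hy
  have h1 : |qn y| < 1 := by linarith
  have h2 := aR_bound h1
  have h3 : |qn y| / (1 - |qn y|) ^ 2 < 1 / 18 := by
    rw [div_lt_iff₀ (by have : 0 < 1 - |qn y| := by linarith
                        positivity)]
    nlinarith [abs_nonneg (qn y)]
  unfold a1f
  linarith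

theorem a2_near {y : ℝ} (hy : 1 / 2 < y) : |a2f y - 1| < 1 / 60 := by
  have h := qn_abs_half hy
  have h0 : |qn y ^ 2| < 1 / 400 := by
    rw [abs_pow]
    nlinarith [abs_nonneg (qn y)]
  have h1 : |qn y ^ 2| < 1 := by linarith
  have h2 := aR_bound h1
  have h3 : |qn y ^ 2| / (1 - |qn y ^ 2|) ^ 2 < 1 / 360 := by
    rw [div_lt_iff₀ (by have : 0 < 1 - |qn y ^ 2| := by linarith
                        positivity)]
    nlinarith [abs_nonneg (qn y ^ 2)]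
  unfold a2f
  linarith

end MLineAux

open MLineAux

theorem M_a1_pos {y : ℝ} (hy : 1 / 2 < y) : 0 < a1f y := by
  have := abs_lt.mp (a1_near hy); linarith [this.1]

theorem M_a2_pos {y : ℝ} (hy : 1 / 2 < y) : 0 < a2f y := by
  have := abs_lt.mp (a2_near hy); linarith [this.1]

theorem M_Z_pos {y : ℝ} (hy : 1 / 2 < y) : 0 < Zf y := by
  have h1 := abs_lt.mp (a1_near hy)
  have h2 := abs_lt.mp (a2_near hy)
  unfold Zf
  have h3 : a1f y ^ 2 < (4 / 3) ^ 2 := by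
    have := M_a1_pos hy
    nlinarith [h1.2]
  have h4 : (59 / 60) ^ 2 < a2f y ^ 2 := by nlinarith [h2.1]
  norm_num at h3 h4
  linarith

theorem M_w_pos {y : ℝ} (hy : 1 / 2 < y) : 0 < wf y :=
  div_pos (mul_pos (M_a1_pos hy) (M_a2_pos hy)) (M_Z_pos hy)

theorem M_aa {y : ℝ} (hy : 1 / 2 < y) : a1f y * a2f y = Zf y * wf y := by
  have h := (M_Z_pos hy).ne'
  unfold wf
  field_simp

/-! derivatives -/

theorem a1f_sq {y : ℝ} (hy : 0 < y) : a1f y ^ 2 = 1 + 12 * S1 (qn y) - 36 * S1 (qn y ^ 3) :=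
  aR_sq (qn_abs_lt hy)

theorem a2f_sq {y : ℝ} (hy : 0 < y) :
    a2f y ^ 2 = 1 + 12 * S1 (qn y ^ 2) - 36 * S1 (qn y ^ 6) := by
  have h := aR_sq (qn_pow_abs_lt hy (d := 2) (by norm_num))
  rw [← pow_mul] at h
  exact h

theorem P_two {y : ℝ} (hy : 0 < y) : 2 * (1 - 24 * S1 (qn y ^ 2)) - P1f y
    = a1f y ^ 2 + 2 * (a1f y * a2f y) - 2 * a2f y ^ 2 := PR_two (qn_abs_lt hy)

theorem hasDerivAt_a1f_sq {y : ℝ} (hy : 0 < y) :
    HasDerivAt (fun y => a1f y ^ 2) (-(2 * Real.pi) * (2 * a1f y * ((a1f y * P1f y + a1f y ^ 3 +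
      6 * a1f y ^ 2 * a2f y - 8 * a2f y ^ 3) / 12))) y := by
  have h1 := hasDerivAt_S1q hy (d := 1) (by norm_num)
  have h3 := hasDerivAt_S1q hy (d := 3) (by norm_num)
  simp only [pow_one] at h1
  have h := ((h1.const_mul 12).const_add 1).sub (h3.const_mul 36)
  refine (h.congr_of_eventuallyEq ?_).congr_deriv ?_
  · filter_upwards [lt_mem_nhds hy] with z hz
    rw [a1f_sq hz]
    simp only [Pi.sub_apply]
  · have hq := qn_abs_lt hy
    have hq3 := qn_pow_abs_lt hy (d := 3) (by norm_num)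
    obtain ⟨e1, -, e3, -⟩ := QR_all hq
    rw [DS1_eq hq, DS1_eq hq3]
    have e4 := a1f_sq hy
    have e5 : P1f y = 1 - 24 * S1 (qn y) := rfl
    have e1' : 1 + 240 * S3 (qn y) = 5 * a1f y ^ 4 + 12 * a1f y ^ 3 * a2f y -
      16 * a1f y * a2f y ^ 3 := e1
    have e3' : 9 * (1 + 240 * S3 (qn y ^ 3)) = 5 * a1f y ^ 4 - 12 * a1f y ^ 3 * a2f y +
      16 * a1f y * a2f y ^ 3 := e3
    have s1 : S1 (qn y) = (1 - P1f y) / 24 := by rw [e5]; ring
    have s3 : S1 (qn y ^ 3) = (1 + 12 * S1 (qn y) - a1f y ^ 2) / 36 := by linarith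
    have t1 : S3 (qn y) = (5 * a1f y ^ 4 + 12 * a1f y ^ 3 * a2f y -
      16 * a1f y * a2f y ^ 3 - 1) / 240 := by linarith
    have t3 : S3 (qn y ^ 3) = ((5 * a1f y ^ 4 - 12 * a1f y ^ 3 * a2f y +
      16 * a1f y * a2f y ^ 3) / 9 - 1) / 240 := by linarith
    rw [t1, t3, s3, s1]
    push_cast
    ring

theorem hasDerivAt_a2f_sq {y : ℝ} (hy : 0 < y) :
    HasDerivAt (fun y => a2f y ^ 2) (-(2 * Real.pi) * (2 * a2f y * ((a2f y * P1f y + 2 * a1f y ^ 3 +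
      a1f y ^ 2 * a2f y - 4 * a1f y * a2f y ^ 2) / 12))) y := by
  have h1 := hasDerivAt_S1q hy (d := 2) (by norm_num)
  have h3 := hasDerivAt_S1q hy (d := 6) (by norm_num)
  have h := ((h1.const_mul 12).const_add 1).sub (h3.const_mul 36)
  refine (h.congr_of_eventuallyEq ?_).congr_deriv ?_
  · filter_upwards [lt_mem_nhds hy] with z hz
    rw [a2f_sq hz]
    simp only [Pi.sub_apply]
  · have hq2 := qn_pow_abs_lt hy (d := 2) (by norm_num)
    have hq6 := qn_pow_abs_lt hy (d := 6) (by norm_num)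
    obtain ⟨-, e1, -, e3⟩ := QR_all (qn_abs_lt hy)
    rw [DS1_eq hq2, DS1_eq hq6]
    have e4 := a2f_sq hy
    have e5 := P_two hy
    have e1' : 1 + 240 * S3 (qn y ^ 2) = 5 * a2f y ^ 4 - 6 * a1f y * a2f y ^ 3 +
      2 * a1f y ^ 3 * a2f y := e1
    have e3' : 9 * (1 + 240 * S3 (qn y ^ 6)) = 5 * a2f y ^ 4 + 6 * a1f y * a2f y ^ 3 -
      2 * a1f y ^ 3 * a2f y := e3
    have s1 : S1 (qn y ^ 2) = (1 - (P1f y + a1f y ^ 2 + 2 * (a1f y * a2f y) -
      2 * a2f y ^ 2) / 2) / 24 := by linarith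
    have s3 : S1 (qn y ^ 6) = (1 + 12 * S1 (qn y ^ 2) - a2f y ^ 2) / 36 := by linarith
    have t1 : S3 (qn y ^ 2) = (5 * a2f y ^ 4 - 6 * a1f y * a2f y ^ 3 +
      2 * a1f y ^ 3 * a2f y - 1) / 240 := by linarith
    have t3 : S3 (qn y ^ 6) = ((5 * a2f y ^ 4 + 6 * a1f y * a2f y ^ 3 -
      2 * a1f y ^ 3 * a2f y) / 9 - 1) / 240 := by linarith
    rw [t1, t3, s3, s1]
    push_cast
    ring

namespace MLineAux

theorem hasDerivAt_of_sq {f : ℝ → ℝ} {c y : ℝ} (hpos : ∀ᶠ z in 𝓝 y, 0 < f z)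
    (h : HasDerivAt (fun z => f z ^ 2) (2 * f y * c) y) : HasDerivAt f c y := by
  have h0 : 0 < f y := hpos.self_of_nhds
  have h1 : HasDerivAt (fun z => Real.sqrt (f z ^ 2)) (2 * f y * c / (2 * Real.sqrt (f y ^ 2))) y :=
    h.sqrt (by positivity)
  rw [Real.sqrt_sq h0.le] at h1
  refine (h1.congr_of_eventuallyEq ?_).congr_deriv ?_
  · filter_upwards [hpos] with z hz
    rw [Real.sqrt_sq hz.le]
  · field_simp

end MLineAux

theorem hasDerivAt_a1f {y : ℝ} (hy : 1 / 2 < y) :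
    HasDerivAt a1f (-(2 * Real.pi) * ((a1f y * P1f y + a1f y ^ 3 +
      6 * a1f y ^ 2 * a2f y - 8 * a2f y ^ 3) / 12)) y := by
  apply hasDerivAt_of_sq
  · filter_upwards [lt_mem_nhds hy] with z hz
    exact M_a1_pos hz
  · exact (hasDerivAt_a1f_sq (by linarith)).congr_deriv (by ring)

theorem hasDerivAt_a2f {y : ℝ} (hy : 1 / 2 < y) :
    HasDerivAt a2f (-(2 * Real.pi) * ((a2f y * P1f y + 2 * a1f y ^ 3 +
      a1f y ^ 2 * a2f y - 4 * a1f y * a2f y ^ 2) / 12)) y := by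
  apply hasDerivAt_of_sq
  · filter_upwards [lt_mem_nhds hy] with z hz
    exact M_a2_pos hz
  · exact (hasDerivAt_a2f_sq (by linarith)).congr_deriv (by ring)

/-- `ℓ = D log Z` -/
def ellf (y : ℝ) : ℝ := (P1f y + a1f y ^ 2 - 2 * (a1f y * a2f y)) / 6

theorem hasDerivAt_Zf {y : ℝ} (hy : 0 < y) :
    HasDerivAt Zf (-(2 * Real.pi) * (ellf y * Zf y)) y := by
  have h := (((hasDerivAt_a2f_sq hy).const_mul 4).sub (hasDerivAt_a1f_sq hy)).div_const 3
  refine h.congr_deriv ?_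
  unfold ellf Zf
  ring

/-- `D (a b)` -/
theorem hasDerivAt_ab {y : ℝ} (hy : 1 / 2 < y) :
    HasDerivAt (fun y => a1f y * a2f y) (-(2 * Real.pi) * ((2 * (a1f y * a2f y) * P1f y +
      2 * a1f y ^ 4 + 2 * a1f y ^ 3 * a2f y + 2 * a1f y ^ 2 * a2f y ^ 2 - 8 * a2f y ^ 4) / 12)) y := by
  refine ((hasDerivAt_a1f hy).mul (hasDerivAt_a2f hy)).congr_deriv ?_
  ring

end

end Pool.Agent.Lib.BM
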