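import Pool.Agent.Lib.BM.MLine

set_option autoImplicit false

/-!
# BM.MX: the relation between `x`, `Z` and `a(q)`, `a(q²)`, and its consequences
-/

namespace Pool.Agent.Lib.BM

open Finset LamAux Filter Topology MDerAux MLineAux

noncomputable section

namespace MXAux

/-- the quotient which is constant -/
def Rq (y : ℝ) : ℝ := (a2f y ^ 2 - a1f y ^ 2) / Zf y * Real.exp (-(2 * lx y))

theorem hasDerivAt_Rq {y : ℝ} (hy : 1 / 2 < y) : HasDerivAt Rq 0 y := by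
  have hy0 : 0 < y := by linarith
  have hZ := (M_Z_pos hy).ne'
  have h1 := (hasDerivAt_a2f_sq hy0).sub (hasDerivAt_a1f_sq hy0)
  have h2 := h1.div (hasDerivAt_Zf hy0) hZ
  have h3 : HasDerivAt (fun y => Real.exp (-(2 * lx y)))
      (Real.exp (-(2 * lx y)) * (-(2 * (-(Real.pi * (a1f y * a2f y)))))) y :=
    ((hasDerivAt_lx hy0).const_mul 2).neg.exp
  refine (h2.mul h3).congr_deriv ?_
  simp only [Pi.sub_apply, Pi.div_apply]
  have hZ2 : a2f y ^ 2 * 4 - a1f y ^ 2 ≠ 0 := by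
    have : a2f y ^ 2 * 4 - a1f y ^ 2 = 3 * Zf y := by unfold Zf; ring
    rw [this]; positivity
  unfold ellf Zf
  field_simp
  ring

theorem Rq_const {y z : ℝ} (hy : 1 / 2 < y) (hz : 1 / 2 < z) : Rq y = Rq z := by
  have h : ∀ x ∈ Set.Ioi (1/2 : ℝ), HasDerivWithinAt Rq 0 (Set.Ioi (1/2 : ℝ)) x := fun x hx =>
    (hasDerivAt_Rq hx).hasDerivWithinAt
  have h2 := (convex_Ioi (1/2 : ℝ)).norm_image_sub_le_of_norm_hasDerivWithin_le (C := 0) h
    (fun x _ => by simp) hz hy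
  rw [zero_mul] at h2
  exact sub_eq_zero.mp (norm_le_zero_iff.mp h2)

end MXAux

open MXAux

section lim

variable (h12 : Tendsto (fun y => (a2f y ^ 2 - a1f y ^ 2) * Real.exp (2 * Real.pi * y)) atTop (𝓝 12))
  (h64 : Tendsto (fun y => Real.exp (-(2 * lx y)) * Real.exp (-(2 * Real.pi * y))) atTop
    (𝓝 (1 / 64)))
  (hZl : Tendsto Zf atTop (𝓝 1))

include h12 h64 hZl

theorem Rq_eq {y : ℝ} (hy : 1 / 2 < y) : Rq y = 3 / 16 := by
  have h1 : Tendsto Rq atTop (𝓝 (12 * (1 / 64) / 1)) := by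
    refine ((h12.mul h64).div hZl (by norm_num)).congr fun z => ?_
    unfold Rq
    have h2 : Real.exp (2 * Real.pi * z) * Real.exp (-(2 * Real.pi * z)) = 1 := by
      rw [← Real.exp_add]; simp
    have h3 : (a2f z ^ 2 - a1f z ^ 2) * Real.exp (2 * Real.pi * z) *
        (Real.exp (-(2 * lx z)) * Real.exp (-(2 * Real.pi * z)))
        = (a2f z ^ 2 - a1f z ^ 2) * Real.exp (-(2 * lx z)) *
          (Real.exp (2 * Real.pi * z) * Real.exp (-(2 * Real.pi * z))) := by ring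
    rw [Pi.div_apply, h3, h2]
    ring
  have h4 : Tendsto Rq atTop (𝓝 (Rq y)) := by
    refine tendsto_const_nhds.congr' ?_
    filter_upwards [eventually_gt_atTop (1/2 : ℝ)] with z hz
    exact Rq_const hy hz
  have h5 := tendsto_nhds_unique h4 h1
  rw [h5]; norm_num

/-- `3 Z x² = 16 (a(q²)² - a(q)²)` -/
theorem M_rel_of {y : ℝ} (hy : 1 / 2 < y) : 3 * (Zf y * xf y ^ 2) = 16 * (a2f y ^ 2 - a1f y ^ 2) := by
  have h := Rq_eq h12 h64 hZl hy
  have hZ := (M_Z_pos hy).ne'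
  unfold Rq at h
  have h1 : Real.exp (-(2 * lx y)) * xf y ^ 2 = 1 := by
    unfold xf
    rw [← Real.exp_nat_mul, ← Real.exp_add]
    simp
  have h2 : (a2f y ^ 2 - a1f y ^ 2) / Zf y = 3 / 16 * xf y ^ 2 := by
    calc (a2f y ^ 2 - a1f y ^ 2) / Zf y
        = (a2f y ^ 2 - a1f y ^ 2) / Zf y * (Real.exp (-(2 * lx y)) * xf y ^ 2) := by
          rw [h1, mul_one]
      _ = ((a2f y ^ 2 - a1f y ^ 2) / Zf y * Real.exp (-(2 * lx y))) * xf y ^ 2 := by ring
      _ = _ := by rw [h]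
  rw [div_eq_iff hZ] at h2
  rw [h2]
  ring

end lim

section rel

variable {y : ℝ} (hy : 1 / 2 < y)
  (hrel : 3 * (Zf y * xf y ^ 2) = 16 * (a2f y ^ 2 - a1f y ^ 2))

include hy hrel

theorem M_w_sq_of : wf y ^ 2 = (1 - xf y ^ 2 / 16) * (1 - xf y ^ 2 / 4) := by
  have hZ := (M_Z_pos hy).ne'
  have h1 : Zf y * (1 - xf y ^ 2 / 16) = a2f y ^ 2 := by
    have : 3 * Zf y = 4 * a2f y ^ 2 - a1f y ^ 2 := by unfold Zf; ring
    linear_combination (-1 / 48) * hrel + (1 / 3) * this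
  have h2 : Zf y * (1 - xf y ^ 2 / 4) = a1f y ^ 2 := by
    have : 3 * Zf y = 4 * a2f y ^ 2 - a1f y ^ 2 := by unfold Zf; ring
    linear_combination (-1 / 12) * hrel + (1 / 3) * this
  have h3 := M_aa hy
  have h4 : Zf y ^ 2 * wf y ^ 2 = Zf y ^ 2 * ((1 - xf y ^ 2 / 16) * (1 - xf y ^ 2 / 4)) := by
    calc Zf y ^ 2 * wf y ^ 2 = (Zf y * wf y) ^ 2 := by ring
      _ = a2f y ^ 2 * a1f y ^ 2 := by rw [← h3]; ring
      _ = _ := by rw [← h1, ← h2]; ring
  exact mul_left_cancel₀ (pow_ne_zero 2 hZ) h4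

theorem M_F4_of : F4 y = Zf y ^ 2 * wf y * xf y ^ 2 / 64 := by
  have hy0 : 0 < y := by linarith
  have h3 := M_aa hy
  have h4 : F4 y = (a2f y ^ 2 - a1f y ^ 2) * (a1f y * a2f y) / 12 := by
    obtain ⟨e1, e2, e3, e6⟩ := QR_all (qn_abs_lt hy0)
    unfold F4 a1f a2f
    linear_combination (-1 / 240) * e1 + (1 / 240) * e2 + (1 / 240) * e3 - (1 / 240) * e6
  rw [h4, h3]
  linear_combination (-(Zf y * wf y) / 192) * hrel

theorem M_xf_sq_of : xf y ^ 2 = 16 * (a2f y ^ 2 - a1f y ^ 2) / (3 * Zf y) := by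
  have hZ := (M_Z_pos hy).ne'
  rw [eq_div_iff (by positivity)]
  linear_combination hrel

/-- the derivative of `l = D log Z` -/
theorem M_hasDerivAt_ellf_of : HasDerivAt ellf
    (-Real.pi * (ellf y ^ 2 + xf y ^ 2 * (8 - xf y ^ 2) / 64 * Zf y ^ 2)) y := by
  have hy0 : 0 < y := by linarith
  have h := (((hasDerivAt_P1f hy0).add (hasDerivAt_a1f_sq hy0)).sub
    ((hasDerivAt_ab hy).const_mul 2)).div_const 6
  refine h.congr_deriv ?_
  have e1 : xf y ^ 2 * (8 - xf y ^ 2) / 64 * Zf y ^ 2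
      = (1 / 64) * (8 * Zf y * (Zf y * xf y ^ 2) - (Zf y * xf y ^ 2) ^ 2) := by ring
  have e2 : Zf y * xf y ^ 2 = 16 / 3 * (a2f y ^ 2 - a1f y ^ 2) := by linarith
  rw [e1, e2]
  unfold ellf Zf
  ring

end rel

end

end Pool.Agent.Lib.BM
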