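import Pool.Agent.Lib.BM.LDefs
import Pool.Agent.Lib.BM.QBounds
import Pool.Agent.Lib.BM.Omega

set_option autoImplicit false

/-! # BM.P2: block (P2) from (L1), (L2), (CM) -/

open Filter Topology MeasureTheory Set

namespace Pool.Agent.Lib.BM

namespace P2Aux

lemma integrable : IntegrableOn (fun y => -(64 * Real.pi ^ 5 / 3) * (y * (F4 y * lx y))) (Ioi y0) := by
  obtain ⟨C, hC, h⟩ := F4_lx_bound
  have hpi := Real.pi_pos
  have hcont : ContinuousOn (fun y => F4 y * lx y) (Ici y0) :=
    (F4_continuousOn.mul lx_continuousOn).mono (Ici_subset_Ici.2 y0_gt.le)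
  have hi : IntegrableOn (fun y => y * (F4 y * lx y)) (Ioi y0) := by
    refine integrable_of_isBigO_exp_neg (b := Real.pi / 2) (by positivity)
      (continuousOn_id.mul hcont) ?_
    have t := Omega.tendsto_mul_exp (by positivity : 0 < Real.pi / 2)
    have ht : ∀ᶠ y : ℝ in atTop, |y * Real.exp (-(Real.pi / 2 * y))| ≤ 1 := by
      have := t.abs
      rw [abs_zero] at this
      exact this.eventually_le_const one_pos
    apply Asymptotics.IsBigO.of_bound C
    filter_upwards [ht, eventually_ge_atTop (1 / 2)] with y hy1 hy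
    rw [Real.norm_eq_abs, Real.norm_eq_abs, abs_mul, abs_of_nonneg (Real.exp_pos (-(Real.pi / 2) * y)).le]
    have e : Real.exp (-(Real.pi * y)) = Real.exp (-(Real.pi / 2 * y)) * Real.exp (-(Real.pi / 2) * y) := by
      rw [← Real.exp_add]; congr 1; ring
    rw [abs_mul, abs_of_nonneg (Real.exp_pos (-(Real.pi / 2 * y))).le] at hy1
    calc |y| * |F4 y * lx y| ≤ |y| * (C * Real.exp (-(Real.pi * y))) :=
          mul_le_mul_of_nonneg_left (h y hy) (abs_nonneg _)
      _ = (|y| * Real.exp (-(Real.pi / 2 * y))) * (C * Real.exp (-(Real.pi / 2) * y)) := by rw [e]; ring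
      _ ≤ 1 * (C * Real.exp (-(Real.pi / 2) * y)) :=
          mul_le_mul_of_nonneg_right hy1 (by positivity)
      _ = C * Real.exp (-(Real.pi / 2) * y) := one_mul _
  exact hi.const_mul _

end P2Aux

/-- **Block (P2)** from the three statements on the lattice sums. -/
theorem p2 (h1 : StL1) (h2 : StL2) (h3 : StCM) : StP2 := by
  have hI := integral_Ioi_of_hasDerivAt_of_tendsto' (f := PsiR) (fun y hy => h1 y hy)
    P2Aux.integrable h2
  rw [integral_const_mul] at hI
  unfold StCM at h3
  have hP : PsiR y0 = y0 ^ 3 * (-135 * (lat0 / 2 - lat1 / 54)) := by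
    unfold PsiR; rw [h3]
  rw [hP] at hI
  have hy : y0 ^ 3 = 15 * Real.sqrt 15 / 216 := by
    unfold y0
    have : Real.sqrt 15 ^ 2 = 15 := Real.sq_sqrt (by norm_num)
    have h3' : Real.sqrt 15 ^ 3 = 15 * Real.sqrt 15 := by rw [pow_succ, this]
    rw [div_pow, h3']; norm_num
  rw [hy] at hI
  unfold StP2 TT
  have hpi : Real.pi ≠ 0 := Real.pi_ne_zero
  set J := ∫ y in Ioi y0, y * (F4 y * lx y) with hJ
  set X := lat0 / 2 - lat1 / 54 with hX
  have hJ2 : J = (7 * Real.pi ^ 3 * zeta3 / 9 - 15 * Real.sqrt 15 / 216 * (135 * X)) *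
      (3 / (64 * Real.pi ^ 5)) := by
    field_simp
    linarith
  rw [hJ2]
  field_simp
  ring

end Pool.Agent.Lib.BM
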