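import Pool.Agent.Lib.BM.MDefs

set_option autoImplicit false

/-!
# BM.Ram: Ramanujan's two identities of 1916

For real `θ` and complex `q`, `‖q‖ < 1`, as identities between trigonometric series (no cotangents).
-/

namespace Pool.Agent.Lib.BM

open Finset LamAux

noncomputable section

namespace RamAux

variable {q : ℂ} {θ : ℝ}

/-- `cos (n θ)` as a complex number -/
def c (θ : ℝ) (n : ℕ) : ℂ := (Real.cos (n * θ) : ℂ)

/-- `sin (n θ)` as a complex number -/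
def s (θ : ℝ) (n : ℕ) : ℂ := (Real.sin (n * θ) : ℂ)

/-- `cos ((i - j) θ)` as a complex number -/
def cd (θ : ℝ) (i j : ℕ) : ℂ := (Real.cos (((i : ℝ) - j) * θ) : ℂ)

theorem pg_c (f : ℕ → ℕ) : PG fun n => c θ (f n) := by
  refine PG.of_bound (C := 1) fun n => ?_
  unfold c
  rw [Complex.norm_real]
  exact Real.abs_cos_le_one _

theorem pg_s (f : ℕ → ℕ) : PG fun n => s θ (f n) := by
  refine PG.of_bound (C := 1) fun n => ?_
  unfold s
  rw [Complex.norm_real]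
  exact Real.abs_sin_le_one _

theorem pg2_cd : PG2 fun i j => cd θ i j := by
  refine ⟨1, 0, zero_le_one, fun i j => ?_⟩
  unfold cd
  rw [Complex.norm_real]
  simpa using Real.abs_cos_le_one _

theorem pg2_c (f : ℕ → ℕ → ℕ) : PG2 fun i j => c θ (f i j) := by
  refine ⟨1, 0, zero_le_one, fun i j => ?_⟩
  unfold c
  rw [Complex.norm_real]
  simpa using Real.abs_cos_le_one _

theorem s_mul_s (i j : ℕ) : s θ (i + 1) * s θ (j + 1) = (cd θ i j - c θ (i + j + 2)) / 2 := by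
  unfold s cd c
  have h : Real.sin (((i + 1 : ℕ) : ℝ) * θ) * Real.sin (((j + 1 : ℕ) : ℝ) * θ)
      = (Real.cos (((i : ℝ) - j) * θ) - Real.cos (((i + j + 2 : ℕ) : ℝ) * θ)) / 2 := by
    have h1 : ((i : ℝ) - j) * θ = ((i + 1 : ℕ) : ℝ) * θ - ((j + 1 : ℕ) : ℝ) * θ := by
      push_cast; ring
    have h2 : ((i + j + 2 : ℕ) : ℝ) * θ = ((i + 1 : ℕ) : ℝ) * θ + ((j + 1 : ℕ) : ℝ) * θ := by
      push_cast; ring
    rw [h1, h2, Real.cos_sub, Real.cos_add]
    ring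
  exact_mod_cast h

theorem c_mul_c (i j : ℕ) : c θ (i + 1) * c θ (j + 1) = (cd θ i j + c θ (i + j + 2)) / 2 := by
  unfold cd c
  have h : Real.cos (((i + 1 : ℕ) : ℝ) * θ) * Real.cos (((j + 1 : ℕ) : ℝ) * θ)
      = (Real.cos (((i : ℝ) - j) * θ) + Real.cos (((i + j + 2 : ℕ) : ℝ) * θ)) / 2 := by
    have h1 : ((i : ℝ) - j) * θ = ((i + 1 : ℕ) : ℝ) * θ - ((j + 1 : ℕ) : ℝ) * θ := by
      push_cast; ring
    have h2 : ((i + j + 2 : ℕ) : ℝ) * θ = ((i + 1 : ℕ) : ℝ) * θ + ((j + 1 : ℕ) : ℝ) * θ := by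
      push_cast; ring
    rw [h1, h2, Real.cos_sub, Real.cos_add]
    ring
  exact_mod_cast h

theorem cd_self (i : ℕ) : cd θ i i = 1 := by
  unfold cd; simp

theorem cd_up (k i : ℕ) : cd θ i (k + i + 1) = c θ (k + 1) := by
  unfold cd c
  congr 1
  rw [← Real.cos_neg]
  congr 1
  push_cast
  ring

theorem cd_down (k i : ℕ) : cd θ (k + i + 1) i = c θ (k + 1) := by
  unfold cd c
  congr 2
  push_cast
  ring

/-- the `cos ((i - j) θ)` part of a square -/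
theorem part_minus (hq : ‖q‖ < 1) {a : ℕ → ℂ} (ha : PG a) {H : ℕ → ℂ}
    (hH : ∀ k, HasSum (fun i => a i * a (k + i + 1) * (u q (i + 1) - u q (k + i + 2))) (H k)) :
    ∑' p : ℕ × ℕ, (a p.1 * a p.2 * cd θ p.1 p.2) * (u q (p.1 + 1) * u q (p.2 + 1))
      = ∑' i, (a i ^ 2 * u q (i + 1)) * u q (i + 1) +
        2 * (∑' k, c θ (k + 1) * H k * u q (k + 1) -
          ∑' p : ℕ × ℕ, (c θ (p.1 + 1) * (a p.2 * a (p.1 + p.2 + 1))) * u q (p.1 + p.2 + 2)) := by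
  have hF : Summable fun p : ℕ × ℕ =>
      (a p.1 * a p.2 * cd θ p.1 p.2) * (u q (p.1 + 1) * u q (p.2 + 1)) :=
    PG2.summable_mul hq (w := fun i j => a i * a j * cd θ i j)
      (((PG2.fst ha).mul (PG2.snd ha)).mul pg2_cd)
  rw [tsum_tri hF]
  simp only [cd_self, cd_up, cd_down]
  have hC : Summable fun p : ℕ × ℕ =>
      (c θ (p.1 + 1) * (a p.2 * a (p.1 + p.2 + 1))) * u q (p.1 + p.2 + 2) :=
    PG2.summable hq (w := fun i j => c θ (i + 1) * (a j * a (i + j + 1)))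
      ((PG2.fst (pg_c (fun n => n + 1))).mul ((PG2.snd ha).mul (PG2.shift ha)))
  have hA1 : Summable fun p : ℕ × ℕ =>
      (c θ (p.1 + 1) * (a p.2 * a (p.1 + p.2 + 1))) * (u q (p.1 + 1) * u q (p.2 + 1)) :=
    PG2.summable_mul hq (w := fun i j => c θ (i + 1) * (a j * a (i + j + 1)))
      ((PG2.fst (pg_c (fun n => n + 1))).mul ((PG2.snd ha).mul (PG2.shift ha)))
  have hA2 : Summable fun p : ℕ × ℕ =>
      (c θ (p.1 + 1) * (a p.2 * a (p.1 + p.2 + 1)) * u q (p.1 + 1)) * u q (p.1 + p.2 + 2) :=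
    PG2.summable hq (w := fun i j => c θ (i + 1) * (a j * a (i + j + 1)) * u q (i + 1))
      (((PG2.fst (pg_c (fun n => n + 1))).mul ((PG2.snd ha).mul (PG2.shift ha))).mul
        (PG2.fst (PG.u hq)))
  have hA : Summable fun p : ℕ × ℕ => c θ (p.1 + 1) * u q (p.1 + 1) *
      (a p.2 * a (p.1 + p.2 + 1) * (u q (p.2 + 1) - u q (p.1 + p.2 + 2))) := by
    refine (hA1.sub hA2).congr fun p => ?_
    ring
  have hsum : ∑' p : ℕ × ℕ, c θ (p.1 + 1) * u q (p.1 + 1) *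
      (a p.2 * a (p.1 + p.2 + 1) * (u q (p.2 + 1) - u q (p.1 + p.2 + 2)))
      = ∑' k, c θ (k + 1) * H k * u q (k + 1) := by
    rw [hA.tsum_prod]
    refine tsum_congr fun k => ?_
    have h5 : ∑' i, c θ (k + 1) * u q (k + 1) *
        (a i * a (k + i + 1) * (u q (i + 1) - u q (k + i + 2))) = c θ (k + 1) * u q (k + 1) * H k := by
      rw [tsum_mul_left, (hH k).tsum_eq]
    calc _ = c θ (k + 1) * u q (k + 1) * H k := h5
      _ = _ := by ring
  have hkey : ∀ p : ℕ × ℕ, a p.2 * a (p.1 + p.2 + 1) * c θ (p.1 + 1) *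
      (u q (p.2 + 1) * u q (p.1 + p.2 + 1 + 1))
      = c θ (p.1 + 1) * u q (p.1 + 1) *
      (a p.2 * a (p.1 + p.2 + 1) * (u q (p.2 + 1) - u q (p.1 + p.2 + 2))) -
      (c θ (p.1 + 1) * (a p.2 * a (p.1 + p.2 + 1))) * u q (p.1 + p.2 + 2) := by
    intro p
    have h := u_sub hq (k := p.1 + 1) (n := p.2 + 1) (by omega) (by omega)
    have h2 : p.2 + 1 + (p.1 + 1) = p.1 + p.2 + 2 := by omega
    rw [h2] at h
    have h3 : p.1 + p.2 + 1 + 1 = p.1 + p.2 + 2 := by omega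
    rw [h3]
    linear_combination (a p.2 * a (p.1 + p.2 + 1) * c θ (p.1 + 1)) * h
  have hkey' : ∀ p : ℕ × ℕ, a (p.1 + p.2 + 1) * a p.2 * c θ (p.1 + 1) *
      (u q (p.1 + p.2 + 1 + 1) * u q (p.2 + 1))
      = c θ (p.1 + 1) * u q (p.1 + 1) *
      (a p.2 * a (p.1 + p.2 + 1) * (u q (p.2 + 1) - u q (p.1 + p.2 + 2))) -
      (c θ (p.1 + 1) * (a p.2 * a (p.1 + p.2 + 1))) * u q (p.1 + p.2 + 2) := by
    intro p
    rw [← hkey p]; ring
  rw [tsum_congr hkey, tsum_congr hkey', hA.tsum_sub hC, hsum]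
  have h4 : ∑' i, a i * a i * 1 * (u q (i + 1) * u q (i + 1))
      = ∑' i, (a i ^ 2 * u q (i + 1)) * u q (i + 1) := tsum_congr fun i => by ring
  rw [h4]
  ring

/-- the `cos ((i + j) θ)` part of a square -/
theorem part_plus (hq : ‖q‖ < 1) {a : ℕ → ℂ} (ha : PG a) {G : ℕ → ℂ} (hG : PG G) (hG0 : G 0 = 0)
    (hGN : ∀ N, ∑ p ∈ antidiagonal N, a p.1 * a p.2 * (1 + u q (p.1 + 1) + u q (p.2 + 1))
      = G (N + 1)) :
    ∑' p : ℕ × ℕ, (a p.1 * a p.2 * c θ (p.1 + p.2 + 2)) * (u q (p.1 + 1) * u q (p.2 + 1))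
      = ∑' k, c θ (k + 1) * G k * u q (k + 1) := by
  have hF : Summable fun p : ℕ × ℕ =>
      (a p.1 * a p.2 * c θ (p.1 + p.2 + 2)) * (u q (p.1 + 1) * u q (p.2 + 1)) :=
    PG2.summable_mul hq (w := fun i j => a i * a j * c θ (i + j + 2))
      (((PG2.fst ha).mul (PG2.snd ha)).mul (pg2_c (fun i j => i + j + 2)))
  rw [tsum_antidiag hF]
  have h1 : Summable fun k => c θ (k + 1) * G k * u q (k + 1) :=
    PG.summable hq (w := fun k => c θ (k + 1) * G k) ((pg_c (fun n => n + 1)).mul hG)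
  rw [h1.tsum_eq_zero_add]
  simp only [hG0, mul_zero, zero_mul, zero_add]
  refine tsum_congr fun N => ?_
  rw [← hGN N, Finset.mul_sum, Finset.sum_mul]
  refine Finset.sum_congr rfl fun p hp => ?_
  have hp' : p.1 + p.2 = N := by simpa using hp
  have h := u_mul hq (m := p.1 + 1) (n := p.2 + 1) (by omega) (by omega)
  have h2 : p.1 + 1 + (p.2 + 1) = N + 1 + 1 := by omega
  rw [h2] at h
  have h3 : p.1 + p.2 + 2 = N + 1 + 1 := by omega
  rw [h3, h]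
  ring

/-- the mixed double sum, summed over antidiagonals -/
theorem mixed (hq : ‖q‖ < 1) {b : ℕ → ℕ → ℂ} (hb : PG2 b) {B : ℕ → ℂ} (hB : PG B) (hB0 : B 0 = 0)
    (hBN : ∀ N, ∑ p ∈ antidiagonal N, b p.1 p.2 = B (N + 1)) :
    ∑' p : ℕ × ℕ, b p.1 p.2 * u q (p.1 + p.2 + 2) = ∑' k, B k * u q (k + 1) := by
  rw [tsum_antidiag (PG2.summable hq hb), (hB.summable hq).tsum_eq_zero_add]
  simp only [hB0, zero_mul, zero_add]
  refine tsum_congr fun N => ?_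
  rw [← hBN N, Finset.sum_mul]
  refine Finset.sum_congr rfl fun p hp => ?_
  have hp' : p.1 + p.2 = N := by simpa using hp
  rw [hp']

theorem sum_anti_left (f : ℕ → ℂ) (N : ℕ) :
    ∑ p ∈ antidiagonal N, f p.1 = ∑ i ∈ range (N + 1), f i := by
  rw [Finset.Nat.sum_antidiagonal_eq_sum_range_succ (fun i _ => f i)]

theorem sum_anti_right (f : ℕ → ℂ) (N : ℕ) :
    ∑ p ∈ antidiagonal N, f p.2 = ∑ i ∈ range (N + 1), f i := by
  rw [← sum_anti_left, ← Finset.Nat.sum_antidiagonal_swap]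
  rfl

theorem sq_tsum (hq : ‖q‖ < 1) {a : ℕ → ℂ} (ha : PG a) :
    (∑' n, a n * u q (n + 1)) ^ 2 = ∑' p : ℕ × ℕ, (a p.1 * a p.2) * (u q (p.1 + 1) * u q (p.2 + 1)) := by
  have h := (ha.summable hq)
  rw [sq, tsum_mul_tsum_of_summable_norm h.norm h.norm]
  exact tsum_congr fun p => by ring

/-- the first identity, raw form -/
theorem ram1_raw (hq : ‖q‖ < 1) (θ : ℝ) :
    (∑' n, s θ (n + 1) * u q (n + 1)) ^ 2 +
      (∑' n, (1 + 2 * ∑ k ∈ range n, c θ (k + 1) + c θ (n + 1)) * u q (n + 1)) / 2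
      = (∑' n, u q (n + 1) * u q (n + 1)) / 2 + (∑' n : ℕ, (1 : ℂ) * u q (n + 1)) / 2 +
        ∑' n : ℕ, c θ (n + 1) * (1 + u q (n + 1) - ((n : ℂ) + 1) / 2) * u q (n + 1) := by
  have hs := pg_s (θ := θ) (fun n => n + 1)
  have hc := pg_c (θ := θ) (fun n => n + 1)
  have hU := PG.u hq
  rw [sq_tsum hq hs]
  have h1 : ∑' p : ℕ × ℕ, (s θ (p.1 + 1) * s θ (p.2 + 1)) * (u q (p.1 + 1) * u q (p.2 + 1))
      = (∑' p : ℕ × ℕ, ((1:ℂ) * 1 * cd θ p.1 p.2) * (u q (p.1 + 1) * u q (p.2 + 1)) -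
        ∑' p : ℕ × ℕ, ((1:ℂ) * 1 * c θ (p.1 + p.2 + 2)) * (u q (p.1 + 1) * u q (p.2 + 1))) / 2 := by
    have e1 : Summable fun p : ℕ × ℕ =>
        ((1:ℂ) * 1 * cd θ p.1 p.2) * (u q (p.1 + 1) * u q (p.2 + 1)) :=
      PG2.summable_mul hq (w := fun i j => (1:ℂ) * 1 * cd θ i j)
        (((PG2.fst (PG.const 1)).mul (PG2.fst (PG.const 1))).mul pg2_cd)
    have e2 : Summable fun p : ℕ × ℕ =>
        ((1:ℂ) * 1 * c θ (p.1 + p.2 + 2)) * (u q (p.1 + 1) * u q (p.2 + 1)) :=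
      PG2.summable_mul hq (w := fun i j => (1:ℂ) * 1 * c θ (i + j + 2))
        (((PG2.fst (PG.const 1)).mul (PG2.fst (PG.const 1))).mul (pg2_c (fun i j => i + j + 2)))
    rw [← e1.tsum_sub e2, ← tsum_div_const]
    refine tsum_congr fun p => ?_
    rw [s_mul_s]
    ring
  rw [h1]
  -- the minus part
  have hH : ∀ k, HasSum (fun i => (1:ℂ) * 1 * (u q (i + 1) - u q (k + i + 2)))
      (∑ i ∈ range (k + 1), u q (i + 1)) := by
    intro k
    have e0 : Summable fun i => u q (i + 1) := by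
      simpa using (PG.const 1).summable hq
    have e1 := (hasSum_nat_add_iff' (f := fun i => u q (i + 1)) (k + 1)).mpr e0.hasSum
    have e2 := e0.hasSum.sub e1
    rw [sub_sub_cancel] at e2
    refine e2.congr_fun ?_
    intro i
    rw [one_mul, one_mul]
    congr 2
    omega
  rw [part_minus hq (PG.const 1) hH]
  -- the plus part
  have hG : PG fun k => (k : ℂ) + 2 * ∑ i ∈ range k, u q (i + 1) :=
    PG.natCast.add ((PG.const 2).mul (PG2.sum_range (PG2.snd hU)))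
  rw [part_plus hq (PG.const 1) hG (by simp) (by
    intro N
    simp only [one_mul, Finset.sum_add_distrib, sum_anti_left (fun i => u q (i + 1)),
      sum_anti_right (fun i => u q (i + 1)), Finset.sum_const, Finset.Nat.card_antidiagonal]
    rw [nsmul_eq_mul]
    push_cast
    ring)]
  -- the mixed part
  have hX : ∑' p : ℕ × ℕ, (c θ (p.1 + 1) * ((1:ℂ) * 1)) * u q (p.1 + p.2 + 2)
      = ∑' k, (∑ i ∈ range k, c θ (i + 1)) * u q (k + 1) := by
    apply mixed hq (b := fun i _ => c θ (i + 1) * ((1:ℂ) * 1))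
      (B := fun k => ∑ i ∈ range k, c θ (i + 1))
    · exact (PG2.fst hc).mul ((PG2.fst (PG.const 1)).mul (PG2.fst (PG.const 1)))
    · exact PG2.sum_range (PG2.snd hc)
    · simp
    · intro N
      simp only [mul_one]
      exact sum_anti_left (fun i => c θ (i + 1)) N
  rw [hX]
  -- expand the linear series
  have g1 : Summable fun n => (1:ℂ) * u q (n + 1) := (PG.const 1).summable hq
  have g2 : Summable fun n => (∑ i ∈ range n, c θ (i + 1)) * u q (n + 1) :=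
    (PG2.sum_range (PG2.snd hc)).summable hq
  have g3 : Summable fun n => c θ (n + 1) * u q (n + 1) := hc.summable hq
  have e3 : ∑' n, (1 + 2 * ∑ k ∈ range n, c θ (k + 1) + c θ (n + 1)) * u q (n + 1)
      = ∑' n, (1:ℂ) * u q (n + 1) + 2 * ∑' n, (∑ i ∈ range n, c θ (i + 1)) * u q (n + 1) +
        ∑' n, c θ (n + 1) * u q (n + 1) := by
    rw [← tsum_mul_left, ← g1.tsum_add (g2.mul_left 2), ← (g1.add (g2.mul_left 2)).tsum_add g3]
    exact tsum_congr fun n => by ring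
  rw [e3]
  have g4 : Summable fun k => c θ (k + 1) * (∑ i ∈ range (k + 1), u q (i + 1)) * u q (k + 1) :=
    (hc.mul (PG2.sum_range_succ (PG2.snd hU))).summable hq
  have g5 : Summable fun k => c θ (k + 1) * ((k : ℂ) + 2 * ∑ i ∈ range k, u q (i + 1)) *
      u q (k + 1) := (hc.mul hG).summable hq
  have e4 : ∑' n : ℕ, c θ (n + 1) * (1 + u q (n + 1) - ((n : ℂ) + 1) / 2) * u q (n + 1)
      = ∑' k, c θ (k + 1) * (∑ i ∈ range (k + 1), u q (i + 1)) * u q (k + 1) -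
        (∑' k, c θ (k + 1) * ((k : ℂ) + 2 * ∑ i ∈ range k, u q (i + 1)) * u q (k + 1)) / 2 +
        (∑' n, c θ (n + 1) * u q (n + 1)) / 2 := by
    rw [← tsum_div_const, ← tsum_div_const, ← g4.tsum_sub (g5.div_const 2),
      ← (g4.sub (g5.div_const 2)).tsum_add (g3.div_const 2)]
    refine tsum_congr fun n => ?_
    rw [Finset.sum_range_succ]
    ring
  rw [e4]
  have e5 : ∑' i, ((1:ℂ) ^ 2 * u q (i + 1)) * u q (i + 1) = ∑' n, u q (n + 1) * u q (n + 1) :=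
    tsum_congr fun i => by ring
  rw [e5]
  ring

theorem pg_a : PG fun n : ℕ => (n : ℂ) + 1 := PG.natCast.add (PG.const 1)

theorem sum_lin (n : ℕ) (x : ℂ) :
    ∑ i ∈ range n, ((i : ℂ) + 1) * (x - i) = x * n * (n + 1) / 2 - (n - 1) * n * (n + 1) / 3 := by
  induction n with
  | zero => simp
  | succ n ih => rw [Finset.sum_range_succ, ih]; push_cast; ring

/-- the second identity, raw form -/
theorem ram2_raw (hq : ‖q‖ < 1) (θ : ℝ) :
    (∑' n : ℕ, (((n : ℂ) + 1) * ((2 * (n : ℂ) + 1) + 4 * ∑ k ∈ range n, ((n : ℂ) - k) * c θ (k + 1)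
        + c θ (n + 1))) * u q (n + 1)) / 4 +
      (∑' n : ℕ, (((n : ℂ) + 1) * (1 - c θ (n + 1))) * u q (n + 1)) / 6 +
      (∑' n : ℕ, (((n : ℂ) + 1) * (1 - c θ (n + 1))) * u q (n + 1)) ^ 2
      = (∑' n : ℕ, ((n : ℂ) + 1) * u q (n + 1)) ^ 2 +
        (∑' n : ℕ, (((n : ℂ) + 1) ^ 2 * u q (n + 1)) * u q (n + 1)) / 2 +
        (∑' n : ℕ, ((2 * (n : ℂ) + 1) * ((n : ℂ) + 1)) * u q (n + 1)) / 4 +
        (∑' n : ℕ, ((n : ℂ) + 1) * u q (n + 1)) / 6 +
        (∑' n : ℕ, (((n : ℂ) + 1) ^ 3 * c θ (n + 1)) * u q (n + 1)) / 12 := by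
  have ha := pg_a
  have hc := pg_c (θ := θ) (fun n => n + 1)
  have hU := PG.u hq
  set S : ℂ := ∑' n : ℕ, ((n : ℂ) + 1) * u q (n + 1) with hS
  have gS : Summable fun n : ℕ => ((n : ℂ) + 1) * u q (n + 1) := ha.summable hq
  have gA : Summable fun n : ℕ => (((n : ℂ) + 1) * c θ (n + 1)) * u q (n + 1) :=
    (ha.mul hc).summable hq
  have hW : ∑' n : ℕ, (((n : ℂ) + 1) * (1 - c θ (n + 1))) * u q (n + 1)
      = S - ∑' n : ℕ, (((n : ℂ) + 1) * c θ (n + 1)) * u q (n + 1) := by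
    rw [hS, ← gS.tsum_sub gA]
    exact tsum_congr fun n => by ring
  rw [hW]
  set A : ℂ := ∑' n : ℕ, (((n : ℂ) + 1) * c θ (n + 1)) * u q (n + 1) with hA
  have hA2 : A ^ 2 = (∑' p : ℕ × ℕ, (((p.1 : ℂ) + 1) * ((p.2 : ℂ) + 1) * cd θ p.1 p.2) *
        (u q (p.1 + 1) * u q (p.2 + 1)) +
        ∑' p : ℕ × ℕ, (((p.1 : ℂ) + 1) * ((p.2 : ℂ) + 1) * c θ (p.1 + p.2 + 2)) *
        (u q (p.1 + 1) * u q (p.2 + 1))) / 2 := by
    rw [hA, sq_tsum hq (ha.mul hc)]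
    have e1 : Summable fun p : ℕ × ℕ => (((p.1 : ℂ) + 1) * ((p.2 : ℂ) + 1) * cd θ p.1 p.2) *
        (u q (p.1 + 1) * u q (p.2 + 1)) :=
      PG2.summable_mul hq (w := fun i j => ((i : ℂ) + 1) * ((j : ℂ) + 1) * cd θ i j)
        (((PG2.fst ha).mul (PG2.snd ha)).mul pg2_cd)
    have e2 : Summable fun p : ℕ × ℕ => (((p.1 : ℂ) + 1) * ((p.2 : ℂ) + 1) * c θ (p.1 + p.2 + 2)) *
        (u q (p.1 + 1) * u q (p.2 + 1)) :=
      PG2.summable_mul hq (w := fun i j => ((i : ℂ) + 1) * ((j : ℂ) + 1) * c θ (i + j + 2))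
        (((PG2.fst ha).mul (PG2.snd ha)).mul (pg2_c (fun i j => i + j + 2)))
    rw [← e1.tsum_add e2, ← tsum_div_const]
    refine tsum_congr fun p => ?_
    have h := c_mul_c (θ := θ) p.1 p.2
    linear_combination (((p.1 : ℂ) + 1) * ((p.2 : ℂ) + 1) * (u q (p.1 + 1) * u q (p.2 + 1))) * h
  -- the minus part
  have hH : ∀ k : ℕ, HasSum (fun i : ℕ => ((i : ℂ) + 1) * (((k + i + 1 : ℕ) : ℂ) + 1) *
      (u q (i + 1) - u q (k + i + 2)))
      (2 * ((k : ℂ) + 1) * S + ∑ i ∈ range (k + 1), ((i : ℂ) - k) * ((i : ℂ) + 1) * u q (i + 1)) := by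
    intro k
    have f1 : Summable fun m : ℕ => (((m : ℂ) - k) * ((m : ℂ) + 1)) * u q (m + 1) :=
      ((PG.natCast.sub (PG.const (k : ℂ))).mul ha).summable hq
    have e1 := (hasSum_nat_add_iff' (k + 1)).mpr f1.hasSum
    have f2 : Summable fun m : ℕ => (((m : ℂ) + 1) * ((k : ℂ) + m + 2)) * u q (m + 1) :=
      (ha.mul (((PG.const (k : ℂ)).add PG.natCast).add (PG.const 2))).summable hq
    have e2 := f2.hasSum.sub e1
    have e3 : ∑' m : ℕ, (((m : ℂ) + 1) * ((k : ℂ) + m + 2)) * u q (m + 1) -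
        (∑' m : ℕ, (((m : ℂ) - k) * ((m : ℂ) + 1)) * u q (m + 1) -
          ∑ i ∈ range (k + 1), (((i : ℂ) - k) * ((i : ℂ) + 1)) * u q (i + 1))
        = 2 * ((k : ℂ) + 1) * S +
          ∑ i ∈ range (k + 1), ((i : ℂ) - k) * ((i : ℂ) + 1) * u q (i + 1) := by
      have e4 : ∑' m : ℕ, (((m : ℂ) + 1) * ((k : ℂ) + m + 2)) * u q (m + 1) -
          ∑' m : ℕ, (((m : ℂ) - k) * ((m : ℂ) + 1)) * u q (m + 1) = 2 * ((k : ℂ) + 1) * S := by
        rw [← f2.tsum_sub f1, hS, ← tsum_mul_left]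
        exact tsum_congr fun m => by ring
      rw [← e4]; ring
    rw [e3] at e2
    refine e2.congr_fun ?_
    intro i
    have e5 : i + (k + 1) + 1 = k + i + 2 := by omega
    rw [e5]
    push_cast
    ring
  have hM := part_minus (θ := θ) hq ha hH
  -- the plus part
  have hG : PG fun k : ℕ => (k : ℂ) * (k + 1) * (k + 2) / 6 +
      2 * ∑ i ∈ range k, ((i : ℂ) + 1) * ((k : ℂ) - i) * u q (i + 1) := by
    have e1 : PG fun k : ℕ => (k : ℂ) * (k + 1) * (k + 2) / 6 := by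
      have := (((PG.natCast.mul (PG.natCast.add (PG.const 1))).mul
        (PG.natCast.add (PG.const 2))).mul (PG.const (1 / 6)))
      simpa [div_eq_mul_inv] using this
    have e2 : PG2 fun k i : ℕ => ((i : ℂ) + 1) * ((k : ℂ) - i) * u q (i + 1) :=
      ((PG2.snd ha).mul ((PG2.fst PG.natCast).sub (PG2.snd PG.natCast))).mul (PG2.snd hU)
    exact e1.add ((PG.const 2).mul e2.sum_range)
  have hP := part_plus (θ := θ) hq ha hG (by simp) (by
    intro N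
    have e1 : ∑ p ∈ antidiagonal N, ((p.1 : ℂ) + 1) * ((p.2 : ℂ) + 1) *
        (1 + u q (p.1 + 1) + u q (p.2 + 1))
        = ∑ p ∈ antidiagonal N, (((p.1 : ℂ) + 1) * (((N + 1 : ℕ) : ℂ) - p.1)) +
          (∑ p ∈ antidiagonal N, (((p.1 : ℂ) + 1) * (((N + 1 : ℕ) : ℂ) - p.1) * u q (p.1 + 1)) +
          ∑ p ∈ antidiagonal N, (((p.2 : ℂ) + 1) * (((N + 1 : ℕ) : ℂ) - p.2) * u q (p.2 + 1))) := by
      rw [← Finset.sum_add_distrib, ← Finset.sum_add_distrib]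
      refine Finset.sum_congr rfl fun p hp => ?_
      have hp' : p.1 + p.2 = N := by simpa using hp
      have hp2 : (N : ℂ) = p.1 + p.2 := by rw [← hp']; push_cast; ring
      push_cast
      rw [hp2]
      ring
    rw [e1, sum_anti_left (fun i => ((i : ℂ) + 1) * (((N + 1 : ℕ) : ℂ) - i)),
      sum_anti_left (fun i => ((i : ℂ) + 1) * (((N + 1 : ℕ) : ℂ) - i) * u q (i + 1)),
      sum_anti_right (fun i => ((i : ℂ) + 1) * (((N + 1 : ℕ) : ℂ) - i) * u q (i + 1)), sum_lin]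
    push_cast
    ring)
  -- the mixed part
  have hBpg : PG fun k : ℕ => ((k : ℂ) + 1) * ∑ i ∈ range k, ((k : ℂ) - i) * c θ (i + 1) := by
    refine ha.mul (PG2.sum_range (w := fun k i : ℕ => ((k : ℂ) - i) * c θ (i + 1)) ?_)
    exact ((PG2.fst PG.natCast).sub (PG2.snd PG.natCast)).mul (PG2.snd hc)
  have hX : ∑' p : ℕ × ℕ, (c θ (p.1 + 1) * (((p.2 : ℂ) + 1) * (((p.1 + p.2 + 1 : ℕ) : ℂ) + 1))) *
        u q (p.1 + p.2 + 2)
      = ∑' k : ℕ, (((k : ℂ) + 1) * ∑ i ∈ range k, ((k : ℂ) - i) * c θ (i + 1)) * u q (k + 1) := by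
    apply mixed hq (b := fun i j => c θ (i + 1) * (((j : ℂ) + 1) * (((i + j + 1 : ℕ) : ℂ) + 1)))
      (B := fun k => ((k : ℂ) + 1) * ∑ i ∈ range k, ((k : ℂ) - i) * c θ (i + 1))
    · exact (PG2.fst hc).mul ((PG2.snd ha).mul (PG2.shift ha))
    · exact hBpg
    · simp
    · intro N
      have e1 : ∑ p ∈ antidiagonal N, c θ (p.1 + 1) *
          (((p.2 : ℂ) + 1) * (((p.1 + p.2 + 1 : ℕ) : ℂ) + 1))
          = ∑ p ∈ antidiagonal N, (((N + 1 : ℕ) : ℂ) + 1) * ((((N + 1 : ℕ) : ℂ) - p.1) *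
            c θ (p.1 + 1)) := by
        refine Finset.sum_congr rfl fun p hp => ?_
        have hp' : p.1 + p.2 = N := by simpa using hp
        have hp2 : (N : ℂ) = p.1 + p.2 := by rw [← hp']; push_cast; ring
        push_cast
        rw [hp2]
        ring
      rw [e1, sum_anti_left (fun i => (((N + 1 : ℕ) : ℂ) + 1) * ((((N + 1 : ℕ) : ℂ) - i) *
            c θ (i + 1))), Finset.mul_sum]
  rw [hX] at hM
  -- the linear series
  have g1 : Summable fun n : ℕ => ((2 * (n : ℂ) + 1) * ((n : ℂ) + 1)) * u q (n + 1) :=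
    ((((PG.const 2).mul PG.natCast).add (PG.const 1)).mul ha).summable hq
  have g2 := hBpg.summable hq
  have e3 : ∑' n : ℕ, (((n : ℂ) + 1) * ((2 * (n : ℂ) + 1) +
        4 * ∑ k ∈ range n, ((n : ℂ) - k) * c θ (k + 1) + c θ (n + 1))) * u q (n + 1)
      = ∑' n : ℕ, ((2 * (n : ℂ) + 1) * ((n : ℂ) + 1)) * u q (n + 1) +
        4 * ∑' n : ℕ, (((n : ℂ) + 1) * ∑ i ∈ range n, ((n : ℂ) - i) * c θ (i + 1)) * u q (n + 1) +
        A := by
    rw [hA, ← tsum_mul_left, ← g1.tsum_add (g2.mul_left 4), ← (g1.add (g2.mul_left 4)).tsum_add gA]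
    exact tsum_congr fun n => by ring
  rw [e3]
  have g4 : Summable fun k : ℕ => c θ (k + 1) * (2 * ((k : ℂ) + 1) * S +
      ∑ i ∈ range (k + 1), ((i : ℂ) - k) * ((i : ℂ) + 1) * u q (i + 1)) * u q (k + 1) := by
    refine PG.summable hq (w := fun k : ℕ => c θ (k + 1) * (2 * ((k : ℂ) + 1) * S +
      ∑ i ∈ range (k + 1), ((i : ℂ) - k) * ((i : ℂ) + 1) * u q (i + 1))) (hc.mul ?_)
    refine (((PG.const 2).mul ha).mul (PG.const S)).add ?_
    exact PG2.sum_range_succ (w := fun k i : ℕ => ((i : ℂ) - k) * ((i : ℂ) + 1) * u q (i + 1))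
      ((((PG2.snd PG.natCast).sub (PG2.fst PG.natCast)).mul (PG2.snd ha)).mul (PG2.snd hU))
  have g5 : Summable fun k : ℕ => c θ (k + 1) * ((k : ℂ) * (k + 1) * (k + 2) / 6 +
      2 * ∑ i ∈ range k, ((i : ℂ) + 1) * ((k : ℂ) - i) * u q (i + 1)) * u q (k + 1) :=
    (hc.mul hG).summable hq
  have g6 : Summable fun n : ℕ => (((n : ℂ) + 1) ^ 3 * c θ (n + 1)) * u q (n + 1) := by
    have := ((ha.mul (ha.mul ha)).mul hc).summable hq
    refine this.congr fun n => by ring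
  have e4 : ∑' k : ℕ, c θ (k + 1) * (2 * ((k : ℂ) + 1) * S +
      ∑ i ∈ range (k + 1), ((i : ℂ) - k) * ((i : ℂ) + 1) * u q (i + 1)) * u q (k + 1) +
      (∑' k : ℕ, c θ (k + 1) * ((k : ℂ) * (k + 1) * (k + 2) / 6 +
      2 * ∑ i ∈ range k, ((i : ℂ) + 1) * ((k : ℂ) - i) * u q (i + 1)) * u q (k + 1)) / 2
      = 2 * S * A + (∑' n : ℕ, (((n : ℂ) + 1) ^ 3 * c θ (n + 1)) * u q (n + 1)) / 12 - A / 12 := by
    rw [hA, ← tsum_mul_left, ← tsum_div_const, ← tsum_div_const, ← tsum_div_const,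
      ← g4.tsum_add (g5.div_const 2), ← (gA.mul_left (2 * S)).tsum_add (g6.div_const 12),
      ← ((gA.mul_left (2 * S)).add (g6.div_const 12)).tsum_sub (gA.div_const 12)]
    refine tsum_congr fun k => ?_
    have e5 : ∑ i ∈ range k, ((i : ℂ) + 1) * ((k : ℂ) - i) * u q (i + 1)
        = - ∑ i ∈ range (k + 1), ((i : ℂ) - k) * ((i : ℂ) + 1) * u q (i + 1) := by
      rw [Finset.sum_range_succ, sub_self, zero_mul, zero_mul, add_zero, ← Finset.sum_neg_distrib]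
      exact Finset.sum_congr rfl fun i _ => by ring
    rw [e5]
    ring
  have e6 : A ^ 2 = (∑' n : ℕ, (((n : ℂ) + 1) ^ 2 * u q (n + 1)) * u q (n + 1)) / 2 +
      (∑' k : ℕ, c θ (k + 1) * (2 * ((k : ℂ) + 1) * S +
      ∑ i ∈ range (k + 1), ((i : ℂ) - k) * ((i : ℂ) + 1) * u q (i + 1)) * u q (k + 1) +
      (∑' k : ℕ, c θ (k + 1) * ((k : ℂ) * (k + 1) * (k + 2) / 6 +
      2 * ∑ i ∈ range k, ((i : ℂ) + 1) * ((k : ℂ) - i) * u q (i + 1)) * u q (k + 1)) / 2) -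
      ∑' k : ℕ, (((k : ℂ) + 1) * ∑ i ∈ range k, ((k : ℂ) - i) * c θ (i + 1)) * u q (k + 1) := by
    rw [hA2, hM, hP]
    ring
  rw [e4] at e6
  linear_combination e6

end RamAux

end

end Pool.Agent.Lib.BM
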