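import Pool.Agent.Lib.BM.Ram

set_option autoImplicit false

/-!
# BM.Ram2: Ramanujan's identities at the angles 0, π, 2π/3, π/3
-/

namespace Pool.Agent.Lib.BM

open Finset LamAux RamAux

noncomputable section

/-- `q dS/dq` for `S = SC 1` -/
def DSC (q : ℂ) : ℂ := ∑' n : ℕ, (((n : ℂ) + 1) ^ 2 * (1 + u q (n + 1))) * u q (n + 1)

namespace Ram2Aux

variable {q : ℂ}

/-- indicator of divisibility -/
def ind (d n : ℕ) : ℂ := if d ∣ n then 1 else 0

theorem pg_ind (d : ℕ) : PG fun n => ind d (n + 1) := by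
  refine PG.of_bound (C := 1) fun n => ?_
  unfold ind
  split_ifs <;> simp

theorem tsum_ind {d : ℕ} (hd : d ≠ 0) (g : ℕ → ℂ) :
    ∑' n : ℕ, ind d (n + 1) * g (n + 1) = ∑' m : ℕ, g (d * (m + 1)) := by
  have hinj : Function.Injective fun m : ℕ => d * (m + 1) - 1 := by
    intro a b h
    have h1 : 0 < d * (a + 1) := by positivity
    have h2 : 0 < d * (b + 1) := by positivity
    have h3 : d * (a + 1) - 1 = d * (b + 1) - 1 := h
    have h4 : d * (a + 1) = d * (b + 1) := by omega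
    have h5 := Nat.eq_of_mul_eq_mul_left (Nat.pos_of_ne_zero hd) h4
    omega
  rw [← hinj.tsum_eq (f := fun n => ind d (n + 1) * g (n + 1))]
  · refine tsum_congr fun m => ?_
    have h1 : 0 < d * (m + 1) := by positivity
    have h2 : d * (m + 1) - 1 + 1 = d * (m + 1) := by omega
    simp only [h2, ind, if_true, one_mul, dvd_mul_right]
  · intro n hn
    rw [Function.mem_support] at hn
    have h1 : d ∣ n + 1 := by
      by_contra h
      exact hn (by simp [ind, h])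
    obtain ⟨m, hm⟩ := h1
    have hm0 : m ≠ 0 := by
      rintro rfl
      simp at hm
    refine ⟨m - 1, ?_⟩
    have h2 : m - 1 + 1 = m := by omega
    show d * (m - 1 + 1) - 1 = n
    rw [h2, ← hm]
    omega

theorem u_pow (d n : ℕ) : u q (d * n) = u (q ^ d) n := by
  unfold u; rw [pow_mul]

theorem norm_pow_lt (hq : ‖q‖ < 1) {d : ℕ} (hd : d ≠ 0) : ‖q ^ d‖ < 1 := by
  rw [norm_pow]; exact pow_lt_one₀ (norm_nonneg _) hq hd

/-- the weighted sum of `n^k u_n` over the multiples of `d` -/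
theorem tsum_ind_pow {d : ℕ} (hd : d ≠ 0) (k : ℕ) :
    ∑' n : ℕ, (ind d (n + 1) * ((n : ℂ) + 1) ^ k) * u q (n + 1) = (d : ℂ) ^ k * SC k (q ^ d) := by
  have h := tsum_ind hd (fun N => ((N : ℂ)) ^ k * u q N)
  have h1 : ∑' n : ℕ, (ind d (n + 1) * ((n : ℂ) + 1) ^ k) * u q (n + 1)
      = ∑' n : ℕ, ind d (n + 1) * ((((n + 1 : ℕ) : ℂ)) ^ k * u q (n + 1)) :=
    tsum_congr fun n => by push_cast; ring
  rw [h1, h, SC, ← tsum_mul_left]
  refine tsum_congr fun m => ?_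
  rw [u_pow]
  push_cast
  rw [mul_pow]
  ring

/-- `∑ u_n (1 + u_n)` over the multiples of `d`, before the evaluation -/
theorem tsum_ind_uu {d : ℕ} (hd : d ≠ 0) :
    ∑' n : ℕ, (ind d (n + 1) * (1 + u q (n + 1))) * u q (n + 1)
      = ∑' n : ℕ, (1 + u (q ^ d) (n + 1)) * u (q ^ d) (n + 1) := by
  have h := tsum_ind hd (fun N => (1 + u q N) * u q N)
  have h1 : ∑' n : ℕ, (ind d (n + 1) * (1 + u q (n + 1))) * u q (n + 1)
      = ∑' n : ℕ, ind d (n + 1) * ((1 + u q (n + 1)) * u q (n + 1)) :=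
    tsum_congr fun n => by ring
  rw [h1, h]
  refine tsum_congr fun m => ?_
  rw [u_pow]

theorem c_zero (n : ℕ) : c 0 n = 1 := by unfold c; simp

theorem s_zero (n : ℕ) : s 0 n = 0 := by unfold s; simp

/-- `∑ u_n (1 + u_n) = ∑ n u_n` -/
theorem tsum_uu (hq : ‖q‖ < 1) : ∑' n : ℕ, (1 + u q (n + 1)) * u q (n + 1) = SC 1 q := by
  have h := ram1_raw hq 0
  have hU := PG.u hq
  have g0 : Summable fun n : ℕ => (1 : ℂ) * u q (n + 1) := (PG.const 1).summable hq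
  have g1 : Summable fun n : ℕ => u q (n + 1) * u q (n + 1) := hU.summable hq
  have g2 : Summable fun n : ℕ => ((n : ℂ) + 1) ^ 1 * u q (n + 1) := by
    simpa using pg_a.summable hq
  have e1 : ∑' n : ℕ, (1 + 2 * ∑ k ∈ range n, c 0 (k + 1) + c 0 (n + 1)) * u q (n + 1)
      = 2 * SC 1 q := by
    rw [SC, ← tsum_mul_left]
    refine tsum_congr fun n => ?_
    simp only [c_zero, Finset.sum_const, card_range, nsmul_eq_mul]
    ring
  have e2 : ∑' n : ℕ, c 0 (n + 1) * (1 + u q (n + 1) - ((n : ℂ) + 1) / 2) * u q (n + 1)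
      = ∑' n : ℕ, (1:ℂ) * u q (n + 1) + ∑' n : ℕ, u q (n + 1) * u q (n + 1) - SC 1 q / 2 := by
    rw [SC, ← tsum_div_const, ← g0.tsum_add g1, ← (g0.add g1).tsum_sub (g2.div_const 2)]
    refine tsum_congr fun n => ?_
    rw [c_zero]
    ring
  have e3 : ∑' n : ℕ, s 0 (n + 1) * u q (n + 1) = 0 := by
    simp [s_zero]
  have e4 : ∑' n : ℕ, (1 + u q (n + 1)) * u q (n + 1)
      = ∑' n : ℕ, (1:ℂ) * u q (n + 1) + ∑' n : ℕ, u q (n + 1) * u q (n + 1) := by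
    rw [← g0.tsum_add g1]
    exact tsum_congr fun n => by ring
  rw [e1, e2, e3] at h
  rw [e4]
  linear_combination (-2 / 3 : ℂ) * h

/-- the constant term of the second identity -/
theorem const2 (hq : ‖q‖ < 1) :
    (∑' n : ℕ, ((n : ℂ) + 1) * u q (n + 1)) ^ 2 +
        (∑' n : ℕ, (((n : ℂ) + 1) ^ 2 * u q (n + 1)) * u q (n + 1)) / 2 +
        (∑' n : ℕ, ((2 * (n : ℂ) + 1) * ((n : ℂ) + 1)) * u q (n + 1)) / 4 +
        (∑' n : ℕ, ((n : ℂ) + 1) * u q (n + 1)) / 6 = 5 / 12 * SC 3 q := by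
  have h := ram2_raw hq 0
  have e1 : ∑' n : ℕ, (((n : ℂ) + 1) * ((2 * (n : ℂ) + 1) +
      4 * ∑ k ∈ range n, ((n : ℂ) - k) * c 0 (k + 1) + c 0 (n + 1))) * u q (n + 1) = 2 * SC 3 q := by
    rw [SC, ← tsum_mul_left]
    refine tsum_congr fun n => ?_
    simp only [c_zero, mul_one]
    have e2 : ∀ (m : ℕ) (x : ℂ), ∑ k ∈ range m, (x - k) = m * x - m * (m - 1) / 2 := by
      intro m x
      induction m with
      | zero => simp
      | succ m ih => rw [Finset.sum_range_succ, ih]; push_cast; ring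
    rw [e2]
    ring
  have e2 : ∑' n : ℕ, (((n : ℂ) + 1) * (1 - c 0 (n + 1))) * u q (n + 1) = 0 := by
    simp [c_zero]
  have e3 : ∑' n : ℕ, (((n : ℂ) + 1) ^ 3 * c 0 (n + 1)) * u q (n + 1) = SC 3 q := by
    rw [SC]
    exact tsum_congr fun n => by rw [c_zero]; ring
  rw [e1, e2, e3] at h
  linear_combination (-1 : ℂ) * h

theorem SC_one : SC 1 q = ∑' n : ℕ, ((n : ℂ) + 1) * u q (n + 1) := by
  rw [SC]; exact tsum_congr fun n => by ring

/-- second identity with the constant evaluated; `κ` is `cot^2(θ/2)` -/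
theorem ram2 (hq : ‖q‖ < 1) (θ : ℝ) (κ : ℂ)
    (hκ : ∀ n : ℕ, (2 * (n : ℂ) + 1) + 4 * ∑ k ∈ range n, ((n : ℂ) - k) * c θ (k + 1) + c θ (n + 1)
      = κ * (1 - c θ (n + 1))) :
    (κ / 4 + 1 / 6) * (SC 1 q - ∑' n : ℕ, (c θ (n + 1) * ((n : ℂ) + 1) ^ 1) * u q (n + 1)) +
      (SC 1 q - ∑' n : ℕ, (c θ (n + 1) * ((n : ℂ) + 1) ^ 1) * u q (n + 1)) ^ 2
      = 5 / 12 * SC 3 q +
        (∑' n : ℕ, (c θ (n + 1) * ((n : ℂ) + 1) ^ 3) * u q (n + 1)) / 12 := by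
  have h := ram2_raw hq θ
  rw [const2 hq] at h
  have gS : Summable fun n : ℕ => ((n : ℂ) + 1) * u q (n + 1) := pg_a.summable hq
  have gA : Summable fun n : ℕ => (c θ (n + 1) * ((n : ℂ) + 1) ^ 1) * u q (n + 1) := by
    simpa using ((pg_c (θ := θ) (fun n => n + 1)).mul pg_a).summable hq
  have e1 : ∑' n : ℕ, (((n : ℂ) + 1) * (1 - c θ (n + 1))) * u q (n + 1)
      = SC 1 q - ∑' n : ℕ, (c θ (n + 1) * ((n : ℂ) + 1) ^ 1) * u q (n + 1) := by
    rw [SC_one, ← gS.tsum_sub gA]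
    exact tsum_congr fun n => by ring
  have e2 : ∑' n : ℕ, (((n : ℂ) + 1) * ((2 * (n : ℂ) + 1) +
      4 * ∑ k ∈ range n, ((n : ℂ) - k) * c θ (k + 1) + c θ (n + 1))) * u q (n + 1)
      = κ * ∑' n : ℕ, (((n : ℂ) + 1) * (1 - c θ (n + 1))) * u q (n + 1) := by
    rw [← tsum_mul_left]
    exact tsum_congr fun n => by rw [hκ n]; ring
  have e3 : ∑' n : ℕ, (((n : ℂ) + 1) ^ 3 * c θ (n + 1)) * u q (n + 1)
      = ∑' n : ℕ, (c θ (n + 1) * ((n : ℂ) + 1) ^ 3) * u q (n + 1) :=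
    tsum_congr fun n => by ring
  rw [e2, e1, e3] at h
  linear_combination h

/-- first identity with the constant evaluated; `κ` is `cot(θ/2)` -/
theorem ram1 (hq : ‖q‖ < 1) (θ : ℝ) (κ : ℂ)
    (hκ : ∀ n : ℕ, 1 + 2 * ∑ k ∈ range n, c θ (k + 1) + c θ (n + 1) = κ * s θ (n + 1)) :
    (∑' n, s θ (n + 1) * u q (n + 1)) ^ 2 + κ / 2 * (∑' n, s θ (n + 1) * u q (n + 1))
      = SC 1 q / 2 + (∑' n : ℕ, (c θ (n + 1) * (1 + u q (n + 1))) * u q (n + 1)) -
        (∑' n : ℕ, (c θ (n + 1) * ((n : ℂ) + 1) ^ 1) * u q (n + 1)) / 2 := by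
  have h := ram1_raw hq θ
  have hc := pg_c (θ := θ) (fun n => n + 1)
  have e1 : ∑' n, (1 + 2 * ∑ k ∈ range n, c θ (k + 1) + c θ (n + 1)) * u q (n + 1)
      = κ * ∑' n, s θ (n + 1) * u q (n + 1) := by
    rw [← tsum_mul_left]
    exact tsum_congr fun n => by rw [hκ n]; ring
  have g1 : Summable fun n : ℕ => (c θ (n + 1) * (1 + u q (n + 1))) * u q (n + 1) :=
    (hc.mul ((PG.const 1).add (PG.u hq))).summable hq
  have g2 : Summable fun n : ℕ => (c θ (n + 1) * ((n : ℂ) + 1) ^ 1) * u q (n + 1) := by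
    simpa using (hc.mul pg_a).summable hq
  have e2 : ∑' n : ℕ, c θ (n + 1) * (1 + u q (n + 1) - ((n : ℂ) + 1) / 2) * u q (n + 1)
      = ∑' n : ℕ, (c θ (n + 1) * (1 + u q (n + 1))) * u q (n + 1) -
        (∑' n : ℕ, (c θ (n + 1) * ((n : ℂ) + 1) ^ 1) * u q (n + 1)) / 2 := by
    rw [← tsum_div_const, ← g1.tsum_sub (g2.div_const 2)]
    exact tsum_congr fun n => by ring
  have g3 : Summable fun n : ℕ => (1 : ℂ) * u q (n + 1) := (PG.const 1).summable hq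
  have g4 : Summable fun n : ℕ => u q (n + 1) * u q (n + 1) := (PG.u hq).summable hq
  have e3 : (∑' n : ℕ, u q (n + 1) * u q (n + 1)) / 2 + (∑' n : ℕ, (1 : ℂ) * u q (n + 1)) / 2
      = SC 1 q / 2 := by
    rw [← tsum_uu hq, ← add_div, ← g4.tsum_add g3]
    congr 1
    exact tsum_congr fun n => by ring
  rw [e1, e2, e3] at h
  linear_combination h

/-- the trigonometric lemma for the first identity -/
theorem cot1 (θ : ℝ) (n : ℕ) : (Real.sin (θ / 2) : ℂ) *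
    (1 + 2 * ∑ k ∈ range n, c θ (k + 1) + c θ (n + 1)) = (Real.cos (θ / 2) : ℂ) * s θ (n + 1) := by
  have h : ∀ n : ℕ, Real.sin (θ / 2) *
      (1 + 2 * ∑ k ∈ range n, Real.cos (((k + 1 : ℕ) : ℝ) * θ) + Real.cos (((n + 1 : ℕ) : ℝ) * θ))
      = Real.cos (θ / 2) * Real.sin (((n + 1 : ℕ) : ℝ) * θ) := by
    intro n
    induction n with
    | zero =>
      have h1 : ((0 + 1 : ℕ) : ℝ) * θ = 2 * (θ / 2) := by push_cast; ring
      rw [h1, Real.cos_two_mul, Real.sin_two_mul]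
      simp only [range_zero, sum_empty]
      ring
    | succ n ih =>
      rw [Finset.sum_range_succ]
      have h1 : ((n + 1 : ℕ) : ℝ) * θ = ((n : ℝ) + 3 / 2) * θ - θ / 2 := by push_cast; ring
      have h2 : ((n + 1 + 1 : ℕ) : ℝ) * θ = ((n : ℝ) + 3 / 2) * θ + θ / 2 := by push_cast; ring
      rw [h1] at ih ⊢
      rw [h2]
      rw [Real.cos_sub, Real.sin_sub] at ih
      rw [Real.cos_sub, Real.cos_add, Real.sin_add]
      linear_combination ih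
  have := h n
  unfold c s
  exact_mod_cast this

/-- the trigonometric lemma for the second identity -/
theorem cot2 (θ : ℝ) (n : ℕ) : (Real.sin (θ / 2) : ℂ) ^ 2 *
    ((2 * (n : ℂ) + 1) + 4 * ∑ k ∈ range n, ((n : ℂ) - k) * c θ (k + 1) + c θ (n + 1))
      = (Real.cos (θ / 2) : ℂ) ^ 2 * (1 - c θ (n + 1)) := by
  induction n with
  | zero =>
    have h1 : c θ (0 + 1) = 2 * (Real.cos (θ / 2) : ℂ) ^ 2 - 1 := by
      unfold c
      have : Real.cos (((0 + 1 : ℕ) : ℝ) * θ) = 2 * Real.cos (θ / 2) ^ 2 - 1 := by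
        rw [← Real.cos_two_mul]; congr 1; push_cast; ring
      rw [this]; push_cast; ring
    have h2 : (Real.sin (θ / 2) : ℂ) ^ 2 + (Real.cos (θ / 2) : ℂ) ^ 2 = 1 := by
      exact_mod_cast Real.sin_sq_add_cos_sq (θ / 2)
    rw [h1]
    simp only [range_zero, sum_empty, Nat.cast_zero]
    linear_combination (2 * (Real.cos (θ / 2) : ℂ) ^ 2) * h2
  | succ n ih =>
    have e1 : ∑ k ∈ range (n + 1), (((n + 1 : ℕ) : ℂ) - k) * c θ (k + 1)
        = ∑ k ∈ range n, ((n : ℂ) - k) * c θ (k + 1) + ∑ k ∈ range (n + 1), c θ (k + 1) := by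
      rw [Finset.sum_range_succ, Finset.sum_range_succ (fun k => c θ (k + 1)), ← add_assoc,
        ← Finset.sum_add_distrib]
      congr 1
      · exact Finset.sum_congr rfl fun k _ => by push_cast; ring
      · push_cast; ring
    rw [e1]
    have e2 := cot1 θ (n + 1)
    have h1 : ((n + 1 : ℕ) : ℝ) * θ = ((n : ℝ) + 3 / 2) * θ - θ / 2 := by push_cast; ring
    have h2 : ((n + 1 + 1 : ℕ) : ℝ) * θ = ((n : ℝ) + 3 / 2) * θ + θ / 2 := by push_cast; ring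
    have hk : Real.cos (θ / 2) ^ 2 * (Real.cos (((n + 1 : ℕ) : ℝ) * θ) -
        Real.cos (((n + 1 + 1 : ℕ) : ℝ) * θ))
        = 2 * Real.sin (θ / 2) * Real.cos (θ / 2) * Real.sin (((n + 1 + 1 : ℕ) : ℝ) * θ) -
          Real.sin (θ / 2) ^ 2 * (Real.cos (((n + 1 : ℕ) : ℝ) * θ) +
          Real.cos (((n + 1 + 1 : ℕ) : ℝ) * θ)) := by
      rw [h1, h2, Real.cos_sub, Real.cos_add, Real.sin_add]
      ring
    have hk' : (Real.cos (θ / 2) : ℂ) ^ 2 * (c θ (n + 1) - c θ (n + 1 + 1))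
        = 2 * (Real.sin (θ / 2) : ℂ) * (Real.cos (θ / 2) : ℂ) * s θ (n + 1 + 1) -
          (Real.sin (θ / 2) : ℂ) ^ 2 * (c θ (n + 1) + c θ (n + 1 + 1)) := by
      unfold c s
      exact_mod_cast hk
    have hn : ((n + 1 : ℕ) : ℂ) = (n : ℂ) + 1 := by push_cast; ring
    rw [hn]
    linear_combination ih + 2 * (Real.sin (θ / 2) : ℂ) * e2 - hk'

theorem cos_nat_mul_pi (n : ℕ) : c Real.pi n = -1 + 2 * ind 2 n := by
  unfold c ind
  rcases Nat.even_or_odd n with h | h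
  · have h1 : 2 ∣ n := h.two_dvd
    obtain ⟨m, rfl⟩ := h1
    have h2 : ((2 * m : ℕ) : ℝ) * Real.pi = (m : ℝ) * (2 * Real.pi) := by push_cast; ring
    rw [h2, Real.cos_nat_mul_two_pi]
    simp; norm_num
  · obtain ⟨m, rfl⟩ := h
    have h2 : ((2 * m + 1 : ℕ) : ℝ) * Real.pi = Real.pi + (m : ℝ) * (2 * Real.pi) := by
      push_cast; ring
    rw [h2, Real.cos_add_nat_mul_two_pi]
    have h3 : ¬ 2 ∣ 2 * m + 1 := by omega
    simp [h3]

theorem cos_pi_three' : Real.cos (Real.pi / 3) = 1 / 2 := Real.cos_pi_div_three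

/-- values of `cos` and `sin` at the multiples of `π/3` -/
theorem val6 (n : ℕ) : (n % 6 = 0 ∧ c (Real.pi / 3) n = 1 ∧ s (Real.pi / 3) n = 0) ∨
    (n % 6 = 1 ∧ c (Real.pi / 3) n = 1 / 2 ∧ s (Real.pi / 3) n = (Real.sqrt 3 : ℂ) / 2) ∨
    (n % 6 = 2 ∧ c (Real.pi / 3) n = -1 / 2 ∧ s (Real.pi / 3) n = (Real.sqrt 3 : ℂ) / 2) ∨
    (n % 6 = 3 ∧ c (Real.pi / 3) n = -1 ∧ s (Real.pi / 3) n = 0) ∨
    (n % 6 = 4 ∧ c (Real.pi / 3) n = -1 / 2 ∧ s (Real.pi / 3) n = -(Real.sqrt 3 : ℂ) / 2) ∨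
    (n % 6 = 5 ∧ c (Real.pi / 3) n = 1 / 2 ∧ s (Real.pi / 3) n = -(Real.sqrt 3 : ℂ) / 2) := by
  have hn : n = 6 * (n / 6) + n % 6 := by omega
  have hr : n % 6 < 6 := Nat.mod_lt _ (by norm_num)
  have hc : ∀ x : ℝ, x = (n % 6 : ℕ) * (Real.pi / 3) → c (Real.pi / 3) n = (Real.cos x : ℂ) := by
    intro x hx
    unfold c
    congr 1
    rw [hx]
    have h1 : (n : ℝ) = 6 * ((n / 6 : ℕ) : ℝ) + ((n % 6 : ℕ) : ℝ) := by exact_mod_cast hn
    have h2 : (n : ℝ) * (Real.pi / 3) = ((n % 6 : ℕ) : ℝ) * (Real.pi / 3) +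
        ((n / 6 : ℕ) : ℝ) * (2 * Real.pi) := by rw [h1]; ring
    rw [h2, Real.cos_add_nat_mul_two_pi]
  have hs : ∀ x : ℝ, x = (n % 6 : ℕ) * (Real.pi / 3) → s (Real.pi / 3) n = (Real.sin x : ℂ) := by
    intro x hx
    unfold s
    congr 1
    rw [hx]
    have h1 : (n : ℝ) = 6 * ((n / 6 : ℕ) : ℝ) + ((n % 6 : ℕ) : ℝ) := by exact_mod_cast hn
    have h2 : (n : ℝ) * (Real.pi / 3) = ((n % 6 : ℕ) : ℝ) * (Real.pi / 3) +
        ((n / 6 : ℕ) : ℝ) * (2 * Real.pi) := by rw [h1]; ring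
    rw [h2, Real.sin_add_nat_mul_two_pi]
  have c1 : Real.cos (Real.pi / 3) = 1 / 2 := Real.cos_pi_div_three
  have s1 : Real.sin (Real.pi / 3) = Real.sqrt 3 / 2 := Real.sin_pi_div_three
  have hsq : Real.sqrt 3 ^ 2 = 3 := Real.sq_sqrt (by norm_num)
  have c2 : Real.cos (Real.pi - Real.pi / 3) = -1 / 2 := by rw [Real.cos_pi_sub, c1]; ring
  have s2 : Real.sin (Real.pi - Real.pi / 3) = Real.sqrt 3 / 2 := by rw [Real.sin_pi_sub, s1]
  have c4 : Real.cos (Real.pi / 3 + Real.pi) = -1 / 2 := by rw [Real.cos_add_pi, c1]; ring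
  have s4 : Real.sin (Real.pi / 3 + Real.pi) = -Real.sqrt 3 / 2 := by
    rw [Real.sin_add_pi, s1]; ring
  have c5 : Real.cos (2 * Real.pi - Real.pi / 3) = 1 / 2 := by rw [Real.cos_two_pi_sub, c1]
  have s5 : Real.sin (2 * Real.pi - Real.pi / 3) = -Real.sqrt 3 / 2 := by
    rw [Real.sin_two_pi_sub, s1]; ring
  have h6 : n % 6 = 0 ∨ n % 6 = 1 ∨ n % 6 = 2 ∨ n % 6 = 3 ∨ n % 6 = 4 ∨ n % 6 = 5 := by omega
  rcases h6 with h | h | h | h | h | h
  · left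
    refine ⟨h, ?_, ?_⟩
    · rw [hc 0 (by rw [h]; simp)]; simp
    · rw [hs 0 (by rw [h]; simp)]; simp
  · right; left
    refine ⟨h, ?_, ?_⟩
    · rw [hc (Real.pi / 3) (by rw [h]; simp), c1]; push_cast; ring
    · rw [hs (Real.pi / 3) (by rw [h]; simp), s1]; push_cast; ring
  · right; right; left
    refine ⟨h, ?_, ?_⟩
    · rw [hc (Real.pi - Real.pi / 3) (by rw [h]; push_cast; ring), c2]; push_cast; ring
    · rw [hs (Real.pi - Real.pi / 3) (by rw [h]; push_cast; ring), s2]; push_cast; ring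
  · right; right; right; left
    refine ⟨h, ?_, ?_⟩
    · rw [hc Real.pi (by rw [h]; push_cast; ring), Real.cos_pi]; push_cast; ring
    · rw [hs Real.pi (by rw [h]; push_cast; ring), Real.sin_pi]; push_cast; ring
  · right; right; right; right; left
    refine ⟨h, ?_, ?_⟩
    · rw [hc (Real.pi / 3 + Real.pi) (by rw [h]; push_cast; ring), c4]; push_cast; ring
    · rw [hs (Real.pi / 3 + Real.pi) (by rw [h]; push_cast; ring), s4]; push_cast; ring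
  · right; right; right; right; right
    refine ⟨h, ?_, ?_⟩
    · rw [hc (2 * Real.pi - Real.pi / 3) (by rw [h]; push_cast; ring), c5]; push_cast; ring
    · rw [hs (2 * Real.pi - Real.pi / 3) (by rw [h]; push_cast; ring), s5]; push_cast; ring

theorem c_pi3 (n : ℕ) : c (Real.pi / 3) n
    = 1 / 2 - ind 2 n - 3 / 2 * ind 3 n + 3 * ind 6 n := by
  rcases val6 n with ⟨h, h1, -⟩ | ⟨h, h1, -⟩ | ⟨h, h1, -⟩ | ⟨h, h1, -⟩ | ⟨h, h1, -⟩ | ⟨h, h1, -⟩
  · have a2 : 2 ∣ n := by omega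
    have a3 : 3 ∣ n := by omega
    have a6 : 6 ∣ n := by omega
    rw [h1]; simp [ind, a2, a3, a6]; norm_num
  · have a2 : ¬ 2 ∣ n := by omega
    have a3 : ¬ 3 ∣ n := by omega
    have a6 : ¬ 6 ∣ n := by omega
    rw [h1]; simp [ind, a2, a3, a6]
  · have a2 : 2 ∣ n := by omega
    have a3 : ¬ 3 ∣ n := by omega
    have a6 : ¬ 6 ∣ n := by omega
    rw [h1]; simp [ind, a2, a3, a6]; norm_num
  · have a2 : ¬ 2 ∣ n := by omega
    have a3 : 3 ∣ n := by omega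
    have a6 : ¬ 6 ∣ n := by omega
    rw [h1]; simp [ind, a2, a3, a6]; norm_num
  · have a2 : 2 ∣ n := by omega
    have a3 : ¬ 3 ∣ n := by omega
    have a6 : ¬ 6 ∣ n := by omega
    rw [h1]; simp [ind, a2, a3, a6]; norm_num
  · have a2 : ¬ 2 ∣ n := by omega
    have a3 : ¬ 3 ∣ n := by omega
    have a6 : ¬ 6 ∣ n := by omega
    rw [h1]; simp [ind, a2, a3, a6]

theorem c_two (n : ℕ) : c (2 * Real.pi / 3) n = c (Real.pi / 3) (2 * n) := by
  unfold c; congr 2; push_cast; ring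

theorem s_two (n : ℕ) : s (2 * Real.pi / 3) n = s (Real.pi / 3) (2 * n) := by
  unfold s; congr 2; push_cast; ring

theorem c_2pi3 (n : ℕ) : c (2 * Real.pi / 3) n = -1 / 2 + 3 / 2 * ind 3 n := by
  rw [c_two, c_pi3]
  have a2 : 2 ∣ 2 * n := by omega
  by_cases h : 3 ∣ n
  · have a3 : 3 ∣ 2 * n := by omega
    have a6 : 6 ∣ 2 * n := by omega
    simp [ind, a3, a6, h]; norm_num
  · have a3 : ¬ 3 ∣ 2 * n := by omega
    have a6 : ¬ 6 ∣ 2 * n := by omega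
    simp [ind, a3, a6, h]; norm_num

theorem s_2pi3 (n : ℕ) : s (2 * Real.pi / 3) n = (Real.sqrt 3 : ℂ) / 2 * (chi3 n : ℂ) := by
  rw [s_two]
  rcases val6 (2 * n) with ⟨h, -, h1⟩ | ⟨h, -, h1⟩ | ⟨h, -, h1⟩ | ⟨h, -, h1⟩ | ⟨h, -, h1⟩ | ⟨h, -, h1⟩
  · have a : n % 3 = 0 := by omega
    rw [h1]; simp [chi3, a]
  · omega
  · have a : n % 3 = 1 := by omega
    rw [h1]; simp [chi3, a]
  · omega
  · have a : n % 3 = 2 := by omega
    rw [h1]; simp [chi3, a]; ring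
  · omega

theorem s_pi3 (n : ℕ) : s (Real.pi / 3) n
    = (Real.sqrt 3 : ℂ) / 2 * ((chi3 n : ℂ) - 2 * (ind 2 n * (chi3 n : ℂ))) := by
  rcases val6 n with ⟨h, -, h1⟩ | ⟨h, -, h1⟩ | ⟨h, -, h1⟩ | ⟨h, -, h1⟩ | ⟨h, -, h1⟩ | ⟨h, -, h1⟩
  · have a : n % 3 = 0 := by omega
    rw [h1]; simp [chi3, a]
  · have a : n % 3 = 1 := by omega
    have a2 : ¬ 2 ∣ n := by omega
    rw [h1]; simp [chi3, a, ind, a2]
  · have a : n % 3 = 2 := by omega
    have a2 : 2 ∣ n := by omega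
    rw [h1]; simp [chi3, a, ind, a2]; ring
  · have a : n % 3 = 0 := by omega
    rw [h1]; simp [chi3, a]
  · have a : n % 3 = 1 := by omega
    have a2 : 2 ∣ n := by omega
    rw [h1]; simp [chi3, a, ind, a2]; ring
  · have a : n % 3 = 2 := by omega
    have a2 : ¬ 2 ∣ n := by omega
    rw [h1]; simp [chi3, a, ind, a2]; ring

end Ram2Aux

end

end Pool.Agent.Lib.BM
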