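import Pool.Agent.Lib.BM.CmEnd
import Pool.Agent.Lib.BM.CmOne
import Pool.Agent.Lib.BM.CmDataChk
import Pool.Agent.Lib.BM.CmWchk

set_option autoImplicit false

/-!
# BM.StCM: block (CM)

The value of `T(y₀) + 2 K_42(y₀)` at the complex multiplication point `τ₀ = (3 + i √15)/6`.
-/

namespace Pool.Agent.Lib.BM

/-- Block (CM). -/
theorem stCM : StCM := by
  apply Cm.stCM_of Cm.stF3
  rw [Cm.cm_weights Cm.stF3, Cm.insts_value Cm.stF3, Cm.moves_value, add_zero, Cm.One.KS_OO,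
    Cm.One.KS_Lam0]
  ring

end Pool.Agent.Lib.BM
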