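import Pool.Agent.Lib.BM.LDefs

set_option autoImplicit false

/-!
# BM.StripC: sums over one strip `m τ + n`, `n ∈ ℤ`, `m ≠ 0` fixed (used for the limit `y → ∞`)
-/

open Filter Topology Complex
open scoped ComplexConjugate

namespace Pool.Agent.Lib.BM

namespace StripC

/-- inverse of the lattice point -/
noncomputable def iv (y : ℝ) (m n : ℤ) : ℂ := av y (m, n)

lemma lam_re (y : ℝ) (m n : ℤ) : (lam y (m, n)).re = (m : ℝ) / 2 + n := by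
  simp [lam]
  ring

lemma lam_im (y : ℝ) (m n : ℤ) : (lam y (m, n)).im = (m : ℝ) * y := by
  simp [lam]

lemma lam_ne {y : ℝ} (hy : 0 < y) {m : ℤ} (hm : m ≠ 0) (n : ℤ) : lam y (m, n) ≠ 0 := by
  intro h
  have := congrArg Complex.im h
  rw [lam_im] at this
  simp only [zero_im, mul_eq_zero, Int.cast_eq_zero] at this
  rcases this with h | h
  · exact hm h
  · exact hy.ne' h

lemma norm_lam_ge {y : ℝ} (hy : 0 < y) (m n : ℤ) : |(m : ℝ)| * y ≤ ‖lam y (m, n)‖ := by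
  have := Complex.abs_im_le_norm (lam y (m, n))
  rwa [lam_im, abs_mul, abs_of_pos hy] at this

lemma norm_iv_le {y : ℝ} (hy : 0 < y) {m : ℤ} (hm : m ≠ 0) (n : ℤ) :
    ‖iv y m n‖ ≤ 1 / (|(m : ℝ)| * y) := by
  unfold iv av
  rw [norm_inv, ← one_div]
  apply one_div_le_one_div_of_le _ (norm_lam_ge hy m n)
  have : 0 < |(m : ℝ)| := abs_pos.2 (by exact_mod_cast hm)
  positivity

lemma norm_iv_sq (y : ℝ) (m n : ℤ) : ‖iv y m n‖ ^ 2 = (normSq (lam y (m, n)))⁻¹ := by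
  unfold iv av
  rw [norm_inv, inv_pow, Complex.normSq_eq_norm_sq]

/-- The facts on the row sums `r11` used below (block (E)). -/
structure PhiFacts : Prop where
  summable : ∀ (y : ℝ) (m : ℤ), 0 < y → m ≠ 0 → Summable fun n : ℤ => (normSq (lam y (m, n)))⁻¹
  bound : ∃ C : ℝ, 0 ≤ C ∧ ∀ (y : ℝ) (m : ℤ), 1 ≤ y → m ≠ 0 → r11 y m ≤ C / (|(m : ℝ)| * y)
  lim : ∀ m : ℤ, m ≠ 0 → Tendsto (fun y : ℝ => y * r11 y m) atTop (𝓝 (Real.pi / |(m : ℝ)|))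

variable (H : PhiFacts)

lemma absm_pos {m : ℤ} (hm : m ≠ 0) : 0 < |(m : ℝ)| := abs_pos.2 (by exact_mod_cast hm)

include H in
lemma summable_sq {y : ℝ} (hy : 0 < y) {m : ℤ} (hm : m ≠ 0) :
    Summable fun n : ℤ => ‖iv y m n‖ ^ 2 := by
  simp only [norm_iv_sq]
  exact H.summable y m hy hm

lemma phi_eq (y : ℝ) (m : ℤ) : r11 y m = ∑' n : ℤ, ‖iv y m n‖ ^ 2 := rfl

lemma norm_iv_pow_le {y : ℝ} (hy : 0 < y) {m : ℤ} (hm : m ≠ 0) (n : ℤ) (k : ℕ) :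
    ‖iv y m n‖ ^ (k + 2) ≤ (1 / (|(m : ℝ)| * y)) ^ k * ‖iv y m n‖ ^ 2 := by
  rw [pow_add]
  exact mul_le_mul_of_nonneg_right (pow_le_pow_left₀ (norm_nonneg _) (norm_iv_le hy hm n) k)
    (by positivity)

include H in
lemma summable_pow {y : ℝ} (hy : 0 < y) {m : ℤ} (hm : m ≠ 0) (k : ℕ) :
    Summable fun n : ℤ => ‖iv y m n‖ ^ (k + 2) :=
  Summable.of_nonneg_of_le (fun n => by positivity) (fun n => norm_iv_pow_le hy hm n k)
    ((summable_sq H hy hm).mul_left _)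

include H in
lemma tsum_pow_le {y : ℝ} (hy : 0 < y) {m : ℤ} (hm : m ≠ 0) (k : ℕ) :
    ∑' n : ℤ, ‖iv y m n‖ ^ (k + 2) ≤ (1 / (|(m : ℝ)| * y)) ^ k * r11 y m := by
  rw [phi_eq, ← tsum_mul_left]
  exact (summable_pow H hy hm k).tsum_le_tsum (fun n => norm_iv_pow_le hy hm n k)
    ((summable_sq H hy hm).mul_left _)

/-- `∑ |m τ + n|^-4` -/
noncomputable def S4 (y : ℝ) (m : ℤ) : ℝ := ∑' n : ℤ, ‖iv y m n‖ ^ 4

lemma S4_nonneg (y : ℝ) (m : ℤ) : 0 ≤ S4 y m := tsum_nonneg fun n => by positivity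

include H in
lemma summable_four {y : ℝ} (hy : 0 < y) {m : ℤ} (hm : m ≠ 0) :
    Summable fun n : ℤ => ‖iv y m n‖ ^ 4 := summable_pow H hy hm 2

include H in
lemma S4_bound : ∃ C : ℝ, 0 ≤ C ∧ ∀ (y : ℝ) (m : ℤ), 1 ≤ y → m ≠ 0 →
    y ^ 3 * S4 y m ≤ C / |(m : ℝ)| ^ 3 := by
  obtain ⟨C, hC, h⟩ := H.bound
  refine ⟨C, hC, fun y m hy hm => ?_⟩
  have hy0 : 0 < y := by linarith
  have hm0 := absm_pos hm
  have h1 : S4 y m ≤ (1 / (|(m : ℝ)| * y)) ^ 2 * r11 y m := tsum_pow_le H hy0 hm 2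
  have h2 : (1 / (|(m : ℝ)| * y)) ^ 2 * r11 y m ≤ (1 / (|(m : ℝ)| * y)) ^ 2 * (C / (|(m : ℝ)| * y)) :=
    mul_le_mul_of_nonneg_left (h y m hy hm) (by positivity)
  calc y ^ 3 * S4 y m ≤ y ^ 3 * ((1 / (|(m : ℝ)| * y)) ^ 2 * (C / (|(m : ℝ)| * y))) :=
        mul_le_mul_of_nonneg_left (h1.trans h2) (by positivity)
    _ = C / |(m : ℝ)| ^ 3 := by field_simp

/-! ### the sum of `λ^-2` over a strip is small -/

lemma lam_succ (y : ℝ) (m n : ℤ) : lam y (m, n + 1) = lam y (m, n) + 1 := by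
  simp [lam]
  ring

lemma iv_mul_succ {y : ℝ} (hy : 0 < y) {m : ℤ} (hm : m ≠ 0) (n : ℤ) :
    iv y m n * iv y m (n + 1) = iv y m n - iv y m (n + 1) := by
  have h1 := lam_ne hy hm n
  have h2 := lam_ne hy hm (n + 1)
  unfold iv av
  rw [lam_succ] at *
  field_simp
  ring

include H in
lemma tendsto_iv {y : ℝ} (hy : 0 < y) {m : ℤ} (hm : m ≠ 0) :
    Tendsto (fun n : ℤ => iv y m n) cofinite (𝓝 0) := by
  have h := (summable_sq H hy hm).tendsto_cofinite_zero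
  have h2 := (Real.continuous_sqrt.tendsto 0).comp h
  rw [Real.sqrt_zero] at h2
  rw [tendsto_zero_iff_norm_tendsto_zero]
  refine h2.congr fun n => ?_
  simp only [Function.comp]
  exact Real.sqrt_sq (norm_nonneg _)

include H in
lemma summable_shift_mul {y : ℝ} (hy : 0 < y) {m : ℤ} (hm : m ≠ 0) :
    Summable fun n : ℤ => iv y m n * iv y m (n + 1) := by
  have s1 := summable_sq H hy hm
  have s2 : Summable fun n : ℤ => ‖iv y m (n + 1)‖ ^ 2 := (Equiv.addRight (1 : ℤ)).summable_iff.2 s1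
  refine Summable.of_norm_bounded (s1.add s2) fun n => ?_
  rw [norm_mul]
  nlinarith [sq_nonneg (‖iv y m n‖ - ‖iv y m (n + 1)‖), sq_nonneg ‖iv y m n‖,
    sq_nonneg ‖iv y m (n + 1)‖]

lemma sum_Ico_telescope (f : ℤ → ℂ) (N : ℕ) :
    ∑ n ∈ Finset.Ico (-(N : ℤ)) N, (f n - f (n + 1)) = f (-(N : ℤ)) - f N := by
  induction N with
  | zero => simp
  | succ N ih =>
    have e : Finset.Ico (-((N + 1 : ℕ) : ℤ)) ((N + 1 : ℕ) : ℤ)
        = insert (-((N : ℤ) + 1)) (insert (N : ℤ) (Finset.Ico (-(N : ℤ)) N)) := by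
      ext x
      simp only [Finset.mem_Ico, Finset.mem_insert]
      push_cast
      omega
    rw [e, Finset.sum_insert, Finset.sum_insert, ih]
    · push_cast
      rw [show -((N : ℤ) + 1) + 1 = -(N : ℤ) by ring]
      ring
    · simp
    · simp only [Finset.mem_Ico, Finset.mem_insert]
      omega

include H in
lemma tsum_telescope {y : ℝ} (hy : 0 < y) {m : ℤ} (hm : m ≠ 0) :
    ∑' n : ℤ, iv y m n * iv y m (n + 1) = 0 := by
  have hs := summable_shift_mul H hy hm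
  have ht : Tendsto (fun N : ℕ => ∑ n ∈ Finset.Ico (-(N : ℤ)) N, iv y m n * iv y m (n + 1)) atTop
      (𝓝 (∑' n : ℤ, iv y m n * iv y m (n + 1))) :=
    hs.hasSum.comp (Finset.tendsto_Ico_neg (R := ℤ))
  have h0 := tendsto_iv H hy hm
  have hc1 : Tendsto (fun N : ℕ => (N : ℤ)) atTop cofinite := by
    rw [← Nat.cofinite_eq_atTop]
    exact Nat.cast_injective.tendsto_cofinite
  have hc2 : Tendsto (fun N : ℕ => -(N : ℤ)) atTop cofinite := by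
    rw [← Nat.cofinite_eq_atTop]
    exact (neg_injective.comp Nat.cast_injective).tendsto_cofinite
  have ht2 : Tendsto (fun N : ℕ => ∑ n ∈ Finset.Ico (-(N : ℤ)) N, iv y m n * iv y m (n + 1)) atTop
      (𝓝 (0 - 0)) := by
    have : ∀ N : ℕ, ∑ n ∈ Finset.Ico (-(N : ℤ)) N, iv y m n * iv y m (n + 1)
        = iv y m (-(N : ℤ)) - iv y m N := by
      intro N
      rw [← sum_Ico_telescope]
      exact Finset.sum_congr rfl fun n _ => iv_mul_succ hy hm n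
    simp only [this]
    exact (h0.comp hc2).sub (h0.comp hc1)
  have := tendsto_nhds_unique ht ht2
  rw [this, sub_zero]

include H in
lemma summable_sqC {y : ℝ} (hy : 0 < y) {m : ℤ} (hm : m ≠ 0) :
    Summable fun n : ℤ => iv y m n ^ 2 :=
  Summable.of_norm (by simpa only [norm_pow] using summable_sq H hy hm)

include H in
lemma norm_tsum_sq_le {y : ℝ} (hy : 0 < y) {m : ℤ} (hm : m ≠ 0) :
    ‖∑' n : ℤ, iv y m n ^ 2‖ ≤ 1 / (|(m : ℝ)| * y) * r11 y m := by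
  have s1 := summable_sqC H hy hm
  have s2 := summable_shift_mul H hy hm
  have e : ∑' n : ℤ, iv y m n ^ 2 = ∑' n : ℤ, iv y m n ^ 2 * iv y m (n + 1) := by
    have h1 : ∑' n : ℤ, (iv y m n ^ 2 - iv y m n * iv y m (n + 1)) = ∑' n : ℤ, iv y m n ^ 2 := by
      rw [s1.tsum_sub s2, tsum_telescope H hy hm, sub_zero]
    rw [← h1]
    apply tsum_congr
    intro n
    have := iv_mul_succ hy hm n
    linear_combination (-(iv y m n)) * this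
  rw [e, phi_eq, ← tsum_mul_left]
  apply tsum_of_norm_bounded ((summable_sq H hy hm).mul_left _).hasSum
  intro n
  rw [norm_mul, norm_pow, mul_comm]
  exact mul_le_mul_of_nonneg_right (norm_iv_le hy hm _) (by positivity)

/-- `|a|^4 = (|a|^2 - Re a^2) / (2 M^2)` -/
lemma norm_four {y : ℝ} (hy : 0 < y) {m : ℤ} (hm : m ≠ 0) (n : ℤ) :
    ‖iv y m n‖ ^ 4 = (‖iv y m n‖ ^ 2 - (iv y m n ^ 2).re) / (2 * ((m : ℝ) * y) ^ 2) := by
  have hx := lam_ne hy hm n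
  have him := lam_im y m n
  set x := lam y (m, n) with hxd
  have hM : (m : ℝ) * y ≠ 0 := mul_ne_zero (by exact_mod_cast hm) hy.ne'
  have hN : normSq x ≠ 0 := by rwa [Ne, Complex.normSq_eq_zero]
  have e1 : ‖iv y m n‖ ^ 2 = (normSq x)⁻¹ := norm_iv_sq y m n
  have e2 : (iv y m n ^ 2).re = (x.re ^ 2 - x.im ^ 2) / normSq x ^ 2 := by
    unfold iv av
    rw [← hxd, sq, Complex.mul_re, Complex.inv_re, Complex.inv_im]
    field_simp
  have e3 : normSq x = x.re ^ 2 + x.im ^ 2 := by rw [Complex.normSq_apply]; ring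
  rw [show ‖iv y m n‖ ^ 4 = (‖iv y m n‖ ^ 2) ^ 2 by ring, e1, e2, him]
  rw [him] at e3
  field_simp
  rw [e3]
  ring

include H in
lemma S4_eq {y : ℝ} (hy : 0 < y) {m : ℤ} (hm : m ≠ 0) :
    S4 y m = (r11 y m - (∑' n : ℤ, iv y m n ^ 2).re) / (2 * ((m : ℝ) * y) ^ 2) := by
  have s1 := summable_sq H hy hm
  have s2 := summable_sqC H hy hm
  unfold S4
  rw [tsum_congr (norm_four hy hm), tsum_div_const, phi_eq, Complex.re_tsum s2,
    s1.tsum_sub (Complex.hasSum_re s2.hasSum).summable]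

include H in
lemma S4_tendsto {m : ℤ} (hm : m ≠ 0) :
    Tendsto (fun y : ℝ => y ^ 3 * S4 y m) atTop (𝓝 (Real.pi / (2 * |(m : ℝ)| ^ 3))) := by
  have hm0 := absm_pos hm
  have hm2 : (m : ℝ) ^ 2 = |(m : ℝ)| ^ 2 := (sq_abs _).symm
  have h1 := H.lim m hm
  have h2 : Tendsto (fun y : ℝ => y * (∑' n : ℤ, iv y m n ^ 2).re) atTop (𝓝 0) := by
    have h3 : Tendsto (fun y : ℝ => (1 / |(m : ℝ)| * (y * r11 y m)) * y⁻¹) atTop (𝓝 0) := by
      have := (h1.const_mul (1 / |(m : ℝ)|)).mul tendsto_inv_atTop_zero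
      rwa [mul_zero] at this
    apply squeeze_zero_norm' _ h3
    filter_upwards [eventually_gt_atTop 0] with y hy
    have h4 := norm_tsum_sq_le H hy hm
    rw [Real.norm_eq_abs, abs_mul, abs_of_pos hy]
    calc y * |(∑' n : ℤ, iv y m n ^ 2).re| ≤ y * (1 / (|(m : ℝ)| * y) * r11 y m) :=
          mul_le_mul_of_nonneg_left ((Complex.abs_re_le_norm _).trans h4) hy.le
      _ = (1 / |(m : ℝ)| * (y * r11 y m)) * y⁻¹ := by field_simp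
  have h5 := (h1.sub h2).const_mul (1 / (2 * |(m : ℝ)| ^ 2))
  have e : 1 / (2 * |(m : ℝ)| ^ 2) * (Real.pi / |(m : ℝ)| - 0) = Real.pi / (2 * |(m : ℝ)| ^ 3) := by
    rw [sub_zero]
    field_simp
  rw [e] at h5
  refine h5.congr' ?_
  filter_upwards [eventually_gt_atTop 0] with y hy
  rw [S4_eq H hy hm, mul_pow, hm2]
  field_simp

/-! ### the strip sums of `Del` with one real entry -/

lemma Dl_swap (a b c : ℂ) : Del a c b = -Del a b c := by unfold Del; ring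

lemma Dl_conj (a b c : ℂ) : Del (conj a) (conj b) (conj c)
    = 2 * conj a ^ 3 * a * (conj c * b - conj b * c) - conj a ^ 2 * a * (conj c ^ 2 * b - conj b ^ 2 * c) := by
  unfold Del
  simp only [Complex.conj_conj]

lemma Dl_conj' (a b c : ℂ) : Del (conj a) (conj b) (conj c) = conj (Del a b c) := by
  unfold Del
  simp only [Complex.conj_conj, map_sub, map_mul, map_pow, map_ofNat]

lemma Dl_zero_left (b c : ℂ) : Del 0 b c = 0 := by unfold Del; ring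
lemma Dl_zero_mid (a c : ℂ) : Del a 0 c = 0 := by unfold Del; simp
lemma Dl_zero_right (a b : ℂ) : Del a b 0 = 0 := by unfold Del; simp

lemma mul_le_of_rel {a b c : ℂ} (h : a * b = -(c * (a + b))) : ‖a‖ * ‖b‖ ≤ ‖c‖ * (‖a‖ + ‖b‖) := by
  rw [← norm_mul, h, norm_neg, norm_mul]
  exact mul_le_mul_of_nonneg_left (norm_add_le _ _) (norm_nonneg _)

lemma Dl_real_c {a b c : ℂ} (hc : conj c = c) : Del a b c
    = c * (2 * a ^ 3 * conj a * (conj b - b) + a ^ 2 * conj a * b ^ 2) - c ^ 2 * (a ^ 2 * conj a * conj b) := by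
  unfold Del
  rw [hc]
  ring

lemma norm_conj_sub_le (b : ℂ) : ‖conj b - b‖ ≤ 2 * ‖b‖ := by
  refine (norm_sub_le _ _).trans ?_
  rw [Complex.norm_conj]
  linarith

lemma quart1 {x y : ℝ} (hx : 0 ≤ x) (hy : 0 ≤ y) : x ^ 3 * y ≤ x ^ 4 + y ^ 4 := by
  rcases le_total x y with h | h
  · have : x ^ 3 * y ≤ y ^ 3 * y := mul_le_mul_of_nonneg_right (pow_le_pow_left₀ hx h 3) hy
    nlinarith [pow_nonneg hx 4]
  · have : x ^ 3 * y ≤ x ^ 3 * x := mul_le_mul_of_nonneg_left h (by positivity)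
    nlinarith [pow_nonneg hy 4]

lemma quart2 {x y : ℝ} : x ^ 2 * y ^ 2 ≤ x ^ 4 + y ^ 4 := by
  nlinarith [sq_nonneg (x ^ 2 - y ^ 2), sq_nonneg (x ^ 2 + y ^ 2)]

/-- Domination: `|Del a b c| ≤ 11 |c|² (|a|⁴ + |b|⁴)`, `c` real. -/
lemma norm_Dl_le {a b c : ℂ} (hc : conj c = c) (h : a * b = -(c * (a + b))) :
    ‖Del a b c‖ ≤ 11 * ‖c‖ ^ 2 * (‖a‖ ^ 4 + ‖b‖ ^ 4) := by
  have h1 := mul_le_of_rel h
  have ha := norm_nonneg a
  have hb := norm_nonneg b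
  have hcn := norm_nonneg c
  have e1 : ‖2 * a ^ 3 * conj a * (conj b - b)‖ ≤ 4 * (‖a‖ ^ 4 * ‖b‖) := by
    rw [norm_mul, norm_mul, norm_mul, norm_pow, Complex.norm_conj, Complex.norm_ofNat]
    have := norm_conj_sub_le b
    calc 2 * ‖a‖ ^ 3 * ‖a‖ * ‖conj b - b‖ ≤ 2 * ‖a‖ ^ 3 * ‖a‖ * (2 * ‖b‖) :=
          mul_le_mul_of_nonneg_left this (by positivity)
      _ = _ := by ring
  have e2 : ‖a ^ 2 * conj a * b ^ 2‖ = ‖a‖ ^ 3 * ‖b‖ ^ 2 := by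
    rw [norm_mul, norm_mul, norm_pow, norm_pow, Complex.norm_conj]; ring
  have e3 : ‖c ^ 2 * (a ^ 2 * conj a * conj b)‖ = ‖c‖ ^ 2 * (‖a‖ ^ 3 * ‖b‖) := by
    rw [norm_mul, norm_mul, norm_mul, norm_pow, norm_pow, Complex.norm_conj, Complex.norm_conj]; ring
  have q1 := quart1 ha hb
  have q2 := quart2 (x := ‖a‖) (y := ‖b‖)
  have f1 : ‖c‖ * (‖a‖ ^ 4 * ‖b‖) ≤ ‖c‖ ^ 2 * (2 * (‖a‖ ^ 4 + ‖b‖ ^ 4)) := by
    calc ‖c‖ * (‖a‖ ^ 4 * ‖b‖) = ‖c‖ * ‖a‖ ^ 3 * (‖a‖ * ‖b‖) := by ring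
      _ ≤ ‖c‖ * ‖a‖ ^ 3 * (‖c‖ * (‖a‖ + ‖b‖)) := mul_le_mul_of_nonneg_left h1 (by positivity)
      _ = ‖c‖ ^ 2 * (‖a‖ ^ 4 + ‖a‖ ^ 3 * ‖b‖) := by ring
      _ ≤ _ := by
        apply mul_le_mul_of_nonneg_left _ (by positivity)
        nlinarith [pow_nonneg hb 4, pow_nonneg ha 4]
  have f2 : ‖c‖ * (‖a‖ ^ 3 * ‖b‖ ^ 2) ≤ ‖c‖ ^ 2 * (2 * (‖a‖ ^ 4 + ‖b‖ ^ 4)) := by
    calc ‖c‖ * (‖a‖ ^ 3 * ‖b‖ ^ 2) = ‖c‖ * ‖a‖ ^ 2 * ‖b‖ * (‖a‖ * ‖b‖) := by ring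
      _ ≤ ‖c‖ * ‖a‖ ^ 2 * ‖b‖ * (‖c‖ * (‖a‖ + ‖b‖)) := mul_le_mul_of_nonneg_left h1 (by positivity)
      _ = ‖c‖ ^ 2 * (‖a‖ ^ 3 * ‖b‖ + ‖a‖ ^ 2 * ‖b‖ ^ 2) := by ring
      _ ≤ _ := by
        apply mul_le_mul_of_nonneg_left _ (by positivity)
        linarith
  have f3 : ‖c‖ ^ 2 * (‖a‖ ^ 3 * ‖b‖) ≤ ‖c‖ ^ 2 * (‖a‖ ^ 4 + ‖b‖ ^ 4) :=
    mul_le_mul_of_nonneg_left q1 (by positivity)
  rw [Dl_real_c hc]
  calc _ ≤ ‖c * (2 * a ^ 3 * conj a * (conj b - b) + a ^ 2 * conj a * b ^ 2)‖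
        + ‖c ^ 2 * (a ^ 2 * conj a * conj b)‖ := norm_sub_le _ _
    _ ≤ ‖c‖ * (4 * (‖a‖ ^ 4 * ‖b‖) + ‖a‖ ^ 3 * ‖b‖ ^ 2) + ‖c‖ ^ 2 * (‖a‖ ^ 3 * ‖b‖) := by
        rw [e3, norm_mul]
        gcongr
        refine (norm_add_le _ _).trans ?_
        rw [e2]
        gcongr
    _ = 4 * (‖c‖ * (‖a‖ ^ 4 * ‖b‖)) + ‖c‖ * (‖a‖ ^ 3 * ‖b‖ ^ 2) + ‖c‖ ^ 2 * (‖a‖ ^ 3 * ‖b‖) := by ring
    _ ≤ 4 * (‖c‖ ^ 2 * (2 * (‖a‖ ^ 4 + ‖b‖ ^ 4))) + ‖c‖ ^ 2 * (2 * (‖a‖ ^ 4 + ‖b‖ ^ 4))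
        + ‖c‖ ^ 2 * (‖a‖ ^ 4 + ‖b‖ ^ 4) := by linarith
    _ = _ := by ring

/-- Asymptotics: `|Del a b c - c² |a|⁴| ≤ 6 |c| M⁻¹ (|a|⁴ + |b|⁴)` if `|a|, |b| ≤ M⁻¹`, `c` real. -/
lemma norm_Dl_sub_le {a b c : ℂ} {B : ℝ} (hc : conj c = c) (h : a * b = -(c * (a + b)))
    (hb1 : ‖b‖ ≤ B) :
    ‖Del a b c - c ^ 2 * ((‖a‖ ^ 4 : ℝ) : ℂ)‖ ≤ 6 * ‖c‖ * B * (‖a‖ ^ 4 + ‖b‖ ^ 4) := by
  have ha := norm_nonneg a
  have hb := norm_nonneg b
  have hcn := norm_nonneg c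
  have hn : ((‖a‖ ^ 4 : ℝ) : ℂ) = a ^ 2 * conj a ^ 2 := by
    have : ((‖a‖ ^ 2 : ℝ) : ℂ) = a * conj a := by
      rw [← Complex.normSq_eq_norm_sq, Complex.mul_conj]
    rw [show ‖a‖ ^ 4 = ‖a‖ ^ 2 * ‖a‖ ^ 2 by ring, Complex.ofReal_mul, this]
    ring
  have hcc : c * conj (a + b) = -conj (a * b) := by
    have := congrArg (starRingEnd ℂ) h
    rw [map_neg, map_mul (starRingEnd ℂ) c, hc] at this
    rw [this, neg_neg]
  have key : Del a b c - c ^ 2 * ((‖a‖ ^ 4 : ℝ) : ℂ)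
      = c * (2 * a ^ 3 * conj a * (conj b - b) + a ^ 2 * conj a * b ^ 2)
        + c * (a ^ 2 * conj a * (conj a * conj b)) := by
    rw [Dl_real_c hc, hn]
    rw [map_add, map_mul] at hcc
    linear_combination (-(c * a ^ 2 * conj a)) * hcc
  have e1 : ‖2 * a ^ 3 * conj a * (conj b - b)‖ ≤ 4 * (‖a‖ ^ 4 * ‖b‖) := by
    rw [norm_mul, norm_mul, norm_mul, norm_pow, Complex.norm_conj, Complex.norm_ofNat]
    have := norm_conj_sub_le b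
    calc 2 * ‖a‖ ^ 3 * ‖a‖ * ‖conj b - b‖ ≤ 2 * ‖a‖ ^ 3 * ‖a‖ * (2 * ‖b‖) :=
          mul_le_mul_of_nonneg_left this (by positivity)
      _ = _ := by ring
  have e2 : ‖a ^ 2 * conj a * b ^ 2‖ = ‖a‖ ^ 3 * ‖b‖ ^ 2 := by
    rw [norm_mul, norm_mul, norm_pow, norm_pow, Complex.norm_conj]; ring
  have e3 : ‖a ^ 2 * conj a * (conj a * conj b)‖ = ‖a‖ ^ 4 * ‖b‖ := by
    rw [norm_mul, norm_mul, norm_mul, norm_pow, Complex.norm_conj, Complex.norm_conj]; ring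
  have q1 := quart1 ha hb
  have g1 : ‖a‖ ^ 4 * ‖b‖ ≤ ‖a‖ ^ 4 * B := mul_le_mul_of_nonneg_left hb1 (by positivity)
  have g2 : ‖a‖ ^ 3 * ‖b‖ ^ 2 ≤ (‖a‖ ^ 4 + ‖b‖ ^ 4) * B := by
    calc ‖a‖ ^ 3 * ‖b‖ ^ 2 = (‖a‖ ^ 3 * ‖b‖) * ‖b‖ := by ring
      _ ≤ (‖a‖ ^ 4 + ‖b‖ ^ 4) * B := mul_le_mul q1 hb1 hb (by positivity)
  have hB : 0 ≤ B := hb.trans hb1
  have g3 : 0 ≤ ‖b‖ ^ 4 * B := by positivity
  rw [key]
  calc _ ≤ ‖c * (2 * a ^ 3 * conj a * (conj b - b) + a ^ 2 * conj a * b ^ 2)‖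
        + ‖c * (a ^ 2 * conj a * (conj a * conj b))‖ := norm_add_le _ _
    _ ≤ ‖c‖ * (4 * (‖a‖ ^ 4 * ‖b‖) + ‖a‖ ^ 3 * ‖b‖ ^ 2) + ‖c‖ * (‖a‖ ^ 4 * ‖b‖) := by
        rw [norm_mul, norm_mul c, e3]
        gcongr
        refine (norm_add_le _ _).trans ?_
        rw [e2]
        gcongr
    _ = ‖c‖ * (5 * (‖a‖ ^ 4 * ‖b‖) + ‖a‖ ^ 3 * ‖b‖ ^ 2) := by ring
    _ ≤ ‖c‖ * (5 * (‖a‖ ^ 4 * B) + (‖a‖ ^ 4 + ‖b‖ ^ 4) * B + 5 * (‖b‖ ^ 4 * B)) := by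
        apply mul_le_mul_of_nonneg_left _ hcn
        linarith
    _ = _ := by ring

/-! ### the strip sum `beta` -/

/-- the relation between the three inverses -/
lemma iv_rel {y : ℝ} (hy : 0 < y) {m : ℤ} (hm : m ≠ 0) {n : ℤ} (hn : n ≠ 0) (k : ℤ) :
    iv y m k * -iv y m (n + k) = -((n : ℂ)⁻¹ * (iv y m k + -iv y m (n + k))) := by
  have h1 := lam_ne hy hm k
  have h2 := lam_ne hy hm (n + k)
  have h3 : (n : ℂ) ≠ 0 := by exact_mod_cast hn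
  have h4 : lam y (m, n + k) = lam y (m, k) + n := by simp [lam]; ring
  rw [h4] at h2
  unfold iv av
  rw [h4]
  field_simp
  ring

/-- the strip sum with one real entry `1/n` -/
noncomputable def beta (y : ℝ) (m n : ℤ) : ℝ :=
  ∑' k : ℤ, (Del (iv y m k) (-iv y m (n + k)) (n : ℂ)⁻¹).re

lemma conj_inv_int (n : ℤ) : conj ((n : ℂ)⁻¹) = (n : ℂ)⁻¹ := by
  rw [map_inv₀, map_intCast]

include H in
lemma summable_shift4 {y : ℝ} (hy : 0 < y) {m : ℤ} (hm : m ≠ 0) (n : ℤ) :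
    Summable fun k : ℤ => ‖iv y m (n + k)‖ ^ 4 :=
  (Equiv.addLeft n).summable_iff.2 (summable_four H hy hm)

include H in
lemma tsum_shift4 {y : ℝ} (hy : 0 < y) {m : ℤ} (hm : m ≠ 0) (n : ℤ) :
    ∑' k : ℤ, (‖iv y m k‖ ^ 4 + ‖-iv y m (n + k)‖ ^ 4) = 2 * S4 y m := by
  simp only [norm_neg]
  rw [(summable_four H hy hm).tsum_add (summable_shift4 H hy hm n)]
  have : ∑' k : ℤ, ‖iv y m (n + k)‖ ^ 4 = S4 y m :=
    (Equiv.addLeft n).tsum_eq (fun k => ‖iv y m k‖ ^ 4)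
  rw [this]
  unfold S4
  ring

include H in
lemma summable_pair4 {y : ℝ} (hy : 0 < y) {m : ℤ} (hm : m ≠ 0) (n : ℤ) :
    Summable fun k : ℤ => (‖iv y m k‖ ^ 4 + ‖-iv y m (n + k)‖ ^ 4) := by
  simp only [norm_neg]
  exact (summable_four H hy hm).add (summable_shift4 H hy hm n)

lemma beta_zero (y : ℝ) (m : ℤ) : beta y m 0 = 0 := by
  unfold beta
  simp [Dl_zero_right]

include H in
lemma summable_beta {y : ℝ} (hy : 0 < y) {m : ℤ} (hm : m ≠ 0) (n : ℤ) :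
    Summable fun k : ℤ => Del (iv y m k) (-iv y m (n + k)) (n : ℂ)⁻¹ := by
  rcases eq_or_ne n 0 with rfl | hn
  · simp [Dl_zero_right, summable_zero]
  · exact Summable.of_norm_bounded ((summable_pair4 H hy hm n).mul_left _) fun k =>
      norm_Dl_le (conj_inv_int n) (iv_rel hy hm hn k)

include H in
lemma abs_beta_le {y : ℝ} (hy : 0 < y) {m : ℤ} (hm : m ≠ 0) (n : ℤ) :
    |beta y m n| ≤ 22 * (1 / (n : ℝ) ^ 2) * S4 y m := by
  rcases eq_or_ne n 0 with rfl | hn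
  · rw [beta_zero]; simp
  · unfold beta
    have hc : ‖(n : ℂ)⁻¹‖ ^ 2 = 1 / (n : ℝ) ^ 2 := by
      rw [norm_inv, Complex.norm_intCast, inv_pow, sq_abs, one_div]
    have h := tsum_of_norm_bounded (f := fun k : ℤ => (Del (iv y m k) (-iv y m (n + k)) (n : ℂ)⁻¹).re)
      ((summable_pair4 H hy hm n).mul_left (11 * ‖(n : ℂ)⁻¹‖ ^ 2)).hasSum fun k =>
        (Complex.abs_re_le_norm _).trans (norm_Dl_le (conj_inv_int n) (iv_rel hy hm hn k))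
    rw [tsum_mul_left, tsum_shift4 H hy hm n, hc] at h
    rw [Real.norm_eq_abs] at h
    linarith

include H in
lemma abs_beta_sub_le {y : ℝ} (hy : 0 < y) {m : ℤ} (hm : m ≠ 0) (n : ℤ) :
    |beta y m n - 1 / (n : ℝ) ^ 2 * S4 y m| ≤ 12 * (1 / (|(m : ℝ)| * y)) * S4 y m := by
  rcases eq_or_ne n 0 with rfl | hn
  · rw [beta_zero]
    have := S4_nonneg y m
    have := absm_pos hm
    simp only [Int.cast_zero, ne_eq, OfNat.ofNat_ne_zero, not_false_eq_true, zero_pow, div_zero,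
      zero_mul, sub_zero, abs_zero]
    positivity
  · have hc2 : ((n : ℂ)⁻¹) ^ 2 = ((1 / (n : ℝ) ^ 2 : ℝ) : ℂ) := by
      push_cast
      rw [inv_pow, one_div]
    have hcn : ‖(n : ℂ)⁻¹‖ ≤ 1 := by
      rw [norm_inv, Complex.norm_intCast]
      apply inv_le_one_of_one_le₀
      exact_mod_cast Int.one_le_abs hn
    have hM : 0 < |(m : ℝ)| * y := mul_pos (absm_pos hm) hy
    have hsub : beta y m n - 1 / (n : ℝ) ^ 2 * S4 y m
        = ∑' k : ℤ, (Del (iv y m k) (-iv y m (n + k)) (n : ℂ)⁻¹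
          - ((n : ℂ)⁻¹) ^ 2 * ((‖iv y m k‖ ^ 4 : ℝ) : ℂ)).re := by
      have s1 := (Complex.hasSum_re (summable_beta H hy hm n).hasSum).summable
      have s2 := (summable_four H hy hm).mul_left (1 / (n : ℝ) ^ 2)
      unfold beta S4
      rw [← tsum_mul_left, ← s1.tsum_sub s2]
      apply tsum_congr
      intro k
      rw [Complex.sub_re, hc2, ← Complex.ofReal_mul, Complex.ofReal_re]
    rw [hsub]
    have h := tsum_of_norm_bounded (f := fun k : ℤ => (Del (iv y m k) (-iv y m (n + k)) (n : ℂ)⁻¹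
          - ((n : ℂ)⁻¹) ^ 2 * ((‖iv y m k‖ ^ 4 : ℝ) : ℂ)).re)
      ((summable_pair4 H hy hm n).mul_left (6 * ‖(n : ℂ)⁻¹‖ * (1 / (|(m : ℝ)| * y)))).hasSum fun k =>
        (Complex.abs_re_le_norm _).trans (norm_Dl_sub_le (conj_inv_int n) (iv_rel hy hm hn k)
          (by rw [norm_neg]; exact norm_iv_le hy hm _))
    rw [tsum_mul_left, tsum_shift4 H hy hm n, Real.norm_eq_abs] at h
    refine h.trans ?_
    have h4 := S4_nonneg y m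
    calc 6 * ‖(n : ℂ)⁻¹‖ * (1 / (|(m : ℝ)| * y)) * (2 * S4 y m)
        ≤ 6 * 1 * (1 / (|(m : ℝ)| * y)) * (2 * S4 y m) := by gcongr
      _ = _ := by ring

include H in
/-- domination -/
theorem beta_bound : ∃ C : ℝ, 0 ≤ C ∧ ∀ (y : ℝ) (m n : ℤ), 1 ≤ y → m ≠ 0 →
    |y ^ 3 * beta y m n| ≤ C * (1 / |(m : ℝ)| ^ 3 * (1 / (n : ℝ) ^ 2)) := by
  obtain ⟨C, hC, h⟩ := S4_bound H
  refine ⟨22 * C, by positivity, fun y m n hy hm => ?_⟩
  have hy0 : 0 < y := by linarith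
  have h1 := abs_beta_le H hy0 hm n
  have h2 := h y m hy hm
  rw [abs_mul, abs_of_pos (by positivity : 0 < y ^ 3)]
  calc y ^ 3 * |beta y m n| ≤ y ^ 3 * (22 * (1 / (n : ℝ) ^ 2) * S4 y m) :=
        mul_le_mul_of_nonneg_left h1 (by positivity)
    _ = 22 * (1 / (n : ℝ) ^ 2) * (y ^ 3 * S4 y m) := by ring
    _ ≤ 22 * (1 / (n : ℝ) ^ 2) * (C / |(m : ℝ)| ^ 3) := mul_le_mul_of_nonneg_left h2 (by positivity)
    _ = _ := by ring

include H in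
/-- pointwise limit -/
theorem beta_tendsto {m : ℤ} (hm : m ≠ 0) (n : ℤ) :
    Tendsto (fun y : ℝ => y ^ 3 * beta y m n) atTop
      (𝓝 (1 / (n : ℝ) ^ 2 * (Real.pi / (2 * |(m : ℝ)| ^ 3)))) := by
  have h1 := (S4_tendsto H hm).const_mul (1 / (n : ℝ) ^ 2)
  have h2 : Tendsto (fun y : ℝ => y ^ 3 * (beta y m n - 1 / (n : ℝ) ^ 2 * S4 y m)) atTop (𝓝 0) := by
    have h3 : Tendsto (fun y : ℝ => (12 / |(m : ℝ)| * (y ^ 3 * S4 y m)) * y⁻¹) atTop (𝓝 0) := by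
      have := ((S4_tendsto H hm).const_mul (12 / |(m : ℝ)|)).mul tendsto_inv_atTop_zero
      rwa [mul_zero] at this
    apply squeeze_zero_norm' _ h3
    filter_upwards [eventually_gt_atTop 0] with y hy
    have h4 := abs_beta_sub_le H hy hm n
    rw [Real.norm_eq_abs, abs_mul, abs_of_pos (by positivity : 0 < y ^ 3)]
    have hm0 := absm_pos hm
    calc y ^ 3 * |beta y m n - 1 / (n : ℝ) ^ 2 * S4 y m|
        ≤ y ^ 3 * (12 * (1 / (|(m : ℝ)| * y)) * S4 y m) := mul_le_mul_of_nonneg_left h4 (by positivity)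
      _ = _ := by field_simp
  have h5 := h1.add h2
  rw [add_zero] at h5
  refine h5.congr fun y => ?_
  ring

end StripC

end Pool.Agent.Lib.BM
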