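import Pool.Agent.Lib.BM.StripC
import Pool.Agent.Lib.BM.LSum

set_option autoImplicit false

/-!
# BM.TDec: decomposition of the real part of `T` for the limit `y → ∞`
-/

open Filter Topology Complex
open scoped ComplexConjugate

namespace Pool.Agent.Lib.BM

namespace StripC

/-! ### bound of `Del` -/

lemma norm_Del_le' {a b c : ℂ} (h : a * b + b * c + c * a = 0) :
    ‖Del a b c‖ ≤ 6 * (‖a‖ ^ 3 * (‖b‖ ^ 3 + ‖c‖ ^ 3)) := by
  have hc : conj a * conj b + conj b * conj c + conj c * conj a = 0 := by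
    have := congrArg (starRingEnd ℂ) h
    simpa using this
  have key : Del a b c = 2 * (b * conj b * (a ^ 3 * conj c)) - 2 * (b * conj b * (a ^ 2 * conj a * c))
      - a ^ 2 * conj a * c ^ 2 * conj b + a ^ 2 * conj a * b ^ 2 * conj c := by
    unfold Del
    linear_combination (2 * a ^ 2 * conj a * conj b) * h + (-(2 * a ^ 3 * b)) * hc
  have ha := norm_nonneg a
  have hb := norm_nonneg b
  have hcn := norm_nonneg c
  have n1 : ‖2 * (b * conj b * (a ^ 3 * conj c))‖ = 2 * (‖a‖ ^ 3 * (‖b‖ ^ 2 * ‖c‖)) := by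
    simp only [norm_mul, norm_pow, Complex.norm_conj, Complex.norm_ofNat]; ring
  have n2 : ‖2 * (b * conj b * (a ^ 2 * conj a * c))‖ = 2 * (‖a‖ ^ 3 * (‖b‖ ^ 2 * ‖c‖)) := by
    simp only [norm_mul, norm_pow, Complex.norm_conj, Complex.norm_ofNat]; ring
  have n3 : ‖a ^ 2 * conj a * c ^ 2 * conj b‖ = ‖a‖ ^ 3 * (‖c‖ ^ 2 * ‖b‖) := by
    simp only [norm_mul, norm_pow, Complex.norm_conj]; ring
  have n4 : ‖a ^ 2 * conj a * b ^ 2 * conj c‖ = ‖a‖ ^ 3 * (‖b‖ ^ 2 * ‖c‖) := by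
    simp only [norm_mul, norm_pow, Complex.norm_conj]; ring
  have m1 : ‖a‖ ^ 3 * (‖b‖ ^ 2 * ‖c‖) ≤ ‖a‖ ^ 3 * (‖b‖ ^ 3 + ‖c‖ ^ 3) :=
    mul_le_mul_of_nonneg_left (LSum.sq_mul_le hb hcn) (by positivity)
  have m2 : ‖a‖ ^ 3 * (‖c‖ ^ 2 * ‖b‖) ≤ ‖a‖ ^ 3 * (‖b‖ ^ 3 + ‖c‖ ^ 3) := by
    have := mul_le_mul_of_nonneg_left (LSum.sq_mul_le hcn hb) (by positivity : 0 ≤ ‖a‖ ^ 3)
    linarith
  rw [key]
  have t1 := norm_add_le (2 * (b * conj b * (a ^ 3 * conj c)) - 2 * (b * conj b * (a ^ 2 * conj a * c))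
      - a ^ 2 * conj a * c ^ 2 * conj b) (a ^ 2 * conj a * b ^ 2 * conj c)
  have t2 := norm_sub_le (2 * (b * conj b * (a ^ 3 * conj c)) - 2 * (b * conj b * (a ^ 2 * conj a * c)))
      (a ^ 2 * conj a * c ^ 2 * conj b)
  have t3 := norm_sub_le (2 * (b * conj b * (a ^ 3 * conj c))) (2 * (b * conj b * (a ^ 2 * conj a * c)))
  rw [n1, n2] at t3
  rw [n3] at t2
  rw [n4] at t1
  linarith

lemma rel_or {y : ℝ} (hy : 0 < y) (p q : ℤ × ℤ) :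
    av y p = 0 ∨ av y q = 0 ∨ av y (-p - q) = 0 ∨
      av y p * av y q + av y q * av y (-p - q) + av y (-p - q) * av y p = 0 := by
  by_cases hp : p = 0
  · left; rw [hp, LSum.av_zero]
  by_cases hq : q = 0
  · right; left; rw [hq, LSum.av_zero]
  by_cases hr : -p - q = 0
  · right; right; left; rw [hr, LSum.av_zero]
  right; right; right
  have h1 := LSum.lam_ne_zero hy hp
  have h2 := LSum.lam_ne_zero hy hq
  have h3 := LSum.lam_ne_zero hy hr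
  have h4 : lam y (-p - q) = -lam y p - lam y q := by rw [LSum.lam_sub, LSum.lam_neg]
  have h5 : lam y p + lam y q + lam y (-p - q) = 0 := by rw [h4]; ring
  unfold av
  rw [← mul_inv, ← mul_inv, ← mul_inv]
  field_simp
  linear_combination h5

/-- The kernel at a triple. -/
noncomputable def DK (y : ℝ) (P : (ℤ × ℤ) × (ℤ × ℤ)) : ℂ := Del (av y P.1) (av y P.2) (av y (LSum.thd P))

lemma norm_DK_le {y : ℝ} (hy : 0 < y) (P : (ℤ × ℤ) × (ℤ × ℤ)) :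
    ‖DK y P‖ ≤ 6 * (‖av y P.1‖ ^ 3 * (‖av y P.2‖ ^ 3 + ‖av y (LSum.thd P)‖ ^ 3)) := by
  unfold DK
  rcases rel_or hy P.1 P.2 with h | h | h | h
  · rw [h, Dl_zero_left, norm_zero]; positivity
  · rw [h, Dl_zero_mid, norm_zero]; positivity
  · rw [show av y (LSum.thd P) = 0 from h, Dl_zero_right, norm_zero]; positivity
  · exact norm_Del_le' h

lemma norm_DK_le_B3 {y : ℝ} (hy : 0 < y) (P : (ℤ × ℤ) × (ℤ × ℤ)) : ‖DK y P‖ ≤ 6 * LSum.B3 y P := by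
  refine (norm_DK_le hy P).trans ?_
  unfold LSum.B3
  have : 0 ≤ ‖av y P.2‖ ^ 3 * ‖av y (LSum.thd P)‖ ^ 3 := by positivity
  nlinarith

lemma summable_DK {y : ℝ} (hy : 0 < y) (W : (ℤ × ℤ) × (ℤ × ℤ) → ℝ) (C : ℝ) (hW : ∀ P, |W P| ≤ C) :
    Summable fun P => W P * (DK y P).re := by
  refine Summable.of_norm_bounded ((LSum.summable_B3 hy).mul_left (C * 6)) fun P => ?_
  rw [norm_mul, Real.norm_eq_abs, Real.norm_eq_abs]
  calc |W P| * |(DK y P).re| ≤ C * (6 * LSum.B3 y P) :=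
        mul_le_mul (hW P) ((Complex.abs_re_le_norm _).trans (norm_DK_le_B3 hy P)) (abs_nonneg _)
          ((abs_nonneg _).trans (hW P))
    _ = _ := by ring

/-! ### the weight -/

lemma abs_chiR (m : ℤ) : |chiR m| = 1 := by unfold chiR; split_ifs <;> simp

lemma abs_wA_le (m1 m2 : ℤ) : |wA m1 m2| ≤ 11 := by
  unfold wA
  rw [abs_mul, abs_chiR, one_mul]
  unfold uR
  split_ifs <;> norm_num [abs_le]

lemma abs_wB_le (m1 m2 : ℤ) : |wB m1 m2| ≤ 3 := by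
  unfold wB
  rw [abs_mul, abs_mul, abs_chiR, one_mul]
  unfold uR
  split_ifs <;> norm_num

/-- weight after relabelling -/
noncomputable def UW (m1 m2 : ℤ) : ℝ :=
  (wA (-m1 - m2) m1 + wB (-m1 - m2) m1) + (wB m2 (-m1 - m2) - wA m2 (-m1 - m2))

lemma abs_UW_le (m1 m2 : ℤ) : |UW m1 m2| ≤ 28 := by
  unfold UW
  have h1 := abs_le.1 (abs_wA_le (-m1 - m2) m1)
  have h2 := abs_le.1 (abs_wB_le (-m1 - m2) m1)
  have h3 := abs_le.1 (abs_wB_le m2 (-m1 - m2))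
  have h4 := abs_le.1 (abs_wA_le m2 (-m1 - m2))
  rw [abs_le]
  constructor <;> linarith [h1.1, h1.2, h2.1, h2.2, h3.1, h3.2, h4.1, h4.2]

lemma UW_diff (m : ℤ) : UW m (-m) - UW m 0 = -2 * Wh m := by
  unfold UW wA wB Wh
  have e1 : -m - -m = 0 := by ring
  have e2 : -m - 0 = -m := by ring
  rw [e1, e2]
  have c0 : chiR 0 = 1 := by simp [chiR]
  have u0 : uR 0 = 1 := by simp [uR]
  have cn : chiR (-m) = chiR m := by unfold chiR; simp only [even_neg]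
  have un : uR (-m) = uR m := by unfold uR; simp only [dvd_neg]
  have uu : uR m * uR m = uR m := by unfold uR; split_ifs <;> simp
  rw [c0, u0, cn, un]
  linear_combination (-9 * chiR m) * uu

/-! ### relabelling -/

lemma tsum_cyc (F : (ℤ × ℤ) × (ℤ × ℤ) → ℝ) : ∑' P, F (LSum.cyc P) = ∑' P, F P := LSum.cyc.tsum_eq F

lemma cyc_cyc (P : (ℤ × ℤ) × (ℤ × ℤ)) : LSum.cyc (LSum.cyc P) = (LSum.thd P, P.1) := by
  rw [LSum.cyc_apply (LSum.cyc P), LSum.thd_cyc]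
  rfl

lemma thd_cyc_cyc (P : (ℤ × ℤ) × (ℤ × ℤ)) : LSum.thd (LSum.cyc (LSum.cyc P)) = P.2 := by
  rw [LSum.thd_cyc]; rfl

lemma tsum_cycC (F : (ℤ × ℤ) × (ℤ × ℤ) → ℂ) : ∑' P, F (LSum.cyc P) = ∑' P, F P := LSum.cyc.tsum_eq F

lemma summable_DKC {y : ℝ} (hy : 0 < y) (W : (ℤ × ℤ) × (ℤ × ℤ) → ℝ) (C : ℝ) (hW : ∀ P, |W P| ≤ C) :
    Summable fun P => (W P : ℂ) * DK y P := by
  refine Summable.of_norm_bounded ((LSum.summable_B3 hy).mul_left (C * 6)) fun P => ?_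
  rw [norm_mul, Complex.norm_real, Real.norm_eq_abs]
  calc |W P| * ‖DK y P‖ ≤ C * (6 * LSum.B3 y P) :=
        mul_le_mul (hW P) (norm_DK_le_B3 hy P) (norm_nonneg _) ((abs_nonneg _).trans (hW P))
    _ = _ := by ring

/-- `T` as one weighted sum of the kernel. -/
theorem TL_eq {y : ℝ} (hy : 0 < y) : Summable (Tterm y) ∧
    TL y = ∑' P : (ℤ × ℤ) × (ℤ × ℤ), (UW P.1.1 P.2.1 : ℂ) * DK y P := by
  set F1 : (ℤ × ℤ) × (ℤ × ℤ) → ℂ := fun P =>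
    ((wA (-P.1.1 - P.2.1) P.1.1 + wB (-P.1.1 - P.2.1) P.1.1 : ℝ) : ℂ) * DK y P with hF1
  set F2 : (ℤ × ℤ) × (ℤ × ℤ) → ℂ := fun P =>
    ((wB P.2.1 (-P.1.1 - P.2.1) - wA P.2.1 (-P.1.1 - P.2.1) : ℝ) : ℂ) * DK y P with hF2
  have s1 : Summable F1 := summable_DKC hy
    (fun P => wA (-P.1.1 - P.2.1) P.1.1 + wB (-P.1.1 - P.2.1) P.1.1) 14 (fun P => by
    have h1 := abs_le.1 (abs_wA_le (-P.1.1 - P.2.1) P.1.1)
    have h2 := abs_le.1 (abs_wB_le (-P.1.1 - P.2.1) P.1.1)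
    rw [abs_le]
    constructor <;> linarith [h1.1, h1.2, h2.1, h2.2])
  have s2 : Summable F2 := summable_DKC hy
    (fun P => wB P.2.1 (-P.1.1 - P.2.1) - wA P.2.1 (-P.1.1 - P.2.1)) 14 (fun P => by
    have h1 := abs_le.1 (abs_wA_le P.2.1 (-P.1.1 - P.2.1))
    have h2 := abs_le.1 (abs_wB_le P.2.1 (-P.1.1 - P.2.1))
    rw [abs_le]
    constructor <;> linarith [h1.1, h1.2, h2.1, h2.2])
  have s1c : Summable fun P => F1 (LSum.cyc P) := LSum.cyc.summable_iff.2 s1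
  have s2c : Summable fun P => F2 (LSum.cyc (LSum.cyc P)) :=
    LSum.cyc.summable_iff.2 (LSum.cyc.summable_iff.2 s2)
  have t1 : ∑' P, F1 (LSum.cyc P) = ∑' P, F1 P := tsum_cycC F1
  have t2 : ∑' P, F2 (LSum.cyc (LSum.cyc P)) = ∑' P, F2 P :=
    (tsum_cycC fun P => F2 (LSum.cyc P)).trans (tsum_cycC F2)
  have e1 : ∀ P : (ℤ × ℤ) × (ℤ × ℤ), F1 (LSum.cyc P)
      = ((wA P.1.1 P.2.1 + wB P.1.1 P.2.1 : ℝ) : ℂ) * Del (av y P.2) (av y (-P.1 - P.2)) (av y P.1) := by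
    intro P
    have h1 : F1 (LSum.cyc P) = ((wA (-P.2.1 - (-P.1 - P.2).1) P.2.1
        + wB (-P.2.1 - (-P.1 - P.2).1) P.2.1 : ℝ) : ℂ) *
        Del (av y P.2) (av y (-P.1 - P.2)) (av y (LSum.thd (LSum.cyc P))) := rfl
    have h2 : -P.2.1 - (-P.1 - P.2).1 = P.1.1 := by
      simp only [Prod.fst_sub, Prod.fst_neg]; ring
    rw [h1, h2, LSum.thd_cyc]
  have e2 : ∀ P : (ℤ × ℤ) × (ℤ × ℤ), F2 (LSum.cyc (LSum.cyc P))
      = ((wB P.1.1 P.2.1 - wA P.1.1 P.2.1 : ℝ) : ℂ) * Del (av y (-P.1 - P.2)) (av y P.1) (av y P.2) := by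
    intro P
    have h1 : LSum.cyc (LSum.cyc P) = (-P.1 - P.2, P.1) := cyc_cyc P
    have h2 : -(-P.1 - P.2).1 - P.1.1 = P.2.1 := by
      simp only [Prod.fst_sub, Prod.fst_neg]; ring
    have h3 : F2 (-P.1 - P.2, P.1) = ((wB P.1.1 (-(-P.1 - P.2).1 - P.1.1)
        - wA P.1.1 (-(-P.1 - P.2).1 - P.1.1) : ℝ) : ℂ) *
        Del (av y (-P.1 - P.2)) (av y P.1) (av y (LSum.thd (-P.1 - P.2, P.1))) := rfl
    have h4 : LSum.thd (-P.1 - P.2, P.1) = P.2 := by rw [← h1]; exact thd_cyc_cyc P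
    rw [h1, h3, h2, h4]
  have hT : ∀ P, Tterm y P = F1 (LSum.cyc P) + F2 (LSum.cyc (LSum.cyc P)) := by
    intro P
    rw [e1, e2]
    unfold Tterm
    push_cast
    ring
  have hsT : Summable (Tterm y) := (s1c.add s2c).congr fun P => (hT P).symm
  refine ⟨hsT, ?_⟩
  unfold TL
  rw [tsum_congr hT, s1c.tsum_add s2c, t1, t2, ← s1.tsum_add s2]
  apply tsum_congr
  intro P
  simp only [hF1, hF2]
  unfold UW
  push_cast
  ring

theorem TL_re {y : ℝ} (hy : 0 < y) :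
    (TL y).re = ∑' P : (ℤ × ℤ) × (ℤ × ℤ), UW P.1.1 P.2.1 * (DK y P).re := by
  have hs : Summable fun P : (ℤ × ℤ) × (ℤ × ℤ) => (UW P.1.1 P.2.1 : ℂ) * DK y P :=
    summable_DKC hy (fun P => UW P.1.1 P.2.1) 28 fun P => abs_UW_le _ _
  rw [(TL_eq hy).2, Complex.re_tsum hs]
  apply tsum_congr
  intro P
  rw [Complex.re_ofReal_mul]

end StripC

end Pool.Agent.Lib.BM
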