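import Mathlib

set_option autoImplicit false

/-! Project BM, block B1: the creative telescoping certificate.

`g0, g1 = x g0'` solve the Bessel equation of order zero, `m0, ..., m4` is the system of the
fourth symmetric power of that equation (polarised). -/

namespace Pool.Agent.Lib.BM

/-- The certificate. -/
def telQ (g0 g1 m0 m1 m2 m3 m4 : ℝ → ℝ) (r t : ℝ) : ℝ :=
  m0 t * g0 (r * t) * (-16 * t ^ 2 + 24 * t ^ 4 + 4 * r ^ 2 * t ^ 2 - 16 * r ^ 2 * t ^ 4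
    + r ^ 4 * t ^ 4)
  + m0 t * g1 (r * t) * (-28 * t ^ 2 + 4 * r ^ 2 * t ^ 2)
  + m1 t * g0 (r * t) * (32 * t ^ 2 - 8 * r ^ 2 * t ^ 2)
  + m1 t * g1 (r * t) * (40 * t ^ 2 - 4 * r ^ 2 * t ^ 2)
  + m2 t * g0 (r * t) * (12 * r ^ 2 * t ^ 2 - 48 * t ^ 2)
  - 24 * (m3 t * g1 (r * t)) + 24 * (m4 t * g0 (r * t))

/-- The integrand `L g / r^2 * m0 * t`. -/
def telI (g0 g1 m0 : ℝ → ℝ) (r t : ℝ) : ℝ :=
  64 * (2 * (g0 (r * t) * m0 t * t ^ 3) + g1 (r * t) * m0 t * t ^ 3)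
  - 4 * (r ^ 2 * (25 * (g0 (r * t) * m0 t * t ^ 3) + 5 * (g1 (r * t) * m0 t * t ^ 3))
    + 18 * (g1 (r * t) * m0 t * t) + 8 * (g0 (r * t) * m0 t * t))
  + r ^ 2 * (r ^ 2 * (8 * (g0 (r * t) * m0 t * t ^ 3) + g1 (r * t) * m0 t * t ^ 3)
    + 12 * (g1 (r * t) * m0 t * t) + 8 * (g0 (r * t) * m0 t * t))

/-- Creative telescoping: `L_r [g(rt)] t f(t) = r^2 dQ/dt`. -/
theorem tel_hasDerivAt {g0 g1 m0 m1 m2 m3 m4 : ℝ → ℝ} {r t : ℝ} (hr : 0 < r) (ht : 0 < t)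
    (hg0 : HasDerivAt g0 (g1 (r * t) / (r * t)) (r * t))
    (hg1 : HasDerivAt g1 (r * t * g0 (r * t)) (r * t))
    (h0 : HasDerivAt m0 (4 * m1 t / t) t)
    (h1 : HasDerivAt m1 ((3 * m2 t + t ^ 2 * m0 t) / t) t)
    (h2 : HasDerivAt m2 ((2 * m3 t + 2 * t ^ 2 * m1 t) / t) t)
    (h3 : HasDerivAt m3 ((m4 t + 3 * t ^ 2 * m2 t) / t) t)
    (h4 : HasDerivAt m4 (4 * t ^ 2 * m3 t / t) t) :
    HasDerivAt (telQ g0 g1 m0 m1 m2 m3 m4 r) (telI g0 g1 m0 r t) t := by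
  have hlin : HasDerivAt (fun s : ℝ => r * s) r t := by
    simpa using (hasDerivAt_id t).const_mul r
  have hG0 : HasDerivAt (fun s : ℝ => g0 (r * s)) (g1 (r * t) / t) t := by
    have := hg0.comp t hlin
    refine this.congr_deriv ?_
    field_simp
  have hG1 : HasDerivAt (fun s : ℝ => g1 (r * s)) (r ^ 2 * t * g0 (r * t)) t := by
    have := hg1.comp t hlin
    refine this.congr_deriv ?_
    ring
  have hp2 : HasDerivAt (fun s : ℝ => s ^ 2) (2 * t) t := by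
    simpa using hasDerivAt_pow 2 t
  have hp4 : HasDerivAt (fun s : ℝ => s ^ 4) (4 * t ^ 3) t := by
    simpa using hasDerivAt_pow 4 t
  have ha : HasDerivAt (fun s : ℝ => -16 * s ^ 2 + 24 * s ^ 4 + 4 * r ^ 2 * s ^ 2
      - 16 * r ^ 2 * s ^ 4 + r ^ 4 * s ^ 4)
      (-16 * (2 * t) + 24 * (4 * t ^ 3) + 4 * r ^ 2 * (2 * t) - 16 * r ^ 2 * (4 * t ^ 3)
        + r ^ 4 * (4 * t ^ 3)) t :=
    ((((hp2.const_mul (-16)).add (hp4.const_mul 24)).add (hp2.const_mul (4 * r ^ 2))).sub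
      (hp4.const_mul (16 * r ^ 2))).add (hp4.const_mul (r ^ 4))
  have hb : HasDerivAt (fun s : ℝ => -28 * s ^ 2 + 4 * r ^ 2 * s ^ 2)
      (-28 * (2 * t) + 4 * r ^ 2 * (2 * t)) t :=
    (hp2.const_mul (-28)).add (hp2.const_mul (4 * r ^ 2))
  have hc : HasDerivAt (fun s : ℝ => 32 * s ^ 2 - 8 * r ^ 2 * s ^ 2)
      (32 * (2 * t) - 8 * r ^ 2 * (2 * t)) t :=
    (hp2.const_mul 32).sub (hp2.const_mul (8 * r ^ 2))
  have hd : HasDerivAt (fun s : ℝ => 40 * s ^ 2 - 4 * r ^ 2 * s ^ 2)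
      (40 * (2 * t) - 4 * r ^ 2 * (2 * t)) t :=
    (hp2.const_mul 40).sub (hp2.const_mul (4 * r ^ 2))
  have he : HasDerivAt (fun s : ℝ => 12 * r ^ 2 * s ^ 2 - 48 * s ^ 2)
      (12 * r ^ 2 * (2 * t) - 48 * (2 * t)) t :=
    (hp2.const_mul (12 * r ^ 2)).sub (hp2.const_mul 48)
  have key := (((((((h0.mul hG0).mul ha).add ((h0.mul hG1).mul hb)).add
    ((h1.mul hG0).mul hc)).add ((h1.mul hG1).mul hd)).add ((h2.mul hG0).mul he)).sub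
    ((h3.mul hG1).const_mul 24)).add ((h4.mul hG0).const_mul 24)
  have key2 := key.congr_of_eventuallyEq (f₁ := telQ g0 g1 m0 m1 m2 m3 m4 r)
    (Filter.Eventually.of_forall fun s => by simp [telQ])
  refine key2.congr_deriv ?_
  simp only [telI, Pi.mul_apply]
  have ht' : t ≠ 0 := ht.ne'
  field_simp
  ring

end Pool.Agent.Lib.BM
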